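import Pool.Agent.Lib.MP_35454f.Inv

/-!
# The area enclosed by the trajectories of a periodic motion
-/

set_option autoImplicit false

open MeasureTheory Filter Topology Complex Set
open UpperHalfPlane hiding I
open scoped ContDiff Manifold MatrixGroups Interval

namespace Pool.Agent.CG

variable {Γ : Subgroup SL(2, ℝ)} {F G : ℝ → ℂ → ℂ} {p : ℝ → ℂ → ℝ}

/-- The hyperbolic area enclosed by the trajectory of `z` during `[0, T]`. -/
noncomputable def ar (F G : ℝ → ℂ → ℂ) (T : ℝ) (z : ℂ) : ℝ :=
  ∫ t in (0:ℝ)..T, (G t z).re / (F t z).im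

lemma Mot.co_u (h : Mot F G) : CO (fun t z => (G t z).re / (F t z).im) :=
  h.c1G.re.co.div h.c1F.im.co h.yF_ne

lemma Mot.co_dU (h : Mot F G) : CO (dU F G) := by
  refine CO.subf (CO.smul ?_ h.c1G.co_dRe) (CO.smul ?_ h.c1F.co_dIm)
  · exact (CO.const 1).div h.c1F.im.co h.yF_ne
  · exact h.c1G.re.co.div (h.c1F.im.co.pow 2) fun t z hz => pow_ne_zero 2 (h.yF_ne t z hz)

lemma Mot.hasFDerivAt_u (h : Mot F G) (t : ℝ) {z : ℂ} (hz : z ∈ UU) :
    HasFDerivAt (fun z => (G t z).re / (F t z).im) (dU F G t z) z := by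
  have h1 := hasFDerivAt_div_pow (h.c1G.hasFDerivAt_re t hz) (h.c1F.hasFDerivAt_im t hz)
    (h.yF_ne t z hz) 1
  simp only [pow_one] at h1
  refine h1.congr_fderiv ?_
  ext w
  simp [dU]

lemma Mot.c1_ar (h : Mot F G) (T : ℝ) : ContDiffOn ℝ 1 (ar F G T) UU :=
  contDiffOn_param h.co_u h.co_dU (fun t _ hz => h.hasFDerivAt_u t hz) 0 T

/-- The variation of the area is given by the flux. -/
lemma Mot.fderiv_ar (h : Mot F G) {T : ℝ} (hT : ∀ z ∈ UU, F T z = F 0 z) {z : ℂ} (hz : z ∈ UU)
    (w : ℂ) : fderiv ℝ (ar F G T) z w = - ∫ t in (0:ℝ)..T, Zf F G t z w := by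
  have h1 : HasFDerivAt (ar F G T) (∫ s in (0:ℝ)..T, dU F G s z) z :=
    hasFDerivAt_param h.co_u h.co_dU (fun t _ hz => h.hasFDerivAt_u t hz) 0 T hz
  rw [h1.fderiv]
  rw [ContinuousLinearMap.intervalIntegral_apply ((h.co_dU.slice_t hz).intervalIntegrable _ _)]
  have h2 : ∀ t, HasDerivAt (fun s => dRe F s z w / (F s z).im)
      (dU F G t z w + Zf F G t z w) t := by
    intro t
    refine ((h.hasDerivAt_dRe t hz w).fun_div (h.hasDerivAt_im t hz) (h.yF_ne t z hz)).congr_deriv ?_
    have h0 := h.yF_ne t z hz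
    simp only [dU, Zf, sub_apply, smul_apply, smul_eq_mul]
    field_simp
    ring
  have hc1 : Continuous fun t => dU F G t z w := (h.co_dU.slice_t hz).clm_apply continuous_const
  have hc2 : Continuous fun t => Zf F G t z w := (h.co_Zf.slice_t hz).clm_apply continuous_const
  have h3 := intervalIntegral.integral_eq_sub_of_hasDerivAt (a := 0) (b := T) (fun t _ => h2 t)
    ((hc1.add hc2).intervalIntegrable _ _)
  rw [intervalIntegral.integral_add (hc1.intervalIntegrable _ _) (hc2.intervalIntegrable _ _)] at h3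
  have h4 : F T =ᶠ[𝓝 z] F 0 := by
    filter_upwards [isOpen_UU.mem_nhds hz] with w hw using hT w hw
  rw [dRe_apply, dRe_apply, h4.fderiv_eq, hT z hz, sub_self] at h3
  linarith

lemma Mot.wedge_ar (h : Mot F G) {T : ℝ} (hT : ∀ z ∈ UU, F T z = F 0 z) {z : ℂ} (hz : z ∈ UU)
    (β : ℂ →L[ℝ] ℝ) :
    wedge (fderiv ℝ (ar F G T) z) β = - ∫ t in (0:ℝ)..T, wedge (Zf F G t z) β := by
  have hc : ∀ w, Continuous fun t => Zf F G t z w :=
    fun w => (h.co_Zf.slice_t hz).clm_apply continuous_const
  simp only [wedge]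
  rw [h.fderiv_ar hT hz, h.fderiv_ar hT hz, intervalIntegral.integral_sub,
    intervalIntegral.integral_mul_const, intervalIntegral.integral_mul_const]
  · ring
  · exact ((hc 1).mul continuous_const).intervalIntegrable _ _
  · exact ((hc I).mul continuous_const).intervalIntegrable _ _

/-- The area is invariant. -/
lemma Eul.inv_ar (h : Eul Γ F G p) {T : ℝ} (hT : ∀ z ∈ UU, F T z = F 0 z) :
    InvFun Γ (ar F G T) := by
  intro g hg z hz
  rw [ar, ar]
  set c : ℝ := g 1 0 with hc
  have e1 : ∀ t, (G t (mob g z)).re / (F t (mob g z)).im =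
      (G t z).re / (F t z).im + 2 * (((c : ℂ) * G t z) / den g (F t z)).im := by
    intro t
    have hd := den_ne (g := g) (h.mem t z hz)
    have h0 := h.yF_ne t z hz
    rw [h.G_mob t hg hz, h.im_mob' t hg hz]
    have hD : (den g (F t z)).im = c * (F t z).im := im_den g _
    have hn : normSq (den g (F t z)) ≠ 0 := by simpa using hd
    set D := den g (F t z) with hDdef
    set Y := (F t z).im
    set v := G t z
    have e5 : v / D ^ 2 = ((normSq D : ℝ) : ℂ)⁻¹ * (v - ((2 * c * Y : ℝ) : ℂ) * (I * (v / D))) := by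
      have e6 : starRingEnd ℂ D = D - 2 * I * ((c * Y : ℝ) : ℂ) := by
        rw [← hD]
        apply Complex.ext <;> simp
        ring
      rw [normSq_eq_conj_mul_self, e6]
      have e7 : D - 2 * I * ((c * Y : ℝ) : ℂ) ≠ 0 := by
        rw [← e6]; simpa using hd
      push_cast at e7 ⊢
      have e8 : D - 2 * I * (c : ℂ) * (Y : ℂ) ≠ 0 := by rw [mul_assoc (2 * I)]; exact e7
      field_simp
    rw [e5, ← ofReal_inv, re_ofReal_mul, sub_re, re_ofReal_mul]
    simp only [mul_re, Complex.I_re, Complex.I_im, zero_mul, one_mul, zero_sub]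
    have e9 : ((c : ℂ) * v / D).im = c * (v / D).im := by rw [mul_div_assoc, im_ofReal_mul]
    rw [e9]
    field_simp
    ring
  simp only [e1]
  have hcD : Continuous fun t => den g (F t z) := by
    have := h.c1F.co.slice_t hz
    unfold den
    fun_prop
  have hcq : Continuous fun t => (c : ℂ) * G t z / den g (F t z) :=
    Continuous.div (continuous_const.mul (h.c1G.co.slice_t hz)) hcD
      fun t => den_ne (h.mem t z hz)
  rw [intervalIntegral.integral_add ((h.co_u.slice_t hz).intervalIntegrable _ _)]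
  · rw [add_eq_left, intervalIntegral.integral_const_mul]
    by_cases hc0 : c = 0
    · simp [hc0]
    · have h1 : ∀ t, HasDerivAt (fun s => Complex.log (den g (F s z)))
          ((c : ℂ) * G t z / den g (F t z)) t := by
        intro t
        have hsl : den g (F t z) ∈ slitPlane := by
          right
          rw [im_den]
          exact mul_ne_zero hc0 (h.yF_ne t z hz)
        have h2 : HasDerivAt (fun s => den g (F s z)) ((c : ℂ) * G t z) t :=
          (hasDerivAt_den g (F t z)).comp_of_eq t (h.dF t z hz) rfl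
        exact h2.clog_real hsl
      have h3 := intervalIntegral.integral_eq_sub_of_hasDerivAt (a := 0) (b := T)
        (fun t _ => h1 t) (hcq.intervalIntegrable _ _)
      rw [hT z hz, sub_self] at h3
      have h4 : ∫ t in (0:ℝ)..T, (((c : ℂ) * G t z) / den g (F t z)).im = 0 := by
        have h5 := imCLM.intervalIntegral_comp_comm (hcq.intervalIntegrable (μ := volume) 0 T)
        rw [h3] at h5
        simpa using h5
      rw [h4, mul_zero]
  · exact (continuous_const.mul (continuous_im.comp hcq)).intervalIntegrable _ _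

end Pool.Agent.CG
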