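import Mathlib

/-!
# Geodesics of the group of area-preserving diffeomorphisms of a closed hyperbolic surface

A closed surface `M` of constant curvature `-1` is a quotient `Γ \ ℍ` of the upper half-plane.
A curve of diffeomorphisms of `M` starting at the identity is lifted to a curve
`φ : ℝ → ℍ → ℍ` of diffeomorphisms of `ℍ` commuting with `Γ` and starting at the identity.
-/

set_option autoImplicit false

open Filter Topology Complex Set
open UpperHalfPlane hiding I
open scoped ContDiff Manifold MatrixGroups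

namespace Pool.Agent.CG

/-- `Γ \ ℍ` is a closed surface (and `Γ`, up to elements acting trivially, its group of deck
transformations): `Γ` is discrete, acts freely (up to elements acting trivially), and some compact
set meets every orbit. -/
structure IsClosedSurfaceGroup (Γ : Subgroup SL(2, ℝ)) : Prop where
  discrete : DiscreteTopology Γ
  free : ∀ γ ∈ Γ, ∀ z : ℍ, γ • z = z → ∀ w : ℍ, γ • w = w
  cocompact : ∃ K : Set ℍ, IsCompact K ∧ ∀ z : ℍ, ∃ γ ∈ Γ, γ • z ∈ K

/-- The position at time `t` of the particle starting at `w`, as a complex number. -/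
noncomputable def pos (φ : ℝ → ℍ → ℍ) (t : ℝ) (w : ℂ) : ℂ := ((φ t (ofComplex w) : ℍ) : ℂ)

/-- The velocity at time `t` of the particle starting at `w`, as a complex number. -/
noncomputable def vel (φ : ℝ → ℍ → ℍ) (t : ℝ) (w : ℂ) : ℂ := deriv (fun s => pos φ s w) t

/-- The covariant acceleration at time `t` of the particle starting at `w`, for the hyperbolic
metric `(dx² + dy²) / y²`: a curve `z` in the upper half-plane has covariant acceleration
`z'' + (i / y) z'²`. -/
noncomputable def covAcc (φ : ℝ → ℍ → ℍ) (t : ℝ) (w : ℂ) : ℂ :=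
  deriv (fun s => vel φ s w) t + I / ((pos φ t w).im : ℂ) * (vel φ t w) ^ 2

/-- The gradient at `z` of a real function `q` for the metric `(dx² + dy²) / y²`:
`y² (∂q/∂x + i ∂q/∂y)`. -/
noncomputable def hypGrad (q : ℍ → ℝ) (z : ℍ) : ℂ :=
  ((z.im : ℝ) : ℂ) ^ 2 *
    (((fderiv ℝ (fun w : ℂ => q (ofComplex w)) (z : ℂ) 1 : ℝ) : ℂ) +
      I * ((fderiv ℝ (fun w : ℂ => q (ofComplex w)) (z : ℂ) I : ℝ) : ℂ))

/-- `φ` is (the lift to `ℍ` of) a geodesic, starting at the identity, of the group of
area-preserving `C¹` diffeomorphisms of `Γ \ ℍ` with the right-invariant `L²` metric: each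
`φ t` is a bijection commuting with `Γ` and preserving the hyperbolic area form, positions and
velocities are jointly `C¹` in time and space, and the covariant acceleration of each particle is
minus the gradient of a pressure `p`, a function on `ℝ × (Γ \ ℍ)` which is jointly continuous and
`C¹` in space (the Euler equations in Lagrangian form). -/
structure IsGeodesic (Γ : Subgroup SL(2, ℝ)) (φ : ℝ → ℍ → ℍ) : Prop where
  start : ∀ z, φ 0 z = z
  bijective : ∀ t, Function.Bijective (φ t)
  equivariant : ∀ t, ∀ γ ∈ Γ, ∀ z, φ t (γ • z) = γ • φ t z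
  pos_contDiff : ContDiffOn ℝ 1 (fun q : ℝ × ℂ => pos φ q.1 q.2) {q | 0 < q.2.im}
  vel_contDiff : ContDiffOn ℝ 1 (fun q : ℝ × ℂ => vel φ q.1 q.2) {q | 0 < q.2.im}
  area : ∀ t, ∀ z : ℍ, (fderiv ℝ (pos φ t) (z : ℂ)).det = ((φ t z).im / z.im) ^ 2
  euler : ∃ p : ℝ → ℍ → ℝ, Continuous (fun q : ℝ × ℍ => p q.1 q.2) ∧
    (∀ t, ∀ γ ∈ Γ, ∀ z, p t (γ • z) = p t z) ∧
    (∀ t, ContDiffOn ℝ 1 (fun w : ℂ => p t (ofComplex w)) {w | 0 < w.im}) ∧
    ∀ t, ∀ z : ℍ, covAcc φ t (z : ℂ) = - hypGrad (p t) (φ t z)

end Pool.Agent.CG
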