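import Pool.Agent.Lib.MP_35454f.Main

/-!
# Conservation of energy; periodic motions are constant
-/

set_option autoImplicit false

open MeasureTheory Filter Topology Complex Set
open UpperHalfPlane hiding I
open scoped ContDiff Manifold MatrixGroups Interval

namespace Pool.Agent.CG

variable {Γ : Subgroup SL(2, ℝ)} {F G : ℝ → ℂ → ℂ} {p : ℝ → ℂ → ℝ}

lemma Eul.hasDerivAt_ee (h : Eul Γ F G p) (t : ℝ) {z : ℂ} (hz : z ∈ UU) :
    HasDerivAt (fun s => ee F G s z)
      (-(2 * ((gp F p t z).re * (G t z).re + (gp F p t z).im * (G t z).im))) t := by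
  have h0 := h.yF_ne t z hz
  have h1 : HasDerivAt (fun s => ((G s z).re ^ 2 + (G s z).im ^ 2) / (F s z).im ^ 2) _ t :=
    (((h.hasDerivAt_G_re t hz).fun_pow 2).fun_add ((h.hasDerivAt_G_im t hz).fun_pow 2)).fun_div
      ((h.hasDerivAt_im t hz).fun_pow 2) (pow_ne_zero 2 h0)
  refine h1.congr_deriv ?_
  field_simp
  push_cast
  ring

lemma Mot.wedge_dp (h : Mot F G) (p : ℝ → ℂ → ℝ) (t : ℝ) {z : ℂ} (hz : z ∈ UU) :
    wedge (dp F p t z) (Zf F G t z) =
      ((gp F p t z).re * (G t z).re + (gp F p t z).im * (G t z).im) / z.im ^ 2 := by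
  have hXY := h.wXY t hz
  simp only [Zf, dp, wedge_add_left, wedge_sub_right, wedge_smul_left, wedge_smul_right,
    wedge_self]
  rw [wedge_swap (dIm F t z) (dRe F t z), hXY]
  have h1 := h.yF_ne t z hz
  have h2 : z.im ≠ 0 := (mem_UU.mp hz).ne'
  field_simp
  ring

lemma Eul.c1_pF (h : Eul Γ F G p) (t : ℝ) : ContDiffOn ℝ 1 (fun z => p t (F t z)) UU :=
  (h.pc1 t).comp (h.c1F.slice t) fun z hz => h.mem t z hz

/-- **Conservation of energy**. -/
lemma Eul.energy_const (h : Eul Γ F G p) {χ : ℂ → ℝ} (hχ : IsCut Γ χ) (t : ℝ) :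
    ∫ z, χ z * (ee F G t z / z.im ^ 2) = ∫ z, χ z * (ee F G 0 z / z.im ^ 2) := by
  have hy : ∀ z ∈ UU, z.im ≠ 0 := fun z hz => (mem_UU.mp hz).ne'
  have hco : CO (fun t z => -(2 * ((gp F p t z).re * (G t z).re +
      (gp F p t z).im * (G t z).im)) / z.im ^ 2) := by
    have hre : CO (fun t z => (gp F p t z).re) := continuous_re.comp_continuousOn h.co_gp
    have him : CO (fun t z => (gp F p t z).im) := continuous_im.comp_continuousOn h.co_gp
    exact (CO.neg ((CO.const 2).mul ((hre.mul h.c1G.re.co).add (him.mul h.c1G.im.co)))).div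
      (co_im.pow 2) fun t z hz => pow_ne_zero 2 (hy z hz)
  have e1 : ∀ z ∈ UU, ee F G t z / z.im ^ 2 = ee F G 0 z / z.im ^ 2 + ∫ s in (0:ℝ)..t,
      -(2 * ((gp F p s z).re * (G s z).re + (gp F p s z).im * (G s z).im)) / z.im ^ 2 := by
    intro z hz
    rw [intervalIntegral.integral_eq_sub_of_hasDerivAt
      (fun s _ => (h.hasDerivAt_ee s hz).div_const (z.im ^ 2))
      ((hco.slice_t hz).intervalIntegrable _ _)]
    ring
  have hee : ∀ t, ContinuousOn (fun z => ee F G t z / z.im ^ 2) UU := fun t =>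
    (h.co_ee.slice t).div (Complex.continuous_im.pow 2).continuousOn
      fun z hz => pow_ne_zero 2 (hy z hz)
  calc ∫ z, χ z * (ee F G t z / z.im ^ 2)
      = ∫ z, (χ z * (ee F G 0 z / z.im ^ 2) + χ z * ∫ s in (0:ℝ)..t,
          -(2 * ((gp F p s z).re * (G s z).re + (gp F p s z).im * (G s z).im)) / z.im ^ 2) := by
        congr 1
        ext z
        by_cases hz : z ∈ UU
        · rw [e1 z hz]; ring
        · simp [image_eq_zero_of_notMem_tsupport fun hh => hz (hχ.supp hh)]
    _ = (∫ z, χ z * (ee F G 0 z / z.im ^ 2)) + ∫ z, χ z * ∫ s in (0:ℝ)..t,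
          -(2 * ((gp F p s z).re * (G s z).re + (gp F p s z).im * (G s z).im)) / z.im ^ 2 :=
        integral_add (hχ.int (hee 0)) (hχ.int (hco.continuousOn_integral 0 t))
    _ = ∫ z, χ z * (ee F G 0 z / z.im ^ 2) := by
        rw [fubini hχ.c1.continuous hχ.cpt hχ.supp hco]
        have e2 : ∀ s, ∫ z, χ z * (-(2 * ((gp F p s z).re * (G s z).re +
            (gp F p s z).im * (G s z).im)) / z.im ^ 2) = 0 := by
          intro s
          have h1 := h.flux_zero hχ s (h.c1_pF s) (h.inv_pF s)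
          have e3 : ∀ z, χ z * (-(2 * ((gp F p s z).re * (G s z).re +
            (gp F p s z).im * (G s z).im)) / z.im ^ 2) =
            (-2) * (χ z * wedge (fderiv ℝ (fun z => p s (F s z)) z) (Zf F G s z)) := by
            intro z
            by_cases hz : z ∈ UU
            · rw [(h.hasFDerivAt_p s hz).fderiv, h.wedge_dp p s hz]
              ring
            · simp [image_eq_zero_of_notMem_tsupport fun hh => hz (hχ.supp hh)]
          simp only [e3]
          rw [integral_const_mul, h1, mul_zero]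
        simp only [e2]
        simp

/-- A closed motion has zero velocity. -/
theorem Eul.velocity_zero (h : Eul Γ F G p) {χ : ℂ → ℝ} (hχ : IsCut Γ χ) {T : ℝ} (hT0 : 0 < T)
    (hT : ∀ z ∈ UU, F T z = F 0 z) (t : ℝ) {z : ℂ} (hz : z ∈ UU) : G t z = 0 := by
  have hy : ∀ z ∈ UU, z.im ≠ 0 := fun z hz => (mem_UU.mp hz).ne'
  have h1 := h.energy_zero hχ hT0 hT
  have hE : ∀ s, ∫ z, χ z * (ee F G s z / z.im ^ 2) = ∫ z, χ z * (ee F G 0 z / z.im ^ 2) :=
    h.energy_const hχ
  simp only [hE] at h1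
  rw [intervalIntegral.integral_const, sub_zero, smul_eq_mul] at h1
  have h2 : ∀ s, ∀ z, 0 ≤ χ z * (ee F G s z / z.im ^ 2) := fun s z =>
    mul_nonneg (hχ.nonneg z) (by unfold ee; positivity)
  have h3 : 0 ≤ ∫ z, χ z * (ee F G 0 z / z.im ^ 2) := integral_nonneg (h2 0)
  have h4 : ∫ z, χ z * (ee F G 0 z / z.im ^ 2) = 0 := by nlinarith
  rw [← hE t] at h4
  have hcont : Continuous fun z => χ z * (ee F G t z / z.im ^ 2) := by
    have hco : CO (fun t z => ee F G t z / z.im ^ 2) :=
      h.co_ee.div (co_im.pow 2) fun t z hz => pow_ne_zero 2 (hy z hz)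
    exact (hco.continuous_mul hχ.c1.continuous hχ.supp).comp
      (continuous_const.prodMk continuous_id : Continuous fun z : ℂ => (t, z))
  have h5 : (fun z => χ z * (ee F G t z / z.im ^ 2)) = 0 := by
    have hi : Integrable fun z => χ z * (ee F G t z / z.im ^ 2) :=
      hcont.integrable_of_hasCompactSupport hχ.cpt.mul_right
    have := (integral_eq_zero_iff_of_nonneg (h2 t) hi).mp h4
    exact (hcont.ae_eq_iff_eq volume continuous_const).mp this
  obtain ⟨g, hg, hgz⟩ := hχ.cover z hz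
  have h6 := congrFun h5 (mob g z)
  simp only [Pi.zero_apply] at h6
  have h7 : ee F G t (mob g z) = 0 := by
    have h8 : 0 < (mob g z).im := mob_mem hz
    rcases mul_eq_zero.mp h6 with h9 | h9
    · exact absurd h9 hgz.ne'
    · rcases div_eq_zero_iff.mp h9 with h10 | h10
      · exact h10
      · exact absurd h10 (pow_ne_zero 2 h8.ne')
  rw [h.inv_ee t g hg z hz, ee_eq] at h7
  rcases div_eq_zero_iff.mp h7 with h10 | h10
  · exact normSq_eq_zero.mp h10
  · exact absurd h10 (pow_ne_zero 2 (h.yF_ne t z hz))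

/-- **A closed motion is constant.** -/
theorem Eul.motion_const (h : Eul Γ F G p) {χ : ℂ → ℝ} (hχ : IsCut Γ χ) {T : ℝ} (hT0 : 0 < T)
    (hT : ∀ z ∈ UU, F T z = F 0 z) (t : ℝ) {z : ℂ} (hz : z ∈ UU) : F t z = z := by
  rw [h.eq_integral t hz, h.start z hz]
  simp [fun s => h.velocity_zero hχ hT0 hT s hz]

end Pool.Agent.CG
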