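import Pool.Agent.Lib.MP_35454f.Forms

/-!
# Geodesics of the group of area-preserving diffeomorphisms, in Lagrangian variables
-/

set_option autoImplicit false

open MeasureTheory Filter Topology Complex Set
open UpperHalfPlane hiding I
open scoped ContDiff Manifold MatrixGroups Interval

namespace Pool.Agent.CG

/-- An incompressible motion satisfying the Euler equations with pressure `p`. -/
structure Eul (Γ : Subgroup SL(2, ℝ)) (F G : ℝ → ℂ → ℂ) (p : ℝ → ℂ → ℝ) : Prop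
    extends Mot F G where
  start : ∀ z ∈ UU, F 0 z = z
  equiv : ∀ t, ∀ g ∈ Γ, ∀ z ∈ UU, F t (mob g z) = mob g (F t z)
  pinv : ∀ t, InvFun Γ (p t)
  pc1 : ∀ t, ContDiffOn ℝ 1 (p t) UU
  pco : CO p
  acc : ∀ t, ∀ z ∈ UU, HasDerivAt (fun s => G s z)
    (-(I / (F t z).im * (G t z) ^ 2) - ((F t z).im : ℂ) ^ 2 *
      (((fderiv ℝ (p t) (F t z) 1 : ℝ) : ℂ) + I * ((fderiv ℝ (p t) (F t z) I : ℝ) : ℂ))) t

variable {Γ : Subgroup SL(2, ℝ)} {F G : ℝ → ℂ → ℂ} {p : ℝ → ℂ → ℝ}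

/-- The pressure gradient along the motion. -/
noncomputable def gp (F : ℝ → ℂ → ℂ) (p : ℝ → ℂ → ℝ) (t : ℝ) (z : ℂ) : ℂ :=
  ((fderiv ℝ (p t) (F t z) 1 : ℝ) : ℂ) + I * ((fderiv ℝ (p t) (F t z) I : ℝ) : ℂ)

lemma gp_re (F : ℝ → ℂ → ℂ) (p : ℝ → ℂ → ℝ) (t : ℝ) (z : ℂ) :
    (gp F p t z).re = fderiv ℝ (p t) (F t z) 1 := by simp [gp]

lemma gp_im (F : ℝ → ℂ → ℂ) (p : ℝ → ℂ → ℝ) (t : ℝ) (z : ℂ) :
    (gp F p t z).im = fderiv ℝ (p t) (F t z) I := by simp [gp]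

lemma Eul.co_gp (h : Eul Γ F G p) : CO (gp F p) := by
  have h1 : CO (fun t z => -(deriv (fun s => G s z) t + I / (F t z).im * (G t z) ^ 2) /
      ((F t z).im : ℂ) ^ 2) := by
    have hy : ContinuousOn (fun q : ℝ × ℂ => ((F q.1 q.2).im : ℂ)) UT :=
      continuous_ofReal.comp_continuousOn h.c1F.im.co
    have hy0 : ∀ q ∈ UT, ((F q.1 q.2).im : ℂ) ≠ 0 := fun q hq =>
      ofReal_ne_zero.mpr (h.yF_ne q.1 q.2 hq)
    refine ContinuousOn.div (ContinuousOn.neg (ContinuousOn.add h.c1G.co_deriv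
      (ContinuousOn.mul (ContinuousOn.div continuousOn_const hy hy0)
        (ContinuousOn.pow h.c1G.co 2)))) (hy.pow 2) fun q hq => pow_ne_zero 2 (hy0 q hq)
  refine ContinuousOn.congr h1 fun q hq => ?_
  have hy0 : ((F q.1 q.2).im : ℂ) ≠ 0 := ofReal_ne_zero.mpr (h.yF_ne q.1 q.2 hq)
  simp only
  rw [(h.acc q.1 q.2 hq).deriv, gp]
  field_simp
  ring

/-- derivative of a real function along the motion -/
lemma fderiv_comp_eq {q : ℂ → ℝ} {t : ℝ} {z : ℂ} {w : ℂ} :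
    ((fderiv ℝ q (F t z)).comp (fderiv ℝ (F t) z)) w =
      fderiv ℝ q (F t z) 1 * dRe F t z w + fderiv ℝ q (F t z) I * dIm F t z w := by
  rw [ContinuousLinearMap.comp_apply, dRe_apply, dIm_apply]
  set v := fderiv ℝ (F t) z w
  have hv : v = v.re • (1:ℂ) + v.im • I := by apply Complex.ext <;> simp
  conv_lhs => rw [hv]
  rw [map_add, map_smul, map_smul, smul_eq_mul, smul_eq_mul]
  ring

/-- The differential of `p ∘ F`. -/
noncomputable def dp (F : ℝ → ℂ → ℂ) (p : ℝ → ℂ → ℝ) (t : ℝ) (z : ℂ) : ℂ →L[ℝ] ℝ :=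
  (gp F p t z).re • dRe F t z + (gp F p t z).im • dIm F t z

lemma Eul.hasFDerivAt_p (h : Eul Γ F G p) (t : ℝ) {z : ℂ} (hz : z ∈ UU) :
    HasFDerivAt (fun z => p t (F t z)) (dp F p t z) z := by
  have h1 : HasFDerivAt (p t) (fderiv ℝ (p t) (F t z)) (F t z) :=
    (((h.pc1 t).contDiffAt (isOpen_UU.mem_nhds (h.mem t z hz))).differentiableAt
      one_ne_zero).hasFDerivAt
  refine (h1.comp z (h.c1F.hasFDerivAt t hz)).congr_fderiv ?_
  ext w
  rw [fderiv_comp_eq, dp, gp_re, gp_im]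
  rfl

lemma Eul.co_dp (h : Eul Γ F G p) : CO (dp F p) :=
  CO.addf (CO.smul (continuous_re.comp_continuousOn h.co_gp) h.c1F.co_dRe)
    (CO.smul (continuous_im.comp_continuousOn h.co_gp) h.c1F.co_dIm)

/-- Half the differential of the energy density. -/
noncomputable def dE (F G : ℝ → ℂ → ℂ) (t : ℝ) (z : ℂ) : ℂ →L[ℝ] ℝ :=
  ((G t z).re / (F t z).im ^ 2) • dRe G t z + ((G t z).im / (F t z).im ^ 2) • dIm G t z -
    (((G t z).re ^ 2 + (G t z).im ^ 2) / (F t z).im ^ 3) • dIm F t z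

lemma Mot.hasFDerivAt_ee (h : Mot F G) (t : ℝ) {z : ℂ} (hz : z ∈ UU) :
    HasFDerivAt (fun z => 1 / 2 * ee F G t z) (dE F G t z) z := by
  have hsq : HasFDerivAt (fun z => (G t z).re ^ 2 + (G t z).im ^ 2)
      ((2 * (G t z).re) • dRe G t z + (2 * (G t z).im) • dIm G t z) z := by
    have := (hasFDerivAt_pow' (h.c1G.hasFDerivAt_re t hz) 2).fun_add
      (hasFDerivAt_pow' (h.c1G.hasFDerivAt_im t hz) 2)
    refine this.congr_fderiv ?_
    ext w
    simp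
  have h1 := (hasFDerivAt_div_pow hsq (h.c1F.hasFDerivAt_im t hz) (h.yF_ne t z hz) 2).const_mul
    (1 / 2 : ℝ)
  refine h1.congr_fderiv ?_
  ext w
  have h0 := h.yF_ne t z hz
  simp only [dE, add_apply, smul_apply, sub_apply, smul_eq_mul]
  field_simp
  push_cast
  ring

lemma Mot.co_dE (h : Mot F G) : CO (dE F G) := by
  have hy := h.yF_ne
  refine CO.subf (CO.addf (CO.smul ?_ h.c1G.co_dRe) (CO.smul ?_ h.c1G.co_dIm))
    (CO.smul ?_ h.c1F.co_dIm)
  · exact h.c1G.re.co.div (h.c1F.im.co.pow 2) fun t z hz => pow_ne_zero 2 (hy t z hz)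
  · exact h.c1G.im.co.div (h.c1F.im.co.pow 2) fun t z hz => pow_ne_zero 2 (hy t z hz)
  · exact CO.div ((h.c1G.re.co.pow 2).add (h.c1G.im.co.pow 2)) (h.c1F.im.co.pow 3)
      fun t z hz => pow_ne_zero 3 (hy t z hz)

/-- The Lagrangian density `l = ½ |u|² - p`. -/
noncomputable def lag (F G : ℝ → ℂ → ℂ) (p : ℝ → ℂ → ℝ) (t : ℝ) (z : ℂ) : ℝ :=
  1 / 2 * ee F G t z - p t (F t z)

lemma Eul.co_pF (h : Eul Γ F G p) : CO (fun t z => p t (F t z)) := by
  have h1 : ContinuousOn (fun q : ℝ × ℂ => (q.1, F q.1 q.2)) UT :=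
    continuousOn_fst.prodMk h.c1F.co
  exact ContinuousOn.comp (g := fun q : ℝ × ℂ => p q.1 q.2) h.pco h1
    fun q hq => h.mem q.1 q.2 hq

lemma Eul.co_lag (h : Eul Γ F G p) : CO (lag F G p) :=
  ((CO.const (1/2)).mul h.co_ee).sub h.co_pF

lemma Eul.hasFDerivAt_lag (h : Eul Γ F G p) (t : ℝ) {z : ℂ} (hz : z ∈ UU) :
    HasFDerivAt (lag F G p t) (dE F G t z - dp F p t z) z :=
  (h.hasFDerivAt_ee t hz).sub (h.hasFDerivAt_p t hz)

lemma Eul.co_dlag (h : Eul Γ F G p) : CO (fun t z => dE F G t z - dp F p t z) :=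
  h.co_dE.subf h.co_dp

lemma Eul.hasDerivAt_G_re (h : Eul Γ F G p) (t : ℝ) {z : ℂ} (hz : z ∈ UU) :
    HasDerivAt (fun s => (G s z).re) (2 * (G t z).re * (G t z).im / (F t z).im -
      (F t z).im ^ 2 * (gp F p t z).re) t := by
  have h1 := reCLM.hasFDerivAt.comp_hasDerivAt t (h.acc t z hz)
  refine h1.congr_deriv ?_
  have h0 := h.yF_ne t z hz
  rw [← gp]
  simp only [reCLM_apply]
  have e1 : I / ((F t z).im : ℂ) = (((F t z).im⁻¹ : ℝ) : ℂ) * I := by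
    push_cast
    rw [div_eq_mul_inv, mul_comm]
  rw [e1]
  have e2 : ((F t z).im : ℂ) ^ 2 = (((F t z).im ^ 2 : ℝ) : ℂ) := by push_cast; rfl
  rw [e2]
  simp only [sub_re, neg_re, mul_assoc, re_ofReal_mul]
  simp [pow_two]
  field_simp
  ring

lemma Eul.hasDerivAt_G_im (h : Eul Γ F G p) (t : ℝ) {z : ℂ} (hz : z ∈ UU) :
    HasDerivAt (fun s => (G s z).im) (-((G t z).re ^ 2 - (G t z).im ^ 2) / (F t z).im -
      (F t z).im ^ 2 * (gp F p t z).im) t := by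
  have h1 := imCLM.hasFDerivAt.comp_hasDerivAt t (h.acc t z hz)
  refine h1.congr_deriv ?_
  have h0 := h.yF_ne t z hz
  rw [← gp]
  simp only [imCLM_apply]
  have e1 : I / ((F t z).im : ℂ) = (((F t z).im⁻¹ : ℝ) : ℂ) * I := by
    push_cast
    rw [div_eq_mul_inv, mul_comm]
  rw [e1]
  have e2 : ((F t z).im : ℂ) ^ 2 = (((F t z).im ^ 2 : ℝ) : ℂ) := by push_cast; rfl
  rw [e2]
  simp only [sub_im, neg_im, mul_assoc, im_ofReal_mul]
  simp [pow_two]
  field_simp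
  ring

/-- Weber's formula, infinitesimal version. -/
lemma Eul.hasDerivAt_Af (h : Eul Γ F G p) (t : ℝ) {z : ℂ} (hz : z ∈ UU) (w : ℂ) :
    HasDerivAt (fun s => Af F G s z w) ((dE F G t z - dp F p t z) w) t := by
  have h0 := h.yF_ne t z hz
  have h1 : HasDerivAt (fun s => (G s z).re / (F s z).im ^ 2 * dRe F s z w +
      (G s z).im / (F s z).im ^ 2 * dIm F s z w) _ t :=
    (((h.hasDerivAt_G_re t hz).fun_div ((h.hasDerivAt_im t hz).fun_pow 2)
      (pow_ne_zero 2 h0)).mul (h.hasDerivAt_dRe t hz w)).add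
    (((h.hasDerivAt_G_im t hz).fun_div ((h.hasDerivAt_im t hz).fun_pow 2)
      (pow_ne_zero 2 h0)).mul (h.hasDerivAt_dIm t hz w))
  refine h1.congr_deriv ?_
  simp only [dE, dp, add_apply, smul_apply, sub_apply, smul_eq_mul]
  field_simp
  push_cast
  ring

/-- The potential in Weber's formula. -/
noncomputable def th (F G : ℝ → ℂ → ℂ) (p : ℝ → ℂ → ℝ) (t : ℝ) (z : ℂ) : ℝ :=
  ∫ s in (0:ℝ)..t, lag F G p s z

lemma Eul.c1_th (h : Eul Γ F G p) (t : ℝ) : ContDiffOn ℝ 1 (th F G p t) UU :=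
  contDiffOn_param h.co_lag h.co_dlag (fun t _ hz => h.hasFDerivAt_lag t hz) 0 t

/-- **Weber's formula**. -/
lemma Eul.weber (h : Eul Γ F G p) (t : ℝ) {z : ℂ} (hz : z ∈ UU) :
    fderiv ℝ (th F G p t) z = Af F G t z - Af F G 0 z := by
  have h1 : HasFDerivAt (th F G p t) (∫ s in (0:ℝ)..t, (dE F G s z - dp F p s z)) z :=
    hasFDerivAt_param h.co_lag h.co_dlag (fun t _ hz => h.hasFDerivAt_lag t hz) 0 t hz
  rw [h1.fderiv]
  ext w
  rw [ContinuousLinearMap.intervalIntegral_apply ((h.co_dlag.slice_t hz).intervalIntegrable _ _)]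
  rw [sub_apply]
  refine intervalIntegral.integral_eq_sub_of_hasDerivAt (fun s _ => h.hasDerivAt_Af s hz w) ?_
  exact ((h.co_dlag.slice_t hz).clm_apply continuous_const).intervalIntegrable _ _

/-- **Conservation of vorticity**. -/
lemma Eul.om_const (h : Eul Γ F G p) (t : ℝ) {z : ℂ} (hz : z ∈ UU) :
    Om F G t z = Om F G 0 z := by
  have h1 := (h.wd_Af t).sub (h.wd_Af 0)
  have h2 : WD (fun z => Af F G t z - Af F G 0 z) (fun _ => 0) :=
    (WD.exact (h.c1_th t)).congr (fun z hz => (h.weber t hz).symm) (fun _ _ => rfl)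
  have := h1.unique h2 z hz
  linarith

end Pool.Agent.CG
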