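import Pool.Agent.Lib.MP_35454f.Lift
import Pool.Agent.Lib.MP_35454f.Defs

/-!
# No closed geodesics
-/

set_option autoImplicit false

open Filter Topology Complex Set
open UpperHalfPlane hiding I
open scoped ContDiff Manifold MatrixGroups

namespace Pool.Agent.CG

lemma det_clm (L : ℂ →L[ℝ] ℂ) : L.det = (L 1).re * (L I).im - (L I).re * (L 1).im := by
  have h : L.det = LinearMap.det (L : ℂ →ₗ[ℝ] ℂ) := rfl
  rw [h, ← LinearMap.det_toMatrix basisOneI, Matrix.det_fin_two]
  simp [LinearMap.toMatrix_apply]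

lemma ofComplex_mem {z : ℂ} (hz : z ∈ UU) : ((ofComplex z : ℍ) : ℂ) = z := by
  rw [ofComplex_apply_of_im_pos hz]

lemma continuousOn_ofComplex : ContinuousOn ofComplex UU := by
  rw [isOpenEmbedding_coe.isInducing.continuousOn_iff]
  refine continuousOn_id.congr fun z hz => ?_
  exact ofComplex_mem hz

lemma ofComplex_mob (g : SL(2, ℝ)) {z : ℂ} (hz : z ∈ UU) :
    ofComplex (mob g z) = g • ofComplex z := by
  apply UpperHalfPlane.ext
  rw [ofComplex_mem (mob_mem hz), coe_smul_eq, ofComplex_mem hz]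

variable {Γ : Subgroup SL(2, ℝ)} {φ : ℝ → ℍ → ℍ}

theorem IsGeodesic.eul (h : IsGeodesic Γ φ) :
    ∃ p : ℝ → ℂ → ℝ, Eul Γ (pos φ) (vel φ) p := by
  obtain ⟨p, hpc, hpi, hp1, hacc⟩ := h.euler
  have hC1F : C1 (pos φ) := h.pos_contDiff
  have hC1G : C1 (vel φ) := h.vel_contDiff
  refine ⟨fun t w => p t (ofComplex w), ⟨⟨?_, hC1F, hC1G, ?_, ?_⟩, ?_, ?_, ?_, ?_, ?_, ?_⟩⟩
  · intro t z _
    exact coe_mem_UU _
  · intro t z hz
    exact hC1F.hasDerivAt t hz
  · intro t z hz
    have h1 := h.area t (ofComplex z)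
    rw [ofComplex_mem hz, det_clm] at h1
    change (fderiv ℝ (pos φ t) z 1).re * (fderiv ℝ (pos φ t) z I).im -
      (fderiv ℝ (pos φ t) z I).re * (fderiv ℝ (pos φ t) z 1).im = _
    rw [h1, div_pow]
    have h2 : (ofComplex z).im = z.im := by
      rw [← UpperHalfPlane.coe_im, ofComplex_mem hz]
    rw [h2]
    rfl
  · intro z hz
    rw [pos, h.start, ofComplex_mem hz]
  · intro t g hg z hz
    rw [pos, ofComplex_mob g hz, h.equivariant t g hg, coe_smul_eq]
    rfl
  · intro t g hg z hz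
    simp only
    rw [ofComplex_mob g hz, hpi t g hg]
  · exact fun t => hp1 t
  · have h1 : ContinuousOn (fun q : ℝ × ℂ => (q.1, ofComplex q.2)) UT :=
      continuousOn_fst.prodMk (continuousOn_ofComplex.comp continuousOn_snd fun q hq => hq)
    exact hpc.comp_continuousOn h1
  · intro t z hz
    have h1 := hacc t (ofComplex z)
    rw [ofComplex_mem hz, covAcc, hypGrad] at h1
    have h2 := hC1G.hasDerivAt t hz
    refine h2.congr_deriv ?_
    have h3 : ((φ t (ofComplex z) : ℍ) : ℂ) = pos φ t z := rfl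
    have h4 : (φ t (ofComplex z)).im = (pos φ t z).im := rfl
    rw [h3, h4] at h1
    linear_combination h1

/-- **Main theorem.** -/
theorem no_closed_geodesic (hΓ : IsClosedSurfaceGroup Γ) (hφ : IsGeodesic Γ φ) {T : ℝ}
    (hT : 0 < T) (hret : ∀ z, ∃ γ ∈ Γ, φ T z = γ • z) (t : ℝ) (z : ℍ) : φ t z = z := by
  have := hΓ.discrete
  obtain ⟨χ, h1, h2, h3, h4, h5, h6⟩ := exists_chi Γ hΓ.cocompact
  have hχ : IsCut Γ χ := ⟨h1, h2, h3, h4, h5, h6⟩
  obtain ⟨p, hE⟩ := hφ.eul
  have hcont : Continuous (φ T) := by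
    have e1 : ContinuousOn (pos φ T) UU := (hE.c1F.co).slice T
    rw [isOpenEmbedding_coe.isInducing.continuous_iff]
    have e2 : (UpperHalfPlane.coe ∘ φ T) = (pos φ T) ∘ UpperHalfPlane.coe := by
      ext w
      simp [pos, ofComplex_apply]
    rw [e2]
    exact e1.comp_continuous continuous_coe fun w => coe_mem_UU w
  have hid : ∀ z : ℍ, φ T z = z := fun z =>
    eq_id_of_orbits Γ hΓ.free hΓ.cocompact hcont (hφ.equivariant T) hret z
  have hT' : ∀ z ∈ UU, pos φ T z = pos φ 0 z := by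
    intro z _
    rw [pos, pos, hid, hφ.start]
  have h7 := hE.motion_const hχ hT hT' t (coe_mem_UU z)
  rw [pos, ofComplex_apply] at h7
  exact UpperHalfPlane.ext h7

end Pool.Agent.CG
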