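import Pool.Agent.Lib.MP_35454f.Mot

/-!
# The one-forms attached to a motion
-/

set_option autoImplicit false

open MeasureTheory Filter Topology Complex Set
open UpperHalfPlane hiding I
open scoped ContDiff Manifold MatrixGroups Interval

namespace Pool.Agent.CG

section C1ops

lemma C1.add {g g' : ℝ → ℂ → ℝ} (h : C1 g) (h' : C1 g') : C1 (fun t z => g t z + g' t z) :=
  ContDiffOn.add h h'

lemma C1.mul {g g' : ℝ → ℂ → ℝ} (h : C1 g) (h' : C1 g') : C1 (fun t z => g t z * g' t z) :=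
  ContDiffOn.mul h h'

lemma C1.div {g g' : ℝ → ℂ → ℝ} (h : C1 g) (h' : C1 g') (h0 : ∀ t, ∀ z ∈ UU, g' t z ≠ 0) :
    C1 (fun t z => g t z / g' t z) :=
  ContDiffOn.div h h' fun q hq => h0 q.1 q.2 hq

lemma C1.pow {g : ℝ → ℂ → ℝ} (h : C1 g) (n : ℕ) : C1 (fun t z => g t z ^ n) :=
  ContDiffOn.pow h n

lemma C1.const (c : ℝ) : C1 (fun _ _ => c) := contDiffOn_const

lemma CO.add {g g' : ℝ → ℂ → ℝ} (h : CO g) (h' : CO g') : CO (fun t z => g t z + g' t z) :=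
  ContinuousOn.add h h'

lemma CO.sub {g g' : ℝ → ℂ → ℝ} (h : CO g) (h' : CO g') : CO (fun t z => g t z - g' t z) :=
  ContinuousOn.sub h h'

lemma CO.neg {g : ℝ → ℂ → ℝ} (h : CO g) : CO (fun t z => - g t z) :=
  ContinuousOn.neg h

lemma CO.mul {g g' : ℝ → ℂ → ℝ} (h : CO g) (h' : CO g') : CO (fun t z => g t z * g' t z) :=
  ContinuousOn.mul h h'

lemma CO.div {g g' : ℝ → ℂ → ℝ} (h : CO g) (h' : CO g') (h0 : ∀ t, ∀ z ∈ UU, g' t z ≠ 0) :
    CO (fun t z => g t z / g' t z) :=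
  ContinuousOn.div h h' fun q hq => h0 q.1 q.2 hq

lemma CO.pow {g : ℝ → ℂ → ℝ} (h : CO g) (n : ℕ) : CO (fun t z => g t z ^ n) :=
  ContinuousOn.pow h n

lemma CO.const (c : ℝ) : CO (fun _ _ => c) := continuousOn_const

lemma CO.wedge {α β : ℝ → ℂ → ℂ →L[ℝ] ℝ} (h : CO α) (h' : CO β) :
    CO (fun t z => CG.wedge (α t z) (β t z)) :=
  ContinuousOn.wedge h h'

lemma CO.smul {g : ℝ → ℂ → ℝ} {β : ℝ → ℂ → ℂ →L[ℝ] ℝ} (h : CO g) (h' : CO β) :
    CO (fun t z => g t z • β t z) :=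
  ContinuousOn.smul h h'

lemma CO.addf {β β' : ℝ → ℂ → ℂ →L[ℝ] ℝ} (h : CO β) (h' : CO β') :
    CO (fun t z => β t z + β' t z) :=
  ContinuousOn.add h h'

lemma CO.subf {β β' : ℝ → ℂ → ℂ →L[ℝ] ℝ} (h : CO β) (h' : CO β') :
    CO (fun t z => β t z - β' t z) :=
  ContinuousOn.sub h h'

lemma co_im : CO (fun _ z => z.im) := (Complex.continuous_im.comp continuous_snd).continuousOn

end C1ops

variable {F G : ℝ → ℂ → ℂ}

/-- The pulled-back velocity one-form `α_t = (X' dX + Y' dY) / Y²`. -/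
noncomputable def Af (F G : ℝ → ℂ → ℂ) (t : ℝ) (z : ℂ) : ℂ →L[ℝ] ℝ :=
  ((G t z).re / (F t z).im ^ 2) • dRe F t z + ((G t z).im / (F t z).im ^ 2) • dIm F t z

/-- The pulled-back flux one-form `ζ_t = (X' dY - Y' dX) / Y²`. -/
noncomputable def Zf (F G : ℝ → ℂ → ℂ) (t : ℝ) (z : ℂ) : ℂ →L[ℝ] ℝ :=
  ((G t z).re / (F t z).im ^ 2) • dIm F t z - ((G t z).im / (F t z).im ^ 2) • dRe F t z

/-- `d (X' / Y)` -/
noncomputable def dU (F G : ℝ → ℂ → ℂ) (t : ℝ) (z : ℂ) : ℂ →L[ℝ] ℝ :=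
  (1 / (F t z).im) • dRe G t z - ((G t z).re / (F t z).im ^ 2) • dIm F t z

/-- `d (Y' / Y)` -/
noncomputable def dV (F G : ℝ → ℂ → ℂ) (t : ℝ) (z : ℂ) : ℂ →L[ℝ] ℝ :=
  (1 / (F t z).im) • dIm G t z - ((G t z).im / (F t z).im ^ 2) • dIm F t z

/-- The one-form `½ ⟨J u, ∇ u⟩`, pulled back. -/
noncomputable def Bf (F G : ℝ → ℂ → ℂ) (t : ℝ) (z : ℂ) : ℂ →L[ℝ] ℝ :=
  ((1 / 2 * ((G t z).re / (F t z).im)) • dV F G t z -
    (1 / 2 * ((G t z).im / (F t z).im)) • dU F G t z) +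
    (1 / 2 * ((G t z).re ^ 2 + (G t z).im ^ 2) / (F t z).im ^ 3) • dRe F t z

/-- `al + de` is twice the rotation rate in the frame `y ∂_x, y ∂_y` (up to a factor). -/
noncomputable def rt (F G : ℝ → ℂ → ℂ) (t : ℝ) (z : ℂ) : ℝ :=
  wedge (dRe G t z) (dRe F t z) + wedge (dIm G t z) (dIm F t z)

/-- The vorticity density `Ω` (with respect to `dx dy`). -/
noncomputable def Om (F G : ℝ → ℂ → ℂ) (t : ℝ) (z : ℂ) : ℝ :=
  rt F G t z / (F t z).im ^ 2 + 2 * (G t z).re / ((F t z).im * z.im ^ 2)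

/-- The squared strain rate `s²`. -/
noncomputable def ss (F G : ℝ → ℂ → ℂ) (t : ℝ) (z : ℂ) : ℝ :=
  1 / 4 * (z.im ^ 2 / (F t z).im ^ 2) ^ 2 *
    ((wedge (dIm G t z) (dIm F t z) - wedge (dRe G t z) (dRe F t z)) ^ 2 +
      (wedge (dRe G t z) (dIm F t z) + wedge (dIm G t z) (dRe F t z)) ^ 2)

/-- The energy density `e = |u|²`. -/
noncomputable def ee (F G : ℝ → ℂ → ℂ) (t : ℝ) (z : ℂ) : ℝ :=
  ((G t z).re ^ 2 + (G t z).im ^ 2) / (F t z).im ^ 2

lemma Mot.co_rt (h : Mot F G) : CO (rt F G) :=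
  (h.c1G.co_dRe.wedge h.c1F.co_dRe).add (h.c1G.co_dIm.wedge h.c1F.co_dIm)

lemma Mot.yF_ne (h : Mot F G) : ∀ t, ∀ z ∈ UU, (F t z).im ≠ 0 := fun t _ hz => (h.y_pos t hz).ne'

lemma Mot.co_Om (h : Mot F G) : CO (Om F G) := by
  refine CO.add (h.co_rt.div (h.c1F.im.co.pow 2) fun t z hz => pow_ne_zero 2 (h.yF_ne t z hz)) ?_
  refine CO.div ((CO.const 2).mul h.c1G.re.co) (h.c1F.im.co.mul (co_im.pow 2)) fun t z hz => ?_
  exact mul_ne_zero (h.yF_ne t z hz) (pow_ne_zero 2 (mem_UU.mp hz).ne')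

lemma Mot.co_ee (h : Mot F G) : CO (ee F G) :=
  CO.div ((h.c1G.re.co.pow 2).add (h.c1G.im.co.pow 2)) (h.c1F.im.co.pow 2)
    fun t z hz => pow_ne_zero 2 (h.yF_ne t z hz)

lemma Mot.co_ss (h : Mot F G) : CO (ss F G) := by
  refine CO.mul (CO.mul (CO.const _) (CO.pow (CO.div (co_im.pow 2) (h.c1F.im.co.pow 2)
    fun t z hz => pow_ne_zero 2 (h.yF_ne t z hz)) 2)) (CO.add (CO.pow (CO.sub ?_ ?_) 2)
    (CO.pow (CO.add ?_ ?_) 2))
  · exact h.c1G.co_dIm.wedge h.c1F.co_dIm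
  · exact h.c1G.co_dRe.wedge h.c1F.co_dRe
  · exact h.c1G.co_dRe.wedge h.c1F.co_dIm
  · exact h.c1G.co_dIm.wedge h.c1F.co_dRe

lemma Mot.co_Af (h : Mot F G) : CO (Af F G) :=
  ((h.c1G.re.co.div (h.c1F.im.co.pow 2) fun t z hz => pow_ne_zero 2 (h.yF_ne t z hz)).smul
    h.c1F.co_dRe).addf
  ((h.c1G.im.co.div (h.c1F.im.co.pow 2) fun t z hz => pow_ne_zero 2 (h.yF_ne t z hz)).smul
    h.c1F.co_dIm)

lemma Mot.co_Zf (h : Mot F G) : CO (Zf F G) :=
  ((h.c1G.re.co.div (h.c1F.im.co.pow 2) fun t z hz => pow_ne_zero 2 (h.yF_ne t z hz)).smul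
    h.c1F.co_dIm).subf
  ((h.c1G.im.co.div (h.c1F.im.co.pow 2) fun t z hz => pow_ne_zero 2 (h.yF_ne t z hz)).smul
    h.c1F.co_dRe)

lemma hasFDerivAt_pow' {Y : ℂ → ℝ} {Y' : ℂ →L[ℝ] ℝ} {z : ℂ} (hY : HasFDerivAt Y Y' z) (n : ℕ) :
    HasFDerivAt (fun z => Y z ^ n) ((n * Y z ^ (n - 1)) • Y') z :=
  (hasDerivAt_pow n (Y z)).comp_hasFDerivAt z hY

/-- derivative of a quotient `P / Y ^ n` -/
lemma hasFDerivAt_div_pow {P Y : ℂ → ℝ} {P' Y' : ℂ →L[ℝ] ℝ} {z : ℂ} (hP : HasFDerivAt P P' z)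
    (hY : HasFDerivAt Y Y' z) (h0 : Y z ≠ 0) (n : ℕ) :
    HasFDerivAt (fun z => P z / Y z ^ n)
      ((1 / Y z ^ n) • P' - (n * P z / Y z ^ (n + 1)) • Y') z := by
  have hinv : HasFDerivAt (fun z => (Y z ^ n)⁻¹)
      ((-(n * Y z ^ (n - 1)) / (Y z ^ n) ^ 2) • Y') z :=
    ((hasDerivAt_pow n (Y z)).fun_inv (pow_ne_zero n h0)).comp_hasFDerivAt z hY
  have h1 := hP.fun_mul hinv
  simp only [← div_eq_mul_inv] at h1
  refine h1.congr_fderiv ?_
  ext w
  simp only [add_apply, smul_apply, sub_apply, smul_eq_mul]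
  rcases n with _ | n
  · simp
  · simp only [Nat.add_sub_cancel]
    field_simp
    push_cast
    ring

/-- `α` has weak exterior derivative `Ω`. -/
lemma Mot.wd_Af (h : Mot F G) (t : ℝ) : WD (Af F G t) (Om F G t) := by
  have hy := h.yF_ne
  have c1 : ContDiffOn ℝ 1 (fun z => (G t z).re / (F t z).im ^ 2) UU :=
    (h.c1G.re.div (h.c1F.im.pow 2) fun t z hz => pow_ne_zero 2 (hy t z hz)).slice t
  have c2 : ContDiffOn ℝ 1 (fun z => (G t z).im / (F t z).im ^ 2) UU :=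
    (h.c1G.im.div (h.c1F.im.pow 2) fun t z hz => pow_ne_zero 2 (hy t z hz)).slice t
  refine ((WD.mul c1 (h.c1F.re.slice t)).add (WD.mul c2 (h.c1F.im.slice t))).congr
    (fun z hz => ?_) (fun z hz => ?_)
  · rw [(h.c1F.hasFDerivAt_re t hz).fderiv, (h.c1F.hasFDerivAt_im t hz).fderiv]
    rfl
  · rw [(h.c1F.hasFDerivAt_re t hz).fderiv, (h.c1F.hasFDerivAt_im t hz).fderiv,
      (hasFDerivAt_div_pow (h.c1G.hasFDerivAt_re t hz) (h.c1F.hasFDerivAt_im t hz)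
        (hy t z hz) 2).fderiv,
      (hasFDerivAt_div_pow (h.c1G.hasFDerivAt_im t hz) (h.c1F.hasFDerivAt_im t hz)
        (hy t z hz) 2).fderiv]
    simp only [wedge_sub_left, wedge_smul_left, wedge_self]
    rw [wedge_swap (dIm F t z) (dRe F t z), h.wXY t hz, Om, rt]
    have h1 := hy t z hz
    have h2 : z.im ≠ 0 := (mem_UU.mp hz).ne'
    field_simp
    push_cast
    ring

/-- `ζ` is weakly closed. -/
lemma Mot.wd_Zf (h : Mot F G) (t : ℝ) : WD (Zf F G t) (fun _ => 0) := by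
  have hy := h.yF_ne
  have c1 : ContDiffOn ℝ 1 (fun z => (G t z).re / (F t z).im ^ 2) UU :=
    (h.c1G.re.div (h.c1F.im.pow 2) fun t z hz => pow_ne_zero 2 (hy t z hz)).slice t
  have c2 : ContDiffOn ℝ 1 (fun z => (G t z).im / (F t z).im ^ 2) UU :=
    (h.c1G.im.div (h.c1F.im.pow 2) fun t z hz => pow_ne_zero 2 (hy t z hz)).slice t
  refine ((WD.mul c1 (h.c1F.im.slice t)).sub (WD.mul c2 (h.c1F.re.slice t))).congr
    (fun z hz => ?_) (fun z hz => ?_)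
  · rw [(h.c1F.hasFDerivAt_re t hz).fderiv, (h.c1F.hasFDerivAt_im t hz).fderiv]
    rfl
  · rw [(h.c1F.hasFDerivAt_re t hz).fderiv, (h.c1F.hasFDerivAt_im t hz).fderiv,
      (hasFDerivAt_div_pow (h.c1G.hasFDerivAt_re t hz) (h.c1F.hasFDerivAt_im t hz)
        (hy t z hz) 2).fderiv,
      (hasFDerivAt_div_pow (h.c1G.hasFDerivAt_im t hz) (h.c1F.hasFDerivAt_im t hz)
        (hy t z hz) 2).fderiv]
    simp only [wedge_sub_left, wedge_smul_left, wedge_self]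
    rw [wedge_swap (dIm F t z) (dRe F t z), h.wXY t hz]
    have h1 := hy t z hz
    have h2 : z.im ≠ 0 := (mem_UU.mp hz).ne'
    have h3 := h.incompr t hz
    have h4 : wedge (dRe G t z) (dIm F t z) = wedge (dIm G t z) (dRe F t z) +
      2 * (F t z).im * (G t z).im / z.im ^ 2 := by linarith
    rw [h4]
    field_simp
    push_cast
    ring

/-- the Plücker relation -/
lemma plucker (a b c d : ℂ →L[ℝ] ℝ) :
    wedge a c * wedge b d - wedge a d * wedge b c = wedge a b * wedge c d := by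
  simp only [wedge]; ring

/-- The Bochner identity. -/
lemma Mot.wd_Bf (h : Mot F G) (t : ℝ) :
    WD (Bf F G t) (fun z => z.im ^ 2 * Om F G t z ^ 2 / 4 - ss F G t z / z.im ^ 2 +
      1 / 2 * ee F G t z / z.im ^ 2) := by
  have hy := h.yF_ne
  have cU : ContDiffOn ℝ 1 (fun z => (G t z).re / (F t z).im ^ 1) UU :=
    (h.c1G.re.div (h.c1F.im.pow 1) fun t z hz => pow_ne_zero 1 (hy t z hz)).slice t
  have cV : ContDiffOn ℝ 1 (fun z => (G t z).im / (F t z).im ^ 1) UU :=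
    (h.c1G.im.div (h.c1F.im.pow 1) fun t z hz => pow_ne_zero 1 (hy t z hz)).slice t
  have cE : ContDiffOn ℝ 1
      (fun z => ((G t z).re ^ 2 + (G t z).im ^ 2) / (F t z).im ^ 3) UU :=
    (((h.c1G.re.pow 2).add (h.c1G.im.pow 2)).div (h.c1F.im.pow 3)
      fun t z hz => pow_ne_zero 3 (hy t z hz)).slice t
  refine (((WD.mul cU cV).smul_const (1/2)).sub ((WD.mul cV cU).smul_const (1/2)) |>.add
    ((WD.mul cE (h.c1F.re.slice t)).smul_const (1/2))).congr (fun z hz => ?_) (fun z hz => ?_)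
  · rw [(h.c1F.hasFDerivAt_re t hz).fderiv,
      (hasFDerivAt_div_pow (h.c1G.hasFDerivAt_re t hz) (h.c1F.hasFDerivAt_im t hz)
        (hy t z hz) 1).fderiv,
      (hasFDerivAt_div_pow (h.c1G.hasFDerivAt_im t hz) (h.c1F.hasFDerivAt_im t hz)
        (hy t z hz) 1).fderiv]
    ext w
    simp only [Bf, dU, dV, add_apply, smul_apply, sub_apply, smul_eq_mul]
    simp
    ring
  · have hsq : HasFDerivAt (fun z => (G t z).re ^ 2 + (G t z).im ^ 2)
        ((2 * (G t z).re) • dRe G t z + (2 * (G t z).im) • dIm G t z) z := by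
      have := (hasFDerivAt_pow' (h.c1G.hasFDerivAt_re t hz) 2).fun_add (hasFDerivAt_pow' (h.c1G.hasFDerivAt_im t hz) 2)
      refine this.congr_fderiv ?_
      ext w
      simp
    rw [(h.c1F.hasFDerivAt_re t hz).fderiv,
      (hasFDerivAt_div_pow (h.c1G.hasFDerivAt_re t hz) (h.c1F.hasFDerivAt_im t hz)
        (hy t z hz) 1).fderiv,
      (hasFDerivAt_div_pow (h.c1G.hasFDerivAt_im t hz) (h.c1F.hasFDerivAt_im t hz)
        (hy t z hz) 1).fderiv,
      (hasFDerivAt_div_pow hsq (h.c1F.hasFDerivAt_im t hz) (hy t z hz) 3).fderiv]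
    simp only [wedge_sub_left, wedge_smul_left, wedge_self, wedge_sub_right, wedge_smul_right,
      wedge_add_left]
    have hinc := h.incompr t hz
    have hpl := plucker (dRe G t z) (dIm G t z) (dRe F t z) (dIm F t z)
    have hXY := h.wXY t hz
    rw [hXY] at hpl
    rw [wedge_swap (dIm F t z) (dRe F t z), wedge_swap (dIm F t z) (dRe G t z),
      wedge_swap (dIm F t z) (dIm G t z), wedge_swap (dIm G t z) (dRe G t z), hXY, Om, rt, ss, ee]
    have h1 := hy t z hz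
    have h2 : z.im ≠ 0 := (mem_UU.mp hz).ne'
    generalize wedge (dRe G t z) (dRe F t z) = al at *
    generalize wedge (dIm G t z) (dIm F t z) = de at *
    generalize wedge (dRe G t z) (dIm G t z) = ka at *
    generalize wedge (dIm G t z) (dRe F t z) = ga at *
    generalize wedge (dRe G t z) (dIm F t z) = be at *
    generalize (G t z).re = P at *
    generalize (G t z).im = Q at *
    generalize (F t z).im = Y at *
    generalize z.im = y at *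
    have hbe : be = ga + 2 * Y * Q / y ^ 2 := by linarith
    have hka : ka = (al * de - be * ga) * (y ^ 2 / Y ^ 2) := by
      field_simp at hpl ⊢
      linarith
    rw [hka, hbe]
    field_simp
    push_cast
    ring

end Pool.Agent.CG
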