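import Pool.Agent.Lib.MP_35454f.Euler

/-!
# Invariance of the forms attached to an equivariant motion
-/

set_option autoImplicit false

open MeasureTheory Filter Topology Complex Set
open UpperHalfPlane hiding I
open scoped ContDiff Manifold MatrixGroups Interval

namespace Pool.Agent.CG

variable {Γ : Subgroup SL(2, ℝ)} {F G : ℝ → ℂ → ℂ} {p : ℝ → ℂ → ℝ}

lemma im_den (g : SL(2, ℝ)) (z : ℂ) : (den g z).im = g 1 0 * z.im := by
  simp [den]

lemma hasDerivAt_den (g : SL(2, ℝ)) (z : ℂ) : HasDerivAt (den g) ((g 1 0 : ℝ) : ℂ) z := by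
  have h2 : HasDerivAt (fun z : ℂ => ((g 1 0 : ℝ) : ℂ) * z + ((g 1 1 : ℝ) : ℂ)) ((g 1 0 : ℝ) : ℂ) z := by
    simpa using ((hasDerivAt_id z).const_mul ((g 1 0 : ℝ) : ℂ)).add_const ((g 1 1 : ℝ) : ℂ)
  exact h2

lemma Eul.G_mob (h : Eul Γ F G p) (t : ℝ) {g : SL(2, ℝ)} (hg : g ∈ Γ) {z : ℂ} (hz : z ∈ UU) :
    G t (mob g z) = G t z / (den g (F t z)) ^ 2 := by
  have h1 := h.dF t (mob g z) (mob_mem hz)
  have h2 : HasDerivAt (fun s => F s (mob g z)) (1 / (den g (F t z)) ^ 2 * G t z) t := by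
    have h3 : (fun s => F s (mob g z)) = fun s => mob g (F s z) := by
      ext s; exact h.equiv s g hg z hz
    rw [h3]
    exact (hasDerivAt_mob g (h.mem t z hz)).comp_of_eq t (h.dF t z hz) rfl
  rw [h1.unique h2]
  ring

lemma Eul.dF_mob (h : Eul Γ F G p) (t : ℝ) {g : SL(2, ℝ)} (hg : g ∈ Γ) {z : ℂ} (hz : z ∈ UU)
    (w : ℂ) : fderiv ℝ (F t) (mob g z) (w / (den g z) ^ 2) =
      fderiv ℝ (F t) z w / (den g (F t z)) ^ 2 := by
  have h1 : HasFDerivAt (fun z => F t (mob g z)) ((fderiv ℝ (F t) (mob g z)).comp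
      ((1 / (den g z) ^ 2) • (1 : ℂ →L[ℝ] ℂ))) z :=
    (h.c1F.hasFDerivAt t (mob_mem hz)).comp z (hasFDerivAt_mob g hz)
  have h2 : HasFDerivAt (fun z => F t (mob g z)) (((1 / (den g (F t z)) ^ 2) •
      (1 : ℂ →L[ℝ] ℂ)).comp (fderiv ℝ (F t) z)) z := by
    have h3 : (fun z => F t (mob g z)) =ᶠ[𝓝 z] fun z => mob g (F t z) := by
      filter_upwards [isOpen_UU.mem_nhds hz] with w hw using h.equiv t g hg w hw
    exact ((hasFDerivAt_mob g (h.mem t z hz)).comp z (h.c1F.hasFDerivAt t hz)).congr_of_eventuallyEq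
      h3
  have h4 := DFunLike.congr_fun (h1.unique h2) w
  simp only [ContinuousLinearMap.comp_apply, smul_apply, one_apply_eq_self, smul_eq_mul] at h4
  rw [show w / (den g z) ^ 2 = 1 / (den g z) ^ 2 * w by ring, h4]
  ring

lemma Eul.dG_mob (h : Eul Γ F G p) (t : ℝ) {g : SL(2, ℝ)} (hg : g ∈ Γ) {z : ℂ} (hz : z ∈ UU)
    (w : ℂ) : fderiv ℝ (G t) (mob g z) (w / (den g z) ^ 2) =
      fderiv ℝ (G t) z w / (den g (F t z)) ^ 2 -
        2 * ((g 1 0 : ℝ) : ℂ) * fderiv ℝ (F t) z w * G t z / (den g (F t z)) ^ 3 := by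
  have hd := den_ne (g := g) (h.mem t z hz)
  have h1 : HasFDerivAt (fun z => G t (mob g z)) ((fderiv ℝ (G t) (mob g z)).comp
      ((1 / (den g z) ^ 2) • (1 : ℂ →L[ℝ] ℂ))) z :=
    (h.c1G.hasFDerivAt t (mob_mem hz)).comp z (hasFDerivAt_mob g hz)
  have hinv : HasDerivAt (fun z : ℂ => ((den g z) ^ 2)⁻¹)
      (-(2 * den g (F t z) * ((g 1 0 : ℝ) : ℂ)) / ((den g (F t z)) ^ 2) ^ 2) (F t z) := by
    have := ((hasDerivAt_den g (F t z)).fun_pow 2).fun_inv (pow_ne_zero 2 hd)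
    simpa using this
  have h2 : HasFDerivAt (fun z => G t (mob g z))
      (G t z • ((((-(2 * den g (F t z) * ((g 1 0 : ℝ) : ℂ)) / ((den g (F t z)) ^ 2) ^ 2)) •
        (1 : ℂ →L[ℝ] ℂ)).comp (fderiv ℝ (F t) z)) + ((den g (F t z)) ^ 2)⁻¹ • fderiv ℝ (G t) z) z := by
    have h3 : (fun z => G t (mob g z)) =ᶠ[𝓝 z] fun z => G t z * ((den g (F t z)) ^ 2)⁻¹ := by
      filter_upwards [isOpen_UU.mem_nhds hz] with w hw
      rw [h.G_mob t hg hw, div_eq_mul_inv]
    have h4 : HasFDerivAt (fun z => ((den g (F t z)) ^ 2)⁻¹)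
        ((((-(2 * den g (F t z) * ((g 1 0 : ℝ) : ℂ)) / ((den g (F t z)) ^ 2) ^ 2)) •
        (1 : ℂ →L[ℝ] ℂ)).comp (fderiv ℝ (F t) z)) z := by
      have h5 : HasFDerivAt (𝕜 := ℝ) (fun z : ℂ => ((den g z) ^ 2)⁻¹)
        (((-(2 * den g (F t z) * ((g 1 0 : ℝ) : ℂ)) / ((den g (F t z)) ^ 2) ^ 2)) •
        (1 : ℂ →L[ℝ] ℂ)) (F t z) := by
        refine (hinv.hasFDerivAt.restrictScalars ℝ).congr_fderiv ?_
        ext w
        simp [mul_comm]
      exact h5.comp z (h.c1F.hasFDerivAt t hz)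
    exact ((h.c1G.hasFDerivAt t hz).fun_mul h4).congr_of_eventuallyEq h3
  have h4 := DFunLike.congr_fun (h1.unique h2) w
  simp only [ContinuousLinearMap.comp_apply, smul_apply, one_apply_eq_self, smul_eq_mul,
    add_apply] at h4
  rw [show w / (den g z) ^ 2 = 1 / (den g z) ^ 2 * w by ring, h4]
  field_simp
  ring

/-! ### complex expressions of the forms -/

lemma Af_eq (t : ℝ) (z w : ℂ) :
    Af F G t z w = ((starRingEnd ℂ (G t z)) * fderiv ℝ (F t) z w).re / (F t z).im ^ 2 := by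
  simp only [Af, add_apply, smul_apply, smul_eq_mul, dRe_apply, dIm_apply, mul_re, conj_re, conj_im]
  ring

lemma Zf_eq (t : ℝ) (z w : ℂ) :
    Zf F G t z w = ((starRingEnd ℂ (G t z)) * fderiv ℝ (F t) z w).im / (F t z).im ^ 2 := by
  simp only [Zf, sub_apply, smul_apply, smul_eq_mul, dRe_apply, dIm_apply, mul_im, conj_re, conj_im]
  ring

lemma ee_eq (t : ℝ) (z : ℂ) : ee F G t z = normSq (G t z) / (F t z).im ^ 2 := by
  rw [ee, normSq_apply]; ring

lemma Mot.Bf_eq (h : Mot F G) (t : ℝ) {z : ℂ} (hz : z ∈ UU) (w : ℂ) :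
    Bf F G t z w = 1 / 2 * ((starRingEnd ℂ (G t z)) * fderiv ℝ (G t) z w).im / (F t z).im ^ 2 +
      1 / 2 * normSq (G t z) * (fderiv ℝ (F t) z w).re / (F t z).im ^ 3 := by
  have h0 := h.yF_ne t z hz
  simp only [Bf, dU, dV, sub_apply, add_apply, smul_apply, smul_eq_mul, dRe_apply, dIm_apply,
    mul_im, conj_re, conj_im, normSq_apply]
  field_simp
  ring

lemma Eul.im_mob' (h : Eul Γ F G p) (t : ℝ) {g : SL(2, ℝ)} (hg : g ∈ Γ) {z : ℂ} (hz : z ∈ UU) :
    (F t (mob g z)).im = (F t z).im / normSq (den g (F t z)) := by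
  rw [h.equiv t g hg z hz, im_mob g (h.mem t z hz)]

lemma conj_div_mul (a b D : ℂ) :
    (starRingEnd ℂ (a / D ^ 2)) * (b / D ^ 2) = ((normSq D ^ 2 : ℝ) : ℂ)⁻¹ * (starRingEnd ℂ a * b) := by
  rw [map_div₀, map_pow]
  have : ((normSq D ^ 2 : ℝ) : ℂ) = (starRingEnd ℂ D) ^ 2 * D ^ 2 := by
    rw [ofReal_pow, normSq_eq_conj_mul_self]; ring
  rw [this]
  rw [mul_inv]
  ring

lemma Eul.inv_Af (h : Eul Γ F G p) (t : ℝ) : InvForm Γ (Af F G t) := by
  intro g hg z hz w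
  have hd := den_ne (g := g) (h.mem t z hz)
  have hn : normSq (den g (F t z)) ≠ 0 := by simpa using hd
  have h0 := h.yF_ne t z hz
  rw [Af_eq, Af_eq, h.G_mob t hg hz, h.dF_mob t hg hz, conj_div_mul, h.im_mob' t hg hz,
    ← ofReal_inv, re_ofReal_mul]
  field_simp

lemma Eul.inv_Zf (h : Eul Γ F G p) (t : ℝ) : InvForm Γ (Zf F G t) := by
  intro g hg z hz w
  have hd := den_ne (g := g) (h.mem t z hz)
  have hn : normSq (den g (F t z)) ≠ 0 := by simpa using hd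
  have h0 := h.yF_ne t z hz
  rw [Zf_eq, Zf_eq, h.G_mob t hg hz, h.dF_mob t hg hz, conj_div_mul, h.im_mob' t hg hz,
    ← ofReal_inv, im_ofReal_mul]
  field_simp

lemma Eul.inv_ee (h : Eul Γ F G p) (t : ℝ) : InvFun Γ (ee F G t) := by
  intro g hg z hz
  have hd := den_ne (g := g) (h.mem t z hz)
  have hn : normSq (den g (F t z)) ≠ 0 := by simpa using hd
  have h0 := h.yF_ne t z hz
  rw [ee_eq, ee_eq, h.G_mob t hg hz, h.im_mob' t hg hz, map_div₀, map_pow]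
  field_simp

lemma Eul.inv_Bf (h : Eul Γ F G p) (t : ℝ) : InvForm Γ (Bf F G t) := by
  intro g hg z hz w
  have hd := den_ne (g := g) (h.mem t z hz)
  have hn : normSq (den g (F t z)) ≠ 0 := by simpa using hd
  have h0 := h.yF_ne t z hz
  rw [h.Bf_eq t (mob_mem hz), h.Bf_eq t hz, h.G_mob t hg hz, h.dF_mob t hg hz, h.dG_mob t hg hz,
    h.im_mob' t hg hz]
  have hD : (den g (F t z)).im = g 1 0 * (F t z).im := im_den g _
  set D := den g (F t z) with hDdef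
  set v := fderiv ℝ (F t) z w
  set c : ℝ := g 1 0
  set Y := (F t z).im
  set a := G t z
  set b := fderiv ℝ (G t) z w
  -- the two basic computations
  have e1 : ((starRingEnd ℂ) (a / D ^ 2) * (b / D ^ 2 - 2 * (c : ℂ) * v * a / D ^ 3)).im =
      (((starRingEnd ℂ) a * b).im - 2 * c * normSq a * (v / D).im) / normSq D ^ 2 := by
    have e2 : (starRingEnd ℂ) (a / D ^ 2) * (b / D ^ 2 - 2 * (c : ℂ) * v * a / D ^ 3) =
        ((normSq D ^ 2 : ℝ) : ℂ)⁻¹ * (starRingEnd ℂ a * b - ((2 * c * normSq a : ℝ) : ℂ) * (v / D)) := by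
      have e3 : b / D ^ 2 - 2 * (c : ℂ) * v * a / D ^ 3 = (b - 2 * (c : ℂ) * v * a / D) / D ^ 2 := by
        field_simp
      rw [e3, conj_div_mul]
      congr 1
      push_cast
      rw [normSq_eq_conj_mul_self]
      ring
    rw [e2, ← ofReal_inv, im_ofReal_mul, sub_im, im_ofReal_mul]
    ring
  have e4 : (v / D ^ 2).re = (v.re + 2 * c * Y * (v / D).im) / normSq D := by
    have e5 : v / D ^ 2 = ((normSq D : ℝ) : ℂ)⁻¹ * (v - ((2 * c * Y : ℝ) : ℂ) * (I * (v / D))) := by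
      have e6 : starRingEnd ℂ D = D - 2 * I * ((c * Y : ℝ) : ℂ) := by
        rw [← hD]
        apply Complex.ext <;> simp
        ring
      rw [normSq_eq_conj_mul_self, e6]
      have e7 : D - 2 * I * ((c * Y : ℝ) : ℂ) ≠ 0 := by
        rw [← e6]; simpa using hd
      push_cast at e7 ⊢
      have e8 : D - 2 * I * (c : ℂ) * (Y : ℂ) ≠ 0 := by rw [mul_assoc (2 * I)]; exact e7
      field_simp
    rw [e5, ← ofReal_inv, re_ofReal_mul, sub_re, re_ofReal_mul]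
    simp only [mul_re, Complex.I_re, Complex.I_im, zero_mul, one_mul, zero_sub]
    ring
  rw [e1, e4, map_div₀, map_pow]
  field_simp
  ring

/-- product of an invariant function and an invariant form -/
lemma InvForm.smul {β : ℂ → ℂ →L[ℝ] ℝ} {f : ℂ → ℝ} (hf : InvFun Γ f) (hβ : InvForm Γ β) :
    InvForm Γ (fun z => f z • β z) := by
  intro g hg z hz w
  simp only [smul_apply, hf g hg z hz, hβ g hg z hz w]

lemma Eul.inv_pF (h : Eul Γ F G p) (t : ℝ) : InvFun Γ (fun z => p t (F t z)) := by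
  intro g hg z hz
  simp only
  rw [h.equiv t g hg z hz, h.pinv t g hg _ (h.mem t z hz)]

lemma Eul.inv_lag (h : Eul Γ F G p) (t : ℝ) : InvFun Γ (lag F G p t) := by
  intro g hg z hz
  rw [lag, lag, h.inv_ee t g hg z hz]
  have := h.inv_pF t g hg z hz
  simp only at this
  rw [this]

lemma Eul.inv_th (h : Eul Γ F G p) (t : ℝ) : InvFun Γ (th F G p t) := by
  intro g hg z hz
  rw [th, th]
  congr 1
  ext s
  exact h.inv_lag s g hg z hz

end Pool.Agent.CG
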