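import Pool.Agent.Lib.MP_35454f.Energy

/-!
# Maps of the upper half-plane covering the identity of a closed surface
-/

set_option autoImplicit false

open MeasureTheory Filter Topology Complex Set
open UpperHalfPlane hiding I
open scoped ContDiff Manifold MatrixGroups Interval

namespace Pool.Agent.CG

/-- A continuous map preserving the orbits of a group acting freely and properly discontinuously
on a connected space agrees with a single group element. -/
lemma single_element (Γ : Subgroup SL(2, ℝ)) [ProperlyDiscontinuousSMul Γ ℍ]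
    (hfree : ∀ γ ∈ Γ, ∀ z : ℍ, γ • z = z → ∀ w : ℍ, γ • w = w)
    {f : ℍ → ℍ} (hf : Continuous f) (horb : ∀ z : ℍ, ∃ γ ∈ Γ, f z = γ • z) :
    ∃ γ ∈ Γ, ∀ z : ℍ, f z = γ • z := by
  obtain ⟨γ, hγ, hγi⟩ := horb UpperHalfPlane.I
  refine ⟨γ, hγ, ?_⟩
  have hcl : IsClosed {z : ℍ | f z = γ • z} :=
    isClosed_eq hf (continuous_const_smul γ)
  have hop : IsOpen {z : ℍ | f z = γ • z} := by
    rw [isOpen_iff_mem_nhds]
    intro z₀ hz₀
    obtain ⟨L, hL, hLn⟩ := exists_compact_mem_nhds z₀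
    have hfin := finite_set Γ hL (hL.image hf)
    have h1 : ∀ g ∈ hfin.toFinset, ∀ᶠ z in 𝓝 z₀, f z = g • z → f z = γ • z := by
      intro g _
      by_cases hg : g • z₀ = γ • z₀
      · refine Eventually.of_forall fun z hz => ?_
        rw [hz]
        have h2 : (γ⁻¹ * (g : SL(2, ℝ))) • z₀ = z₀ := by
          rw [mul_smul, show (g : SL(2, ℝ)) • z₀ = g • z₀ from rfl, hg, inv_smul_smul]
        have h3 := hfree _ (Γ.mul_mem (Γ.inv_mem hγ) g.2) z₀ h2 z
        rw [mul_smul, inv_smul_eq_iff] at h3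
        exact h3
      · have h2 : f z₀ ≠ g • z₀ := by
          rw [show f z₀ = γ • z₀ from hz₀]
          exact fun h => hg h.symm
        have h3 : ∀ᶠ z in 𝓝 z₀, f z ≠ g • z :=
          (isOpen_ne_fun hf (continuous_const_smul g)).mem_nhds h2
        filter_upwards [h3] with z hz h
        exact absurd h hz
    have h4 : ∀ᶠ z in 𝓝 z₀, ∀ g ∈ hfin.toFinset, f z = g • z → f z = γ • z :=
      (Finset.eventually_all _).mpr h1
    filter_upwards [hLn, h4] with z hzL hz
    obtain ⟨g, hg, hgz⟩ := horb z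
    refine hz ⟨g, hg⟩ ?_ hgz
    rw [Set.Finite.mem_toFinset]
    exact ⟨z, hzL, ⟨z, hzL, hgz⟩⟩
  have : {z : ℍ | f z = γ • z} = univ :=
    IsClopen.eq_univ ⟨hcl, hop⟩ ⟨UpperHalfPlane.I, hγi⟩
  intro z
  have hz : z ∈ {z : ℍ | f z = γ • z} := by rw [this]; trivial
  exact hz

/-- An element of bounded displacement acts trivially. -/
lemma trivial_of_bounded (γ : SL(2, ℝ)) {C : ℝ} (hC : ∀ z : ℍ, dist z (γ • z) ≤ C) (z : ℍ) :
    γ • z = z := by
  set a := γ 0 0 with ha
  set b := γ 0 1 with hb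
  set c := γ 1 0 with hc
  set d := γ 1 1 with hd
  have hdet : a * d - b * c = 1 := det_eq γ
  -- the displacement formula
  have key : ∀ z ∈ UU, normSq ((c : ℂ) * z ^ 2 + ((d : ℂ) - a) * z - b) ≤
      2 * (Real.cosh C - 1) * z.im ^ 2 := by
    intro z hz
    have h1 := hC ⟨z, hz⟩
    have h2 : Real.cosh (dist (⟨z, hz⟩ : ℍ) (γ • ⟨z, hz⟩)) ≤ Real.cosh C := by
      rw [Real.cosh_le_cosh, abs_of_nonneg dist_nonneg]
      exact h1.trans (le_abs_self C)
    rw [UpperHalfPlane.cosh_dist, coe_smul_eq] at h2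
    have h3 : (γ • (⟨z, hz⟩ : ℍ)).im = (mob γ z).im := by
      rw [← UpperHalfPlane.coe_im, coe_smul_eq]
    rw [h3, im_mob γ hz] at h2
    change 1 + dist z (mob γ z) ^ 2 / (2 * z.im * (z.im / normSq (den γ z))) ≤ Real.cosh C at h2
    have hden := den_ne (g := γ) hz
    have hN : 0 < normSq (den γ z) := normSq_pos.mpr hden
    have hy : 0 < z.im := hz
    have h4 : dist z (mob γ z) ^ 2 = normSq ((c : ℂ) * z ^ 2 + ((d : ℂ) - a) * z - b) /
        normSq (den γ z) := by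
      rw [Complex.dist_eq, Complex.sq_norm, ← normSq_div]
      congr 1
      rw [mob, eq_div_iff hden, sub_mul, div_mul_cancel₀ _ hden, den]
      ring
    rw [h4] at h2
    have h5 : normSq ((c : ℂ) * z ^ 2 + ((d : ℂ) - a) * z - b) / normSq (den γ z) /
        (2 * z.im * (z.im / normSq (den γ z))) =
        normSq ((c : ℂ) * z ^ 2 + ((d : ℂ) - a) * z - b) / (2 * z.im ^ 2) := by
      field_simp
    rw [h5] at h2
    have h6 : normSq ((c : ℂ) * z ^ 2 + ((d : ℂ) - a) * z - b) / (2 * z.im ^ 2) ≤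
        Real.cosh C - 1 := by linarith
    rw [div_le_iff₀ (by positivity)] at h6
    linarith
  have key2 : ∀ x : ℝ, c * x ^ 2 + (d - a) * x - b = 0 := by
    intro x
    have h1 : Tendsto (fun y : ℝ => normSq ((c : ℂ) * ((x : ℂ) + y * I) ^ 2 +
        ((d : ℂ) - a) * ((x : ℂ) + y * I) - b)) (𝓝[>] 0)
        (𝓝 (normSq ((c : ℂ) * ((x : ℂ) + (0 : ℝ) * I) ^ 2 +
          ((d : ℂ) - a) * ((x : ℂ) + (0 : ℝ) * I) - b))) := by
      refine Tendsto.mono_left ?_ nhdsWithin_le_nhds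
      exact (Continuous.tendsto (by fun_prop) 0)
    have h2 : Tendsto (fun y : ℝ => 2 * (Real.cosh C - 1) * y ^ 2) (𝓝[>] 0)
        (𝓝 (2 * (Real.cosh C - 1) * 0 ^ 2)) := by
      refine Tendsto.mono_left ?_ nhdsWithin_le_nhds
      exact (Continuous.tendsto (by fun_prop) 0)
    have h3 := le_of_tendsto_of_tendsto h1 h2 (by
      filter_upwards [self_mem_nhdsWithin] with y hy
      have := key ((x : ℂ) + y * I) (by simpa [UU] using hy)
      simpa using this)
    have h4 : normSq ((c : ℂ) * ((x : ℂ) + (0 : ℝ) * I) ^ 2 +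
          ((d : ℂ) - a) * ((x : ℂ) + (0 : ℝ) * I) - b) = (c * x ^ 2 + (d - a) * x - b) ^ 2 := by
      have : (c : ℂ) * ((x : ℂ) + (0 : ℝ) * I) ^ 2 +
          ((d : ℂ) - a) * ((x : ℂ) + (0 : ℝ) * I) - b =
          ((c * x ^ 2 + (d - a) * x - b : ℝ) : ℂ) := by
        push_cast; ring
      rw [this, normSq_ofReal]
      ring
    rw [h4] at h3
    have h5 : (c * x ^ 2 + (d - a) * x - b) ^ 2 = 0 := by
      apply le_antisymm _ (sq_nonneg _)
      simpa using h3
    exact pow_eq_zero_iff (two_ne_zero) |>.mp h5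
  have k0 := key2 0
  have k1 := key2 1
  have k2 := key2 (-1)
  have hb0 : b = 0 := by linarith
  have hc0 : c = 0 := by linarith
  have hda : d = a := by linarith
  have ha0 : a ≠ 0 := by
    intro h
    rw [hda, hc0, h] at hdet
    simp at hdet
  apply UpperHalfPlane.ext
  rw [coe_smul_eq, mob, den, ← ha, ← hb, ← hc, ← hd, hb0, hc0, hda]
  have : (a : ℂ) ≠ 0 := ofReal_ne_zero.mpr ha0
  field_simp
  simp [this]

/-- A continuous equivariant map covering the identity of a closed hyperbolic surface is the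
identity. -/
theorem eq_id_of_orbits (Γ : Subgroup SL(2, ℝ)) [ProperlyDiscontinuousSMul Γ ℍ]
    (hfree : ∀ γ ∈ Γ, ∀ z : ℍ, γ • z = z → ∀ w : ℍ, γ • w = w)
    (hK : ∃ K : Set ℍ, IsCompact K ∧ ∀ z : ℍ, ∃ g ∈ Γ, g • z ∈ K)
    {f : ℍ → ℍ} (hf : Continuous f) (hequiv : ∀ γ ∈ Γ, ∀ z : ℍ, f (γ • z) = γ • f z)
    (horb : ∀ z : ℍ, ∃ γ ∈ Γ, f z = γ • z) (z : ℍ) : f z = z := by
  obtain ⟨γ, hγ, hfγ⟩ := single_element Γ hfree hf horb
  obtain ⟨K, hKc, hcov⟩ := hK
  have hcont : Continuous fun z : ℍ => dist z (γ • z) :=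
    continuous_id.dist (continuous_const_smul γ)
  obtain ⟨C, hC⟩ := (hKc.image hcont).bddAbove
  have hb : ∀ z : ℍ, dist z (γ • z) ≤ C := by
    intro z
    obtain ⟨g, hg, hgK⟩ := hcov z
    have h1 : dist (g • z) (γ • g • z) ≤ C := hC ⟨g • z, hgK, rfl⟩
    rw [← hfγ (g • z), hequiv g hg z, dist_smul, hfγ z] at h1
    exact h1
  rw [hfγ z]
  exact trivial_of_bounded γ hb z

end Pool.Agent.CG
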