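import Pool.Agent.Lib.MP_35454f.Rot

/-!
# Periodic Euler motions on closed hyperbolic surfaces are constant
-/

set_option autoImplicit false

open MeasureTheory Filter Topology Complex Set
open UpperHalfPlane hiding I
open scoped ContDiff Manifold MatrixGroups Interval

namespace Pool.Agent.CG

variable {Γ : Subgroup SL(2, ℝ)} {F G : ℝ → ℂ → ℂ} {p : ℝ → ℂ → ℝ}

/-- Cauchy–Schwarz in time. -/
lemma cs_time {f : ℝ → ℝ} (hf : Continuous f) {T : ℝ} (hT : 0 < T) :
    (∫ t in (0:ℝ)..T, f t) ^ 2 ≤ T * ∫ t in (0:ℝ)..T, f t ^ 2 := by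
  set m := (∫ t in (0:ℝ)..T, f t) / T with hm
  have h1 : 0 ≤ ∫ t in (0:ℝ)..T, (f t - m) ^ 2 :=
    intervalIntegral.integral_nonneg hT.le fun t _ => sq_nonneg _
  have h2 : ∫ t in (0:ℝ)..T, (f t - m) ^ 2 =
      (∫ t in (0:ℝ)..T, f t ^ 2) - 2 * m * (∫ t in (0:ℝ)..T, f t) + m ^ 2 * T := by
    have e : ∀ t, (f t - m) ^ 2 = f t ^ 2 - 2 * m * f t + m ^ 2 := fun t => by ring
    simp only [e]
    rw [intervalIntegral.integral_add, intervalIntegral.integral_sub,
      intervalIntegral.integral_const_mul, intervalIntegral.integral_const]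
    · simp; ring
    · exact (hf.pow 2).intervalIntegrable _ _
    · exact (continuous_const.mul hf).intervalIntegrable _ _
    · exact ((hf.pow 2).sub (continuous_const.mul hf)).intervalIntegrable _ _
    · exact continuous_const.intervalIntegrable _ _
  rw [h2] at h1
  have h3 : m * T = ∫ t in (0:ℝ)..T, f t := by rw [hm]; field_simp
  rw [← h3] at h1 ⊢
  nlinarith

/-- Properties of the cutoff function. -/
structure IsCut (Γ : Subgroup SL(2, ℝ)) (χ : ℂ → ℝ) : Prop where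
  c1 : ContDiff ℝ 1 χ
  cpt : HasCompactSupport χ
  supp : tsupport χ ⊆ UU
  nonneg : ∀ z, 0 ≤ χ z
  cover : ∀ z ∈ UU, ∃ g ∈ Γ, 0 < χ (mob g z)
  unfold : ∀ β : ℂ → ℂ →L[ℝ] ℝ, ContinuousOn β UU → InvForm Γ β →
    ∫ z, wedge (fderiv ℝ χ z) (β z) = 0

lemma IsCut.wd {χ : ℂ → ℝ} (hχ : IsCut Γ χ) {β : ℂ → ℂ →L[ℝ] ℝ} {κ : ℂ → ℝ} (h : WD β κ)
    (hi : InvForm Γ β) : ∫ z, χ z * κ z = 0 := by
  rw [h.2.2 χ hχ.c1 hχ.cpt hχ.supp, hχ.unfold β h.1 hi, neg_zero]

lemma IsCut.int {χ : ℂ → ℝ} (hχ : IsCut Γ χ) {g : ℂ → ℝ} (hg : ContinuousOn g UU) :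
    Integrable fun z => χ z * g z :=
  integrable_mul hχ.c1.continuous.continuousOn hχ.cpt hχ.supp hg

/-- `∫ χ dθ ∧ ζ = 0` for invariant `θ`. -/
lemma Eul.flux_zero (h : Eul Γ F G p) {χ : ℂ → ℝ} (hχ : IsCut Γ χ) (t : ℝ) {θ : ℂ → ℝ}
    (hθ : ContDiffOn ℝ 1 θ UU) (hi : InvFun Γ θ) :
    ∫ z, χ z * wedge (fderiv ℝ θ z) (Zf F G t z) = 0 := by
  have := hχ.wd (WD.leibniz hθ (h.wd_Zf t)) (InvForm.smul hi (h.inv_Zf t))
  simpa using this

lemma Mot.wedge_ZA (h : Mot F G) (t : ℝ) {z : ℂ} (hz : z ∈ UU) :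
    wedge (Zf F G t z) (Af F G t z) = - (ee F G t z / z.im ^ 2) := by
  have hXY := h.wXY t hz
  simp only [Zf, Af, wedge_sub_left, wedge_add_right, wedge_smul_left, wedge_smul_right,
    wedge_self]
  rw [wedge_swap (dIm F t z) (dRe F t z), hXY, ee]
  have h1 := h.yF_ne t z hz
  have h2 : z.im ≠ 0 := (mem_UU.mp hz).ne'
  field_simp
  ring

/-- The flux of the initial velocity form: `∫ χ ζ_t ∧ α_0 = - ∫ χ e_t`. -/
lemma Eul.int_ZA (h : Eul Γ F G p) {χ : ℂ → ℝ} (hχ : IsCut Γ χ) (t : ℝ) :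
    ∫ z, χ z * wedge (Zf F G t z) (Af F G 0 z) = - ∫ z, χ z * (ee F G t z / z.im ^ 2) := by
  have h1 := h.flux_zero hχ t (h.c1_th t) (h.inv_th t)
  have hZ := h.co_Zf.slice t
  have hA := h.co_Af.slice t
  have hA0 := h.co_Af.slice 0
  have e1 : ∀ z, χ z * wedge (Zf F G t z) (Af F G 0 z) =
      - (χ z * (ee F G t z / z.im ^ 2)) + χ z * wedge (fderiv ℝ (th F G p t) z) (Zf F G t z) := by
    intro z
    by_cases hz : z ∈ UU
    · rw [h.weber t hz, wedge_sub_left, wedge_swap (Af F G t z), h.wedge_ZA t hz,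
        wedge_swap (Af F G 0 z)]
      ring
    · simp [image_eq_zero_of_notMem_tsupport fun hh => hz (hχ.supp hh)]
  have hee : ContinuousOn (fun z => ee F G t z / z.im ^ 2) UU :=
    (h.co_ee.slice t).div (Complex.continuous_im.pow 2).continuousOn
      fun z hz => pow_ne_zero 2 (mem_UU.mp hz).ne'
  have hth : ContinuousOn (fun z => fderiv ℝ (th F G p t) z) UU :=
    (h.c1_th t).continuousOn_fderiv_of_isOpen isOpen_UU (by simp)
  calc ∫ z, χ z * wedge (Zf F G t z) (Af F G 0 z)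
      = ∫ z, (- (χ z * (ee F G t z / z.im ^ 2)) +
          χ z * wedge (fderiv ℝ (th F G p t) z) (Zf F G t z)) := by
        congr 1; ext z; exact e1 z
    _ = _ := by
        have i1 : Integrable fun z => -(χ z * (ee F G t z / z.im ^ 2)) := (hχ.int hee).neg
        rw [integral_add i1 (hχ.int (ContinuousOn.wedge hth hZ)), h1, add_zero,
          integral_neg]

/-- **Main theorem**, analytic form: no non-constant closed motion. -/
theorem Eul.energy_zero (h : Eul Γ F G p) {χ : ℂ → ℝ} (hχ : IsCut Γ χ) {T : ℝ} (hT0 : 0 < T)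
    (hT : ∀ z ∈ UU, F T z = F 0 z) :
    ∫ t in (0:ℝ)..T, ∫ z, χ z * (ee F G t z / z.im ^ 2) ≤ 0 := by
  obtain ⟨k, hk⟩ := h.rot_const hT
  have hy : ∀ z ∈ UU, z.im ≠ 0 := fun z hz => (mem_UU.mp hz).ne'
  have hχc := hχ.c1.continuous
  -- abbreviations
  set Ω : ℂ → ℝ := fun z => Om F G 0 z with hΩ
  set a : ℂ → ℝ := fun z => ar F G T z with ha
  have hΩc : ContinuousOn Ω UU := h.co_Om.slice 0
  have hac : ContinuousOn a UU := (h.c1_ar T).continuousOn
  have hyc : ContinuousOn (fun z : ℂ => z.im) UU := Complex.continuous_im.continuousOn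
  have co_e : CO (fun t z => ee F G t z / z.im ^ 2) :=
    h.co_ee.div (co_im.pow 2) fun t z hz => pow_ne_zero 2 (hy z hz)
  have co_s : CO (fun t z => ss F G t z / z.im ^ 2) :=
    h.co_ss.div (co_im.pow 2) fun t z hz => pow_ne_zero 2 (hy z hz)
  -- (E1)
  have E1 : ∫ z, χ z * Ω z = 0 := hχ.wd (h.wd_Af 0) (h.inv_Af 0)
  -- (E2)
  have E2 : ∫ z, χ z * (a z * Ω z) = ∫ z, χ z * ∫ t in (0:ℝ)..T, wedge (Zf F G t z) (Af F G 0 z) := by
    have h1 := hχ.wd (WD.leibniz (h.c1_ar T) (h.wd_Af 0))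
      (InvForm.smul (h.inv_ar hT) (h.inv_Af 0))
    have hda : ContinuousOn (fun z => fderiv ℝ (ar F G T) z) UU :=
      (h.c1_ar T).continuousOn_fderiv_of_isOpen isOpen_UU (by simp)
    simp only [mul_add] at h1
    have i1 : Integrable fun z => χ z * (ar F G T z * Om F G 0 z) := hχ.int (hac.mul hΩc)
    rw [integral_add (hχ.int (ContinuousOn.wedge hda (h.co_Af.slice 0))) i1] at h1
    have h2 : ∫ z, χ z * wedge (fderiv ℝ (ar F G T) z) (Af F G 0 z) =
        - ∫ z, χ z * ∫ t in (0:ℝ)..T, wedge (Zf F G t z) (Af F G 0 z) := by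
      rw [← integral_neg]
      congr 1
      ext z
      by_cases hz : z ∈ UU
      · rw [h.wedge_ar hT hz]; ring
      · simp [image_eq_zero_of_notMem_tsupport fun hh => hz (hχ.supp hh)]
    rw [h2] at h1
    simp only [ha, hΩ]
    linarith
  -- (E3)
  have E3 : ∫ z, χ z * (a z * Ω z) = - ∫ t in (0:ℝ)..T, ∫ z, χ z * (ee F G t z / z.im ^ 2) := by
    have hcoZA : CO (fun t z => wedge (Zf F G t z) (Af F G 0 z)) := by
      have hA0 : CO (fun _ z => Af F G 0 z) :=
        ContinuousOn.comp (g := fun z => Af F G 0 z) (f := fun q : ℝ × ℂ => q.2)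
          (h.co_Af.slice 0) continuousOn_snd fun q hq => hq
      exact h.co_Zf.wedge hA0
    rw [E2, fubini hχc hχ.cpt hχ.supp hcoZA, ← intervalIntegral.integral_neg]
    refine intervalIntegral.integral_congr fun t _ => ?_
    exact h.int_ZA hχ t
  -- (E4) Bochner
  have E4 : ∀ t, ∫ z, χ z * (ss F G t z / z.im ^ 2) =
      (∫ z, χ z * (z.im ^ 2 * Ω z ^ 2 / 4)) + 1 / 2 * ∫ z, χ z * (ee F G t z / z.im ^ 2) := by
    intro t
    have h1 := hχ.wd (h.wd_Bf t) (h.inv_Bf t)
    have e1 : ∀ z, χ z * (z.im ^ 2 * Om F G t z ^ 2 / 4 - ss F G t z / z.im ^ 2 +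
        1 / 2 * ee F G t z / z.im ^ 2) = χ z * (z.im ^ 2 * Ω z ^ 2 / 4) -
        χ z * (ss F G t z / z.im ^ 2) + 1 / 2 * (χ z * (ee F G t z / z.im ^ 2)) := by
      intro z
      by_cases hz : z ∈ UU
      · rw [h.om_const t hz]; ring
      · simp [image_eq_zero_of_notMem_tsupport fun hh => hz (hχ.supp hh)]
    simp only [e1] at h1
    have i1 : Integrable fun z => χ z * (z.im ^ 2 * Ω z ^ 2 / 4) :=
      hχ.int (((hyc.pow 2).mul (hΩc.pow 2)).div_const 4)
    have i2 : Integrable fun z => χ z * (ss F G t z / z.im ^ 2) := hχ.int (co_s.slice t)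
    have i3 : Integrable fun z => χ z * (ee F G t z / z.im ^ 2) := hχ.int (co_e.slice t)
    have i12 : Integrable fun z => χ z * (z.im ^ 2 * Ω z ^ 2 / 4) -
        χ z * (ss F G t z / z.im ^ 2) := i1.sub i2
    rw [integral_add i12 (i3.const_mul _), integral_sub i1 i2, integral_const_mul] at h1
    linarith
  -- (E5) rotation inequality
  have E5 : ∀ z ∈ UU, (1 / 2 * T * (z.im ^ 2 * Ω z) - (a z + k)) ^ 2 ≤
      T * ∫ t in (0:ℝ)..T, ss F G t z := by
    intro z hz
    have hc1 : Continuous fun t => 1 / 2 * rt F G t z * (z.im ^ 2 / (F t z).im ^ 2) :=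
      (continuous_const.mul (h.co_rt.slice_t hz)).mul (continuous_const.div
        ((h.c1F.im.co.slice_t hz).pow 2) fun t => pow_ne_zero 2 (h.yF_ne t z hz))
    have hc2 : Continuous fun t => rr F G t z := h.co_rr.slice_t hz
    have hc3 : Continuous fun t => ss F G t z := h.co_ss.slice_t hz
    have e1 : ∀ t, 1 / 2 * rt F G t z * (z.im ^ 2 / (F t z).im ^ 2) =
        1 / 2 * (z.im ^ 2 * Ω z) - (G t z).re / (F t z).im := by
      intro t
      simp only [hΩ]
      rw [← h.om_const t hz, Om]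
      have h1 := h.yF_ne t z hz
      have h2 := hy z hz
      field_simp
      ring
    have e2 : ∫ t in (0:ℝ)..T, (1 / 2 * rt F G t z * (z.im ^ 2 / (F t z).im ^ 2) - rr F G t z) =
        1 / 2 * T * (z.im ^ 2 * Ω z) - (a z + k) := by
      rw [intervalIntegral.integral_sub (hc1.intervalIntegrable _ _) (hc2.intervalIntegrable _ _),
        hk z hz]
      simp only [e1]
      rw [intervalIntegral.integral_sub (continuous_const.intervalIntegrable _ _)
        ((h.co_u.slice_t hz).intervalIntegrable _ _), intervalIntegral.integral_const]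
      simp only [ha, ar, smul_eq_mul, sub_zero]
      ring
    rw [← e2]
    have hc4 : Continuous fun t =>
        1 / 2 * rt F G t z * (z.im ^ 2 / (F t z).im ^ 2) - rr F G t z := hc1.sub hc2
    refine (cs_time hc4 hT0).trans ?_
    refine mul_le_mul_of_nonneg_left ?_ hT0.le
    refine intervalIntegral.integral_mono_on hT0.le ((hc4.pow 2).intervalIntegrable _ _)
      (hc3.intervalIntegrable _ _) fun t _ => ?_
    have := (h.rot_point t hz).2
    have e3 : (1 / 2 * rt F G t z * (z.im ^ 2 / (F t z).im ^ 2) - rr F G t z) ^ 2 =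
      (rr F G t z - 1 / 2 * rt F G t z * (z.im ^ 2 / (F t z).im ^ 2)) ^ 2 := by ring
    rw [e3]
    exact this
  -- integrate
  have iR : Integrable fun z => χ z * (T * ∫ t in (0:ℝ)..T, ss F G t z / z.im ^ 2) :=
    hχ.int (continuousOn_const.mul (co_s.continuousOn_integral 0 T))
  have cL : ContinuousOn (fun z => (1 / 2 * T * (z.im ^ 2 * Ω z) - (a z + k)) ^ 2 / z.im ^ 2) UU :=
    ((((continuousOn_const.mul ((hyc.pow 2).mul hΩc)).sub (hac.add continuousOn_const)).pow 2)).div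
      (hyc.pow 2) fun z hz => pow_ne_zero 2 (hy z hz)
  have E6 : ∫ z, χ z * ((1 / 2 * T * (z.im ^ 2 * Ω z) - (a z + k)) ^ 2 / z.im ^ 2) ≤
      ∫ z, χ z * (T * ∫ t in (0:ℝ)..T, ss F G t z / z.im ^ 2) := by
    refine integral_mono (hχ.int cL) iR fun z => ?_
    by_cases hz : z ∈ UU
    · refine mul_le_mul_of_nonneg_left ?_ (hχ.nonneg z)
      rw [intervalIntegral.integral_div, ← mul_div_assoc]
      have : 0 < z.im := hz
      exact div_le_div_of_nonneg_right (E5 z hz) (by positivity)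
    · simp [image_eq_zero_of_notMem_tsupport fun hh => hz (hχ.supp hh)]
  -- the right-hand side
  have E7 : ∫ z, χ z * (T * ∫ t in (0:ℝ)..T, ss F G t z / z.im ^ 2) =
      T * (T * (∫ z, χ z * (z.im ^ 2 * Ω z ^ 2 / 4)) +
        1 / 2 * ∫ t in (0:ℝ)..T, ∫ z, χ z * (ee F G t z / z.im ^ 2)) := by
    have e1 : ∀ z, χ z * (T * ∫ t in (0:ℝ)..T, ss F G t z / z.im ^ 2) =
        T * (χ z * ∫ t in (0:ℝ)..T, ss F G t z / z.im ^ 2) := fun z => by ring
    simp only [e1]
    rw [integral_const_mul, fubini hχc hχ.cpt hχ.supp co_s]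
    simp only [E4]
    have hIE : IntervalIntegrable (fun t => ∫ z, χ z * (ee F G t z / z.im ^ 2)) volume 0 T :=
      (co_e.continuous_integral_mul hχc hχ.cpt hχ.supp).intervalIntegrable _ _
    rw [intervalIntegral.integral_add (continuous_const.intervalIntegrable _ _)
      (hIE.const_mul _), intervalIntegral.integral_const, intervalIntegral.integral_const_mul]
    simp
  -- the left-hand side
  have E8 : ∫ z, χ z * ((1 / 2 * T * (z.im ^ 2 * Ω z) - (a z + k)) ^ 2 / z.im ^ 2) =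
      T ^ 2 * (∫ z, χ z * (z.im ^ 2 * Ω z ^ 2 / 4)) - T * (∫ z, χ z * (a z * Ω z)) -
        T * k * (∫ z, χ z * Ω z) + ∫ z, χ z * ((a z + k) ^ 2 / z.im ^ 2) := by
    have e1 : ∀ z, χ z * ((1 / 2 * T * (z.im ^ 2 * Ω z) - (a z + k)) ^ 2 / z.im ^ 2) =
        T ^ 2 * (χ z * (z.im ^ 2 * Ω z ^ 2 / 4)) - T * (χ z * (a z * Ω z)) -
        T * k * (χ z * Ω z) + χ z * ((a z + k) ^ 2 / z.im ^ 2) := by
      intro z
      by_cases hz : z ∈ UU
      · have := hy z hz
        field_simp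
        ring
      · simp [image_eq_zero_of_notMem_tsupport fun hh => hz (hχ.supp hh)]
    have i1 : Integrable fun z => χ z * (z.im ^ 2 * Ω z ^ 2 / 4) :=
      hχ.int (((hyc.pow 2).mul (hΩc.pow 2)).div_const 4)
    have i2 : Integrable fun z => χ z * (a z * Ω z) := hχ.int (hac.mul hΩc)
    have i3 : Integrable fun z => χ z * Ω z := hχ.int hΩc
    have i4 : Integrable fun z => χ z * ((a z + k) ^ 2 / z.im ^ 2) :=
      hχ.int (((hac.add continuousOn_const).pow 2).div (hyc.pow 2)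
        fun z hz => pow_ne_zero 2 (hy z hz))
    simp only [e1]
    have j12 : Integrable fun z => T ^ 2 * (χ z * (z.im ^ 2 * Ω z ^ 2 / 4)) -
        T * (χ z * (a z * Ω z)) := (i1.const_mul _).sub (i2.const_mul _)
    have j123 : Integrable fun z => T ^ 2 * (χ z * (z.im ^ 2 * Ω z ^ 2 / 4)) -
        T * (χ z * (a z * Ω z)) - T * k * (χ z * Ω z) := j12.sub (i3.const_mul _)
    rw [integral_add j123 i4, integral_sub j12 (i3.const_mul _),
      integral_sub (i1.const_mul _) (i2.const_mul _), integral_const_mul, integral_const_mul,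
      integral_const_mul]
  have E9 : 0 ≤ ∫ z, χ z * ((a z + k) ^ 2 / z.im ^ 2) :=
    integral_nonneg fun z => mul_nonneg (hχ.nonneg z) (by positivity)
  rw [E7, E8, E1, E3] at E6
  nlinarith

end Pool.Agent.CG
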