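import Pool.Agent.Lib.MP_35454f.Null

/-!
# Möbius transformations of the upper half-plane, invariant functions and forms
-/

set_option autoImplicit false

open MeasureTheory Filter Topology Complex Set
open UpperHalfPlane hiding I
open scoped ContDiff Manifold MatrixGroups

namespace Pool.Agent.CG

/-- The upper half-plane, as a subset of `ℂ`. -/
def UU : Set ℂ := {z | 0 < z.im}

lemma isOpen_UU : IsOpen UU := isOpen_lt continuous_const Complex.continuous_im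

lemma mem_UU {z : ℂ} : z ∈ UU ↔ 0 < z.im := Iff.rfl

lemma coe_mem_UU (z : ℍ) : (z : ℂ) ∈ UU := z.im_pos

/-- The denominator `c z + d`. -/
noncomputable def den (g : SL(2, ℝ)) (z : ℂ) : ℂ := ((g 1 0 : ℝ) : ℂ) * z + ((g 1 1 : ℝ) : ℂ)

/-- The Möbius transformation `z ↦ (a z + b) / (c z + d)`. -/
noncomputable def mob (g : SL(2, ℝ)) (z : ℂ) : ℂ :=
  (((g 0 0 : ℝ) : ℂ) * z + ((g 0 1 : ℝ) : ℂ)) / den g z

lemma det_eq (g : SL(2, ℝ)) : g 0 0 * g 1 1 - g 0 1 * g 1 0 = 1 := by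
  have := g.det_coe
  rwa [Matrix.det_fin_two] at this

lemma coe_smul_eq (g : SL(2, ℝ)) (z : ℍ) : ((g • z : ℍ) : ℂ) = mob g z := by
  rw [coe_specialLinearGroup_apply]
  simp [mob, den]

lemma den_ne {g : SL(2, ℝ)} {z : ℂ} (hz : z ∈ UU) : den g z ≠ 0 := by
  intro h
  have him : (den g z).im = 0 := by rw [h]; rfl
  have hre : (den g z).re = 0 := by rw [h]; rfl
  simp only [den, add_im, mul_im, ofReal_re, ofReal_im, zero_mul, add_zero, add_re, mul_re,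
    sub_zero] at him hre
  have hc : g 1 0 = 0 := by
    rcases mul_eq_zero.mp him with h | h
    · exact h
    · exact absurd h (ne_of_gt hz)
  rw [hc] at hre
  have hd : g 1 1 = 0 := by simpa using hre
  have := det_eq g
  rw [hc, hd] at this
  simp at this

lemma mob_mem {g : SL(2, ℝ)} {z : ℂ} (hz : z ∈ UU) : mob g z ∈ UU := by
  have := coe_smul_eq g ⟨z, hz⟩
  rw [show ((⟨z, hz⟩ : ℍ) : ℂ) = z from rfl] at this
  rw [← this]
  exact coe_mem_UU _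

lemma mob_one (z : ℂ) : mob 1 z = z := by simp [mob, den]

lemma mob_mul (g h : SL(2, ℝ)) {z : ℂ} (hz : z ∈ UU) : mob (g * h) z = mob g (mob h z) := by
  have h1 := coe_smul_eq (g * h) ⟨z, hz⟩
  have h2 := coe_smul_eq g (h • ⟨z, hz⟩)
  rw [mul_smul] at h1
  rw [h1] at h2
  rw [coe_smul_eq h] at h2
  exact h2

lemma mob_inv_mob (g : SL(2, ℝ)) {z : ℂ} (hz : z ∈ UU) : mob g⁻¹ (mob g z) = z := by
  rw [← mob_mul _ _ hz, inv_mul_cancel, mob_one]

lemma mob_mob_inv (g : SL(2, ℝ)) {z : ℂ} (hz : z ∈ UU) : mob g (mob g⁻¹ z) = z := by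
  rw [← mob_mul _ _ hz, mul_inv_cancel, mob_one]

lemma hasDerivAt_mob (g : SL(2, ℝ)) {z : ℂ} (hz : z ∈ UU) :
    HasDerivAt (mob g) (1 / (den g z) ^ 2) z := by
  have hd := den_ne (g := g) hz
  have h1 : HasDerivAt (fun z : ℂ => ((g 0 0 : ℝ) : ℂ) * z + ((g 0 1 : ℝ) : ℂ)) ((g 0 0 : ℝ) : ℂ) z := by
    simpa using ((hasDerivAt_id z).const_mul ((g 0 0 : ℝ) : ℂ)).add_const ((g 0 1 : ℝ) : ℂ)
  have h2 : HasDerivAt (fun z : ℂ => ((g 1 0 : ℝ) : ℂ) * z + ((g 1 1 : ℝ) : ℂ)) ((g 1 0 : ℝ) : ℂ) z := by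
    simpa using ((hasDerivAt_id z).const_mul ((g 1 0 : ℝ) : ℂ)).add_const ((g 1 1 : ℝ) : ℂ)
  have h3 := h1.fun_div h2 hd
  refine h3.congr_deriv ?_
  change _ / (den g z) ^ 2 = _
  rw [div_left_inj' (pow_ne_zero 2 hd)]
  have h4 : ((g 0 0 : ℝ) : ℂ) * ((g 1 1 : ℝ) : ℂ) - ((g 0 1 : ℝ) : ℂ) * ((g 1 0 : ℝ) : ℂ) = 1 := by
    exact_mod_cast det_eq g
  have h5 : den g z = ((g 1 0 : ℝ) : ℂ) * z + ((g 1 1 : ℝ) : ℂ) := rfl
  linear_combination h4

lemma hasFDerivAt_mob (g : SL(2, ℝ)) {z : ℂ} (hz : z ∈ UU) :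
    HasFDerivAt (𝕜 := ℝ) (mob g) ((1 / (den g z) ^ 2) • (1 : ℂ →L[ℝ] ℂ)) z := by
  refine ((hasDerivAt_mob g hz).hasFDerivAt.restrictScalars ℝ).congr_fderiv ?_
  ext w
  simp [mul_comm]

lemma contDiffAt_mob (g : SL(2, ℝ)) {z : ℂ} (hz : z ∈ UU) {n : ℕ∞ω} :
    ContDiffAt ℝ n (mob g) z := by
  have h : ContDiffAt ℂ n (fun z : ℂ => (((g 0 0 : ℝ) : ℂ) * z + ((g 0 1 : ℝ) : ℂ)) /
      (((g 1 0 : ℝ) : ℂ) * z + ((g 1 1 : ℝ) : ℂ))) z := by
    refine ContDiffAt.div ?_ ?_ (den_ne hz)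
    · exact (contDiffAt_const.mul contDiffAt_id).add contDiffAt_const
    · exact (contDiffAt_const.mul contDiffAt_id).add contDiffAt_const
  exact h.restrict_scalars ℝ

lemma im_mob (g : SL(2, ℝ)) {z : ℂ} (hz : z ∈ UU) : (mob g z).im = z.im / normSq (den g z) := by
  have hd := den_ne (g := g) hz
  have hn : normSq (den g z) ≠ 0 := by simpa using hd
  rw [mob, div_im, ← sub_div, div_left_inj' hn]
  simp only [den, add_im, mul_im, ofReal_re, ofReal_im, zero_mul, add_zero, add_re, mul_re,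
    sub_zero]
  linear_combination (z.im) * det_eq g

/-- Functions on the upper half-plane which are invariant under `Γ`. -/
def InvFun (Γ : Subgroup SL(2, ℝ)) (f : ℂ → ℝ) : Prop :=
  ∀ g ∈ Γ, ∀ z ∈ UU, f (mob g z) = f z

/-- One-forms on the upper half-plane which are invariant under `Γ`. -/
def InvForm (Γ : Subgroup SL(2, ℝ)) (β : ℂ → ℂ →L[ℝ] ℝ) : Prop :=
  ∀ g ∈ Γ, ∀ z ∈ UU, ∀ w, β (mob g z) (w / (den g z) ^ 2) = β z w

lemma wedge_comp_mul (α β : ℂ →L[ℝ] ℝ) (m : ℂ) :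
    (α m * β (I * m) - α (I * m) * β m) = normSq m * wedge α β := by
  have h1 : ∀ α : ℂ →L[ℝ] ℝ, α m = m.re * α 1 + m.im * α I := by
    intro α
    have h : m = m.re • (1:ℂ) + m.im • I := by
      apply Complex.ext <;> simp
    conv_lhs => rw [h]
    rw [map_add, map_smul, map_smul]
    rfl
  have h2 : ∀ α : ℂ →L[ℝ] ℝ, α (I * m) = m.re * α I - m.im * α 1 := by
    intro α
    have : I * m = m.re • I - m.im • (1:ℂ) := by
      apply Complex.ext <;> simp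
    rw [this, map_sub, map_smul, map_smul]
    rfl
  rw [h1 α, h1 β, h2 α, h2 β, normSq_apply, wedge]
  ring

/-- Behaviour of wedge products of invariant forms. -/
lemma wedge_mob {α β α' β' : ℂ →L[ℝ] ℝ} {d : ℂ}
    (hα : ∀ w, α' (w / d ^ 2) = α w) (hβ : ∀ w, β' (w / d ^ 2) = β w) :
    wedge α β = wedge α' β' / normSq d ^ 2 := by
  have h := wedge_comp_mul α' β' (1 / d ^ 2)
  rw [wedge, ← hα 1, ← hα I, ← hβ 1, ← hβ I, show I / d ^ 2 = I * (1 / d ^ 2) by ring, h]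
  rw [map_div₀, map_pow, map_one]
  ring

end Pool.Agent.CG
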