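import Pool.Agent.Lib.MP_35454f.Param

/-!
# Area-preserving motions of the upper half-plane in Lagrangian variables
-/

set_option autoImplicit false

open MeasureTheory Filter Topology Complex Set
open UpperHalfPlane hiding I
open scoped ContDiff Manifold MatrixGroups Interval

namespace Pool.Agent.CG

/-- An area-preserving motion `F` of the upper half-plane with velocity `G = ∂ₜ F`. -/
structure Mot (F G : ℝ → ℂ → ℂ) : Prop where
  mem : ∀ t, ∀ z ∈ UU, F t z ∈ UU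
  c1F : C1 F
  c1G : C1 G
  dF : ∀ t, ∀ z ∈ UU, HasDerivAt (fun s => F s z) (G t z) t
  area : ∀ t, ∀ z ∈ UU, wedge (reCLM.comp (fderiv ℝ (F t) z)) (imCLM.comp (fderiv ℝ (F t) z)) =
    (F t z).im ^ 2 / z.im ^ 2

/-- differential of the real part -/
noncomputable def dRe (F : ℝ → ℂ → ℂ) (t : ℝ) (z : ℂ) : ℂ →L[ℝ] ℝ := reCLM.comp (fderiv ℝ (F t) z)

/-- differential of the imaginary part -/
noncomputable def dIm (F : ℝ → ℂ → ℂ) (t : ℝ) (z : ℂ) : ℂ →L[ℝ] ℝ := imCLM.comp (fderiv ℝ (F t) z)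

lemma C1.re {F : ℝ → ℂ → ℂ} (h : C1 F) : C1 (fun t z => (F t z).re) :=
  reCLM.contDiff.comp_contDiffOn h

lemma C1.im {F : ℝ → ℂ → ℂ} (h : C1 F) : C1 (fun t z => (F t z).im) :=
  imCLM.contDiff.comp_contDiffOn h

lemma C1.hasFDerivAt_re {F : ℝ → ℂ → ℂ} (h : C1 F) (t : ℝ) {z : ℂ} (hz : z ∈ UU) :
    HasFDerivAt (fun z => (F t z).re) (dRe F t z) z :=
  reCLM.hasFDerivAt.comp z (h.hasFDerivAt t hz)

lemma C1.hasFDerivAt_im {F : ℝ → ℂ → ℂ} (h : C1 F) (t : ℝ) {z : ℂ} (hz : z ∈ UU) :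
    HasFDerivAt (fun z => (F t z).im) (dIm F t z) z :=
  imCLM.hasFDerivAt.comp z (h.hasFDerivAt t hz)

lemma C1.co_dRe {F : ℝ → ℂ → ℂ} (h : C1 F) : CO (dRe F) :=
  ContinuousOn.clm_comp continuousOn_const h.co_fderiv

lemma C1.co_dIm {F : ℝ → ℂ → ℂ} (h : C1 F) : CO (dIm F) :=
  ContinuousOn.clm_comp continuousOn_const h.co_fderiv

lemma dRe_apply (F : ℝ → ℂ → ℂ) (t : ℝ) (z w : ℂ) : dRe F t z w = (fderiv ℝ (F t) z w).re := rfl

lemma dIm_apply (F : ℝ → ℂ → ℂ) (t : ℝ) (z w : ℂ) : dIm F t z w = (fderiv ℝ (F t) z w).im := rfl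

variable {F G : ℝ → ℂ → ℂ}

lemma Mot.y_pos (h : Mot F G) (t : ℝ) {z : ℂ} (hz : z ∈ UU) : 0 < (F t z).im := h.mem t z hz

lemma Mot.wXY (h : Mot F G) (t : ℝ) {z : ℂ} (hz : z ∈ UU) :
    wedge (dRe F t z) (dIm F t z) = (F t z).im ^ 2 / z.im ^ 2 := h.area t z hz

/-- the position in terms of the velocity -/
lemma Mot.eq_integral (h : Mot F G) (t : ℝ) {z : ℂ} (hz : z ∈ UU) :
    F t z = F 0 z + ∫ s in (0:ℝ)..t, G s z := by
  rw [intervalIntegral.integral_eq_sub_of_hasDerivAt (fun s _ => h.dF s z hz)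
    ((h.c1G.co.slice_t hz).intervalIntegrable _ _)]
  ring

lemma Mot.fderiv_eq_integral (h : Mot F G) (t : ℝ) {z : ℂ} (hz : z ∈ UU) :
    fderiv ℝ (F t) z = fderiv ℝ (F 0) z + ∫ s in (0:ℝ)..t, fderiv ℝ (G s) z := by
  have h1 : F t =ᶠ[𝓝 z] fun w => F 0 w + ∫ s in (0:ℝ)..t, G s w := by
    filter_upwards [isOpen_UU.mem_nhds hz] with w hw using h.eq_integral t hw
  have h2 : HasFDerivAt (fun w => F 0 w + ∫ s in (0:ℝ)..t, G s w)
      (fderiv ℝ (F 0) z + ∫ s in (0:ℝ)..t, fderiv ℝ (G s) z) z :=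
    (h.c1F.hasFDerivAt 0 hz).add (hasFDerivAt_param h.c1G.co h.c1G.co_fderiv
      (fun t z hz => h.c1G.hasFDerivAt t hz) 0 t hz)
  rw [h1.fderiv_eq, h2.fderiv]

/-- the mixed second derivative -/
lemma Mot.hasDerivAt_fderiv (h : Mot F G) (t : ℝ) {z : ℂ} (hz : z ∈ UU) :
    HasDerivAt (fun s => fderiv ℝ (F s) z) (fderiv ℝ (G t) z) t := by
  have h1 : (fun s => fderiv ℝ (F s) z) =
      fun t => fderiv ℝ (F 0) z + ∫ s in (0:ℝ)..t, fderiv ℝ (G s) z := by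
    ext1 s
    exact h.fderiv_eq_integral s hz
  rw [h1]
  exact (intervalIntegral.integral_hasDerivAt_right
    ((h.c1G.co_fderiv.slice_t hz).intervalIntegrable _ _)
    ((h.c1G.co_fderiv.slice_t hz).stronglyMeasurableAtFilter _ _)
    (h.c1G.co_fderiv.slice_t hz).continuousAt).const_add _

lemma Mot.hasDerivAt_dRe (h : Mot F G) (t : ℝ) {z : ℂ} (hz : z ∈ UU) (w : ℂ) :
    HasDerivAt (fun s => dRe F s z w) (dRe G t z w) t := by
  have h1 := ((h.hasDerivAt_fderiv t hz).clm_apply (hasDerivAt_const t w))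
  simp only [map_zero, add_zero] at h1
  exact reCLM.hasFDerivAt.comp_hasDerivAt t h1

lemma Mot.hasDerivAt_dIm (h : Mot F G) (t : ℝ) {z : ℂ} (hz : z ∈ UU) (w : ℂ) :
    HasDerivAt (fun s => dIm F s z w) (dIm G t z w) t := by
  have h1 := ((h.hasDerivAt_fderiv t hz).clm_apply (hasDerivAt_const t w))
  simp only [map_zero, add_zero] at h1
  exact imCLM.hasFDerivAt.comp_hasDerivAt t h1

lemma Mot.hasDerivAt_re (h : Mot F G) (t : ℝ) {z : ℂ} (hz : z ∈ UU) :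
    HasDerivAt (fun s => (F s z).re) (G t z).re t :=
  reCLM.hasFDerivAt.comp_hasDerivAt t (h.dF t z hz)

lemma Mot.hasDerivAt_im (h : Mot F G) (t : ℝ) {z : ℂ} (hz : z ∈ UU) :
    HasDerivAt (fun s => (F s z).im) (G t z).im t :=
  imCLM.hasFDerivAt.comp_hasDerivAt t (h.dF t z hz)

/-- Incompressibility in Lagrangian variables. -/
lemma Mot.incompr (h : Mot F G) (t : ℝ) {z : ℂ} (hz : z ∈ UU) :
    wedge (dRe G t z) (dIm F t z) - wedge (dIm G t z) (dRe F t z) =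
      2 * (F t z).im * (G t z).im / z.im ^ 2 := by
  have h1 : HasDerivAt (fun s => wedge (dRe F s z) (dIm F s z))
      (2 * (F t z).im * (G t z).im / z.im ^ 2) t := by
    have h2 : (fun s => wedge (dRe F s z) (dIm F s z)) = fun s => (F s z).im ^ 2 / z.im ^ 2 := by
      ext s; exact h.wXY s hz
    rw [h2]
    have := ((h.hasDerivAt_im t hz).fun_pow 2).div_const (z.im ^ 2)
    simpa using this
  have h3 : HasDerivAt (fun s => wedge (dRe F s z) (dIm F s z))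
      ((dRe G t z 1 * dIm F t z I + dRe F t z 1 * dIm G t z I) -
        (dRe G t z I * dIm F t z 1 + dRe F t z I * dIm G t z 1)) t :=
    ((h.hasDerivAt_dRe t hz 1).mul (h.hasDerivAt_dIm t hz I)).sub
      ((h.hasDerivAt_dRe t hz I).mul (h.hasDerivAt_dIm t hz 1))
  rw [← h3.unique h1]
  simp only [wedge]
  ring

end Pool.Agent.CG
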