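import Mathlib

/-!
# Null Lagrangians for `C¹` functions in the plane

For `C¹` functions `P, Q` on an open set `U ⊆ ℂ` and a compactly supported `C¹` function `f`
with support in `U` one has `∫ f dP ∧ dQ = - ∫ P df ∧ dQ`.
-/

set_option autoImplicit false

open MeasureTheory Filter Topology Complex Set
open scoped ContDiff Manifold

namespace Pool.Agent.CG

/-- The value of the wedge product `α ∧ β` on the standard basis `(1, i)`. -/
noncomputable def wedge (α β : ℂ →L[ℝ] ℝ) : ℝ := α 1 * β I - α I * β 1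

lemma wedge_self (α : ℂ →L[ℝ] ℝ) : wedge α α = 0 := by simp [wedge]; ring

lemma wedge_add_left (α α' β : ℂ →L[ℝ] ℝ) : wedge (α + α') β = wedge α β + wedge α' β := by
  simp [wedge]; ring

lemma wedge_add_right (α β β' : ℂ →L[ℝ] ℝ) : wedge α (β + β') = wedge α β + wedge α β' := by
  simp [wedge]; ring

lemma wedge_sub_left (α α' β : ℂ →L[ℝ] ℝ) : wedge (α - α') β = wedge α β - wedge α' β := by
  simp [wedge]; ring

lemma wedge_sub_right (α β β' : ℂ →L[ℝ] ℝ) : wedge α (β - β') = wedge α β - wedge α β' := by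
  simp [wedge]; ring

lemma wedge_smul_left (c : ℝ) (α β : ℂ →L[ℝ] ℝ) : wedge (c • α) β = c * wedge α β := by
  simp [wedge]; ring

lemma wedge_smul_right (c : ℝ) (α β : ℂ →L[ℝ] ℝ) : wedge α (c • β) = c * wedge α β := by
  simp [wedge]; ring

lemma wedge_neg_right (α β : ℂ →L[ℝ] ℝ) : wedge α (-β) = - wedge α β := by
  simp [wedge]; ring

lemma wedge_swap (α β : ℂ →L[ℝ] ℝ) : wedge α β = - wedge β α := by
  simp [wedge]; ring

lemma wedge_zero_left (β : ℂ →L[ℝ] ℝ) : wedge 0 β = 0 := by simp [wedge]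

lemma wedge_zero_right (β : ℂ →L[ℝ] ℝ) : wedge β 0 = 0 := by simp [wedge]

lemma continuous_wedge : Continuous (fun p : (ℂ →L[ℝ] ℝ) × (ℂ →L[ℝ] ℝ) => wedge p.1 p.2) := by
  unfold wedge; fun_prop

lemma ContinuousOn.wedge {X : Type*} [TopologicalSpace X] {s : Set X}
    {α β : X → ℂ →L[ℝ] ℝ} (hα : ContinuousOn α s) (hβ : ContinuousOn β s) :
    ContinuousOn (fun x => CG.wedge (α x) (β x)) s :=
  continuous_wedge.comp_continuousOn (hα.prodMk hβ)

lemma Continuous.wedge {X : Type*} [TopologicalSpace X]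
    {α β : X → ℂ →L[ℝ] ℝ} (hα : Continuous α) (hβ : Continuous β) :
    Continuous (fun x => CG.wedge (α x) (β x)) :=
  continuous_wedge.comp (hα.prodMk hβ)

/-- Integration by parts in one direction, for `C¹` compactly supported functions. -/
lemma ibp {R Q : ℂ → ℝ} (hR : ContDiff ℝ 1 R) (hRc : HasCompactSupport R) (hQ : ContDiff ℝ 1 Q)
    (v : ℂ) : ∫ z, fderiv ℝ R z v * Q z = - ∫ z, R z * fderiv ℝ Q z v := by
  have hRd : Continuous fun z => fderiv ℝ R z v :=
    (hR.continuous_fderiv one_ne_zero).clm_apply continuous_const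
  have hQd : Continuous fun z => fderiv ℝ Q z v :=
    (hQ.continuous_fderiv one_ne_zero).clm_apply continuous_const
  have hRdc : HasCompactSupport fun z => fderiv ℝ R z v :=
    (hRc.fderiv (𝕜 := ℝ)).comp_left (g := fun L : ℂ →L[ℝ] ℝ => L v) (by simp)
  have h := integral_mul_fderiv_eq_neg_fderiv_mul_of_integrable (μ := (volume : Measure ℂ))
    (f := R) (g := Q) (v := v)
    ((hRd.mul hQ.continuous).integrable_of_hasCompactSupport (hRdc.mul_right))
    ((hR.continuous.mul hQd).integrable_of_hasCompactSupport (hRc.mul_right))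
    ((hR.continuous.mul hQ.continuous).integrable_of_hasCompactSupport (hRc.mul_right))
    (fun x _ => hR.differentiable one_ne_zero x) (fun x _ => hQ.differentiable one_ne_zero x)
  linarith [h]

lemma continuous_fderiv_apply' {R : ℂ → ℝ} (hR : ContDiff ℝ 1 R) (v : ℂ) :
    Continuous fun z => fderiv ℝ R z v :=
  (hR.continuous_fderiv one_ne_zero).clm_apply continuous_const

lemma hasCompactSupport_fderiv_apply {R : ℂ → ℝ} (hRc : HasCompactSupport R) (v : ℂ) :
    HasCompactSupport fun z => fderiv ℝ R z v :=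
  (hRc.fderiv (𝕜 := ℝ)).comp_left (g := fun L : ℂ →L[ℝ] ℝ => L v) (by simp)

/-- A function which is continuous on `U` and vanishes off a compact subset of `U` is
integrable. -/
lemma integrable_loc {U : Set ℂ} (_hU : IsOpen U) {f g : ℂ → ℝ} (hfc : HasCompactSupport f)
    (hfU : tsupport f ⊆ U) (hg : ContinuousOn g U) (h0 : ∀ z, z ∉ tsupport f → g z = 0) :
    Integrable g := by
  have h1 : IntegrableOn g (tsupport f) :=
    (hg.mono hfU).integrableOn_compact hfc
  rwa [integrableOn_iff_integrable_of_support_subset] at h1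
  intro z hz
  by_contra h
  exact hz (h0 z h)

/-- `∫ R_v Q_w = ∫ R_w Q_v` for `C¹` functions, `R` compactly supported. -/
lemma integral_swap {R Q : ℂ → ℝ} (hR : ContDiff ℝ 1 R) (hRc : HasCompactSupport R)
    (hQ : ContDiff ℝ 1 Q) (v w : ℂ) :
    ∫ z, fderiv ℝ R z v * fderiv ℝ Q z w = ∫ z, fderiv ℝ R z w * fderiv ℝ Q z v := by
  set K := tsupport R with hK
  have hKc : IsCompact K := hRc
  -- first derivative
  have h1 : HasDerivAt (fun s : ℝ => ∫ z, fderiv ℝ R z v * Q (z + s • w))
      (∫ z, fderiv ℝ R z v * fderiv ℝ Q (z + (0:ℝ) • w) w) 0 := by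
    have hcomp : IsCompact ((fun p : ℂ × ℝ => p.1 + p.2 • w) '' (K ×ˢ Icc (-1) 1)) :=
      (hKc.prod isCompact_Icc).image (by fun_prop)
    obtain ⟨C, hC⟩ := hcomp.exists_bound_of_continuousOn
      (f := fun z => fderiv ℝ Q z w) (continuous_fderiv_apply' hQ w).continuousOn
    have hball : Metric.ball (0:ℝ) 1 ∈ 𝓝 (0:ℝ) := Metric.ball_mem_nhds _ one_pos
    refine (hasDerivAt_integral_of_dominated_loc_of_deriv_le (μ := (volume : Measure ℂ))
      (F := fun (s : ℝ) z => fderiv ℝ R z v * Q (z + s • w))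
      (F' := fun (s : ℝ) z => fderiv ℝ R z v * fderiv ℝ Q (z + s • w) w)
      (bound := fun z => |fderiv ℝ R z v| * C) hball ?_ ?_ ?_ ?_ ?_ ?_).2
    · refine Eventually.of_forall fun s => ?_
      have : Continuous fun z => fderiv ℝ R z v * Q (z + s • w) :=
        (continuous_fderiv_apply' hR v).mul (hQ.continuous.comp (by fun_prop))
      exact this.aestronglyMeasurable
    · have : Continuous fun z => fderiv ℝ R z v * Q (z + (0:ℝ) • w) :=
        (continuous_fderiv_apply' hR v).mul (hQ.continuous.comp (by fun_prop))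
      exact this.integrable_of_hasCompactSupport ((hasCompactSupport_fderiv_apply hRc v).mul_right)
    · have : Continuous fun z => fderiv ℝ R z v * fderiv ℝ Q (z + (0:ℝ) • w) w :=
        (continuous_fderiv_apply' hR v).mul ((continuous_fderiv_apply' hQ w).comp (by fun_prop))
      exact this.aestronglyMeasurable
    · refine Eventually.of_forall fun z s hs => ?_
      rw [norm_mul, Real.norm_eq_abs]
      by_cases hz : z ∈ K
      · refine mul_le_mul_of_nonneg_left (hC _ ⟨(z, s), ⟨hz, ?_⟩, rfl⟩) (abs_nonneg _)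
        rw [Metric.mem_ball, dist_zero_right, Real.norm_eq_abs, abs_lt] at hs
        exact ⟨hs.1.le, hs.2.le⟩
      · have : fderiv ℝ R z = 0 := by
          by_contra hne
          exact hz (tsupport_fderiv_subset ℝ (subset_tsupport _ hne))
        simp [this]
    · exact ((continuous_fderiv_apply' hR v).abs.mul continuous_const).integrable_of_hasCompactSupport
        ((hasCompactSupport_fderiv_apply hRc v).comp_left (g := fun x : ℝ => |x|) (by simp)).mul_right
    · refine Eventually.of_forall fun z s hs => ?_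
      have hd : HasDerivAt (fun s : ℝ => z + s • w) w s := by
        simpa using ((hasDerivAt_id s).smul_const w).const_add z
      have := (hQ.differentiable one_ne_zero (z + s • w)).hasFDerivAt.comp_hasDerivAt s hd
      exact this.const_mul _
  have h2 : HasDerivAt (fun s : ℝ => ∫ z, R (z - s • w) * fderiv ℝ Q z v)
      (∫ z, - fderiv ℝ R (z - (0:ℝ) • w) w * fderiv ℝ Q z v) 0 := by
    have hcomp : IsCompact ((fun p : ℂ × ℝ => p.1 + p.2 • w) '' (K ×ˢ Icc (-1) 1)) :=
      (hKc.prod isCompact_Icc).image (by fun_prop)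
    set K' := (fun p : ℂ × ℝ => p.1 + p.2 • w) '' (K ×ˢ Icc (-1) 1) with hK'
    obtain ⟨C, hC⟩ := hKc.exists_bound_of_continuousOn
      (f := fun z => fderiv ℝ R z w) (continuous_fderiv_apply' hR w).continuousOn
    have hC' : ∀ z, ‖fderiv ℝ R z w‖ ≤ max C 0 := by
      intro z
      by_cases hz : z ∈ K
      · exact (hC z hz).trans (le_max_left _ _)
      · have : fderiv ℝ R z = 0 := by
          by_contra hne
          exact hz (tsupport_fderiv_subset ℝ (subset_tsupport _ hne))
        simp [this]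
    have hball : Metric.ball (0:ℝ) 1 ∈ 𝓝 (0:ℝ) := Metric.ball_mem_nhds _ one_pos
    have hQi : Integrable (K'.indicator fun z => |fderiv ℝ Q z v|) := by
      refine IntegrableOn.integrable_indicator ?_ hcomp.measurableSet
      exact (continuous_fderiv_apply' hQ v).abs.continuousOn.integrableOn_compact hcomp
    refine (hasDerivAt_integral_of_dominated_loc_of_deriv_le (μ := (volume : Measure ℂ))
      (F := fun (s : ℝ) z => R (z - s • w) * fderiv ℝ Q z v)
      (F' := fun (s : ℝ) z => - fderiv ℝ R (z - s • w) w * fderiv ℝ Q z v)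
      (bound := fun z => max C 0 * K'.indicator (fun z => |fderiv ℝ Q z v|) z) hball
      ?_ ?_ ?_ ?_ ?_ ?_).2
    · refine Eventually.of_forall fun s => ?_
      have : Continuous fun z => R (z - s • w) * fderiv ℝ Q z v :=
        (hR.continuous.comp (by fun_prop)).mul (continuous_fderiv_apply' hQ v)
      exact this.aestronglyMeasurable
    · have : Continuous fun z => R (z - (0:ℝ) • w) * fderiv ℝ Q z v :=
        (hR.continuous.comp (by fun_prop)).mul (continuous_fderiv_apply' hQ v)
      refine this.integrable_of_hasCompactSupport ?_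
      have : (fun z => R (z - (0:ℝ) • w)) = R := by ext z; simp
      rw [show (fun z => R (z - (0:ℝ) • w) * fderiv ℝ Q z v) = fun z => R z * fderiv ℝ Q z v from by
        ext z; simp]
      exact hRc.mul_right
    · have : Continuous fun z => - fderiv ℝ R (z - (0:ℝ) • w) w * fderiv ℝ Q z v :=
        ((continuous_fderiv_apply' hR w).comp (by fun_prop)).neg.mul (continuous_fderiv_apply' hQ v)
      exact this.aestronglyMeasurable
    · refine Eventually.of_forall fun z s hs => ?_
      rw [norm_mul, norm_neg, Real.norm_eq_abs (fderiv ℝ Q z v)]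
      by_cases hz : z ∈ K'
      · rw [indicator_of_mem hz]
        exact mul_le_mul_of_nonneg_right (hC' _) (abs_nonneg _)
      · have : z - s • w ∉ K := by
          intro h
          apply hz
          refine ⟨(z - s • w, s), ⟨h, ?_⟩, by simp⟩
          rw [Metric.mem_ball, dist_zero_right, Real.norm_eq_abs, abs_lt] at hs
          exact ⟨hs.1.le, hs.2.le⟩
        have : fderiv ℝ R (z - s • w) = 0 := by
          by_contra hne
          exact this (tsupport_fderiv_subset ℝ (subset_tsupport _ hne))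
        rw [this]
        simp only [zero_apply, norm_zero, zero_mul]
        exact mul_nonneg (le_max_right _ _) (indicator_nonneg (fun _ _ => abs_nonneg _) _)
    · exact hQi.const_mul _
    · refine Eventually.of_forall fun z s hs => ?_
      have hd : HasDerivAt (fun s : ℝ => z - s • w) (-w) s := by
        simpa using ((hasDerivAt_id s).smul_const w).const_sub z
      have := (hR.differentiable one_ne_zero (z - s • w)).hasFDerivAt.comp_hasDerivAt s hd
      simp only [map_neg] at this
      exact this.mul_const _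
  have h3 : (fun s : ℝ => ∫ z, fderiv ℝ R z v * Q (z + s • w)) =
      fun s : ℝ => - ∫ z, R (z - s • w) * fderiv ℝ Q z v := by
    ext s
    have hQs : ContDiff ℝ 1 (fun z => Q (z + s • w)) := hQ.comp (by fun_prop)
    rw [ibp hR hRc hQs v]
    congr 1
    have : ∀ z, fderiv ℝ (fun z => Q (z + s • w)) z = fderiv ℝ Q (z + s • w) := by
      intro z
      exact fderiv_comp_add_right (s • w)
    simp only [this]
    have h4 := integral_add_right_eq_self (μ := (volume : Measure ℂ))
      (fun z => R (z - s • w) * fderiv ℝ Q z v) (s • w)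
    rw [← h4]
    simp
  rw [h3] at h1
  have h5 := h1.unique h2.neg
  simp only [zero_smul, add_zero, sub_zero] at h5
  rw [h5, ← integral_neg]
  congr 1
  ext z
  ring

/-- `∫ dR ∧ dQ = 0`, for `R` compactly supported. -/
lemma integral_wedge_cc {R Q : ℂ → ℝ} (hR : ContDiff ℝ 1 R) (hRc : HasCompactSupport R)
    (hQ : ContDiff ℝ 1 Q) : ∫ z, wedge (fderiv ℝ R z) (fderiv ℝ Q z) = 0 := by
  unfold wedge
  rw [integral_sub, integral_swap hR hRc hQ 1 I, sub_self]
  · exact ((continuous_fderiv_apply' hR 1).mul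
      (continuous_fderiv_apply' hQ I)).integrable_of_hasCompactSupport
      (hasCompactSupport_fderiv_apply hRc 1).mul_right
  · exact ((continuous_fderiv_apply' hR I).mul
      (continuous_fderiv_apply' hQ 1)).integrable_of_hasCompactSupport
      (hasCompactSupport_fderiv_apply hRc I).mul_right

/-- A smooth cutoff function. -/
lemma exists_cut {K U : Set ℂ} (hK : IsCompact K) (hU : IsOpen U) (hKU : K ⊆ U) :
    ∃ η : ℂ → ℝ, ContDiff ℝ ∞ η ∧ HasCompactSupport η ∧ tsupport η ⊆ U ∧
      (∀ᶠ z in 𝓝ˢ K, η z = 1) ∧ ∀ z, η z ∈ Icc (0:ℝ) 1 := by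
  obtain ⟨L, hL, hKL, hLU⟩ := exists_compact_between hK hU hKU
  obtain ⟨f, hf1, hf0, hf⟩ := exists_contMDiffMap_one_nhds_of_subset_interior
    (M := ℂ) (n := ⊤) (modelWithCornersSelf ℝ ℂ) hK.isClosed hKL
  have hs : tsupport (f : ℂ → ℝ) ⊆ L := by
    refine closure_minimal ?_ hL.isClosed
    intro z hz
    by_contra h
    exact hz (hf0 z h)
  exact ⟨f, f.contMDiff.contDiff, HasCompactSupport.of_support_subset_isCompact hL
    ((subset_tsupport _).trans hs), hs.trans hLU, hf1, hf⟩

lemma contDiff_mul_loc {U : Set ℂ} (hU : IsOpen U) {f P : ℂ → ℝ} (hf : ContDiff ℝ 1 f)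
    (hfU : tsupport f ⊆ U) (hP : ContDiffOn ℝ 1 P U) : ContDiff ℝ 1 (fun z => f z * P z) := by
  refine contDiff_iff_contDiffAt.mpr fun z => ?_
  by_cases hz : z ∈ U
  · exact hf.contDiffAt.mul (hP.contDiffAt (hU.mem_nhds hz))
  · have hz' : z ∉ tsupport f := fun h => hz (hfU h)
    have h0 : f =ᶠ[𝓝 z] 0 := notMem_tsupport_iff_eventuallyEq.mp hz'
    have h1 : (fun z => f z * P z) =ᶠ[𝓝 z] fun _ => 0 := by
      filter_upwards [h0] with w hw using by simp [hw]
    exact contDiffAt_const.congr_of_eventuallyEq h1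

lemma fderiv_mul_loc {U : Set ℂ} (hU : IsOpen U) {f P : ℂ → ℝ} (hf : ContDiff ℝ 1 f)
    (hfU : tsupport f ⊆ U) (hP : ContDiffOn ℝ 1 P U) (z : ℂ) :
    fderiv ℝ (fun z => f z * P z) z = f z • fderiv ℝ P z + P z • fderiv ℝ f z := by
  by_cases hz : z ∈ U
  · exact fderiv_fun_mul (hf.differentiable one_ne_zero z)
      ((hP.contDiffAt (hU.mem_nhds hz)).differentiableAt one_ne_zero)
  · have hz' : z ∉ tsupport f := fun h => hz (hfU h)
    have h0 : f =ᶠ[𝓝 z] 0 := notMem_tsupport_iff_eventuallyEq.mp hz'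
    have h1 : (fun z => f z * P z) =ᶠ[𝓝 z] fun _ => 0 := by
      filter_upwards [h0] with w hw using by simp [hw]
    rw [h1.fderiv_eq, h0.fderiv_eq, h0.self_of_nhds]
    simp

/-- `∫ dR ∧ dQ = 0`, `R` compactly supported in the open set `U`, `Q` of class `C¹` on `U`. -/
lemma integral_wedge_loc {U : Set ℂ} (hU : IsOpen U) {R Q : ℂ → ℝ} (hR : ContDiff ℝ 1 R)
    (hRc : HasCompactSupport R) (hRU : tsupport R ⊆ U) (hQ : ContDiffOn ℝ 1 Q U) :
    ∫ z, wedge (fderiv ℝ R z) (fderiv ℝ Q z) = 0 := by
  obtain ⟨η, hη, hηc, hηU, hη1, -⟩ := exists_cut (hRc : IsCompact (tsupport R)) hU hRU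
  have hηQ : ContDiff ℝ 1 (fun z => η z * Q z) :=
    contDiff_mul_loc hU (hη.of_le (by simp)) hηU hQ
  rw [← integral_wedge_cc hR hRc hηQ]
  congr 1
  ext z
  by_cases hz : z ∈ tsupport R
  · have h1 : (fun z => η z * Q z) =ᶠ[𝓝 z] Q := by
      filter_upwards [(eventually_nhdsSet_iff_forall.mp hη1) z hz] with w hw using by simp [hw]
    rw [h1.fderiv_eq]
  · have h0 : R =ᶠ[𝓝 z] fun _ => 0 := notMem_tsupport_iff_eventuallyEq.mp hz
    rw [h0.fderiv_eq]
    simp [wedge]

/-- `∫ f dP ∧ dQ = - ∫ P df ∧ dQ`. -/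
lemma integral_null {U : Set ℂ} (hU : IsOpen U) {f P Q : ℂ → ℝ} (hf : ContDiff ℝ 1 f)
    (hfc : HasCompactSupport f) (hfU : tsupport f ⊆ U) (hP : ContDiffOn ℝ 1 P U)
    (hQ : ContDiffOn ℝ 1 Q U) :
    ∫ z, f z * wedge (fderiv ℝ P z) (fderiv ℝ Q z) =
      - ∫ z, P z * wedge (fderiv ℝ f z) (fderiv ℝ Q z) := by
  have hsub : tsupport (fun z => f z * P z) ⊆ tsupport f :=
    closure_mono (fun x hx => by intro h; exact hx (by simp [h]))
  have h0 := integral_wedge_loc hU (contDiff_mul_loc hU hf hfU hP) hfc.mul_right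
    (hsub.trans hfU) hQ
  simp only [fderiv_mul_loc hU hf hfU hP, wedge_add_left, wedge_smul_left] at h0
  rw [integral_add] at h0
  · linarith
  · refine integrable_loc hU hfc hfU ?_ ?_
    · refine hf.continuous.continuousOn.mul (ContinuousOn.wedge ?_ ?_)
      · exact hP.continuousOn_fderiv_of_isOpen hU (by simp)
      · exact hQ.continuousOn_fderiv_of_isOpen hU (by simp)
    · intro z hz
      simp [image_eq_zero_of_notMem_tsupport hz]
  · refine integrable_loc hU hfc hfU ?_ ?_
    · refine hP.continuousOn.mul (ContinuousOn.wedge ?_ ?_)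
      · exact (hf.continuous_fderiv one_ne_zero).continuousOn
      · exact hQ.continuousOn_fderiv_of_isOpen hU (by simp)
    · intro z hz
      have h0 : f =ᶠ[𝓝 z] fun _ => 0 := notMem_tsupport_iff_eventuallyEq.mp hz
      rw [h0.fderiv_eq]
      simp [wedge]

end Pool.Agent.CG
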