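import Mathlib

/-!
# Truncated powers
-/

set_option autoImplicit false

open Filter Topology Set
open scoped ContDiff

namespace Pool.Agent.CG

/-- The truncated power `s₊^n`. -/
noncomputable def tp (n : ℕ) (s : ℝ) : ℝ := (max s 0) ^ n

lemma tp_nonneg (n : ℕ) (s : ℝ) : 0 ≤ tp n s := pow_nonneg (le_max_right _ _) _

lemma tp_of_nonpos {n : ℕ} (hn : n ≠ 0) {s : ℝ} (hs : s ≤ 0) : tp n s = 0 := by
  rw [tp, max_eq_right hs, zero_pow hn]

lemma tp_of_nonneg {n : ℕ} {s : ℝ} (hs : 0 ≤ s) : tp n s = s ^ n := by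
  rw [tp, max_eq_left hs]

lemma continuous_tp (n : ℕ) : Continuous (tp n) := by unfold tp; fun_prop

lemma hasDerivAt_tp (n : ℕ) (s : ℝ) : HasDerivAt (tp (n + 2)) ((n + 2) * tp (n + 1) s) s := by
  rcases lt_trichotomy s 0 with h | h | h
  · have h1 : tp (n + 2) =ᶠ[𝓝 s] fun _ => 0 := by
      filter_upwards [Iio_mem_nhds h] with x hx using tp_of_nonpos (by simp) (le_of_lt hx)
    rw [tp_of_nonpos (by simp) h.le, mul_zero]
    exact (hasDerivAt_const s (0:ℝ)).congr_of_eventuallyEq h1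
  · subst h
    rw [tp_of_nonpos (by simp) le_rfl, mul_zero, hasDerivAt_iff_isLittleO]
    have h2 : (fun x : ℝ => x ^ (n + 2)) =o[𝓝 0] fun x => x :=
      Asymptotics.isLittleO_pow_id (by omega)
    have h3 : (fun x : ℝ => tp (n + 2) x) =O[𝓝 0] fun x : ℝ => x ^ (n + 2) := by
      refine Asymptotics.IsBigO.of_bound 1 (Eventually.of_forall fun x => ?_)
      rw [one_mul, Real.norm_eq_abs, Real.norm_eq_abs, abs_of_nonneg (tp_nonneg _ _)]
      rcases le_total x 0 with hx | hx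
      · rw [tp_of_nonpos (by simp) hx]; exact abs_nonneg _
      · rw [tp_of_nonneg hx]; exact le_abs_self _
    have h4 := h3.trans_isLittleO h2
    refine h4.congr (fun x => ?_) (fun x => ?_)
    · rw [tp_of_nonpos (n := n + 2) (by simp) le_rfl]; simp
    · simp
  · have h1 : tp (n + 2) =ᶠ[𝓝 s] fun x => x ^ (n + 2) := by
      filter_upwards [Ioi_mem_nhds h] with x hx using tp_of_nonneg (le_of_lt hx)
    rw [tp_of_nonneg h.le]
    refine ((hasDerivAt_pow (n + 2) s).congr_of_eventuallyEq h1).congr_deriv ?_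
    push_cast
    ring_nf

lemma deriv_tp (n : ℕ) : deriv (tp (n + 2)) = fun s => (n + 2) * tp (n + 1) s := by
  ext s; exact (hasDerivAt_tp n s).deriv

lemma contDiff_tp (k : ℕ) : ContDiff ℝ k (tp (k + 1)) := by
  induction k with
  | zero => exact_mod_cast contDiff_zero.mpr (continuous_tp 1)
  | succ k ih =>
    rw [show ((k + 1 : ℕ) : ℕ∞ω) = (k : ℕ∞ω) + 1 by push_cast; rfl, contDiff_succ_iff_deriv]
    refine ⟨fun s => (hasDerivAt_tp k s).differentiableAt, by simp, ?_⟩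
    rw [deriv_tp]
    exact contDiff_const.mul ih

/-- A `C¹` step function: `0` for `s ≤ 0`, `1` for `s ≥ 1`. -/
noncomputable def st (s : ℝ) : ℝ := 1 - tp 2 (1 - tp 2 s)

/-- Its derivative. -/
noncomputable def st' (s : ℝ) : ℝ := 4 * tp 1 (1 - tp 2 s) * tp 1 s

lemma hasDerivAt_st (s : ℝ) : HasDerivAt st (st' s) s := by
  have h1 := ((hasDerivAt_tp 0 (1 - tp 2 s)).comp s ((hasDerivAt_tp 0 s).const_sub 1)).const_sub 1
  refine h1.congr_deriv ?_
  simp only [st', Nat.cast_zero, zero_add]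
  ring

lemma contDiff_st : ContDiff ℝ 1 st := by
  have h : ContDiff ℝ 1 (tp 2) := by exact_mod_cast contDiff_tp 1
  unfold st
  exact contDiff_const.sub (h.comp (contDiff_const.sub h))

lemma continuous_st' : Continuous st' := by
  unfold st'
  exact (continuous_const.mul ((continuous_tp 1).comp (continuous_const.sub (continuous_tp 2)))).mul
    (continuous_tp 1)

lemma st_of_nonpos {s : ℝ} (hs : s ≤ 0) : st s = 0 := by
  rw [st, tp_of_nonpos two_ne_zero hs, sub_zero, tp_of_nonneg zero_le_one]; norm_num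

lemma st_of_one_le {s : ℝ} (hs : 1 ≤ s) : st s = 1 := by
  rw [st, tp_of_nonneg (by linarith : (0:ℝ) ≤ s), tp_of_nonpos two_ne_zero (by nlinarith)]
  norm_num

lemma tp2_le_one {s : ℝ} (hs : s ≤ 1) : tp 2 s ≤ 1 := by
  rw [tp]
  have h1 : max s 0 ≤ 1 := max_le hs zero_le_one
  have h2 : 0 ≤ max s 0 := le_max_right _ _
  nlinarith

lemma st_nonneg (s : ℝ) : 0 ≤ st s := by
  rw [st]
  have := tp2_le_one (s := 1 - tp 2 s) (by linarith [tp_nonneg 2 s])
  linarith

lemma st_le_one (s : ℝ) : st s ≤ 1 := by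
  rw [st]; linarith [tp_nonneg 2 (1 - tp 2 s)]

lemma st'_nonneg (s : ℝ) : 0 ≤ st' s := by
  rw [st']
  exact mul_nonneg (mul_nonneg (by norm_num) (tp_nonneg _ _)) (tp_nonneg _ _)

lemma st'_le (s : ℝ) : st' s ≤ 4 := by
  rw [st']
  rcases le_total s 1 with h | h
  · have h1 : tp 1 s ≤ 1 := by rw [tp, pow_one]; exact max_le h zero_le_one
    have h2 : tp 1 (1 - tp 2 s) ≤ 1 := by
      rw [tp, pow_one]
      exact max_le (by linarith [tp_nonneg 2 s]) zero_le_one
    have h3 := tp_nonneg 1 s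
    have h4 := tp_nonneg 1 (1 - tp 2 s)
    nlinarith
  · have h1 : tp 1 (1 - tp 2 s) = 0 := by
      refine tp_of_nonpos one_ne_zero ?_
      rw [tp_of_nonneg (by linarith : (0:ℝ) ≤ s)]
      nlinarith
    rw [h1]; norm_num

lemma st'_of_nonpos {s : ℝ} (hs : s ≤ 0) : st' s = 0 := by
  rw [st', tp_of_nonpos one_ne_zero hs, mul_zero]

lemma st'_of_one_le {s : ℝ} (hs : 1 ≤ s) : st' s = 0 := by
  have h1 : tp 1 (1 - tp 2 s) = 0 := by
    refine tp_of_nonpos one_ne_zero ?_
    rw [tp_of_nonneg (by linarith : (0:ℝ) ≤ s)]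
    nlinarith
  rw [st', h1]; norm_num

end Pool.Agent.CG
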