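import Pool.Agent.Lib.MP_35454f.PStab2
import Pool.Agent.Lib.MP_35454f.PStep

/-!
# The base field: local modification near the centres
-/

set_option autoImplicit false

open MeasureTheory Filter Topology Complex Set Metric
open scoped ContDiff Interval

namespace Pool.Agent.CG

/-- The cutoff profile minus one. -/
noncomputable def hh (τ q : ℝ) : ℝ := -tp 3 (1 - q / τ)
/-- Its derivative. -/
noncomputable def hh1 (τ q : ℝ) : ℝ := 3 / τ * tp 2 (1 - q / τ)
/-- Its second derivative. -/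
noncomputable def hh2 (τ q : ℝ) : ℝ := -(6 / τ ^ 2) * tp 1 (1 - q / τ)

lemma hasDerivAt_hh {τ : ℝ} (_hτ : 0 < τ) (q : ℝ) : HasDerivAt (hh τ) (hh1 τ q) q := by
  have h1 : HasDerivAt (fun q : ℝ => 1 - q / τ) (-(1 / τ)) q :=
    ((hasDerivAt_id q).div_const τ).const_sub 1
  have h2 := ((hasDerivAt_tp 1 (1 - q / τ)).comp q h1).neg
  refine h2.congr_deriv ?_
  rw [hh1]
  push_cast
  ring

lemma hasDerivAt_hh1 {τ : ℝ} (_hτ : 0 < τ) (q : ℝ) : HasDerivAt (hh1 τ) (hh2 τ q) q := by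
  have h1 : HasDerivAt (fun q : ℝ => 1 - q / τ) (-(1 / τ)) q :=
    ((hasDerivAt_id q).div_const τ).const_sub 1
  have h2 := ((hasDerivAt_tp 0 (1 - q / τ)).comp q h1).const_mul (3 / τ)
  refine h2.congr_deriv ?_
  rw [hh2]
  push_cast
  ring

lemma continuous_hh (τ : ℝ) : Continuous (hh τ) := by
  unfold hh; exact ((continuous_tp 3).comp (by fun_prop)).neg
lemma continuous_hh1 (τ : ℝ) : Continuous (hh1 τ) := by
  unfold hh1; exact continuous_const.mul ((continuous_tp 2).comp (by fun_prop))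
lemma continuous_hh2 (τ : ℝ) : Continuous (hh2 τ) := by
  unfold hh2; exact continuous_const.mul ((continuous_tp 1).comp (by fun_prop))

lemma hh_of_ge {τ q : ℝ} (hτ : 0 < τ) (hq : τ ≤ q) : hh τ q = 0 ∧ hh1 τ q = 0 ∧ hh2 τ q = 0 := by
  have h1 : 1 - q / τ ≤ 0 := by rw [sub_nonpos, one_le_div hτ]; exact hq
  refine ⟨?_, ?_, ?_⟩
  · rw [hh, tp_of_nonpos (by norm_num) h1, neg_zero]
  · rw [hh1, tp_of_nonpos (by norm_num) h1, mul_zero]
  · rw [hh2, tp_of_nonpos (by norm_num) h1, mul_zero]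

/-- first component of the local modification -/
noncomputable def K1 (τ : ℝ) (z : ℂ) : ℝ :=
  -(1 / 2) * z.re * hh τ (normSq z) - z.re * (z.im * z.im) * hh1 τ (normSq z)
/-- second component of the local modification -/
noncomputable def K2 (τ : ℝ) (z : ℂ) : ℝ :=
  1 / 2 * z.im * hh τ (normSq z) + z.re * z.re * z.im * hh1 τ (normSq z)

/-- The differential with given partial derivatives. -/
noncomputable def pd (a b : ℝ) : ℂ →L[ℝ] ℝ := a • reCLM + b • imCLM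

lemma pd_apply (a b : ℝ) (v : ℂ) : pd a b v = a * v.re + b * v.im := by simp [pd]

lemma hasFDerivAt_K1 {τ : ℝ} (hτ : 0 < τ) (z : ℂ) : HasFDerivAt (K1 τ)
    (pd (-(1 / 2) * hh τ (normSq z) - normSq z * hh1 τ (normSq z) -
      2 * z.re ^ 2 * z.im ^ 2 * hh2 τ (normSq z))
      (-(3 * z.re * z.im * hh1 τ (normSq z)) - 2 * z.re * z.im ^ 3 * hh2 τ (normSq z))) z := by
  have hx : HasFDerivAt (fun z : ℂ => z.re) reCLM z := reCLM.hasFDerivAt
  have hy : HasFDerivAt (fun z : ℂ => z.im) imCLM z := imCLM.hasFDerivAt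
  have hh' : HasFDerivAt (fun z : ℂ => hh τ (normSq z)) (hh1 τ (normSq z) • dotL (2 * z)) z :=
    (hasDerivAt_hh hτ _).comp_hasFDerivAt z (hasFDerivAt_normSq z)
  have hh1' : HasFDerivAt (fun z : ℂ => hh1 τ (normSq z)) (hh2 τ (normSq z) • dotL (2 * z)) z :=
    (hasDerivAt_hh1 hτ _).comp_hasFDerivAt z (hasFDerivAt_normSq z)
  have h1 := ((hx.const_mul (-(1 / 2))).fun_mul hh').fun_sub
    ((hx.fun_mul (hy.fun_mul hy)).fun_mul hh1')
  refine h1.congr_fderiv ?_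
  ext v
  simp [pd_apply, dotL_apply, dot, normSq_apply]
  ring

lemma hasFDerivAt_K2 {τ : ℝ} (hτ : 0 < τ) (z : ℂ) : HasFDerivAt (K2 τ)
    (pd (3 * z.re * z.im * hh1 τ (normSq z) + 2 * z.re ^ 3 * z.im * hh2 τ (normSq z))
      (1 / 2 * hh τ (normSq z) + normSq z * hh1 τ (normSq z) +
      2 * z.re ^ 2 * z.im ^ 2 * hh2 τ (normSq z))) z := by
  have hx : HasFDerivAt (fun z : ℂ => z.re) reCLM z := reCLM.hasFDerivAt
  have hy : HasFDerivAt (fun z : ℂ => z.im) imCLM z := imCLM.hasFDerivAt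
  have hh' : HasFDerivAt (fun z : ℂ => hh τ (normSq z)) (hh1 τ (normSq z) • dotL (2 * z)) z :=
    (hasDerivAt_hh hτ _).comp_hasFDerivAt z (hasFDerivAt_normSq z)
  have hh1' : HasFDerivAt (fun z : ℂ => hh1 τ (normSq z)) (hh2 τ (normSq z) • dotL (2 * z)) z :=
    (hasDerivAt_hh1 hτ _).comp_hasFDerivAt z (hasFDerivAt_normSq z)
  have h1 := ((hy.const_mul (1 / 2)).fun_mul hh').fun_add
    (((hx.fun_mul hx).fun_mul hy).fun_mul hh1')
  refine h1.congr_fderiv ?_
  ext v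
  simp [pd_apply, dotL_apply, dot, normSq_apply]
  ring

lemma contDiff_of_pd {f a b : ℂ → ℝ} (h : ∀ z, HasFDerivAt f (pd (a z) (b z)) z)
    (ha : Continuous a) (hb : Continuous b) : ContDiff ℝ 1 f := by
  rw [contDiff_one_iff_fderiv]
  refine ⟨fun z => (h z).differentiableAt, ?_⟩
  have e : fderiv ℝ f = fun z => pd (a z) (b z) := by ext1 z; exact (h z).fderiv
  rw [e]
  unfold pd
  exact (ha.smul continuous_const).add (hb.smul continuous_const)

lemma contDiff_K1 {τ : ℝ} (hτ : 0 < τ) : ContDiff ℝ 1 (K1 τ) := by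
  have e0 := (continuous_hh τ).comp continuous_normSq
  have e1 := (continuous_hh1 τ).comp continuous_normSq
  have e2 := (continuous_hh2 τ).comp continuous_normSq
  refine contDiff_of_pd (fun z => hasFDerivAt_K1 hτ z) ?_ ?_
  · exact ((continuous_const.mul e0).sub (continuous_normSq.mul e1)).sub
      (((continuous_const.mul (continuous_re.pow 2)).mul (continuous_im.pow 2)).mul e2)
  · exact (((continuous_const.mul continuous_re).mul continuous_im).mul e1).neg.sub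
      (((continuous_const.mul continuous_re).mul (continuous_im.pow 3)).mul e2)

lemma contDiff_K2 {τ : ℝ} (hτ : 0 < τ) : ContDiff ℝ 1 (K2 τ) := by
  have e0 := (continuous_hh τ).comp continuous_normSq
  have e1 := (continuous_hh1 τ).comp continuous_normSq
  have e2 := (continuous_hh2 τ).comp continuous_normSq
  refine contDiff_of_pd (fun z => hasFDerivAt_K2 hτ z) ?_ ?_
  · exact (((continuous_const.mul continuous_re).mul continuous_im).mul e1).add
      (((continuous_const.mul (continuous_re.pow 3)).mul continuous_im).mul e2)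
  · exact ((continuous_const.mul e0).add (continuous_normSq.mul e1)).add
      (((continuous_const.mul (continuous_re.pow 2)).mul (continuous_im.pow 2)).mul e2)

/-- The two profiles stay below two. -/
lemma key_poly {t S : ℝ} (ht0 : 0 < t) (ht1 : t ≤ 1) (hS0 : 0 ≤ S) (hS1 : S ≤ 1) :
    1 / 4 * ((9 * t - 15 * t ^ 2 + 7 * t ^ 3) ^ 2 * (1 - S) +
      (9 * t - 21 * t ^ 2 + 13 * t ^ 3) ^ 2 * S) < 1 := by
  have h1 : 0 ≤ 9 * t - 15 * t ^ 2 + 7 * t ^ 3 := by
    have : 0 ≤ t * (9 - 15 * t + 7 * t ^ 2) :=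
      mul_nonneg ht0.le (by nlinarith [sq_nonneg (14 * t - 15)])
    linarith
  have h2 : 9 * t - 15 * t ^ 2 + 7 * t ^ 3 < 2 := by
    have h1 : 0 < 2 - 7 * t + 8 * t ^ 2 := by nlinarith [sq_nonneg (16 * t - 7)]
    have h2 : 0 ≤ (1 - t) * (2 - 7 * t + 8 * t ^ 2) := mul_nonneg (by linarith) h1.le
    have h3 : 0 < t ^ 3 := by positivity
    linarith
  have h3 : 0 ≤ 9 * t - 21 * t ^ 2 + 13 * t ^ 3 := by
    have : 0 ≤ t * (9 - 21 * t + 13 * t ^ 2) :=
      mul_nonneg ht0.le (by nlinarith [sq_nonneg (26 * t - 21)])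
    linarith
  have h4 : 9 * t - 21 * t ^ 2 + 13 * t ^ 3 < 2 := by
    have h1 : 0 < 2 - 7 * t + 14 * t ^ 2 := by nlinarith [sq_nonneg (28 * t - 7)]
    have h2 : 0 ≤ (1 - t) * (2 - 7 * t + 14 * t ^ 2) := mul_nonneg (by linarith) h1.le
    have h3 : 0 < t ^ 3 := by positivity
    linarith
  generalize 9 * t - 15 * t ^ 2 + 7 * t ^ 3 = A at *
  generalize 9 * t - 21 * t ^ 2 + 13 * t ^ 3 = B at *
  have hA : A ^ 2 < 4 := by
    have := mul_self_lt_mul_self h1 h2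
    linarith [sq A]
  have hB : B ^ 2 < 4 := by
    have := mul_self_lt_mul_self h3 h4
    linarith [sq B]
  rcases eq_or_lt_of_le hS0 with h5 | h5
  · rw [← h5]; linarith
  · have h6 := mul_lt_mul_of_pos_right hB h5
    have h7 := mul_le_mul_of_nonneg_right hA.le (sub_nonneg.mpr hS1)
    linarith

lemma key_alg1 {τ x y q t : ℝ} (hτ : τ ≠ 0) (hqt : q = t * τ) (hq : q ≠ 0) :
    -(1 / 2) * (1 + -(1 - t) ^ 3) - q * (3 / τ * (1 - t) ^ 2) -
      2 * x ^ 2 * y ^ 2 * (-(6 / τ ^ 2) * (1 - t)) =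
    -(1 / 2) * ((9 * t - 15 * t ^ 2 + 7 * t ^ 3) +
      (-6 * t ^ 2 * (1 - t)) * (4 * x ^ 2 * y ^ 2 / q ^ 2)) := by
  have ht : t ≠ 0 := by rintro rfl; exact hq (by rw [hqt, zero_mul])
  subst hqt
  field_simp
  ring

lemma key_alg2 {τ x y q t : ℝ} (hτ : τ ≠ 0) (hqt : q = t * τ) (hq : q ≠ 0)
    (hxy : x ^ 2 + y ^ 2 = q) :
    (x * y * (x ^ 2 - y ^ 2) * (-(6 / τ ^ 2) * (1 - t))) ^ 2 =
    1 / 4 * ((-6 * t ^ 2 * (1 - t)) ^ 2 * (4 * x ^ 2 * y ^ 2 / q ^ 2) *
      (1 - 4 * x ^ 2 * y ^ 2 / q ^ 2)) := by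
  have ht : t ≠ 0 := by rintro rfl; exact hq (by rw [hqt, zero_mul])
  have h1 : 1 - 4 * x ^ 2 * y ^ 2 / q ^ 2 = (x ^ 2 - y ^ 2) ^ 2 / q ^ 2 := by
    rw [eq_div_iff (pow_ne_zero 2 hq), sub_mul, div_mul_cancel₀ _ (pow_ne_zero 2 hq), ← hxy]
    ring
  rw [h1]
  subst hqt
  field_simp

/-- The key inequality for the local modification: the field which is `(0, y)` outside and
`½ (x, y)` near the centre has strain less than one. -/
lemma key_strain {τ : ℝ} (hτ : 0 < τ) (z : ℂ) (hq : normSq z ≤ τ) :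
    (-(1 / 2) * (1 + hh τ (normSq z)) - normSq z * hh1 τ (normSq z) -
      2 * z.re ^ 2 * z.im ^ 2 * hh2 τ (normSq z)) ^ 2 +
    (z.re * z.im * (z.re ^ 2 - z.im ^ 2) * hh2 τ (normSq z)) ^ 2 < 1 := by
  have hxy : z.re ^ 2 + z.im ^ 2 = normSq z := by rw [normSq_apply]; ring
  have hq0 : 0 ≤ normSq z := normSq_nonneg z
  generalize normSq z = q at *
  generalize z.re = x at *
  generalize z.im = y at *
  by_cases hq00 : q = 0
  · have hx : x = 0 := by
      have : x ^ 2 ≤ 0 := by linarith [sq_nonneg y]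
      exact pow_eq_zero_iff (two_ne_zero) |>.mp (le_antisymm this (sq_nonneg x))
    have e00 : hh τ 0 = -1 := by
      rw [hh, zero_div, sub_zero, tp_of_nonneg (by norm_num), one_pow]
    rw [hx, hq00, e00]
    norm_num
  have hqp : 0 < q := lt_of_le_of_ne hq0 (Ne.symm hq00)
  obtain ⟨t, ht⟩ : ∃ t, t = q / τ := ⟨_, rfl⟩
  have ht0 : 0 < t := by rw [ht]; exact div_pos hqp hτ
  have ht1 : t ≤ 1 := by rw [ht, div_le_one hτ]; exact hq
  have hqt : q = t * τ := by rw [ht, div_mul_cancel₀ _ hτ.ne']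
  have e0 : hh τ q = -(1 - t) ^ 3 := by
    rw [hh, ← ht, tp_of_nonneg (by linarith)]
  have e1 : hh1 τ q = 3 / τ * (1 - t) ^ 2 := by
    rw [hh1, ← ht, tp_of_nonneg (by linarith)]
  have e2 : hh2 τ q = -(6 / τ ^ 2) * (1 - t) := by
    rw [hh2, ← ht, tp_of_nonneg (by linarith), pow_one]
  rw [e0, e1, e2, key_alg1 hτ.ne' hqt hq00, key_alg2 hτ.ne' hqt hq00 hxy]
  have hS0 : 0 ≤ 4 * x ^ 2 * y ^ 2 / q ^ 2 := by positivity
  have hS1 : 4 * x ^ 2 * y ^ 2 / q ^ 2 ≤ 1 := by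
    rw [div_le_one (by positivity), ← hxy]
    linarith [sq_nonneg (x ^ 2 - y ^ 2)]
  have h := key_poly ht0 ht1 hS0 hS1
  generalize 4 * x ^ 2 * y ^ 2 / q ^ 2 = S at *
  refine lt_of_eq_of_lt ?_ h
  ring

end Pool.Agent.CG
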