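import Pool.Agent.Lib.MP_35454f.PStab2

/-!
# Small holes
-/

set_option autoImplicit false

open MeasureTheory Filter Topology Complex Set Metric
open scoped ContDiff Interval

namespace Pool.Agent.CG

variable {n : ℕ}

/-- The polynomial which is `1` at `a i` and `0` at the other centres. -/
noncomputable def QQp (a : Fin n → ℂ) (i : Fin n) (z : ℂ) : ℂ :=
  ∏ j ∈ Finset.univ.erase i, ((z - a j) / (a i - a j))

/-- The meromorphic function with a simple pole at `a i` and zeros at the other centres. -/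
noncomputable def ff (a : Fin n → ℂ) (i : Fin n) (z : ℂ) : ℂ := QQp a i z / (z - a i)

lemma QQp_self {a : Fin n → ℂ} (ha : Function.Injective a) (i : Fin n) : QQp a i (a i) = 1 := by
  refine Finset.prod_eq_one fun j hj => ?_
  have h1 : a i - a j ≠ 0 := sub_ne_zero.mpr fun h => (Finset.ne_of_mem_erase hj) (ha h).symm
  exact div_self h1

lemma QQp_other {a : Fin n → ℂ} {i j : Fin n} (hij : j ≠ i) : QQp a i (a j) = 0 := by
  refine Finset.prod_eq_zero (Finset.mem_erase.mpr ⟨hij, Finset.mem_univ j⟩) ?_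
  rw [sub_self, zero_div]

lemma differentiable_QQp (a : Fin n → ℂ) (i : Fin n) : Differentiable ℂ (QQp a i) := by
  unfold QQp
  fun_prop

lemma contDiff_QQp (a : Fin n → ℂ) (i : Fin n) : ContDiff ℂ 1 (QQp a i) := by
  unfold QQp
  fun_prop

lemma differentiableAt_ff (a : Fin n → ℂ) (i : Fin n) {z : ℂ} (hz : z ≠ a i) :
    DifferentiableAt ℂ (ff a i) z :=
  (differentiable_QQp a i z).div (differentiableAt_id.sub_const _) (sub_ne_zero.mpr hz)

lemma deriv_ff (a : Fin n → ℂ) (i : Fin n) {z : ℂ} (hz : z ≠ a i) :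
    deriv (ff a i) z = (deriv (QQp a i) z * (z - a i) - QQp a i z) / (z - a i) ^ 2 := by
  have h1 := ((differentiable_QQp a i z).hasDerivAt).fun_div
    ((hasDerivAt_id z).sub_const (a i)) (sub_ne_zero.mpr hz)
  have h2 : ff a i = fun z => QQp a i z / (id z - a i) := rfl
  rw [h2, h1.deriv]
  simp

lemma continuous_deriv_QQp (a : Fin n → ℂ) (i : Fin n) : Continuous (deriv (QQp a i)) :=
  (contDiff_QQp a i).continuous_deriv le_rfl

lemma continuousOn_ff (a : Fin n → ℂ) (i : Fin n) : ContinuousOn (ff a i) {z | z ≠ a i} :=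
  fun _ hz => (differentiableAt_ff a i hz).continuousAt.continuousWithinAt

lemma continuousOn_deriv_ff (a : Fin n → ℂ) (i : Fin n) :
    ContinuousOn (deriv (ff a i)) {z | z ≠ a i} := by
  have h1 : ContinuousOn (fun z => (deriv (QQp a i) z * (z - a i) - QQp a i z) / (z - a i) ^ 2)
      {z | z ≠ a i} := by
    refine ContinuousOn.div ?_ ?_ fun z hz => pow_ne_zero 2 (sub_ne_zero.mpr hz)
    · exact (((continuous_deriv_QQp a i).mul (continuous_id.sub continuous_const)).sub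
        (differentiable_QQp a i).continuous).continuousOn
    · fun_prop
  exact h1.congr fun z hz => deriv_ff a i hz

/-- The sink flow. -/
noncomputable def FF (a : Fin n → ℂ) (r : Fin n → ℝ) (z : ℂ) : ℂ :=
  -(11 / 20) * ∑ i, (r i : ℂ) ^ 2 * ff a i z

lemma hasDerivAt_FF (a : Fin n → ℂ) (r : Fin n → ℝ) {z : ℂ} (hz : ∀ i, z ≠ a i) :
    HasDerivAt (FF a r) (-(11 / 20) * ∑ i, (r i : ℂ) ^ 2 * deriv (ff a i) z) z := by
  have h1 : HasDerivAt (fun z => ∑ i, (r i : ℂ) ^ 2 * ff a i z)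
      (∑ i, (r i : ℂ) ^ 2 * deriv (ff a i) z) z :=
    HasDerivAt.fun_sum fun i _ => ((differentiableAt_ff a i (hz i)).hasDerivAt).const_mul _
  exact h1.const_mul _

/-- The field. -/
noncomputable def XX (B : ℂ → ℂ) (a : Fin n → ℂ) (r : Fin n → ℝ) (z : ℂ) : ℂ :=
  B z + (starRingEnd ℂ) (FF a r z)

/-- the real derivative of a complex conjugate -/
lemma hasFDerivAt_conj {F : ℂ → ℂ} {F' z : ℂ} (h : HasDerivAt F F' z) :
    HasFDerivAt (fun z => (starRingEnd ℂ) (F z))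
      ((conjCLE : ℂ →L[ℝ] ℂ).comp ((F' • (1 : ℂ →L[ℂ] ℂ)).restrictScalars ℝ)) z := by
  have h1 : HasFDerivAt F ((F' • (1 : ℂ →L[ℂ] ℂ)).restrictScalars ℝ) z := by
    refine (h.hasFDerivAt.restrictScalars ℝ).congr_fderiv ?_
    ext
    simp [mul_comm]
  exact (conjCLE : ℂ →L[ℝ] ℂ).hasFDerivAt.comp z h1

lemma fderiv_XX {B : ℂ → ℂ} {F : ℂ → ℂ} {F' z : ℂ} (hB : DifferentiableAt ℝ B z)
    (h : HasDerivAt F F' z) (v : ℂ) :
    fderiv ℝ (fun z => B z + (starRingEnd ℂ) (F z)) z v =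
      fderiv ℝ B z v + (starRingEnd ℂ) (F' * v) := by
  rw [(hB.hasFDerivAt.fun_add (hasFDerivAt_conj h)).fderiv]
  simp

lemma divE_XX {B : ℂ → ℂ} {F : ℂ → ℂ} {F' z : ℂ} (hB : DifferentiableAt ℝ B z)
    (h : HasDerivAt F F' z) :
    divE (fun z => B z + (starRingEnd ℂ) (F z)) z = divE B z := by
  rw [divE, fderiv_XX hB h, fderiv_XX hB h, divE]
  simp
  ring

lemma dbar_XX {B : ℂ → ℂ} {F : ℂ → ℂ} {F' z : ℂ} (hB : DifferentiableAt ℝ B z)
    (h : HasDerivAt F F' z) :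
    dbar (fun z => B z + (starRingEnd ℂ) (F z)) z = dbar B z + (starRingEnd ℂ) F' := by
  rw [dbar, fderiv_XX hB h, fderiv_XX hB h, dbar]
  apply Complex.ext
  · simp [div_ofNat_re]; ring
  · simp [div_ofNat_im]; ring

lemma dot_conj (F w : ℂ) : dot ((starRingEnd ℂ) F) w = (F * w).re := by
  simp [dot]
  ring

/-- sum bound -/
lemma norm_sum_le' {r₀ C : ℝ} {r : Fin n → ℝ} (hr : ∀ i, 0 < r i)
    (hr0 : ∀ i, r i ≤ r₀) {s : Finset (Fin n)} {g : Fin n → ℂ} (hg : ∀ j ∈ s, ‖g j‖ ≤ C)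
    (hC : 0 ≤ C) : ‖∑ j ∈ s, (r j : ℂ) ^ 2 * g j‖ ≤ n * (r₀ ^ 2 * C) := by
  refine (norm_sum_le _ _).trans ?_
  have h1 : ∀ j ∈ s, ‖(r j : ℂ) ^ 2 * g j‖ ≤ r₀ ^ 2 * C := by
    intro j hj
    rw [norm_mul, norm_pow, norm_real, Real.norm_eq_abs, abs_of_pos (hr j)]
    have h2 := hr j
    exact mul_le_mul (pow_le_pow_left₀ h2.le (hr0 j) 2) (hg j hj) (norm_nonneg _) (by positivity)
  refine (Finset.sum_le_card_nsmul s _ _ h1).trans ?_
  rw [nsmul_eq_mul]
  refine mul_le_mul_of_nonneg_right ?_ (mul_nonneg (sq_nonneg _) hC)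
  have := Finset.card_le_univ s
  rw [Fintype.card_fin] at this
  exact_mod_cast this

/-- The data of a field on the disc vanishing at the centres. -/
structure BaseField (R : ℝ) (a : Fin n → ℂ) (B : ℂ → ℂ) : Prop where
  contDiff : ContDiff ℝ 1 B
  div_one : ∀ z, divE B z = 1
  strain : ∀ z, ‖z‖ ≤ R → ‖dbar B z‖ < 1
  outer : ∀ z, ‖z‖ = R → 0 < dot (B z) z
  zero : ∀ i, B (a i) = 0
  der : ∀ i v, fderiv ℝ B (a i) v = ((1 / 2 : ℝ) : ℂ) * v

lemma BaseField.dbar_center {R : ℝ} {a : Fin n → ℂ} {B : ℂ → ℂ} (h : BaseField R a B)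
    (i : Fin n) : dbar B (a i) = 0 := by
  rw [dbar, h.der i, h.der i]
  push_cast
  linear_combination (1 / 4) * Complex.I_mul_I

/-- Behaviour near the centres. -/
lemma BaseField.near {R : ℝ} {a : Fin n → ℂ} (ha : Function.Injective a) {B : ℂ → ℂ}
    (h : BaseField R a B) (i : Fin n) : ∃ C : ℝ, 0 ≤ C ∧ ∀ᶠ z in 𝓝 (a i),
      ‖dbar B z‖ ≤ 3 / 10 ∧ |dot (B z) (z - a i) - 1 / 2 * ‖z - a i‖ ^ 2| ≤ 1 / 100 * ‖z - a i‖ ^ 2 ∧
      ‖QQp a i z - 1‖ ≤ 1 / 100 ∧ ‖deriv (QQp a i) z * (z - a i)‖ ≤ 1 / 100 ∧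
      ∀ j, j ≠ i → ‖ff a j z‖ ≤ C * ‖z - a i‖ ∧ ‖deriv (ff a j) z‖ ≤ C := by
  -- (a)
  have e1 : ∀ᶠ z in 𝓝 (a i), ‖dbar B z‖ ≤ 3 / 10 := by
    have hc : ContinuousAt (fun z => ‖dbar B z‖) (a i) :=
      ((continuousOn_dbar isOpen_univ h.contDiff.contDiffOn).continuousAt univ_mem).norm
    have h0 : ‖dbar B (a i)‖ < 3 / 10 := by rw [h.dbar_center i, norm_zero]; norm_num
    filter_upwards [hc.eventually (gt_mem_nhds h0)] with z hz using hz.le
  -- (b)
  have e2 : ∀ᶠ z in 𝓝 (a i), |dot (B z) (z - a i) - 1 / 2 * ‖z - a i‖ ^ 2| ≤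
      1 / 100 * ‖z - a i‖ ^ 2 := by
    have hd := (h.contDiff.differentiable one_ne_zero (a i)).hasFDerivAt
    have ho := hd.isLittleO.def (show (0:ℝ) < 1 / 100 by norm_num)
    filter_upwards [ho] with z hz
    rw [h.zero i, h.der i, sub_zero] at hz
    have e : dot (B z) (z - a i) - 1 / 2 * ‖z - a i‖ ^ 2 =
        dot (B z - ((1 / 2 : ℝ) : ℂ) * (z - a i)) (z - a i) := by
      rw [dot_sub_left, dot_smul_left, dot_self]
    rw [e]
    refine (abs_dot_le _ _).trans ?_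
    calc _ ≤ 1 / 100 * ‖z - a i‖ * ‖z - a i‖ := mul_le_mul_of_nonneg_right hz (norm_nonneg _)
      _ = 1 / 100 * ‖z - a i‖ ^ 2 := by ring
  -- (c)
  have e3 : ∀ᶠ z in 𝓝 (a i), ‖QQp a i z - 1‖ ≤ 1 / 100 := by
    have hc : ContinuousAt (fun z => ‖QQp a i z - 1‖) (a i) :=
      ((differentiable_QQp a i).continuous.sub continuous_const).norm.continuousAt
    have h0 : ‖QQp a i (a i) - 1‖ < 1 / 100 := by rw [QQp_self ha i, sub_self, norm_zero]; norm_num
    filter_upwards [hc.eventually (gt_mem_nhds h0)] with z hz using hz.le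
  have e4 : ∀ᶠ z in 𝓝 (a i), ‖deriv (QQp a i) z * (z - a i)‖ ≤ 1 / 100 := by
    have hc : ContinuousAt (fun z => ‖deriv (QQp a i) z * (z - a i)‖) (a i) :=
      ((continuous_deriv_QQp a i).mul (continuous_id.sub continuous_const)).norm.continuousAt
    have h0 : ‖deriv (QQp a i) (a i) * (a i - a i)‖ < 1 / 100 := by
      rw [sub_self, mul_zero, norm_zero]; norm_num
    filter_upwards [hc.eventually (gt_mem_nhds h0)] with z hz using hz.le
  -- (d)
  have e5 : ∀ j, ∃ C : ℝ, 0 ≤ C ∧ ∀ᶠ z in 𝓝 (a i), j ≠ i →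
      ‖ff a j z‖ ≤ C * ‖z - a i‖ ∧ ‖deriv (ff a j) z‖ ≤ C := by
    intro j
    by_cases hj : j = i
    · exact ⟨0, le_rfl, Eventually.of_forall fun z hz => absurd hj hz⟩
    · have hne : a i ≠ a j := fun hh => hj (ha hh).symm
      have h0 : ff a j (a i) = 0 := by rw [ff, QQp_other (Ne.symm hj), zero_div]
      have hd := (differentiableAt_ff a j hne).hasDerivAt
      obtain ⟨C1, hC1⟩ := (hd.differentiableAt.isBigO_sub).bound
      have hc : ContinuousAt (fun z => ‖deriv (ff a j) z‖) (a i) :=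
        ((continuousOn_deriv_ff a j).continuousAt (isOpen_ne.mem_nhds hne)).norm
      refine ⟨max (max C1 0) (‖deriv (ff a j) (a i)‖ + 1), ?_, ?_⟩
      · exact (le_max_right _ _).trans (le_max_left _ _)
      · filter_upwards [hC1, hc.eventually (gt_mem_nhds (lt_add_one _))] with z hz1 hz2 _
        rw [h0, sub_zero] at hz1
        refine ⟨hz1.trans ?_, hz2.le.trans (le_max_right _ _)⟩
        exact mul_le_mul_of_nonneg_right ((le_max_left _ _).trans (le_max_left _ _)) (norm_nonneg _)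
  choose C hC0 hC using e5
  refine ⟨∑ j, C j, Finset.sum_nonneg fun j _ => hC0 j, ?_⟩
  filter_upwards [e1, e2, e3, e4, eventually_all.mpr hC] with z h1 h2 h3 h4 h5
  refine ⟨h1, h2, h3, h4, fun j hj => ?_⟩
  have h6 : C j ≤ ∑ j, C j := Finset.single_le_sum (fun j _ => hC0 j) (Finset.mem_univ j)
  obtain ⟨h7, h8⟩ := h5 j hj
  exact ⟨h7.trans (mul_le_mul_of_nonneg_right h6 (norm_nonneg _)), h8.trans h6⟩

lemma contDiffOn_XX {B : ℂ → ℂ} (hB : ContDiff ℝ 1 B) (a : Fin n → ℂ) (r : Fin n → ℝ) :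
    ContDiffOn ℝ 1 (XX B a r) {z | ∀ i, z ≠ a i} := by
  have h1 : ∀ i, ContDiffOn ℂ 1 (ff a i) {z | ∀ i, z ≠ a i} := by
    intro i
    refine (contDiff_QQp a i).contDiffOn.div (by fun_prop) fun z hz => sub_ne_zero.mpr (hz i)
  have h2 : ContDiffOn ℂ 1 (FF a r) {z | ∀ i, z ≠ a i} := by
    unfold FF
    exact contDiffOn_const.mul (ContDiffOn.sum fun i _ => contDiffOn_const.mul (h1 i))
  have h3 : ContDiffOn ℝ 1 (FF a r) {z | ∀ i, z ≠ a i} := h2.restrict_scalars ℝ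
  exact hB.contDiffOn.add ((conjCLE : ℂ →L[ℝ] ℂ).contDiff.comp_contDiffOn h3)

/-- **Small holes.** -/
theorem BaseField.small {R : ℝ} (hR : 0 < R) {a : Fin n → ℂ} (ha : Function.Injective a)
    (haR : ∀ i, ‖a i‖ < R) {B : ℂ → ℂ} (h : BaseField R a B) :
    ∃ r₀ > 0, ∀ D : CircularDomain n, D.R = R → D.a = a → (∀ i, D.r i ≤ r₀) →
      ∃ X, StrictField D X := by
  choose C hC0 hnear using h.near ha
  have hρ : ∀ i, ∃ ρ > 0, ∀ z, ‖z - a i‖ ≤ ρ → ‖dbar B z‖ ≤ 3 / 10 ∧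
      |dot (B z) (z - a i) - 1 / 2 * ‖z - a i‖ ^ 2| ≤ 1 / 100 * ‖z - a i‖ ^ 2 ∧
      ‖QQp a i z - 1‖ ≤ 1 / 100 ∧ ‖_root_.deriv (QQp a i) z * (z - a i)‖ ≤ 1 / 100 ∧
      ∀ j, j ≠ i → ‖ff a j z‖ ≤ C i * ‖z - a i‖ ∧ ‖_root_.deriv (ff a j) z‖ ≤ C i := by
    intro i
    obtain ⟨ρ, hρ0, hρ⟩ := Metric.nhds_basis_closedBall.eventually_iff.mp (hnear i)
    exact ⟨ρ, hρ0, fun z hz => hρ (by rwa [mem_closedBall, dist_eq_norm])⟩
  choose ρ' hρ'0 hρ' using hρ
  have hev : ∀ᶠ ρ : ℝ in 𝓝[>] 0, 0 < ρ ∧ ∀ i, ρ < ρ' i := by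
    have hpos' : ∀ᶠ c : ℝ in 𝓝[>] 0, 0 < c := self_mem_nhdsWithin
    refine hpos'.and ?_
    exact eventually_all.mpr fun i => (ev_lt (hρ'0 i) 1).mono fun c hc => by linarith
  obtain ⟨ρ, hρ0, hρlt⟩ := hev.exists
  -- the compact set
  set K : Set ℂ := closedBall 0 R ∩ {z | ∀ i, ρ ≤ ‖z - a i‖} with hK
  have hKc : IsCompact K := by
    refine (isCompact_closedBall 0 R).inter_right ?_
    have : {z : ℂ | ∀ i, ρ ≤ ‖z - a i‖} = ⋂ i, {z | ρ ≤ ‖z - a i‖} := by ext; simp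
    rw [this]
    exact isClosed_iInter fun i => isClosed_le continuous_const
      (continuous_id.sub continuous_const).norm
  have hKne : ∀ j, K ⊆ {z | z ≠ a j} := by
    intro j z hz hzj
    have h1 := hz.2 j
    rw [hzj, sub_self, norm_zero] at h1
    linarith
  have hSne : ∀ j, sphere (0:ℂ) R ⊆ {z | z ≠ a j} := by
    intro j z hz hzj
    have h1 : ‖z‖ = R := by simpa using hz
    rw [hzj] at h1
    linarith [haR j]
  have hC' : ∀ j, ∃ C' : ℝ, 0 ≤ C' ∧ (∀ z ∈ K, ‖_root_.deriv (ff a j) z‖ ≤ C') ∧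
      ∀ z ∈ sphere (0:ℂ) R, ‖ff a j z‖ ≤ C' := by
    intro j
    obtain ⟨c1, h1⟩ := hKc.exists_bound_of_continuousOn ((continuousOn_deriv_ff a j).mono (hKne j))
    obtain ⟨c2, h2⟩ := (isCompact_sphere (0:ℂ) R).exists_bound_of_continuousOn
      ((continuousOn_ff a j).mono (hSne j))
    refine ⟨max (max c1 c2) 0, le_max_right _ _, fun z hz => (h1 z hz).trans ?_,
      fun z hz => (h2 z hz).trans ?_⟩
    · exact (le_max_left _ _).trans (le_max_left _ _)
    · exact (le_max_right _ _).trans (le_max_left _ _)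
  choose C' hC'0 hC'1 hC'2 using hC'
  set M : ℝ := (∑ i, C i) + ∑ j, C' j with hM
  have hCsum : 0 ≤ ∑ i, C i := Finset.sum_nonneg fun i _ => hC0 i
  have hC'sum : 0 ≤ ∑ i, C' i := Finset.sum_nonneg fun i _ => hC'0 i
  have hM0 : 0 ≤ M := add_nonneg hCsum hC'sum
  have hCM : ∀ i, C i ≤ M := fun i => by
    have := Finset.single_le_sum (f := C) (fun j _ => hC0 j) (Finset.mem_univ i)
    linarith
  have hC'M : ∀ i, C' i ≤ M := fun i => by
    have := Finset.single_le_sum (f := C') (fun j _ => hC'0 j) (Finset.mem_univ i)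
    linarith
  -- margins
  have hdbar : ContinuousOn (dbar B) univ := continuousOn_dbar isOpen_univ h.contDiff.contDiffOn
  obtain ⟨c1, hc1, hc1'⟩ := exists_pos_le (isCompact_closedBall (0:ℂ) R)
    (f := fun z => 1 - ‖dbar B z‖) (continuousOn_const.sub (hdbar.mono (subset_univ _)).norm)
    fun z hz => by
      have := h.strain z (by simpa using hz)
      linarith
  obtain ⟨b0, hb0, hb0'⟩ := exists_pos_le (isCompact_sphere (0:ℂ) R)
    (f := fun z => dot (B z) z) (cont_dot h.contDiff.continuous continuous_id).continuousOn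
    fun z hz => h.outer z (by simpa using hz)
  -- choice of `r₀`
  have hlim : Tendsto (fun r : ℝ => (n : ℝ) * (r ^ 2 * M)) (𝓝[>] 0) (𝓝 0) := by
    have h1 : Tendsto (fun r : ℝ => (n : ℝ) * (r ^ 2 * M)) (𝓝 0) (𝓝 ((n : ℝ) * (0 ^ 2 * M))) :=
      Continuous.tendsto (by fun_prop) 0
    simp only [ne_eq, OfNat.ofNat_ne_zero, not_false_eq_true, zero_pow, zero_mul, mul_zero] at h1
    exact h1.mono_left nhdsWithin_le_nhds
  have hpos : ∀ᶠ r : ℝ in 𝓝[>] 0, 0 < r := self_mem_nhdsWithin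
  have t1 : ∀ᶠ r : ℝ in 𝓝[>] 0, 0 + 1 * r < ρ := ev_lt hρ0 1
  have t2 : ∀ᶠ r : ℝ in 𝓝[>] 0, (n : ℝ) * (r ^ 2 * M) < c1 / 2 :=
    hlim.eventually (gt_mem_nhds (by linarith))
  have t3 : ∀ᶠ r : ℝ in 𝓝[>] 0, (n : ℝ) * (r ^ 2 * M) < 1 / 1000 :=
    hlim.eventually (gt_mem_nhds (by norm_num))
  have t4 : ∀ᶠ r : ℝ in 𝓝[>] 0, (n : ℝ) * (r ^ 2 * M) < b0 / (2 * R) :=
    hlim.eventually (gt_mem_nhds (by positivity))
  obtain ⟨r₀, hr₀, t1, t2, t3, t4⟩ := (hpos.and (t1.and (t2.and (t3.and t4)))).exists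
  refine ⟨r₀, hr₀, fun D hDR hDa hDr => ⟨XX B a D.r, ?_⟩⟩
  have hne : ∀ z ∈ D.carrier, ∀ i, z ≠ a i := by
    intro z hz i hzi
    have h1 := hz.2 i
    rw [hDa, hzi, sub_self, norm_zero] at h1
    linarith [D.r_pos i]
  have hBd : ∀ z, DifferentiableAt ℝ B z := fun z => h.contDiff.differentiable one_ne_zero z
  have hXd : ∀ z, (∀ i, z ≠ a i) → HasDerivAt (FF a D.r)
      (-(11 / 20) * ∑ i, (D.r i : ℂ) ^ 2 * _root_.deriv (ff a i) z) z := fun z hz =>
    hasDerivAt_FF a D.r hz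
  have n11 : ‖(-(11 / 20) : ℂ)‖ = 11 / 20 := by
    rw [norm_neg]
    have : ((11 : ℂ) / 20) = ((11 / 20 : ℝ) : ℂ) := by push_cast; rfl
    rw [this, norm_real]; norm_num
  refine ⟨⟨{z | ∀ i, z ≠ a i}, ?_, hne, contDiffOn_XX h.contDiff a D.r, ?_⟩, ?_, ?_, ?_⟩
  · have : {z : ℂ | ∀ i, z ≠ a i} = ⋂ i, {z | z ≠ a i} := by ext; simp
    rw [this]
    exact isOpen_iInter_of_finite fun i => isOpen_ne
  · intro z hz
    have := divE_XX (hBd z) (hXd z hz)
    rw [show XX B a D.r = fun z => B z + (starRingEnd ℂ) (FF a D.r z) from rfl, this, h.div_one z]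
  · -- strain
    intro z hz
    have hzR : ‖z‖ ≤ R := by rw [← hDR]; exact hz.1
    rw [show XX B a D.r = fun z => B z + (starRingEnd ℂ) (FF a D.r z) from rfl,
      dbar_XX (hBd z) (hXd z (hne z hz))]
    refine lt_of_le_of_lt (norm_add_le _ _) ?_
    rw [RCLike.norm_conj, norm_mul, n11]
    by_cases hcase : ∃ i, ‖z - a i‖ ≤ ρ
    · obtain ⟨i, hi⟩ := hcase
      obtain ⟨p1, -, p3, p4, p5⟩ := hρ' i z (hi.trans (hρlt i).le)
      rw [← Finset.add_sum_erase _ _ (Finset.mem_univ i)]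
      have hsum : ‖∑ j ∈ Finset.univ.erase i, (D.r j : ℂ) ^ 2 * _root_.deriv (ff a j) z‖ ≤
          n * (r₀ ^ 2 * M) := norm_sum_le' D.r_pos hDr
        (fun j hj => ((p5 j (Finset.ne_of_mem_erase hj)).2).trans (hCM i)) hM0
      have hza : 0 < ‖z - a i‖ := norm_pos_iff.mpr (sub_ne_zero.mpr (hne z hz i))
      have hri : D.r i ≤ ‖z - a i‖ := by have := hz.2 i; rwa [hDa] at this
      have hterm : ‖(D.r i : ℂ) ^ 2 * _root_.deriv (ff a i) z‖ ≤ 102 / 100 := by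
        rw [deriv_ff a i (hne z hz i), norm_mul, norm_div, norm_pow, norm_pow, norm_real,
          Real.norm_eq_abs, abs_of_pos (D.r_pos i)]
        have h1 : ‖_root_.deriv (QQp a i) z * (z - a i) - QQp a i z‖ ≤ 102 / 100 := by
          have h2 : _root_.deriv (QQp a i) z * (z - a i) - QQp a i z =
              _root_.deriv (QQp a i) z * (z - a i) - (QQp a i z - 1) - 1 := by ring
          rw [h2]
          refine (norm_sub_le _ _).trans ?_
          have h3 := norm_sub_le (_root_.deriv (QQp a i) z * (z - a i)) (QQp a i z - 1)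
          rw [norm_one]
          linarith
        have h2 : D.r i ^ 2 * (‖_root_.deriv (QQp a i) z * (z - a i) - QQp a i z‖ / ‖z - a i‖ ^ 2) =
            (D.r i / ‖z - a i‖) ^ 2 * ‖_root_.deriv (QQp a i) z * (z - a i) - QQp a i z‖ := by
          field_simp
        have h3 : (D.r i / ‖z - a i‖) ^ 2 ≤ 1 := by
          have h4 : D.r i / ‖z - a i‖ ≤ 1 := by rw [div_le_one hza]; exact hri
          have h5 : 0 ≤ D.r i / ‖z - a i‖ := div_nonneg (D.r_pos i).le hza.le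
          nlinarith
        rw [h2]
        calc _ ≤ 1 * (102 / 100) := mul_le_mul h3 h1 (norm_nonneg _) zero_le_one
          _ = 102 / 100 := one_mul _
      have hS := norm_add_le ((D.r i : ℂ) ^ 2 * _root_.deriv (ff a i) z)
        (∑ j ∈ Finset.univ.erase i, (D.r j : ℂ) ^ 2 * _root_.deriv (ff a j) z)
      linarith
    · push Not at hcase
      have hzK : z ∈ K := ⟨by simpa using hzR, fun i => (hcase i).le⟩
      have hsum : ‖∑ j, (D.r j : ℂ) ^ 2 * _root_.deriv (ff a j) z‖ ≤ n * (r₀ ^ 2 * M) :=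
        norm_sum_le' D.r_pos hDr (fun j _ => (hC'1 j z hzK).trans (hC'M j)) hM0
      have h1 := hc1' z (by simpa using hzR)
      linarith
  · -- outer circle
    intro z hz
    rw [hDR] at hz
    have hzS : z ∈ sphere (0:ℂ) R := by simpa using hz
    have h1 := hb0' z hzS
    rw [show XX B a D.r z = B z + (starRingEnd ℂ) (FF a D.r z) from rfl, dot_add_left, dot_conj]
    have hF : ‖FF a D.r z‖ ≤ 11 / 20 * (n * (r₀ ^ 2 * M)) := by
      rw [FF, norm_mul, n11]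
      refine mul_le_mul_of_nonneg_left ?_ (by norm_num)
      exact norm_sum_le' D.r_pos hDr (fun j _ => (hC'2 j z hzS).trans (hC'M j)) hM0
    have h2 : |(FF a D.r z * z).re| ≤ 11 / 20 * (n * (r₀ ^ 2 * M)) * R := by
      refine (abs_re_le_norm _).trans ?_
      rw [norm_mul, hz]
      exact mul_le_mul_of_nonneg_right hF hR.le
    have h3 := (abs_le.mp h2).1
    have h4 : (n * (r₀ ^ 2 * M)) * R < b0 / 2 := by
      have h5 := mul_lt_mul_of_pos_right t4 hR
      have e : b0 / (2 * R) * R = b0 / 2 := by field_simp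
      linarith
    nlinarith
  · -- inner circles
    intro i z hz
    rw [hDa] at hz ⊢
    have hzM : z ∈ D.carrier := D.inner_mem (i := i) (by rw [hDa]; exact hz)
    have hri := D.r_pos i
    have hle : ‖z - a i‖ ≤ ρ := by rw [hz]; linarith [hDr i]
    obtain ⟨-, p2, p3, -, p5⟩ := hρ' i z (hle.trans (hρlt i).le)
    rw [show XX B a D.r z = B z + (starRingEnd ℂ) (FF a D.r z) from rfl, dot_add_left, dot_conj]
    have hsum : ‖∑ j ∈ Finset.univ.erase i, (D.r j : ℂ) ^ 2 * ff a j z‖ ≤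
        n * (r₀ ^ 2 * (M * D.r i)) := norm_sum_le' D.r_pos hDr
      (fun j hj => by
        have h1 := (p5 j (Finset.ne_of_mem_erase hj)).1
        rw [hz] at h1
        exact h1.trans (mul_le_mul_of_nonneg_right (hCM i) hri.le)) (mul_nonneg hM0 hri.le)
    have e1 : FF a D.r z * (z - a i) = -((11 / 20 : ℝ) : ℂ) * (((D.r i ^ 2 : ℝ) : ℂ) * QQp a i z +
        (∑ j ∈ Finset.univ.erase i, (D.r j : ℂ) ^ 2 * ff a j z) * (z - a i)) := by
      rw [FF, ← Finset.add_sum_erase _ _ (Finset.mem_univ i)]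
      have h1 : (D.r i : ℂ) ^ 2 * ff a i z * (z - a i) = (D.r i : ℂ) ^ 2 * QQp a i z := by
        rw [ff]
        have := sub_ne_zero.mpr (hne z hzM i)
        field_simp
      push_cast
      linear_combination (-(11 / 20) : ℂ) * h1
    have e2 : (FF a D.r z * (z - a i)).re = -(11 / 20) * (D.r i ^ 2 * (QQp a i z).re +
        ((∑ j ∈ Finset.univ.erase i, (D.r j : ℂ) ^ 2 * ff a j z) * (z - a i)).re) := by
      rw [e1, ← ofReal_neg, re_ofReal_mul, add_re, re_ofReal_mul]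
    have h3 : 99 / 100 ≤ (QQp a i z).re := by
      have h4 := (abs_re_le_norm (QQp a i z - 1)).trans p3
      have h5 := (abs_le.mp h4).1
      rw [sub_re, one_re] at h5
      linarith
    have h4 : |((∑ j ∈ Finset.univ.erase i, (D.r j : ℂ) ^ 2 * ff a j z) * (z - a i)).re| ≤
        D.r i ^ 2 * (1 / 1000) := by
      refine (abs_re_le_norm _).trans ?_
      rw [norm_mul, hz]
      calc _ ≤ n * (r₀ ^ 2 * (M * D.r i)) * D.r i := mul_le_mul_of_nonneg_right hsum hri.le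
        _ = D.r i ^ 2 * (n * (r₀ ^ 2 * M)) := by ring
        _ ≤ D.r i ^ 2 * (1 / 1000) := mul_le_mul_of_nonneg_left t3.le (sq_nonneg _)
    have h5 := (abs_le.mp h4).1
    rw [hz] at p2
    have h6 := (abs_le.mp p2).2
    have h7 : 0 < D.r i ^ 2 := by positivity
    rw [e2]
    have h8 : D.r i ^ 2 * (99 / 100) ≤ D.r i ^ 2 * (QQp a i z).re :=
      mul_le_mul_of_nonneg_left h3 h7.le
    linarith

end Pool.Agent.CG
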