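import Pool.Agent.Lib.MP_35454f.PBase
import Pool.Agent.Lib.MP_35454f.PSmall

/-!
# The base field built from a graph through the centres
-/

set_option autoImplicit false

open MeasureTheory Filter Topology Complex Set Metric
open scoped ContDiff Interval

namespace Pool.Agent.CG

variable {n : ℕ}

/-! ### matrices of partial derivatives -/

/-- The differential with given matrix of partial derivatives. -/
noncomputable def cpd (a b c d : ℝ) : ℂ →L[ℝ] ℂ :=
  ofRealCLM.comp (pd a b) + I • ofRealCLM.comp (pd c d)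

lemma cpd_apply (a b c d : ℝ) (v : ℂ) :
    cpd a b c d v = ((a * v.re + b * v.im : ℝ) : ℂ) + I * ((c * v.re + d * v.im : ℝ) : ℂ) := by
  simp [cpd, pd_apply]

lemma hasFDerivAt_cpd {f g : ℂ → ℝ} {a b c d : ℝ} {z : ℂ} (hf : HasFDerivAt f (pd a b) z)
    (hg : HasFDerivAt g (pd c d) z) :
    HasFDerivAt (fun z => ((f z : ℝ) : ℂ) + I * ((g z : ℝ) : ℂ)) (cpd a b c d) z := by
  have h1 : HasFDerivAt (fun z => ((f z : ℝ) : ℂ)) (ofRealCLM.comp (pd a b)) z :=
    ofRealCLM.hasFDerivAt.comp z hf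
  have h2 : HasFDerivAt (fun z => ((g z : ℝ) : ℂ)) (ofRealCLM.comp (pd c d)) z :=
    ofRealCLM.hasFDerivAt.comp z hg
  exact h1.fun_add (h2.const_mul I)

lemma divE_of_cpd {X : ℂ → ℂ} {a b c d : ℝ} {z : ℂ} (h : HasFDerivAt X (cpd a b c d) z) :
    divE X z = a + d := by
  rw [divE, h.fderiv, cpd_apply, cpd_apply]
  simp

lemma dbar_of_cpd {X : ℂ → ℂ} {a b c d : ℝ} {z : ℂ} (h : HasFDerivAt X (cpd a b c d) z) :
    dbar X z = (((a - d) / 2 : ℝ) : ℂ) + I * (((b + c) / 2 : ℝ) : ℂ) := by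
  rw [dbar, h.fderiv, cpd_apply, cpd_apply]
  push_cast
  simp only [Complex.one_re, Complex.one_im, Complex.I_re, Complex.I_im, ofReal_one, ofReal_zero]
  linear_combination ((d : ℂ) / 2) * Complex.I_mul_I

lemma norm_lt_one_of {p q : ℝ} (h : p ^ 2 + q ^ 2 < 1) : ‖((p : ℝ) : ℂ) + I * ((q : ℝ) : ℂ)‖ < 1 := by
  have h1 : ‖((p : ℝ) : ℂ) + I * ((q : ℝ) : ℂ)‖ ^ 2 = p ^ 2 + q ^ 2 := by
    rw [← normSq_eq_norm_sq, normSq_apply]
    simp
    ring
  have h2 := norm_nonneg (((p : ℝ) : ℂ) + I * ((q : ℝ) : ℂ))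
  nlinarith

lemma pd_add (a b c d : ℝ) : pd a b + pd c d = pd (a + c) (b + d) := by
  ext v; simp only [add_apply, pd_apply]; ring

lemma pd_sum {ι : Type*} (s : Finset ι) (a b : ι → ℝ) :
    ∑ i ∈ s, pd (a i) (b i) = pd (∑ i ∈ s, a i) (∑ i ∈ s, b i) := by
  classical
  induction s using Finset.induction_on with
  | empty => ext v; simp [pd_apply]
  | insert i s hi ih => rw [Finset.sum_insert hi, ih, pd_add, Finset.sum_insert hi,
      Finset.sum_insert hi]

/-! ### partial derivatives of the local modification -/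

noncomputable def Ka (τ : ℝ) (z : ℂ) : ℝ :=
  -(1 / 2) * hh τ (normSq z) - normSq z * hh1 τ (normSq z) -
    2 * z.re ^ 2 * z.im ^ 2 * hh2 τ (normSq z)
noncomputable def Kb (τ : ℝ) (z : ℂ) : ℝ :=
  -(3 * z.re * z.im * hh1 τ (normSq z)) - 2 * z.re * z.im ^ 3 * hh2 τ (normSq z)
noncomputable def Kc (τ : ℝ) (z : ℂ) : ℝ :=
  3 * z.re * z.im * hh1 τ (normSq z) + 2 * z.re ^ 3 * z.im * hh2 τ (normSq z)

lemma hasFDerivAt_K1' {τ : ℝ} (hτ : 0 < τ) (z : ℂ) : HasFDerivAt (K1 τ) (pd (Ka τ z) (Kb τ z)) z :=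
  hasFDerivAt_K1 hτ z

lemma hasFDerivAt_K2' {τ : ℝ} (hτ : 0 < τ) (z : ℂ) :
    HasFDerivAt (K2 τ) (pd (Kc τ z) (-Ka τ z)) z := by
  refine (hasFDerivAt_K2 hτ z).congr_fderiv ?_
  congr 1
  rw [Ka]; ring

lemma K_zero_of_ge {τ : ℝ} (hτ : 0 < τ) {z : ℂ} (hz : τ ≤ normSq z) :
    K1 τ z = 0 ∧ K2 τ z = 0 ∧ Ka τ z = 0 ∧ Kb τ z = 0 ∧ Kc τ z = 0 := by
  obtain ⟨h0, h1, h2⟩ := hh_of_ge hτ hz
  refine ⟨?_, ?_, ?_, ?_, ?_⟩ <;> simp [K1, K2, Ka, Kb, Kc, h0, h1, h2]

lemma hh_zero {τ : ℝ} : hh τ 0 = -1 := by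
  rw [hh, zero_div, sub_zero, tp_of_nonneg (by norm_num), one_pow]

lemma K_at_zero {τ : ℝ} : K1 τ 0 = 0 ∧ K2 τ 0 = 0 ∧ Ka τ 0 = 1 / 2 ∧ Kb τ 0 = 0 ∧ Kc τ 0 = 0 := by
  refine ⟨?_, ?_, ?_, ?_, ?_⟩ <;> simp [K1, K2, Ka, Kb, Kc, hh_zero]

/-! ### the function spreading the field near the ends -/

noncomputable def xi (ε d x : ℝ) : ℝ := ε * (tp 3 (x - d) - tp 3 (-x - d))
noncomputable def xi1 (ε d x : ℝ) : ℝ := 3 * ε * (tp 2 (x - d) + tp 2 (-x - d))
noncomputable def xi2 (ε d x : ℝ) : ℝ := 6 * ε * (tp 1 (x - d) - tp 1 (-x - d))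

lemma hasDerivAt_xi (ε d x : ℝ) : HasDerivAt (xi ε d) (xi1 ε d x) x := by
  have h1 : HasDerivAt (fun x : ℝ => x - d) 1 x := (hasDerivAt_id x).sub_const d
  have h2 : HasDerivAt (fun x : ℝ => -x - d) (-1) x := (hasDerivAt_id x).neg.sub_const d
  have h3 := (((hasDerivAt_tp 1 (x - d)).comp x h1).sub
    ((hasDerivAt_tp 1 (-x - d)).comp x h2)).const_mul ε
  refine h3.congr_deriv ?_
  rw [xi1]
  push_cast
  ring

lemma hasDerivAt_xi1 (ε d x : ℝ) : HasDerivAt (xi1 ε d) (xi2 ε d x) x := by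
  have h1 : HasDerivAt (fun x : ℝ => x - d) 1 x := (hasDerivAt_id x).sub_const d
  have h2 : HasDerivAt (fun x : ℝ => -x - d) (-1) x := (hasDerivAt_id x).neg.sub_const d
  have h3 := (((hasDerivAt_tp 0 (x - d)).comp x h1).add
    ((hasDerivAt_tp 0 (-x - d)).comp x h2)).const_mul (3 * ε)
  refine h3.congr_deriv ?_
  rw [xi2]
  push_cast
  ring

lemma continuous_xi1 (ε d : ℝ) : Continuous (xi1 ε d) := by
  unfold xi1
  exact continuous_const.mul (((continuous_tp 2).comp (by fun_prop)).add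
    ((continuous_tp 2).comp (by fun_prop)))

lemma continuous_xi2 (ε d : ℝ) : Continuous (xi2 ε d) := by
  unfold xi2
  exact continuous_const.mul (((continuous_tp 1).comp (by fun_prop)).sub
    ((continuous_tp 1).comp (by fun_prop)))

lemma xi_of_le {ε d x : ℝ} (hx : |x| ≤ d) : xi ε d x = 0 ∧ xi1 ε d x = 0 ∧ xi2 ε d x = 0 := by
  have h1 : x - d ≤ 0 := by linarith [le_abs_self x]
  have h2 : -x - d ≤ 0 := by linarith [neg_abs_le x]
  refine ⟨?_, ?_, ?_⟩
  · rw [xi, tp_of_nonpos (by norm_num) h1, tp_of_nonpos (by norm_num) h2, sub_zero, mul_zero]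
  · rw [xi1, tp_of_nonpos (by norm_num) h1, tp_of_nonpos (by norm_num) h2, add_zero, mul_zero]
  · rw [xi2, tp_of_nonpos (by norm_num) h1, tp_of_nonpos (by norm_num) h2, sub_zero, mul_zero]

lemma xi_of_gt {ε d x R : ℝ} (hε : 0 < ε) (hd : 0 < d) (hx : d < |x|) (hxR : |x| ≤ R) :
    0 < x * xi ε d x ∧ 0 ≤ xi1 ε d x ∧ xi1 ε d x ≤ 3 * ε * R ^ 2 ∧ |xi2 ε d x| ≤ 6 * ε * R := by
  rcases le_or_gt 0 x with h0 | h0
  · rw [abs_of_nonneg h0] at hx hxR
    have h1 : 0 ≤ x - d := by linarith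
    have h2 : -x - d ≤ 0 := by linarith
    refine ⟨?_, ?_, ?_, ?_⟩
    · rw [xi, tp_of_nonneg h1, tp_of_nonpos (by norm_num) h2, sub_zero]
      have : 0 < x - d := by linarith
      have : 0 < x := by linarith
      positivity
    · rw [xi1, tp_of_nonneg h1, tp_of_nonpos (by norm_num) h2, add_zero]
      positivity
    · rw [xi1, tp_of_nonneg h1, tp_of_nonpos (by norm_num) h2, add_zero]
      exact mul_le_mul_of_nonneg_left (pow_le_pow_left₀ h1 (by linarith) 2) (by positivity)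
    · rw [xi2, tp_of_nonneg h1, tp_of_nonpos (by norm_num) h2, sub_zero, pow_one,
        abs_of_nonneg (by positivity)]
      exact mul_le_mul_of_nonneg_left (by linarith) (by positivity)
  · rw [abs_of_neg h0] at hx hxR
    have h1 : x - d ≤ 0 := by linarith
    have h2 : 0 ≤ -x - d := by linarith
    refine ⟨?_, ?_, ?_, ?_⟩
    · rw [xi, tp_of_nonneg h2, tp_of_nonpos (by norm_num) h1, zero_sub]
      have h3 : 0 < -x - d := by linarith
      have h4 : 0 < -x := by linarith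
      have : x * (ε * -(-x - d) ^ 3) = (-x) * (ε * (-x - d) ^ 3) := by ring
      rw [this]
      positivity
    · rw [xi1, tp_of_nonneg h2, tp_of_nonpos (by norm_num) h1, zero_add]
      positivity
    · rw [xi1, tp_of_nonneg h2, tp_of_nonpos (by norm_num) h1, zero_add]
      exact mul_le_mul_of_nonneg_left (pow_le_pow_left₀ h2 (by linarith) 2) (by positivity)
    · rw [xi2, tp_of_nonneg h2, tp_of_nonpos (by norm_num) h1, zero_sub, pow_one, mul_neg, abs_neg,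
        abs_of_nonneg (by positivity)]
      exact mul_le_mul_of_nonneg_left (by linarith) (by positivity)

/-! ### the base field -/

/-- A function whose graph passes through the centres. -/
structure GoodG (R : ℝ) (a : Fin n → ℂ) (g : ℝ → ℝ) (ρ d : ℝ) : Prop where
  ρ_pos : 0 < ρ
  d_pos : 0 < d
  d_lt : d < R
  contDiff : ContDiff ℝ 1 g
  slope : ∀ x, deriv g x ^ 2 < 3
  center : ∀ i x, |x - (a i).re| < ρ → g x = (a i).im
  zero : ∀ x, d ≤ |x| → g x = 0
  inside : ∀ i, |(a i).re| + ρ ≤ d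
  bound : ∀ x, |x| < R → x ^ 2 + g x ^ 2 < R ^ 2
  sep : ∀ i j, i ≠ j → 2 * ρ ≤ |(a i).re - (a j).re|
  ball : ∀ i, ‖a i‖ + ρ < R

section

variable {R : ℝ} {a : Fin n → ℂ} {g : ℝ → ℝ} {ρ d : ℝ}

/-- First component of the base field. -/
noncomputable def PP (R : ℝ) (a : Fin n → ℂ) (ρ d : ℝ) (z : ℂ) : ℝ :=
  xi (1 / (100 * R ^ 2)) d z.re + ∑ i, K1 (ρ ^ 2) (z - a i)
/-- Second component of the base field. -/
noncomputable def QQ (R : ℝ) (a : Fin n → ℂ) (g : ℝ → ℝ) (ρ d : ℝ) (z : ℂ) : ℝ :=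
  (1 - xi1 (1 / (100 * R ^ 2)) d z.re) * z.im - g z.re + ∑ i, K2 (ρ ^ 2) (z - a i)
/-- The base field. -/
noncomputable def BB (R : ℝ) (a : Fin n → ℂ) (g : ℝ → ℝ) (ρ d : ℝ) (z : ℂ) : ℂ :=
  (PP R a ρ d z : ℂ) + I * (QQ R a g ρ d z : ℂ)

lemma hasFDerivAt_PP (hρ : 0 < ρ) (z : ℂ) : HasFDerivAt (PP R a ρ d)
    (pd (xi1 (1 / (100 * R ^ 2)) d z.re + ∑ i, Ka (ρ ^ 2) (z - a i))
      (∑ i, Kb (ρ ^ 2) (z - a i))) z := by
  have h1 : HasFDerivAt (fun z : ℂ => xi (1 / (100 * R ^ 2)) d z.re)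
      (pd (xi1 (1 / (100 * R ^ 2)) d z.re) 0) z := by
    refine ((hasDerivAt_xi _ d z.re).comp_hasFDerivAt z reCLM.hasFDerivAt).congr_fderiv ?_
    ext v; simp [pd_apply]
  have h2 : HasFDerivAt (fun z : ℂ => ∑ i, K1 (ρ ^ 2) (z - a i))
      (∑ i, pd (Ka (ρ ^ 2) (z - a i)) (Kb (ρ ^ 2) (z - a i))) z := by
    refine HasFDerivAt.fun_sum fun i _ => ?_
    have h3 : HasFDerivAt (fun z : ℂ => z - a i) (ContinuousLinearMap.id ℝ ℂ) z :=
      (hasFDerivAt_id z).sub_const (a i)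
    have h4 := (hasFDerivAt_K1' (pow_pos hρ 2) (z - a i)).comp z h3
    rwa [ContinuousLinearMap.comp_id] at h4
  rw [pd_sum] at h2
  have h5 := h1.fun_add h2
  rw [pd_add, zero_add] at h5
  exact h5

lemma hasFDerivAt_QQ (hρ : 0 < ρ) (hg : ContDiff ℝ 1 g) (z : ℂ) : HasFDerivAt (QQ R a g ρ d)
    (pd (-(xi2 (1 / (100 * R ^ 2)) d z.re * z.im + deriv g z.re) + ∑ i, Kc (ρ ^ 2) (z - a i))
      (1 - xi1 (1 / (100 * R ^ 2)) d z.re + ∑ i, -Ka (ρ ^ 2) (z - a i))) z := by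
  have h0 : HasFDerivAt (fun z : ℂ => 1 - xi1 (1 / (100 * R ^ 2)) d z.re)
      (pd (-xi2 (1 / (100 * R ^ 2)) d z.re) 0) z := by
    refine (((hasDerivAt_xi1 _ d z.re).comp_hasFDerivAt z
      reCLM.hasFDerivAt).const_sub 1).congr_fderiv ?_
    ext v; simp [pd_apply]
  have h0' : HasFDerivAt (fun z : ℂ => g z.re) (pd (deriv g z.re) 0) z := by
    refine (((hg.differentiable one_ne_zero z.re).hasDerivAt).comp_hasFDerivAt z
      reCLM.hasFDerivAt).congr_fderiv ?_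
    ext v; simp [pd_apply]
  have hy : HasFDerivAt (fun z : ℂ => z.im) imCLM z := imCLM.hasFDerivAt
  have h1 : HasFDerivAt
      (fun z : ℂ => (1 - xi1 (1 / (100 * R ^ 2)) d z.re) * z.im - g z.re)
      (pd (-(xi2 (1 / (100 * R ^ 2)) d z.re * z.im + deriv g z.re))
        (1 - xi1 (1 / (100 * R ^ 2)) d z.re)) z := by
    refine ((h0.fun_mul hy).fun_sub h0').congr_fderiv ?_
    ext v
    simp only [sub_apply, add_apply,
      smul_apply, pd_apply, smul_eq_mul, imCLM_apply]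
    ring
  have h2 : HasFDerivAt (fun z : ℂ => ∑ i, K2 (ρ ^ 2) (z - a i))
      (∑ i, pd (Kc (ρ ^ 2) (z - a i)) (-Ka (ρ ^ 2) (z - a i))) z := by
    refine HasFDerivAt.fun_sum fun i _ => ?_
    have h3 : HasFDerivAt (fun z : ℂ => z - a i) (ContinuousLinearMap.id ℝ ℂ) z :=
      (hasFDerivAt_id z).sub_const (a i)
    have h4 := (hasFDerivAt_K2' (pow_pos hρ 2) (z - a i)).comp z h3
    rwa [ContinuousLinearMap.comp_id] at h4
  rw [pd_sum] at h2
  have h5 := h1.fun_add h2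
  rw [pd_add] at h5
  exact h5

lemma hasFDerivAt_BB (hρ : 0 < ρ) (hg : ContDiff ℝ 1 g) (z : ℂ) : HasFDerivAt (BB R a g ρ d)
    (cpd (xi1 (1 / (100 * R ^ 2)) d z.re + ∑ i, Ka (ρ ^ 2) (z - a i))
      (∑ i, Kb (ρ ^ 2) (z - a i))
      (-(xi2 (1 / (100 * R ^ 2)) d z.re * z.im + deriv g z.re) + ∑ i, Kc (ρ ^ 2) (z - a i))
      (1 - xi1 (1 / (100 * R ^ 2)) d z.re + ∑ i, -Ka (ρ ^ 2) (z - a i))) z :=
  hasFDerivAt_cpd (hasFDerivAt_PP hρ z) (hasFDerivAt_QQ hρ hg z)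

lemma continuous_Ka (τ : ℝ) : Continuous (Ka τ) := by
  have e0 := (continuous_hh τ).comp continuous_normSq
  have e1 := (continuous_hh1 τ).comp continuous_normSq
  have e2 := (continuous_hh2 τ).comp continuous_normSq
  exact ((continuous_const.mul e0).sub (continuous_normSq.mul e1)).sub
      (((continuous_const.mul (continuous_re.pow 2)).mul (continuous_im.pow 2)).mul e2)

lemma continuous_Kb (τ : ℝ) : Continuous (Kb τ) := by
  have e1 := (continuous_hh1 τ).comp continuous_normSq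
  have e2 := (continuous_hh2 τ).comp continuous_normSq
  exact (((continuous_const.mul continuous_re).mul continuous_im).mul e1).neg.sub
      (((continuous_const.mul continuous_re).mul (continuous_im.pow 3)).mul e2)

lemma continuous_Kc (τ : ℝ) : Continuous (Kc τ) := by
  have e1 := (continuous_hh1 τ).comp continuous_normSq
  have e2 := (continuous_hh2 τ).comp continuous_normSq
  exact (((continuous_const.mul continuous_re).mul continuous_im).mul e1).add
      (((continuous_const.mul (continuous_re.pow 3)).mul continuous_im).mul e2)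

lemma continuous_pd' {f g : ℂ → ℝ} (hf : Continuous f) (hg : Continuous g) :
    Continuous fun z => pd (f z) (g z) := by
  unfold pd
  exact (hf.smul continuous_const).add (hg.smul continuous_const)

lemma contDiff_BB (hρ : 0 < ρ) (hg : ContDiff ℝ 1 g) : ContDiff ℝ 1 (BB R a g ρ d) := by
  have hsum : ∀ F : ℂ → ℝ, Continuous F → Continuous fun z => ∑ i, F (z - a i) := by
    intro F hF
    exact continuous_finsetSum _ fun i _ => hF.comp (continuous_id.sub continuous_const)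
  have hx := (continuous_xi1 (1 / (100 * R ^ 2)) d).comp continuous_re
  have hx2 := (continuous_xi2 (1 / (100 * R ^ 2)) d).comp continuous_re
  have hP : ContDiff ℝ 1 (PP R a ρ d) :=
    contDiff_of_pd (fun z => hasFDerivAt_PP hρ z) (hx.add (hsum _ (continuous_Ka _)))
      (hsum _ (continuous_Kb _))
  have hQ : ContDiff ℝ 1 (QQ R a g ρ d) := by
    refine contDiff_of_pd (fun z => hasFDerivAt_QQ hρ hg z) ?_ ?_
    · exact ((hx2.mul continuous_im).add
        ((hg.continuous_deriv le_rfl).comp continuous_re)).neg.add (hsum _ (continuous_Kc _))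
    · exact (continuous_const.sub hx).add
        (continuous_finsetSum _ fun i _ => ((continuous_Ka _).comp
          (continuous_id.sub continuous_const)).neg)
  exact (ofRealCLM.contDiff.comp hP).add (contDiff_const.mul (ofRealCLM.contDiff.comp hQ))

lemma GoodG.sep' (h : GoodG R a g ρ d) {i j : Fin n} (hij : i ≠ j) {z : ℂ}
    (hz : normSq (z - a i) < ρ ^ 2) : ρ ^ 2 ≤ normSq (z - a j) := by
  have h1 := h.sep i j hij
  have h2 : |(z - a i).re| < ρ := by
    refine abs_lt_of_sq_lt_sq ?_ h.ρ_pos.le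
    rw [normSq_apply] at hz
    nlinarith [mul_self_nonneg (z - a i).im]
  have h3 : ρ ≤ |(z - a j).re| := by
    have h4 : (a i).re - (a j).re = (z - a j).re - (z - a i).re := by
      simp only [sub_re]; ring
    rw [h4] at h1
    have := abs_sub (z - a j).re (z - a i).re
    linarith
  rw [normSq_apply]
  have h5 : ρ ^ 2 ≤ |(z - a j).re| ^ 2 := pow_le_pow_left₀ h.ρ_pos.le h3 2
  rw [sq_abs] at h5
  nlinarith [mul_self_nonneg (z - a j).im]

lemma GoodG.deriv_center (h : GoodG R a g ρ d) {i : Fin n} {x : ℝ} (hx : |x - (a i).re| < ρ) :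
    deriv g x = 0 := by
  have h1 : g =ᶠ[𝓝 x] fun _ => (a i).im := by
    have : {x : ℝ | |x - (a i).re| < ρ} ∈ 𝓝 x :=
      (isOpen_lt (by fun_prop) continuous_const).mem_nhds hx
    filter_upwards [this] with y hy using h.center i y hy
  rw [h1.deriv_eq, deriv_const]

lemma GoodG.deriv_zero (h : GoodG R a g ρ d) {x : ℝ} (hx : d < |x|) : deriv g x = 0 := by
  have h1 : g =ᶠ[𝓝 x] fun _ => 0 := by
    have : {x : ℝ | d < |x|} ∈ 𝓝 x := (isOpen_lt continuous_const continuous_abs).mem_nhds hx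
    filter_upwards [this] with y hy using h.zero y (le_of_lt hy)
  rw [h1.deriv_eq, deriv_const]

lemma GoodG.strain (h : GoodG R a g ρ d) (hR : 0 < R) {z : ℂ} (hz : ‖z‖ ≤ R) :
    ‖dbar (BB R a g ρ d) z‖ < 1 := by
  have hτ : 0 < ρ ^ 2 := pow_pos h.ρ_pos 2
  rw [dbar_of_cpd (hasFDerivAt_BB h.ρ_pos h.contDiff z)]
  refine norm_lt_one_of ?_
  by_cases hi : ∃ i, normSq (z - a i) < ρ ^ 2
  · obtain ⟨i, hi⟩ := hi
    have hs : ∀ F : ℂ → ℝ, (∀ w, ρ ^ 2 ≤ normSq w → F w = 0) →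
        ∑ j, F (z - a j) = F (z - a i) := by
      intro F hF
      refine Finset.sum_eq_single i (fun j _ hj => hF _ (h.sep' hj.symm hi)) (fun h' => ?_)
      exact absurd (Finset.mem_univ i) h'
    have hre : |z.re - (a i).re| < ρ := by
      refine abs_lt_of_sq_lt_sq ?_ h.ρ_pos.le
      rw [normSq_apply, sub_re, sub_im] at hi
      nlinarith [mul_self_nonneg (z.im - (a i).im)]
    have hx : |z.re| ≤ d := by
      have h1 := h.inside i
      have h2 : |z.re| ≤ |z.re - (a i).re| + |(a i).re| := by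
        have := abs_add_le (z.re - (a i).re) (a i).re
        rwa [sub_add_cancel] at this
      linarith
    obtain ⟨x0, x1, x2⟩ := xi_of_le (ε := 1 / (100 * R ^ 2)) hx
    rw [hs (Ka (ρ ^ 2)) (fun w hw => (K_zero_of_ge hτ hw).2.2.1),
      hs (fun w => -Ka (ρ ^ 2) w) (fun w hw => by rw [(K_zero_of_ge hτ hw).2.2.1, neg_zero]),
      hs (Kb (ρ ^ 2)) (fun w hw => (K_zero_of_ge hτ hw).2.2.2.1),
      hs (Kc (ρ ^ 2)) (fun w hw => (K_zero_of_ge hτ hw).2.2.2.2), x1, x2, h.deriv_center hre]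
    have hk := key_strain hτ (z - a i) hi.le
    refine lt_of_eq_of_lt ?_ hk
    rw [Ka, Kb, Kc]
    ring
  · push Not at hi
    have hs : ∀ F : ℂ → ℝ, (∀ w, ρ ^ 2 ≤ normSq w → F w = 0) → ∑ j, F (z - a j) = 0 := by
      intro F hF
      exact Finset.sum_eq_zero fun j _ => hF _ (hi j)
    rw [hs (Ka (ρ ^ 2)) (fun w hw => (K_zero_of_ge hτ hw).2.2.1),
      hs (fun w => -Ka (ρ ^ 2) w) (fun w hw => by rw [(K_zero_of_ge hτ hw).2.2.1, neg_zero]),
      hs (Kb (ρ ^ 2)) (fun w hw => (K_zero_of_ge hτ hw).2.2.2.1),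
      hs (Kc (ρ ^ 2)) (fun w hw => (K_zero_of_ge hτ hw).2.2.2.2)]
    rcases le_or_gt |z.re| d with hx | hx
    · obtain ⟨x0, x1, x2⟩ := xi_of_le (ε := 1 / (100 * R ^ 2)) hx
      rw [x1, x2]
      nlinarith [h.slope z.re]
    · have hzR : |z.re| ≤ R := (abs_re_le_norm z).trans hz
      have hyR : |z.im| ≤ R := (abs_im_le_norm z).trans hz
      obtain ⟨-, x1, x1', x2⟩ := xi_of_gt (ε := 1 / (100 * R ^ 2)) (by positivity) h.d_pos hx hzR
      rw [h.deriv_zero hx]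
      have e1 : 3 * (1 / (100 * R ^ 2)) * R ^ 2 = 3 / 100 := by field_simp
      rw [e1] at x1'
      have e2 : |xi2 (1 / (100 * R ^ 2)) d z.re * z.im| ≤ 6 / 100 := by
        rw [abs_mul]
        calc _ ≤ (6 * (1 / (100 * R ^ 2)) * R) * R :=
              mul_le_mul x2 hyR (abs_nonneg _) (by positivity)
          _ = 6 / 100 := by field_simp
      have e3 : (xi2 (1 / (100 * R ^ 2)) d z.re * z.im) ^ 2 ≤ (6 / 100) ^ 2 := by
        rw [← sq_abs]
        exact pow_le_pow_left₀ (abs_nonneg _) e2 2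
      nlinarith

lemma GoodG.K_zero (h : GoodG R a g ρ d) {z : ℂ} (hz : ‖z‖ = R) :
    ∀ i, ρ ^ 2 ≤ normSq (z - a i) := by
  intro i
  have h1 := h.ball i
  have h2 : ρ ≤ ‖z - a i‖ := by
    have := norm_sub_norm_le z (a i)
    linarith
  rw [normSq_eq_norm_sq]
  exact pow_le_pow_left₀ h.ρ_pos.le h2 2

lemma GoodG.outer (h : GoodG R a g ρ d) (hR : 0 < R) {z : ℂ} (hz : ‖z‖ = R) :
    0 < dot (BB R a g ρ d z) z := by
  have hτ : 0 < ρ ^ 2 := pow_pos h.ρ_pos 2
  have e1 : ∑ i, K1 (ρ ^ 2) (z - a i) = 0 :=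
    Finset.sum_eq_zero fun i _ => (K_zero_of_ge hτ (h.K_zero hz i)).1
  have e2 : ∑ i, K2 (ρ ^ 2) (z - a i) = 0 :=
    Finset.sum_eq_zero fun i _ => (K_zero_of_ge hτ (h.K_zero hz i)).2.1
  have e3 : dot (BB R a g ρ d z) z = z.re * xi (1 / (100 * R ^ 2)) d z.re +
      ((1 - xi1 (1 / (100 * R ^ 2)) d z.re) * z.im - g z.re) * z.im := by
    rw [BB, PP, QQ, e1, e2, dot]
    simp
    ring
  have hn : z.re ^ 2 + z.im ^ 2 = R ^ 2 := by
    rw [← hz, ← normSq_eq_norm_sq, normSq_apply]; ring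
  rw [e3]
  rcases le_or_gt |z.re| d with hx | hx
  · obtain ⟨x0, x1, x2⟩ := xi_of_le (ε := 1 / (100 * R ^ 2)) hx
    rw [x0, x1]
    have hb := h.bound z.re (lt_of_le_of_lt hx h.d_lt)
    have h1 : g z.re ^ 2 < z.im ^ 2 := by linarith
    have h2 : |g z.re| < |z.im| := sq_lt_sq.mp h1
    have h3 : g z.re * z.im ≤ |g z.re| * |z.im| := by
      rw [← abs_mul]; exact le_abs_self _
    have h4 : |g z.re| * |z.im| < |z.im| * |z.im| :=
      mul_lt_mul_of_pos_right h2 (lt_of_le_of_lt (abs_nonneg _) h2)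
    have h5 : |z.im| * |z.im| = z.im * z.im := abs_mul_abs_self _
    linarith
  · have hzR : |z.re| ≤ R := (abs_re_le_norm z).trans hz.le
    obtain ⟨x0, x1, x1', x2⟩ := xi_of_gt (ε := 1 / (100 * R ^ 2)) (by positivity) h.d_pos hx hzR
    have e1 : 3 * (1 / (100 * R ^ 2)) * R ^ 2 = 3 / 100 := by field_simp
    rw [e1] at x1'
    rw [h.zero z.re hx.le]
    have h6 : 0 ≤ (1 - xi1 (1 / (100 * R ^ 2)) d z.re) * (z.im * z.im) :=
      mul_nonneg (by linarith) (mul_self_nonneg _)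
    linarith

theorem GoodG.baseField (h : GoodG R a g ρ d) (hR : 0 < R) : BaseField R a (BB R a g ρ d) where
  contDiff := contDiff_BB h.ρ_pos h.contDiff
  div_one z := by
    rw [divE_of_cpd (hasFDerivAt_BB h.ρ_pos h.contDiff z), Finset.sum_neg_distrib]
    ring
  strain z hz := h.strain hR hz
  outer z hz := h.outer hR hz
  zero i := by
    have hτ : 0 < ρ ^ 2 := pow_pos h.ρ_pos 2
    have hi : normSq (a i - a i) < ρ ^ 2 := by rw [sub_self, map_zero]; exact hτ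
    have e1 : ∑ j, K1 (ρ ^ 2) (a i - a j) = 0 := by
      refine Finset.sum_eq_zero fun j _ => ?_
      by_cases hj : j = i
      · rw [hj, sub_self]; exact K_at_zero.1
      · exact (K_zero_of_ge hτ (h.sep' (fun h' => hj h'.symm) hi)).1
    have e2 : ∑ j, K2 (ρ ^ 2) (a i - a j) = 0 := by
      refine Finset.sum_eq_zero fun j _ => ?_
      by_cases hj : j = i
      · rw [hj, sub_self]; exact K_at_zero.2.1
      · exact (K_zero_of_ge hτ (h.sep' (fun h' => hj h'.symm) hi)).2.1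
    have hx : |(a i).re| ≤ d := by linarith [h.inside i, h.ρ_pos]
    obtain ⟨x0, x1, x2⟩ := xi_of_le (ε := 1 / (100 * R ^ 2)) hx
    rw [BB, PP, QQ, e1, e2, x0, x1, h.center i (a i).re (by rw [sub_self, abs_zero]; exact h.ρ_pos)]
    simp
  der i v := by
    have hτ : 0 < ρ ^ 2 := pow_pos h.ρ_pos 2
    have hi : normSq (a i - a i) < ρ ^ 2 := by rw [sub_self, map_zero]; exact hτ
    have hs : ∀ F : ℂ → ℝ, (∀ w, ρ ^ 2 ≤ normSq w → F w = 0) →
        ∑ j, F (a i - a j) = F 0 := by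
      intro F hF
      rw [Finset.sum_eq_single i (fun j _ hj => hF _ (h.sep' hj.symm hi)) (fun h' =>
        absurd (Finset.mem_univ i) h'), sub_self]
    have hx : |(a i).re| ≤ d := by linarith [h.inside i, h.ρ_pos]
    obtain ⟨x0, x1, x2⟩ := xi_of_le (ε := 1 / (100 * R ^ 2)) hx
    have hdg : deriv g (a i).re = 0 :=
      h.deriv_center (i := i) (by rw [sub_self, abs_zero]; exact h.ρ_pos)
    rw [(hasFDerivAt_BB h.ρ_pos h.contDiff (a i)).fderiv,
      hs (Ka (ρ ^ 2)) (fun w hw => (K_zero_of_ge hτ hw).2.2.1),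
      hs (fun w => -Ka (ρ ^ 2) w) (fun w hw => by rw [(K_zero_of_ge hτ hw).2.2.1, neg_zero]),
      hs (Kb (ρ ^ 2)) (fun w hw => (K_zero_of_ge hτ hw).2.2.2.1),
      hs (Kc (ρ ^ 2)) (fun w hw => (K_zero_of_ge hτ hw).2.2.2.2), x1, x2, hdg,
      K_at_zero.2.2.1, K_at_zero.2.2.2.1, K_at_zero.2.2.2.2, cpd_apply]
    apply Complex.ext
    · simp
    · simp
      left
      norm_num

end

end Pool.Agent.CG
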