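import Pool.Agent.Lib.MP_35454f.PKel

/-!
# The Bernoulli function on the boundary
-/

set_option autoImplicit false

open MeasureTheory Filter Topology Complex Set Metric
open scoped ContDiff Interval

namespace Pool.Agent.CG

variable {n : ℕ}
variable {D : CircularDomain n} {σ : ℂ → ℝ} {u : ℝ → ℂ → ℂ} {p : ℝ → ℂ → ℝ} {φ : ℝ → ℂ → ℂ}

/-- A parametrisation of the circle. -/
noncomputable def cir (c : ℂ) (ρ s : ℝ) : ℂ := c + ρ * exp (s * I)

/-- The tangent vector. -/
noncomputable def cir' (ρ s : ℝ) : ℂ := ρ * exp (s * I) * I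

lemma hasDerivAt_cir (c : ℂ) (ρ s : ℝ) : HasDerivAt (cir c ρ) (cir' ρ s) s := by
  have h1 : HasDerivAt (fun s : ℝ => (s : ℂ) * I) (1 * I) s := ofRealCLM.hasDerivAt.mul_const I
  have h2 := ((h1.cexp).const_mul (ρ : ℂ)).const_add c
  refine h2.congr_deriv ?_
  rw [cir']
  ring

lemma contDiff_cir (c : ℂ) (ρ : ℝ) : ContDiff ℝ 1 (cir c ρ) := by
  unfold cir
  exact contDiff_const.add (contDiff_const.mul
    ((ofRealCLM.contDiff.mul contDiff_const).cexp))

lemma contDiff_cir' (ρ : ℝ) : ContDiff ℝ 1 (cir' ρ) := by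
  unfold cir'
  exact (contDiff_const.mul ((ofRealCLM.contDiff.mul contDiff_const).cexp)).mul contDiff_const

lemma norm_cir {ρ : ℝ} (hρ : 0 < ρ) (c : ℂ) (s : ℝ) : ‖cir c ρ s - c‖ = ρ := by
  rw [cir, add_sub_cancel_left, norm_mul, norm_exp_ofReal_mul_I, norm_real, Real.norm_eq_abs,
    abs_of_pos hρ, mul_one]

lemma cir'_eq (c : ℂ) (ρ s : ℝ) : cir' ρ s = (cir c ρ s - c) * I := by
  rw [cir', cir]; ring

lemma exists_cir {c z : ℂ} {ρ : ℝ} (hz : ‖z - c‖ = ρ) : ∃ s, z = cir c ρ s := by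
  refine ⟨arg (z - c), ?_⟩
  rw [cir, ← hz, norm_mul_exp_arg_mul_I]
  ring

/-- A vector orthogonal to `ζ`. -/
lemma eq_of_orth {v ζ : ℂ} (hζ : ζ ≠ 0) (h : dot v ζ = 0) : v = ((v / ζ).im : ℂ) * (ζ * I) := by
  have hn : normSq ζ ≠ 0 := (normSq_pos.mpr hζ).ne'
  have h1 : (v / ζ).re = 0 := by
    rw [div_re]
    have : v.re * ζ.re + v.im * ζ.im = 0 := h
    field_simp
    linarith
  have h2 : v / ζ = ((v / ζ).im : ℂ) * I := by
    apply Complex.ext
    · simp [h1]
    · simp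
  calc v = v / ζ * ζ := by field_simp
    _ = ((v / ζ).im : ℂ) * I * ζ := by rw [← h2]
    _ = _ := by ring

lemma re_div_of_orth {v ζ : ℂ} (hζ : ζ ≠ 0) (h : dot v ζ = 0) : (v / ζ).re = 0 := by
  have hn : normSq ζ ≠ 0 := (normSq_pos.mpr hζ).ne'
  rw [div_re]
  have : v.re * ζ.re + v.im * ζ.im = 0 := h
  field_simp
  linarith

/-- the boundary momentum -/
noncomputable def vb (σ : ℂ → ℝ) (u : ℝ → ℂ → ℂ) (c : ℂ) (ρ : ℝ) (t s : ℝ) : ℝ :=
  dot (al σ u t (cir c ρ s)) (cir' ρ s)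

/-- its time derivative -/
noncomputable def vbt (σ : ℂ → ℝ) (u : ℝ → ℂ → ℂ) (c : ℂ) (ρ : ℝ) (t s : ℝ) : ℝ :=
  dot (deriv (fun τ => al σ u τ (cir c ρ s)) t) (cir' ρ s)

namespace PMot

lemma gcvb (h : PMot D σ u p φ) (c : ℂ) (ρ : ℝ) : GC (vb σ u c ρ) := by
  refine cont_dot (Continuous.comp (g := fun q : ℝ × ℂ => al σ u q.1 q.2) h.G1al.gc
    (continuous_fst.prodMk ((contDiff_cir c ρ).continuous.comp continuous_snd)))
    ((contDiff_cir' ρ).continuous.comp continuous_snd)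

lemma gcvbt (h : PMot D σ u p φ) (c : ℂ) (ρ : ℝ) : GC (vbt σ u c ρ) := by
  refine cont_dot (Continuous.comp (g := fun q : ℝ × ℂ => deriv (fun s => al σ u s q.2) q.1)
    h.G1al.gc_deriv
    (continuous_fst.prodMk ((contDiff_cir c ρ).continuous.comp continuous_snd)))
    ((contDiff_cir' ρ).continuous.comp continuous_snd)

lemma hasDerivAt_vb (h : PMot D σ u p φ) (c : ℂ) (ρ t s : ℝ) :
    HasDerivAt (fun τ => vb σ u c ρ τ s) (vbt σ u c ρ t s) t := by
  refine (HasDerivAt.dot' (h.G1al.hasDerivAt t (cir c ρ s)) (hasDerivAt_const t (cir' ρ s))).congr_deriv ?_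
  rw [dot_zero_right, add_zero, vbt]

/-- The Euler equations along the boundary. -/
lemma vbt_eq (h : PMot D σ u p φ) (hR : 0 < D.R) {c : ℂ} {ρ : ℝ} (hc : IsCircle D c ρ) (t s : ℝ) :
    vbt σ u c ρ t s = -((fderiv ℝ (kin σ u t) (cir c ρ s) + fderiv ℝ (p t) (cir c ρ s))
      (cir' ρ s)) := by
  have hρ := hc.pos hR
  set z := cir c ρ s with hz
  have hzc : ‖z - c‖ = ρ := norm_cir hρ c s
  have hzM : z ∈ D.carrier := hc.mem hzc
  have hne : z - c ≠ 0 := by
    rw [← norm_pos_iff, hzc]; exact hρ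
  set l : ℝ := (u t z / (z - c)).im with hl
  have hu : u t z = (l : ℂ) * cir' ρ s := by
    rw [cir'_eq c ρ s, ← hz]
    exact eq_of_orth hne (hc.tangent h.eul t hzc)
  have e1 := h.euler_cov t hzM (cir' ρ s)
  rw [dot_add_left] at e1
  -- the transport term
  have e2 : dot (fderiv ℝ (al σ u t) z (u t z)) (cir' ρ s) =
      dot (fderiv ℝ (al σ u t) z (cir' ρ s)) (u t z) := by
    conv_lhs => rw [hu]
    conv_rhs => rw [hu]
    rw [← real_smul, map_smul, real_smul, dot_smul_left, real_smul, dot_smul_right]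
  have e3 : dot (fderiv ℝ (al σ u t) z (cir' ρ s)) (u t z) +
      dot (al σ u t z) (fderiv ℝ (u t) z (cir' ρ s)) = 2 * fderiv ℝ (kin σ u t) z (cir' ρ s) := by
    rw [h.fderiv_al, h.fderiv_kin, normSq_apply]
    simp only [al, dot, add_re, add_im, re_ofReal_mul, im_ofReal_mul]
    ring
  simp only [vbt, add_apply]
  rw [← hz]
  linarith

lemma integral_vbt (h : PMot D σ u p φ) (hR : 0 < D.R) {c : ℂ} {ρ : ℝ} (hc : IsCircle D c ρ)
    (t a b : ℝ) : ∫ s in a..b, vbt σ u c ρ t s =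
      ber σ u p t (cir c ρ a) - ber σ u p t (cir c ρ b) := by
  have h1 : ∀ s, HasDerivAt (fun s => -ber σ u p t (cir c ρ s)) (vbt σ u c ρ t s) s := by
    intro s
    rw [h.vbt_eq hR hc]
    exact ((h.hasFDerivAt_ber t (cir c ρ s)).comp_hasDerivAt s (hasDerivAt_cir c ρ s)).neg
  rw [intervalIntegral.integral_eq_sub_of_hasDerivAt (fun s _ => h1 s)
    (((h.gcvbt c ρ).slice t).intervalIntegrable _ _)]
  ring

end PMot

lemma hasDerivAt_S_gen {v v' B : ℝ → ℝ → ℝ} (hv : GC v) (hv' : GC v') (hB : GC B)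
    (hd : ∀ t s, HasDerivAt (fun τ => v τ s) (v' t s) t)
    (hI : ∀ t a b, ∫ s in a..b, v' t s = B t a - B t b) (b₀ : ℝ) {β : ℝ → ℝ} {β' t : ℝ}
    (hβ : HasDerivAt β β' t) :
    HasDerivAt (fun t => ∫ s in b₀..β t, v t s) (B t b₀ - B t (β t) + v t (β t) * β') t := by
  have hswap : GC fun s t => v t s :=
    Continuous.comp (g := fun q : ℝ × ℝ => v q.1 q.2) hv continuous_swap
  have hswap' : GC fun s t => v' t s :=
    Continuous.comp (g := fun q : ℝ × ℝ => v' q.1 q.2) hv' continuous_swap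
  have hB0 : Continuous fun q : ℝ × ℝ => B q.1 b₀ :=
    Continuous.comp (g := fun q : ℝ × ℝ => B q.1 q.2) hB (continuous_fst.prodMk continuous_const)
  have gA : GC fun t b => B t b₀ - B t b := hB0.sub hB
  refine hasDerivAt_two (Φ := fun t b => ∫ s in b₀..b, v t s) gA hv (fun t b => ?_)
    (fun t b => ?_) hβ
  · have h1 := hasDerivAt_parR hswap hswap' (fun s t => hd t s) b₀ b t
    rw [hI t b₀ b] at h1
    exact h1
  · exact intervalIntegral.integral_hasDerivAt_right ((hv.slice t).intervalIntegrable _ _)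
      ((hv.slice t).stronglyMeasurableAtFilter _ _) (hv.slice t).continuousAt

namespace PMot

lemma hasDerivAt_S (h : PMot D σ u p φ) (hR : 0 < D.R) {c : ℂ} {ρ : ℝ} (hc : IsCircle D c ρ)
    (b₀ : ℝ) {β : ℝ → ℝ} {β' t : ℝ} (hβ : HasDerivAt β β' t) :
    HasDerivAt (fun t => ∫ s in b₀..β t, vb σ u c ρ t s)
      (ber σ u p t (cir c ρ b₀) - ber σ u p t (cir c ρ (β t)) + vb σ u c ρ t (β t) * β') t := by
  have hber : GC fun t s => ber σ u p t (cir c ρ s) :=
    Continuous.comp (g := fun q : ℝ × ℂ => ber σ u p q.1 q.2) h.gcber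
      (continuous_fst.prodMk ((contDiff_cir c ρ).continuous.comp continuous_snd))
  exact hasDerivAt_S_gen (v := vb σ u c ρ) (v' := vbt σ u c ρ)
    (B := fun t s => ber σ u p t (cir c ρ s)) (h.gcvb c ρ) (h.gcvbt c ρ) hber
    (fun t s => h.hasDerivAt_vb c ρ t s) (fun t a b => h.integral_vbt hR hc t a b) b₀ hβ

/-- **The Bernoulli function on the boundary.** -/
lemma ber_boundary (h : PMot D σ u p φ) (hn : 2 ≤ n) (hR : 0 < D.R) {c : ℂ} {ρ : ℝ}
    (hc : IsCircle D c ρ) {T : ℝ} (hT : ∀ z ∈ D.carrier, φ T z = z) {z : ℂ}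
    (hz : ‖z - c‖ = ρ) : ∫ t in (0:ℝ)..T, ber σ u p t z = - act σ u p φ T z := by
  have hρ := hc.pos hR
  have hzM := hc.mem hz
  have hinv := h.circle_inv hR hc hz
  have hne : ∀ t, φ t z ≠ c := by
    intro t h0
    have := hinv t
    rw [h0, sub_self, norm_zero] at this
    linarith
  have hne' : ∀ t, φ t z - c ≠ 0 := fun t => sub_ne_zero.mpr (hne t)
  have horth : ∀ t, dot (u t (φ t z)) (φ t z - c) = 0 := fun t => hc.tangent h.eul t (hinv t)
  obtain ⟨b₀, hb₀⟩ := exists_cir hz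
  set β : ℝ → ℝ := fun t => b₀ + (wind u φ c t z).im with hβdef
  have hβ : ∀ t, HasDerivAt β (u t (φ t z) / (φ t z - c)).im t := fun t =>
    (imCLM.hasFDerivAt.comp_hasDerivAt t (h.hasDerivAt_wind hne t)).const_add b₀
  have hre : ∀ t, (wind u φ c t z).re = 0 := by
    intro t
    have h1 : ∀ s, HasDerivAt (fun s => (wind u φ c s z).re) 0 s := by
      intro s
      have h2 := reCLM.hasFDerivAt.comp_hasDerivAt s (h.hasDerivAt_wind hne s)
      have h3 := re_div_of_orth (hne' s) (horth s)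
      rw [reCLM_apply, h3] at h2
      exact h2
    have h2 := is_const_of_deriv_eq_zero (fun s => (h1 s).differentiableAt)
      (fun s => (h1 s).deriv) t 0
    rw [h2]
    simp [wind]
  have hpos : ∀ t, cir c ρ (β t) = φ t z := by
    intro t
    have h1 := h.exp_wind hzM hne t
    have h2 : z - c = ρ * exp (b₀ * I) := by rw [hb₀, cir]; ring
    have h3 : wind u φ c t z = ((wind u φ c t z).im : ℂ) * I := by
      apply Complex.ext
      · simp [hre t]
      · simp
    rw [h3, h2, mul_assoc, ← Complex.exp_add] at h1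
    rw [cir, hβdef]
    simp only [ofReal_add]
    rw [add_mul, ← h1]
    ring
  have hT' : β T = b₀ := by
    rw [hβdef]
    simp only
    rw [h.wind_circle hn hR hc hT hz]
    simp
  have h0' : β 0 = b₀ := by
    rw [hβdef]
    simp [wind]
  have hS : ∀ t, HasDerivAt (fun t => ∫ s in b₀..β t, vb σ u c ρ t s)
      (ber σ u p t z + lag σ u p t (φ t z)) t := by
    intro t
    refine (h.hasDerivAt_S hR hc b₀ (hβ t)).congr_deriv ?_
    rw [← hb₀, hpos t]
    have h1 : vb σ u c ρ t (β t) * (u t (φ t z) / (φ t z - c)).im = 2 * kin σ u t (φ t z) := by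
      rw [vb, hpos t, cir'_eq c, hpos t, mul_comm, ← dot_smul_right,
        ← eq_of_orth (hne' t) (horth t)]
      rw [al, dot_smul_left, kin, normSq_apply, dot]
      ring
    rw [h1, ber, ber, lag]
    ring
  have hc1 : Continuous fun t => ber σ u p t z := h.gcber.slice_t z
  have hc2 : Continuous fun t => lag σ u p t (φ t z) := (h.gc_comp h.gclag).slice_t z
  have h1 := intervalIntegral.integral_eq_sub_of_hasDerivAt (a := 0) (b := T) (fun t _ => hS t)
    ((hc1.add hc2).intervalIntegrable _ _)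
  rw [intervalIntegral.integral_add (hc1.intervalIntegrable _ _) (hc2.intervalIntegrable _ _)] at h1
  simp only [hT', h0', intervalIntegral.integral_same, sub_self] at h1
  rw [act]
  linarith

end PMot

end Pool.Agent.CG
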