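import Mathlib

/-!
# Geodesics of the group of area-preserving diffeomorphisms of a circular domain with a conformal
metric

By uniformization (Koebe) every compact surface of genus zero with `n + 1 ≥ 1` boundary circles and a
Riemannian metric, in particular every bounded plane domain with smooth boundary and `n` holes, is
isometric to a disc from which `n` disjoint open round discs have been removed, with a metric
`σ (dx² + dy²)`.
-/

set_option autoImplicit false

open Filter Topology Complex Set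
open scoped ContDiff

namespace Pool.Agent.CG

/-- A disc of radius `R` centered at the origin from which `n` open discs, the holes, with pairwise
disjoint closures contained in the open disc of radius `R`, have been removed: the holes are the
open discs of radius `r i` centered at `a i`. -/
structure CircularDomain (n : ℕ) where
  R : ℝ
  a : Fin n → ℂ
  r : Fin n → ℝ
  r_pos : ∀ i, 0 < r i
  inside : ∀ i, ‖a i‖ + r i < R
  disjoint : ∀ i j, i ≠ j → r i + r j < ‖a i - a j‖

variable {n : ℕ}

/-- The (compact) domain. -/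
def CircularDomain.carrier (D : CircularDomain n) : Set ℂ :=
  {z | ‖z‖ ≤ D.R ∧ ∀ i, D.r i ≤ ‖z - D.a i‖}

/-- The Euclidean scalar product of the plane. The scalar product of the metric `σ (dx² + dy²)` is
`σ` times this one. -/
def dot (z w : ℂ) : ℝ := z.re * w.re + z.im * w.im

/-- `σ` is (the restriction of) a `C¹` function, positive on the domain: the conformal factor of the
Riemannian metric `σ (dx² + dy²)` on the domain. -/
structure IsMetric (D : CircularDomain n) (σ : ℂ → ℝ) : Prop where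
  contDiff : ContDiff ℝ 1 σ
  pos : ∀ z ∈ D.carrier, 0 < σ z

/-- The gradient of `q` for the metric `σ (dx² + dy²)`: `(∂q/∂x + i ∂q/∂y) / σ`. -/
noncomputable def gradS (σ : ℂ → ℝ) (q : ℂ → ℝ) (z : ℂ) : ℂ :=
  (((fderiv ℝ q z 1 : ℝ) : ℂ) + I * ((fderiv ℝ q z I : ℝ) : ℂ)) / (σ z : ℂ)

/-- The divergence of `X` for the metric `σ (dx² + dy²)`: `(∂(σ X₁)/∂x + ∂(σ X₂)/∂y) / σ`. -/
noncomputable def divS (σ : ℂ → ℝ) (X : ℂ → ℂ) (z : ℂ) : ℝ :=
  (fderiv ℝ (fun w => σ w * (X w).re) z 1 + fderiv ℝ (fun w => σ w * (X w).im) z I) / σ z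

/-- The covariant derivative `∇_v X` for the metric `σ (dx² + dy²)`:
`D_v X + (∂σ/∂x - i ∂σ/∂y) / (2 σ) · v X` (product of complex numbers). -/
noncomputable def nablaS (σ : ℂ → ℝ) (X : ℂ → ℂ) (z v : ℂ) : ℂ :=
  fderiv ℝ X z v +
    (((fderiv ℝ σ z 1 : ℝ) : ℂ) - I * ((fderiv ℝ σ z I : ℝ) : ℂ)) / (2 * (σ z : ℂ)) * v * X z

/-- `u`, `p` is a solution of the incompressible Euler equations on the domain with the metric
`σ (dx² + dy²)`: `u` and `p`, which are the restrictions to the domain of functions defined on the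
plane, `u` of class `C¹` in space and time, `p` and its space derivative continuous in space and
time, satisfy `∂ₜ u + ∇_u u = - grad p`, `div u = 0`, and `u` is tangent to the boundary circles. -/
structure IsEulerFlow (D : CircularDomain n) (σ : ℂ → ℝ) (u : ℝ → ℂ → ℂ) (p : ℝ → ℂ → ℝ) :
    Prop where
  contDiff : ContDiff ℝ 1 (fun q : ℝ × ℂ => u q.1 q.2)
  p_contDiff : ∀ t, ContDiff ℝ 1 (p t)
  p_cont : Continuous (fun q : ℝ × ℂ => p q.1 q.2)
  dp_cont : Continuous (fun q : ℝ × ℂ => fderiv ℝ (p q.1) q.2)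
  euler : ∀ t, ∀ z ∈ D.carrier,
    deriv (fun s => u s z) t + nablaS σ (u t) z (u t z) = - gradS σ (p t) z
  div_zero : ∀ t, ∀ z ∈ D.carrier, divS σ (u t) z = 0
  tangent_outer : ∀ t z, ‖z‖ = D.R → dot (u t z) z = 0
  tangent_inner : ∀ t i z, ‖z - D.a i‖ = D.r i → dot (u t z) (z - D.a i) = 0

/-- `φ` is a geodesic, starting at the identity, of the group of area-preserving `C¹`
diffeomorphisms of the domain with the metric `σ (dx² + dy²)`, with the right-invariant `L²` metric:
each `φ t` is a bijection of the domain onto itself which preserves the area form `σ dx dy`,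
`(t, z) ↦ φ t z` is (the restriction of) a `C¹` map, and the velocity field `u = φ' ∘ φ⁻¹` solves
the Euler equations. -/
structure IsGeodesicS (D : CircularDomain n) (σ : ℂ → ℝ) (φ : ℝ → ℂ → ℂ) : Prop where
  start : ∀ z ∈ D.carrier, φ 0 z = z
  bijOn : ∀ t, BijOn (φ t) D.carrier D.carrier
  contDiff : ContDiff ℝ 1 (fun q : ℝ × ℂ => φ q.1 q.2)
  area : ∀ t, ∀ z ∈ D.carrier, (fderiv ℝ (φ t) z).det * σ (φ t z) = σ z
  euler : ∃ (u : ℝ → ℂ → ℂ) (p : ℝ → ℂ → ℝ), IsEulerFlow D σ u p ∧
    ∀ t, ∀ z ∈ D.carrier, HasDerivAt (fun s => φ s z) (u t (φ t z)) t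

/-- There is no closed geodesic, nor a geodesic loop: every geodesic which returns to its initial
configuration after some time `T > 0` is constant. -/
def NoClosedGeodesicS (D : CircularDomain n) (σ : ℂ → ℝ) : Prop :=
  ∀ φ : ℝ → ℂ → ℂ, IsGeodesicS D σ φ → ∀ T : ℝ, 0 < T → (∀ z ∈ D.carrier, φ T z = z) →
    ∀ t, ∀ z ∈ D.carrier, φ t z = z

/-- `X` is a `C¹` vector field on a neighbourhood of the domain which, for the metric
`g = σ (dx² + dy²)`, satisfies `div X = 1` and `g(∇_v X, v) > - g(v, v) / 2` for nonzero `v` on the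
domain, and `g(X, n) ≥ 0` on the boundary, where `n` is the outer unit normal of the domain. -/
structure IsFieldS (D : CircularDomain n) (σ : ℂ → ℝ) (X : ℂ → ℂ) : Prop where
  contDiff : ∃ U : Set ℂ, IsOpen U ∧ D.carrier ⊆ U ∧ ContDiffOn ℝ 1 X U
  div_one : ∀ z ∈ D.carrier, divS σ X z = 1
  strain : ∀ z ∈ D.carrier, ∀ v : ℂ, v ≠ 0 → -(1 / 2) * dot v v < dot (nablaS σ X z v) v
  outer : ∀ z, ‖z‖ = D.R → 0 ≤ dot (X z) z
  inner : ∀ i z, ‖z - D.a i‖ = D.r i → dot (X z) (z - D.a i) ≤ 0

end Pool.Agent.CG
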