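import Pool.Agent.Lib.MP_35454f.PGeom
import Pool.Agent.Lib.MP_35454f.PStep
import Pool.Agent.Lib.MP_35454f.Null

/-!
# The divergence inequality on a circular domain
-/

set_option autoImplicit false

open MeasureTheory Filter Topology Complex Set Metric
open scoped ContDiff

namespace Pool.Agent.CG

variable {n : ℕ} (D : CircularDomain n)

/-- The linear form `w ↦ ⟨a, w⟩`. -/
noncomputable def dotL (a : ℂ) : ℂ →L[ℝ] ℝ := a.re • reCLM + a.im • imCLM

lemma dotL_apply (a w : ℂ) : dotL a w = dot a w := by
  simp [dotL, dot]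

lemma continuous_dot : Continuous fun q : ℂ × ℂ => dot q.1 q.2 := by
  unfold dot; fun_prop

lemma cont_dot {X : Type*} [TopologicalSpace X] {f g : X → ℂ} (hf : Continuous f)
    (hg : Continuous g) : Continuous fun x => CG.dot (f x) (g x) :=
  continuous_dot.comp (hf.prodMk hg)

/-- The defining functions of the domain. -/
def gg : Option (Fin n) → ℂ → ℝ
  | none => fun z => D.R ^ 2 - normSq z
  | some i => fun z => normSq (z - D.a i) - D.r i ^ 2

/-- Their gradients. -/
def gn : Option (Fin n) → ℂ → ℂ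
  | none => fun z => -2 * z
  | some i => fun z => 2 * (z - D.a i)

lemma hasFDerivAt_normSq (z : ℂ) : HasFDerivAt (fun w : ℂ => normSq w) (dotL (2 * z)) z := by
  have h1 : (fun w : ℂ => normSq w) = fun w : ℂ => w.re * w.re + w.im * w.im := by
    ext w; rw [normSq_apply]
  rw [h1]
  have hre : HasFDerivAt (fun w : ℂ => w.re) reCLM z := reCLM.hasFDerivAt
  have him : HasFDerivAt (fun w : ℂ => w.im) imCLM z := imCLM.hasFDerivAt
  refine ((hre.mul hre).add (him.mul him)).congr_fderiv ?_
  ext w
  simp [dotL]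
  ring

lemma hasFDerivAt_gg (j : Option (Fin n)) (z : ℂ) : HasFDerivAt (gg D j) (dotL (gn D j z)) z := by
  cases j with
  | none =>
    refine ((hasFDerivAt_normSq z).const_sub (D.R ^ 2)).congr_fderiv ?_
    ext w
    simp [dotL, gn]
    ring
  | some i =>
    have h1 : HasFDerivAt (fun w : ℂ => w - D.a i) (ContinuousLinearMap.id ℝ ℂ) z :=
      (hasFDerivAt_id z).sub_const _
    refine (((hasFDerivAt_normSq (z - D.a i)).comp z h1).sub_const (D.r i ^ 2)).congr_fderiv ?_
    ext w
    simp [dotL, gn]

lemma contDiff_normSq : ContDiff ℝ ∞ (fun w : ℂ => normSq w) := by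
  have h1 : (fun w : ℂ => normSq w) = fun w : ℂ => w.re * w.re + w.im * w.im := by
    ext w; rw [normSq_apply]
  rw [h1]
  exact (reCLM.contDiff.mul reCLM.contDiff).add (imCLM.contDiff.mul imCLM.contDiff)

lemma contDiff_gg (j : Option (Fin n)) : ContDiff ℝ ∞ (gg D j) := by
  cases j with
  | none => exact contDiff_const.sub contDiff_normSq
  | some i => exact (contDiff_normSq.comp (contDiff_id.sub contDiff_const)).sub contDiff_const

lemma continuous_gn (j : Option (Fin n)) : Continuous (gn D j) := by
  cases j with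
  | none => unfold gn; fun_prop
  | some i => unfold gn; fun_prop

lemma normSq_eq (z : ℂ) : normSq z = ‖z‖ ^ 2 := normSq_eq_norm_sq z

lemma mem_carrier_iff (hR : 0 ≤ D.R) (z : ℂ) : z ∈ D.carrier ↔ ∀ j, 0 ≤ gg D j z := by
  constructor
  · intro hz j
    cases j with
    | none =>
      simp only [gg, normSq_eq]
      have h1 := hz.1
      have h2 := norm_nonneg z
      nlinarith
    | some i =>
      simp only [gg, normSq_eq]
      have h1 := hz.2 i
      have h2 := D.r_pos i
      nlinarith
  · intro h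
    refine ⟨?_, fun i => ?_⟩
    · have h1 := h none
      simp only [gg, normSq_eq] at h1
      exact abs_le_of_sq_le_sq' (by linarith) hR |>.2
    · have h1 := h (some i)
      simp only [gg, normSq_eq] at h1
      exact abs_le_of_sq_le_sq' (by linarith) (norm_nonneg _) |>.2

lemma mem_inn_iff (hR : 0 ≤ D.R) (z : ℂ) : z ∈ D.inn ↔ ∀ j, 0 < gg D j z := by
  constructor
  · intro hz j
    cases j with
    | none =>
      simp only [gg, normSq_eq]
      have h1 := hz.1
      have h2 := norm_nonneg z
      nlinarith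
    | some i =>
      simp only [gg, normSq_eq]
      have h1 := hz.2 i
      have h2 := D.r_pos i
      nlinarith
  · intro h
    refine ⟨?_, fun i => ?_⟩
    · have h1 := h none
      simp only [gg, normSq_eq] at h1
      exact abs_lt_of_sq_lt_sq' (by linarith) hR |>.2
    · have h1 := h (some i)
      simp only [gg, normSq_eq] at h1
      exact abs_lt_of_sq_lt_sq' (by linarith) (norm_nonneg _) |>.2

/-- The cutoff function. -/
noncomputable def eta (k : ℝ) (z : ℂ) : ℝ := ∏ j, st (k * gg D j z)

lemma contDiff_eta (k : ℝ) : ContDiff ℝ 1 (eta D k) := by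
  unfold eta
  exact contDiff_prod fun j _ => contDiff_st.comp
    (contDiff_const.mul ((contDiff_gg D j).of_le (by simp)))

lemma eta_nonneg (k : ℝ) (z : ℂ) : 0 ≤ eta D k z := Finset.prod_nonneg fun _ _ => st_nonneg _

lemma eta_le_one (k : ℝ) (z : ℂ) : eta D k z ≤ 1 :=
  Finset.prod_le_one (fun _ _ => st_nonneg _) fun _ _ => st_le_one _

lemma eta_eq_zero (hR : 0 ≤ D.R) {k : ℝ} (hk : 0 ≤ k) {z : ℂ} (hz : z ∉ D.inn) :
    eta D k z = 0 := by
  rw [mem_inn_iff D hR] at hz
  push Not at hz
  obtain ⟨j, hj⟩ := hz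
  exact Finset.prod_eq_zero (Finset.mem_univ j) (st_of_nonpos (mul_nonpos_of_nonneg_of_nonpos hk hj))

lemma tsupport_eta (hR : 0 ≤ D.R) {k : ℝ} (hk : 0 ≤ k) : tsupport (eta D k) ⊆ D.carrier := by
  refine closure_minimal ?_ D.isClosed
  intro z hz
  by_contra h
  exact hz (eta_eq_zero D hR hk fun h' => h (D.inn_subset h'))

lemma hasCompactSupport_eta (hR : 0 ≤ D.R) {k : ℝ} (hk : 0 ≤ k) : HasCompactSupport (eta D k) :=
  HasCompactSupport.of_support_subset_isCompact D.isCompact
    ((subset_tsupport _).trans (tsupport_eta D hR hk))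

/-- The derivative of the cutoff function. -/
lemma hasFDerivAt_eta [DecidableEq (Option (Fin n))] (k : ℝ) (z : ℂ) : HasFDerivAt (eta D k)
    (∑ j, (∏ l ∈ Finset.univ.erase j, st (k * gg D l z)) •
      ((k * st' (k * gg D j z)) • dotL (gn D j z))) z := by
  have h1 : ∀ j ∈ (Finset.univ : Finset (Option (Fin n))),
      HasFDerivAt (fun z => st (k * gg D j z)) ((k * st' (k * gg D j z)) • dotL (gn D j z)) z := by
    intro j _
    have h2 : HasFDerivAt (fun z => k * gg D j z) (k • dotL (gn D j z)) z :=
      (hasFDerivAt_gg D j z).const_mul k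
    refine ((hasDerivAt_st (k * gg D j z)).comp_hasFDerivAt z h2).congr_fderiv ?_
    rw [smul_smul, mul_comm]
  have h3 := HasFDerivAt.finsetProd (𝕜 := ℝ) h1
  exact h3

/-- The area of an annulus. -/
lemma volume_annulus (a : ℂ) {α β : ℝ} (hα : 0 ≤ α) (hαβ : α < β) :
    volume.real {z : ℂ | α < normSq (z - a) ∧ normSq (z - a) < β} = Real.pi * (β - α) := by
  have h1 : {z : ℂ | α < normSq (z - a) ∧ normSq (z - a) < β} =
      ball a (Real.sqrt β) \ closedBall a (Real.sqrt α) := by
    ext z
    rw [Set.mem_sdiff, mem_ball, mem_closedBall, dist_eq_norm, not_le]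
    change (α < normSq (z - a) ∧ normSq (z - a) < β) ↔ _
    rw [normSq_eq, Real.lt_sqrt (norm_nonneg _), Real.sqrt_lt hα (norm_nonneg _)]
    tauto
  rw [h1, measureReal_sdiff (μ := volume) ?_ measurableSet_closedBall]
  · simp only [Measure.real, Complex.volume_ball, Complex.volume_closedBall, ENNReal.toReal_mul,
      ENNReal.toReal_pow]
    rw [ENNReal.toReal_ofReal (Real.sqrt_nonneg _), ENNReal.toReal_ofReal (Real.sqrt_nonneg _),
      Real.sq_sqrt (hα.trans hαβ.le), Real.sq_sqrt hα]
    simp
    ring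
  · exact closedBall_subset_ball (Real.sqrt_lt_sqrt hα hαβ)

/-- The collar of the `j`-th circle. -/
def collar (k : ℝ) (j : Option (Fin n)) : Set ℂ := {z | 0 < gg D j z ∧ k * gg D j z < 1}

lemma isOpen_collar (k : ℝ) (j : Option (Fin n)) : IsOpen (collar D k j) :=
  (isOpen_lt continuous_const (contDiff_gg D j).continuous).inter
    (isOpen_lt (continuous_const.mul (contDiff_gg D j).continuous) continuous_const)

lemma volume_collar {k : ℝ} (hk : 0 < k) (hk' : 1 ≤ k * D.R ^ 2) (j : Option (Fin n)) :
    k * volume.real (collar D k j) = Real.pi := by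
  cases j with
  | none =>
    have h1 : collar D k none = {z : ℂ | D.R ^ 2 - 1 / k < normSq (z - 0) ∧
        normSq (z - 0) < D.R ^ 2} := by
      ext z
      change (0 < D.R ^ 2 - normSq z ∧ k * (D.R ^ 2 - normSq z) < 1) ↔
        (D.R ^ 2 - 1 / k < normSq (z - 0) ∧ normSq (z - 0) < D.R ^ 2)
      rw [sub_zero, mul_comm k, ← lt_div_iff₀ hk]
      constructor
      · rintro ⟨h1, h2⟩; constructor <;> linarith
      · rintro ⟨h1, h2⟩; constructor <;> linarith
    have h2 : 0 ≤ D.R ^ 2 - 1 / k := by
      rw [sub_nonneg, div_le_iff₀ hk]; linarith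
    rw [h1, volume_annulus 0 h2 (by have := div_pos one_pos hk; linarith)]
    field_simp
    ring
  | some i =>
    have h1 : collar D k (some i) = {z : ℂ | D.r i ^ 2 < normSq (z - D.a i) ∧
        normSq (z - D.a i) < D.r i ^ 2 + 1 / k} := by
      ext z
      change (0 < normSq (z - D.a i) - D.r i ^ 2 ∧ k * (normSq (z - D.a i) - D.r i ^ 2) < 1) ↔
        (D.r i ^ 2 < normSq (z - D.a i) ∧ normSq (z - D.a i) < D.r i ^ 2 + 1 / k)
      rw [mul_comm k, ← lt_div_iff₀ hk]
      constructor
      · rintro ⟨h1, h2⟩; constructor <;> linarith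
      · rintro ⟨h1, h2⟩; constructor <;> linarith
    rw [h1, volume_annulus _ (sq_nonneg _) (by have := div_pos one_pos hk; linarith)]
    field_simp
    ring

lemma volume_collar_ne_top {k : ℝ} (hk : 0 < k) (hk' : 1 ≤ k * D.R ^ 2) (j : Option (Fin n)) :
    volume (collar D k j) ≠ ⊤ := by
  intro h
  have h1 := volume_collar D hk hk' j
  rw [Measure.real, h] at h1
  simp at h1
  exact Real.pi_ne_zero h1.symm

lemma eventually_collar (hR : 0 ≤ D.R) {V : ℂ → ℂ} (hV : Continuous V)
    (hb : ∀ j, ∀ z ∈ D.carrier, gg D j z = 0 → dot (gn D j z) (V z) ≤ 0) {δ : ℝ} (hδ : 0 < δ) :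
    ∀ᶠ k : ℝ in atTop, ∀ j, ∀ z ∈ D.carrier, k * gg D j z < 1 → dot (gn D j z) (V z) ≤ δ := by
  refine eventually_all.mpr fun j => ?_
  have hc : Continuous fun z => dot (gn D j z) (V z) := cont_dot (continuous_gn D j) hV
  set K : Set ℂ := D.carrier ∩ {z | δ ≤ dot (gn D j z) (V z)} with hK
  have hKc : IsCompact K := D.isCompact.inter_right (isClosed_le continuous_const hc)
  have hpos : ∀ z ∈ K, 0 < gg D j z := by
    intro z hz
    refine lt_of_le_of_ne ((mem_carrier_iff D hR z).mp hz.1 j) fun h0 => ?_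
    have h1 := hb j z hz.1 h0.symm
    have h2 : δ ≤ dot (gn D j z) (V z) := hz.2
    linarith
  rcases K.eq_empty_or_nonempty with he | hne
  · refine Eventually.of_forall fun k z hz _ => ?_
    by_contra hcon
    have : z ∈ K := ⟨hz, (not_le.mp hcon).le⟩
    rw [he] at this
    exact this
  · obtain ⟨z0, hz0, hmin⟩ := hKc.exists_isMinOn hne (contDiff_gg D j).continuous.continuousOn
    have hm := hpos z0 hz0
    filter_upwards [eventually_ge_atTop (1 / gg D j z0), eventually_gt_atTop 0] with k hk hk0 z hz h1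
    by_contra hcon
    have hzK : z ∈ K := ⟨hz, (not_le.mp hcon).le⟩
    have h2 : gg D j z0 ≤ gg D j z := hmin hzK
    have h3 : 1 ≤ k * gg D j z0 := by rwa [div_le_iff₀ hm] at hk
    nlinarith

/-- The Euclidean divergence. -/
noncomputable def divE (X : ℂ → ℂ) (z : ℂ) : ℝ := (fderiv ℝ X z 1).re + (fderiv ℝ X z I).im

lemma continuous_divE {V : ℂ → ℂ} (hV : ContDiff ℝ 1 V) : Continuous (divE V) := by
  unfold divE
  have h := hV.continuous_fderiv one_ne_zero
  fun_prop

lemma integral_eta_div (hR : 0 ≤ D.R) {V : ℂ → ℂ} (hV : ContDiff ℝ 1 V) {k : ℝ} (hk : 0 ≤ k) :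
    ∫ z, eta D k z * divE V z = - ∫ z, fderiv ℝ (eta D k) z (V z) := by
  have hre : ContDiff ℝ 1 fun z => (V z).re := reCLM.contDiff.comp hV
  have him : ContDiff ℝ 1 fun z => (V z).im := imCLM.contDiff.comp hV
  have e1 : ∀ z, fderiv ℝ (fun z => (V z).re) z 1 = (fderiv ℝ V z 1).re := by
    intro z
    have := reCLM.hasFDerivAt.comp z (hV.differentiable one_ne_zero z).hasFDerivAt
    rw [show (fun z => (V z).re) = reCLM ∘ V from rfl, this.fderiv]
    simp
  have e2 : ∀ z, fderiv ℝ (fun z => (V z).im) z I = (fderiv ℝ V z I).im := by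
    intro z
    have := imCLM.hasFDerivAt.comp z (hV.differentiable one_ne_zero z).hasFDerivAt
    rw [show (fun z => (V z).im) = imCLM ∘ V from rfl, this.fderiv]
    simp
  have hη := contDiff_eta D k
  have hηc := hasCompactSupport_eta D hR hk
  have i1 := ibp hη hηc hre 1
  have i2 := ibp hη hηc him I
  have hd : Continuous fun z => fderiv ℝ (eta D k) z := hη.continuous_fderiv one_ne_zero
  have hdc : HasCompactSupport fun z => fderiv ℝ (eta D k) z := hηc.fderiv (𝕜 := ℝ)
  have hDV : Continuous fun z => fderiv ℝ V z := hV.continuous_fderiv one_ne_zero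
  have j1 : Integrable fun z => eta D k z * (fderiv ℝ V z 1).re :=
    (hη.continuous.mul (continuous_re.comp (hDV.clm_apply
      continuous_const))).integrable_of_hasCompactSupport hηc.mul_right
  have j2 : Integrable fun z => eta D k z * (fderiv ℝ V z I).im :=
    (hη.continuous.mul (continuous_im.comp (hDV.clm_apply
      continuous_const))).integrable_of_hasCompactSupport hηc.mul_right
  have j3 : Integrable fun z => fderiv ℝ (eta D k) z 1 * (V z).re :=
    ((hd.clm_apply continuous_const).mul (continuous_re.comp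
      hV.continuous)).integrable_of_hasCompactSupport
      (hasCompactSupport_fderiv_apply hηc 1).mul_right
  have j4 : Integrable fun z => fderiv ℝ (eta D k) z I * (V z).im :=
    ((hd.clm_apply continuous_const).mul (continuous_im.comp
      hV.continuous)).integrable_of_hasCompactSupport
      (hasCompactSupport_fderiv_apply hηc I).mul_right
  have e3 : ∀ z, fderiv ℝ (eta D k) z (V z) =
      fderiv ℝ (eta D k) z 1 * (V z).re + fderiv ℝ (eta D k) z I * (V z).im := by
    intro z
    set L := fderiv ℝ (eta D k) z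
    have hv : V z = (V z).re • (1:ℂ) + (V z).im • I := by apply Complex.ext <;> simp
    conv_lhs => rw [hv]
    rw [map_add, map_smul, map_smul, smul_eq_mul, smul_eq_mul]
    ring
  simp only [e3, divE, mul_add]
  rw [integral_add j1 j2, integral_add j3 j4, i1, i2]
  simp only [e1, e2]
  ring

lemma div_ineq_aux (hR : 0 < D.R) {V : ℂ → ℂ} (hV : ContDiff ℝ 1 V)
    (hb : ∀ j, ∀ z ∈ D.carrier, gg D j z = 0 → dot (gn D j z) (V z) ≤ 0) {δ : ℝ} (hδ : 0 < δ) :
    ∀ᶠ k : ℝ in atTop, -(4 * Real.pi * (n + 1) * δ) ≤ ∫ z, eta D k z * divE V z := by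
  classical
  have hk1 : ∀ᶠ k : ℝ in atTop, 1 ≤ k * D.R ^ 2 := by
    filter_upwards [eventually_ge_atTop (1 / D.R ^ 2)] with k hk
    rwa [div_le_iff₀ (by positivity)] at hk
  filter_upwards [eventually_collar D hR.le hV.continuous hb hδ, eventually_gt_atTop 0, hk1] with
    k hk hk0 hk1
  rw [integral_eta_div D hR.le hV hk0.le, neg_le_neg_iff]
  have hη := contDiff_eta D k
  have hηc := hasCompactSupport_eta D hR.le hk0.le
  have hle : ∀ z, fderiv ℝ (eta D k) z (V z) ≤
      ∑ j, (collar D k j).indicator (fun _ => 4 * k * δ) z := by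
    intro z
    rw [(hasFDerivAt_eta D k z).fderiv, sum_apply]
    refine Finset.sum_le_sum fun j _ => ?_
    rw [smul_apply, smul_apply, dotL_apply, smul_eq_mul, smul_eq_mul]
    set P := ∏ l ∈ Finset.univ.erase j, st (k * gg D l z) with hP
    have hP0 : 0 ≤ P := Finset.prod_nonneg fun _ _ => st_nonneg _
    have hP1 : P ≤ 1 := Finset.prod_le_one (fun _ _ => st_nonneg _) fun _ _ => st_le_one _
    have hind : 0 ≤ (collar D k j).indicator (fun _ => 4 * k * δ) z :=
      indicator_nonneg (fun _ _ => by positivity) _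
    by_cases hz : z ∈ D.inn
    · rcases lt_or_ge (k * gg D j z) 1 with h1 | h1
      · have hmem : z ∈ collar D k j := ⟨(mem_inn_iff D hR.le z).mp hz j, h1⟩
        rw [indicator_of_mem hmem]
        have h2 := hk j z (D.inn_subset hz) h1
        have h3 := st'_nonneg (k * gg D j z)
        have h4 := st'_le (k * gg D j z)
        have h5 : 0 ≤ P * (k * st' (k * gg D j z)) := mul_nonneg hP0 (mul_nonneg hk0.le h3)
        have h6 : P * (k * st' (k * gg D j z)) ≤ 4 * k := by
          calc P * (k * st' (k * gg D j z)) ≤ 1 * (k * 4) :=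
                mul_le_mul hP1 (mul_le_mul_of_nonneg_left h4 hk0.le) (mul_nonneg hk0.le h3) zero_le_one
            _ = 4 * k := by ring
        calc P * (k * st' (k * gg D j z) * dot (gn D j z) (V z))
            = P * (k * st' (k * gg D j z)) * dot (gn D j z) (V z) := by ring
          _ ≤ P * (k * st' (k * gg D j z)) * δ := mul_le_mul_of_nonneg_left h2 h5
          _ ≤ 4 * k * δ := mul_le_mul_of_nonneg_right h6 hδ.le
      · rw [st'_of_one_le h1]
        simpa using hind
    · rw [mem_inn_iff D hR.le] at hz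
      push Not at hz
      obtain ⟨l, hl⟩ := hz
      by_cases hlj : l = j
      · rw [← hlj, st'_of_nonpos (mul_nonpos_of_nonneg_of_nonpos hk0.le hl)]
        rw [hlj]
        simpa using hind
      · have : P = 0 := Finset.prod_eq_zero (Finset.mem_erase.mpr ⟨hlj, Finset.mem_univ l⟩)
          (st_of_nonpos (mul_nonpos_of_nonneg_of_nonpos hk0.le hl))
        rw [this, zero_mul]
        exact hind
  have hint : ∀ j, Integrable ((collar D k j).indicator fun _ => 4 * k * δ) := by
    intro j
    rw [integrable_indicator_iff (isOpen_collar D k j).measurableSet]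
    exact integrableOn_const (volume_collar_ne_top D hk0 hk1 j)
  have hint2 : Integrable fun z => fderiv ℝ (eta D k) z (V z) := by
    refine Continuous.integrable_of_hasCompactSupport
      ((hη.continuous_fderiv one_ne_zero).clm_apply hV.continuous) ?_
    refine HasCompactSupport.intro (K := tsupport (eta D k)) hηc fun z hz => ?_
    have : fderiv ℝ (eta D k) z = 0 := by
      by_contra hne
      exact hz (tsupport_fderiv_subset ℝ (subset_tsupport _ hne))
    simp [this]
  calc ∫ z, fderiv ℝ (eta D k) z (V z)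
      ≤ ∫ z, ∑ j, (collar D k j).indicator (fun _ => 4 * k * δ) z :=
        integral_mono hint2 (integrable_finsetSum _ fun j _ => hint j) hle
    _ = ∑ j, ∫ z, (collar D k j).indicator (fun _ => 4 * k * δ) z :=
        integral_finsetSum _ fun j _ => hint j
    _ = ∑ _j : Option (Fin n), 4 * Real.pi * δ := by
        refine Finset.sum_congr rfl fun j _ => ?_
        rw [integral_indicator_const _ (isOpen_collar D k j).measurableSet, smul_eq_mul]
        rw [← volume_collar D hk0 hk1 j]
        ring
    _ = 4 * Real.pi * (n + 1) * δ := by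
        simp
        ring

lemma tendsto_integral_eta (hR : 0 ≤ D.R) {f : ℂ → ℝ} (hf : Continuous f) :
    Tendsto (fun k : ℕ => ∫ z, eta D k z * f z) atTop (𝓝 (∫ z in D.carrier, f z)) := by
  have h1 : ∫ z in D.carrier, f z = ∫ z, D.inn.indicator f z := by
    rw [integral_indicator D.isOpen_inn.measurableSet]
    exact (setIntegral_congr_set D.ae_eq).symm
  rw [h1]
  have hint : IntegrableOn (fun z => |f z|) D.carrier :=
    hf.abs.continuousOn.integrableOn_compact D.isCompact
  refine tendsto_integral_of_dominated_convergence (D.carrier.indicator fun z => |f z|) ?_ ?_ ?_ ?_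
  · intro k
    exact ((contDiff_eta D k).continuous.mul hf).aestronglyMeasurable
  · exact (integrable_indicator_iff D.measurableSet).mpr hint
  · intro k
    refine Eventually.of_forall fun z => ?_
    by_cases hz : z ∈ D.inn
    · rw [indicator_of_mem (D.inn_subset hz), norm_mul, Real.norm_eq_abs, Real.norm_eq_abs,
        abs_of_nonneg (eta_nonneg D _ z)]
      exact mul_le_of_le_one_left (abs_nonneg _) (eta_le_one D _ z)
    · rw [eta_eq_zero D hR k.cast_nonneg hz, zero_mul, norm_zero]
      exact indicator_nonneg (fun _ _ => abs_nonneg _) _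
  · refine Eventually.of_forall fun z => ?_
    by_cases hz : z ∈ D.inn
    · rw [indicator_of_mem hz]
      have h2 : ∀ᶠ k : ℕ in atTop, ∀ j, 1 ≤ (k : ℝ) * gg D j z := by
        refine eventually_all.mpr fun j => ?_
        have hg := (mem_inn_iff D hR z).mp hz j
        have h3 : ∀ᶠ k : ℝ in atTop, 1 ≤ k * gg D j z := by
          filter_upwards [eventually_ge_atTop (1 / gg D j z)] with k hk
          rwa [div_le_iff₀ hg] at hk
        exact tendsto_natCast_atTop_atTop.eventually h3
      refine tendsto_const_nhds.congr' ?_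
      filter_upwards [h2] with k hk
      have : eta D k z = 1 := Finset.prod_eq_one fun j _ => st_of_one_le (hk j)
      rw [this, one_mul]
    · rw [indicator_of_notMem hz]
      refine tendsto_const_nhds.congr fun k => ?_
      rw [eta_eq_zero D hR k.cast_nonneg hz, zero_mul]

/-- **The divergence inequality** for a vector field defined on the plane. -/
lemma div_ineq_global (hR : 0 < D.R) {V : ℂ → ℂ} (hV : ContDiff ℝ 1 V)
    (hb : ∀ j, ∀ z ∈ D.carrier, gg D j z = 0 → dot (gn D j z) (V z) ≤ 0) :
    0 ≤ ∫ z in D.carrier, divE V z := by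
  have h1 := tendsto_integral_eta D hR.le (continuous_divE hV)
  by_contra hneg
  push Not at hneg
  set J := ∫ z in D.carrier, divE V z with hJ
  have hc : 0 < 4 * Real.pi * (n + 1) := by positivity
  have hδ : 0 < -J / (2 * (4 * Real.pi * (n + 1))) := div_pos (by linarith) (by linarith)
  have h2 := tendsto_natCast_atTop_atTop.eventually (div_ineq_aux D hR hV hb hδ)
  have h3 := ge_of_tendsto h1 h2
  have h4 : 4 * Real.pi * (n + 1) * (-J / (2 * (4 * Real.pi * (n + 1)))) = -J / 2 := by
    field_simp
  rw [h4] at h3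
  linarith

/-- boundary values of the gradients of the defining functions -/
lemma bd_cond {V : ℂ → ℂ} (hR : 0 ≤ D.R) (ho : ∀ z, ‖z‖ = D.R → 0 ≤ dot (V z) z)
    (hi : ∀ i z, ‖z - D.a i‖ = D.r i → dot (V z) (z - D.a i) ≤ 0) :
    ∀ j, ∀ z, gg D j z = 0 → dot (gn D j z) (V z) ≤ 0 := by
  intro j z hz
  cases j with
  | none =>
    simp only [gg, normSq_eq] at hz
    have h1 : ‖z‖ = D.R := by
      have h2 : ‖z‖ ^ 2 = D.R ^ 2 := by linarith
      exact (pow_left_inj₀ (norm_nonneg _) hR two_ne_zero).mp h2
    have h2 := ho z h1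
    simp only [gn, dot] at h2 ⊢
    simp only [mul_re, mul_im, neg_re, neg_im, re_ofNat, im_ofNat]
    linarith
  | some i =>
    simp only [gg, normSq_eq] at hz
    have h1 : ‖z - D.a i‖ = D.r i := by
      have h2 : ‖z - D.a i‖ ^ 2 = D.r i ^ 2 := by linarith
      exact (pow_left_inj₀ (norm_nonneg _) (D.r_pos i).le two_ne_zero).mp h2
    have h2 := hi i z h1
    simp only [gn, dot] at h2 ⊢
    simp only [mul_re, mul_im, re_ofNat, im_ofNat]
    linarith

/-- **The divergence inequality**. -/
theorem div_ineq (hR : 0 < D.R) {U : Set ℂ} (hU : IsOpen U) (hDU : D.carrier ⊆ U) {V : ℂ → ℂ}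
    (hV : ContDiffOn ℝ 1 V U) (ho : ∀ z, ‖z‖ = D.R → 0 ≤ dot (V z) z)
    (hi : ∀ i z, ‖z - D.a i‖ = D.r i → dot (V z) (z - D.a i) ≤ 0) :
    0 ≤ ∫ z in D.carrier, divE V z := by
  obtain ⟨η, hη, hηc, hηU, hη1, -⟩ := exists_cut D.isCompact hU hDU
  have hη' : ContDiff ℝ 1 η := hη.of_le (by simp)
  set W : ℂ → ℂ := fun z => (η z : ℂ) * V z with hW
  have hre : ContDiff ℝ 1 fun z => η z * (V z).re :=
    contDiff_mul_loc hU hη' hηU (reCLM.contDiff.comp_contDiffOn hV)
  have him : ContDiff ℝ 1 fun z => η z * (V z).im :=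
    contDiff_mul_loc hU hη' hηU (imCLM.contDiff.comp_contDiffOn hV)
  have hWc : ContDiff ℝ 1 W := by
    have e : W = fun z => ((η z * (V z).re : ℝ) : ℂ) + ((η z * (V z).im : ℝ) : ℂ) * I := by
      ext1 z
      apply Complex.ext <;> simp [hW]
    rw [e]
    exact (ofRealCLM.contDiff.comp hre).add ((ofRealCLM.contDiff.comp him).mul contDiff_const)
  have hEq : ∀ z ∈ D.carrier, W =ᶠ[𝓝 z] V := by
    intro z hz
    filter_upwards [(eventually_nhdsSet_iff_forall.mp hη1) z hz] with w hw
    simp [hW, hw]
  have h1 : ∫ z in D.carrier, divE V z = ∫ z in D.carrier, divE W z := by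
    refine setIntegral_congr_fun D.measurableSet fun z hz => ?_
    simp only [divE]
    rw [(hEq z hz).fderiv_eq]
  rw [h1]
  refine div_ineq_global D hR hWc fun j z hz h0 => ?_
  rw [(hEq z hz).self_of_nhds]
  exact bd_cond D hR.le ho hi j z h0

/-- **The divergence theorem** for vector fields tangent to the boundary. -/
theorem div_zero (hR : 0 < D.R) {U : Set ℂ} (hU : IsOpen U) (hDU : D.carrier ⊆ U) {V : ℂ → ℂ}
    (hV : ContDiffOn ℝ 1 V U) (ho : ∀ z, ‖z‖ = D.R → dot (V z) z = 0)
    (hi : ∀ i z, ‖z - D.a i‖ = D.r i → dot (V z) (z - D.a i) = 0) :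
    ∫ z in D.carrier, divE V z = 0 := by
  refine le_antisymm ?_ (div_ineq D hR hU hDU hV (fun z hz => (ho z hz).ge)
    fun i z hz => (hi i z hz).le)
  have h1 := div_ineq D hR hU hDU hV.neg (fun z hz => ?_) fun i z hz => ?_
  · have e : ∀ z, divE (-V) z = - divE V z := by
      intro z
      simp only [divE, fderiv_neg, neg_apply, neg_re, neg_im]
      ring
    have h2 : ∫ z in D.carrier, divE (-V) z = - ∫ z in D.carrier, divE V z := by
      rw [← integral_neg]
      simp only [e]
    have h3 : (fun x => -V x) = -V := rfl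
    rw [h3, h2] at h1
    linarith
  · have h2 := ho z hz
    simp only [dot, neg_re, neg_im] at h2 ⊢
    linarith
  · have h2 := hi i z hz
    simp only [dot, neg_re, neg_im] at h2 ⊢
    linarith

end Pool.Agent.CG
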