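import Mathlib

/-!
# Functions on `ℝ × ℂ`: partial derivatives and parametric integrals (global version)
-/

set_option autoImplicit false

open MeasureTheory Filter Topology Complex Set
open scoped ContDiff Interval

namespace Pool.Agent.CG

section

variable {E : Type*} [NormedAddCommGroup E] [NormedSpace ℝ E]
variable {X : Type*} [NormedAddCommGroup X] [NormedSpace ℝ X]

/-- joint continuity -/
def GC {E : Type*} [TopologicalSpace E] {X : Type*} [TopologicalSpace X] (g : ℝ → X → E) : Prop :=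
  Continuous fun q : ℝ × X => g q.1 q.2

/-- joint `C¹` -/
def G1 (g : ℝ → X → E) : Prop := ContDiff ℝ 1 fun q : ℝ × X => g q.1 q.2

lemma GC.slice {E : Type*} [TopologicalSpace E] {X : Type*} [TopologicalSpace X] {g : ℝ → X → E}
    (hg : GC g) (t : ℝ) : Continuous (g t) :=
  Continuous.comp (g := fun q : ℝ × X => g q.1 q.2) hg (continuous_const.prodMk continuous_id)

lemma GC.slice_t {E : Type*} [TopologicalSpace E] {X : Type*} [TopologicalSpace X] {g : ℝ → X → E}
    (hg : GC g) (z : X) : Continuous fun t => g t z :=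
  Continuous.comp (g := fun q : ℝ × X => g q.1 q.2) hg (continuous_id.prodMk continuous_const)

lemma G1.gc {g : ℝ → X → E} (hg : G1 g) : GC g := ContDiff.continuous hg

lemma G1.slice {g : ℝ → X → E} (hg : G1 g) (t : ℝ) : ContDiff ℝ 1 (g t) :=
  ContDiff.comp (g := fun q : ℝ × X => g q.1 q.2) hg (contDiff_const.prodMk contDiff_id)

lemma G1.hasFDerivAt' {g : ℝ → X → E} (hg : G1 g) (t : ℝ) (z : X) :
    HasFDerivAt (g t) ((fderiv ℝ (fun q : ℝ × X => g q.1 q.2) (t, z)).comp
      (ContinuousLinearMap.inr ℝ ℝ X)) z := by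
  have h1 := (ContDiff.differentiable hg one_ne_zero (t, z)).hasFDerivAt
  have h2 : HasFDerivAt (fun w : X => (t, w)) (ContinuousLinearMap.inr ℝ ℝ X) z :=
    hasFDerivAt_prodMk_right t z
  exact h1.comp z h2

lemma G1.hasDerivAt' {g : ℝ → X → E} (hg : G1 g) (t : ℝ) (z : X) :
    HasDerivAt (fun s => g s z) ((fderiv ℝ (fun q : ℝ × X => g q.1 q.2) (t, z)) (1, 0)) t := by
  have h1 := (ContDiff.differentiable hg one_ne_zero (t, z)).hasFDerivAt
  have h2 : HasDerivAt (fun s : ℝ => (s, z)) ((1 : ℝ), (0 : X)) t :=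
    (hasDerivAt_id t).prodMk (hasDerivAt_const t z)
  exact h1.comp_hasDerivAt t h2

lemma G1.hasFDerivAt {g : ℝ → X → E} (hg : G1 g) (t : ℝ) (z : X) :
    HasFDerivAt (g t) (fderiv ℝ (g t) z) z :=
  (hg.hasFDerivAt' t z).differentiableAt.hasFDerivAt

lemma G1.hasDerivAt {g : ℝ → X → E} (hg : G1 g) (t : ℝ) (z : X) :
    HasDerivAt (fun s => g s z) (deriv (fun s => g s z) t) t :=
  (hg.hasDerivAt' t z).differentiableAt.hasDerivAt

lemma G1.gc_fderiv {g : ℝ → X → E} (hg : G1 g) : GC (fun t z => fderiv ℝ (g t) z) := by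
  have h1 : Continuous (fun q : ℝ × X => (fderiv ℝ (fun q : ℝ × X => g q.1 q.2) q).comp
      (ContinuousLinearMap.inr ℝ ℝ X)) :=
    (ContDiff.continuous_fderiv hg one_ne_zero).clm_comp continuous_const
  refine h1.congr fun q => ?_
  exact ((hg.hasFDerivAt' q.1 q.2).fderiv).symm

lemma G1.gc_deriv {g : ℝ → X → E} (hg : G1 g) : GC (fun t z => deriv (fun s => g s z) t) := by
  have h1 : Continuous (fun q : ℝ × X => (fderiv ℝ (fun q : ℝ × X => g q.1 q.2) q) (1, 0)) :=
    (ContDiff.continuous_fderiv hg one_ne_zero).clm_apply continuous_const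
  refine h1.congr fun q => ?_
  exact ((hg.hasDerivAt' q.1 q.2).deriv).symm

/-- chain rule along a curve -/
lemma G1.hasDerivAt_curve {g : ℝ → X → E} (hg : G1 g) {c : ℝ → X} {c' : X} {t : ℝ}
    (hc : HasDerivAt c c' t) :
    HasDerivAt (fun s => g s (c s)) (deriv (fun s => g s (c t)) t + fderiv ℝ (g t) (c t) c') t := by
  have h1 := (ContDiff.differentiable hg one_ne_zero (t, c t)).hasFDerivAt
  have h2 : HasDerivAt (fun s : ℝ => (s, c s)) ((1 : ℝ), c') t := (hasDerivAt_id t).prodMk hc
  have h3 := h1.comp_hasDerivAt t h2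
  refine h3.congr_deriv ?_
  rw [(hg.hasDerivAt' t (c t)).deriv, (hg.hasFDerivAt' t (c t)).fderiv,
    ContinuousLinearMap.comp_apply, ← map_add]
  simp

end

section integral

variable {E : Type*} [NormedAddCommGroup E] [NormedSpace ℝ E]
variable {X : Type*} [NormedAddCommGroup X] [NormedSpace ℝ X] [ProperSpace X]

omit [NormedSpace ℝ E] [NormedSpace ℝ X] in
lemma GC.exists_bound {g : ℝ → X → E} (hg : GC g) (a b : ℝ) (z₀ : X) :
    ∃ V ∈ 𝓝 z₀, ∃ C : ℝ, ∀ t ∈ uIcc a b, ∀ z ∈ V, ‖g t z‖ ≤ C := by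
  obtain ⟨C, hC⟩ := (isCompact_uIcc.prod (isCompact_closedBall z₀ 1)).exists_bound_of_continuousOn
    (f := fun q : ℝ × X => g q.1 q.2) (Continuous.continuousOn hg)
  exact ⟨_, Metric.closedBall_mem_nhds z₀ one_pos, C, fun t ht z hz => hC (t, z) ⟨ht, hz⟩⟩

lemma hasFDerivAt_parG {g : ℝ → X → E} {g' : ℝ → X → X →L[ℝ] E}
    (hg : GC g) (hg' : GC g') (hd : ∀ t, ∀ z, HasFDerivAt (g t) (g' t z) z) (a b : ℝ) (z₀ : X) :
    HasFDerivAt (fun z => ∫ s in a..b, g s z) (∫ s in a..b, g' s z₀) z₀ := by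
  obtain ⟨V, hV, C, hC⟩ := hg'.exists_bound a b z₀
  refine intervalIntegral.hasFDerivAt_integral_of_dominated_of_fderiv_le
    (F := fun z s => g s z) (F' := fun z s => g' s z) (bound := fun _ => C) hV ?_ ?_ ?_ ?_ ?_ ?_
  · exact Eventually.of_forall fun z => (hg.slice_t z).aestronglyMeasurable
  · exact (hg.slice_t z₀).intervalIntegrable _ _
  · exact (hg'.slice_t z₀).aestronglyMeasurable
  · exact Eventually.of_forall fun t ht z hz => hC t (uIoc_subset_uIcc ht) z hz
  · exact intervalIntegrable_const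
  · exact Eventually.of_forall fun t _ z _ => hd t z

omit [NormedSpace ℝ X] in
lemma GC.continuous_integral {g : ℝ → X → E} (hg : GC g) (a b : ℝ) :
    Continuous fun z => ∫ s in a..b, g s z := by
  rw [continuous_iff_continuousAt]
  intro z₀
  obtain ⟨V, hV, C, hC⟩ := hg.exists_bound a b z₀
  refine intervalIntegral.continuousAt_of_dominated_interval (bound := fun _ => C) ?_ ?_ ?_ ?_
  · exact Eventually.of_forall fun z => (hg.slice_t z).aestronglyMeasurable
  · filter_upwards [hV] with z hz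
    exact Eventually.of_forall fun t ht => hC t (uIoc_subset_uIcc ht) z hz
  · exact intervalIntegrable_const
  · exact Eventually.of_forall fun t _ => (hg.slice t).continuousAt

lemma contDiff_parG {g : ℝ → X → E} {g' : ℝ → X → X →L[ℝ] E}
    (hg : GC g) (hg' : GC g') (hd : ∀ t, ∀ z, HasFDerivAt (g t) (g' t z) z) (a b : ℝ) :
    ContDiff ℝ 1 (fun z => ∫ s in a..b, g s z) := by
  rw [contDiff_one_iff_fderiv]
  refine ⟨fun z => (hasFDerivAt_parG hg hg' hd a b z).differentiableAt, ?_⟩
  refine (hg'.continuous_integral a b).congr fun z => ?_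
  exact ((hasFDerivAt_parG hg hg' hd a b z).fderiv).symm

end integral

section integral'

variable {E : Type*} [NormedAddCommGroup E] [NormedSpace ℝ E]

lemma GC.continuous_setIntegral {g : ℝ → ℂ → E} (hg : GC g) {K : Set ℂ} (hK : IsCompact K) :
    Continuous fun t => ∫ z in K, g t z :=
  continuous_parametric_integral_of_continuous (μ := (volume : Measure ℂ))
    (f := fun (t : ℝ) (z : ℂ) => g t z) hg hK

/-- Fubini on a compact set. -/
lemma GC.fubini {g : ℝ → ℂ → E} (hg : GC g) {K : Set ℂ} (hK : IsCompact K) (a b : ℝ) :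
    ∫ z in K, ∫ t in a..b, g t z = ∫ t in a..b, ∫ z in K, g t z := by
  have hint : Integrable (Function.uncurry fun (t : ℝ) (z : ℂ) => g t z)
      ((volume.restrict (Ι a b)).prod (volume.restrict K)) := by
    have h1 : IntegrableOn (fun q : ℝ × ℂ => g q.1 q.2) ((uIcc a b) ×ˢ K)
        ((volume : Measure ℝ).prod (volume : Measure ℂ)) :=
      (Continuous.continuousOn hg).integrableOn_compact (isCompact_uIcc.prod hK)
    have h2 : IntegrableOn (fun q : ℝ × ℂ => g q.1 q.2) ((Ι a b) ×ˢ K)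
        ((volume : Measure ℝ).prod (volume : Measure ℂ)) :=
      h1.mono_set (prod_mono uIoc_subset_uIcc (subset_refl _))
    rw [IntegrableOn, ← Measure.prod_restrict] at h2
    exact h2
  exact (intervalIntegral_integral_swap hint).symm

end integral'

/-- Derivative of a parametric integral, real parameter. -/
lemma hasDerivAt_parR {g g' : ℝ → ℝ → ℝ} (hg : GC g) (hg' : GC g')
    (hd : ∀ s t, HasDerivAt (g s) (g' s t) t) (a b t₀ : ℝ) :
    HasDerivAt (fun t => ∫ s in a..b, g s t) (∫ s in a..b, g' s t₀) t₀ := by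
  obtain ⟨V, hV, C, hC⟩ := hg'.exists_bound a b t₀
  refine (intervalIntegral.hasDerivAt_integral_of_dominated_loc_of_deriv_le
    (F := fun t s => g s t) (F' := fun t s => g' s t) (bound := fun _ => C) hV
    ?_ ?_ ?_ ?_ ?_ ?_).2
  · exact Eventually.of_forall fun z => (hg.slice_t z).aestronglyMeasurable
  · exact (hg.slice_t t₀).intervalIntegrable _ _
  · exact (hg'.slice_t t₀).aestronglyMeasurable
  · exact Eventually.of_forall fun t ht z hz => hC t (uIoc_subset_uIcc ht) z hz
  · exact intervalIntegrable_const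
  · exact Eventually.of_forall fun t _ z _ => hd t z

/-- Chain rule for a function of two variables with continuous partial derivatives. -/
lemma hasDerivAt_two {Φ A B : ℝ → ℝ → ℝ} (hA : GC A) (hB : GC B)
    (dA : ∀ t b, HasDerivAt (fun t => Φ t b) (A t b) t)
    (dB : ∀ t b, HasDerivAt (fun b => Φ t b) (B t b) b) {β : ℝ → ℝ} {β' t : ℝ}
    (hβ : HasDerivAt β β' t) :
    HasDerivAt (fun t => Φ t (β t)) (A t (β t) + B t (β t) * β') t := by
  have hc : Continuous (fun x : ℝ => ContinuousLinearMap.toSpanSingleton ℝ x) :=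
    (ContinuousLinearMap.toSpanSingletonCLE (𝕜 := ℝ) (E := ℝ)).continuous
  have hA' : Continuous fun q : ℝ × ℝ => A q.1 q.2 := hA
  have hB' : Continuous fun q : ℝ × ℝ => B q.1 q.2 := hB
  have key := hasStrictFDerivAt_uncurry_coprod (𝕜 := ℝ) (u := (t, β t)) (f := Φ)
    (f₁ := fun t b => ContinuousLinearMap.toSpanSingleton ℝ (A t b))
    (f₂ := fun t b => ContinuousLinearMap.toSpanSingleton ℝ (B t b))
    (Eventually.of_forall fun v => (dA v.1 v.2).hasFDerivAt)
    (Eventually.of_forall fun v => (dB v.1 v.2).hasFDerivAt)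
    (hc.comp hA').continuousAt (hc.comp hB').continuousAt
  have h3 : HasDerivAt (fun t => (t, β t)) ((1 : ℝ), β') t := (hasDerivAt_id t).prodMk hβ
  have h4 := key.hasFDerivAt.comp_hasDerivAt t h3
  refine h4.congr_deriv ?_
  simp [Function.HasUncurry.uncurry]
  ring

end Pool.Agent.CG
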