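import Pool.Agent.Lib.MP_35454f.PDiv
import Pool.Agent.Lib.MP_35454f.PPar

/-!
# Flows on a circular domain: boundary circles and winding numbers
-/

set_option autoImplicit false

open MeasureTheory Filter Topology Complex Set Metric
open scoped ContDiff Interval

namespace Pool.Agent.CG

variable {n : ℕ}

/-- The data of a geodesic. -/
structure PMot (D : CircularDomain n) (σ : ℂ → ℝ) (u : ℝ → ℂ → ℂ) (p : ℝ → ℂ → ℝ)
    (φ : ℝ → ℂ → ℂ) : Prop where
  eul : IsEulerFlow D σ u p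
  met : IsMetric D σ
  start : ∀ z ∈ D.carrier, φ 0 z = z
  bijOn : ∀ t, BijOn (φ t) D.carrier D.carrier
  c1φ : G1 φ
  area : ∀ t, ∀ z ∈ D.carrier, (fderiv ℝ (φ t) z).det * σ (φ t z) = σ z
  ode : ∀ t, ∀ z ∈ D.carrier, HasDerivAt (fun s => φ s z) (u t (φ t z)) t

/-- The boundary circles. -/
def IsCircle (D : CircularDomain n) (c : ℂ) (ρ : ℝ) : Prop :=
  (c = 0 ∧ ρ = D.R) ∨ ∃ i, c = D.a i ∧ ρ = D.r i

variable {D : CircularDomain n} {σ : ℂ → ℝ} {u : ℝ → ℂ → ℂ} {p : ℝ → ℂ → ℝ} {φ : ℝ → ℂ → ℂ}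

lemma IsCircle.pos {c : ℂ} {ρ : ℝ} (h : IsCircle D c ρ) (hR : 0 < D.R) : 0 < ρ := by
  rcases h with ⟨-, rfl⟩ | ⟨i, -, rfl⟩
  · exact hR
  · exact D.r_pos i

lemma IsCircle.mem {c : ℂ} {ρ : ℝ} (h : IsCircle D c ρ) {z : ℂ} (hz : ‖z - c‖ = ρ) :
    z ∈ D.carrier := by
  rcases h with ⟨rfl, rfl⟩ | ⟨i, rfl, rfl⟩
  · exact D.outer_mem (by simpa using hz)
  · exact D.inner_mem hz

lemma IsCircle.tangent {c : ℂ} {ρ : ℝ} (h : IsCircle D c ρ) (hu : IsEulerFlow D σ u p) (t : ℝ)
    {z : ℂ} (hz : ‖z - c‖ = ρ) : dot (u t z) (z - c) = 0 := by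
  rcases h with ⟨rfl, rfl⟩ | ⟨i, rfl, rfl⟩
  · simpa using hu.tangent_outer t z (by simpa using hz)
  · exact hu.tangent_inner t i z hz

lemma abs_dot_le (z w : ℂ) : |dot z w| ≤ ‖z‖ * ‖w‖ := by
  have h1 : dot z w = (starRingEnd ℂ z * w).re := by simp [dot]
  rw [h1]
  refine (abs_re_le_norm _).trans ?_
  rw [norm_mul, RCLike.norm_conj]

lemma dot_self (z : ℂ) : dot z z = ‖z‖ ^ 2 := by
  rw [← normSq_eq_norm_sq, normSq_apply, dot]

lemma dot_sub_left (a b c : ℂ) : dot (a - b) c = dot a c - dot b c := by simp [dot]; ring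
lemma dot_add_left (a b c : ℂ) : dot (a + b) c = dot a c + dot b c := by simp [dot]; ring
lemma dot_smul_right (s : ℝ) (a c : ℂ) : dot a ((s : ℂ) * c) = s * dot a c := by simp [dot]; ring
lemma dot_smul_left (s : ℝ) (a c : ℂ) : dot ((s : ℂ) * a) c = s * dot a c := by simp [dot]; ring
lemma dot_neg_left (a c : ℂ) : dot (-a) c = -dot a c := by simp [dot]; ring
lemma dot_zero_left (c : ℂ) : dot 0 c = 0 := by simp [dot]
lemma dot_zero_right (c : ℂ) : dot c 0 = 0 := by simp [dot]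

namespace PMot

lemma G1u (h : PMot D σ u p φ) : G1 u := h.eul.contDiff

lemma exists_lip (h : PMot D σ u p φ) (T : ℝ) : ∃ L : ℝ, 0 ≤ L ∧ ∀ t ∈ uIcc 0 T,
    ∀ z ∈ closedBall (0:ℂ) D.R, ∀ w ∈ closedBall (0:ℂ) D.R, ‖u t z - u t w‖ ≤ L * ‖z - w‖ := by
  obtain ⟨C, hC⟩ := (isCompact_uIcc.prod (isCompact_closedBall (0:ℂ) D.R)).exists_bound_of_continuousOn
    (f := fun q : ℝ × ℂ => fderiv ℝ (u q.1) q.2) (Continuous.continuousOn h.G1u.gc_fderiv)
  refine ⟨max C 0, le_max_right _ _, fun t ht z hz w hw => ?_⟩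
  exact (convex_closedBall (0:ℂ) D.R).norm_image_sub_le_of_norm_fderiv_le (𝕜 := ℝ)
    (fun x _ => (h.G1u.hasFDerivAt t x).differentiableAt)
    (fun x hx => (hC (t, x) ⟨ht, hx⟩).trans (le_max_left _ _)) hw hz

lemma mem (h : PMot D σ u p φ) (t : ℝ) {z : ℂ} (hz : z ∈ D.carrier) : φ t z ∈ D.carrier :=
  (h.bijOn t).mapsTo hz

lemma hasDerivAt_sq (h : PMot D σ u p φ) (c : ℂ) (ρ t : ℝ) {z : ℂ} (hz : z ∈ D.carrier) :
    HasDerivAt (fun s => normSq (φ s z - c) - ρ ^ 2) (2 * dot (u t (φ t z)) (φ t z - c)) t := by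
  have h1 := (hasFDerivAt_normSq (φ t z - c)).comp_hasDerivAt t ((h.ode t z hz).sub_const c)
  refine (h1.sub_const (ρ ^ 2)).congr_deriv ?_
  rw [dotL_apply]
  simp [dot]
  ring

lemma circle_key (h : PMot D σ u p φ) (hR : 0 < D.R) {c : ℂ} {ρ : ℝ} (hc : IsCircle D c ρ)
    {z : ℂ} (hz : z ∈ D.carrier) (t : ℝ) : ∃ L : ℝ, 0 ≤ L ∧ ∀ s ∈ uIcc (0:ℝ) t,
      ‖2 * dot (u s (φ s z)) (φ s z - c)‖ ≤ (2 * L) * ‖normSq (φ s z - c) - ρ ^ 2‖ + 0 := by
  have hρ := hc.pos hR
  obtain ⟨L, hL0, hL⟩ := h.exists_lip t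
  refine ⟨L, hL0, fun s hs => ?_⟩
  set y := φ s z with hy
  set w := y - c with hw
  have hyM : y ∈ D.carrier := h.mem s hz
  by_cases hw0 : w = 0
  · rw [hw0, dot_zero_right, mul_zero, norm_zero]
    positivity
  have hwn : 0 < ‖w‖ := norm_pos_iff.mpr hw0
  set y' : ℂ := c + ((ρ / ‖w‖ : ℝ) : ℂ) * w with hy'
  have hy'c : ‖y' - c‖ = ρ := by
    rw [hy', add_sub_cancel_left, norm_mul, norm_real, Real.norm_eq_abs,
      abs_of_pos (div_pos hρ hwn)]
    field_simp
  have h1 : dot (u s y') (y' - c) = 0 := hc.tangent h.eul s hy'c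
  have h2 : dot (u s y') w = 0 := by
    rw [hy', add_sub_cancel_left, dot_smul_right] at h1
    rcases mul_eq_zero.mp h1 with h3 | h3
    · exact absurd h3 (div_pos hρ hwn).ne'
    · exact h3
  have h3 : dot (u s y) w = dot (u s y - u s y') w := by rw [dot_sub_left, h2, sub_zero]
  have hyy : ‖y - y'‖ = |‖w‖ - ρ| := by
    have e : y - y' = ((1 - ρ / ‖w‖ : ℝ) : ℂ) * w := by
      rw [hy', hw]; push_cast; ring
    rw [e, norm_mul, norm_real, Real.norm_eq_abs]
    rw [show ‖w‖ - ρ = (1 - ρ / ‖w‖) * ‖w‖ by field_simp, abs_mul, abs_of_pos hwn]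
  have hlip := hL s hs y (by simpa using hyM.1) y' (by simpa using (hc.mem hy'c).1)
  rw [hyy] at hlip
  have h4 : |dot (u s y) w| ≤ L * |‖w‖ - ρ| * ‖w‖ := by
    rw [h3]
    exact (abs_dot_le _ _).trans (mul_le_mul_of_nonneg_right hlip (norm_nonneg _))
  have h5 : |normSq w - ρ ^ 2| = |‖w‖ - ρ| * (‖w‖ + ρ) := by
    rw [normSq_eq_norm_sq, show ‖w‖ ^ 2 - ρ ^ 2 = (‖w‖ - ρ) * (‖w‖ + ρ) by ring, abs_mul,
      abs_of_pos (a := ‖w‖ + ρ) (by linarith)]
  rw [Real.norm_eq_abs, Real.norm_eq_abs, abs_mul, abs_two, h5, add_zero]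
  have h6 : 0 ≤ L * |‖w‖ - ρ| := mul_nonneg hL0 (abs_nonneg _)
  nlinarith

/-- The boundary circles are invariant. -/
lemma circle_inv (h : PMot D σ u p φ) (hR : 0 < D.R) {c : ℂ} {ρ : ℝ} (hc : IsCircle D c ρ)
    {z : ℂ} (hz : ‖z - c‖ = ρ) (t : ℝ) : ‖φ t z - c‖ = ρ := by
  have hρ := hc.pos hR
  have hzM := hc.mem hz
  obtain ⟨L, hL0, hL⟩ := h.circle_key hR hc hzM t
  have h0 : ‖normSq (φ 0 z - c) - ρ ^ 2‖ ≤ 0 := by
    rw [h.start z hzM, normSq_eq_norm_sq, hz]; simp
  have h2 : normSq (φ t z - c) - ρ ^ 2 = 0 := by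
    rcases le_total 0 t with ht | ht
    · have hG := norm_le_gronwallBound_of_norm_deriv_right_le
        (f := fun s => normSq (φ s z - c) - ρ ^ 2) (a := 0) (b := t)
        (fun s _ => (h.hasDerivAt_sq c ρ s hzM).continuousAt.continuousWithinAt)
        (fun s _ => (h.hasDerivAt_sq c ρ s hzM).hasDerivWithinAt) h0
        (fun s hs => hL s (by rw [uIcc_of_le ht]; exact ⟨hs.1, hs.2.le⟩)) t ⟨ht, le_rfl⟩
      rw [gronwallBound_ε0_δ0] at hG
      exact norm_le_zero_iff.mp hG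
    · have hd : ∀ s, HasDerivAt (fun s => normSq (φ (-s) z - c) - ρ ^ 2)
          (-(2 * dot (u (-s) (φ (-s) z)) (φ (-s) z - c))) s := by
        intro s
        have h7 : HasDerivAt (fun s => normSq (φ (-s) z - c) - ρ ^ 2)
            ((-1 : ℝ) • (2 * dot (u (-s) (φ (-s) z)) (φ (-s) z - c))) s :=
          (h.hasDerivAt_sq c ρ (-s) hzM).scomp s (hasDerivAt_neg s)
        refine h7.congr_deriv ?_
        rw [smul_eq_mul, neg_one_mul]
      have hG := norm_le_gronwallBound_of_norm_deriv_right_le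
        (f := fun s => normSq (φ (-s) z - c) - ρ ^ 2) (a := 0) (b := -t) (K := 2 * L) (ε := 0)
        (δ := 0)
        (fun s _ => (hd s).continuousAt.continuousWithinAt)
        (fun s _ => (hd s).hasDerivWithinAt) (by rw [neg_zero]; exact h0)
        (fun s hs => by
          rw [norm_neg]
          exact hL (-s) (by rw [uIcc_of_ge ht]; constructor <;> linarith [hs.1, hs.2])) (-t)
          ⟨by linarith, le_rfl⟩
      rw [gronwallBound_ε0_δ0, neg_neg] at hG
      exact norm_le_zero_iff.mp hG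
  rw [normSq_eq_norm_sq] at h2
  exact (pow_left_inj₀ (norm_nonneg _) hρ.le two_ne_zero).mp (by linarith)

/-! ### winding numbers -/

/-- The logarithmic derivative along the orbit. -/
noncomputable def wind (u : ℝ → ℂ → ℂ) (φ : ℝ → ℂ → ℂ) (c : ℂ) (T : ℝ) (z : ℂ) : ℂ :=
  ∫ t in (0:ℝ)..T, u t (φ t z) / (φ t z - c)

lemma continuous_u (h : PMot D σ u p φ) (z : ℂ) : Continuous fun t => u t (φ t z) :=
  Continuous.comp (g := fun q : ℝ × ℂ => u q.1 q.2) h.G1u.gc
    (continuous_id.prodMk (h.c1φ.gc.slice_t z))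

lemma continuous_wint (h : PMot D σ u p φ) {c z : ℂ} (hc : ∀ t, φ t z ≠ c) :
    Continuous fun t => u t (φ t z) / (φ t z - c) :=
  (h.continuous_u z).div ((h.c1φ.gc.slice_t z).sub continuous_const)
    fun t => sub_ne_zero.mpr (hc t)

lemma hasDerivAt_wind (h : PMot D σ u p φ) {c z : ℂ} (hc : ∀ t, φ t z ≠ c) (t : ℝ) :
    HasDerivAt (fun T => wind u φ c T z) (u t (φ t z) / (φ t z - c)) t :=
  intervalIntegral.integral_hasDerivAt_right ((h.continuous_wint hc).intervalIntegrable _ _)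
    ((h.continuous_wint hc).stronglyMeasurableAtFilter _ _) (h.continuous_wint hc).continuousAt

lemma exp_wind (h : PMot D σ u p φ) {c z : ℂ} (hz : z ∈ D.carrier) (hc : ∀ t, φ t z ≠ c) (t : ℝ) :
    φ t z - c = (z - c) * exp (wind u φ c t z) := by
  have h1 : ∀ s, HasDerivAt (fun s => (φ s z - c) * exp (-wind u φ c s z)) 0 s := by
    intro s
    have h2 := ((h.ode s z hz).sub_const c).mul ((h.hasDerivAt_wind hc s).neg.cexp)
    refine h2.congr_deriv ?_
    have h3 : φ s z - c ≠ 0 := sub_ne_zero.mpr (hc s)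
    field_simp
    ring
  have h4 : (φ t z - c) * exp (-wind u φ c t z) = (φ 0 z - c) * exp (-wind u φ c 0 z) :=
    is_const_of_deriv_eq_zero (fun s => (h1 s).differentiableAt) (fun s => (h1 s).deriv) t 0
  have h5 : wind u φ c 0 z = 0 := by simp [wind]
  rw [h5, neg_zero, Complex.exp_zero, mul_one, h.start z hz] at h4
  rw [← h4, mul_assoc, ← Complex.exp_add, neg_add_cancel, Complex.exp_zero, mul_one]

lemma wind_int (h : PMot D σ u p φ) {c z : ℂ} (hz : z ∈ D.carrier) (hc : ∀ t, φ t z ≠ c) {T : ℝ}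
    (hT : φ T z = z) : ∃ k : ℤ, wind u φ c T z = k * (2 * Real.pi * I) := by
  have h1 := h.exp_wind hz hc T
  rw [hT] at h1
  have h2 : z - c ≠ 0 := by
    have := hc T
    rw [hT] at this
    exact sub_ne_zero.mpr this
  have h3 : exp (wind u φ c T z) = 1 := by
    have h4 : (z - c) * exp (wind u φ c T z) = (z - c) * 1 := by rw [← h1, mul_one]
    exact mul_left_cancel₀ h2 h4
  exact Complex.exp_eq_one_iff.mp h3

lemma ne_center (h : PMot D σ u p φ) (i : Fin n) {z : ℂ} (hz : z ∈ D.carrier) (t : ℝ) :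
    φ t z ≠ D.a i := by
  intro h0
  have h1 := (h.mem t hz).2 i
  rw [h0, sub_self, norm_zero] at h1
  linarith [D.r_pos i]

lemma wind_continuousOn (h : PMot D σ u p φ) (i : Fin n) (T : ℝ) :
    ContinuousOn (fun z => wind u φ (D.a i) T z) D.carrier := by
  set g : ℝ → ℂ → ℂ := fun t z => u t (φ t z) * (starRingEnd ℂ (φ t z - D.a i)) /
    ((max (normSq (φ t z - D.a i)) (D.r i ^ 2) : ℝ) : ℂ) with hg
  have hr := D.r_pos i
  have hgc : GC g := by
    have h1 : Continuous fun q : ℝ × ℂ => u q.1 (φ q.1 q.2) :=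
      Continuous.comp (g := fun q : ℝ × ℂ => u q.1 q.2) h.G1u.gc
        (continuous_fst.prodMk h.c1φ.gc)
    have h2 : Continuous fun q : ℝ × ℂ => φ q.1 q.2 - D.a i := Continuous.sub h.c1φ.gc continuous_const
    refine Continuous.div (h1.mul (continuous_conj.comp h2)) (continuous_ofReal.comp
      ((continuous_normSq.comp h2).max continuous_const)) fun q => ?_
    rw [ofReal_ne_zero]
    have : 0 < D.r i ^ 2 := by positivity
    exact (lt_of_lt_of_le this (le_max_right _ _)).ne'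
  refine (hgc.continuous_integral 0 T).continuousOn.congr fun z hz => ?_
  simp only [wind]
  congr 1
  ext t
  have h1 := (h.mem t hz).2 i
  have h2 : D.r i ^ 2 ≤ normSq (φ t z - D.a i) := by
    rw [normSq_eq_norm_sq]
    exact pow_le_pow_left₀ hr.le h1 2
  have h3 : φ t z - D.a i ≠ 0 := sub_ne_zero.mpr (h.ne_center i hz t)
  simp only [hg]
  rw [max_eq_left h2, div_eq_div_iff h3 (by rw [ofReal_ne_zero]; exact (normSq_pos.mpr h3).ne'),
    ← mul_conj]
  ring

lemma wind_const (h : PMot D σ u p φ) (i : Fin n) {T : ℝ} (hT : ∀ z ∈ D.carrier, φ T z = z)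
    {z w : ℂ} (hz : z ∈ D.carrier) (hw : w ∈ D.carrier) :
    wind u φ (D.a i) T z = wind u φ (D.a i) T w := by
  have hcont : ContinuousOn (fun z => (wind u φ (D.a i) T z).im) D.carrier :=
    continuous_im.comp_continuousOn (h.wind_continuousOn i T)
  have hint : ∀ z ∈ D.carrier, ∃ k : ℤ, wind u φ (D.a i) T z = k * (2 * Real.pi * I) :=
    fun z hz => h.wind_int hz (fun t => h.ne_center i hz t) (hT z hz)
  have him : ∀ k : ℤ, ((k : ℂ) * (2 * Real.pi * I)).im = k * (2 * Real.pi) := by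
    intro k
    simp
  have key : ∀ a ∈ D.carrier, ∀ b ∈ D.carrier,
      ¬ (wind u φ (D.a i) T a).im < (wind u φ (D.a i) T b).im := by
    intro a ha b hb hlt
    obtain ⟨m, hm⟩ := hint a ha
    obtain ⟨n, hn⟩ := hint b hb
    have hpi := Real.pi_pos
    rw [hm, hn, him, him] at hlt
    have hmn : m < n := by
      have := lt_of_mul_lt_mul_right hlt (by positivity)
      exact_mod_cast this
    have hmn' : (m : ℝ) + 1 ≤ n := by exact_mod_cast hmn
    have hmem : ((m : ℝ) + 1 / 2) * (2 * Real.pi) ∈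
        Icc (wind u φ (D.a i) T a).im (wind u φ (D.a i) T b).im := by
      rw [hm, hn, him, him]
      constructor <;> nlinarith
    obtain ⟨c, hc, hc'⟩ := D.isPreconnected.intermediate_value ha hb hcont hmem
    obtain ⟨l, hl⟩ := hint c hc
    simp only at hc'
    rw [hl, him] at hc'
    have h9 : (l : ℝ) = m + 1 / 2 := by
      exact mul_right_cancel₀ (by positivity : (2 * Real.pi) ≠ 0) hc'
    have h10 : (2 * l : ℝ) = 2 * m + 1 := by linarith
    have h11 : 2 * l = 2 * m + 1 := by exact_mod_cast h10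
    omega
  obtain ⟨m, hm⟩ := hint z hz
  obtain ⟨k, hk⟩ := hint w hw
  have h1 : (wind u φ (D.a i) T z).im = (wind u φ (D.a i) T w).im :=
    le_antisymm (not_lt.mp (key w hw z hz)) (not_lt.mp (key z hz w hw))
  rw [hm, hk, him, him] at h1
  have h2 : (m : ℝ) = k := mul_right_cancel₀ (by positivity : (2 * Real.pi) ≠ 0) h1
  have h3 : m = k := by exact_mod_cast h2
  rw [hm, hk, h3]

lemma wind_zero (h : PMot D σ u p φ) (hn : 2 ≤ n) (hR : 0 < D.R) (i : Fin n) {T : ℝ}
    (hT : ∀ z ∈ D.carrier, φ T z = z) {z : ℂ} (hz : z ∈ D.carrier) :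
    wind u φ (D.a i) T z = 0 := by
  obtain ⟨j, hj⟩ : ∃ j : Fin n, j ≠ i := by
    have : Nontrivial (Fin n) := Fin.nontrivial_iff_two_le.mpr hn
    exact exists_ne i
  set w : ℂ := D.a j + (D.r j : ℂ) with hw
  have hwc : ‖w - D.a j‖ = D.r j := by
    rw [hw, add_sub_cancel_left, norm_real, Real.norm_eq_abs, abs_of_pos (D.r_pos j)]
  have hwM : w ∈ D.carrier := D.inner_mem hwc
  rw [h.wind_const i hT hz hwM]
  have hij : D.a j - D.a i ≠ 0 := by
    intro h0
    have h1 := D.disjoint j i hj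
    rw [h0, norm_zero] at h1
    linarith [D.r_pos i, D.r_pos j]
  have hslit : ∀ t, (φ t w - D.a i) / (D.a j - D.a i) ∈ slitPlane := by
    intro t
    have h1 := h.circle_inv hR (Or.inr ⟨j, rfl, rfl⟩) hwc t
    have e : (φ t w - D.a i) / (D.a j - D.a i) = 1 + (φ t w - D.a j) / (D.a j - D.a i) := by
      field_simp
      ring
    rw [e]
    apply Complex.mem_slitPlane_of_norm_lt_one
    rw [norm_div, h1, div_lt_one (norm_pos_iff.mpr hij)]
    linarith [D.disjoint j i hj, D.r_pos i]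
  have hd : ∀ t ∈ uIcc 0 T, HasDerivAt (fun t => Complex.log ((φ t w - D.a i) / (D.a j - D.a i)))
      (u t (φ t w) / (φ t w - D.a i)) t := by
    intro t _
    have h1 := (((h.ode t w hwM).sub_const (D.a i)).div_const (D.a j - D.a i)).clog_real
      (hslit t)
    refine h1.congr_deriv ?_
    have h2 := sub_ne_zero.mpr (h.ne_center i hwM t)
    field_simp
  have h1 := intervalIntegral.integral_eq_sub_of_hasDerivAt hd
    ((h.continuous_wint (fun t => h.ne_center i hwM t)).intervalIntegrable _ _)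
  rw [wind, h1, hT w hwM, h.start w hwM, sub_self]

/-- The winding number of the path of a boundary particle around the centre of its circle is
zero. -/
lemma wind_circle (h : PMot D σ u p φ) (hn : 2 ≤ n) (hR : 0 < D.R) {c : ℂ} {ρ : ℝ}
    (hc : IsCircle D c ρ) {T : ℝ} (hT : ∀ z ∈ D.carrier, φ T z = z) {z : ℂ}
    (hz : ‖z - c‖ = ρ) : wind u φ c T z = 0 := by
  have hzM := hc.mem hz
  have hinv := fun t => h.circle_inv hR hc hz t
  rcases hc with ⟨rfl, rfl⟩ | ⟨i, rfl, rfl⟩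
  · set i : Fin n := ⟨0, by omega⟩ with hi
    have hai : ‖D.a i‖ < D.R := by linarith [D.inside i, D.r_pos i]
    have hinv' : ∀ t, ‖φ t z‖ = D.R := fun t => by simpa using hinv t
    have hne : ∀ t, φ t z ≠ 0 := by
      intro t h0
      have := hinv' t
      rw [h0, norm_zero] at this
      exact hR.ne this
    have hslit : ∀ t, 1 + (- (D.a i / φ t z)) ∈ slitPlane := by
      intro t
      apply Complex.mem_slitPlane_of_norm_lt_one
      rw [norm_neg, norm_div, hinv' t, div_lt_one hR]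
      exact hai
    have hd : ∀ t ∈ uIcc 0 T, HasDerivAt (fun t => Complex.log (1 + (- (D.a i / φ t z))))
        (u t (φ t z) / (φ t z - D.a i) - u t (φ t z) / (φ t z - 0)) t := by
      intro t _
      have hn0 := hne t
      have h1 := ((((hasDerivAt_const t (D.a i)).fun_div (h.ode t z hzM) hn0).fun_neg).const_add
        (1:ℂ)).clog_real (hslit t)
      refine h1.congr_deriv ?_
      have h2 := sub_ne_zero.mpr (h.ne_center i hzM t)
      have h3 : φ t z + -D.a i ≠ 0 := by rwa [← sub_eq_add_neg]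
      have h4 : 1 + -(D.a i / φ t z) ≠ 0 := by
        rw [show 1 + -(D.a i / φ t z) = (φ t z - D.a i) / φ t z by field_simp; ring]
        exact div_ne_zero h2 hn0
      rw [sub_zero]
      field_simp
      ring
    have i1 := (h.continuous_wint (fun t => h.ne_center i hzM t)).intervalIntegrable
      (μ := volume) 0 T
    have i2 := (h.continuous_wint (c := 0) hne).intervalIntegrable (μ := volume) 0 T
    have h1 := intervalIntegral.integral_eq_sub_of_hasDerivAt hd (i1.sub i2)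
    rw [intervalIntegral.integral_sub i1 i2, hT z hzM, h.start z hzM, sub_self, sub_eq_zero] at h1
    rw [wind, ← h1]
    exact h.wind_zero hn hR i hT hzM
  · exact h.wind_zero hn hR i hT hzM

end PMot

end Pool.Agent.CG
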