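import Pool.Agent.Lib.MP_35454f.PDefs

/-!
# Geometry of circular domains
-/

set_option autoImplicit false

open MeasureTheory Filter Topology Complex Set Metric
open scoped ContDiff

namespace Pool.Agent.CG

variable {n : ℕ} (D : CircularDomain n)

lemma CircularDomain.carrier_eq : D.carrier = closedBall 0 D.R ∩ ⋂ i, (ball (D.a i) (D.r i))ᶜ := by
  ext z
  simp [CircularDomain.carrier, dist_eq_norm]

lemma CircularDomain.isClosed : IsClosed D.carrier := by
  rw [D.carrier_eq]
  exact isClosed_closedBall.inter (isClosed_iInter fun i => isOpen_ball.isClosed_compl)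

lemma CircularDomain.isCompact : IsCompact D.carrier := by
  rw [D.carrier_eq]
  exact (isCompact_closedBall 0 D.R).inter_right
    (isClosed_iInter fun i => isOpen_ball.isClosed_compl)

lemma CircularDomain.measurableSet : MeasurableSet D.carrier := D.isClosed.measurableSet

/-- The interior. -/
def CircularDomain.inn : Set ℂ := {z | ‖z‖ < D.R ∧ ∀ i, D.r i < ‖z - D.a i‖}

lemma CircularDomain.isOpen_inn : IsOpen D.inn := by
  have : D.inn = {z | ‖z‖ < D.R} ∩ ⋂ i, {z | D.r i < ‖z - D.a i‖} := by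
    ext z; simp [CircularDomain.inn]
  rw [this]
  refine (isOpen_lt continuous_norm continuous_const).inter (isOpen_iInter_of_finite fun i => ?_)
  exact isOpen_lt continuous_const (continuous_id.sub continuous_const).norm

lemma CircularDomain.inn_subset : D.inn ⊆ D.carrier := fun _ hz => ⟨hz.1.le, fun i => (hz.2 i).le⟩

/-- the outer circle lies in the domain -/
lemma CircularDomain.outer_mem {z : ℂ} (hz : ‖z‖ = D.R) : z ∈ D.carrier := by
  refine ⟨hz.le, fun i => ?_⟩
  have h1 := D.inside i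
  have h2 := norm_sub_norm_le z (D.a i)
  linarith

lemma CircularDomain.inner_mem {i : Fin n} {z : ℂ} (hz : ‖z - D.a i‖ = D.r i) :
    z ∈ D.carrier := by
  constructor
  · have h1 := D.inside i
    have h2 : ‖z‖ ≤ ‖z - D.a i‖ + ‖D.a i‖ := by
      have := norm_add_le (z - D.a i) (D.a i)
      simpa using this
    linarith
  · intro j
    by_cases hij : i = j
    · subst hij; exact hz.ge
    · have h1 := D.disjoint i j hij
      have h2 : ‖D.a i - D.a j‖ ≤ ‖z - D.a i‖ + ‖z - D.a j‖ := by
        have h3 := norm_sub_le (z - D.a j) (z - D.a i)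
        have h4 : (z - D.a j) - (z - D.a i) = D.a i - D.a j := by ring
        rw [h4] at h3
        linarith
      linarith

/-- points of the domain on an inner circle lie on no other circle -/
lemma CircularDomain.ne_inner {i j : Fin n} (hij : i ≠ j) {z : ℂ} (hz : ‖z - D.a i‖ = D.r i) :
    D.r j < ‖z - D.a j‖ := by
  have h1 := D.disjoint i j hij
  have h2 : ‖D.a i - D.a j‖ ≤ ‖z - D.a i‖ + ‖z - D.a j‖ := by
    have h3 := norm_sub_le (z - D.a j) (z - D.a i)
    have h4 : (z - D.a j) - (z - D.a i) = D.a i - D.a j := by ring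
    rw [h4] at h3
    linarith
  linarith

lemma CircularDomain.outer_lt {z : ℂ} (hz : ‖z‖ = D.R) (i : Fin n) : D.r i < ‖z - D.a i‖ := by
  have h1 := D.inside i
  have h2 := norm_sub_norm_le z (D.a i)
  linarith

lemma CircularDomain.inner_lt {i : Fin n} {z : ℂ} (hz : ‖z - D.a i‖ = D.r i) : ‖z‖ < D.R := by
  have h1 := D.inside i
  have h2 : ‖z‖ ≤ ‖z - D.a i‖ + ‖D.a i‖ := by
    have := norm_add_le (z - D.a i) (D.a i)
    simpa using this
  linarith

lemma CircularDomain.R_pos (i : Fin n) : 0 < D.R := by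
  have h5 := D.inside i
  have h6 := D.r_pos i
  have h7 := norm_nonneg (D.a i)
  linarith

/-- points of the carrier are limits of interior points -/
lemma CircularDomain.subset_closure (hR : 0 < D.R) : D.carrier ⊆ closure D.inn := by
  intro z hz
  -- a curve
  have key : ∀ c : ℂ, (∀ᶠ s : ℝ in 𝓝[>] 0, z + s • c ∈ D.inn) → z ∈ closure D.inn := by
    intro c hc
    refine mem_closure_of_tendsto (f := fun s : ℝ => z + s • c) (b := 𝓝[>] (0:ℝ)) ?_ hc
    have : Continuous fun s : ℝ => z + s • c := by fun_prop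
    have h1 := this.tendsto 0
    simp only [zero_smul, add_zero] at h1
    exact h1.mono_left nhdsWithin_le_nhds
  have hcont : ∀ c w : ℂ, Continuous fun s : ℝ => ‖z + s • c - w‖ := fun c w => by fun_prop
  have hlt : ∀ c w : ℂ, ∀ x : ℝ, x < ‖z - w‖ → ∀ᶠ s : ℝ in 𝓝[>] 0, x < ‖z + s • c - w‖ := by
    intro c w x hx
    have h1 := (hcont c w).tendsto 0
    simp only [zero_smul, add_zero] at h1
    exact (h1.mono_left nhdsWithin_le_nhds).eventually (lt_mem_nhds hx)
  have hgt : ∀ c w : ℂ, ∀ x : ℝ, ‖z - w‖ < x → ∀ᶠ s : ℝ in 𝓝[>] 0, ‖z + s • c - w‖ < x := by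
    intro c w x hx
    have h1 := (hcont c w).tendsto 0
    simp only [zero_smul, add_zero] at h1
    exact (h1.mono_left nhdsWithin_le_nhds).eventually (gt_mem_nhds hx)
  have hpos : ∀ᶠ s : ℝ in 𝓝[>] 0, 0 < s := self_mem_nhdsWithin
  have hone : ∀ᶠ s : ℝ in 𝓝[>] 0, s < 1 :=
    mem_nhdsWithin_of_mem_nhds (Iio_mem_nhds one_pos)
  by_cases h0 : ‖z‖ = D.R
  · -- outer circle: move inwards
    apply key (-z)
    have h1 : ∀ i, ∀ᶠ s : ℝ in 𝓝[>] 0, D.r i < ‖z + s • (-z) - D.a i‖ := fun i =>
      hlt _ _ _ (D.outer_lt h0 i)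
    filter_upwards [hpos, hone, eventually_all.mpr h1] with s hs hs1 hall
    refine ⟨?_, hall⟩
    have e : z + s • (-z) = ((1 - s : ℝ) : ℂ) * z := by
      simp only [real_smul]; push_cast; ring
    rw [e, norm_mul, norm_real, Real.norm_eq_abs, abs_of_pos (by linarith), h0]
    nlinarith
  · by_cases h1 : ∃ i, ‖z - D.a i‖ = D.r i
    · obtain ⟨i, hi⟩ := h1
      apply key (z - D.a i)
      have h2 : ∀ j, j ≠ i → ∀ᶠ s : ℝ in 𝓝[>] 0, D.r j < ‖z + s • (z - D.a i) - D.a j‖ :=
        fun j hj => hlt _ _ _ (D.ne_inner (Ne.symm hj) hi)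
      have h2' : ∀ j, ∀ᶠ s : ℝ in 𝓝[>] 0, j ≠ i → D.r j < ‖z + s • (z - D.a i) - D.a j‖ := by
        intro j
        by_cases hj : j = i
        · exact Eventually.of_forall fun s h => absurd hj h
        · filter_upwards [h2 j hj] with s hs _ using hs
      have h3 := hgt (z - D.a i) 0 D.R (by simpa using D.inner_lt hi)
      filter_upwards [hpos, eventually_all.mpr h2', h3] with s hs hall h3
      refine ⟨by simpa using h3, fun j => ?_⟩
      by_cases hj : j = i
      · subst hj
        have e : z + s • (z - D.a j) - D.a j = ((1 + s : ℝ) : ℂ) * (z - D.a j) := by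
          simp only [real_smul]; push_cast; ring
        rw [e, norm_mul, norm_real, Real.norm_eq_abs, abs_of_pos (by linarith), hi]
        have := D.r_pos j
        nlinarith
      · exact hall j hj
    · apply _root_.subset_closure
      push Not at h1
      exact ⟨lt_of_le_of_ne hz.1 h0, fun i => lt_of_le_of_ne (hz.2 i) (Ne.symm (h1 i))⟩

lemma isClosed_preconn {s u v : Set ℂ} (hs : IsPreconnected s) (hu : IsClosed u) (hv : IsClosed v)
    (h1 : s ⊆ u ∪ v) (h2 : s ∩ (u ∩ v) = ∅) : s ⊆ u ∨ s ⊆ v :=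
  isPreconnected_iff_subset_of_disjoint_closed.mp hs u v hu hv h1 h2

lemma CircularDomain.isPreconnected : IsPreconnected D.carrier := by
  classical
  rw [isPreconnected_iff_subset_of_disjoint_closed]
  intro u v hu hv huv hdis
  have hdis' : ∀ z ∈ D.carrier, z ∈ u → z ∈ v → False := by
    intro z hz h1 h2
    have : z ∈ D.carrier ∩ (u ∩ v) := ⟨hz, h1, h2⟩
    rw [hdis] at this
    exact this
  have hsph : ∀ i, sphere (D.a i) (D.r i) ⊆ D.carrier := fun i z hz =>
    D.inner_mem (by simpa [dist_eq_norm] using hz)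
  have hcirc : ∀ i, sphere (D.a i) (D.r i) ⊆ u ∨ sphere (D.a i) (D.r i) ⊆ v := by
    intro i
    refine isClosed_preconn (isPreconnected_sphere (by rw [Complex.rank_real_complex]; norm_num)
      _ _) hu hv ((hsph i).trans huv) ?_
    ext z
    simp only [mem_inter_iff, mem_empty_iff_false, iff_false]
    rintro ⟨h1, h2, h3⟩
    exact hdis' z (hsph i h1) h2 h3
  -- filled sets
  set U' : Set ℂ := (D.carrier ∩ u) ∪ ⋃ i ∈ {i | sphere (D.a i) (D.r i) ⊆ u},
    closedBall (D.a i) (D.r i) with hU'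
  set V' : Set ℂ := (D.carrier ∩ v) ∪ ⋃ i ∈ {i | ¬ sphere (D.a i) (D.r i) ⊆ u},
    closedBall (D.a i) (D.r i) with hV'
  have hU'c : IsClosed U' := (D.isClosed.inter hu).union
    ((Set.toFinite _).isClosed_biUnion fun i _ => isClosed_closedBall)
  have hV'c : IsClosed V' := (D.isClosed.inter hv).union
    ((Set.toFinite _).isClosed_biUnion fun i _ => isClosed_closedBall)
  have hcov : closedBall (0:ℂ) D.R ⊆ U' ∪ V' := by
    intro z hz
    by_cases h : ∃ i, ‖z - D.a i‖ < D.r i
    · obtain ⟨i, hi⟩ := h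
      have hm : z ∈ closedBall (D.a i) (D.r i) := by
        rw [mem_closedBall, dist_eq_norm]; exact hi.le
      by_cases hc : sphere (D.a i) (D.r i) ⊆ u
      · left; right
        exact mem_biUnion (x := i) hc hm
      · right; right
        exact mem_biUnion (x := i) hc hm
    · push Not at h
      have hM : z ∈ D.carrier := ⟨by simpa using hz, h⟩
      rcases huv hM with h1 | h1
      · left; left; exact ⟨hM, h1⟩
      · right; left; exact ⟨hM, h1⟩
  have hsphere : ∀ i z, z ∈ D.carrier → z ∈ closedBall (D.a i) (D.r i) →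
      z ∈ sphere (D.a i) (D.r i) := by
    intro i z hz hz'
    rw [mem_closedBall, dist_eq_norm] at hz'
    rw [mem_sphere, dist_eq_norm]
    exact le_antisymm hz' (hz.2 i)
  have hempty : closedBall (0:ℂ) D.R ∩ (U' ∩ V') = ∅ := by
    ext z
    simp only [mem_inter_iff, mem_empty_iff_false, iff_false]
    rintro ⟨-, h1, h2⟩
    rcases h1 with h1 | h1 <;> rcases h2 with h2 | h2
    · exact hdis' z h1.1 h1.2 h2.2
    · simp only [mem_iUnion] at h2
      obtain ⟨i, hi, hz⟩ := h2
      have h3 := hsphere i z h1.1 hz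
      rcases hcirc i with h4 | h4
      · exact hi h4
      · exact hdis' z h1.1 h1.2 (h4 h3)
    · simp only [mem_iUnion] at h1
      obtain ⟨i, hi, hz⟩ := h1
      have h3 := hsphere i z h2.1 hz
      exact hdis' z h2.1 (hi h3) h2.2
    · simp only [mem_iUnion] at h1 h2
      obtain ⟨i, hi, hz⟩ := h1
      obtain ⟨j, hj, hz'⟩ := h2
      by_cases hij : i = j
      · subst hij; exact hj hi
      · have h5 := D.disjoint i j hij
        rw [mem_closedBall, dist_eq_norm] at hz hz'
        have h3 := norm_sub_le (z - D.a j) (z - D.a i)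
        have h4 : (z - D.a j) - (z - D.a i) = D.a i - D.a j := by ring
        rw [h4] at h3
        linarith
  rcases isClosed_preconn (convex_closedBall 0 D.R).isPreconnected hU'c hV'c hcov hempty with h | h
  · left
    intro z hz
    have hzb : z ∈ closedBall (0:ℂ) D.R := by simpa using hz.1
    rcases h hzb with h1 | h1
    · exact h1.2
    · simp only [mem_iUnion] at h1
      obtain ⟨i, hi, hz'⟩ := h1
      exact hi (hsphere i z hz hz')
  · right
    intro z hz
    have hzb : z ∈ closedBall (0:ℂ) D.R := by simpa using hz.1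
    rcases h hzb with h1 | h1
    · exact h1.2
    · simp only [mem_iUnion] at h1
      obtain ⟨i, hi, hz'⟩ := h1
      rcases hcirc i with h4 | h4
      · exact absurd h4 hi
      · exact h4 (hsphere i z hz hz')

/-- the shrunk domain -/
def CircularDomain.shrink (δ : ℝ) (h0 : 0 < δ) (h1 : ∀ i, ‖D.a i‖ + D.r i < D.R - 2 * δ)
    (h2 : ∀ i j, i ≠ j → D.r i + D.r j < ‖D.a i - D.a j‖ - 2 * δ) : CircularDomain n where
  R := D.R - δ
  a := D.a
  r := fun i => D.r i + δ
  r_pos := fun i => by have := D.r_pos i; linarith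
  inside := fun i => by have := h1 i; linarith
  disjoint := fun i j hij => by have := h2 i j hij; linarith

lemma CircularDomain.isPreconnected_inn : IsPreconnected D.inn := by
  refine isPreconnected_of_forall_pair fun x hx y hy => ?_
  have hlin : ∀ a b c : ℝ, a < b → ∀ᶠ δ : ℝ in 𝓝[>] 0, a < b - c * δ := by
    intro a b c hab
    have h1 : Tendsto (fun δ : ℝ => b - c * δ) (𝓝 0) (𝓝 (b - c * 0)) :=
      Continuous.tendsto (by fun_prop) 0
    rw [mul_zero, sub_zero] at h1
    exact (h1.mono_left nhdsWithin_le_nhds).eventually (lt_mem_nhds hab)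
  have e1 : ∀ᶠ δ : ℝ in 𝓝[>] 0, ∀ i, ‖D.a i‖ + D.r i < D.R - 2 * δ :=
    eventually_all.mpr fun i => hlin _ _ _ (D.inside i)
  have e2 : ∀ᶠ δ : ℝ in 𝓝[>] 0, ∀ i j, i ≠ j → D.r i + D.r j < ‖D.a i - D.a j‖ - 2 * δ := by
    refine eventually_all.mpr fun i => eventually_all.mpr fun j => ?_
    by_cases hij : i = j
    · exact Eventually.of_forall fun δ h => absurd hij h
    · filter_upwards [hlin _ _ 2 (D.disjoint i j hij)] with δ hδ _ using hδ
  have e3 : ∀ w ∈ D.inn, ∀ᶠ δ : ℝ in 𝓝[>] 0, ‖w‖ < D.R - 1 * δ ∧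
      ∀ i, D.r i < ‖w - D.a i‖ - 1 * δ := by
    intro w hw
    exact (hlin _ _ 1 hw.1).and (eventually_all.mpr fun i => hlin _ _ 1 (hw.2 i))
  have hpos : ∀ᶠ δ : ℝ in 𝓝[>] 0, 0 < δ := self_mem_nhdsWithin
  obtain ⟨δ, h0, h1, h2, hx', hy'⟩ := (hpos.and (e1.and (e2.and ((e3 x hx).and (e3 y hy))))).exists
  refine ⟨(D.shrink δ h0 h1 h2).carrier, ?_, ?_, ?_, (D.shrink δ h0 h1 h2).isPreconnected⟩
  · intro w hw
    refine ⟨?_, fun i => ?_⟩
    · have h3 : ‖w‖ ≤ D.R - δ := hw.1
      linarith
    · have h3 : D.r i + δ ≤ ‖w - D.a i‖ := hw.2 i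
      linarith
  · refine ⟨?_, fun i => ?_⟩
    · change ‖x‖ ≤ D.R - δ
      linarith [hx'.1]
    · change D.r i + δ ≤ ‖x - D.a i‖
      linarith [hx'.2 i]
  · refine ⟨?_, fun i => ?_⟩
    · change ‖y‖ ≤ D.R - δ
      linarith [hy'.1]
    · change D.r i + δ ≤ ‖y - D.a i‖
      linarith [hy'.2 i]

/-- the boundary has measure zero -/
lemma CircularDomain.ae_eq : D.inn =ᵐ[volume] D.carrier := by
  have h1 : D.carrier \ D.inn ⊆ sphere (0:ℂ) D.R ∪ ⋃ i, sphere (D.a i) (D.r i) := by
    rintro z ⟨hz, hz'⟩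
    by_contra hcon
    apply hz'
    simp only [mem_union, mem_iUnion, not_or, not_exists, mem_sphere_iff_norm, sub_zero] at hcon
    exact ⟨lt_of_le_of_ne hz.1 hcon.1, fun i => lt_of_le_of_ne (hz.2 i) (Ne.symm (hcon.2 i))⟩
  have h2 : volume (D.carrier \ D.inn) = 0 := by
    refine measure_mono_null h1 ?_
    rw [measure_union_null_iff]
    refine ⟨Measure.addHaar_sphere _ _ _, ?_⟩
    rw [measure_iUnion_null_iff]
    exact fun i => Measure.addHaar_sphere _ _ _
  refine (ae_eq_set).mpr ⟨?_, h2⟩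
  rw [sdiff_eq_empty.mpr D.inn_subset]
  exact measure_empty

end Pool.Agent.CG
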