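import Pool.Agent.Lib.MP_35454f.PBase2

/-!
# A smooth graph of slope less than `√3` through the centres
-/

set_option autoImplicit false

open MeasureTheory Filter Topology Complex Set Metric
open scoped ContDiff Interval

namespace Pool.Agent.CG

variable {n : ℕ}

/-- The positive part of the distance to `c` minus `2 ρ`. -/
noncomputable def sF (ρ c t : ℝ) : ℝ := max (|t - c| - 2 * ρ) 0

lemma sF_nonneg (ρ c t : ℝ) : 0 ≤ sF ρ c t := le_max_right _ _

lemma le_sF (ρ c t : ℝ) : |t - c| - 2 * ρ ≤ sF ρ c t := le_max_left _ _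

lemma sF_lip (ρ c t t' : ℝ) : sF ρ c t ≤ sF ρ c t' + |t - t'| := by
  refine max_le ?_ ?_
  · have h1 := le_sF ρ c t'
    have h2 : |t - c| ≤ |t - t'| + |t' - c| := abs_sub_le t t' c
    linarith
  · have := sF_nonneg ρ c t'
    have := abs_nonneg (t - t')
    linarith

/-- The upper envelope of the cones below the points. -/
noncomputable def LL (hne : (Finset.univ : Finset (Fin n)).Nonempty) (x y : Fin n → ℝ)
    (γ ρ t : ℝ) : ℝ :=
  Finset.univ.sup' hne fun i => y i - γ * sF ρ (x i) t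

variable {hne : (Finset.univ : Finset (Fin n)).Nonempty} {x y : Fin n → ℝ} {γ ρ : ℝ}

lemma le_LL (i : Fin n) (t : ℝ) : y i - γ * sF ρ (x i) t ≤ LL hne x y γ ρ t :=
  Finset.le_sup' (fun i => y i - γ * sF ρ (x i) t) (Finset.mem_univ i)

lemma exists_LL (t : ℝ) : ∃ i, LL hne x y γ ρ t = y i - γ * sF ρ (x i) t := by
  obtain ⟨i, -, hi⟩ := Finset.exists_mem_eq_sup' hne fun i => y i - γ * sF ρ (x i) t
  exact ⟨i, hi⟩

lemma LL_lip (hγ : 0 ≤ γ) (t t' : ℝ) :
    LL hne x y γ ρ t ≤ LL hne x y γ ρ t' + γ * |t - t'| := by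
  refine Finset.sup'_le hne _ fun i _ => ?_
  have h1 := le_LL (hne := hne) (x := x) (y := y) (γ := γ) (ρ := ρ) i t'
  have h2 := mul_le_mul_of_nonneg_left (sF_lip ρ (x i) t' t) hγ
  rw [mul_add, abs_sub_comm] at h2
  linarith

/-- The Lipschitz function. -/
noncomputable def g1 (hne : (Finset.univ : Finset (Fin n)).Nonempty) (x y : Fin n → ℝ)
    (γ ρ t : ℝ) : ℝ :=
  max (LL hne x y γ ρ t) (min (-LL hne x (fun i => -y i) γ ρ t) 0)

lemma g1_lip' (hγ : 0 ≤ γ) (t t' : ℝ) :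
    g1 hne x y γ ρ t ≤ g1 hne x y γ ρ t' + γ * |t - t'| := by
  have hc : 0 ≤ γ * |t - t'| := mul_nonneg hγ (abs_nonneg _)
  refine max_le ?_ ?_
  · have h1 := LL_lip (hne := hne) (x := x) (y := y) (ρ := ρ) hγ t t'
    have h2 : LL hne x y γ ρ t' ≤ g1 hne x y γ ρ t' := le_max_left _ _
    linarith
  · have h1 := LL_lip (hne := hne) (x := x) (y := fun i => -y i) (ρ := ρ) hγ t' t
    rw [abs_sub_comm] at h1
    have h2 : min (-LL hne x (fun i => -y i) γ ρ t') 0 ≤ g1 hne x y γ ρ t' := le_max_right _ _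
    have h3 : min (-LL hne x (fun i => -y i) γ ρ t) 0 ≤
        min (-LL hne x (fun i => -y i) γ ρ t') 0 + γ * |t - t'| := by
      rcases le_total (-LL hne x (fun i => -y i) γ ρ t') 0 with h4 | h4
      · rw [min_eq_left h4]
        exact (min_le_left _ _).trans (by linarith)
      · rw [min_eq_right h4]
        exact (min_le_right _ _).trans (by linarith)
    linarith

lemma g1_lip (hγ : 0 ≤ γ) (t t' : ℝ) :
    |g1 hne x y γ ρ t - g1 hne x y γ ρ t'| ≤ γ * |t - t'| := by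
  rw [abs_le]
  have h1 := g1_lip' (hne := hne) (x := x) (y := y) (ρ := ρ) hγ t t'
  have h2 := g1_lip' (hne := hne) (x := x) (y := y) (ρ := ρ) hγ t' t
  rw [abs_sub_comm t' t] at h2
  constructor <;> linarith

lemma continuous_g1 (hγ : 0 ≤ γ) : Continuous (g1 hne x y γ ρ) := by
  have : LipschitzWith γ.toNNReal (g1 hne x y γ ρ) := by
    refine LipschitzWith.of_dist_le_mul fun t t' => ?_
    rw [Real.dist_eq, Real.dist_eq, Real.coe_toNNReal γ hγ]
    exact g1_lip hγ t t'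
  exact this.continuous

/-- The conditions on the parameters. -/
structure GP (R : ℝ) (x y : Fin n → ℝ) (γ ρ : ℝ) : Prop where
  ρ_pos : 0 < ρ
  γ_pos : 0 < γ
  γ_lt : γ ^ 2 < 3
  pair : ∀ i j, i ≠ j → |y i - y j| ≤ γ * (|x i - x j| - 4 * ρ)
  bd : ∀ i, |y i| ≤ γ * (R - |x i| - 4 * ρ)
  disc : ∀ i, (|x i| + 3 * ρ) ^ 2 + y i ^ 2 < R ^ 2

variable {R : ℝ}

lemma GP.LU (h : GP R x y γ ρ) (t : ℝ) :
    LL hne x y γ ρ t ≤ -LL hne x (fun i => -y i) γ ρ t := by
  obtain ⟨i, hi⟩ := exists_LL (hne := hne) (x := x) (y := y) (γ := γ) (ρ := ρ) t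
  obtain ⟨j, hj⟩ := exists_LL (hne := hne) (x := x) (y := fun i => -y i) (γ := γ) (ρ := ρ) t
  rw [hi, hj]
  have hs1 := sF_nonneg ρ (x i) t
  have hs2 := sF_nonneg ρ (x j) t
  by_cases hij : i = j
  · subst hij
    nlinarith [mul_nonneg h.γ_pos.le hs1]
  · have h1 := h.pair i j hij
    have h2 : |x i - x j| - 4 * ρ ≤ sF ρ (x i) t + sF ρ (x j) t := by
      have h3 := le_sF ρ (x i) t
      have h4 := le_sF ρ (x j) t
      have h5 : |x i - x j| ≤ |x i - t| + |t - x j| := abs_sub_le _ _ _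
      rw [abs_sub_comm (x i) t] at h5
      linarith
    have h6 := mul_le_mul_of_nonneg_left h2 h.γ_pos.le
    have h7 := le_abs_self (y i - y j)
    linarith

lemma GP.sF_center (_h : GP R x y γ ρ) {i : Fin n} {t : ℝ} (ht : |t - x i| ≤ 2 * ρ) :
    sF ρ (x i) t = 0 := max_eq_right (by linarith)

lemma GP.g1_center (h : GP R x y γ ρ) {i : Fin n} {t : ℝ} (ht : |t - x i| ≤ 2 * ρ) :
    g1 hne x y γ ρ t = y i := by
  have h0 := h.sF_center ht
  have h1 := le_LL (hne := hne) (x := x) (y := y) (γ := γ) (ρ := ρ) i t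
  have h2 := le_LL (hne := hne) (x := x) (y := fun i => -y i) (γ := γ) (ρ := ρ) i t
  have h3 := h.LU (hne := hne) t
  rw [h0, mul_zero, sub_zero] at h1 h2
  have h4 : LL hne x y γ ρ t = y i := by linarith
  have h5 : -LL hne x (fun i => -y i) γ ρ t = y i := by linarith
  rw [g1, h4, h5]
  exact max_eq_left (min_le_left _ _)

lemma GP.g1_zero (h : GP R x y γ ρ) {t : ℝ} (ht : R - 2 * ρ ≤ |t|) : g1 hne x y γ ρ t = 0 := by
  have key : ∀ i, |y i| ≤ γ * sF ρ (x i) t := by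
    intro i
    refine (h.bd i).trans (mul_le_mul_of_nonneg_left ?_ h.γ_pos.le)
    have h1 := le_sF ρ (x i) t
    have h2 : |t| ≤ |t - x i| + |x i| := by
      have := abs_add_le (t - x i) (x i)
      rwa [sub_add_cancel] at this
    linarith
  have h1 : LL hne x y γ ρ t ≤ 0 := by
    obtain ⟨i, hi⟩ := exists_LL (hne := hne) (x := x) (y := y) (γ := γ) (ρ := ρ) t
    rw [hi]; linarith [key i, le_abs_self (y i)]
  have h2 : LL hne x (fun i => -y i) γ ρ t ≤ 0 := by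
    obtain ⟨i, hi⟩ := exists_LL (hne := hne) (x := x) (y := fun i => -y i) (γ := γ) (ρ := ρ) t
    rw [hi]; linarith [key i, neg_abs_le (y i)]
  rw [g1, min_eq_right (by linarith), max_eq_right h1]

lemma conv_bound {u w y s γ R : ℝ} (hγ : 0 < γ) (hy : 0 < y) (hs : 0 ≤ s) (hys : 0 < y - γ * s)
    (hu : 0 ≤ u) (hw : w = u + y / γ) (hwR : w < R) (huy : u ^ 2 + y ^ 2 < R ^ 2) :
    (u + s) ^ 2 + (y - γ * s) ^ 2 < R ^ 2 := by
  set l := γ * s / y with hl
  have hl0 : 0 ≤ l := by positivity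
  have hl1 : l < 1 := by rw [hl, div_lt_one hy]; linarith
  have e1 : u + s = (1 - l) * u + l * w := by
    rw [hw, hl]; field_simp; ring
  have e2 : y - γ * s = (1 - l) * y := by rw [hl]; field_simp
  have hw0 : 0 ≤ w := by rw [hw]; positivity
  have hw2 : w ^ 2 ≤ R ^ 2 := pow_le_pow_left₀ hw0 hwR.le 2
  rw [e1, e2]
  have h1 : ((1 - l) * u + l * w) ^ 2 + ((1 - l) * y) ^ 2 =
      (1 - l) * (u ^ 2 + y ^ 2) + l * w ^ 2 - (1 - l) * l * ((u - w) ^ 2 + y ^ 2) := by ring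
  have h2 : 0 ≤ (1 - l) * l * ((u - w) ^ 2 + y ^ 2) := by
    have : 0 ≤ 1 - l := by linarith
    positivity
  have h3 : (1 - l) * (u ^ 2 + y ^ 2) < (1 - l) * R ^ 2 :=
    mul_lt_mul_of_pos_left huy (by linarith)
  have h4 : l * w ^ 2 ≤ l * R ^ 2 := mul_le_mul_of_nonneg_left hw2 hl0
  linarith

lemma GP.aux (h : GP R x y γ ρ) (i : Fin n) {t v : ℝ} (hv : v = |y i| - γ * sF ρ (x i) t)
    (hv0 : 0 < v) : (|t| + ρ) ^ 2 + v ^ 2 < R ^ 2 := by
  have hs := sF_nonneg ρ (x i) t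
  have hρ := h.ρ_pos
  have h1 : |t| + ρ ≤ |x i| + 3 * ρ + sF ρ (x i) t := by
    have h2 : |t| ≤ |t - x i| + |x i| := by
      have := abs_add_le (t - x i) (x i)
      rwa [sub_add_cancel] at this
    have h3 := le_sF ρ (x i) t
    linarith
  have hy : 0 < |y i| := by
    have := mul_nonneg h.γ_pos.le hs
    linarith
  have h4 := conv_bound (u := |x i| + 3 * ρ) (w := |x i| + 3 * ρ + |y i| / γ) (R := R) h.γ_pos hy hs
    (by linarith) (by positivity) rfl ?_ (by rw [sq_abs]; exact h.disc i)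
  · have h5 : (|t| + ρ) ^ 2 ≤ (|x i| + 3 * ρ + sF ρ (x i) t) ^ 2 :=
      pow_le_pow_left₀ (by positivity) h1 2
    rw [hv]
    linarith
  · have h5 : |y i| / γ ≤ R - |x i| - 4 * ρ := by
      rw [div_le_iff₀ h.γ_pos, mul_comm]; exact h.bd i
    linarith

lemma GP.g1_bound (h : GP R x y γ ρ) {t : ℝ} (ht : g1 hne x y γ ρ t ≠ 0) :
    (|t| + ρ) ^ 2 + g1 hne x y γ ρ t ^ 2 < R ^ 2 := by
  rcases lt_or_gt_of_ne ht with h0 | h0
  · -- negative
    have h1 : LL hne x y γ ρ t < 0 := lt_of_le_of_lt (le_max_left _ _) h0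
    have h2 : min (-LL hne x (fun i => -y i) γ ρ t) 0 < 0 :=
      lt_of_le_of_lt (le_max_right _ _) h0
    have h3 : -LL hne x (fun i => -y i) γ ρ t < 0 := by
      rcases min_lt_iff.mp h2 with h | h
      · exact h
      · exact absurd h (lt_irrefl _)
    have h4 : g1 hne x y γ ρ t = -LL hne x (fun i => -y i) γ ρ t := by
      rw [g1, min_eq_left h3.le, max_eq_right (h.LU t)]
    obtain ⟨i, hi⟩ := exists_LL (hne := hne) (x := x) (y := fun i => -y i) (γ := γ) (ρ := ρ) t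
    have h5 : 0 < -y i := by
      have := mul_nonneg h.γ_pos.le (sF_nonneg ρ (x i) t)
      linarith
    have h6 := h.aux i (t := t) (v := LL hne x (fun i => -y i) γ ρ t)
      (by rw [hi, abs_of_neg (by linarith)]) (by linarith)
    rw [h4, neg_sq]
    exact h6
  · have h2 : min (-LL hne x (fun i => -y i) γ ρ t) 0 ≤ 0 := min_le_right _ _
    have h3 : 0 < LL hne x y γ ρ t := by
      rcases lt_max_iff.mp h0 with h | h
      · exact h
      · exact absurd h (not_lt.mpr h2)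
    have h4 : g1 hne x y γ ρ t = LL hne x y γ ρ t := max_eq_left (h2.trans h3.le)
    obtain ⟨i, hi⟩ := exists_LL (hne := hne) (x := x) (y := y) (γ := γ) (ρ := ρ) t
    have h5 : 0 < y i := by
      have := mul_nonneg h.γ_pos.le (sF_nonneg ρ (x i) t)
      linarith
    have h6 := h.aux i (t := t) (v := LL hne x y γ ρ t)
      (by rw [hi, abs_of_pos h5]) h3
    rw [h4]
    exact h6

/-! ### averaging -/

/-- The average over the interval of radius `ρ`. -/
noncomputable def av (f : ℝ → ℝ) (ρ x : ℝ) : ℝ :=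
  ((∫ s in (0:ℝ)..(x + ρ), f s) - ∫ s in (0:ℝ)..(x - ρ), f s) / (2 * ρ)

lemma hasDerivAt_prim {f : ℝ → ℝ} (hf : Continuous f) (x : ℝ) :
    HasDerivAt (fun x => ∫ s in (0:ℝ)..x, f s) (f x) x :=
  intervalIntegral.integral_hasDerivAt_right (hf.intervalIntegrable _ _)
    (hf.stronglyMeasurableAtFilter _ _) hf.continuousAt

lemma hasDerivAt_av {f : ℝ → ℝ} (hf : Continuous f) (x : ℝ) :
    HasDerivAt (av f ρ) ((f (x + ρ) - f (x - ρ)) / (2 * ρ)) x := by
  have h1 : HasDerivAt (fun x : ℝ => ∫ s in (0:ℝ)..(x + ρ), f s) (f (x + ρ)) x := by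
    have := (hasDerivAt_prim hf (x + ρ)).comp x ((hasDerivAt_id x).add_const ρ)
    rw [mul_one] at this
    exact this
  have h2 : HasDerivAt (fun x : ℝ => ∫ s in (0:ℝ)..(x - ρ), f s) (f (x - ρ)) x := by
    have := (hasDerivAt_prim hf (x - ρ)).comp x ((hasDerivAt_id x).sub_const ρ)
    rw [mul_one] at this
    exact this
  exact (h1.fun_sub h2).div_const _

lemma contDiff_av {f : ℝ → ℝ} (hf : Continuous f) : ContDiff ℝ 1 (av f ρ) := by
  rw [contDiff_one_iff_deriv]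
  refine ⟨fun x => (hasDerivAt_av hf x).differentiableAt, ?_⟩
  have e : deriv (av f ρ) = fun x => (f (x + ρ) - f (x - ρ)) / (2 * ρ) := by
    ext x; exact (hasDerivAt_av hf x).deriv
  rw [e]
  exact ((hf.comp (continuous_id.add continuous_const)).sub
    (hf.comp (continuous_id.sub continuous_const))).div_const _

lemma exists_av {f : ℝ → ℝ} (hf : Continuous f) (hρ : 0 < ρ) (x : ℝ) :
    ∃ t, |t - x| < ρ ∧ av f ρ x = f t := by
  obtain ⟨t, ht, h⟩ := exists_deriv_eq_slope (fun x => ∫ s in (0:ℝ)..x, f s)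
    (show x - ρ < x + ρ by linarith)
    (fun y _ => (hasDerivAt_prim hf y).continuousAt.continuousWithinAt)
    (fun y _ => (hasDerivAt_prim hf y).differentiableAt.differentiableWithinAt)
  refine ⟨t, ?_, ?_⟩
  · rw [abs_lt]; constructor <;> linarith [ht.1, ht.2]
  · rw [(hasDerivAt_prim hf t).deriv] at h
    rw [h, av]
    congr 1
    ring

theorem GP.goodG (h : GP R x y γ ρ) (hn : 0 < n) {a : Fin n → ℂ} (hx : ∀ i, (a i).re = x i)
    (hy : ∀ i, (a i).im = y i) (hball : ∀ i, ‖a i‖ + ρ < R) :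
    ∃ g : ℝ → ℝ, GoodG R a g ρ (R - ρ) := by
  have hne : (Finset.univ : Finset (Fin n)).Nonempty := ⟨⟨0, hn⟩, Finset.mem_univ _⟩
  have hcont : Continuous (g1 hne x y γ ρ) := continuous_g1 h.γ_pos.le
  have hρ := h.ρ_pos
  have hin : ∀ i, |x i| + 4 * ρ ≤ R := by
    intro i
    have h1 : 0 ≤ γ * (R - |x i| - 4 * ρ) := (abs_nonneg _).trans (h.bd i)
    have h2 := nonneg_of_mul_nonneg_right h1 h.γ_pos
    linarith
  refine ⟨av (g1 hne x y γ ρ) ρ, ?_⟩
  refine ⟨hρ, ?_, by linarith, contDiff_av hcont, ?_, ?_, ?_, ?_, ?_, ?_, hball⟩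
  · have := hin ⟨0, hn⟩
    have := abs_nonneg (x ⟨0, hn⟩)
    linarith
  · intro t
    rw [(hasDerivAt_av hcont t).deriv]
    have h1 := g1_lip (hne := hne) (x := x) (y := y) (ρ := ρ) h.γ_pos.le (t + ρ) (t - ρ)
    have h2 : |(g1 hne x y γ ρ (t + ρ) - g1 hne x y γ ρ (t - ρ)) / (2 * ρ)| ≤ γ := by
      rw [abs_div, abs_of_pos (show (0:ℝ) < 2 * ρ by linarith), div_le_iff₀ (by linarith)]
      refine h1.trans (le_of_eq ?_)
      rw [show t + ρ - (t - ρ) = 2 * ρ by ring, abs_of_pos (by linarith)]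
    rw [← sq_abs]
    exact lt_of_le_of_lt (pow_le_pow_left₀ (abs_nonneg _) h2 2) h.γ_lt
  · intro i t ht
    obtain ⟨s, hs, hs'⟩ := exists_av (ρ := ρ) hcont hρ t
    rw [hs', hy i]
    refine h.g1_center ?_
    rw [hx i] at ht
    have := abs_sub_le s t (x i)
    linarith
  · intro t ht
    obtain ⟨s, hs, hs'⟩ := exists_av (ρ := ρ) hcont hρ t
    rw [hs']
    refine h.g1_zero ?_
    have h1 : |t| ≤ |t - s| + |s| := by
      have := abs_add_le (t - s) s
      rwa [sub_add_cancel] at this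
    rw [abs_sub_comm] at h1
    linarith
  · intro i
    rw [hx i]
    linarith [hin i]
  · intro t ht
    obtain ⟨s, hs, hs'⟩ := exists_av (ρ := ρ) hcont hρ t
    rw [hs']
    by_cases h0 : g1 hne x y γ ρ s = 0
    · rw [h0]
      have : t ^ 2 < R ^ 2 := by
        rw [← sq_abs]
        exact pow_lt_pow_left₀ ht (abs_nonneg _) two_ne_zero
      linarith
    · have h1 := h.g1_bound h0
      have h2 : |t| ≤ |s| + ρ := by
        have := abs_add_le (t - s) s
        rw [sub_add_cancel, abs_sub_comm] at this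
        linarith
      have h3 : t ^ 2 ≤ (|s| + ρ) ^ 2 := by
        rw [← sq_abs]
        exact pow_le_pow_left₀ (abs_nonneg _) h2 2
      linarith
  · intro i j hij
    rw [hx i, hx j]
    have h1 : 0 ≤ γ * (|x i - x j| - 4 * ρ) := (abs_nonneg _).trans (h.pair i j hij)
    have h2 := nonneg_of_mul_nonneg_right h1 h.γ_pos
    linarith

/-! ### choice of the parameters -/

theorem exists_GP (x y : Fin n → ℝ)
    (hpair : ∀ i j, i ≠ j → |y i - y j| < √3 * |x i - x j|)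
    (hbd : ∀ i, |y i| < √3 * (R - |x i|)) (hdisc : ∀ i, x i ^ 2 + y i ^ 2 < R ^ 2) {N : Fin n → ℝ}
    (hN : ∀ i, N i < R) : ∃ γ ρ, GP R x y γ ρ ∧ ∀ i, N i + ρ < R := by
  have hpos : ∀ᶠ ρ : ℝ in 𝓝[>] 0, 0 < ρ := self_mem_nhdsWithin
  have ev : ∀ F G : ℝ → ℝ, Continuous F → Continuous G → F 0 < G 0 →
      ∀ᶠ ρ : ℝ in 𝓝[>] 0, F ρ < G ρ := by
    intro F G hF hG h
    exact ((hF.tendsto 0).eventually_lt (hG.tendsto 0) h).filter_mono nhdsWithin_le_nhds
  have h3 : (0:ℝ) < √3 := by positivity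
  have e1 : ∀ᶠ ρ : ℝ in 𝓝[>] 0, 0 < √3 - ρ := ev (fun _ => 0) (fun ρ => √3 - ρ) (by fun_prop)
    (by fun_prop) (by simp)
  have e2 : ∀ᶠ ρ : ℝ in 𝓝[>] 0, ∀ i j, i ≠ j →
      |y i - y j| < (√3 - ρ) * (|x i - x j| - 4 * ρ) := by
    rw [eventually_all]
    intro i
    rw [eventually_all]
    intro j
    by_cases hij : i = j
    · exact Eventually.of_forall fun _ h => absurd hij h
    · filter_upwards [ev (fun _ => |y i - y j|) (fun ρ => (√3 - ρ) * (|x i - x j| - 4 * ρ))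
        (by fun_prop) (by fun_prop) (by simpa using hpair i j hij)] with ρ hρ _ using hρ
  have e3 : ∀ᶠ ρ : ℝ in 𝓝[>] 0, ∀ i, |y i| < (√3 - ρ) * (R - |x i| - 4 * ρ) := by
    rw [eventually_all]
    intro i
    exact ev (fun _ => |y i|) (fun ρ => (√3 - ρ) * (R - |x i| - 4 * ρ))
        (by fun_prop) (by fun_prop) (by simpa using hbd i)
  have e4 : ∀ᶠ ρ : ℝ in 𝓝[>] 0, ∀ i, (|x i| + 3 * ρ) ^ 2 + y i ^ 2 < R ^ 2 := by
    rw [eventually_all]
    intro i
    exact ev (fun ρ => (|x i| + 3 * ρ) ^ 2 + y i ^ 2) (fun _ => R ^ 2)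
        (by fun_prop) (by fun_prop) (by simpa using hdisc i)
  have e5 : ∀ᶠ ρ : ℝ in 𝓝[>] 0, ∀ i, N i + ρ < R := by
    rw [eventually_all]
    intro i
    exact ev (fun ρ => N i + ρ) (fun _ => R)
        (by fun_prop) (by fun_prop) (by simpa using hN i)
  obtain ⟨ρ, h0, h1, h2, h3', h4, h5⟩ :=
    (hpos.and (e1.and (e2.and (e3.and (e4.and e5))))).exists
  refine ⟨√3 - ρ, ρ, ⟨h0, h1, ?_, fun i j hij => (h2 i j hij).le, fun i => (h3' i).le, h4⟩, h5⟩
  have : (√3 - ρ) ^ 2 < √3 ^ 2 := pow_lt_pow_left₀ (by linarith) h1.le two_ne_zero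
  rwa [Real.sq_sqrt (by norm_num)] at this

end Pool.Agent.CG
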