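import Pool.Agent.Lib.MP_35454f.PGraph

/-!
# Domains with small holes
-/

set_option autoImplicit false

open MeasureTheory Filter Topology Complex Set Metric
open scoped ContDiff Interval ComplexConjugate

namespace Pool.Agent.CG

variable {n : ℕ}

lemma lin_expand (L : ℂ →L[ℝ] ℂ) (v : ℂ) : L v = (v.re : ℂ) * L 1 + (v.im : ℂ) * L I := by
  conv_lhs => rw [← re_add_im v]
  rw [map_add, show (v.re : ℂ) = v.re • (1:ℂ) by simp, map_smul,
    show (v.im : ℂ) * I = v.im • I by simp, map_smul, real_smul, real_smul]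
  simp

lemma BaseField.rotate {R : ℝ} {a : Fin n → ℂ} {B : ℂ → ℂ} {e : ℂ} (he : ‖e‖ = 1)
    (h : BaseField R (fun i => conj e * a i) B) :
    BaseField R a (fun z => e * B (conj e * z)) := by
  have hee : e * conj e = 1 := by rw [mul_conj, normSq_eq_norm_sq, he]; simp
  have hcomp : e.re ^ 2 + e.im ^ 2 = 1 := by
    have : normSq e = 1 := by rw [normSq_eq_norm_sq, he]; norm_num
    rw [normSq_apply] at this; linarith
  have hnz : ∀ z, ‖conj e * z‖ = ‖z‖ := by
    intro z; rw [norm_mul, RCLike.norm_conj, he, one_mul]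
  set M : ℂ →L[ℝ] ℂ := ContinuousLinearMap.mul ℝ ℂ (conj e) with hM
  have hMv : ∀ v, M v = conj e * v := fun v => rfl
  have hder : ∀ z, HasFDerivAt (fun z => e * B (conj e * z))
      (e • (fderiv ℝ B (conj e * z)).comp M) z := by
    intro z
    have h1 : HasFDerivAt (fun z => conj e * z) M z := M.hasFDerivAt
    have h2 := ((h.contDiff.differentiable one_ne_zero (conj e * z)).hasFDerivAt.comp z h1)
    exact h2.const_mul e
  have hfd : ∀ z v, fderiv ℝ (fun z => e * B (conj e * z)) z v =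
      e * fderiv ℝ B (conj e * z) (conj e * v) := by
    intro z v
    rw [(hder z).fderiv]
    rfl
  refine ⟨?_, ?_, ?_, ?_, ?_, ?_⟩
  · exact contDiff_const.mul (h.contDiff.comp (contDiff_const.mul contDiff_id))
  · intro z
    rw [← h.div_one (conj e * z), divE, divE, hfd, hfd, lin_expand _ (conj e * 1),
      lin_expand _ (conj e * I)]
    generalize fderiv ℝ B (conj e * z) 1 = u
    generalize fderiv ℝ B (conj e * z) I = w
    simp only [mul_re, mul_im, add_re, add_im, conj_re, conj_im, ofReal_re, ofReal_im,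
      Complex.one_re, Complex.one_im, Complex.I_re, Complex.I_im]
    linear_combination (u.re + w.im) * hcomp
  · intro z hz
    have h1 := h.strain (conj e * z) (by rw [hnz]; exact hz)
    have h2 : dbar (fun z => e * B (conj e * z)) z = e * e * dbar B (conj e * z) := by
      rw [dbar, dbar, hfd, hfd, lin_expand _ (conj e * 1), lin_expand _ (conj e * I)]
      generalize fderiv ℝ B (conj e * z) 1 = u
      generalize fderiv ℝ B (conj e * z) I = w
      apply Complex.ext <;>
      · simp only [mul_re, mul_im, add_re, add_im, conj_re, conj_im, ofReal_re, ofReal_im,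
          Complex.one_re, Complex.one_im, Complex.I_re, Complex.I_im, div_ofNat_re, div_ofNat_im]
        ring
    rw [h2, norm_mul, norm_mul, he, one_mul, one_mul]
    exact h1
  · intro z hz
    have h1 := h.outer (conj e * z) (by rw [hnz]; exact hz)
    refine lt_of_lt_of_eq h1 ?_
    simp only [dot, mul_re, mul_im, conj_re, conj_im]
    ring
  · intro i
    have h1 := h.zero i
    show e * B (conj e * a i) = 0
    rw [h1, mul_zero]
  · intro i v
    rw [hfd, h.der i (conj e * v)]
    linear_combination ((1 / 2 : ℝ) : ℂ) * v * hee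

/-- **Small holes.** -/
theorem small_holes (hn : 2 ≤ n) {R : ℝ} {a : Fin n → ℂ} {e : ℂ} (he : ‖e‖ = 1)
    (hpair : ∀ i j, i ≠ j → |(conj e * (a i - a j)).im| < √3 * |(conj e * (a i - a j)).re|)
    (hbd : ∀ i, |(conj e * a i).im| < √3 * (R - |(conj e * a i).re|)) (hin : ∀ i, ‖a i‖ < R) :
    ∃ r₀ > 0, ∀ D : CircularDomain n, D.R = R → D.a = a → (∀ i, D.r i ≤ r₀) →
      ∃ ε > 0, ∀ D' : CircularDomain n, |D'.R - D.R| ≤ ε → (∀ i, ‖D'.a i - D.a i‖ ≤ ε) →
        (∀ i, |D'.r i - D.r i| ≤ ε) → ∀ σ : ℂ → ℝ, ContDiff ℝ 1 σ →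
        (∀ z, ‖z‖ ≤ D.R + ε → |σ z - 1| ≤ ε ∧ ‖fderiv ℝ σ z‖ ≤ ε) →
        IsMetric D' σ ∧ NoClosedGeodesicS D' σ := by
  have hR : 0 < R := lt_of_le_of_lt (norm_nonneg _) (hin ⟨0, by omega⟩)
  have hnorm : ∀ i, ‖conj e * a i‖ = ‖a i‖ := by
    intro i; rw [norm_mul, RCLike.norm_conj, he, one_mul]
  obtain ⟨γ, ρ, hGP, hball⟩ := exists_GP (R := R) (fun i => (conj e * a i).re)
    (fun i => (conj e * a i).im) (fun i j hij => by
      have := hpair i j hij
      rwa [mul_sub, sub_im, sub_re] at this) hbd (fun i => by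
      have h1 : (conj e * a i).re ^ 2 + (conj e * a i).im ^ 2 = ‖a i‖ ^ 2 := by
        rw [← hnorm i, ← normSq_eq_norm_sq, normSq_apply]; ring
      rw [h1]
      exact pow_lt_pow_left₀ (hin i) (norm_nonneg _) two_ne_zero)
    (N := fun i => ‖conj e * a i‖) (fun i => by rw [hnorm]; exact hin i)
  obtain ⟨g, hg⟩ := hGP.goodG (by omega) (a := fun i => conj e * a i) (fun _ => rfl)
    (fun _ => rfl) hball
  have hB := (hg.baseField hR).rotate he
  have hinj : Function.Injective a := by
    intro i j hij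
    by_contra hne
    have := hpair i j hne
    rw [hij, sub_self, mul_zero] at this
    simp at this
  obtain ⟨r₀, hr₀, H⟩ := hB.small hR hinj hin
  refine ⟨r₀, hr₀, fun D hDR hDa hDr => ?_⟩
  obtain ⟨X, hX⟩ := H D hDR hDa hDr
  obtain ⟨ε, hε, K⟩ := StrictField.stable (by rw [hDR]; exact hR) hX
  refine ⟨ε, hε, fun D' h1 h2 h3 σ hσ h4 => ?_⟩
  obtain ⟨hm, X', hX'⟩ := K D' h1 h2 h3 σ hσ h4
  exact ⟨hm, noClosedGeodesicS_of_field hn hm hX'⟩

end Pool.Agent.CG
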