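import Pool.Agent.Lib.MP_35454f.PWeb

/-!
# Kelvin's theorem: closed motions have periodic velocity; the boundary Bernoulli constant
-/

set_option autoImplicit false

open MeasureTheory Filter Topology Complex Set Metric
open scoped ContDiff Interval

namespace Pool.Agent.CG

variable {n : ℕ}
variable {D : CircularDomain n} {σ : ℂ → ℝ} {u : ℝ → ℂ → ℂ} {p : ℝ → ℂ → ℝ} {φ : ℝ → ℂ → ℂ}

/-- A continuous function vanishing on the interior vanishes on the domain. -/
lemma eq_zero_of_inn (hR : 0 < D.R) {E : Type*} [TopologicalSpace E] [T2Space E] {f g : ℂ → E}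
    (hf : Continuous f) (hg : Continuous g) (h : ∀ z ∈ D.inn, f z = g z) :
    ∀ z ∈ D.carrier, f z = g z := by
  intro z hz
  have h1 : closure D.inn ⊆ {z | f z = g z} := closure_minimal h (isClosed_eq hf hg)
  exact h1 (D.subset_closure hR hz)

lemma zero_of_setIntegral (hR : 0 < D.R) {f : ℂ → ℝ} (hf : Continuous f)
    (h0 : ∀ z ∈ D.carrier, 0 ≤ f z) (hi : ∫ z in D.carrier, f z ≤ 0) :
    ∀ z ∈ D.carrier, f z = 0 := by
  have hae : 0 ≤ᵐ[volume.restrict D.carrier] f :=
    (ae_restrict_iff' D.measurableSet).mpr (Eventually.of_forall h0)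
  have hnn : 0 ≤ ∫ z in D.carrier, f z := setIntegral_nonneg D.measurableSet h0
  have h1 : ∫ z in D.carrier, f z = 0 := le_antisymm hi hnn
  have h2 := (setIntegral_eq_zero_iff_of_nonneg_ae hae
    (hf.continuousOn.integrableOn_compact D.isCompact)).mp h1
  have h3 : f =ᵐ[volume.restrict D.inn] fun _ => 0 :=
    ae_restrict_of_ae_restrict_of_subset D.inn_subset h2
  have h4 : EqOn f (fun _ => 0) D.inn := Measure.eqOn_open_of_ae_eq h3 D.isOpen_inn
    hf.continuousOn continuousOn_const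
  exact eq_zero_of_inn hR hf continuous_const h4

lemma setIntegral_inn {E : Type*} [NormedAddCommGroup E] [NormedSpace ℝ E] (D : CircularDomain n)
    {f g : ℂ → E} (h : ∀ z ∈ D.inn, f z = g z) :
    ∫ z in D.carrier, f z = ∫ z in D.carrier, g z := by
  rw [← setIntegral_congr_set D.ae_eq, ← setIntegral_congr_set D.ae_eq]
  exact setIntegral_congr_fun D.isOpen_inn.measurableSet h

lemma re_fderiv {f : ℂ → ℂ} {z : ℂ} (hf : DifferentiableAt ℝ f z) (w : ℂ) :
    fderiv ℝ (fun z => (f z).re) z w = (fderiv ℝ f z w).re := by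
  have := reCLM.hasFDerivAt.comp z hf.hasFDerivAt
  rw [show (fun z => (f z).re) = reCLM ∘ f from rfl, this.fderiv]
  simp

lemma im_fderiv {f : ℂ → ℂ} {z : ℂ} (hf : DifferentiableAt ℝ f z) (w : ℂ) :
    fderiv ℝ (fun z => (f z).im) z w = (fderiv ℝ f z w).im := by
  have := imCLM.hasFDerivAt.comp z hf.hasFDerivAt
  rw [show (fun z => (f z).im) = imCLM ∘ f from rfl, this.fderiv]
  simp

/-- divergence of a product -/
lemma divE_mul {q : ℂ → ℝ} {δ : ℂ → ℂ} {z : ℂ} (hq : DifferentiableAt ℝ q z)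
    (hδ : DifferentiableAt ℝ δ z) :
    divE (fun z => (q z : ℂ) * δ z) z = fderiv ℝ q z (δ z) + q z * divE δ z := by
  have h1 : HasFDerivAt (fun z => (q z : ℂ)) (ofRealCLM.comp (fderiv ℝ q z)) z :=
    ofRealCLM.hasFDerivAt.comp z hq.hasFDerivAt
  have h2 := h1.fun_mul hδ.hasFDerivAt
  rw [divE, h2.fderiv, rlin (fderiv ℝ q z) (δ z)]
  simp [divE]
  ring

namespace PMot

lemma div_al (h : PMot D σ u p φ) (t : ℝ) {z : ℂ} (hz : z ∈ D.carrier) : divE (al σ u t) z = 0 := by
  have h1 := h.eul.div_zero t z hz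
  rw [divS, div_eq_zero_iff, or_iff_left (h.σne hz)] at h1
  have hd : DifferentiableAt ℝ (al σ u t) z := (h.G1al.hasFDerivAt t z).differentiableAt
  rw [divE, ← re_fderiv hd, ← im_fderiv hd]
  rw [← h1]
  simp [al]

lemma al_tangent (h : PMot D σ u p φ) {c : ℂ} {ρ : ℝ} (hc : IsCircle D c ρ) (t : ℝ) {z : ℂ}
    (hz : ‖z - c‖ = ρ) : dot (al σ u t z) (z - c) = 0 := by
  rw [al, dot_smul_left, hc.tangent h.eul t hz, mul_zero]

/-- A divergence theorem for fields tangent to all boundary circles. -/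
lemma _root_.Pool.Agent.CG.div_zero' (hR : 0 < D.R) {V : ℂ → ℂ} (hV : ContDiff ℝ 1 V)
    (ht : ∀ c ρ, IsCircle D c ρ → ∀ z, ‖z - c‖ = ρ → dot (V z) (z - c) = 0) :
    ∫ z in D.carrier, divE V z = 0 := by
  refine div_zero D hR isOpen_univ (subset_univ _) hV.contDiffOn (fun z hz => ?_) fun i z hz => ?_
  · have := ht 0 D.R (Or.inl ⟨rfl, rfl⟩) z (by simpa using hz)
    simpa using this
  · exact ht _ _ (Or.inr ⟨i, rfl, rfl⟩) z hz

lemma fderiv_φT (h : PMot D σ u p φ) {T : ℝ} (hT : ∀ z ∈ D.carrier, φ T z = z) {z : ℂ}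
    (hz : z ∈ D.inn) : fderiv ℝ (φ T) z = ContinuousLinearMap.id ℝ ℂ := by
  have h1 : φ T =ᶠ[𝓝 z] fun w => w := by
    filter_upwards [D.isOpen_inn.mem_nhds hz] with w hw using hT w (D.inn_subset hw)
  rw [h1.fderiv_eq]
  exact fderiv_fun_id

/-- **Kelvin's theorem**: the velocity is the same at time `0` and time `T`. -/
lemma kelvin_al (h : PMot D σ u p φ) (hR : 0 < D.R) {T : ℝ} (hT : ∀ z ∈ D.carrier, φ T z = z) :
    ∀ z ∈ D.carrier, al σ u T z = al σ u 0 z := by
  set δ : ℂ → ℂ := fun z => al σ u T z - al σ u 0 z with hδ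
  have hδ1 : ContDiff ℝ 1 δ := (h.G1al.slice T).sub (h.G1al.slice 0)
  have hq := h.contDiff_act T
  have hV : ContDiff ℝ 1 fun z => (act σ u p φ T z : ℂ) * δ z :=
    (ofRealCLM.contDiff.comp hq).mul hδ1
  have h1 := div_zero' hR hV fun c ρ hc z hz => by
    rw [dot_smul_left, hδ, dot_sub_left, h.al_tangent hc T hz, h.al_tangent hc 0 hz]
    simp
  have h2 : ∀ z ∈ D.inn, divE (fun z => (act σ u p φ T z : ℂ) * δ z) z = normSq (δ z) := by
    intro z hz
    have hzM := D.inn_subset hz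
    rw [divE_mul (hq.differentiable one_ne_zero z) (hδ1.differentiable one_ne_zero z)]
    have h3 : divE δ z = 0 := by
      have h4 : divE δ z = divE (al σ u T) z - divE (al σ u 0) z := by
        rw [divE, divE, divE, hδ]
        rw [fderiv_fun_sub (h.G1al.hasFDerivAt T z).differentiableAt
          (h.G1al.hasFDerivAt 0 z).differentiableAt]
        simp
        ring
      rw [h4, h.div_al T hzM, h.div_al 0 hzM, sub_zero]
    rw [h3, mul_zero, add_zero, h.weber T hz, h.fderiv_φT hT hz, hT z hzM,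
      ContinuousLinearMap.id_apply, ← dot_sub_left, normSq_apply]
    rfl
  rw [setIntegral_inn D h2] at h1
  intro z hz
  have h3 := zero_of_setIntegral hR (continuous_normSq.comp hδ1.continuous)
    (fun z _ => normSq_nonneg _) h1.le z hz
  have h4 : δ z = 0 := normSq_eq_zero.mp h3
  exact sub_eq_zero.mp h4

lemma kelvin (h : PMot D σ u p φ) (hR : 0 < D.R) {T : ℝ} (hT : ∀ z ∈ D.carrier, φ T z = z) :
    ∀ z ∈ D.carrier, u T z = u 0 z := by
  intro z hz
  have h1 := h.kelvin_al hR hT z hz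
  simp only [al] at h1
  exact mul_left_cancel₀ (ofReal_ne_zero.mpr (h.σne hz)) h1

/-- All particles have the same action. -/
lemma act_const (h : PMot D σ u p φ) (hR : 0 < D.R) {T : ℝ} (hT : ∀ z ∈ D.carrier, φ T z = z) :
    ∃ c, ∀ z ∈ D.carrier, act σ u p φ T z = c := by
  have hq := h.contDiff_act T
  obtain ⟨c, hc⟩ := D.isOpen_inn.exists_is_const_of_fderiv_eq_zero D.isPreconnected_inn
    (hq.differentiable one_ne_zero).differentiableOn (fun z hz => by
      ext w
      rw [h.weber T hz, h.fderiv_φT hT hz, hT z (D.inn_subset hz),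
        ContinuousLinearMap.id_apply, h.kelvin_al hR hT z (D.inn_subset hz), sub_self]
      rfl)
  exact ⟨c, eq_zero_of_inn hR hq.continuous continuous_const fun z hz => hc z hz⟩

end PMot

end Pool.Agent.CG
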