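import Pool.Agent.Lib.MP_35454f.PBd

/-!
# The stress identity and the main theorem for circular domains
-/

set_option autoImplicit false

open MeasureTheory Filter Topology Complex Set Metric
open scoped ContDiff Interval

namespace Pool.Agent.CG

variable {n : ℕ}
variable {D : CircularDomain n} {σ : ℂ → ℝ} {u : ℝ → ℂ → ℂ} {p : ℝ → ℂ → ℝ} {φ : ℝ → ℂ → ℂ}
variable {X : ℂ → ℂ}

/-- The field may be taken to be defined on the whole plane. -/
lemma IsFieldS.exists_global (h : IsFieldS D σ X) :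
    ∃ X' : ℂ → ℂ, ContDiff ℝ 1 X' ∧ IsFieldS D σ X' := by
  obtain ⟨U, hU, hDU, hV⟩ := h.contDiff
  obtain ⟨η, hη, hηc, hηU, hη1, -⟩ := exists_cut D.isCompact hU hDU
  have hη' : ContDiff ℝ 1 η := hη.of_le (by simp)
  set W : ℂ → ℂ := fun z => (η z : ℂ) * X z with hW
  have hre : ContDiff ℝ 1 fun z => η z * (X z).re :=
    contDiff_mul_loc hU hη' hηU (reCLM.contDiff.comp_contDiffOn hV)
  have him : ContDiff ℝ 1 fun z => η z * (X z).im :=
    contDiff_mul_loc hU hη' hηU (imCLM.contDiff.comp_contDiffOn hV)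
  have hWc : ContDiff ℝ 1 W := by
    have e : W = fun z => ((η z * (X z).re : ℝ) : ℂ) + ((η z * (X z).im : ℝ) : ℂ) * I := by
      ext1 z
      apply Complex.ext <;> simp [hW]
    rw [e]
    exact (ofRealCLM.contDiff.comp hre).add ((ofRealCLM.contDiff.comp him).mul contDiff_const)
  have hEq : ∀ z ∈ D.carrier, W =ᶠ[𝓝 z] X := by
    intro z hz
    filter_upwards [(eventually_nhdsSet_iff_forall.mp hη1) z hz] with w hw
    simp [hW, hw]
  refine ⟨W, hWc, ⟨⟨univ, isOpen_univ, subset_univ _, hWc.contDiffOn⟩, ?_, ?_, ?_, ?_⟩⟩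
  · intro z hz
    rw [← h.div_one z hz, divS, divS]
    have e1 : (fun w => σ w * (W w).re) =ᶠ[𝓝 z] fun w => σ w * (X w).re := by
      filter_upwards [hEq z hz] with w hw using by rw [hw]
    have e2 : (fun w => σ w * (W w).im) =ᶠ[𝓝 z] fun w => σ w * (X w).im := by
      filter_upwards [hEq z hz] with w hw using by rw [hw]
    rw [e1.fderiv_eq, e2.fderiv_eq]
  · intro z hz v hv
    have := h.strain z hz v hv
    rw [nablaS] at this ⊢
    rw [(hEq z hz).fderiv_eq, (hEq z hz).self_of_nhds]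
    exact this
  · intro z hz
    rw [(hEq z (D.outer_mem hz)).self_of_nhds]
    exact h.outer z hz
  · intro i z hz
    rw [(hEq z (D.inner_mem hz)).self_of_nhds]
    exact h.inner i z hz

lemma divE_neg (V : ℂ → ℂ) (z : ℂ) : divE (fun z => - V z) z = - divE V z := by
  simp only [divE, fderiv_fun_neg, neg_apply, neg_re, neg_im]
  ring

lemma divE_sub {V W : ℂ → ℂ} {z : ℂ} (hV : DifferentiableAt ℝ V z) (hW : DifferentiableAt ℝ W z) :
    divE (fun z => V z - W z) z = divE V z - divE W z := by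
  simp only [divE, fderiv_fun_sub hV hW, sub_apply, sub_re, sub_im]
  ring

lemma IsFieldS.div_Y (hX : IsFieldS D σ X) (hσ : IsMetric D σ) (hX1 : ContDiff ℝ 1 X) {z : ℂ}
    (hz : z ∈ D.carrier) : divE (fun z => (σ z : ℂ) * X z) z = σ z := by
  have h1 := hX.div_one z hz
  rw [divS, div_eq_iff (hσ.pos z hz).ne', one_mul] at h1
  have hd : DifferentiableAt ℝ (fun z => (σ z : ℂ) * X z) z := by
    have hc : ContDiff ℝ 1 (fun z => (σ z : ℂ) * X z) :=
      (ofRealCLM.contDiff.comp hσ.contDiff).mul hX1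
    exact hc.differentiable one_ne_zero z
  rw [divE, ← re_fderiv hd, ← im_fderiv hd]
  conv_rhs => rw [← h1]
  simp

namespace PMot

/-- The stress density. -/
noncomputable def NN (σ : ℂ → ℝ) (u : ℝ → ℂ → ℂ) (X : ℂ → ℂ) (t : ℝ) (z : ℂ) : ℝ :=
  σ z * (dot (al σ u t z) (fderiv ℝ X z (u t z)) + 1 / 2 * (fderiv ℝ σ z (X z) * normSq (u t z)) -
    kin σ u t z)

/-- The other side. -/
noncomputable def QQ (σ : ℂ → ℝ) (u : ℝ → ℂ → ℂ) (p : ℝ → ℂ → ℝ) (X : ℂ → ℂ) (t : ℝ) (z : ℂ) : ℝ :=
  σ z * ((fderiv ℝ (kin σ u t) z + fderiv ℝ (p t) z) (X z) +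
    dot (deriv (fun s => al σ u s z) t) (X z))

/-- The test field. -/
noncomputable def WW (σ : ℂ → ℝ) (u : ℝ → ℂ → ℂ) (X : ℂ → ℂ) (t : ℝ) (z : ℂ) : ℂ :=
  (dot (al σ u t z) (X z) : ℂ) * al σ u t z - (kin σ u t z : ℂ) * ((σ z : ℂ) * X z)

lemma contDiff_dot {f g : ℂ → ℂ} (hf : ContDiff ℝ 1 f) (hg : ContDiff ℝ 1 g) :
    ContDiff ℝ 1 fun z => dot (f z) (g z) :=
  ((reCLM.contDiff.comp hf).mul (reCLM.contDiff.comp hg)).add
    ((imCLM.contDiff.comp hf).mul (imCLM.contDiff.comp hg))

lemma fderiv_dot {f g : ℂ → ℂ} {z : ℂ} (hf : DifferentiableAt ℝ f z) (hg : DifferentiableAt ℝ g z)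
    (w : ℂ) : fderiv ℝ (fun z => dot (f z) (g z)) z w =
      dot (fderiv ℝ f z w) (g z) + dot (f z) (fderiv ℝ g z w) := by
  have fr : HasFDerivAt (fun z => (f z).re) (reCLM.comp (fderiv ℝ f z)) z :=
    reCLM.hasFDerivAt.comp z hf.hasFDerivAt
  have fi : HasFDerivAt (fun z => (f z).im) (imCLM.comp (fderiv ℝ f z)) z :=
    imCLM.hasFDerivAt.comp z hf.hasFDerivAt
  have gr : HasFDerivAt (fun z => (g z).re) (reCLM.comp (fderiv ℝ g z)) z :=
    reCLM.hasFDerivAt.comp z hg.hasFDerivAt
  have gi : HasFDerivAt (fun z => (g z).im) (imCLM.comp (fderiv ℝ g z)) z :=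
    imCLM.hasFDerivAt.comp z hg.hasFDerivAt
  have h1 := (fr.fun_mul gr).fun_add (fi.fun_mul gi)
  have h2 : (fun z => dot (f z) (g z)) = fun z => (f z).re * (g z).re + (f z).im * (g z).im := rfl
  rw [h2, h1.fderiv]
  simp [dot]
  ring

lemma contDiff_WW (h : PMot D σ u p φ) (hX1 : ContDiff ℝ 1 X) (t : ℝ) :
    ContDiff ℝ 1 (WW σ u X t) :=
  ((ofRealCLM.contDiff.comp (contDiff_dot (h.G1al.slice t) hX1)).mul (h.G1al.slice t)).sub
    ((ofRealCLM.contDiff.comp (h.G1kin.slice t)).mul
      ((ofRealCLM.contDiff.comp h.met.contDiff).mul hX1))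

lemma div_WW (h : PMot D σ u p φ) (hX : IsFieldS D σ X) (hX1 : ContDiff ℝ 1 X) (t : ℝ) {z : ℂ}
    (hz : z ∈ D.carrier) : divE (WW σ u X t) z = NN σ u X t z - QQ σ u p X t z := by
  have hal : DifferentiableAt ℝ (al σ u t) z := (h.G1al.hasFDerivAt t z).differentiableAt
  have hXd : DifferentiableAt ℝ X z := hX1.differentiable one_ne_zero z
  have hdot : ContDiff ℝ 1 fun z => dot (al σ u t z) (X z) := contDiff_dot (h.G1al.slice t) hX1
  have hY : ContDiff ℝ 1 fun z => (σ z : ℂ) * X z :=
    (ofRealCLM.contDiff.comp h.met.contDiff).mul hX1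
  have hk : DifferentiableAt ℝ (kin σ u t) z := (h.G1kin.hasFDerivAt t z).differentiableAt
  have e1 : divE (WW σ u X t) z =
      divE (fun z => (dot (al σ u t z) (X z) : ℂ) * al σ u t z) z -
      divE (fun z => (kin σ u t z : ℂ) * ((σ z : ℂ) * X z)) z := by
    refine divE_sub ?_ ?_
    · exact ((ofRealCLM.contDiff.comp hdot).mul (h.G1al.slice t)).differentiable one_ne_zero z
    · exact ((ofRealCLM.contDiff.comp (h.G1kin.slice t)).mul hY).differentiable one_ne_zero z
  rw [e1, divE_mul (hdot.differentiable one_ne_zero z) hal,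
    divE_mul hk (hY.differentiable one_ne_zero z), h.div_al t hz, mul_zero, add_zero,
    hX.div_Y h.met hX1 hz]
  have e2 := h.euler_cov t hz (X z)
  have e3 := h.fderiv_kin t z (X z)
  rw [dot_add_left] at e2
  have e4 : fderiv ℝ (fun z => dot (al σ u t z) (X z)) z (al σ u t z) =
      σ z * (dot (fderiv ℝ (al σ u t) z (u t z)) (X z) +
        dot (al σ u t z) (fderiv ℝ X z (u t z))) := by
    rw [fderiv_dot hal hXd]
    have e5 : al σ u t z = (σ z) • u t z := by rw [al, real_smul]
    have e8 : fderiv ℝ (al σ u t) z (al σ u t z) = (σ z : ℂ) * fderiv ℝ (al σ u t) z (u t z) := by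
      conv_lhs => rw [e5]
      rw [map_smul, real_smul]
    have e9 : fderiv ℝ X z (al σ u t z) = (σ z : ℂ) * fderiv ℝ X z (u t z) := by
      conv_lhs => rw [e5]
      rw [map_smul, real_smul]
    rw [e8, e9, dot_smul_left, dot_smul_right]
    ring
  have e6 : fderiv ℝ (kin σ u t) z ((σ z : ℂ) * X z) = σ z * fderiv ℝ (kin σ u t) z (X z) := by
    rw [← real_smul, map_smul, smul_eq_mul]
  have e7 : dot (al σ u t z) (fderiv ℝ (u t) z (X z)) =
      σ z * dot (u t z) (fderiv ℝ (u t) z (X z)) := by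
    rw [al, dot_smul_left]
  rw [e4, e6, NN, QQ]
  simp only [add_apply]
  rw [e7] at e2
  linear_combination (σ z) * e2 + (σ z) * e3

lemma int_N_le (h : PMot D σ u p φ) (hR : 0 < D.R) (hX : IsFieldS D σ X) (hX1 : ContDiff ℝ 1 X)
    (t : ℝ) : ∫ z in D.carrier, (NN σ u X t z - QQ σ u p X t z) ≤ 0 := by
  have hW := h.contDiff_WW hX1 t
  have hkin : ∀ z ∈ D.carrier, 0 ≤ kin σ u t z * σ z := by
    intro z hz
    have h1 := h.met.pos z hz
    have h2 := normSq_nonneg (u t z)
    rw [kin]
    positivity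
  have key : ∀ c ρ, IsCircle D c ρ → ∀ z, ‖z - c‖ = ρ →
      dot (-WW σ u X t z) (z - c) = kin σ u t z * σ z * dot (X z) (z - c) := by
    intro c ρ hc z hz
    rw [dot_neg_left, WW, dot_sub_left, dot_smul_left, dot_smul_left, dot_smul_left,
      h.al_tangent hc t hz]
    ring
  have h1 := div_ineq D hR isOpen_univ (subset_univ _) (V := fun z => - WW σ u X t z)
    hW.neg.contDiffOn (fun z hz => ?_) fun i z hz => ?_
  · have h2 : ∫ z in D.carrier, divE (fun z => - WW σ u X t z) z =
        - ∫ z in D.carrier, (NN σ u X t z - QQ σ u p X t z) := by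
      rw [← integral_neg]
      refine setIntegral_congr_fun D.measurableSet fun z hz => ?_
      rw [divE_neg, h.div_WW hX hX1 t hz]
    rw [h2] at h1
    linarith
  · have h3 := key 0 D.R (Or.inl ⟨rfl, rfl⟩) z (by simpa using hz)
    rw [sub_zero] at h3
    rw [h3]
    exact mul_nonneg (hkin z (D.outer_mem hz)) (hX.outer z hz)
  · have h3 := key _ _ (Or.inr ⟨i, rfl, rfl⟩) z hz
    rw [h3]
    exact mul_nonpos_of_nonneg_of_nonpos (hkin z (D.inner_mem hz)) (hX.inner i z hz)

lemma gcσ (h : PMot D σ u p φ) : Continuous fun q : ℝ × ℂ => σ q.2 :=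
  h.met.contDiff.continuous.comp continuous_snd

lemma gcN (h : PMot D σ u p φ) (hX1 : ContDiff ℝ 1 X) : GC (NN σ u X) := by
  have h1 : Continuous fun q : ℝ × ℂ => fderiv ℝ X q.2 (u q.1 q.2) :=
    ((hX1.continuous_fderiv one_ne_zero).comp continuous_snd).clm_apply h.G1u.gc
  have h2 : Continuous fun q : ℝ × ℂ => fderiv ℝ σ q.2 (X q.2) :=
    ((h.met.contDiff.continuous_fderiv one_ne_zero).comp continuous_snd).clm_apply
      (hX1.continuous.comp continuous_snd)
  have h3 : Continuous fun q : ℝ × ℂ => normSq (u q.1 q.2) := continuous_normSq.comp h.G1u.gc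
  exact h.gcσ.mul (((cont_dot h.G1al.gc h1).add (continuous_const.mul (h2.mul h3))).sub
    h.G1kin.gc)

lemma gcQ (h : PMot D σ u p φ) (hX1 : ContDiff ℝ 1 X) : GC (QQ σ u p X) := by
  have h1 : Continuous fun q : ℝ × ℂ => X q.2 := hX1.continuous.comp continuous_snd
  exact h.gcσ.mul ((Continuous.clm_apply h.gc_dber h1).add (cont_dot h.G1al.gc_deriv h1))

/-- change of variables by the flow -/
lemma change (h : PMot D σ u p φ) (t : ℝ) (f : ℂ → ℝ) :
    ∫ z in D.carrier, f (φ t z) * σ z = ∫ z in D.carrier, f z * σ z := by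
  have h1 := integral_image_eq_integral_abs_det_fderiv_smul (volume : Measure ℂ)
    (s := D.carrier) (f := φ t) (f' := fun z => fderiv ℝ (φ t) z) D.measurableSet
    (fun x _ => (h.c1φ.hasFDerivAt t x).hasFDerivWithinAt) (h.bijOn t).injOn
    (fun z => f z * σ z)
  rw [(h.bijOn t).image_eq] at h1
  rw [h1]
  refine setIntegral_congr_fun D.measurableSet fun z hz => ?_
  have h2 := h.area t z hz
  have h3 := h.met.pos z hz
  have h4 := h.met.pos _ (h.mem t hz)
  have h5 : 0 < (fderiv ℝ (φ t) z).det := by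
    by_contra hcon
    push Not at hcon
    nlinarith
  simp only [smul_eq_mul]
  rw [abs_of_pos h5, ← h2]
  ring

lemma setInt {f : ℂ → ℝ} (hf : Continuous f) : IntegrableOn f D.carrier :=
  hf.continuousOn.integrableOn_compact D.isCompact

/-- the integral over time of `Q` -/
lemma int_Q (h : PMot D σ u p φ) (hn : 2 ≤ n) (hR : 0 < D.R) (hX : IsFieldS D σ X)
    (hX1 : ContDiff ℝ 1 X) {T : ℝ} (hT : ∀ z ∈ D.carrier, φ T z = z) :
    ∫ t in (0:ℝ)..T, ∫ z in D.carrier, QQ σ u p X t z =
      - ∫ t in (0:ℝ)..T, ∫ z in D.carrier, 2 * kin σ u t z * σ z := by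
  obtain ⟨c, hc⟩ := h.act_const hR hT
  -- the function `H`
  set H : ℂ → ℝ := fun z => (∫ t in (0:ℝ)..T, ber σ u p t z) + c with hH
  have hH1 : ContDiff ℝ 1 H := (contDiff_parG h.gcber h.gc_dber
    (fun t z => h.hasFDerivAt_ber t z) 0 T).add contDiff_const
  have hHd : ∀ z, HasFDerivAt H
      (∫ t in (0:ℝ)..T, (fderiv ℝ (kin σ u t) z + fderiv ℝ (p t) z)) z := fun z =>
    (hasFDerivAt_parG h.gcber h.gc_dber (fun t z => h.hasFDerivAt_ber t z) 0 T z).add_const c
  have hHb : ∀ c ρ, IsCircle D c ρ → ∀ z, ‖z - c‖ = ρ → H z = 0 := by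
    intro c' ρ hc' z hz
    rw [hH]
    simp only
    rw [h.ber_boundary hn hR hc' hT hz, hc z (hc'.mem hz)]
    ring
  have hY : ContDiff ℝ 1 fun z => (σ z : ℂ) * X z :=
    (ofRealCLM.contDiff.comp h.met.contDiff).mul hX1
  -- divergence theorem for `H Y`
  have e1 : ∫ z in D.carrier, (fderiv ℝ H z ((σ z : ℂ) * X z) + H z * σ z) = 0 := by
    have h1 := div_zero' hR (V := fun z => (H z : ℂ) * ((σ z : ℂ) * X z))
      ((ofRealCLM.contDiff.comp hH1).mul hY) fun c ρ hc z hz => by
        rw [dot_smul_left, hHb c ρ hc z hz, zero_mul]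
    rw [← h1]
    refine setIntegral_congr_fun D.measurableSet fun z hz => ?_
    rw [divE_mul (hH1.differentiable one_ne_zero z) (hY.differentiable one_ne_zero z),
      hX.div_Y h.met hX1 hz]
  -- the time integral of `Q` is `DH (Y)`
  have e2 : ∀ z ∈ D.carrier, ∫ t in (0:ℝ)..T, QQ σ u p X t z =
      fderiv ℝ H z ((σ z : ℂ) * X z) := by
    intro z hz
    have i1 : IntervalIntegrable (fun t => (fderiv ℝ (kin σ u t) z + fderiv ℝ (p t) z) (X z))
        volume 0 T := ((h.gc_dber.slice_t z).clm_apply continuous_const).intervalIntegrable _ _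
    have i2 : IntervalIntegrable (fun t => dot (deriv (fun s => al σ u s z) t) (X z))
        volume 0 T := (cont_dot (h.G1al.gc_deriv.slice_t z) continuous_const).intervalIntegrable _ _
    have h3 : ∫ t in (0:ℝ)..T, dot (deriv (fun s => al σ u s z) t) (X z) = 0 := by
      have h4 : ∀ t, HasDerivAt (fun s => dot (al σ u s z) (X z))
          (dot (deriv (fun s => al σ u s z) t) (X z)) t := by
        intro t
        refine (HasDerivAt.dot' (h.G1al.hasDerivAt t z) (hasDerivAt_const t (X z))).congr_deriv ?_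
        rw [dot_zero_right, add_zero]
      rw [intervalIntegral.integral_eq_sub_of_hasDerivAt (fun t _ => h4 t) i2,
        h.kelvin_al hR hT z hz, sub_self]
    simp only [QQ]
    rw [intervalIntegral.integral_const_mul, intervalIntegral.integral_add i1 i2, h3, add_zero,
      (hHd z).fderiv, ContinuousLinearMap.intervalIntegral_apply
        ((h.gc_dber.slice_t z).intervalIntegrable _ _), ← intervalIntegral.integral_const_mul]
    congr 1
    ext t
    rw [← real_smul, map_smul, smul_eq_mul]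
  -- the integral of `H`
  have e3 : ∫ z in D.carrier, H z * σ z =
      ∫ t in (0:ℝ)..T, ∫ z in D.carrier, 2 * kin σ u t z * σ z := by
    have g1 : GC fun t z => ber σ u p t z * σ z := Continuous.mul h.gcber h.gcσ
    have g2 : GC fun t z => lag σ u p t (φ t z) * σ z :=
      Continuous.mul (h.gc_comp h.gclag) h.gcσ
    have g3 : GC fun t z => lag σ u p t z * σ z := Continuous.mul h.gclag h.gcσ
    have h1 : ∀ z ∈ D.carrier, H z * σ z = (∫ t in (0:ℝ)..T, ber σ u p t z * σ z) +
        ∫ t in (0:ℝ)..T, lag σ u p t (φ t z) * σ z := by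
      intro z hz
      rw [intervalIntegral.integral_mul_const, intervalIntegral.integral_mul_const, ← add_mul]
      congr 1
      rw [hH]
      simp only
      rw [← hc z hz]
      rfl
    have s1 : Continuous fun t => ∫ z in D.carrier, ber σ u p t z * σ z :=
      g1.continuous_setIntegral D.isCompact
    have s3 : Continuous fun t => ∫ z in D.carrier, lag σ u p t z * σ z :=
      g3.continuous_setIntegral D.isCompact
    rw [setIntegral_congr_fun D.measurableSet h1,
      integral_add (setInt (g1.continuous_integral 0 T)) (setInt (g2.continuous_integral 0 T)),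
      g1.fubini D.isCompact, g2.fubini D.isCompact]
    simp only [h.change]
    rw [← intervalIntegral.integral_add (s1.intervalIntegrable _ _) (s3.intervalIntegrable _ _)]
    congr 1
    ext t
    rw [← integral_add (setInt (g1.slice t)) (setInt (g3.slice t))]
    congr 1
    ext z
    rw [ber, lag]
    ring
  have h5 : Continuous fun z => fderiv ℝ H z ((σ z : ℂ) * X z) :=
    (hH1.continuous_fderiv one_ne_zero).clm_apply hY.continuous
  have h6 : Continuous fun z => H z * σ z := hH1.continuous.mul h.met.contDiff.continuous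
  rw [integral_add (setInt h5) (setInt h6), e3] at e1
  rw [← (h.gcQ hX1).fubini D.isCompact, setIntegral_congr_fun D.measurableSet e2]
  linarith

/-- The integrand in the final inequality. -/
lemma NN_eq (h : PMot D σ u p φ) (t : ℝ) {z : ℂ} (hz : z ∈ D.carrier) :
    NN σ u X t z + 2 * kin σ u t z * σ z =
      σ z ^ 2 * (dot (nablaS σ X z (u t z)) (u t z) + 1 / 2 * dot (u t z) (u t z)) := by
  have hs := h.σne hz
  have hs' : (σ z : ℂ) ≠ 0 := ofReal_ne_zero.mpr hs
  have h1 : (2 * (σ z : ℂ)) ≠ 0 := mul_ne_zero two_ne_zero hs'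
  have e1 : dot (nablaS σ X z (u t z)) (u t z) = dot (u t z) (fderiv ℝ X z (u t z)) +
      1 / (2 * σ z) * (fderiv ℝ σ z (X z) * normSq (u t z)) := by
    rw [nablaS, rlin (fderiv ℝ σ z) (X z), normSq_apply]
    have e2 : (((fderiv ℝ σ z 1 : ℝ) : ℂ) - I * ((fderiv ℝ σ z I : ℝ) : ℂ)) / (2 * (σ z : ℂ)) *
        u t z * X z = ((1 / (2 * σ z) : ℝ) : ℂ) *
        ((((fderiv ℝ σ z 1 : ℝ) : ℂ) - I * ((fderiv ℝ σ z I : ℝ) : ℂ)) * (u t z * X z)) := by
      push_cast
      field_simp
    rw [e2, dot_add_left, dot_smul_left]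
    simp only [dot, mul_re, mul_im, sub_re, sub_im, ofReal_re, ofReal_im, Complex.I_re,
      Complex.I_im]
    ring
  rw [e1, NN, kin, al, dot_smul_left, normSq_apply, dot_self, ← normSq_eq_norm_sq, normSq_apply]
  field_simp
  ring

/-- **The velocity of a closed motion vanishes initially.** -/
lemma u_zero (h : PMot D σ u p φ) (hn : 2 ≤ n) (hR : 0 < D.R) (hX : IsFieldS D σ X)
    (hX1 : ContDiff ℝ 1 X) {T : ℝ} (hT0 : 0 < T) (hT : ∀ z ∈ D.carrier, φ T z = z) :
    ∀ z ∈ D.carrier, u 0 z = 0 := by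
  set f : ℝ → ℂ → ℝ := fun t z => NN σ u X t z + 2 * kin σ u t z * σ z with hf
  have gk : GC fun t z => 2 * kin σ u t z * σ z :=
    (continuous_const.mul h.G1kin.gc).mul h.gcσ
  have gf : GC f := (h.gcN hX1).add gk
  have fpos : ∀ t, ∀ z ∈ D.carrier, 0 ≤ f t z := by
    intro t z hz
    rw [hf]
    simp only
    rw [h.NN_eq t hz]
    refine mul_nonneg (sq_nonneg _) ?_
    by_cases hu : u t z = 0
    · simp [hu, nablaS, dot]
    · have := hX.strain z hz (u t z) hu
      linarith
  have hIN : Continuous fun t => ∫ z in D.carrier, NN σ u X t z :=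
    (h.gcN hX1).continuous_setIntegral D.isCompact
  have hIQ : Continuous fun t => ∫ z in D.carrier, QQ σ u p X t z :=
    (h.gcQ hX1).continuous_setIntegral D.isCompact
  have hIk : Continuous fun t => ∫ z in D.carrier, 2 * kin σ u t z * σ z :=
    gk.continuous_setIntegral D.isCompact
  have hIf : Continuous fun t => ∫ z in D.carrier, f t z := gf.continuous_setIntegral D.isCompact
  have h1 : ∀ t, ∫ z in D.carrier, NN σ u X t z ≤ ∫ z in D.carrier, QQ σ u p X t z := by
    intro t
    have h2 := h.int_N_le hR hX hX1 t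
    rw [integral_sub (setInt ((h.gcN hX1).slice t)) (setInt ((h.gcQ hX1).slice t))] at h2
    linarith
  have h2 : ∫ t in (0:ℝ)..T, ∫ z in D.carrier, f t z ≤ 0 := by
    have h3 : ∀ t, ∫ z in D.carrier, f t z =
        (∫ z in D.carrier, NN σ u X t z) + ∫ z in D.carrier, 2 * kin σ u t z * σ z := fun t =>
      integral_add (setInt ((h.gcN hX1).slice t)) (setInt (gk.slice t))
    simp only [h3]
    rw [intervalIntegral.integral_add (hIN.intervalIntegrable _ _) (hIk.intervalIntegrable _ _)]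
    have h4 : ∫ t in (0:ℝ)..T, ∫ z in D.carrier, NN σ u X t z ≤
        ∫ t in (0:ℝ)..T, ∫ z in D.carrier, QQ σ u p X t z :=
      intervalIntegral.integral_mono_on hT0.le (hIN.intervalIntegrable _ _)
        (hIQ.intervalIntegrable _ _) fun t _ => h1 t
    rw [h.int_Q hn hR hX hX1 hT] at h4
    linarith
  have h0 : ∫ z in D.carrier, f 0 z ≤ 0 := by
    by_contra hcon
    push Not at hcon
    have h5 := intervalIntegral.integral_pos hT0 hIf.continuousOn
      (fun t _ => setIntegral_nonneg D.measurableSet (fpos t)) ⟨0, ⟨le_rfl, hT0.le⟩, hcon⟩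
    linarith
  intro z hz
  have h6 := zero_of_setIntegral hR (gf.slice 0) (fpos 0) h0 z hz
  by_contra hu
  rw [hf] at h6
  simp only at h6
  rw [h.NN_eq 0 hz] at h6
  have h7 := hX.strain z hz (u 0 z) hu
  have h8 := h.met.pos z hz
  have h9 : 0 < σ z ^ 2 * (dot (nablaS σ X z (u 0 z)) (u 0 z) + 1 / 2 * dot (u 0 z) (u 0 z)) :=
    mul_pos (by positivity) (by linarith)
  linarith

/-- **Conservation of energy**. -/
lemma energy (h : PMot D σ u p φ) (hR : 0 < D.R) (t : ℝ) :
    ∫ z in D.carrier, kin σ u t z * σ z = ∫ z in D.carrier, kin σ u 0 z * σ z := by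
  have g1 : GC fun t z => deriv (fun s => kin σ u s z) t * σ z :=
    Continuous.mul h.G1kin.gc_deriv h.gcσ
  have g2 : ∀ t, Continuous fun z => kin σ u t z * σ z := fun t =>
    (h.G1kin.gc.slice t).mul h.met.contDiff.continuous
  have e1 : ∀ z, kin σ u t z * σ z = kin σ u 0 z * σ z +
      ∫ s in (0:ℝ)..t, deriv (fun s => kin σ u s z) s * σ z := by
    intro z
    rw [intervalIntegral.integral_eq_sub_of_hasDerivAt
      (fun s _ => (h.G1kin.hasDerivAt s z).mul_const (σ z)) ((g1.slice_t z).intervalIntegrable _ _)]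
    ring
  simp only [e1]
  rw [integral_add (setInt (g2 0)) (setInt (g1.continuous_integral 0 t)), g1.fubini D.isCompact]
  have e2 : ∀ s, ∫ z in D.carrier, deriv (fun s => kin σ u s z) s * σ z = 0 := by
    intro s
    have hber : ContDiff ℝ 1 (ber σ u p s) := (h.G1kin.slice s).add (h.eul.p_contDiff s)
    have h1 := div_zero' hR (V := fun z => (ber σ u p s z : ℂ) * al σ u s z)
      ((ofRealCLM.contDiff.comp hber).mul (h.G1al.slice s)) fun c ρ hc z hz => by
        rw [dot_smul_left, h.al_tangent hc s hz, mul_zero]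
    have h2 : ∀ z ∈ D.carrier, divE (fun z => (ber σ u p s z : ℂ) * al σ u s z) z =
        - (deriv (fun s => kin σ u s z) s * σ z) := by
      intro z hz
      rw [divE_mul (hber.differentiable one_ne_zero z) (h.G1al.hasFDerivAt s z).differentiableAt,
        h.div_al s hz, mul_zero, add_zero, (h.hasFDerivAt_ber s z).fderiv]
      have e3 := h.euler_cov s hz (u s z)
      rw [dot_add_left, h.fderiv_al, h.deriv_al, dot_smul_left, dot_add_left, dot_smul_left,
        dot_smul_left] at e3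
      have e4 := h.fderiv_kin s z (u s z)
      rw [h.deriv_kin]
      have e5 : (fderiv ℝ (kin σ u s) z + fderiv ℝ (p s) z) (al σ u s z) =
          σ z * (fderiv ℝ (kin σ u s) z (u s z) + fderiv ℝ (p s) z (u s z)) := by
        rw [al, ← real_smul, map_smul, smul_eq_mul, add_apply]
      rw [e5]
      rw [al, dot_smul_left] at e3
      have e6 : dot (deriv (fun s => u s z) s) (u s z) = dot (u s z) (deriv (fun s => u s z) s) := by
        simp [dot]; ring
      have e7 : dot (fderiv ℝ (u s) z (u s z)) (u s z) = dot (u s z) (fderiv ℝ (u s) z (u s z)) := by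
        simp [dot]; ring
      have e8 : dot (u s z) (u s z) = normSq (u s z) := by rw [normSq_apply]; rfl
      rw [e6, e7, e8] at e3
      linear_combination (σ z) * e3 + 2 * σ z * e4
    rw [setIntegral_congr_fun D.measurableSet h2, integral_neg, neg_eq_zero] at h1
    exact h1
  simp only [e2]
  simp

/-- **A closed motion is constant.** -/
theorem const (h : PMot D σ u p φ) (hn : 2 ≤ n) (hX : IsFieldS D σ X) {T : ℝ} (hT0 : 0 < T)
    (hT : ∀ z ∈ D.carrier, φ T z = z) (t : ℝ) {z : ℂ} (hz : z ∈ D.carrier) : φ t z = z := by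
  have hR : 0 < D.R := D.R_pos ⟨0, by omega⟩
  obtain ⟨X', hX1, hX'⟩ := hX.exists_global
  have h0 := h.u_zero hn hR hX' hX1 hT0 hT
  have hE : ∀ t, ∀ z ∈ D.carrier, u t z = 0 := by
    intro t z hz
    have e1 := h.energy hR t
    have e2 : ∫ z in D.carrier, kin σ u 0 z * σ z = 0 := by
      have e3 : ∀ z ∈ D.carrier, kin σ u 0 z * σ z = (fun _ => (0:ℝ)) z := by
        intro z hz
        simp [kin, h0 z hz]
      rw [setIntegral_congr_fun D.measurableSet e3]
      simp
    rw [e2] at e1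
    have e4 := zero_of_setIntegral hR ((h.G1kin.gc.slice t).mul h.met.contDiff.continuous)
      (fun z hz => by
        have h1 := h.met.pos z hz
        have h2 := normSq_nonneg (u t z)
        change 0 ≤ kin σ u t z * σ z
        rw [kin]
        positivity) e1.le z hz
    have h1 := h.met.pos z hz
    have e5 : kin σ u t z * σ z = 0 := e4
    rw [kin] at e5
    rcases mul_eq_zero.mp e5 with h2 | h2
    · rcases mul_eq_zero.mp h2 with h3 | h3
      · norm_num at h3
      · rcases mul_eq_zero.mp h3 with h4 | h4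
        · exact absurd h4 h1.ne'
        · exact normSq_eq_zero.mp h4
    · exact absurd h2 h1.ne'
  rw [h.φ_eq t hz]
  have h1 : ∀ s, u s (φ s z) = 0 := fun s => hE s _ (h.mem s hz)
  simp [h1]

end PMot

/-- **Main theorem**: the criterion for circular domains. -/
theorem noClosedGeodesicS_of_field (hn : 2 ≤ n) (hσ : IsMetric D σ) (hX : IsFieldS D σ X) :
    NoClosedGeodesicS D σ := by
  intro φ hφ T hT0 hT t z hz
  obtain ⟨u, p, hE, hode⟩ := hφ.euler
  have h : PMot D σ u p φ :=
    ⟨hE, hσ, hφ.start, hφ.bijOn, hφ.contDiff, hφ.area, hode⟩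
  exact h.const hn hX hT0 hT t hz

end Pool.Agent.CG
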