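import Pool.Agent.Lib.MP_35454f.PMain

/-!
# Stability of strict fields
-/

set_option autoImplicit false

open MeasureTheory Filter Topology Complex Set Metric
open scoped ContDiff Interval

namespace Pool.Agent.CG

variable {n : ℕ}

/-- The operator `∂X/∂z̄`: the traceless symmetric part of the derivative. -/
noncomputable def dbar (X : ℂ → ℂ) (z : ℂ) : ℂ := (fderiv ℝ X z 1 + I * fderiv ℝ X z I) / 2

/-- A field satisfying the conditions of the criterion strictly, in the Euclidean metric. -/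
structure StrictField (D : CircularDomain n) (X : ℂ → ℂ) : Prop where
  smooth : ∃ U : Set ℂ, IsOpen U ∧ D.carrier ⊆ U ∧ ContDiffOn ℝ 1 X U ∧ ∀ z ∈ U, divE X z = 1
  strain : ∀ z ∈ D.carrier, ‖dbar X z‖ < 1
  outer : ∀ z, ‖z‖ = D.R → 0 < dot (X z) z
  inner : ∀ i z, ‖z - D.a i‖ = D.r i → dot (X z) (z - D.a i) < 0

/-- The quadratic form of the derivative. -/
lemma dot_fderiv_ge {X : ℂ → ℂ} {z : ℂ} (v : ℂ) :
    (1 / 2 * divE X z - ‖dbar X z‖) * ‖v‖ ^ 2 ≤ dot (fderiv ℝ X z v) v := by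
  set b := dbar X z with hb
  have e1 : dot (fderiv ℝ X z v) v = 1 / 2 * divE X z * ‖v‖ ^ 2 + (b * (starRingEnd ℂ v) ^ 2).re := by
    rw [clin (fderiv ℝ X z) v, hb, dbar, divE, ← normSq_eq_norm_sq, normSq_apply]
    simp only [dot, pow_two, add_re, add_im, mul_re, mul_im, ofReal_re, ofReal_im, conj_re, conj_im,
      Complex.I_re, Complex.I_im, div_ofNat_re, div_ofNat_im]
    ring
  have e2 : |(b * (starRingEnd ℂ v) ^ 2).re| ≤ ‖b‖ * ‖v‖ ^ 2 := by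
    refine (abs_re_le_norm _).trans ?_
    rw [norm_mul, norm_pow, RCLike.norm_conj]
  rw [e1]
  have := neg_abs_le (b * (starRingEnd ℂ v) ^ 2).re
  nlinarith

/-! ### the correction for the metric -/

/-- The field `(∫₀ˣ (σ - 1) dx, 0)`. -/
noncomputable def ZZ (σ : ℂ → ℝ) (z : ℂ) : ℝ :=
  ∫ θ in (0:ℝ)..1, (σ ((θ * z.re : ℝ) + (z.im : ℝ) * I) - 1) * z.re

/-- the scaling map -/
noncomputable def scl (θ : ℝ) : ℂ →L[ℝ] ℂ :=
  (θ • reCLM).smulRight (1:ℂ) + imCLM.smulRight I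

lemma scl_apply (θ : ℝ) (z : ℂ) : scl θ z = ((θ * z.re : ℝ) : ℂ) + (z.im : ℂ) * I := by
  simp [scl, real_smul]

noncomputable def gZ (σ : ℂ → ℝ) (θ : ℝ) (z : ℂ) : ℝ := (σ (scl θ z) - 1) * z.re

noncomputable def gZ' (σ : ℂ → ℝ) (θ : ℝ) (z : ℂ) : ℂ →L[ℝ] ℝ :=
  (σ (scl θ z) - 1) • reCLM + z.re • (fderiv ℝ σ (scl θ z)).comp (scl θ)

lemma continuous_scl : Continuous fun θ : ℝ => scl θ := by
  unfold scl
  have : Continuous fun θ : ℝ => (θ • reCLM).smulRight (1:ℂ) :=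
    ((ContinuousLinearMap.smulRightL ℝ ℂ ℂ).flip (1:ℂ)).continuous.comp
      (continuous_id.smul continuous_const)
  exact this.add continuous_const

lemma continuous_scl' : Continuous fun q : ℝ × ℂ => scl q.1 q.2 :=
  (continuous_scl.comp continuous_fst).clm_apply continuous_snd

variable {σ : ℂ → ℝ}

lemma hasFDerivAt_gZ (hσ : ContDiff ℝ 1 σ) (θ : ℝ) (z : ℂ) :
    HasFDerivAt (gZ σ θ) (gZ' σ θ z) z := by
  have h1 : HasFDerivAt (fun z => σ (scl θ z)) ((fderiv ℝ σ (scl θ z)).comp (scl θ)) z :=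
    (hσ.differentiable one_ne_zero _).hasFDerivAt.comp z (scl θ).hasFDerivAt
  have h2 : HasFDerivAt (fun z : ℂ => z.re) reCLM z := reCLM.hasFDerivAt
  exact (h1.sub_const 1).fun_mul h2

lemma gc_gZ (hσ : ContDiff ℝ 1 σ) : GC (gZ σ) :=
  ((hσ.continuous.comp continuous_scl').sub continuous_const).mul
    (continuous_re.comp continuous_snd)

lemma gc_gZ' (hσ : ContDiff ℝ 1 σ) : GC (gZ' σ) := by
  have h1 : Continuous fun q : ℝ × ℂ => fderiv ℝ σ (scl q.1 q.2) :=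
    (hσ.continuous_fderiv one_ne_zero).comp continuous_scl'
  have h2 : Continuous fun q : ℝ × ℂ => σ (scl q.1 q.2) - 1 :=
    (hσ.continuous.comp continuous_scl').sub continuous_const
  exact (h2.smul continuous_const).add ((continuous_re.comp continuous_snd).smul
    (h1.clm_comp (continuous_scl.comp continuous_fst)))

lemma ZZ_eq (z : ℂ) : ZZ σ z = ∫ θ in (0:ℝ)..1, gZ σ θ z := by
  simp only [ZZ, gZ, scl_apply]

lemma hasFDerivAt_ZZ (hσ : ContDiff ℝ 1 σ) (z : ℂ) :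
    HasFDerivAt (ZZ σ) (∫ θ in (0:ℝ)..1, gZ' σ θ z) z := by
  have h1 := hasFDerivAt_parG (gc_gZ hσ) (gc_gZ' hσ) (fun θ z => hasFDerivAt_gZ hσ θ z) 0 1 z
  have e : ZZ σ = fun z => ∫ θ in (0:ℝ)..1, gZ σ θ z := by ext z; exact ZZ_eq z
  rw [e]
  exact h1

lemma contDiff_ZZ (hσ : ContDiff ℝ 1 σ) : ContDiff ℝ 1 (ZZ σ) := by
  have h1 := contDiff_parG (gc_gZ hσ) (gc_gZ' hσ) (fun θ z => hasFDerivAt_gZ hσ θ z) 0 1
  have e : ZZ σ = fun z => ∫ θ in (0:ℝ)..1, gZ σ θ z := by ext z; exact ZZ_eq z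
  rw [e]
  exact h1

lemma fderiv_ZZ_one (hσ : ContDiff ℝ 1 σ) (z : ℂ) : fderiv ℝ (ZZ σ) z 1 = σ z - 1 := by
  rw [(hasFDerivAt_ZZ hσ z).fderiv, ContinuousLinearMap.intervalIntegral_apply
    (((gc_gZ' hσ).slice_t z).intervalIntegrable _ _)]
  have h1 : ∀ θ, HasDerivAt (fun θ : ℝ => θ * (σ (scl θ z) - 1)) (gZ' σ θ z 1) θ := by
    intro θ
    have h2 : HasDerivAt (fun θ : ℝ => scl θ z) ((z.re : ℝ) : ℂ) θ := by
      have e : (fun θ : ℝ => scl θ z) = fun θ : ℝ => (θ : ℂ) * ((z.re : ℝ) : ℂ) + (z.im : ℂ) * I := by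
        ext θ; rw [scl_apply]; push_cast; ring
      rw [e]
      have := (ofRealCLM.hasDerivAt (x := θ)).mul_const ((z.re : ℝ) : ℂ)
      simpa using this.add_const ((z.im : ℂ) * I)
    have h3 : HasDerivAt (fun θ : ℝ => σ (scl θ z)) (fderiv ℝ σ (scl θ z) ((z.re : ℝ) : ℂ)) θ :=
      (hσ.differentiable one_ne_zero _).hasFDerivAt.comp_hasDerivAt θ h2
    refine ((hasDerivAt_id θ).fun_mul (h3.sub_const 1)).congr_deriv ?_
    have e1 : ((z.re : ℝ) : ℂ) = z.re • (1:ℂ) := by simp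
    have e2 : scl θ 1 = θ • (1:ℂ) := by rw [scl_apply]; simp
    simp only [gZ', add_apply, smul_apply, ContinuousLinearMap.comp_apply, smul_eq_mul,
      reCLM_apply, one_re]
    rw [e1, e2, map_smul, map_smul]
    simp only [smul_eq_mul, id]
    ring
  rw [intervalIntegral.integral_eq_sub_of_hasDerivAt (fun θ _ => h1 θ)
    ((((gc_gZ' hσ).slice_t z).clm_apply continuous_const).intervalIntegrable _ _)]
  have e3 : scl 1 z = z := by rw [scl_apply]; simp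
  simp [e3]

lemma norm_scl_le {θ : ℝ} (hθ : θ ∈ Icc (0:ℝ) 1) (z : ℂ) : ‖scl θ z‖ ≤ ‖z‖ := by
  rw [scl_apply]
  rw [← sq_le_sq₀ (norm_nonneg _) (norm_nonneg _), ← normSq_eq_norm_sq, ← normSq_eq_norm_sq,
    normSq_apply, normSq_apply]
  simp only [add_re, ofReal_re, mul_re, Complex.I_re, mul_zero, ofReal_im, Complex.I_im, mul_one,
    sub_self, add_zero, add_im, mul_im, zero_add]
  have h1 : θ * θ ≤ 1 := by nlinarith [hθ.1, hθ.2]
  have h2 := mul_self_nonneg z.re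
  nlinarith

lemma norm_scl_apply_le {θ : ℝ} (hθ : θ ∈ Icc (0:ℝ) 1) (v : ℂ) : ‖scl θ v‖ ≤ ‖v‖ :=
  norm_scl_le hθ v

lemma abs_ZZ_le {ε R : ℝ} (hε : ∀ z, ‖z‖ ≤ R → |σ z - 1| ≤ ε) {z : ℂ} (hz : ‖z‖ ≤ R) :
    |ZZ σ z| ≤ ε * R := by
  have h1 : ∀ θ ∈ Ι (0:ℝ) 1, ‖gZ σ θ z‖ ≤ ε * R := by
    intro θ hθ
    rw [uIoc_of_le zero_le_one] at hθ
    have h2 := hε (scl θ z) ((norm_scl_le ⟨hθ.1.le, hθ.2⟩ z).trans hz)
    rw [gZ, Real.norm_eq_abs, abs_mul]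
    exact mul_le_mul h2 ((abs_re_le_norm z).trans hz) (abs_nonneg _) ((abs_nonneg _).trans h2)
  have h2 := intervalIntegral.norm_integral_le_of_norm_le_const h1
  rw [ZZ_eq, ← Real.norm_eq_abs]
  simpa using h2

lemma abs_dZZ_le (hσ : ContDiff ℝ 1 σ) {ε R : ℝ} (hε : ∀ z, ‖z‖ ≤ R → |σ z - 1| ≤ ε)
    (hε' : ∀ z, ‖z‖ ≤ R → ‖fderiv ℝ σ z‖ ≤ ε) {z : ℂ} (hz : ‖z‖ ≤ R) (v : ℂ) :
    |fderiv ℝ (ZZ σ) z v| ≤ ε * (1 + R) * ‖v‖ := by
  have h1 : ∀ θ ∈ Ι (0:ℝ) 1, ‖gZ' σ θ z v‖ ≤ ε * (1 + R) * ‖v‖ := by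
    intro θ hθ
    rw [uIoc_of_le zero_le_one] at hθ
    have hθ' : θ ∈ Icc (0:ℝ) 1 := ⟨hθ.1.le, hθ.2⟩
    have hs := (norm_scl_le hθ' z).trans hz
    have h2 := hε (scl θ z) hs
    have h3 := hε' (scl θ z) hs
    have hε0 : 0 ≤ ε := (abs_nonneg _).trans h2
    have hR0 : 0 ≤ R := (norm_nonneg _).trans hz
    rw [gZ', add_apply, smul_apply, smul_apply, ContinuousLinearMap.comp_apply, reCLM_apply,
      smul_eq_mul, smul_eq_mul]
    have h4 : ‖(σ (scl θ z) - 1) * v.re‖ ≤ ε * ‖v‖ := by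
      rw [norm_mul]
      exact mul_le_mul h2 (abs_re_le_norm v) (norm_nonneg _) hε0
    have h5 : ‖z.re * fderiv ℝ σ (scl θ z) (scl θ v)‖ ≤ R * (ε * ‖v‖) := by
      rw [norm_mul]
      refine mul_le_mul ((abs_re_le_norm z).trans hz) ?_ (norm_nonneg _) hR0
      refine (ContinuousLinearMap.le_opNorm _ _).trans ?_
      exact mul_le_mul h3 (norm_scl_apply_le hθ' v) (norm_nonneg _) hε0
    refine (norm_add_le _ _).trans ?_
    linarith
  rw [(hasFDerivAt_ZZ hσ z).fderiv, ContinuousLinearMap.intervalIntegral_apply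
    (((gc_gZ' hσ).slice_t z).intervalIntegrable _ _)]
  have h2 := intervalIntegral.norm_integral_le_of_norm_le_const h1
  rw [← Real.norm_eq_abs]
  simpa using h2

end Pool.Agent.CG
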