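import Pool.Agent.Lib.MP_35454f.PStab

/-!
# Stability of strict fields: the theorem
-/

set_option autoImplicit false

open MeasureTheory Filter Topology Complex Set Metric
open scoped ContDiff Interval

namespace Pool.Agent.CG

variable {n : ℕ} {σ : ℂ → ℝ}

lemma continuousOn_dbar {U : Set ℂ} (hU : IsOpen U) {X : ℂ → ℂ} (hX : ContDiffOn ℝ 1 X U) :
    ContinuousOn (dbar X) U := by
  have h := hX.continuousOn_fderiv_of_isOpen hU le_rfl
  unfold dbar
  exact ((h.clm_apply continuousOn_const).add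
    (continuousOn_const.mul (h.clm_apply continuousOn_const))).div_const 2

/-- positive lower bound on a compact set -/
lemma exists_pos_le {K : Set ℂ} (hK : IsCompact K) {f : ℂ → ℝ} (hf : ContinuousOn f K)
    (h : ∀ z ∈ K, 0 < f z) : ∃ c > 0, ∀ z ∈ K, c ≤ f z := by
  rcases K.eq_empty_or_nonempty with rfl | hne
  · exact ⟨1, one_pos, by simp⟩
  · obtain ⟨z0, hz0, hmin⟩ := hK.exists_isMinOn hne hf
    exact ⟨f z0, h z0 hz0, fun z hz => hmin hz⟩

lemma ev_lt {a b : ℝ} (h : a < b) (c : ℝ) : ∀ᶠ ε : ℝ in 𝓝[>] 0, a + c * ε < b := by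
  have h1 : Tendsto (fun ε : ℝ => a + c * ε) (𝓝 0) (𝓝 (a + c * 0)) :=
    Continuous.tendsto (by fun_prop) 0
  rw [mul_zero, add_zero] at h1
  exact (h1.mono_left nhdsWithin_le_nhds).eventually (gt_mem_nhds h)

/-- The domains close to `D` are contained in a neighbourhood of `D`. -/
lemma carrier_close {D D' : CircularDomain n} (hR : 0 < D.R) {ε : ℝ} (hε : 0 ≤ ε)
    (h1 : |D'.R - D.R| ≤ ε) (h2 : ∀ i, ‖D'.a i - D.a i‖ ≤ ε) (h3 : ∀ i, |D'.r i - D.r i| ≤ ε)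
    (h4 : ∀ i, 2 * ε < D.r i) {z : ℂ} (hz : z ∈ D'.carrier) :
    ∃ w ∈ D.carrier, dist z w ≤ 2 * ε := by
  by_cases hz1 : D.R < ‖z‖
  · have hzp : 0 < ‖z‖ := hR.trans hz1
    refine ⟨((D.R / ‖z‖ : ℝ) : ℂ) * z, D.outer_mem ?_, ?_⟩
    · rw [norm_mul, norm_real, Real.norm_eq_abs, abs_of_pos (div_pos hR hzp)]
      field_simp
    · rw [dist_eq_norm, show z - ((D.R / ‖z‖ : ℝ) : ℂ) * z = ((1 - D.R / ‖z‖ : ℝ) : ℂ) * z by
        push_cast; ring, norm_mul, norm_real, Real.norm_eq_abs]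
      have h5 : 0 ≤ 1 - D.R / ‖z‖ := by
        rw [sub_nonneg, div_le_one hzp]; exact hz1.le
      rw [abs_of_nonneg h5, show (1 - D.R / ‖z‖) * ‖z‖ = ‖z‖ - D.R by field_simp]
      have := hz.1
      have := (abs_le.mp h1).2
      linarith
  push Not at hz1
  by_cases hz2 : ∃ i, ‖z - D.a i‖ < D.r i
  · obtain ⟨i, hi⟩ := hz2
    have h5 : D.r i - 2 * ε ≤ ‖z - D.a i‖ := by
      have h6 := hz.2 i
      have h7 := (abs_le.mp (h3 i)).1
      have h8 : ‖z - D'.a i‖ ≤ ‖z - D.a i‖ + ‖D'.a i - D.a i‖ := by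
        have := norm_sub_le (z - D.a i) (D'.a i - D.a i)
        have e : z - D.a i - (D'.a i - D.a i) = z - D'.a i := by ring
        rwa [e] at this
      linarith [h2 i]
    have hp : 0 < ‖z - D.a i‖ := by linarith [h4 i]
    refine ⟨D.a i + ((D.r i / ‖z - D.a i‖ : ℝ) : ℂ) * (z - D.a i), D.inner_mem (i := i) ?_, ?_⟩
    · rw [add_sub_cancel_left, norm_mul, norm_real, Real.norm_eq_abs,
        abs_of_pos (div_pos (D.r_pos i) hp)]
      field_simp
    · rw [dist_eq_norm, show z - (D.a i + ((D.r i / ‖z - D.a i‖ : ℝ) : ℂ) * (z - D.a i)) =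
        -(((D.r i / ‖z - D.a i‖ - 1 : ℝ) : ℂ) * (z - D.a i)) by push_cast; ring, norm_neg,
        norm_mul, norm_real, Real.norm_eq_abs]
      have h5' : 0 ≤ D.r i / ‖z - D.a i‖ - 1 := by
        rw [sub_nonneg, one_le_div hp]; exact hi.le
      rw [abs_of_nonneg h5', show (D.r i / ‖z - D.a i‖ - 1) * ‖z - D.a i‖ =
        D.r i - ‖z - D.a i‖ by field_simp]
      linarith
  · push Not at hz2
    exact ⟨z, ⟨hz1, hz2⟩, by rw [dist_self]; linarith⟩

/-- The corrected field. -/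
noncomputable def corr (σ : ℂ → ℝ) (X : ℂ → ℂ) (z : ℂ) : ℂ :=
  (((σ z)⁻¹ : ℝ) : ℂ) * (X z + (ZZ σ z : ℂ))

/-- The derivative of the corrected field. -/
lemma hasFDerivAt_corr (hσ : ContDiff ℝ 1 σ) {X : ℂ → ℂ} {z : ℂ} (hX : DifferentiableAt ℝ X z)
    (h0 : σ z ≠ 0) (v : ℂ) : fderiv ℝ (corr σ X) z v =
      (((σ z)⁻¹ : ℝ) : ℂ) * (fderiv ℝ X z v + (fderiv ℝ (ZZ σ) z v : ℂ)) -
      (((σ z ^ 2)⁻¹ * fderiv ℝ σ z v : ℝ) : ℂ) * (X z + (ZZ σ z : ℂ)) := by
  have h1 : HasFDerivAt (fun z => (σ z)⁻¹) (-((σ z ^ 2)⁻¹) • fderiv ℝ σ z) z := by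
    have := (hasDerivAt_inv h0).comp_hasFDerivAt z (hσ.differentiable one_ne_zero z).hasFDerivAt
    exact this
  have h2 : HasFDerivAt (fun z => (((σ z)⁻¹ : ℝ) : ℂ))
      (ofRealCLM.comp (-((σ z ^ 2)⁻¹) • fderiv ℝ σ z)) z := ofRealCLM.hasFDerivAt.comp z h1
  have h3 : HasFDerivAt (fun z => (ZZ σ z : ℂ)) (ofRealCLM.comp (fderiv ℝ (ZZ σ) z)) z :=
    ofRealCLM.hasFDerivAt.comp z ((contDiff_ZZ hσ).differentiable one_ne_zero z).hasFDerivAt
  have h4 := h2.fun_mul (hX.hasFDerivAt.fun_add h3)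
  have h5 : corr σ X = fun z => (((σ z)⁻¹ : ℝ) : ℂ) * (X z + (ZZ σ z : ℂ)) := rfl
  rw [h5, h4.fderiv]
  simp
  ring

lemma norm_ofReal_mul_le {x y : ℝ} {v : ℂ} (hx : |x| ≤ y) : ‖(x : ℂ) * v‖ ≤ y * ‖v‖ := by
  rw [norm_mul, norm_real, Real.norm_eq_abs]
  exact mul_le_mul_of_nonneg_right hx (norm_nonneg _)

/-- The strain of the corrected field. -/
lemma corr_strain (hσ : ContDiff ℝ 1 σ) {X : ℂ → ℂ} {z : ℂ} (hX : DifferentiableAt ℝ X z)
    {ε R1 M s : ℝ} (hdiv : divE X z = 1) (hs : ‖dbar X z‖ ≤ s) (hR1 : 0 ≤ R1)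
    (hM : ‖X z‖ ≤ M) (hM' : ‖fderiv ℝ X z‖ ≤ M) (hε0 : 0 ≤ ε) (hε1 : ε ≤ 1 / 4)
    (hsig : |σ z - 1| ≤ ε) (hdsig : ‖fderiv ℝ σ z‖ ≤ ε) (hZ : |ZZ σ z| ≤ ε * R1)
    (hdZ : ∀ v, |fderiv ℝ (ZZ σ) z v| ≤ ε * (1 + R1) * ‖v‖)
    (hsmall : 11 * (M + 1 + R1) * ε < 1 - s) {v : ℂ} (hv : v ≠ 0) :
    -(1 / 2) * dot v v < dot (nablaS σ (corr σ X) z v) v := by
  have hσ1 : 3 / 4 ≤ σ z := by linarith [(abs_le.mp hsig).1]
  have hσ0 : 0 < σ z := by linarith
  have hM0 : 0 ≤ M := (norm_nonneg _).trans hM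
  have hinv : (σ z)⁻¹ ≤ 4 / 3 := by
    rw [inv_le_comm₀ hσ0 (by norm_num)]; linarith
  have hinv0 : 0 < (σ z)⁻¹ := inv_pos.mpr hσ0
  have hinv1 : |(σ z)⁻¹ - 1| ≤ 2 * ε := by
    have e : (σ z)⁻¹ - 1 = (1 - σ z) * (σ z)⁻¹ := by field_simp
    rw [e, abs_mul, abs_of_pos hinv0, abs_sub_comm]
    nlinarith [abs_nonneg (σ z - 1)]
  have hN : 0 < ‖v‖ ^ 2 := by
    have := norm_pos_iff.mpr hv
    positivity
  set N := ‖v‖ ^ 2 with hNdef
  set Y : ℂ := X z + (ZZ σ z : ℂ) with hY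
  have hYn : ‖Y‖ ≤ M + R1 := by
    refine (norm_add_le _ _).trans ?_
    rw [norm_real, Real.norm_eq_abs]
    nlinarith
  -- the pieces
  set A := dot (fderiv ℝ X z v + (fderiv ℝ (ZZ σ) z v : ℂ)) v with hA
  have hA1 : (1 / 2 - s) * N - ε * (1 + R1) * N ≤ A := by
    rw [hA, dot_add_left]
    have h1 := dot_fderiv_ge (X := X) (z := z) v
    rw [hdiv] at h1
    have h2 : |dot ((fderiv ℝ (ZZ σ) z v : ℝ) : ℂ) v| ≤ ε * (1 + R1) * N := by
      refine (abs_dot_le _ _).trans ?_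
      rw [norm_real, Real.norm_eq_abs, hNdef, pow_two, ← mul_assoc]
      exact mul_le_mul_of_nonneg_right (hdZ v) (norm_nonneg _)
    have h3 := (abs_le.mp h2).1
    have h4 : (1 / 2 - s) * N ≤ (1 / 2 * 1 - ‖dbar X z‖) * ‖v‖ ^ 2 := by
      rw [← hNdef]; nlinarith
    linarith
  have hA2 : |A| ≤ (M + 1 + R1) * N := by
    rw [hA]
    refine (abs_dot_le _ _).trans ?_
    have h1 : ‖fderiv ℝ X z v + (fderiv ℝ (ZZ σ) z v : ℂ)‖ ≤ (M + 1 + R1) * ‖v‖ := by
      refine (norm_add_le _ _).trans ?_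
      rw [norm_real, Real.norm_eq_abs]
      have h2 := (ContinuousLinearMap.le_opNorm (fderiv ℝ X z) v)
      have h3 := hdZ v
      have h4 : ‖fderiv ℝ X z‖ * ‖v‖ ≤ M * ‖v‖ := mul_le_mul_of_nonneg_right hM' (norm_nonneg _)
      have h5 : ε * (1 + R1) * ‖v‖ ≤ 1 * (1 + R1) * ‖v‖ := by
        apply mul_le_mul_of_nonneg_right _ (norm_nonneg _)
        apply mul_le_mul_of_nonneg_right (by linarith) (by linarith)
      linarith
    rw [hNdef, pow_two, ← mul_assoc]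
    exact mul_le_mul_of_nonneg_right h1 (norm_nonneg _)
  have hA3 : A - 2 * ε * ((M + 1 + R1) * N) ≤ (σ z)⁻¹ * A := by
    have e : (σ z)⁻¹ * A = A + ((σ z)⁻¹ - 1) * A := by ring
    have h1 : |((σ z)⁻¹ - 1) * A| ≤ 2 * ε * ((M + 1 + R1) * N) := by
      rw [abs_mul]
      exact mul_le_mul hinv1 hA2 (abs_nonneg _) (by linarith)
    have h2 := (abs_le.mp h1).1
    rw [e]
    linarith
  set B := dot ((((σ z ^ 2)⁻¹ * fderiv ℝ σ z v : ℝ) : ℂ) * Y) v with hB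
  have hB1 : |B| ≤ 4 * (M + R1) * ε * N := by
    rw [hB]
    refine (abs_dot_le _ _).trans ?_
    have h1 : |(σ z ^ 2)⁻¹ * fderiv ℝ σ z v| ≤ 4 * ε * ‖v‖ := by
      have h2 : (σ z ^ 2)⁻¹ ≤ 4 := by
        rw [inv_le_comm₀ (by positivity) (by norm_num)]; nlinarith
      have h3 : ‖fderiv ℝ σ z v‖ ≤ ε * ‖v‖ := (ContinuousLinearMap.le_opNorm _ _).trans
        (mul_le_mul_of_nonneg_right hdsig (norm_nonneg _))
      rw [abs_mul, abs_of_pos (by positivity : 0 < (σ z ^ 2)⁻¹), ← Real.norm_eq_abs (fderiv ℝ σ z v)]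
      have h4 : 0 < (σ z ^ 2)⁻¹ := by positivity
      calc (σ z ^ 2)⁻¹ * ‖fderiv ℝ σ z v‖ ≤ 4 * (ε * ‖v‖) :=
            mul_le_mul h2 h3 (norm_nonneg _) (by norm_num)
        _ = 4 * ε * ‖v‖ := by ring
    have h5 := norm_ofReal_mul_le (v := Y) h1
    have h6 : 4 * ε * ‖v‖ * ‖Y‖ ≤ 4 * ε * ‖v‖ * (M + R1) :=
      mul_le_mul_of_nonneg_left hYn (by positivity)
    calc _ ≤ 4 * ε * ‖v‖ * (M + R1) * ‖v‖ :=
          mul_le_mul_of_nonneg_right (h5.trans h6) (norm_nonneg _)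
      _ = 4 * (M + R1) * ε * N := by rw [hNdef]; ring
  set C := dot ((((fderiv ℝ σ z 1 : ℝ) : ℂ) - I * ((fderiv ℝ σ z I : ℝ) : ℂ)) / (2 * (σ z : ℂ)) *
    v * corr σ X z) v with hC
  have hC1 : |C| ≤ 4 * (M + R1) * ε * N := by
    rw [hC]
    refine (abs_dot_le _ _).trans ?_
    rw [norm_mul, norm_mul, norm_div]
    have h1 : ‖((fderiv ℝ σ z 1 : ℝ) : ℂ) - I * ((fderiv ℝ σ z I : ℝ) : ℂ)‖ ≤ 2 * ε := by
      refine (norm_sub_le _ _).trans ?_
      rw [norm_mul, Complex.norm_I, one_mul, norm_real, norm_real]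
      have h2 : ‖fderiv ℝ σ z 1‖ ≤ ε := by
        refine (ContinuousLinearMap.le_opNorm _ _).trans ?_
        rw [norm_one, mul_one]; exact hdsig
      have h3 : ‖fderiv ℝ σ z I‖ ≤ ε := by
        refine (ContinuousLinearMap.le_opNorm _ _).trans ?_
        rw [Complex.norm_I, mul_one]; exact hdsig
      linarith
    have h2 : ‖(2 * (σ z : ℂ))‖ = 2 * σ z := by
      rw [norm_mul, norm_real, Real.norm_eq_abs, abs_of_pos hσ0]; simp
    have h3 : ‖((fderiv ℝ σ z 1 : ℝ) : ℂ) - I * ((fderiv ℝ σ z I : ℝ) : ℂ)‖ / ‖(2 * (σ z : ℂ))‖ ≤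
        2 * ε := by
      rw [h2, div_le_iff₀ (by linarith)]
      nlinarith
    have h4 : ‖corr σ X z‖ ≤ 2 * (M + R1) := by
      rw [corr]
      have h5 : |(σ z)⁻¹| ≤ 2 := by rw [abs_of_pos hinv0]; linarith
      refine (norm_ofReal_mul_le h5).trans ?_
      exact mul_le_mul_of_nonneg_left hYn (by norm_num)
    have h6 : ‖((fderiv ℝ σ z 1 : ℝ) : ℂ) - I * ((fderiv ℝ σ z I : ℝ) : ℂ)‖ / ‖(2 * (σ z : ℂ))‖ *
        ‖v‖ ≤ 2 * ε * ‖v‖ := mul_le_mul_of_nonneg_right h3 (norm_nonneg _)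
    have h7 := mul_le_mul h6 h4 (norm_nonneg _) (by positivity)
    calc _ ≤ 2 * ε * ‖v‖ * (2 * (M + R1)) * ‖v‖ := mul_le_mul_of_nonneg_right h7 (norm_nonneg _)
      _ = 4 * (M + R1) * ε * N := by rw [hNdef]; ring
  have key : dot (nablaS σ (corr σ X) z v) v = (σ z)⁻¹ * A - B + C := by
    rw [nablaS, hasFDerivAt_corr hσ hX hσ0.ne', dot_add_left, dot_sub_left, dot_smul_left]
  rw [key, dot_self, ← hNdef]
  have hB2 := (abs_le.mp hB1).2
  have hC2 := (abs_le.mp hC1).1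
  have h9 : 11 * (M + 1 + R1) * ε * N < (1 - s) * N := mul_lt_mul_of_pos_right hsmall hN
  have h10 : 0 ≤ ε * N := by positivity
  have e9 : 11 * (M + 1 + R1) * ε * N = 11 * M * (ε * N) + 11 * (ε * N) + 11 * R1 * (ε * N) := by ring
  have e10 : 0 ≤ M * (ε * N) := mul_nonneg hM0 h10
  have e11 : 0 ≤ R1 * (ε * N) := mul_nonneg hR1 h10
  have e12 : 4 * (M + R1) * ε * N = 4 * (M * (ε * N)) + 4 * (R1 * (ε * N)) := by ring
  have e13 : 2 * ε * ((M + 1 + R1) * N) = 2 * (M * (ε * N)) + 2 * (ε * N) + 2 * (R1 * (ε * N)) := by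
    ring
  have e14 : ε * (1 + R1) * N = ε * N + R1 * (ε * N) := by ring
  have e15 : (1 - s) * N = 1 / 2 * N + (1 / 2 - s) * N := by ring
  rw [e9, e15] at h9
  rw [e12] at hB2 hC2
  rw [e13] at hA3
  rw [e14] at hA1
  linarith

/-- Divergence of the corrected field. -/
lemma corr_div (hσ : ContDiff ℝ 1 σ) {X : ℂ → ℂ} {z : ℂ} (hX : DifferentiableAt ℝ X z)
    (hdiv : divE X z = 1) (h0 : 0 < σ z) : divS σ (corr σ X) z = 1 := by
  have hpos : ∀ᶠ w in 𝓝 z, σ w ≠ 0 := by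
    filter_upwards [hσ.continuous.continuousAt.eventually (lt_mem_nhds h0)] with w hw using
      ne_of_gt hw
  have e1 : (fun w => σ w * (corr σ X w).re) =ᶠ[𝓝 z] fun w => (X w).re + ZZ σ w := by
    filter_upwards [hpos] with w hw
    rw [corr, re_ofReal_mul, add_re, ofReal_re]
    field_simp
  have e2 : (fun w => σ w * (corr σ X w).im) =ᶠ[𝓝 z] fun w => (X w).im := by
    filter_upwards [hpos] with w hw
    rw [corr, im_ofReal_mul, add_im, ofReal_im]
    field_simp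
    ring
  have d1 : DifferentiableAt ℝ (fun w => (X w).re) z :=
    (reCLM.hasFDerivAt.comp z hX.hasFDerivAt).differentiableAt
  have d2 : DifferentiableAt ℝ (ZZ σ) z := (contDiff_ZZ hσ).differentiable one_ne_zero z
  rw [divS, e1.fderiv_eq, e2.fderiv_eq, fderiv_fun_add d1 d2, add_apply, re_fderiv hX, im_fderiv hX,
    fderiv_ZZ_one hσ]
  rw [divE] at hdiv
  rw [show (fderiv ℝ X z 1).re + (σ z - 1) + (fderiv ℝ X z I).im = σ z by linarith]
  exact div_self h0.ne'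

/-- **Stability of strict fields** under small changes of the domain and of the metric. -/
theorem StrictField.stable {D : CircularDomain n} (hR : 0 < D.R) {X : ℂ → ℂ}
    (h : StrictField D X) : ∃ ε > 0, ∀ D' : CircularDomain n, |D'.R - D.R| ≤ ε →
      (∀ i, ‖D'.a i - D.a i‖ ≤ ε) → (∀ i, |D'.r i - D.r i| ≤ ε) → ∀ σ : ℂ → ℝ, ContDiff ℝ 1 σ →
      (∀ z, ‖z‖ ≤ D.R + ε → |σ z - 1| ≤ ε ∧ ‖fderiv ℝ σ z‖ ≤ ε) →
      IsMetric D' σ ∧ ∃ X', IsFieldS D' σ X' := by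
  obtain ⟨U, hU, hDU, hXU, hdivU⟩ := h.smooth
  -- neighbourhood where the strain is less than one
  have hcd := continuousOn_dbar hU hXU
  have hU'o : IsOpen (U ∩ {z | ‖dbar X z‖ < 1}) :=
    hcd.norm.isOpen_inter_preimage hU isOpen_Iio
  have hDU' : D.carrier ⊆ U ∩ {z | ‖dbar X z‖ < 1} := fun z hz => ⟨hDU hz, h.strain z hz⟩
  obtain ⟨δ, hδ0, hδ⟩ := D.isCompact.exists_cthickening_subset_open hU'o hDU'
  set K := cthickening δ D.carrier with hK
  have hKc : IsCompact K := D.isCompact.cthickening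
  have hKU : K ⊆ U := fun z hz => (hδ hz).1
  have hDK : D.carrier ⊆ K := self_subset_cthickening _
  obtain ⟨c1, hc1, hc1'⟩ := exists_pos_le hKc (f := fun z => 1 - ‖dbar X z‖)
    (continuousOn_const.sub (hcd.mono hKU).norm) fun z hz => by
      have : ‖dbar X z‖ < 1 := (hδ hz).2
      linarith
  obtain ⟨M1, hM1⟩ := hKc.exists_bound_of_continuousOn (hXU.continuousOn.mono hKU)
  obtain ⟨M2, hM2⟩ := hKc.exists_bound_of_continuousOn
    ((hXU.continuousOn_fderiv_of_isOpen hU le_rfl).mono hKU)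
  set M := max M1 M2 with hM
  have hMX : ∀ z ∈ K, ‖X z‖ ≤ M := fun z hz => (hM1 z hz).trans (le_max_left _ _)
  have hMX' : ∀ z ∈ K, ‖fderiv ℝ X z‖ ≤ M := fun z hz => (hM2 z hz).trans (le_max_right _ _)
  -- lower bounds on the circles
  have hcdot : ∀ c : ℂ, ContinuousOn (fun z => dot (X z) (z - c)) K := by
    intro c
    exact continuous_dot.comp_continuousOn ((hXU.continuousOn.mono hKU).prodMk
      (continuousOn_id.sub continuousOn_const))
  have hsphere0 : sphere (0:ℂ) D.R ⊆ K := fun z hz =>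
    hDK (D.outer_mem (by simpa using hz))
  have hspherei : ∀ i, sphere (D.a i) (D.r i) ⊆ K := fun i z hz =>
    hDK (D.inner_mem (i := i) (by simpa [dist_eq_norm] using hz))
  obtain ⟨c2, hc2, hc2'⟩ := exists_pos_le (isCompact_sphere (0:ℂ) D.R)
    ((hcdot 0).mono hsphere0) fun z hz => by
      have h1 := h.outer z (by simpa using hz)
      simpa using h1
  have hc3 : ∀ i, ∃ c > 0, ∀ z ∈ sphere (D.a i) (D.r i), c ≤ -dot (X z) (z - D.a i) := by
    intro i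
    exact exists_pos_le (isCompact_sphere _ _) ((hcdot (D.a i)).mono (hspherei i)).neg
      fun z hz => by
        have h1 := h.inner i z (by simpa [dist_eq_norm] using hz)
        linarith
  choose c3 hc3 hc3' using hc3
  have hev : ∀ᶠ c : ℝ in 𝓝[>] 0, 0 < c ∧ c < c2 ∧ ∀ i, c < c3 i := by
    have hpos' : ∀ᶠ c : ℝ in 𝓝[>] 0, 0 < c := self_mem_nhdsWithin
    refine hpos'.and (((ev_lt hc2 1).mono fun c hc => by linarith).and ?_)
    exact eventually_all.mpr fun i => (ev_lt (hc3 i) 1).mono fun c hc => by linarith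
  obtain ⟨c, hc0, hcc2, hcc3⟩ := hev.exists
  -- uniform continuity
  have huc := hKc.uniformContinuousOn_of_continuous (hXU.continuousOn.mono hKU)
  rw [Metric.uniformContinuousOn_iff] at huc
  set η := c / (4 * (D.R + 1)) with hη
  have hη0 : 0 < η := by positivity
  obtain ⟨δ2, hδ2, huc⟩ := huc η hη0
  -- choice of ε
  set R1 := D.R + 1 with hR1
  have hR1p : 0 < R1 := by linarith
  have hpos : ∀ᶠ ε : ℝ in 𝓝[>] 0, 0 < ε := self_mem_nhdsWithin
  have e1 : ∀ᶠ ε : ℝ in 𝓝[>] 0, 0 + 2 * ε < δ := ev_lt hδ0 2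
  have e2 : ∀ᶠ ε : ℝ in 𝓝[>] 0, 0 + 2 * ε < δ2 := ev_lt hδ2 2
  have e3 : ∀ᶠ ε : ℝ in 𝓝[>] 0, 0 + 1 * ε < 1 / 4 := ev_lt (by norm_num) 1
  have e4 : ∀ᶠ ε : ℝ in 𝓝[>] 0, 0 + 2 * ε < D.R := ev_lt hR 2
  have e5 : ∀ᶠ ε : ℝ in 𝓝[>] 0, ∀ i, 0 + 2 * ε < D.r i :=
    eventually_all.mpr fun i => ev_lt (D.r_pos i) 2
  have e6 : ∀ᶠ ε : ℝ in 𝓝[>] 0, 0 + (11 * (M + 1 + R1)) * ε < c1 := ev_lt hc1 _
  have e7 : ∀ᶠ ε : ℝ in 𝓝[>] 0, 0 + (R1 * R1) * ε < c / 4 := ev_lt (by linarith) _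
  obtain ⟨ε, hε0, e1, e2, e3, e4, e5, e6, e7⟩ :=
    (hpos.and (e1.and (e2.and (e3.and (e4.and (e5.and (e6.and e7))))))).exists
  refine ⟨ε, hε0, fun D' hR' ha' hr' σ hσ hσb => ?_⟩
  have hR'1 := abs_le.mp hR'
  have hcar : ∀ z ∈ D'.carrier, z ∈ K := by
    intro z hz
    obtain ⟨w, hw, hzw⟩ := carrier_close hR hε0.le hR' ha' hr' (fun i => by linarith [e5 i]) hz
    exact mem_cthickening_of_dist_le z w δ _ hw (by linarith)
  have hnorm : ∀ z ∈ D'.carrier, ‖z‖ ≤ D.R + ε := fun z hz => by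
    have := hz.1
    linarith
  have hσ1 : ∀ z ∈ D'.carrier, 3 / 4 ≤ σ z := fun z hz => by
    have := (abs_le.mp (hσb z (hnorm z hz)).1).1
    linarith
  have hσpos : ∀ z ∈ D'.carrier, 0 < σ z := fun z hz => by linarith [hσ1 z hz]
  have hXd : ∀ z ∈ D'.carrier, DifferentiableAt ℝ X z := fun z hz =>
    ((hXU.contDiffAt (hU.mem_nhds (hKU (hcar z hz)))).differentiableAt one_ne_zero)
  have hZ1 : ∀ z ∈ D'.carrier, |ZZ σ z| ≤ ε * R1 := by
    intro z hz
    refine (abs_ZZ_le (fun z hz => (hσb z hz).1) (hnorm z hz)).trans ?_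
    exact mul_le_mul_of_nonneg_left (by linarith) hε0.le
  have hZ2 : ∀ z ∈ D'.carrier, ∀ v, |fderiv ℝ (ZZ σ) z v| ≤ ε * (1 + R1) * ‖v‖ := by
    intro z hz v
    refine (abs_dZZ_le hσ (fun z hz => (hσb z hz).1) (fun z hz => (hσb z hz).2)
      (hnorm z hz) v).trans ?_
    refine mul_le_mul_of_nonneg_right ?_ (norm_nonneg _)
    exact mul_le_mul_of_nonneg_left (by linarith) hε0.le
  refine ⟨⟨hσ, hσpos⟩, corr σ X, ⟨?_, ?_, ?_, ?_, ?_⟩⟩
  · -- smoothness
    refine ⟨U ∩ {z | σ z ≠ 0}, hU.inter (isOpen_ne_fun hσ.continuous continuous_const), ?_, ?_⟩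
    · exact fun z hz => ⟨hKU (hcar z hz), (hσpos z hz).ne'⟩
    · have h1 : ContDiffOn ℝ 1 (fun z => (((σ z)⁻¹ : ℝ) : ℂ)) (U ∩ {z | σ z ≠ 0}) :=
        ofRealCLM.contDiff.comp_contDiffOn (hσ.contDiffOn.inv fun z hz => hz.2)
      exact h1.mul ((hXU.mono inter_subset_left).add
        (ofRealCLM.contDiff.comp (contDiff_ZZ hσ)).contDiffOn)
  · exact fun z hz => corr_div hσ (hXd z hz) (hdivU z (hKU (hcar z hz))) (hσpos z hz)
  · intro z hz v hv
    refine corr_strain hσ (hXd z hz) (R1 := R1) (M := M) (s := 1 - c1) (ε := ε)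
      (hdivU z (hKU (hcar z hz))) ?_ hR1p.le (hMX z (hcar z hz)) (hMX' z (hcar z hz)) hε0.le
      (by linarith) (hσb z (hnorm z hz)).1 (hσb z (hnorm z hz)).2 (hZ1 z hz) (hZ2 z hz) ?_ hv
    · have := hc1' z (hcar z hz)
      linarith
    · linarith
  · -- outer circle
    intro z hz
    have hzM := D'.outer_mem hz
    have hR'p : 0 < D'.R := by linarith
    set w : ℂ := ((D.R / D'.R : ℝ) : ℂ) * z with hw
    have hwn : ‖w‖ = D.R := by
      rw [hw, norm_mul, norm_real, Real.norm_eq_abs, abs_of_pos (div_pos hR hR'p), hz]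
      field_simp
    have hwK : w ∈ K := hDK (D.outer_mem hwn)
    have hdist : dist z w < δ2 := by
      have h1 : ‖z - w‖ = |D'.R - D.R| := by
        rw [hw, show z - ((D.R / D'.R : ℝ) : ℂ) * z = ((1 - D.R / D'.R : ℝ) : ℂ) * z by
          push_cast; ring, norm_mul, norm_real, Real.norm_eq_abs, hz]
        rw [show D'.R - D.R = (1 - D.R / D'.R) * D'.R by field_simp, abs_mul, abs_of_pos hR'p]
      rw [dist_eq_norm, h1]
      linarith
    have h1 := huc z (hcar z hzM) w hwK hdist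
    rw [dist_eq_norm] at h1
    have h2 : c ≤ dot (X w) w := by
      have := hc2' w (by simpa using hwn)
      simp only [sub_zero] at this
      linarith
    have h3 : dot (X z) z = (D'.R / D.R) * (dot (X w) w + dot (X z - X w) w) := by
      rw [dot_sub_left, add_sub_cancel, hw, dot_smul_right]
      field_simp
    have h4 : |dot (X z - X w) w| ≤ η * D.R := by
      refine (abs_dot_le _ _).trans ?_
      rw [hwn]
      exact mul_le_mul_of_nonneg_right h1.le hR.le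
    have h5 : η * D.R ≤ c / 4 := by
      rw [hη, div_mul_eq_mul_div, div_le_div_iff₀ (by positivity) (by norm_num)]
      nlinarith
    have h6 := (abs_le.mp h4).1
    have h7 : 1 / 2 ≤ D'.R / D.R := by
      rw [le_div_iff₀ hR]; linarith
    have h8 : 3 * c / 8 ≤ dot (X z) z := by
      rw [h3]
      nlinarith
    have h9 : |dot ((ZZ σ z : ℝ) : ℂ) z| ≤ R1 * R1 * ε := by
      refine (abs_dot_le _ _).trans ?_
      rw [norm_real, Real.norm_eq_abs, hz]
      have h10 : D'.R ≤ R1 := by linarith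
      calc |ZZ σ z| * D'.R ≤ (ε * R1) * R1 := mul_le_mul (hZ1 z hzM) h10 hR'p.le (by positivity)
        _ = R1 * R1 * ε := by ring
    have h11 := (abs_le.mp h9).1
    rw [corr, dot_smul_left, dot_add_left]
    exact mul_nonneg (inv_nonneg.mpr (hσpos z hzM).le) (by linarith)
  · -- inner circles
    intro i z hz
    have hzM := D'.inner_mem hz
    have hr0 := D.r_pos i
    have hr'0 := D'.r_pos i
    have hri := abs_le.mp (hr' i)
    have hrR : D.r i ≤ D.R := by linarith [D.inside i, norm_nonneg (D.a i)]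
    set w : ℂ := D.a i + ((D.r i / D'.r i : ℝ) : ℂ) * (z - D'.a i) with hw
    have hwa : w - D.a i = ((D.r i / D'.r i : ℝ) : ℂ) * (z - D'.a i) := by
      rw [hw, add_sub_cancel_left]
    have hwn : ‖w - D.a i‖ = D.r i := by
      rw [hwa, norm_mul, norm_real, Real.norm_eq_abs, abs_of_pos (div_pos hr0 hr'0), hz]
      field_simp
    have hwK : w ∈ K := hDK (D.inner_mem hwn)
    have hdist : dist z w < δ2 := by
      have e : z - w = ((1 - D.r i / D'.r i : ℝ) : ℂ) * (z - D'.a i) + (D'.a i - D.a i) := by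
        rw [hw]; push_cast; ring
      have h1 : ‖((1 - D.r i / D'.r i : ℝ) : ℂ) * (z - D'.a i)‖ = |D'.r i - D.r i| := by
        rw [norm_mul, norm_real, Real.norm_eq_abs, hz]
        rw [show D'.r i - D.r i = (1 - D.r i / D'.r i) * D'.r i by field_simp, abs_mul,
          abs_of_pos hr'0]
      rw [dist_eq_norm, e]
      refine lt_of_le_of_lt (norm_add_le _ _) ?_
      rw [h1]
      linarith [hr' i, ha' i]
    have h1 := huc z (hcar z hzM) w hwK hdist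
    rw [dist_eq_norm] at h1
    have h2 : dot (X w) (w - D.a i) ≤ -c := by
      have h3 := hc3' i w (by rw [mem_sphere, dist_eq_norm]; exact hwn)
      have h4 := hcc3 i
      linarith
    have h3 : dot (X z) (z - D'.a i) =
        (D'.r i / D.r i) * (dot (X w) (w - D.a i) + dot (X z - X w) (w - D.a i)) := by
      rw [dot_sub_left, add_sub_cancel, hwa, dot_smul_right]
      field_simp
    have h4 : |dot (X z - X w) (w - D.a i)| ≤ η * D.R := by
      refine (abs_dot_le _ _).trans ?_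
      rw [hwn]
      exact mul_le_mul h1.le hrR hr0.le hη0.le
    have h5 : η * D.R ≤ c / 4 := by
      rw [hη, div_mul_eq_mul_div, div_le_div_iff₀ (by positivity) (by norm_num)]
      nlinarith
    have h6 := (abs_le.mp h4).2
    have h7 : 1 / 2 ≤ D'.r i / D.r i := by
      rw [le_div_iff₀ hr0]; linarith [e5 i]
    have h8 : dot (X z) (z - D'.a i) ≤ -(3 * c / 8) := by
      rw [h3]
      nlinarith
    have h9 : |dot ((ZZ σ z : ℝ) : ℂ) (z - D'.a i)| ≤ R1 * R1 * ε := by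
      refine (abs_dot_le _ _).trans ?_
      rw [norm_real, Real.norm_eq_abs, hz]
      have h10 : D'.r i ≤ R1 := by linarith
      calc |ZZ σ z| * D'.r i ≤ (ε * R1) * R1 := mul_le_mul (hZ1 z hzM) h10 hr'0.le (by positivity)
        _ = R1 * R1 * ε := by ring
    have h11 := (abs_le.mp h9).2
    rw [corr, dot_smul_left, dot_add_left]
    exact mul_nonpos_of_nonneg_of_nonpos (inv_nonneg.mpr (hσpos z hzM).le) (by linarith)

end Pool.Agent.CG
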