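import Pool.Agent.Lib.MP_35454f.PFlow

/-!
# Weber's formula and Kelvin's theorem on a circular domain
-/

set_option autoImplicit false

open MeasureTheory Filter Topology Complex Set Metric
open scoped ContDiff Interval

namespace Pool.Agent.CG

variable {n : ℕ}
variable {D : CircularDomain n} {σ : ℂ → ℝ} {u : ℝ → ℂ → ℂ} {p : ℝ → ℂ → ℝ} {φ : ℝ → ℂ → ℂ}

/-- The momentum `σ u`. -/
noncomputable def al (σ : ℂ → ℝ) (u : ℝ → ℂ → ℂ) (t : ℝ) (z : ℂ) : ℂ := (σ z : ℂ) * u t z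

/-- The kinetic energy density. -/
noncomputable def kin (σ : ℂ → ℝ) (u : ℝ → ℂ → ℂ) (t : ℝ) (z : ℂ) : ℝ :=
  1 / 2 * (σ z * normSq (u t z))

lemma rlin (L : ℂ →L[ℝ] ℝ) (w : ℂ) : L w = w.re * L 1 + w.im * L I := by
  have hv : w = w.re • (1:ℂ) + w.im • I := by apply Complex.ext <;> simp
  conv_lhs => rw [hv]
  rw [map_add, map_smul, map_smul, smul_eq_mul, smul_eq_mul]

lemma clin (L : ℂ →L[ℝ] ℂ) (w : ℂ) : L w = w.re * L 1 + w.im * L I := by
  have hv : w = w.re • (1:ℂ) + w.im • I := by apply Complex.ext <;> simp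
  conv_lhs => rw [hv]
  rw [map_add, map_smul, map_smul, real_smul, real_smul]

lemma HasDerivAt.dot' {f g : ℝ → ℂ} {f' g' : ℂ} {t : ℝ} (hf : HasDerivAt f f' t)
    (hg : HasDerivAt g g' t) : HasDerivAt (fun s => dot (f s) (g s)) (dot f' (g t) + dot (f t) g') t := by
  have fr : HasDerivAt (fun s => (f s).re) f'.re t := reCLM.hasFDerivAt.comp_hasDerivAt t hf
  have fi : HasDerivAt (fun s => (f s).im) f'.im t := imCLM.hasFDerivAt.comp_hasDerivAt t hf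
  have gr : HasDerivAt (fun s => (g s).re) g'.re t := reCLM.hasFDerivAt.comp_hasDerivAt t hg
  have gi : HasDerivAt (fun s => (g s).im) g'.im t := imCLM.hasFDerivAt.comp_hasDerivAt t hg
  refine ((fr.mul gr).add (fi.mul gi)).congr_deriv ?_
  simp only [dot]
  ring

namespace PMot

lemma σne (h : PMot D σ u p φ) {z : ℂ} (hz : z ∈ D.carrier) : σ z ≠ 0 := (h.met.pos z hz).ne'

lemma G1al (h : PMot D σ u p φ) : G1 (al σ u) :=
  ContDiff.mul (ofRealCLM.contDiff.comp (h.met.contDiff.comp contDiff_snd)) h.G1u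

lemma G1kin (h : PMot D σ u p φ) : G1 (kin σ u) := by
  have h1 : ContDiff ℝ 1 (fun w : ℂ => normSq w) := contDiff_normSq.of_le (by simp)
  exact contDiff_const.mul ((h.met.contDiff.comp contDiff_snd).mul (h1.comp h.G1u))

lemma hasFDerivAt_σ (h : PMot D σ u p φ) (z : ℂ) : HasFDerivAt σ (fderiv ℝ σ z) z :=
  (h.met.contDiff.differentiable one_ne_zero z).hasFDerivAt

lemma fderiv_al (h : PMot D σ u p φ) (t : ℝ) (z w : ℂ) :
    fderiv ℝ (al σ u t) z w = (σ z : ℂ) * fderiv ℝ (u t) z w + (fderiv ℝ σ z w : ℂ) * u t z := by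
  have h1 : HasFDerivAt (fun z => (σ z : ℂ)) (ofRealCLM.comp (fderiv ℝ σ z)) z :=
    ofRealCLM.hasFDerivAt.comp z (h.hasFDerivAt_σ z)
  have h2 := h1.fun_mul (h.G1u.hasFDerivAt t z)
  have h3 : al σ u t = fun z => (σ z : ℂ) * u t z := rfl
  rw [h3, h2.fderiv]
  simp
  ring

lemma deriv_al (h : PMot D σ u p φ) (t : ℝ) (z : ℂ) :
    deriv (fun s => al σ u s z) t = (σ z : ℂ) * deriv (fun s => u s z) t :=
  ((h.G1u.hasDerivAt t z).const_mul (σ z : ℂ)).deriv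

lemma hasFDerivAt_normSq_u (h : PMot D σ u p φ) (t : ℝ) (z : ℂ) :
    HasFDerivAt (fun z => normSq (u t z)) ((dotL (2 * u t z)).comp (fderiv ℝ (u t) z)) z :=
  (hasFDerivAt_normSq (u t z)).comp z (h.G1u.hasFDerivAt t z)

lemma fderiv_kin (h : PMot D σ u p φ) (t : ℝ) (z w : ℂ) :
    fderiv ℝ (kin σ u t) z w = 1 / 2 * (fderiv ℝ σ z w * normSq (u t z)) +
      σ z * dot (u t z) (fderiv ℝ (u t) z w) := by
  have h2 := ((h.hasFDerivAt_σ z).fun_mul (h.hasFDerivAt_normSq_u t z)).const_mul (1 / 2)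
  have h3 : kin σ u t = fun z => 1 / 2 * (σ z * normSq (u t z)) := rfl
  rw [h3, h2.fderiv]
  simp only [smul_apply, add_apply, ContinuousLinearMap.comp_apply, dotL_apply, smul_eq_mul, dot,
    mul_re, mul_im, re_ofNat, im_ofNat]
  ring

lemma deriv_kin (h : PMot D σ u p φ) (t : ℝ) (z : ℂ) :
    deriv (fun s => kin σ u s z) t = σ z * dot (u t z) (deriv (fun s => u s z) t) := by
  have h1 : HasDerivAt (fun s => normSq (u s z)) (dotL (2 * u t z) (deriv (fun s => u s z) t)) t :=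
    (hasFDerivAt_normSq (u t z)).comp_hasDerivAt t (h.G1u.hasDerivAt t z)
  have h2 := (h1.const_mul (σ z)).const_mul (1 / 2)
  rw [show (fun s => kin σ u s z) = fun s => 1 / 2 * (σ z * normSq (u s z)) from rfl, h2.deriv,
    dotL_apply]
  simp only [dot, mul_re, mul_im, re_ofNat, im_ofNat]
  ring

/-- The Euler equations, in real components. -/
lemma euler_re_im (h : PMot D σ u p φ) (t : ℝ) {z : ℂ} (hz : z ∈ D.carrier) :
    (σ z * ((deriv (fun s => u s z) t).re + (fderiv ℝ (u t) z (u t z)).re) +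
      1 / 2 * (fderiv ℝ σ z 1 * ((u t z).re ^ 2 - (u t z).im ^ 2) +
        2 * fderiv ℝ σ z I * (u t z).re * (u t z).im) = - fderiv ℝ (p t) z 1) ∧
    (σ z * ((deriv (fun s => u s z) t).im + (fderiv ℝ (u t) z (u t z)).im) +
      1 / 2 * (2 * fderiv ℝ σ z 1 * (u t z).re * (u t z).im -
        fderiv ℝ σ z I * ((u t z).re ^ 2 - (u t z).im ^ 2)) = - fderiv ℝ (p t) z I) := by
  have hs : (σ z : ℂ) ≠ 0 := ofReal_ne_zero.mpr (h.σne hz)
  have E := h.eul.euler t z hz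
  rw [nablaS, gradS] at E
  have E2 : (σ z : ℂ) * (deriv (fun s => u s z) t + fderiv ℝ (u t) z (u t z)) +
      (((fderiv ℝ σ z 1 : ℝ) : ℂ) - I * ((fderiv ℝ σ z I : ℝ) : ℂ)) / 2 * (u t z * u t z) =
      -(((fderiv ℝ (p t) z 1 : ℝ) : ℂ) + I * ((fderiv ℝ (p t) z I : ℝ) : ℂ)) := by
    have e1 : (σ z : ℂ) * (deriv (fun s => u s z) t + fderiv ℝ (u t) z (u t z)) +
      (((fderiv ℝ σ z 1 : ℝ) : ℂ) - I * ((fderiv ℝ σ z I : ℝ) : ℂ)) / 2 * (u t z * u t z) =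
      (σ z : ℂ) * (deriv (fun s => u s z) t + (fderiv ℝ (u t) z (u t z) +
        (((fderiv ℝ σ z 1 : ℝ) : ℂ) - I * ((fderiv ℝ σ z I : ℝ) : ℂ)) / (2 * (σ z : ℂ)) *
          u t z * u t z)) := by
      field_simp
      ring
    rw [e1, E]
    field_simp
  constructor
  · have e := congrArg Complex.re E2
    simp at e
    simp only [pow_two]
    linarith
  · have e := congrArg Complex.im E2
    simp at e
    simp only [pow_two]
    linarith

/-- The Euler equations for the covector `σ u`. -/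
lemma euler_cov (h : PMot D σ u p φ) (t : ℝ) {z : ℂ} (hz : z ∈ D.carrier) (w : ℂ) :
    dot (deriv (fun s => al σ u s z) t + fderiv ℝ (al σ u t) z (u t z)) w +
      dot (al σ u t z) (fderiv ℝ (u t) z w) = fderiv ℝ (kin σ u t) z w - fderiv ℝ (p t) z w := by
  obtain ⟨e1, e2⟩ := h.euler_re_im t hz
  rw [h.deriv_al, h.fderiv_al, h.fderiv_kin, rlin (fderiv ℝ σ z) w, rlin (fderiv ℝ (p t) z) w,
    rlin (fderiv ℝ σ z) (u t z), normSq_apply]
  simp only [al, dot, add_re, add_im, re_ofReal_mul, im_ofReal_mul]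
  linear_combination w.re * e1 + w.im * e2

/-! ### the derivative of the flow -/

lemma gcφφ (h : PMot D σ u p φ) : Continuous fun q : ℝ × ℂ => (q.1, φ q.1 q.2) :=
  continuous_fst.prodMk h.c1φ.gc

lemma gc_comp (h : PMot D σ u p φ) {E : Type*} [TopologicalSpace E] {g : ℝ → ℂ → E} (hg : GC g) :
    GC fun t z => g t (φ t z) :=
  Continuous.comp (g := fun q : ℝ × ℂ => g q.1 q.2) hg h.gcφφ

lemma φ_eq (h : PMot D σ u p φ) (t : ℝ) {z : ℂ} (hz : z ∈ D.carrier) :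
    φ t z = z + ∫ s in (0:ℝ)..t, u s (φ s z) := by
  rw [intervalIntegral.integral_eq_sub_of_hasDerivAt (fun s _ => h.ode s z hz)
    ((h.continuous_u z).intervalIntegrable _ _), h.start z hz]
  ring

lemma hasFDerivAt_uφ (h : PMot D σ u p φ) (t : ℝ) (z : ℂ) : HasFDerivAt (fun z => u t (φ t z))
    ((fderiv ℝ (u t) (φ t z)).comp (fderiv ℝ (φ t) z)) z :=
  (h.G1u.hasFDerivAt t (φ t z)).comp z (h.c1φ.hasFDerivAt t z)

lemma gc_duφ (h : PMot D σ u p φ) :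
    GC fun t z => (fderiv ℝ (u t) (φ t z)).comp (fderiv ℝ (φ t) z) :=
  Continuous.clm_comp (h.gc_comp h.G1u.gc_fderiv) h.c1φ.gc_fderiv

lemma fderiv_φ (h : PMot D σ u p φ) (t : ℝ) {z : ℂ} (hz : z ∈ D.inn) :
    fderiv ℝ (φ t) z = ContinuousLinearMap.id ℝ ℂ +
      ∫ s in (0:ℝ)..t, (fderiv ℝ (u s) (φ s z)).comp (fderiv ℝ (φ s) z) := by
  have h1 : φ t =ᶠ[𝓝 z] fun w => w + ∫ s in (0:ℝ)..t, u s (φ s w) := by
    filter_upwards [D.isOpen_inn.mem_nhds hz] with w hw using h.φ_eq t (D.inn_subset hw)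
  have h2 := (hasFDerivAt_id (𝕜 := ℝ) z).add (hasFDerivAt_parG (h.gc_comp h.G1u.gc) h.gc_duφ
    (fun t z => h.hasFDerivAt_uφ t z) 0 t z)
  have h3 : HasFDerivAt (fun w => w + ∫ s in (0:ℝ)..t, u s (φ s w))
    (ContinuousLinearMap.id ℝ ℂ +
      ∫ s in (0:ℝ)..t, (fderiv ℝ (u s) (φ s z)).comp (fderiv ℝ (φ s) z)) z := h2
  rw [h1.fderiv_eq, h3.fderiv]

lemma hasDerivAt_dφ (h : PMot D σ u p φ) (t : ℝ) {z : ℂ} (hz : z ∈ D.inn) :
    HasDerivAt (fun s => fderiv ℝ (φ s) z)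
      ((fderiv ℝ (u t) (φ t z)).comp (fderiv ℝ (φ t) z)) t := by
  have h1 : (fun s => fderiv ℝ (φ s) z) = fun t => ContinuousLinearMap.id ℝ ℂ +
      ∫ s in (0:ℝ)..t, (fderiv ℝ (u s) (φ s z)).comp (fderiv ℝ (φ s) z) := by
    ext1 s
    exact h.fderiv_φ s hz
  rw [h1]
  exact (intervalIntegral.integral_hasDerivAt_right
    ((h.gc_duφ.slice_t z).intervalIntegrable _ _)
    ((h.gc_duφ.slice_t z).stronglyMeasurableAtFilter _ _)
    (h.gc_duφ.slice_t z).continuousAt).const_add _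

/-! ### Weber's formula -/

/-- The Lagrangian `½ |u|² - p`. -/
noncomputable def lag (σ : ℂ → ℝ) (u : ℝ → ℂ → ℂ) (p : ℝ → ℂ → ℝ) (t : ℝ) (z : ℂ) : ℝ :=
  kin σ u t z - p t z

/-- The Bernoulli function `½ |u|² + p`. -/
noncomputable def ber (σ : ℂ → ℝ) (u : ℝ → ℂ → ℂ) (p : ℝ → ℂ → ℝ) (t : ℝ) (z : ℂ) : ℝ :=
  kin σ u t z + p t z

/-- The action of the particles. -/
noncomputable def act (σ : ℂ → ℝ) (u : ℝ → ℂ → ℂ) (p : ℝ → ℂ → ℝ) (φ : ℝ → ℂ → ℂ) (T : ℝ)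
    (z : ℂ) : ℝ := ∫ t in (0:ℝ)..T, lag σ u p t (φ t z)

lemma gcp (h : PMot D σ u p φ) : GC p := h.eul.p_cont

lemma gcdp (h : PMot D σ u p φ) : GC fun t z => fderiv ℝ (p t) z := h.eul.dp_cont

lemma hasFDerivAt_p (h : PMot D σ u p φ) (t : ℝ) (z : ℂ) :
    HasFDerivAt (p t) (fderiv ℝ (p t) z) z :=
  ((h.eul.p_contDiff t).differentiable one_ne_zero z).hasFDerivAt

lemma gclag (h : PMot D σ u p φ) : GC (lag σ u p) := Continuous.sub h.G1kin.gc h.gcp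

lemma gcber (h : PMot D σ u p φ) : GC (ber σ u p) := Continuous.add h.G1kin.gc h.gcp

lemma hasFDerivAt_lag (h : PMot D σ u p φ) (t : ℝ) (z : ℂ) : HasFDerivAt (lag σ u p t)
    (fderiv ℝ (kin σ u t) z - fderiv ℝ (p t) z) z :=
  (h.G1kin.hasFDerivAt t z).sub (h.hasFDerivAt_p t z)

lemma hasFDerivAt_ber (h : PMot D σ u p φ) (t : ℝ) (z : ℂ) : HasFDerivAt (ber σ u p t)
    (fderiv ℝ (kin σ u t) z + fderiv ℝ (p t) z) z :=
  (h.G1kin.hasFDerivAt t z).add (h.hasFDerivAt_p t z)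

lemma gc_dlag (h : PMot D σ u p φ) :
    GC fun t z => fderiv ℝ (kin σ u t) z - fderiv ℝ (p t) z :=
  Continuous.sub h.G1kin.gc_fderiv h.gcdp

lemma gc_dber (h : PMot D σ u p φ) :
    GC fun t z => fderiv ℝ (kin σ u t) z + fderiv ℝ (p t) z :=
  Continuous.add h.G1kin.gc_fderiv h.gcdp

lemma gc_dlagφ (h : PMot D σ u p φ) : GC fun t z =>
    (fderiv ℝ (kin σ u t) (φ t z) - fderiv ℝ (p t) (φ t z)).comp (fderiv ℝ (φ t) z) :=
  Continuous.clm_comp (h.gc_comp h.gc_dlag) h.c1φ.gc_fderiv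

lemma hasFDerivAt_lagφ (h : PMot D σ u p φ) (t : ℝ) (z : ℂ) :
    HasFDerivAt (fun z => lag σ u p t (φ t z))
      ((fderiv ℝ (kin σ u t) (φ t z) - fderiv ℝ (p t) (φ t z)).comp (fderiv ℝ (φ t) z)) z :=
  (h.hasFDerivAt_lag t (φ t z)).comp z (h.c1φ.hasFDerivAt t z)

lemma contDiff_act (h : PMot D σ u p φ) (T : ℝ) : ContDiff ℝ 1 (act σ u p φ T) :=
  contDiff_parG (h.gc_comp h.gclag) h.gc_dlagφ (fun t z => h.hasFDerivAt_lagφ t z) 0 T

/-- **Weber's formula**. -/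
lemma weber (h : PMot D σ u p φ) (T : ℝ) {z : ℂ} (hz : z ∈ D.inn) (w : ℂ) :
    fderiv ℝ (act σ u p φ T) z w =
      dot (al σ u T (φ T z)) (fderiv ℝ (φ T) z w) - dot (al σ u 0 z) w := by
  have hzM := D.inn_subset hz
  have h1 := hasFDerivAt_parG (h.gc_comp h.gclag) h.gc_dlagφ
    (fun t z => h.hasFDerivAt_lagφ t z) 0 T z
  have h1' : HasFDerivAt (act σ u p φ T) (∫ s in (0:ℝ)..T,
    (fderiv ℝ (kin σ u s) (φ s z) - fderiv ℝ (p s) (φ s z)).comp (fderiv ℝ (φ s) z)) z := h1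
  rw [h1'.fderiv, ContinuousLinearMap.intervalIntegral_apply
    ((h.gc_dlagφ.slice_t z).intervalIntegrable _ _)]
  have h2 : ∀ t, HasDerivAt (fun s => dot (al σ u s (φ s z)) (fderiv ℝ (φ s) z w))
      (((fderiv ℝ (kin σ u t) (φ t z) - fderiv ℝ (p t) (φ t z)).comp (fderiv ℝ (φ t) z)) w) t := by
    intro t
    have h3 := h.G1al.hasDerivAt_curve (h.ode t z hzM)
    have h4 : HasDerivAt (fun s => fderiv ℝ (φ s) z w)
        (fderiv ℝ (u t) (φ t z) (fderiv ℝ (φ t) z w)) t := by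
      have := (h.hasDerivAt_dφ t hz).clm_apply (hasDerivAt_const t w)
      simpa using this
    refine (HasDerivAt.dot' h3 h4).congr_deriv ?_
    rw [h.euler_cov t (h.mem t hzM)]
    simp
  rw [intervalIntegral.integral_eq_sub_of_hasDerivAt (fun s _ => h2 s)
    (((h.gc_dlagφ.slice_t z).clm_apply continuous_const).intervalIntegrable _ _)]
  have h5 : fderiv ℝ (φ 0) z = ContinuousLinearMap.id ℝ ℂ := by
    rw [h.fderiv_φ 0 hz]; simp
  rw [h5, h.start z hzM]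
  simp

end PMot

end Pool.Agent.CG
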