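import Pool.Agent.Lib.MP_35454f.Weak

/-!
# Functions on `ℝ × ℍ`: partial derivatives and parametric integrals
-/

set_option autoImplicit false

open MeasureTheory Filter Topology Complex Set
open UpperHalfPlane hiding I
open scoped ContDiff Manifold MatrixGroups Interval

namespace Pool.Agent.CG

/-- Space-time `ℝ × ℍ`. -/
def UT : Set (ℝ × ℂ) := {q | q.2 ∈ UU}

lemma isOpen_UT : IsOpen UT := isOpen_UU.preimage continuous_snd

/-- Joint continuity on `ℝ × ℍ`. -/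
def CO {E : Type*} [TopologicalSpace E] (g : ℝ → ℂ → E) : Prop :=
  ContinuousOn (fun q : ℝ × ℂ => g q.1 q.2) UT

/-- Joint `C¹` regularity on `ℝ × ℍ`. -/
def C1 {E : Type*} [NormedAddCommGroup E] [NormedSpace ℝ E] (g : ℝ → ℂ → E) : Prop :=
  ContDiffOn ℝ 1 (fun q : ℝ × ℂ => g q.1 q.2) UT

section basic

variable {E : Type*} [NormedAddCommGroup E] [NormedSpace ℝ E]

lemma CO.slice {E : Type*} [TopologicalSpace E] {g : ℝ → ℂ → E} (hg : CO g) (t : ℝ) :
    ContinuousOn (g t) UU :=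
  ContinuousOn.comp (g := fun q : ℝ × ℂ => g q.1 q.2) (f := fun z : ℂ => (t, z)) hg
    (by fun_prop) (fun _ hz => hz)

lemma CO.slice_t {E : Type*} [TopologicalSpace E] {g : ℝ → ℂ → E} (hg : CO g) {z : ℂ}
    (hz : z ∈ UU) : Continuous (fun t => g t z) := by
  rw [← continuousOn_univ]
  exact ContinuousOn.comp (g := fun q : ℝ × ℂ => g q.1 q.2) (f := fun t : ℝ => (t, z)) hg
    (by fun_prop) (fun _ _ => hz)

lemma C1.co {g : ℝ → ℂ → E} (hg : C1 g) : CO g := ContDiffOn.continuousOn hg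

lemma C1.hasFDerivAt_joint {g : ℝ → ℂ → E} (hg : C1 g) (t : ℝ) {z : ℂ} (hz : z ∈ UU) :
    HasFDerivAt (fun q : ℝ × ℂ => g q.1 q.2) (fderiv ℝ (fun q : ℝ × ℂ => g q.1 q.2) (t, z))
      (t, z) :=
  ((hg.contDiffAt (isOpen_UT.mem_nhds (show (t, z) ∈ UT from hz))).differentiableAt
    one_ne_zero).hasFDerivAt

lemma C1.hasFDerivAt' {g : ℝ → ℂ → E} (hg : C1 g) (t : ℝ) {z : ℂ} (hz : z ∈ UU) :
    HasFDerivAt (g t) ((fderiv ℝ (fun q : ℝ × ℂ => g q.1 q.2) (t, z)).comp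
      (ContinuousLinearMap.inr ℝ ℝ ℂ)) z := by
  have h1 := hg.hasFDerivAt_joint t hz
  have h2 : HasFDerivAt (fun w : ℂ => (t, w)) (ContinuousLinearMap.inr ℝ ℝ ℂ) z :=
    hasFDerivAt_prodMk_right t z
  exact h1.comp z h2

lemma C1.hasDerivAt' {g : ℝ → ℂ → E} (hg : C1 g) (t : ℝ) {z : ℂ} (hz : z ∈ UU) :
    HasDerivAt (fun s => g s z) ((fderiv ℝ (fun q : ℝ × ℂ => g q.1 q.2) (t, z)) (1, 0)) t := by
  have h1 := hg.hasFDerivAt_joint t hz
  have h2 : HasDerivAt (fun s : ℝ => (s, z)) ((1 : ℝ), (0 : ℂ)) t :=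
    (hasDerivAt_id t).prodMk (hasDerivAt_const t z)
  exact h1.comp_hasDerivAt t h2

lemma C1.hasFDerivAt {g : ℝ → ℂ → E} (hg : C1 g) (t : ℝ) {z : ℂ} (hz : z ∈ UU) :
    HasFDerivAt (g t) (fderiv ℝ (g t) z) z :=
  (hg.hasFDerivAt' t hz).differentiableAt.hasFDerivAt

lemma C1.hasDerivAt {g : ℝ → ℂ → E} (hg : C1 g) (t : ℝ) {z : ℂ} (hz : z ∈ UU) :
    HasDerivAt (fun s => g s z) (deriv (fun s => g s z) t) t :=
  (hg.hasDerivAt' t hz).differentiableAt.hasDerivAt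

lemma C1.co_fderiv {g : ℝ → ℂ → E} (hg : C1 g) : CO (fun t z => fderiv ℝ (g t) z) := by
  have h1 : ContinuousOn (fun q : ℝ × ℂ => (fderiv ℝ (fun q : ℝ × ℂ => g q.1 q.2) q).comp
      (ContinuousLinearMap.inr ℝ ℝ ℂ)) UT :=
    (ContDiffOn.continuousOn_fderiv_of_isOpen hg isOpen_UT (by simp)).clm_comp continuousOn_const
  refine h1.congr fun q hq => ?_
  exact (hg.hasFDerivAt' q.1 hq).fderiv

lemma C1.co_deriv {g : ℝ → ℂ → E} (hg : C1 g) : CO (fun t z => deriv (fun s => g s z) t) := by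
  have h1 : ContinuousOn (fun q : ℝ × ℂ => (fderiv ℝ (fun q : ℝ × ℂ => g q.1 q.2) q) (1, 0)) UT :=
    (ContDiffOn.continuousOn_fderiv_of_isOpen hg isOpen_UT (by simp)).clm_apply continuousOn_const
  refine h1.congr fun q hq => ?_
  exact (hg.hasDerivAt' q.1 hq).deriv

lemma C1.slice {g : ℝ → ℂ → E} (hg : C1 g) (t : ℝ) : ContDiffOn ℝ 1 (g t) UU :=
  ContDiffOn.comp (g := fun q : ℝ × ℂ => g q.1 q.2) (f := fun z : ℂ => (t, z)) hg
    (by fun_prop) (fun _ hz => hz)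

end basic

section integral

variable {E : Type*} [NormedAddCommGroup E] [NormedSpace ℝ E]

omit [NormedSpace ℝ E] in
/-- Local bound. -/
lemma CO.exists_bound {g : ℝ → ℂ → E} (hg : CO g) (a b : ℝ) {z₀ : ℂ} (hz₀ : z₀ ∈ UU) :
    ∃ V ∈ 𝓝 z₀, V ⊆ UU ∧ ∃ C : ℝ, ∀ t ∈ uIcc a b, ∀ z ∈ V, ‖g t z‖ ≤ C := by
  obtain ⟨K, hK, hKU, hKc⟩ := local_compact_nhds (isOpen_UU.mem_nhds hz₀)
  obtain ⟨C, hC⟩ := (isCompact_uIcc.prod hKc).exists_bound_of_continuousOn
    (f := fun q : ℝ × ℂ => g q.1 q.2) (hg.mono (fun q hq => hKU hq.2))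
  exact ⟨K, hK, hKU, C, fun t ht z hz => hC (t, z) ⟨ht, hz⟩⟩

lemma hasFDerivAt_param {g : ℝ → ℂ → E} {g' : ℝ → ℂ → ℂ →L[ℝ] E}
    (hg : CO g) (hg' : CO g') (hd : ∀ t, ∀ z ∈ UU, HasFDerivAt (g t) (g' t z) z) (a b : ℝ)
    {z₀ : ℂ} (hz₀ : z₀ ∈ UU) :
    HasFDerivAt (fun z => ∫ s in a..b, g s z) (∫ s in a..b, g' s z₀) z₀ := by
  obtain ⟨V, hV, hVU, C, hC⟩ := hg'.exists_bound a b hz₀
  refine intervalIntegral.hasFDerivAt_integral_of_dominated_of_fderiv_le
    (F := fun z s => g s z) (F' := fun z s => g' s z) (bound := fun _ => C) hV ?_ ?_ ?_ ?_ ?_ ?_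
  · filter_upwards [hV] with z hz
    exact (hg.slice_t (hVU hz)).aestronglyMeasurable
  · exact (hg.slice_t hz₀).intervalIntegrable _ _
  · exact (hg'.slice_t hz₀).aestronglyMeasurable
  · exact Eventually.of_forall fun t ht z hz => hC t (uIoc_subset_uIcc ht) z hz
  · exact intervalIntegrable_const
  · exact Eventually.of_forall fun t _ z hz => hd t z (hVU hz)

lemma CO.continuousOn_integral {g : ℝ → ℂ → E} (hg : CO g) (a b : ℝ) :
    ContinuousOn (fun z => ∫ s in a..b, g s z) UU := by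
  intro z₀ hz₀
  obtain ⟨V, hV, hVU, C, hC⟩ := hg.exists_bound a b hz₀
  refine ContinuousAt.continuousWithinAt ?_
  refine intervalIntegral.continuousAt_of_dominated_interval (bound := fun _ => C) ?_ ?_ ?_ ?_
  · filter_upwards [hV] with z hz
    exact (hg.slice_t (hVU hz)).aestronglyMeasurable
  · filter_upwards [hV] with z hz
    exact Eventually.of_forall fun t ht => hC t (uIoc_subset_uIcc ht) z hz
  · exact intervalIntegrable_const
  · exact Eventually.of_forall fun t _ => (hg.slice t).continuousAt (isOpen_UU.mem_nhds hz₀)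

lemma contDiffOn_param {g : ℝ → ℂ → E} {g' : ℝ → ℂ → ℂ →L[ℝ] E}
    (hg : CO g) (hg' : CO g') (hd : ∀ t, ∀ z ∈ UU, HasFDerivAt (g t) (g' t z) z) (a b : ℝ) :
    ContDiffOn ℝ 1 (fun z => ∫ s in a..b, g s z) UU := by
  rw [show (1 : ℕ∞ω) = 0 + 1 by simp, contDiffOn_succ_iff_fderiv_of_isOpen isOpen_UU]
  refine ⟨fun z hz => (hasFDerivAt_param hg hg' hd a b hz).differentiableAt.differentiableWithinAt,
    by simp, ?_⟩
  rw [contDiffOn_zero]
  refine (hg'.continuousOn_integral a b).congr fun z hz => ?_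
  exact (hasFDerivAt_param hg hg' hd a b hz).fderiv

lemma CO.continuous_mul {χ : ℂ → ℝ} {g : ℝ → ℂ → ℝ} (hg : CO g) (hχ : Continuous χ)
    (hχU : tsupport χ ⊆ UU) : Continuous fun q : ℝ × ℂ => χ q.2 * g q.1 q.2 := by
  rw [continuous_iff_continuousAt]
  intro q
  by_cases hq : q.2 ∈ UU
  · exact (hχ.continuousAt.comp continuousAt_snd).mul
      (ContinuousOn.continuousAt hg (isOpen_UT.mem_nhds hq))
  · have hq' : q.2 ∉ tsupport χ := fun h => hq (hχU h)
    have h0 : χ =ᶠ[𝓝 q.2] 0 := notMem_tsupport_iff_eventuallyEq.mp hq'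
    have h1 : (fun q : ℝ × ℂ => χ q.2 * g q.1 q.2) =ᶠ[𝓝 q] fun _ => 0 := by
      filter_upwards [continuousAt_snd.eventually h0] with w hw
      simp [hw]
    exact continuousAt_const.congr h1.symm

lemma CO.continuous_integral_mul {χ : ℂ → ℝ} {g : ℝ → ℂ → ℝ} (hg : CO g) (hχ : Continuous χ)
    (hχc : HasCompactSupport χ) (hχU : tsupport χ ⊆ UU) :
    Continuous fun t => ∫ z, χ z * g t z := by
  have h1 := continuous_parametric_integral_of_continuous (μ := (volume : Measure ℂ))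
    (f := fun (t : ℝ) (z : ℂ) => χ z * g t z) (hg.continuous_mul hχ hχU)
    (s := tsupport χ) hχc
  refine h1.congr fun t => ?_
  refine setIntegral_eq_integral_of_forall_compl_eq_zero fun z hz => ?_
  simp [image_eq_zero_of_notMem_tsupport hz]

/-- Fubini for compactly supported continuous integrands. -/
lemma fubini {χ : ℂ → ℝ} {g : ℝ → ℂ → ℝ} (hχ : Continuous χ) (hχc : HasCompactSupport χ)
    (hχU : tsupport χ ⊆ UU) (hg : CO g) (a b : ℝ) :
    ∫ z, χ z * ∫ t in a..b, g t z = ∫ t in a..b, ∫ z, χ z * g t z := by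
  have hcont : Continuous fun q : ℝ × ℂ => χ q.2 * g q.1 q.2 := hg.continuous_mul hχ hχU
  have hint : Integrable (Function.uncurry fun (t : ℝ) (z : ℂ) => χ z * g t z)
      ((volume.restrict (Ι a b)).prod volume) := by
    have h1 : IntegrableOn (fun q : ℝ × ℂ => χ q.2 * g q.1 q.2) ((uIcc a b) ×ˢ tsupport χ)
        ((volume : Measure ℝ).prod (volume : Measure ℂ)) :=
      hcont.continuousOn.integrableOn_compact (isCompact_uIcc.prod hχc)
    have h2 : IntegrableOn (fun q : ℝ × ℂ => χ q.2 * g q.1 q.2) ((Ι a b) ×ˢ univ)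
        ((volume : Measure ℝ).prod (volume : Measure ℂ)) := by
      have h3 : IntegrableOn (fun q : ℝ × ℂ => χ q.2 * g q.1 q.2) ((Ι a b) ×ˢ tsupport χ)
          ((volume : Measure ℝ).prod (volume : Measure ℂ)) :=
        h1.mono_set (prod_mono uIoc_subset_uIcc (subset_refl _))
      refine h3.of_forall_sdiff_eq_zero (measurableSet_uIoc.prod MeasurableSet.univ) ?_
      rintro ⟨t, z⟩ ⟨h4, h5⟩
      have : z ∉ tsupport χ := fun h => h5 ⟨h4.1, h⟩
      simp [image_eq_zero_of_notMem_tsupport this]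
    rw [IntegrableOn, ← Measure.prod_restrict, Measure.restrict_univ] at h2
    exact h2
  have := intervalIntegral_integral_swap (μ := (volume : Measure ℂ)) hint
  rw [this]
  congr 1
  ext z
  rw [intervalIntegral.integral_const_mul]

end integral

end Pool.Agent.CG
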