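import Pool.Agent.Lib.MP_35454f.QPsi
import Pool.Agent.Lib.MP_35454f.PStab

/-!
# The area swept by the particles
-/

set_option autoImplicit false

open MeasureTheory Filter Topology Complex Set Metric
open scoped ContDiff Interval

namespace Pool.Agent.CG

variable {n : ℕ}
variable {D : CircularDomain n} {σ : ℂ → ℝ} {u : ℝ → ℂ → ℂ} {p : ℝ → ℂ → ℝ} {φ : ℝ → ℂ → ℂ}

/-- Gronwall, in both directions of time -/
lemma gron {f f' : ℝ → ℝ} {K a b : ℝ} (hd : ∀ s, HasDerivAt f (f' s) s)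
    (hb : ∀ s ∈ uIcc a b, ‖f' s‖ ≤ K * ‖f s‖) (h0 : f a = 0) : f b = 0 := by
  rcases le_total a b with hab | hab
  · have hG := norm_le_gronwallBound_of_norm_deriv_right_le
      (f := f) (f' := f') (δ := 0) (K := K) (ε := 0) (a := a) (b := b)
      (fun s _ => (hd s).continuousAt.continuousWithinAt)
      (fun s _ => (hd s).hasDerivWithinAt) (by rw [h0]; simp)
      (fun s hs => by
        rw [add_zero]
        exact hb s (by rw [uIcc_of_le hab]; exact ⟨hs.1, hs.2.le⟩)) b ⟨hab, le_rfl⟩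
    rw [gronwallBound_ε0_δ0] at hG
    exact norm_le_zero_iff.mp hG
  · have hd' : ∀ s, HasDerivAt (fun s => f (-s)) (-(f' (-s))) s := by
      intro s
      have h1 := (hd (-s)).scomp s (hasDerivAt_neg s)
      refine h1.congr_deriv ?_
      simp
    have hG := norm_le_gronwallBound_of_norm_deriv_right_le
      (f := fun s => f (-s)) (f' := fun s => -(f' (-s))) (δ := 0) (K := K) (ε := 0)
      (a := -a) (b := -b)
      (fun s _ => (hd' s).continuousAt.continuousWithinAt)
      (fun s _ => (hd' s).hasDerivWithinAt) (by simp [h0])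
      (fun s hs => by
        rw [add_zero, norm_neg]
        exact hb (-s) (by
          rw [uIcc_of_ge hab]
          exact ⟨by linarith [hs.2], by linarith [hs.1]⟩)) (-b) ⟨by linarith, le_rfl⟩
    rw [gronwallBound_ε0_δ0] at hG
    simpa using hG

/-- a primitive of the area density in the direction `1` -/
noncomputable def bb (σ : ℂ → ℝ) (z : ℂ) : ℝ := ZZ σ z + z.re

lemma contDiff_bb (hσ : ContDiff ℝ 1 σ) : ContDiff ℝ 1 (bb σ) :=
  (contDiff_ZZ hσ).add reCLM.contDiff

lemma fderiv_bb_one (hσ : ContDiff ℝ 1 σ) (z : ℂ) : fderiv ℝ (bb σ) z 1 = σ z := by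
  have h1 := ((contDiff_ZZ hσ).differentiable one_ne_zero z).hasFDerivAt
  have hre : HasFDerivAt (fun z : ℂ => z.re) reCLM z := reCLM.hasFDerivAt
  have h2 : HasFDerivAt (bb σ) (fderiv ℝ (ZZ σ) z + reCLM) z := h1.add hre
  rw [h2.fderiv, add_apply, fderiv_ZZ_one hσ]
  simp

namespace PMot

lemma inn_inv (h : PMot D σ u p φ) (hR : 0 < D.R) {z : ℂ} (hz : z ∈ D.inn) (t : ℝ) :
    φ t z ∈ D.inn := by
  have hzM := D.inn_subset hz
  have key : ∀ c ρ, IsCircle D c ρ → ‖φ t z - c‖ = ρ → ‖z - c‖ = ρ := by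
    intro c ρ hc h1
    have hρ := hc.pos hR
    obtain ⟨L, hL0, hL⟩ := h.circle_key hR hc hzM t
    have h2 := gron (a := t) (b := 0) (K := 2 * L)
      (fun s => h.hasDerivAt_sq c ρ s hzM)
      (fun s hs => by
        have := hL s (by rwa [uIcc_comm])
        simpa using this)
      (by rw [normSq_eq_norm_sq, h1, sub_self])
    rw [h.start z hzM, normSq_eq_norm_sq] at h2
    have h3 : ‖z - c‖ ^ 2 = ρ ^ 2 := by linarith
    exact (pow_left_inj₀ (norm_nonneg _) hρ.le two_ne_zero).mp h3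
  have hm := h.mem t hzM
  refine ⟨lt_of_le_of_ne hm.1 fun h1 => ?_, fun i => lt_of_le_of_ne (hm.2 i) fun h1 => ?_⟩
  · have := key 0 D.R (Or.inl ⟨rfl, rfl⟩) (by simpa using h1)
    rw [sub_zero] at this
    exact hz.1.ne this
  · have := key (D.a i) (D.r i) (Or.inr ⟨i, rfl, rfl⟩) h1.symm
    exact (hz.2 i).ne' this

/-- The motion of the boundary particles. -/
lemma exists_angle (h : PMot D σ u p φ) (hn : 2 ≤ n) (hR : 0 < D.R) {c : ℂ} {ρ : ℝ}
    (hc : IsCircle D c ρ) {T : ℝ} (hT : ∀ z ∈ D.carrier, φ T z = z) {z : ℂ}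
    (hz : ‖z - c‖ = ρ) : ∃ β β' : ℝ → ℝ, (∀ t, HasDerivAt β (β' t) t) ∧
      (∀ t, cir c ρ (β t) = φ t z) ∧ β T = β 0 := by
  have hρ := hc.pos hR
  have hzM := hc.mem hz
  have hinv := h.circle_inv hR hc hz
  have hne : ∀ t, φ t z ≠ c := by
    intro t h0
    have := hinv t
    rw [h0, sub_self, norm_zero] at this
    linarith
  have hne' : ∀ t, φ t z - c ≠ 0 := fun t => sub_ne_zero.mpr (hne t)
  have horth : ∀ t, dot (u t (φ t z)) (φ t z - c) = 0 := fun t => hc.tangent h.eul t (hinv t)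
  obtain ⟨b₀, hb₀⟩ := exists_cir hz
  set β : ℝ → ℝ := fun t => b₀ + (wind u φ c t z).im with hβdef
  have hβ : ∀ t, HasDerivAt β (u t (φ t z) / (φ t z - c)).im t := fun t =>
    (imCLM.hasFDerivAt.comp_hasDerivAt t (h.hasDerivAt_wind hne t)).const_add b₀
  have hre : ∀ t, (wind u φ c t z).re = 0 := by
    intro t
    have h1 : ∀ s, HasDerivAt (fun s => (wind u φ c s z).re) 0 s := by
      intro s
      have h2 := reCLM.hasFDerivAt.comp_hasDerivAt s (h.hasDerivAt_wind hne s)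
      have h3 := re_div_of_orth (hne' s) (horth s)
      rw [reCLM_apply, h3] at h2
      exact h2
    have h2 := is_const_of_deriv_eq_zero (fun s => (h1 s).differentiableAt)
      (fun s => (h1 s).deriv) t 0
    rw [h2]
    simp [wind]
  refine ⟨β, _, hβ, fun t => ?_, ?_⟩
  · have h1 := h.exp_wind hzM hne t
    have h2 : z - c = ρ * exp (b₀ * I) := by rw [hb₀, cir]; ring
    have h3 : wind u φ c t z = ((wind u φ c t z).im : ℂ) * I := by
      apply Complex.ext
      · simp [hre t]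
      · simp
    rw [h3, h2, mul_assoc, ← Complex.exp_add] at h1
    rw [cir, hβdef]
    simp only [ofReal_add]
    rw [add_mul, ← h1]
    ring
  · rw [hβdef]
    simp only
    rw [h.wind_circle hn hR hc hT hz]
    simp [wind]

/-- The area enclosed by the path of a particle. -/
noncomputable def _root_.Pool.Agent.CG.area (σ : ℂ → ℝ) (u : ℝ → ℂ → ℂ) (φ : ℝ → ℂ → ℂ) (T : ℝ)
    (z : ℂ) : ℝ := ∫ t in (0:ℝ)..T, bb σ (φ t z) * (u t (φ t z)).im

/-- The paths of the boundary particles enclose no area. -/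
lemma area_circle (h : PMot D σ u p φ) (hn : 2 ≤ n) (hR : 0 < D.R) {c : ℂ} {ρ : ℝ}
    (hc : IsCircle D c ρ) {T : ℝ} (hT : ∀ z ∈ D.carrier, φ T z = z) {z : ℂ}
    (hz : ‖z - c‖ = ρ) : CG.area σ u φ T z = 0 := by
  obtain ⟨β, β', hβ, hpos, hper⟩ := h.exists_angle hn hR hc hT hz
  have hzM := hc.mem hz
  have hb := (contDiff_bb h.met.contDiff).continuous
  set k : ℝ → ℝ := fun s => bb σ (cir c ρ s) * (cir' ρ s).im with hk
  have hkc : Continuous k := (hb.comp (contDiff_cir c ρ).continuous).mul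
    (continuous_im.comp (contDiff_cir' ρ).continuous)
  have hG : ∀ t, HasDerivAt (fun t => ∫ s in (0:ℝ)..β t, k s)
      (bb σ (φ t z) * (u t (φ t z)).im) t := by
    intro t
    have h1 : HasDerivAt (fun x => ∫ s in (0:ℝ)..x, k s) (k (β t)) (β t) :=
      intervalIntegral.integral_hasDerivAt_right (hkc.intervalIntegrable _ _)
        (hkc.stronglyMeasurableAtFilter _ _) hkc.continuousAt
    have h2 := h1.comp t (hβ t)
    refine h2.congr_deriv ?_
    have h3 : HasDerivAt (fun s => φ s z) (β' t • cir' ρ (β t)) t := by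
      have h4 := (hasDerivAt_cir c ρ (β t)).scomp t (hβ t)
      have e : (fun s => φ s z) = cir c ρ ∘ β := by
        ext1 s; exact (hpos s).symm
      rw [e]
      exact h4
    have h5 := (h.ode t z hzM).unique h3
    rw [h5, hk]
    simp only [hpos t, smul_im, smul_eq_mul]
    ring
  have hc' : Continuous fun t => bb σ (φ t z) * (u t (φ t z)).im :=
    (hb.comp (h.c1φ.gc.slice_t z)).mul (continuous_im.comp (h.continuous_u z))
  rw [CG.area, intervalIntegral.integral_eq_sub_of_hasDerivAt (fun t _ => hG t)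
    (hc'.intervalIntegrable _ _), hper, sub_self]

lemma gc_area (h : PMot D σ u p φ) : GC fun t z => bb σ (φ t z) * (u t (φ t z)).im :=
  Continuous.mul ((contDiff_bb h.met.contDiff).continuous.comp h.c1φ.gc)
    (continuous_im.comp (h.gc_comp h.G1u.gc))

/-- the derivative of the integrand -/
noncomputable def _root_.Pool.Agent.CG.area' (σ : ℂ → ℝ) (u : ℝ → ℂ → ℂ) (φ : ℝ → ℂ → ℂ) (t : ℝ)
    (z : ℂ) : ℂ →L[ℝ] ℝ :=
  bb σ (φ t z) • imCLM.comp ((fderiv ℝ (u t) (φ t z)).comp (fderiv ℝ (φ t) z)) +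
    (u t (φ t z)).im • (fderiv ℝ (bb σ) (φ t z)).comp (fderiv ℝ (φ t) z)

lemma gc_area' (h : PMot D σ u p φ) : GC (area' σ u φ) := by
  have hb := contDiff_bb h.met.contDiff
  refine Continuous.add ((hb.continuous.comp h.c1φ.gc).smul
    (Continuous.clm_comp continuous_const h.gc_duφ))
    ((continuous_im.comp (h.gc_comp h.G1u.gc)).smul
      (Continuous.clm_comp ((hb.continuous_fderiv one_ne_zero).comp h.c1φ.gc) h.c1φ.gc_fderiv))

lemma hasFDerivAt_area_int (h : PMot D σ u p φ) (t : ℝ) (z : ℂ) :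
    HasFDerivAt (fun z => bb σ (φ t z) * (u t (φ t z)).im) (area' σ u φ t z) z := by
  have hb := contDiff_bb h.met.contDiff
  have h1 : HasFDerivAt (fun z => bb σ (φ t z)) ((fderiv ℝ (bb σ) (φ t z)).comp
      (fderiv ℝ (φ t) z)) z :=
    ((hb.differentiable one_ne_zero (φ t z)).hasFDerivAt).comp z (h.c1φ.hasFDerivAt t z)
  have h2 : HasFDerivAt (fun z => (u t (φ t z)).im)
      (imCLM.comp ((fderiv ℝ (u t) (φ t z)).comp (fderiv ℝ (φ t) z))) z :=
    imCLM.hasFDerivAt.comp z (h.hasFDerivAt_uφ t z)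
  exact h1.fun_mul h2

lemma hasFDerivAt_area (h : PMot D σ u p φ) {T : ℝ}
    (hT : ∀ z ∈ D.carrier, φ T z = z) {z : ℂ} (hz : z ∈ D.inn) :
    HasFDerivAt (CG.area σ u φ T)
      (∫ t in (0:ℝ)..T, (crL (al σ u t (φ t z))).comp (fderiv ℝ (φ t) z)) z := by
  have hb := contDiff_bb h.met.contDiff
  have hzM := D.inn_subset hz
  have h1 := hasFDerivAt_parG h.gc_area h.gc_area' (fun t z => h.hasFDerivAt_area_int t z) 0 T z
  refine h1.congr_fderiv ?_
  -- the boundary term
  set w : ℝ → ℂ →L[ℝ] ℝ := fun t => bb σ (φ t z) • imCLM.comp (fderiv ℝ (φ t) z) with hw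
  have h2 : ∀ t, HasDerivAt w (area' σ u φ t z -
      (crL (al σ u t (φ t z))).comp (fderiv ℝ (φ t) z)) t := by
    intro t
    have h30 : HasFDerivAt (bb σ) (fderiv ℝ (bb σ) (φ t z)) (φ t z) :=
      (hb.differentiable one_ne_zero (φ t z)).hasFDerivAt
    have h3 : HasDerivAt (fun t => bb σ (φ t z)) (fderiv ℝ (bb σ) (φ t z) (u t (φ t z))) t :=
      HasFDerivAt.comp_hasDerivAt (l := bb σ) (f := fun s => φ s z) t h30 (h.ode t z hzM)
    have h4 : HasDerivAt (fun t => imCLM.comp (fderiv ℝ (φ t) z))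
        (imCLM.comp ((fderiv ℝ (u t) (φ t z)).comp (fderiv ℝ (φ t) z))) t :=
      ((ContinuousLinearMap.compL ℝ ℂ ℂ ℝ imCLM).hasFDerivAt).comp_hasDerivAt t
        (h.hasDerivAt_dφ t hz)
    have h5 := h3.fun_smul h4
    refine h5.congr_deriv ?_
    ext1 v
    have hσ := fderiv_bb_one h.met.contDiff (φ t z)
    simp only [area', sub_apply, add_apply, smul_apply, ContinuousLinearMap.comp_apply, smul_eq_mul,
      crL_apply, imCLM_apply]
    rw [rlin (fderiv ℝ (bb σ) (φ t z)) (u t (φ t z)),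
      rlin (fderiv ℝ (bb σ) (φ t z)) (fderiv ℝ (φ t) z v), hσ]
    simp only [crs, al, re_ofReal_mul, im_ofReal_mul]
    ring
  have gcr : GC fun t z => (crL (al σ u t (φ t z))).comp (fderiv ℝ (φ t) z) :=
    Continuous.clm_comp (continuous_crL.comp (h.gc_comp h.G1al.gc)) h.c1φ.gc_fderiv
  have i1 := (h.gc_area'.slice_t z).intervalIntegrable (μ := volume) 0 T
  have i2 := (gcr.slice_t z).intervalIntegrable (μ := volume) 0 T
  have h6 := intervalIntegral.integral_eq_sub_of_hasDerivAt (fun t _ => h2 t) (i1.sub i2)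
  have h7 : w T - w 0 = 0 := by
    have e0 : fderiv ℝ (φ 0) z = ContinuousLinearMap.id ℝ ℂ := by
      have h8 : φ 0 =ᶠ[𝓝 z] fun w => w := by
        filter_upwards [D.isOpen_inn.mem_nhds hz] with w hw using h.start w (D.inn_subset hw)
      rw [h8.fderiv_eq]
      exact fderiv_fun_id
    rw [hw]
    simp only
    rw [h.fderiv_φT hT hz, e0, hT z hzM, h.start z hzM, sub_self]
  rw [h7, intervalIntegral.integral_sub i1 i2, sub_eq_zero] at h6
  exact h6

/-- The time integral of the stream function along the path of a particle. -/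
noncomputable def _root_.Pool.Agent.CG.pst (D : CircularDomain n) (σ : ℂ → ℝ) (u : ℝ → ℂ → ℂ)
    (φ : ℝ → ℂ → ℂ) (T : ℝ) (z : ℂ) : ℝ := ∫ t in (0:ℝ)..T, str D (al σ u t) (φ t z)

lemma gc_str (h : PMot D σ u p φ) (hR : 0 < D.R) : GC fun t z => str D (al σ u t) z :=
  CG.gc_str hR h.G1al.gc fun t => h.tanField t

lemma hasFDerivAt_pst (h : PMot D σ u p φ) (hR : 0 < D.R) (T : ℝ) {z : ℂ} (hz : z ∈ D.inn) :
    HasFDerivAt (pst D σ u φ T)
      (∫ t in (0:ℝ)..T, (crL (al σ u t (φ t z))).comp (fderiv ℝ (φ t) z)) z := by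
  have gcr : GC fun t z => (crL (al σ u t (φ t z))).comp (fderiv ℝ (φ t) z) :=
    Continuous.clm_comp (continuous_crL.comp (h.gc_comp h.G1al.gc)) h.c1φ.gc_fderiv
  refine hasFDerivAt_par_open (g := fun t z => str D (al σ u t) (φ t z)) D.isOpen_inn
    (h.gc_comp (h.gc_str hR)) gcr (fun t w hw => ?_) 0 T hz
  have h1 := (h.tanField t).hasFDerivAt_str hR (Or.inl (h.inn_inv hR hw t))
  rw [ext0_of_mem (h.mem t (D.inn_subset hw))] at h1
  exact h1.comp w (h.c1φ.hasFDerivAt t w)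

/-- **The area enclosed by the path of a particle.** -/
theorem area_eq (h : PMot D σ u p φ) (hn : 2 ≤ n) (hR : 0 < D.R) {T : ℝ}
    (hT : ∀ z ∈ D.carrier, φ T z = z) {z : ℂ} (hz : z ∈ D.carrier) :
    CG.area σ u φ T z = pst D σ u φ T z := by
  have hc1 : Continuous (CG.area σ u φ T) := h.gc_area.continuous_integral 0 T
  have hg2 : GC fun t z => str D (al σ u t) (φ t z) := h.gc_comp (h.gc_str hR)
  have hc2 : Continuous (pst D σ u φ T) := hg2.continuous_integral 0 T
  set f : ℂ → ℝ := fun z => CG.area σ u φ T z - pst D σ u φ T z with hf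
  have hfd : ∀ z ∈ D.inn, HasFDerivAt f (0 : ℂ →L[ℝ] ℝ) z := by
    intro z hz
    have h1 := (h.hasFDerivAt_area hT hz).fun_sub (h.hasFDerivAt_pst hR T hz)
    rw [sub_self] at h1
    exact h1
  obtain ⟨c, hc⟩ := D.isOpen_inn.exists_is_const_of_fderiv_eq_zero (f := f) D.isPreconnected_inn
    (fun z hz => (hfd z hz).differentiableAt.differentiableWithinAt)
    (fun z hz => (hfd z hz).fderiv)
  have hc' := eq_zero_of_inn hR (hc1.sub hc2) continuous_const hc
  have hRn : ‖((D.R : ℝ) : ℂ)‖ = D.R := by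
    rw [norm_real, Real.norm_eq_abs, abs_of_pos hR]
  have h0 := hc' _ (D.outer_mem hRn)
  have h1 : CG.area σ u φ T (D.R : ℂ) = 0 :=
    h.area_circle hn hR (c := 0) (ρ := D.R) (Or.inl ⟨rfl, rfl⟩) hT (by simpa using hRn)
  have h2 : pst D σ u φ T (D.R : ℂ) = 0 := by
    rw [pst]
    have h3 : ∀ t, str D (al σ u t) (φ t (D.R : ℂ)) = 0 := by
      intro t
      have h4 := h.circle_inv hR (c := 0) (ρ := D.R) (Or.inl ⟨rfl, rfl⟩) (z := (D.R : ℂ))
        (by simpa using hRn) t
      exact (h.tanField t).str_outer hR (by simpa using h4)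
    simp [h3]
  have h3 : c = 0 := by
    rw [← h0, Pi.sub_apply, h1, h2, sub_self]
  have h4 := hc' z hz
  rw [h3, Pi.sub_apply] at h4
  linarith

/-- The flux between the boundary components is zero in the mean. -/
theorem flux_zero (h : PMot D σ u p φ) (hn : 2 ≤ n) (hR : 0 < D.R) {T : ℝ}
    (hT : ∀ z ∈ D.carrier, φ T z = z) (i : Fin n) :
    ∫ t in (0:ℝ)..T, str D (al σ u t) (D.a i) = 0 := by
  set z : ℂ := D.a i + D.r i with hz
  have hzi : ‖z - D.a i‖ = D.r i := by
    rw [hz, add_sub_cancel_left, norm_real, Real.norm_eq_abs, abs_of_pos (D.r_pos i)]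
  have hc : IsCircle D (D.a i) (D.r i) := Or.inr ⟨i, rfl, rfl⟩
  have h1 := h.area_eq hn hR hT (D.inner_mem hzi)
  rw [h.area_circle hn hR hc hT hzi, pst] at h1
  refine (intervalIntegral.integral_congr fun t _ => ?_).trans h1.symm
  exact ((h.tanField t).str_hole hR (h.circle_inv hR hc hzi t).le).symm

end PMot

end Pool.Agent.CG
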