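import Pool.Agent.Lib.MP_35454f.PDefs

/-!
# Geodesics with their velocity fields; vorticity
-/

set_option autoImplicit false

open Filter Topology Complex Set
open scoped ContDiff

namespace Pool.Agent.CG

variable {n : ℕ}

/-- `φ` is a geodesic, starting at the identity, of the group of area-preserving `C¹`
diffeomorphisms of the domain with the metric `σ (dx² + dy²)`, with the right-invariant `L²` metric,
and `u` is its velocity field (`u = φ' ∘ φ⁻¹`), `p` its pressure: each `φ t` is a bijection of the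
domain onto itself which preserves the area form `σ dx dy`, `(t, z) ↦ φ t z` is (the restriction of)
a `C¹` map, and `u`, `p` solve the Euler equations. -/
structure IsGeodesicWith (D : CircularDomain n) (σ : ℂ → ℝ) (φ : ℝ → ℂ → ℂ) (u : ℝ → ℂ → ℂ)
    (p : ℝ → ℂ → ℝ) : Prop where
  start : ∀ z ∈ D.carrier, φ 0 z = z
  bijOn : ∀ t, BijOn (φ t) D.carrier D.carrier
  contDiff : ContDiff ℝ 1 (fun q : ℝ × ℂ => φ q.1 q.2)
  area : ∀ t, ∀ z ∈ D.carrier, (fderiv ℝ (φ t) z).det * σ (φ t z) = σ z
  euler : IsEulerFlow D σ u p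
  velocity : ∀ t, ∀ z ∈ D.carrier, HasDerivAt (fun s => φ s z) (u t (φ t z)) t

/-- The vorticity of the vector field `X` for the metric `σ (dx² + dy²)`:
`(∂(σ X₂)/∂x - ∂(σ X₁)/∂y) / σ`. -/
noncomputable def vortS (σ : ℂ → ℝ) (X : ℂ → ℂ) (z : ℂ) : ℝ :=
  (fderiv ℝ (fun w => σ w * (X w).im) z 1 - fderiv ℝ (fun w => σ w * (X w).re) z I) / σ z

end Pool.Agent.CG
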