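import Pool.Agent.Lib.MP_35454f.QNull

/-!
# The energy of a closed motion and the areas enclosed by the particles
-/

set_option autoImplicit false

open MeasureTheory Filter Topology Complex Set Metric
open scoped ContDiff Interval

namespace Pool.Agent.CG

variable {n : ℕ}
variable {D : CircularDomain n} {σ : ℂ → ℝ} {u : ℝ → ℂ → ℂ} {p : ℝ → ℂ → ℝ} {φ : ℝ → ℂ → ℂ}

/-- the adjugate -/
noncomputable def adj (M : ℂ →L[ℝ] ℂ) (b : ℂ) : ℂ :=
  ((-crs (M I) b : ℝ) : ℂ) + ((crs (M 1) b : ℝ) : ℂ) * I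

lemma adj_re (M : ℂ →L[ℝ] ℂ) (b : ℂ) : (adj M b).re = -crs (M I) b := by simp [adj]
lemma adj_im (M : ℂ →L[ℝ] ℂ) (b : ℂ) : (adj M b).im = crs (M 1) b := by simp [adj]

lemma crs_adj (M : ℂ →L[ℝ] ℂ) (x b : ℂ) : crs x (adj M b) = crs (M x) b := by
  rw [clin M x]
  simp only [crs, adj_re, adj_im, add_re, add_im, re_ofReal_mul, im_ofReal_mul]
  ring

lemma apply_adj (M : ℂ →L[ℝ] ℂ) (b : ℂ) : M (adj M b) = (M.det : ℂ) * b := by
  rw [clin M (adj M b), det_eq, adj_re, adj_im]
  apply Complex.ext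
  · simp only [crs, add_re, re_ofReal_mul]
    ring
  · simp only [crs, add_im, im_ofReal_mul]
    ring

lemma continuous_adj : Continuous fun q : (ℂ →L[ℝ] ℂ) × ℂ => adj q.1 q.2 := by
  have h1 : ∀ v : ℂ, Continuous fun q : (ℂ →L[ℝ] ℂ) × ℂ => crs (q.1 v) q.2 := fun v =>
    cont_crs (continuous_fst.clm_apply continuous_const) continuous_snd
  unfold adj
  exact (continuous_ofReal.comp (h1 I).neg).add
    ((continuous_ofReal.comp (h1 1)).mul continuous_const)

/-- The pull back of the momentum as a density. -/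
noncomputable def mm (σ : ℂ → ℝ) (u : ℝ → ℂ → ℂ) (φ : ℝ → ℂ → ℂ) (t : ℝ) (z : ℂ) : ℂ :=
  adj (fderiv ℝ (φ t) z) (al σ u t (φ t z))

lemma dot_I (ζ m : ℂ) : dot ζ m = - crs (ζ * I) m := by
  simp only [dot, crs, mul_re, mul_im, I_re, I_im]
  ring

/-- vectors orthogonal to the same vector are parallel -/
lemma crs_of_orth {a b ζ : ℂ} (hζ : ζ ≠ 0) (ha : dot a ζ = 0) (hb : dot b ζ = 0) :
    crs a b = 0 := by
  have h1 := eq_of_orth hζ ha
  have h2 := eq_of_orth hζ hb
  rw [h1, h2]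
  simp only [crs, re_ofReal_mul, im_ofReal_mul]
  ring

lemma curl_rot {X : ℂ → ℂ} (hX : ContDiff ℝ 1 X) (z : ℂ) :
    divE (fun z => -I * X z) z = curlE X z := by
  have h1 : HasFDerivAt (fun z => -I * X z) ((-I) • fderiv ℝ X z) z :=
    (hX.differentiable one_ne_zero z).hasFDerivAt.const_mul (-I)
  rw [divE, curlE, h1.fderiv]
  simp
  ring

namespace PMot

lemma gc_mm (h : PMot D σ u p φ) : GC (mm σ u φ) :=
  continuous_adj.comp (Continuous.prodMk h.c1φ.gc_fderiv (h.gc_comp h.G1al.gc))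

/-- the derivative of the flow on the boundary -/
lemma dφ_tangent (h : PMot D σ u p φ) (hR : 0 < D.R) {c : ℂ} {ρ : ℝ} (hc : IsCircle D c ρ)
    (t : ℝ) {z : ℂ} (hz : ‖z - c‖ = ρ) :
    dot (fderiv ℝ (φ t) z ((z - c) * I)) (φ t z - c) = 0 := by
  have hρ := hc.pos hR
  obtain ⟨s, rfl⟩ := exists_cir hz
  have h1 : ∀ s, normSq (φ t (cir c ρ s) - c) = ρ ^ 2 := by
    intro s
    rw [normSq_eq_norm_sq, h.circle_inv hR hc (norm_cir hρ c s) t]
  have h2 : HasDerivAt (fun s => φ t (cir c ρ s)) (fderiv ℝ (φ t) (cir c ρ s) (cir' ρ s)) s :=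
    HasFDerivAt.comp_hasDerivAt (l := φ t) (f := cir c ρ) s (h.c1φ.hasFDerivAt t (cir c ρ s))
      (hasDerivAt_cir c ρ s)
  have h3 := (hasFDerivAt_normSq (φ t (cir c ρ s) - c)).comp_hasDerivAt s (h2.sub_const c)
  have h4 : ((fun w : ℂ => normSq w) ∘ fun s => φ t (cir c ρ s) - c) = fun _ => ρ ^ 2 := by
    ext1 s
    exact h1 s
  rw [h4] at h3
  have h5 := h3.unique (hasDerivAt_const s (ρ ^ 2))
  rw [dotL_apply, cir'_eq c ρ s] at h5
  have h6 : dot (2 * (φ t (cir c ρ s) - c)) (fderiv ℝ (φ t) (cir c ρ s) ((cir c ρ s - c) * I)) =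
      2 * dot (fderiv ℝ (φ t) (cir c ρ s) ((cir c ρ s - c) * I)) (φ t (cir c ρ s) - c) := by
    simp only [dot, mul_re, mul_im, re_ofNat, im_ofNat]
    ring
  rw [h6] at h5
  linarith

lemma mm_tangent (h : PMot D σ u p φ) (hR : 0 < D.R) {c : ℂ} {ρ : ℝ} (hc : IsCircle D c ρ)
    (t : ℝ) {z : ℂ} (hz : ‖z - c‖ = ρ) : dot (z - c) (mm σ u φ t z) = 0 := by
  have hρ := hc.pos hR
  have hzt := h.circle_inv hR hc hz t
  have hne : φ t z - c ≠ 0 := by
    rw [← norm_pos_iff, hzt]; exact hρ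
  rw [dot_I, mm, crs_adj, crs_of_orth hne (h.dφ_tangent hR hc t hz) (h.al_tangent hc t hzt),
    neg_zero]

lemma mm_bd (h : PMot D σ u p φ) (hR : 0 < D.R) (t : ℝ) (j : Option (Fin n)) {z : ℂ}
    (hz : gg D j z = 0) : dot (gn D j z) (mm σ u φ t z) = 0 := by
  cases j with
  | none =>
    simp only [gg, normSq_eq] at hz
    have h1 : ‖z‖ = D.R := by
      have h2 : ‖z‖ ^ 2 = D.R ^ 2 := by linarith
      exact (pow_left_inj₀ (norm_nonneg _) hR.le two_ne_zero).mp h2
    have h2 := h.mm_tangent hR (c := 0) (ρ := D.R) (Or.inl ⟨rfl, rfl⟩) t (z := z) (by simpa using h1)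
    simp only [gn]
    have h3 : dot (-2 * z) (mm σ u φ t z) = -2 * dot (z - 0) (mm σ u φ t z) := by
      simp [dot]; ring
    rw [h3, h2, mul_zero]
  | some i =>
    simp only [gg, normSq_eq] at hz
    have h1 : ‖z - D.a i‖ = D.r i := by
      have h2 : ‖z - D.a i‖ ^ 2 = D.r i ^ 2 := by linarith
      exact (pow_left_inj₀ (norm_nonneg _) (D.r_pos i).le two_ne_zero).mp h2
    have h2 := h.mm_tangent hR (Or.inr ⟨i, rfl, rfl⟩) t h1
    simp only [gn]
    have h3 : dot (2 * (z - D.a i)) (mm σ u φ t z) = 2 * dot (z - D.a i) (mm σ u φ t z) := by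
      simp [dot]; ring
    rw [h3, h2, mul_zero]

/-- the stream function along the flow -/
lemma hasFDerivAt_strφ (h : PMot D σ u p φ) (hR : 0 < D.R) (t : ℝ) {z : ℂ} (hz : z ∈ D.inn) :
    HasFDerivAt (fun z => str D (al σ u t) (φ t z))
      ((crL (al σ u t (φ t z))).comp (fderiv ℝ (φ t) z)) z := by
  have h1 := (h.tanField t).hasFDerivAt_str hR (Or.inl (h.inn_inv hR hz t))
  rw [ext0_of_mem (h.mem t (D.inn_subset hz))] at h1
  exact h1.comp z (h.c1φ.hasFDerivAt t z)

lemma contDiffOn_strφ (h : PMot D σ u p φ) (hR : 0 < D.R) (t : ℝ) :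
    ContDiffOn ℝ 1 (fun z => str D (al σ u t) (φ t z)) D.inn := by
  have gcr : Continuous fun z => (crL (al σ u t (φ t z))).comp (fderiv ℝ (φ t) z) :=
    Continuous.clm_comp (continuous_crL.comp ((h.gc_comp h.G1al.gc).slice t))
      (h.c1φ.gc_fderiv.slice t)
  rw [show (1 : ℕ∞ω) = 0 + 1 by simp, contDiffOn_succ_iff_fderiv_of_isOpen D.isOpen_inn]
  refine ⟨fun z hz => (h.hasFDerivAt_strφ hR t hz).differentiableAt.differentiableWithinAt,
    by simp, ?_⟩
  rw [contDiffOn_zero]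
  exact gcr.continuousOn.congr fun z hz => (h.hasFDerivAt_strφ hR t hz).fderiv

/-- The pull back is orthogonal to the gradients. -/
lemma weak_mm (h : PMot D σ u p φ) (hR : 0 < D.R) (t : ℝ) {f : ℂ → ℝ} (hf : ContDiff ℝ 1 f) :
    ∫ z in D.carrier, fderiv ℝ f z (mm σ u φ t z) = 0 := by
  refine weak_of_continuous D hR (h.gc_mm.slice t) (fun f hf hfc hfU => ?_)
    (fun j z _ hz => h.mm_bd hR t j hz) hf
  have h1 := integral_wedge_loc D.isOpen_inn hf hfc hfU (h.contDiffOn_strφ hR t)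
  rw [← neg_eq_zero, ← integral_neg, ← h1]
  refine integral_congr_ae (Eventually.of_forall fun z => ?_)
  simp only
  by_cases hz : z ∈ tsupport f
  · rw [(h.hasFDerivAt_strφ hR t (hfU hz)).fderiv, rlin (fderiv ℝ f z) (mm σ u φ t z), mm,
      adj_re, adj_im]
    simp only [wedge, ContinuousLinearMap.comp_apply, crL_apply]
    ring
  · have h0 : f =ᶠ[𝓝 z] fun _ => 0 := notMem_tsupport_iff_eventuallyEq.mp hz
    rw [h0.fderiv_eq]
    simp [wedge]

lemma change_det (h : PMot D σ u p φ) (t : ℝ) (g : ℂ → ℝ) :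
    ∫ z in D.carrier, (fderiv ℝ (φ t) z).det * g (φ t z) = ∫ z in D.carrier, g z := by
  have h1 := h.change t fun w => g w / σ w
  have e1 : ∫ z in D.carrier, g (φ t z) / σ (φ t z) * σ z =
      ∫ z in D.carrier, (fderiv ℝ (φ t) z).det * g (φ t z) := by
    refine setIntegral_congr_fun D.measurableSet fun z hz => ?_
    rw [← h.area t z hz]
    have := h.σne (h.mem t hz)
    field_simp
  have e2 : ∫ z in D.carrier, g z / σ z * σ z = ∫ z in D.carrier, g z := by
    refine setIntegral_congr_fun D.measurableSet fun z hz => ?_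
    rw [div_mul_cancel₀ _ (h.σne hz)]
  rw [← e1, ← e2]
  exact h1

lemma contDiff_area (h : PMot D σ u p φ) (T : ℝ) : ContDiff ℝ 1 (CG.area σ u φ T) :=
  contDiff_parG h.gc_area h.gc_area' (fun t z => h.hasFDerivAt_area_int t z) 0 T

/-- **The energy and the areas enclosed by the particles.** -/
theorem energy_area (h : PMot D σ u p φ) (hn : 2 ≤ n) (hR : 0 < D.R) {T : ℝ}
    (hT : ∀ z ∈ D.carrier, φ T z = z) :
    ∫ z in D.carrier, CG.area σ u φ T z * curlE (al σ u 0) z =
      - ∫ t in (0:ℝ)..T, ∫ z in D.carrier, normSq (al σ u t z) := by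
  have hA := h.contDiff_area T
  have hα : ContDiff ℝ 1 (al σ u 0) := h.G1al.slice 0
  have hα' : ContDiff ℝ 1 fun z => -I * al σ u 0 z := contDiff_const.mul hα
  have h1 := div_zero' hR (V := fun z => (CG.area σ u φ T z : ℂ) * (-I * al σ u 0 z))
    ((ofRealCLM.contDiff.comp hA).mul hα') fun c ρ hc z hz => by
      rw [dot_smul_left, h.area_circle hn hR hc hT hz, zero_mul]
  have g1 : GC fun t z => dot (al σ u 0 z) (mm σ u φ t z) :=
    cont_dot (hα.continuous.comp continuous_snd) h.gc_mm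
  have h2 : ∀ z ∈ D.inn, divE (fun z => (CG.area σ u φ T z : ℂ) * (-I * al σ u 0 z)) z =
      CG.area σ u φ T z * curlE (al σ u 0) z +
        ∫ t in (0:ℝ)..T, dot (al σ u 0 z) (mm σ u φ t z) := by
    intro z hz
    rw [divE_mul (hA.differentiable one_ne_zero z) (hα'.differentiable one_ne_zero z),
      curl_rot hα, (h.hasFDerivAt_area hT hz).fderiv, add_comm]
    congr 1
    have gcr : Continuous fun t => (crL (al σ u t (φ t z))).comp (fderiv ℝ (φ t) z) :=
      Continuous.clm_comp (continuous_crL.comp ((h.gc_comp h.G1al.gc).slice_t z))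
        (h.c1φ.gc_fderiv.slice_t z)
    rw [ContinuousLinearMap.intervalIntegral_apply (gcr.intervalIntegrable _ _)]
    refine intervalIntegral.integral_congr fun t _ => ?_
    simp only [ContinuousLinearMap.comp_apply, crL_apply]
    rw [mm, ← crs_adj]
    simp [crs, dot]
    ring
  have c0 : Continuous fun z => CG.area σ u φ T z * curlE (al σ u 0) z :=
    hA.continuous.mul (h.gc_curl.slice 0)
  rw [setIntegral_inn D h2, integral_add (setInt c0) (setInt (g1.continuous_integral 0 T)),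
    g1.fubini D.isCompact] at h1
  have h3 : ∫ t in (0:ℝ)..T, ∫ z in D.carrier, dot (al σ u 0 z) (mm σ u φ t z) =
      ∫ t in (0:ℝ)..T, ∫ z in D.carrier, normSq (al σ u t z) := by
    refine intervalIntegral.integral_congr fun t _ => ?_
    have e1 : ∫ z in D.carrier, dot (al σ u 0 z) (mm σ u φ t z) =
        ∫ z in D.carrier, ((fderiv ℝ (φ t) z).det * normSq (al σ u t (φ t z)) -
          fderiv ℝ (act σ u p φ t) z (mm σ u φ t z)) := by
      refine setIntegral_inn D fun z hz => ?_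
      rw [h.weber t hz]
      have e2 : dot (al σ u t (φ t z)) (fderiv ℝ (φ t) z (mm σ u φ t z)) =
          (fderiv ℝ (φ t) z).det * normSq (al σ u t (φ t z)) := by
        rw [mm, apply_adj, dot_smul_right, normSq_apply]
        rfl
      rw [e2]
      ring
    have hdet : Continuous fun z => (fderiv ℝ (φ t) z).det := by
      simp only [det_eq]
      exact cont_crs ((h.c1φ.gc_fderiv.slice t).clm_apply continuous_const)
        ((h.c1φ.gc_fderiv.slice t).clm_apply continuous_const)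
    have c1 : Continuous fun z => (fderiv ℝ (φ t) z).det * normSq (al σ u t (φ t z)) :=
      hdet.mul (continuous_normSq.comp ((h.gc_comp h.G1al.gc).slice t))
    have c2 : Continuous fun z => fderiv ℝ (act σ u p φ t) z (mm σ u φ t z) :=
      ((h.contDiff_act t).continuous_fderiv one_ne_zero).clm_apply (h.gc_mm.slice t)
    rw [e1, integral_sub (setInt c1) (setInt c2), h.weak_mm hR t (h.contDiff_act t), sub_zero]
    exact h.change_det t fun w => normSq (al σ u t w)
  rw [h3] at h1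
  linarith

end PMot

end Pool.Agent.CG
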