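import Pool.Agent.Lib.MP_35454f.QPer

/-!
# Necessary conditions for closed geodesics
-/

set_option autoImplicit false

open Filter Topology Complex Set
open scoped ContDiff

namespace Pool.Agent.CG

variable {n : ℕ}
variable {D : CircularDomain n} {σ : ℂ → ℝ} {u : ℝ → ℂ → ℂ} {p : ℝ → ℂ → ℝ} {φ : ℝ → ℂ → ℂ}

lemma IsGeodesicWith.isGeodesicS (h : IsGeodesicWith D σ φ u p) : IsGeodesicS D σ φ :=
  ⟨h.start, h.bijOn, h.contDiff, h.area, u, p, h.euler, h.velocity⟩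

lemma PMot.continuousOn_vort (h : PMot D σ u p φ) (t : ℝ) :
    ContinuousOn (vortS σ (u t)) D.carrier := by
  have h1 : ContinuousOn (fun z => curlE (al σ u t) z / σ z) D.carrier :=
    (h.gc_curl.slice t).continuousOn.div h.met.contDiff.continuous.continuousOn
      fun z hz => h.σne hz
  exact h1.congr fun z _ => h.vort_eq t z

/-- The period of a closed geodesic is at least `8π` divided by the oscillation of the vorticity. -/
theorem IsGeodesicWith.period (hn : 2 ≤ n) (hσ : IsMetric D σ) (h : IsGeodesicWith D σ φ u p)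
    {T : ℝ} (hT0 : 0 < T) (hT : ∀ z ∈ D.carrier, φ T z = z)
    (hne : ∃ t, ∃ z ∈ D.carrier, φ t z ≠ z) {F : ℂ → ℂ} (hF : IsFlatChart D σ F) :
    ∃ z ∈ D.carrier, ∃ w ∈ D.carrier,
      8 * Real.pi ≤ T * (vortS σ (u 0) z - vortS σ (u 0) w) := by
  have hm := h.pmot hσ
  have hR : 0 < D.R := D.R_pos ⟨0, by omega⟩
  have hne' : D.carrier.Nonempty := by
    obtain ⟨t, z, hz, -⟩ := hne
    exact ⟨z, hz⟩
  obtain ⟨z, hz, hmax⟩ := D.isCompact.exists_isMaxOn hne' (hm.continuousOn_vort 0)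
  obtain ⟨w, hw, hmin⟩ := D.isCompact.exists_isMinOn hne' (hm.continuousOn_vort 0)
  refine ⟨z, hz, w, hw, ?_⟩
  by_contra hcon
  push Not at hcon
  obtain ⟨t, y, hy, hty⟩ := hne
  refine hty (hm.period hn hT0 hT hF (a := vortS σ (u 0) w) (b := vortS σ (u 0) z)
    (fun x hx => ?_) hcon t hy)
  have h1 : vortS σ (u 0) w ≤ vortS σ (u 0) x := hmin hx
  have h2 : vortS σ (u 0) x ≤ vortS σ (u 0) z := hmax hx
  have h3 := hσ.pos x hx
  rw [hm.vort_eq 0 x, le_div_iff₀ h3] at h1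
  rw [hm.vort_eq 0 x, div_le_iff₀ h3] at h2
  exact ⟨h1, h2⟩

/-- **Necessary conditions for closed geodesics.** -/
theorem IsGeodesicWith.conditions (hn : 2 ≤ n) (hσ : IsMetric D σ) (h : IsGeodesicWith D σ φ u p)
    {T : ℝ} (hT0 : 0 < T) (hT : ∀ z ∈ D.carrier, φ T z = z)
    (hne : ∃ t, ∃ z ∈ D.carrier, φ t z ≠ z) :
    ((∃ z ∈ D.carrier, 0 < vortS σ (u 0) z) ∧ ∃ z ∈ D.carrier, vortS σ (u 0) z < 0) ∧
    (∀ F, IsFlatChart D σ F → ∃ z ∈ D.carrier, ∃ w ∈ D.carrier,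
      8 * Real.pi ≤ T * (vortS σ (u 0) z - vortS σ (u 0) w)) ∧
    ¬ ∃ X, IsFieldS D σ X := by
  refine ⟨⟨?_, ?_⟩, fun F hF => h.period hn hσ hT0 hT hne hF, ?_⟩
  · by_contra hcon
    push Not at hcon
    obtain ⟨t, z, hz, hne⟩ := hne
    exact hne (h.one_signed hn hσ (Or.inr hcon) hT0 hT t hz)
  · by_contra hcon
    push Not at hcon
    obtain ⟨t, z, hz, hne⟩ := hne
    exact hne (h.one_signed hn hσ (Or.inl hcon) hT0 hT t hz)
  · rintro ⟨X, hX⟩
    obtain ⟨t, z, hz, hne⟩ := hne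
    exact hne (noClosedGeodesicS_of_field hn hσ hX φ h.isGeodesicS T hT0 hT t z hz)

end Pool.Agent.CG
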