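import Mathlib

/-!
# The isoperimetric inequality for closed curves (with the energy)
-/

set_option autoImplicit false

open MeasureTheory Filter Topology Complex Set
open scoped Interval

namespace Pool.Agent.CG

/-- **Wirtinger's inequality.** -/
lemma wirtinger {T : ℝ} (hT : 0 < T) {f f' : ℝ → ℂ} (hf : ∀ t, HasDerivAt f (f' t) t)
    (hf' : Continuous f') (hper : f T = f 0) :
    ∃ c : ℂ, ∫ t in (0:ℝ)..T, ‖f t - c‖ ^ 2 ≤
      (T / (2 * Real.pi)) ^ 2 * ∫ t in (0:ℝ)..T, ‖f' t‖ ^ 2 := by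
  have hfc : Continuous f := continuous_iff_continuousAt.mpr fun t => (hf t).continuousAt
  set c : ℂ := fourierCoeffOn hT f 0 with hc
  set g : ℝ → ℂ := fun t => f t - c with hg
  have hgc : Continuous g := hfc.sub continuous_const
  have hgd : ∀ t, HasDerivAt g (f' t) t := fun t => (hf t).sub_const c
  have hL : ∀ {k : ℝ → ℂ}, Continuous k → MemLp k 2 (volume.restrict (Ioc 0 T)) := by
    intro k hk
    obtain ⟨C, hC⟩ := isCompact_Icc.exists_bound_of_continuousOn (s := Icc 0 T) hk.continuousOn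
    refine MemLp.of_bound hk.aestronglyMeasurable C ?_
    exact (ae_restrict_iff' measurableSet_Ioc).mpr
      (Eventually.of_forall fun t ht => hC t (Ioc_subset_Icc_self ht))
  have s1 := hasSum_sq_fourierCoeffOn hT (hL hgc)
  have s2 := hasSum_sq_fourierCoeffOn hT (hL hf')
  have hle : ∀ i : ℤ, ‖fourierCoeffOn hT g i‖ ^ 2 ≤
      (T / (2 * Real.pi)) ^ 2 * ‖fourierCoeffOn hT f' i‖ ^ 2 := by
    intro i
    by_cases hi : i = 0
    · subst hi
      have h0 : fourierCoeffOn hT g 0 = 0 := by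
        have e1 := fourierCoeffOn_eq_integral g 0 hT
        have e2 := fourierCoeffOn_eq_integral f 0 hT
        rw [← hc] at e2
        rw [e1]
        simp only [neg_zero, fourier_zero, one_smul, sub_zero] at e2 ⊢
        rw [hg]
        rw [intervalIntegral.integral_sub (hfc.intervalIntegrable _ _) intervalIntegrable_const,
          smul_sub, ← e2, intervalIntegral.integral_const, smul_smul]
        simp [hT.ne']
      rw [h0, norm_zero, zero_pow two_ne_zero]
      positivity
    · have e1 := fourierCoeffOn_of_hasDerivAt hT hi (f := g) (f' := f') (fun t _ => hgd t)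
        (hf'.intervalIntegrable _ _)
      have e2 : g T - g 0 = 0 := by rw [hg]; simp [hper]
      rw [e1, e2, mul_zero, zero_sub]
      have hi' : (1:ℝ) ≤ |(i:ℝ)| := by
        have : (1:ℤ) ≤ |i| := Int.one_le_abs hi
        exact_mod_cast this
      have e3 : ‖1 / (-2 * (Real.pi : ℂ) * I * i) *
          -(((T : ℝ) : ℂ) - ((0 : ℝ) : ℂ)) * fourierCoeffOn hT f' i‖ =
          T / (2 * Real.pi * |(i:ℝ)|) * ‖fourierCoeffOn hT f' i‖ := by
        rw [norm_mul, norm_mul, norm_div, norm_neg]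
        simp only [norm_mul, norm_one, norm_neg, Complex.norm_I, Complex.norm_intCast,
          Complex.norm_ofNat, ofReal_zero, sub_zero, Complex.norm_real, Real.norm_eq_abs,
          abs_of_pos hT, abs_of_pos Real.pi_pos, mul_one]
        field_simp
      have e4 : 1 / (-2 * (Real.pi : ℂ) * I * i) *
          -((((T : ℝ) : ℂ) - ((0 : ℝ) : ℂ)) * fourierCoeffOn hT f' i) =
          1 / (-2 * (Real.pi : ℂ) * I * i) *
          -(((T : ℝ) : ℂ) - ((0 : ℝ) : ℂ)) * fourierCoeffOn hT f' i := by ring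
      rw [e4, e3, ← mul_pow]
      refine pow_le_pow_left₀ (by positivity) ?_ 2
      refine mul_le_mul_of_nonneg_right ?_ (norm_nonneg _)
      refine div_le_div_of_nonneg_left hT.le (by positivity) ?_
      have := Real.pi_pos
      nlinarith
  have h3 := hasSum_le hle s1 (s2.mul_left _)
  refine ⟨c, ?_⟩
  simp only [sub_zero, smul_eq_mul] at h3
  have h4 : T⁻¹ * ∫ t in (0:ℝ)..T, ‖g t‖ ^ 2 ≤
      T⁻¹ * ((T / (2 * Real.pi)) ^ 2 * ∫ t in (0:ℝ)..T, ‖f' t‖ ^ 2) := by
    refine h3.trans (le_of_eq ?_)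
    ring
  exact le_of_mul_le_mul_left h4 (inv_pos.mpr hT)

/-- **The isoperimetric inequality**: the area enclosed by a closed curve. -/
theorem isoperimetric {T : ℝ} (hT : 0 < T) {f f' : ℝ → ℂ} (hf : ∀ t, HasDerivAt f (f' t) t)
    (hf' : Continuous f') (hper : f T = f 0) :
    |∫ t in (0:ℝ)..T, (f t).re * (f' t).im| ≤
      T / (4 * Real.pi) * ∫ t in (0:ℝ)..T, ‖f' t‖ ^ 2 := by
  have hfc : Continuous f := continuous_iff_continuousAt.mpr fun t => (hf t).continuousAt
  obtain ⟨c, hc⟩ := wirtinger hT hf hf' hper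
  have hre : ∀ t, HasDerivAt (fun t => (f t).re) (f' t).re t := fun t =>
    reCLM.hasFDerivAt.comp_hasDerivAt t (hf t)
  have him : ∀ t, HasDerivAt (fun t => (f t).im) (f' t).im t := fun t =>
    imCLM.hasFDerivAt.comp_hasDerivAt t (hf t)
  set G : ℝ → ℝ := fun t => (((f t).re - c.re) * ((f t).im - c.im)) / 2 + c.re * (f t).im with hG
  have hGd : ∀ t, HasDerivAt G ((f t).re * (f' t).im -
      (((f t).re - c.re) * (f' t).im - ((f t).im - c.im) * (f' t).re) / 2) t := by
    intro t
    have h1 := ((((hre t).sub_const c.re).fun_mul ((him t).sub_const c.im)).div_const 2).add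
      ((him t).const_mul c.re)
    refine h1.congr_deriv ?_
    ring
  have c1 : Continuous fun t => (f t).re * (f' t).im :=
    (continuous_re.comp hfc).mul (continuous_im.comp hf')
  have c2 : Continuous fun t => (((f t).re - c.re) * (f' t).im - ((f t).im - c.im) * (f' t).re) / 2 :=
    ((((continuous_re.comp hfc).sub continuous_const).mul (continuous_im.comp hf')).sub
      (((continuous_im.comp hfc).sub continuous_const).mul (continuous_re.comp hf'))).div_const 2
  have h1 := intervalIntegral.integral_eq_sub_of_hasDerivAt (a := 0) (b := T) (fun t _ => hGd t)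
    ((c1.sub c2).intervalIntegrable _ _)
  have h2 : G T - G 0 = 0 := by rw [hG]; simp [hper]
  rw [h2, intervalIntegral.integral_sub (c1.intervalIntegrable _ _) (c2.intervalIntegrable _ _),
    sub_eq_zero] at h1
  rw [h1]
  have c3 : Continuous fun t => ‖f t - c‖ ^ 2 := ((hfc.sub continuous_const).norm).pow 2
  have c4 : Continuous fun t => ‖f' t‖ ^ 2 := hf'.norm.pow 2
  set lam : ℝ := 2 * Real.pi / T with hlam
  have hl : 0 < lam := by have := Real.pi_pos; positivity
  have h3 : ∀ t, |(((f t).re - c.re) * (f' t).im - ((f t).im - c.im) * (f' t).re) / 2| ≤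
      lam / 4 * ‖f t - c‖ ^ 2 + 1 / (4 * lam) * ‖f' t‖ ^ 2 := by
    intro t
    have e1 : |(((f t).re - c.re) * (f' t).im - ((f t).im - c.im) * (f' t).re)| ≤
        ‖f t - c‖ * ‖f' t‖ := by
      have e2 : ((f t).re - c.re) * (f' t).im - ((f t).im - c.im) * (f' t).re =
          (starRingEnd ℂ (f t - c) * f' t).im := by
        simp
        ring
      rw [e2]
      refine (abs_im_le_norm _).trans ?_
      rw [norm_mul, RCLike.norm_conj]
    have e3 : ‖f t - c‖ * ‖f' t‖ ≤ lam / 2 * ‖f t - c‖ ^ 2 + 1 / (2 * lam) * ‖f' t‖ ^ 2 := by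
      have e4 := sq_nonneg (lam * ‖f t - c‖ - ‖f' t‖)
      have e5 : lam / 2 * ‖f t - c‖ ^ 2 + 1 / (2 * lam) * ‖f' t‖ ^ 2 - ‖f t - c‖ * ‖f' t‖ =
          (lam * ‖f t - c‖ - ‖f' t‖) ^ 2 / (2 * lam) := by
        field_simp
        ring
      have e6 : 0 ≤ (lam * ‖f t - c‖ - ‖f' t‖) ^ 2 / (2 * lam) := by positivity
      linarith
    rw [abs_div, abs_two]
    have e7 : lam / 4 * ‖f t - c‖ ^ 2 + 1 / (4 * lam) * ‖f' t‖ ^ 2 =
        (lam / 2 * ‖f t - c‖ ^ 2 + 1 / (2 * lam) * ‖f' t‖ ^ 2) / 2 := by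
      field_simp
      ring
    rw [e7]
    linarith
  calc |∫ t in (0:ℝ)..T, (((f t).re - c.re) * (f' t).im - ((f t).im - c.im) * (f' t).re) / 2|
      ≤ ∫ t in (0:ℝ)..T, |(((f t).re - c.re) * (f' t).im - ((f t).im - c.im) * (f' t).re) / 2| :=
        intervalIntegral.abs_integral_le_integral_abs hT.le
    _ ≤ ∫ t in (0:ℝ)..T, (lam / 4 * ‖f t - c‖ ^ 2 + 1 / (4 * lam) * ‖f' t‖ ^ 2) := by
        refine intervalIntegral.integral_mono_on hT.le (c2.abs.intervalIntegrable _ _)
          (((c3.const_mul _).add (c4.const_mul _)).intervalIntegrable _ _) fun t _ => h3 t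
    _ = lam / 4 * (∫ t in (0:ℝ)..T, ‖f t - c‖ ^ 2) +
        1 / (4 * lam) * ∫ t in (0:ℝ)..T, ‖f' t‖ ^ 2 := by
        rw [intervalIntegral.integral_add ((c3.const_mul _).intervalIntegrable _ _)
          ((c4.const_mul _).intervalIntegrable _ _), intervalIntegral.integral_const_mul,
          intervalIntegral.integral_const_mul]
    _ ≤ lam / 4 * ((T / (2 * Real.pi)) ^ 2 * ∫ t in (0:ℝ)..T, ‖f' t‖ ^ 2) +
        1 / (4 * lam) * ∫ t in (0:ℝ)..T, ‖f' t‖ ^ 2 := by
        have := mul_le_mul_of_nonneg_left hc (by positivity : 0 ≤ lam / 4)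
        linarith
    _ = T / (4 * Real.pi) * ∫ t in (0:ℝ)..T, ‖f' t‖ ^ 2 := by
        rw [hlam]
        have := Real.pi_pos
        field_simp
        ring

end Pool.Agent.CG
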