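import Pool.Agent.Lib.MP_35454f.QTrans

/-!
# Motions with vorticity of one sign are not closed
-/

set_option autoImplicit false

open MeasureTheory Filter Topology Complex Set Metric
open scoped ContDiff Interval

namespace Pool.Agent.CG

variable {n : ℕ}
variable {D : CircularDomain n} {σ : ℂ → ℝ} {u : ℝ → ℂ → ℂ} {p : ℝ → ℂ → ℝ} {φ : ℝ → ℂ → ℂ}

lemma eq_zero_of_crL {b : ℂ} (h : crL b = 0) : b = 0 := by
  have h1 : crL b 1 = 0 := by rw [h]; rfl
  have h2 : crL b I = 0 := by rw [h]; rfl
  rw [crL_apply] at h1 h2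
  simp only [crs, one_re, one_im, I_re, I_im] at h1 h2
  apply Complex.ext
  · simpa using h2
  · simpa using h1

lemma curlE_smul {ε : ℝ} {U : ℂ → ℂ} (hU : ContDiff ℝ 1 U) (z : ℂ) :
    curlE (fun z => (ε : ℂ) * U z) z = ε * curlE U z := by
  have h1 : HasFDerivAt (fun z => (ε : ℂ) * U z) ((ε : ℂ) • fderiv ℝ U z) z :=
    (hU.differentiable one_ne_zero z).hasFDerivAt.const_mul (ε : ℂ)
  rw [curlE, curlE, h1.fderiv]
  simp
  ring

namespace PMot

/-- A motion at rest initially is at rest forever. -/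
lemma const_of_rest (h : PMot D σ u p φ) (hR : 0 < D.R) (h0 : ∀ z ∈ D.carrier, u 0 z = 0) (t : ℝ)
    {z : ℂ} (hz : z ∈ D.carrier) : φ t z = z := by
  have hE : ∀ t, ∀ z ∈ D.carrier, u t z = 0 := by
    intro t z hz
    have e1 := h.energy hR t
    have e2 : ∫ z in D.carrier, kin σ u 0 z * σ z = 0 := by
      have e3 : ∀ z ∈ D.carrier, kin σ u 0 z * σ z = (fun _ => (0:ℝ)) z := by
        intro z hz
        simp [kin, h0 z hz]
      rw [setIntegral_congr_fun D.measurableSet e3]
      simp
    rw [e2] at e1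
    have e4 := zero_of_setIntegral hR ((h.G1kin.gc.slice t).mul h.met.contDiff.continuous)
      (fun z hz => by
        have h1 := h.met.pos z hz
        have h2 := normSq_nonneg (u t z)
        change 0 ≤ kin σ u t z * σ z
        rw [kin]
        positivity) e1.le z hz
    have h1 := h.met.pos z hz
    have e5 : kin σ u t z * σ z = 0 := e4
    rw [kin] at e5
    rcases mul_eq_zero.mp e5 with h2 | h2
    · rcases mul_eq_zero.mp h2 with h3 | h3
      · norm_num at h3
      · rcases mul_eq_zero.mp h3 with h4 | h4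
        · exact absurd h4 h1.ne'
        · exact normSq_eq_zero.mp h4
    · exact absurd h2 h1.ne'
  rw [h.φ_eq t hz]
  have h1 : ∀ s, u s (φ s z) = 0 := fun s => hE s _ (h.mem s hz)
  simp [h1]

/-- The mean momentum vanishes. -/
lemma mal_zero (h : PMot D σ u p φ) (hn : 2 ≤ n) (hR : 0 < D.R) {T : ℝ} (hT0 : 0 < T)
    (hT : ∀ z ∈ D.carrier, φ T z = z) {ε : ℝ} (hε : ε ≠ 0)
    (h0 : ∀ z ∈ D.carrier, 0 ≤ ε * curlE (al σ u 0) z) :
    ∀ z ∈ D.inn, mal σ u T z = 0 := by
  have hs := fun t z (hz : z ∈ D.carrier) => h.curl_sign hR ε h0 t hz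
  obtain ⟨C, hL⟩ := h.mst_lip hR T
  have hmc : Continuous (mst D σ u T) := hL.continuous
  have hU := h.contDiff_mal T
  have hU' : ContDiff ℝ 1 fun z => (ε : ℂ) * mal σ u T z := contDiff_const.mul hU
  have hmax := max_principle (D := D) (Ψ := fun z => ε * mst D σ u T z)
    (U := fun z => (ε : ℂ) * mal σ u T z) hR (continuous_const.mul hmc)
    (fun z hz => by rw [h.mst_zero hn hR hT hz, mul_zero])
    (fun z hz => by
      have h1 := (h.hasFDerivAt_mst hR T hz).const_mul ε
      refine h1.congr_fderiv ?_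
      ext1 v
      rw [smul_apply, crL_apply, crL_apply, crs_smul_right, smul_eq_mul])
    hU' (fun z hz => by
      rw [curlE_smul hU, h.curl_mal, ← intervalIntegral.integral_const_mul]
      exact intervalIntegral.integral_nonneg hT0.le fun t _ => hs t z (D.inn_subset hz))
  have hσ := h.met.contDiff.continuous
  have h1 : ∀ z ∈ D.carrier, -(ε * mst D σ u T z) * σ z = 0 := by
    refine zero_of_setIntegral hR ((continuous_const.mul hmc).neg.mul hσ) (fun z hz => ?_) ?_
    · have := hmax z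
      have h2 := h.met.pos z hz
      change 0 ≤ -(ε * mst D σ u T z) * σ z
      exact mul_nonneg (by linarith) h2.le
    · have h2 : ∫ z in D.carrier, -(ε * mst D σ u T z) * σ z =
          -ε * ∫ z in D.carrier, mst D σ u T z * σ z := by
        rw [← integral_const_mul]
        refine integral_congr_ae (Eventually.of_forall fun z => ?_)
        simp only
        ring
      change ∫ z in D.carrier, -(ε * mst D σ u T z) * σ z ≤ 0
      rw [h2, h.int_mst_zero hn hR hT, mul_zero]
  have h2 : ∀ z ∈ D.carrier, mst D σ u T z = 0 := by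
    intro z hz
    rcases mul_eq_zero.mp (h1 z hz) with h3 | h3
    · rcases mul_eq_zero.mp (neg_eq_zero.mp h3) with h4 | h4
      · exact absurd h4 hε
      · exact h4
    · exact absurd h3 (h.σne hz)
  intro z hz
  have h3 : mst D σ u T =ᶠ[𝓝 z] fun _ => 0 := by
    filter_upwards [D.isOpen_inn.mem_nhds hz] with w hw using h2 w (D.inn_subset hw)
  have h4 := (h.hasFDerivAt_mst hR T hz).unique
    ((hasFDerivAt_const (0:ℝ) z).congr_of_eventuallyEq h3)
  exact eq_zero_of_crL h4

/-- The vorticity vanishes. -/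
lemma curl_zero (h : PMot D σ u p φ) (hn : 2 ≤ n) (hR : 0 < D.R) {T : ℝ} (hT0 : 0 < T)
    (hT : ∀ z ∈ D.carrier, φ T z = z) {ε : ℝ} (hε : ε ≠ 0)
    (h0 : ∀ z ∈ D.carrier, 0 ≤ ε * curlE (al σ u 0) z) {t : ℝ} (ht : t ∈ Icc 0 T) :
    ∀ z ∈ D.inn, curlE (al σ u t) z = 0 := by
  intro z hz
  have hs := fun t z (hz : z ∈ D.carrier) => h.curl_sign hR ε h0 t hz
  have h1 : curlE (mal σ u T) z = 0 := by
    have h2 : mal σ u T =ᶠ[𝓝 z] fun _ => 0 := by
      filter_upwards [D.isOpen_inn.mem_nhds hz] with w hw using h.mal_zero hn hR hT0 hT hε h0 w hw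
    rw [curlE, h2.fderiv_eq]
    simp
  have h3 : ∫ t in (0:ℝ)..T, ε * curlE (al σ u t) z = 0 := by
    rw [intervalIntegral.integral_const_mul, ← h.curl_mal, h1, mul_zero]
  by_contra hne
  have hc : Continuous fun t => ε * curlE (al σ u t) z :=
    continuous_const.mul (h.gc_curl.slice_t z)
  have hpos : 0 < ε * curlE (al σ u t) z :=
    lt_of_le_of_ne (hs t z (D.inn_subset hz)) (Ne.symm (mul_ne_zero hε hne))
  have h4 := intervalIntegral.integral_pos hT0 hc.continuousOn
    (fun s _ => hs s z (D.inn_subset hz)) ⟨t, ht, hpos⟩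
  linarith

/-- The Euler equations of an irrotational flow. -/
lemma euler_irrot (h : PMot D σ u p φ) {t : ℝ} {z : ℂ} (hz : z ∈ D.carrier)
    (hc : curlE (al σ u t) z = 0) (w : ℂ) :
    dot (deriv (fun s => al σ u s z) t) w = - fderiv ℝ (ber σ u p t) z w := by
  have e1 := h.euler_cov t hz w
  rw [dot_add_left] at e1
  have e2 : dot (fderiv ℝ (al σ u t) z (u t z)) w = dot (fderiv ℝ (al σ u t) z w) (u t z) := by
    rw [clin (fderiv ℝ (al σ u t) z) (u t z), clin (fderiv ℝ (al σ u t) z) w]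
    rw [curlE] at hc
    simp only [dot, add_re, add_im, re_ofReal_mul, im_ofReal_mul]
    linear_combination ((u t z).re * w.im - (u t z).im * w.re) * hc
  have e3 : dot (fderiv ℝ (al σ u t) z w) (u t z) +
      dot (al σ u t z) (fderiv ℝ (u t) z w) = 2 * fderiv ℝ (kin σ u t) z w := by
    rw [h.fderiv_al, h.fderiv_kin, normSq_apply]
    simp only [al, dot, add_re, add_im, re_ofReal_mul, im_ofReal_mul]
    ring
  rw [(h.hasFDerivAt_ber t z).fderiv, add_apply]
  linarith

/-- **Motions with vorticity of one sign are not closed.** -/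
theorem one_signed (h : PMot D σ u p φ) (hn : 2 ≤ n) {T : ℝ} (hT0 : 0 < T)
    (hT : ∀ z ∈ D.carrier, φ T z = z) {ε : ℝ} (hε : ε ≠ 0)
    (h0 : ∀ z ∈ D.carrier, 0 ≤ ε * curlE (al σ u 0) z) (t : ℝ) {z : ℂ} (hz : z ∈ D.carrier) :
    φ t z = z := by
  have hR : 0 < D.R := D.R_pos ⟨0, by omega⟩
  refine h.const_of_rest hR ?_ t hz
  have gdot : ∀ {g k : ℝ → ℂ → ℂ}, GC g → GC k → GC fun t z => dot (g t z) (k t z) :=
    fun hg hk => cont_dot hg hk
  have g0 : GC fun (_ : ℝ) z => al σ u 0 z := (h.G1al.gc.slice 0).comp continuous_snd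
  have gd := gdot h.G1al.gc_deriv g0
  -- the inner products
  have h1 : ∀ t ∈ Icc (0:ℝ) T, ∫ z in D.carrier, dot (al σ u t z) (al σ u 0 z) =
      ∫ z in D.carrier, dot (al σ u 0 z) (al σ u 0 z) := by
    intro t ht
    have e1 : ∀ z, dot (al σ u t z) (al σ u 0 z) = dot (al σ u 0 z) (al σ u 0 z) +
        ∫ s in (0:ℝ)..t, dot (deriv (fun s => al σ u s z) s) (al σ u 0 z) := by
      intro z
      have e2 : ∀ s, HasDerivAt (fun s => dot (al σ u s z) (al σ u 0 z))
          (dot (deriv (fun s => al σ u s z) s) (al σ u 0 z)) s := by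
        intro s
        refine (HasDerivAt.dot' (h.G1al.hasDerivAt s z)
          (hasDerivAt_const s (al σ u 0 z))).congr_deriv ?_
        rw [dot_zero_right, add_zero]
      rw [intervalIntegral.integral_eq_sub_of_hasDerivAt (fun s _ => e2 s)
        ((gd.slice_t z).intervalIntegrable _ _)]
      ring
    simp only [e1]
    rw [integral_add (setInt ((gdot h.G1al.gc g0).slice 0)) (setInt (gd.continuous_integral 0 t)),
      gd.fubini D.isCompact]
    have e3 : ∫ s in (0:ℝ)..t, ∫ z in D.carrier,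
        dot (deriv (fun s => al σ u s z) s) (al σ u 0 z) = ∫ s in (0:ℝ)..t, 0 := by
      refine intervalIntegral.integral_congr fun s hs => ?_
      rw [uIcc_of_le ht.1] at hs
      have hber : ContDiff ℝ 1 (ber σ u p s) := (h.G1kin.slice s).add (h.eul.p_contDiff s)
      have e4 := (h.tanField 0).weak hR hber
      rw [← neg_eq_zero, ← integral_neg] at e4
      refine (setIntegral_inn D fun z hz => ?_).trans e4
      exact h.euler_irrot (D.inn_subset hz)
        (h.curl_zero hn hR hT0 hT hε h0 ⟨hs.1, hs.2.trans ht.2⟩ z hz) _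
    rw [e3]
    simp
  have h2 : ∫ z in D.carrier, dot (mal σ u T z) (al σ u 0 z) = 0 := by
    have e1 : ∫ z in D.carrier, dot (mal σ u T z) (al σ u 0 z) = ∫ z in D.carrier, 0 := by
      refine setIntegral_inn D fun z hz => ?_
      rw [h.mal_zero hn hR hT0 hT hε h0 z hz, dot_zero_left]
    rw [e1]
    simp
  have h3 : ∫ z in D.carrier, dot (mal σ u T z) (al σ u 0 z) =
      T * ∫ z in D.carrier, dot (al σ u 0 z) (al σ u 0 z) := by
    have e1 : ∀ z, dot (mal σ u T z) (al σ u 0 z) =
        ∫ t in (0:ℝ)..T, dot (al σ u t z) (al σ u 0 z) := by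
      intro z
      have e2 := (dotL (al σ u 0 z)).intervalIntegral_comp_comm
        ((h.G1al.gc.slice_t z).intervalIntegrable (μ := volume) 0 T)
      simp only [dotL_apply] at e2
      have e3 : ∀ a b : ℂ, dot a b = dot b a := fun a b => by simp [dot]; ring
      rw [e3, mal, ← e2]
      exact intervalIntegral.integral_congr fun t _ => e3 _ _
    simp only [e1]
    rw [(gdot h.G1al.gc g0).fubini D.isCompact]
    have e2 : ∫ t in (0:ℝ)..T, ∫ z in D.carrier, dot (al σ u t z) (al σ u 0 z) =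
        ∫ _t in (0:ℝ)..T, ∫ z in D.carrier, dot (al σ u 0 z) (al σ u 0 z) := by
      refine intervalIntegral.integral_congr fun t ht => ?_
      rw [uIcc_of_le hT0.le] at ht
      exact h1 t ht
    rw [e2]
    simp
  rw [h2] at h3
  have h4 : ∫ z in D.carrier, dot (al σ u 0 z) (al σ u 0 z) = 0 := by
    rcases mul_eq_zero.mp h3.symm with h5 | h5
    · exact absurd h5 hT0.ne'
    · exact h5
  intro z hz
  have h5 := zero_of_setIntegral hR ((gdot h.G1al.gc g0).slice 0)
    (fun z _ => by rw [dot_self]; positivity) h4.le z hz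
  rw [dot_self] at h5
  have h6 : al σ u 0 z = 0 := by
    have h7 : ‖al σ u 0 z‖ = 0 := by
      exact pow_eq_zero_iff (two_ne_zero) |>.mp h5
    exact norm_eq_zero.mp h7
  rw [al] at h6
  rcases mul_eq_zero.mp h6 with h7 | h7
  · exact absurd (ofReal_eq_zero.mp h7) (h.σne hz)
  · exact h7

end PMot

end Pool.Agent.CG
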