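import Pool.Agent.Lib.MP_35454f.QMain

/-!
# Continuous fields which are divergence free in the weak sense
-/

set_option autoImplicit false

open MeasureTheory Filter Topology Complex Set Metric
open scoped ContDiff Interval

namespace Pool.Agent.CG

variable {n : ℕ} (D : CircularDomain n)

/-- Cutoff functions with support in the interior. -/
noncomputable def et (k : ℝ) (z : ℂ) : ℝ := ∏ j, st (k * gg D j z - 1)

lemma contDiff_et (k : ℝ) : ContDiff ℝ 1 (et D k) := by
  unfold et
  exact contDiff_prod fun j _ => contDiff_st.comp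
    ((contDiff_const.mul ((contDiff_gg D j).of_le (by simp))).sub contDiff_const)

lemma et_nonneg (k : ℝ) (z : ℂ) : 0 ≤ et D k z := Finset.prod_nonneg fun _ _ => st_nonneg _

lemma et_le_one (k : ℝ) (z : ℂ) : et D k z ≤ 1 :=
  Finset.prod_le_one (fun _ _ => st_nonneg _) fun _ _ => st_le_one _

lemma tsupport_et (k : ℝ) : tsupport (et D k) ⊆ {z | ∀ j, 1 ≤ k * gg D j z} := by
  refine closure_minimal ?_ ?_
  · intro z hz j
    by_contra hcon
    push Not at hcon
    apply hz
    exact Finset.prod_eq_zero (Finset.mem_univ j) (st_of_nonpos (by linarith))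
  · have : {z | ∀ j, 1 ≤ k * gg D j z} = ⋂ j, {z | 1 ≤ k * gg D j z} := by
      ext z; simp
    rw [this]
    exact isClosed_iInter fun j => isClosed_le continuous_const
      (continuous_const.mul (contDiff_gg D j).continuous)

lemma tsupport_et_inn (hR : 0 ≤ D.R) {k : ℝ} (hk : 0 < k) : tsupport (et D k) ⊆ D.inn := by
  intro z hz
  rw [mem_inn_iff D hR]
  intro j
  have h1 := tsupport_et D k hz j
  by_contra hcon
  push Not at hcon
  nlinarith

lemma hasCompactSupport_et (hR : 0 ≤ D.R) {k : ℝ} (hk : 0 < k) : HasCompactSupport (et D k) :=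
  HasCompactSupport.of_support_subset_isCompact D.isCompact
    ((subset_tsupport _).trans ((tsupport_et_inn D hR hk).trans D.inn_subset))

lemma hasFDerivAt_et [DecidableEq (Option (Fin n))] (k : ℝ) (z : ℂ) : HasFDerivAt (et D k)
    (∑ j, (∏ l ∈ Finset.univ.erase j, st (k * gg D l z - 1)) •
      ((k * st' (k * gg D j z - 1)) • dotL (gn D j z))) z := by
  have h1 : ∀ j ∈ (Finset.univ : Finset (Option (Fin n))),
      HasFDerivAt (fun z => st (k * gg D j z - 1))
        ((k * st' (k * gg D j z - 1)) • dotL (gn D j z)) z := by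
    intro j _
    have h2 : HasFDerivAt (fun z => k * gg D j z - 1) (k • dotL (gn D j z)) z :=
      ((hasFDerivAt_gg D j z).const_mul k).sub_const 1
    have h3 := (hasDerivAt_st (k * gg D j z - 1)).comp_hasFDerivAt z h2
    refine h3.congr_fderiv ?_
    rw [smul_smul, mul_comm]
  exact HasFDerivAt.finsetProd (𝕜 := ℝ) h1

lemma int_det (hR : 0 < D.R) {V : ℂ → ℂ} (hV : Continuous V)
    (hb : ∀ j, ∀ z ∈ D.carrier, gg D j z = 0 → dot (gn D j z) (V z) ≤ 0) {δ : ℝ} (hδ : 0 < δ) :
    ∀ᶠ k : ℝ in atTop, ∫ z, fderiv ℝ (et D k) z (V z) ≤ 8 * Real.pi * (n + 1) * δ := by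
  classical
  have h2 : Tendsto (fun k : ℝ => k / 2) atTop atTop := tendsto_id.atTop_div_const two_pos
  have hk1 : ∀ᶠ k : ℝ in atTop, 1 ≤ k * D.R ^ 2 := by
    filter_upwards [eventually_ge_atTop (1 / D.R ^ 2)] with k hk
    rwa [div_le_iff₀ (by positivity)] at hk
  filter_upwards [h2.eventually (eventually_collar D hR.le hV hb hδ), eventually_gt_atTop 0,
    h2.eventually hk1] with k hk hk0 hk1
  have hk2 : 0 < k / 2 := by linarith
  have hη := contDiff_et D k
  have hηc := hasCompactSupport_et D hR.le hk0
  have hle : ∀ z, fderiv ℝ (et D k) z (V z) ≤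
      ∑ j, (collar D (k / 2) j).indicator (fun _ => 4 * k * δ) z := by
    intro z
    rw [(hasFDerivAt_et D k z).fderiv, sum_apply]
    refine Finset.sum_le_sum fun j _ => ?_
    rw [smul_apply, smul_apply, dotL_apply, smul_eq_mul, smul_eq_mul]
    set P := ∏ l ∈ Finset.univ.erase j, st (k * gg D l z - 1) with hP
    have hP0 : 0 ≤ P := Finset.prod_nonneg fun _ _ => st_nonneg _
    have hP1 : P ≤ 1 := Finset.prod_le_one (fun _ _ => st_nonneg _) fun _ _ => st_le_one _
    have hind : 0 ≤ (collar D (k / 2) j).indicator (fun _ => 4 * k * δ) z :=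
      indicator_nonneg (fun _ _ => by positivity) _
    by_cases hz : z ∈ D.inn
    · rcases lt_or_ge (k * gg D j z - 1) 1 with h1 | h1
      · have h1' : k / 2 * gg D j z < 1 := by linarith
        have hmem : z ∈ collar D (k / 2) j := ⟨(mem_inn_iff D hR.le z).mp hz j, h1'⟩
        rw [indicator_of_mem hmem]
        have h2 := hk j z (D.inn_subset hz) h1'
        have h3 := st'_nonneg (k * gg D j z - 1)
        have h4 := st'_le (k * gg D j z - 1)
        have h5 : 0 ≤ P * (k * st' (k * gg D j z - 1)) := mul_nonneg hP0 (mul_nonneg hk0.le h3)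
        have h6 : P * (k * st' (k * gg D j z - 1)) ≤ 4 * k := by
          calc P * (k * st' (k * gg D j z - 1)) ≤ 1 * (k * 4) :=
                mul_le_mul hP1 (mul_le_mul_of_nonneg_left h4 hk0.le) (mul_nonneg hk0.le h3) zero_le_one
            _ = 4 * k := by ring
        calc P * (k * st' (k * gg D j z - 1) * dot (gn D j z) (V z))
            = P * (k * st' (k * gg D j z - 1)) * dot (gn D j z) (V z) := by ring
          _ ≤ P * (k * st' (k * gg D j z - 1)) * δ := mul_le_mul_of_nonneg_left h2 h5
          _ ≤ 4 * k * δ := mul_le_mul_of_nonneg_right h6 hδ.le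
      · rw [st'_of_one_le h1]
        simpa using hind
    · rw [mem_inn_iff D hR.le] at hz
      push Not at hz
      obtain ⟨l, hl⟩ := hz
      have hl' : k * gg D l z - 1 ≤ 0 := by
        have := mul_nonpos_of_nonneg_of_nonpos hk0.le hl
        linarith
      by_cases hlj : l = j
      · rw [← hlj, st'_of_nonpos hl']
        rw [hlj]
        simpa using hind
      · have : P = 0 := Finset.prod_eq_zero (Finset.mem_erase.mpr ⟨hlj, Finset.mem_univ l⟩)
          (st_of_nonpos hl')
        rw [this, zero_mul]
        exact hind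
  have hint : ∀ j, Integrable ((collar D (k / 2) j).indicator fun _ => 4 * k * δ) := by
    intro j
    rw [integrable_indicator_iff (isOpen_collar D (k / 2) j).measurableSet]
    exact integrableOn_const (volume_collar_ne_top D hk2 hk1 j)
  have hint2 : Integrable fun z => fderiv ℝ (et D k) z (V z) := by
    refine Continuous.integrable_of_hasCompactSupport
      ((hη.continuous_fderiv one_ne_zero).clm_apply hV) ?_
    refine HasCompactSupport.intro (K := tsupport (et D k)) hηc fun z hz => ?_
    have : fderiv ℝ (et D k) z = 0 := by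
      by_contra hne
      exact hz (tsupport_fderiv_subset ℝ (subset_tsupport _ hne))
    simp [this]
  calc ∫ z, fderiv ℝ (et D k) z (V z)
      ≤ ∫ z, ∑ j, (collar D (k / 2) j).indicator (fun _ => 4 * k * δ) z :=
        integral_mono hint2 (integrable_finsetSum _ fun j _ => hint j) hle
    _ = ∑ j, ∫ z, (collar D (k / 2) j).indicator (fun _ => 4 * k * δ) z :=
        integral_finsetSum _ fun j _ => hint j
    _ = ∑ _j : Option (Fin n), 8 * Real.pi * δ := by
        refine Finset.sum_congr rfl fun j _ => ?_
        rw [integral_indicator_const _ (isOpen_collar D (k / 2) j).measurableSet, smul_eq_mul]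
        rw [← volume_collar D hk2 hk1 j]
        ring
    _ = 8 * Real.pi * (n + 1) * δ := by
        simp
        ring

lemma tendsto_integral_et (hR : 0 ≤ D.R) {f : ℂ → ℝ} (hf : Continuous f) :
    Tendsto (fun k : ℕ => ∫ z, et D k z * f z) atTop (𝓝 (∫ z in D.carrier, f z)) := by
  have h1 : ∫ z in D.carrier, f z = ∫ z, D.inn.indicator f z := by
    rw [integral_indicator D.isOpen_inn.measurableSet]
    exact (setIntegral_congr_set D.ae_eq).symm
  rw [h1]
  have hint : IntegrableOn (fun z => |f z|) D.carrier :=
    hf.abs.continuousOn.integrableOn_compact D.isCompact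
  have hzero : ∀ (k : ℕ) {z : ℂ}, z ∉ D.inn → et D k z = 0 := by
    intro k z hz
    rw [mem_inn_iff D hR] at hz
    push Not at hz
    obtain ⟨l, hl⟩ := hz
    refine Finset.prod_eq_zero (Finset.mem_univ l) (st_of_nonpos ?_)
    have := mul_nonpos_of_nonneg_of_nonpos (k.cast_nonneg (α := ℝ)) hl
    linarith
  refine tendsto_integral_of_dominated_convergence (D.carrier.indicator fun z => |f z|) ?_ ?_ ?_ ?_
  · intro k
    exact ((contDiff_et D k).continuous.mul hf).aestronglyMeasurable
  · exact (integrable_indicator_iff D.measurableSet).mpr hint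
  · intro k
    refine Eventually.of_forall fun z => ?_
    by_cases hz : z ∈ D.inn
    · rw [indicator_of_mem (D.inn_subset hz), norm_mul, Real.norm_eq_abs, Real.norm_eq_abs,
        abs_of_nonneg (et_nonneg D _ z)]
      exact mul_le_of_le_one_left (abs_nonneg _) (et_le_one D _ z)
    · rw [hzero k hz, zero_mul, norm_zero]
      exact indicator_nonneg (fun _ _ => abs_nonneg _) _
  · refine Eventually.of_forall fun z => ?_
    by_cases hz : z ∈ D.inn
    · rw [indicator_of_mem hz]
      have h2 : ∀ᶠ k : ℕ in atTop, ∀ j, 2 ≤ (k : ℝ) * gg D j z := by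
        refine eventually_all.mpr fun j => ?_
        have hg := (mem_inn_iff D hR z).mp hz j
        have h3 : ∀ᶠ k : ℝ in atTop, 2 ≤ k * gg D j z := by
          filter_upwards [eventually_ge_atTop (2 / gg D j z)] with k hk
          rwa [div_le_iff₀ hg] at hk
        exact tendsto_natCast_atTop_atTop.eventually h3
      refine tendsto_const_nhds.congr' ?_
      filter_upwards [h2] with k hk
      have : et D k z = 1 := Finset.prod_eq_one fun j _ => st_of_one_le (by linarith [hk j])
      rw [this, one_mul]
    · rw [indicator_of_notMem hz]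
      refine tendsto_const_nhds.congr fun k => ?_
      rw [hzero k hz, zero_mul]

/-- A continuous field which is divergence free in the interior and tangent to the boundary is
orthogonal to the gradients. -/
theorem weak_of_continuous (hR : 0 < D.R) {V : ℂ → ℂ} (hV : Continuous V)
    (hi : ∀ f : ℂ → ℝ, ContDiff ℝ 1 f → HasCompactSupport f → tsupport f ⊆ D.inn →
      ∫ z, fderiv ℝ f z (V z) = 0)
    (hb : ∀ j, ∀ z ∈ D.carrier, gg D j z = 0 → dot (gn D j z) (V z) = 0) {f : ℂ → ℝ}
    (hf : ContDiff ℝ 1 f) : ∫ z in D.carrier, fderiv ℝ f z (V z) = 0 := by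
  have hfd : Continuous fun z => fderiv ℝ f z (V z) :=
    (hf.continuous_fderiv one_ne_zero).clm_apply hV
  have hlim := tendsto_integral_et D hR.le hfd
  -- the identity
  have key : ∀ k : ℝ, 0 < k → ∫ z, et D k z * fderiv ℝ f z (V z) =
      - ∫ z, fderiv ℝ (et D k) z ((f z : ℂ) * V z) := by
    intro k hk
    have hη := contDiff_et D k
    have hηc := hasCompactSupport_et D hR.le hk
    have h1 := hi (fun z => et D k z * f z) (hη.mul hf) hηc.mul_right
      ((closure_mono (fun x hx => by intro h; exact hx (by simp [h]))).trans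
        (tsupport_et_inn D hR.le hk))
    have h2 : ∀ z, fderiv ℝ (fun z => et D k z * f z) z (V z) =
        et D k z * fderiv ℝ f z (V z) + fderiv ℝ (et D k) z ((f z : ℂ) * V z) := by
      intro z
      have h3 := (hη.differentiable one_ne_zero z).hasFDerivAt.fun_mul
        (hf.differentiable one_ne_zero z).hasFDerivAt
      rw [h3.fderiv, ← real_smul, map_smul]
      simp only [add_apply, smul_apply, smul_eq_mul]
    simp only [h2] at h1
    have i1 : Integrable fun z => et D k z * fderiv ℝ f z (V z) :=
      (hη.continuous.mul hfd).integrable_of_hasCompactSupport hηc.mul_right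
    have i2 : Integrable fun z => fderiv ℝ (et D k) z ((f z : ℂ) * V z) := by
      refine Continuous.integrable_of_hasCompactSupport
        ((hη.continuous_fderiv one_ne_zero).clm_apply
          ((continuous_ofReal.comp hf.continuous).mul hV)) ?_
      refine HasCompactSupport.intro (K := tsupport (et D k)) hηc fun z hz => ?_
      have : fderiv ℝ (et D k) z = 0 := by
        by_contra hne
        exact hz (tsupport_fderiv_subset ℝ (subset_tsupport _ hne))
      simp [this]
    rw [integral_add i1 i2] at h1
    linarith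
  have hfV : Continuous fun z => (f z : ℂ) * V z := (continuous_ofReal.comp hf.continuous).mul hV
  have hbd : ∀ δ : ℝ, 0 < δ → |∫ z in D.carrier, fderiv ℝ f z (V z)| ≤
      8 * Real.pi * (n + 1) * δ := by
    intro δ hδ
    have e1 := int_det D hR hfV (fun j z hz h0 => by
      have e : ∀ (r : ℝ) (a b : ℂ), dot a ((r : ℂ) * b) = r * dot a b := fun r a b =>
        dot_smul_right r a b
      rw [e, hb j z hz h0, mul_zero]) hδ
    have hfN : Continuous fun z => -((f z : ℂ) * V z) := hfV.neg
    have e2 := int_det D hR hfN (fun j z hz h0 => by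
      have e : ∀ (r : ℝ) (a b : ℂ), dot a (-((r : ℂ) * b)) = -(r * dot a b) := fun r a b => by
        simp [dot]; ring
      rw [e, hb j z hz h0, mul_zero, neg_zero]) hδ
    have e3 := tendsto_natCast_atTop_atTop.eventually (e1.and (e2.and (eventually_gt_atTop 0)))
    have e4 : ∀ᶠ k : ℕ in atTop, |∫ z, et D k z * fderiv ℝ f z (V z)| ≤
        8 * Real.pi * (n + 1) * δ := by
      filter_upwards [e3] with k hk
      obtain ⟨k1, k2, k3⟩ := hk
      simp only [map_neg, integral_neg] at k2
      rw [key k k3, abs_neg, abs_le]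
      constructor <;> linarith
    exact le_of_tendsto hlim.abs e4
  by_contra hne
  have h1 : 0 < |∫ z in D.carrier, fderiv ℝ f z (V z)| := abs_pos.mpr hne
  set J := |∫ z in D.carrier, fderiv ℝ f z (V z)| with hJ
  have hc : 0 < 8 * Real.pi * (n + 1) := by positivity
  have h2 := hbd (J / (2 * (8 * Real.pi * (n + 1)))) (by positivity)
  have h3 : 8 * Real.pi * (n + 1) * (J / (2 * (8 * Real.pi * (n + 1)))) = J / 2 := by
    field_simp
  linarith

end Pool.Agent.CG
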