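import Pool.Agent.Lib.MP_35454f.QMain
import Pool.Agent.Lib.MP_35454f.QDefs

/-!
# Closed geodesics have vorticity of both signs
-/

set_option autoImplicit false

open Filter Topology Complex Set
open scoped ContDiff

namespace Pool.Agent.CG

variable {n : ℕ}
variable {D : CircularDomain n} {σ : ℂ → ℝ} {u : ℝ → ℂ → ℂ} {p : ℝ → ℂ → ℝ} {φ : ℝ → ℂ → ℂ}

lemma IsGeodesicWith.pmot (h : IsGeodesicWith D σ φ u p) (hσ : IsMetric D σ) : PMot D σ u p φ :=
  ⟨h.euler, hσ, h.start, h.bijOn, h.contDiff, h.area, h.velocity⟩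

lemma PMot.vort_eq (h : PMot D σ u p φ) (t : ℝ) (z : ℂ) :
    vortS σ (u t) z = curlE (al σ u t) z / σ z := by
  have hd : DifferentiableAt ℝ (al σ u t) z := (h.G1al.hasFDerivAt t z).differentiableAt
  rw [vortS, curlE, ← re_fderiv hd, ← im_fderiv hd]
  have e1 : (fun w => (al σ u t w).im) = fun w => σ w * (u t w).im := by
    ext1 w; simp [al]
  have e2 : (fun w => (al σ u t w).re) = fun w => σ w * (u t w).re := by
    ext1 w; simp [al]
  rw [e1, e2]

/-- **No closed geodesic has vorticity of one sign.** -/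
theorem IsGeodesicWith.one_signed (hn : 2 ≤ n) (hσ : IsMetric D σ) (h : IsGeodesicWith D σ φ u p)
    (hω : (∀ z ∈ D.carrier, 0 ≤ vortS σ (u 0) z) ∨ ∀ z ∈ D.carrier, vortS σ (u 0) z ≤ 0)
    {T : ℝ} (hT0 : 0 < T) (hT : ∀ z ∈ D.carrier, φ T z = z) (t : ℝ) {z : ℂ}
    (hz : z ∈ D.carrier) : φ t z = z := by
  have hm := h.pmot hσ
  rcases hω with hω | hω
  · refine hm.one_signed hn hT0 hT (ε := 1) one_ne_zero (fun z hz => ?_) t hz
    have h1 := hω z hz
    rw [hm.vort_eq] at h1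
    rw [one_mul]
    exact nonneg_of_mul_nonneg_left (by rwa [div_eq_mul_inv] at h1) (inv_pos.mpr (hσ.pos z hz))
  · refine hm.one_signed hn hT0 hT (ε := -1) (by norm_num) (fun z hz => ?_) t hz
    have h1 := hω z hz
    rw [hm.vort_eq] at h1
    have h2 : 0 ≤ (-1 * curlE (al σ u 0) z) * (σ z)⁻¹ := by
      rw [div_eq_mul_inv] at h1
      linarith
    exact nonneg_of_mul_nonneg_left h2 (inv_pos.mpr (hσ.pos z hz))

end Pool.Agent.CG
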