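import Pool.Agent.Lib.MP_35454f.QEn
import Pool.Agent.Lib.MP_35454f.QIso
import Pool.Agent.Lib.MP_35454f.QOne

/-!
# The period of a closed motion of a plane domain
-/

set_option autoImplicit false

open MeasureTheory Filter Topology Complex Set Metric
open scoped ContDiff Interval

namespace Pool.Agent.CG

variable {n : ℕ}
variable {D : CircularDomain n} {σ : ℂ → ℝ} {u : ℝ → ℂ → ℂ} {p : ℝ → ℂ → ℝ} {φ : ℝ → ℂ → ℂ}

/-- `F` is (an extension to the plane of) a conformal map of the domain into the plane, of class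
`C²` up to the boundary, and `σ (dx² + dy²)` is the metric induced by the Euclidean metric:
`σ = |F'|²` on the domain. -/
structure IsFlatChart (D : CircularDomain n) (σ : ℂ → ℝ) (F : ℂ → ℂ) : Prop where
  contDiff : ContDiff ℝ 2 F
  conformal : ∀ z ∈ D.carrier, fderiv ℝ F z I = I * fderiv ℝ F z 1
  factor : ∀ z ∈ D.carrier, σ z = normSq (fderiv ℝ F z 1)

namespace PMot

/-- The integrals of a closed form along the paths of the particles vanish. -/
lemma closed_form (h : PMot D σ u p φ) (hn : 2 ≤ n) (hR : 0 < D.R) {T : ℝ}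
    (hT : ∀ z ∈ D.carrier, φ T z = z) {β : ℂ → ℂ →L[ℝ] ℝ} (hβ : ContDiff ℝ 1 β)
    (hcl : ∀ x ∈ D.carrier, ∀ a b, fderiv ℝ β x a b = fderiv ℝ β x b a) {z : ℂ}
    (hz : z ∈ D.carrier) : ∫ t in (0:ℝ)..T, β (φ t z) (u t (φ t z)) = 0 := by
  have gβ : GC fun t z => β (φ t z) := hβ.continuous.comp h.c1φ.gc
  have gu : GC fun t z => u t (φ t z) := h.gc_comp h.G1u.gc
  have gdβ : GC fun t z => fderiv ℝ β (φ t z) := (hβ.continuous_fderiv one_ne_zero).comp h.c1φ.gc
  have gg : GC fun t z => β (φ t z) (u t (φ t z)) := Continuous.clm_apply gβ gu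
  set g' : ℝ → ℂ → ℂ →L[ℝ] ℝ := fun t z =>
    (β (φ t z)).comp ((fderiv ℝ (u t) (φ t z)).comp (fderiv ℝ (φ t) z)) +
      ((fderiv ℝ β (φ t z)).flip (u t (φ t z))).comp (fderiv ℝ (φ t) z) with hg'
  have gg' : GC g' := by
    refine Continuous.add (Continuous.clm_comp gβ h.gc_duφ)
      (Continuous.clm_comp ?_ h.c1φ.gc_fderiv)
    exact Continuous.clm_apply ((ContinuousLinearMap.flipₗᵢ ℝ ℂ ℂ ℝ).continuous.comp gdβ) gu
  have hd : ∀ t z, HasFDerivAt (fun z => β (φ t z) (u t (φ t z))) (g' t z) z := by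
    intro t z
    have h1 : HasFDerivAt (fun z => β (φ t z)) ((fderiv ℝ β (φ t z)).comp (fderiv ℝ (φ t) z)) z :=
      ((hβ.differentiable one_ne_zero (φ t z)).hasFDerivAt).comp z (h.c1φ.hasFDerivAt t z)
    refine (h1.clm_apply (h.hasFDerivAt_uφ t z)).congr_fderiv ?_
    ext1 v
    simp [hg']
  have key : ∀ z ∈ D.inn, HasFDerivAt (fun z => ∫ t in (0:ℝ)..T, β (φ t z) (u t (φ t z)))
      (0 : ℂ →L[ℝ] ℝ) z := by
    intro z hz
    have hzM := D.inn_subset hz
    refine (hasFDerivAt_parG gg gg' hd 0 T z).congr_fderiv ?_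
    set w : ℝ → ℂ →L[ℝ] ℝ := fun t => (β (φ t z)).comp (fderiv ℝ (φ t) z) with hw
    have h2 : ∀ t, HasDerivAt w (g' t z) t := by
      intro t
      have h3 : HasDerivAt (fun t => β (φ t z)) (fderiv ℝ β (φ t z) (u t (φ t z))) t :=
        HasFDerivAt.comp_hasDerivAt (l := β) (f := fun s => φ s z) t
          (hβ.differentiable one_ne_zero (φ t z)).hasFDerivAt (h.ode t z hzM)
      have h5 := h3.clm_comp (h.hasDerivAt_dφ t hz)
      refine h5.congr_deriv ?_
      ext1 v
      simp only [hg', add_apply, ContinuousLinearMap.comp_apply, ContinuousLinearMap.flip_apply]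
      rw [hcl (φ t z) (h.mem t hzM) (fderiv ℝ (φ t) z v) (u t (φ t z))]
      ring
    rw [intervalIntegral.integral_eq_sub_of_hasDerivAt (fun t _ => h2 t)
      ((gg'.slice_t z).intervalIntegrable _ _)]
    have e0 : fderiv ℝ (φ 0) z = ContinuousLinearMap.id ℝ ℂ := by
      have h8 : φ 0 =ᶠ[𝓝 z] fun w => w := by
        filter_upwards [D.isOpen_inn.mem_nhds hz] with w hw using h.start w (D.inn_subset hw)
      rw [h8.fderiv_eq]
      exact fderiv_fun_id
    rw [hw]
    simp only
    rw [h.fderiv_φT hT hz, e0, hT z hzM, h.start z hzM, sub_self]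
  have hc1 : Continuous fun z => ∫ t in (0:ℝ)..T, β (φ t z) (u t (φ t z)) :=
    gg.continuous_integral 0 T
  obtain ⟨c, hc⟩ := D.isOpen_inn.exists_is_const_of_fderiv_eq_zero
    (f := fun z => ∫ t in (0:ℝ)..T, β (φ t z) (u t (φ t z))) D.isPreconnected_inn
    (fun z hz => (key z hz).differentiableAt.differentiableWithinAt)
    (fun z hz => (key z hz).fderiv)
  have hc' := eq_zero_of_inn hR hc1 continuous_const hc
  have hRn : ‖((D.R : ℝ) : ℂ)‖ = D.R := by
    rw [norm_real, Real.norm_eq_abs, abs_of_pos hR]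
  have h0 := hc' _ (D.outer_mem hRn)
  rw [hc' z hz, ← h0]
  -- the path of a boundary particle
  have hcirc : IsCircle D 0 D.R := Or.inl ⟨rfl, rfl⟩
  obtain ⟨b, b', hb, hpos, hper⟩ := h.exists_angle hn hR hcirc hT (z := (D.R : ℂ))
    (by simpa using hRn)
  set k : ℝ → ℝ := fun s => β (cir 0 D.R s) (cir' D.R s) with hk
  have hkc : Continuous k := (hβ.continuous.comp (contDiff_cir 0 D.R).continuous).clm_apply
    (contDiff_cir' D.R).continuous
  have hG : ∀ t, HasDerivAt (fun t => ∫ s in (0:ℝ)..b t, k s)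
      (β (φ t (D.R : ℂ)) (u t (φ t (D.R : ℂ)))) t := by
    intro t
    have h1 : HasDerivAt (fun x => ∫ s in (0:ℝ)..x, k s) (k (b t)) (b t) :=
      intervalIntegral.integral_hasDerivAt_right (hkc.intervalIntegrable _ _)
        (hkc.stronglyMeasurableAtFilter _ _) hkc.continuousAt
    have h2 := h1.comp t (hb t)
    refine h2.congr_deriv ?_
    have h3 : HasDerivAt (fun s => φ s (D.R : ℂ)) (b' t • cir' D.R (b t)) t := by
      have h4 := (hasDerivAt_cir 0 D.R (b t)).scomp t (hb t)
      have e : (fun s => φ s (D.R : ℂ)) = cir 0 D.R ∘ b := by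
        ext1 s; exact (hpos s).symm
      rw [e]
      exact h4
    have h5 := (h.ode t _ (D.outer_mem hRn)).unique h3
    rw [h5, hk]
    simp only [hpos t, map_smul, smul_eq_mul]
    ring
  rw [intervalIntegral.integral_eq_sub_of_hasDerivAt (fun t _ => hG t)
    ((gg.slice_t _).intervalIntegrable _ _), hper, sub_self]

/-- The area enclosed by the image of the path of a particle in the plane. -/
lemma area_chart (h : PMot D σ u p φ) (hn : 2 ≤ n) (hR : 0 < D.R) {T : ℝ}
    (hT : ∀ z ∈ D.carrier, φ T z = z) {F : ℂ → ℂ} (hF : IsFlatChart D σ F) {z : ℂ}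
    (hz : z ∈ D.carrier) :
    CG.area σ u φ T z =
      ∫ t in (0:ℝ)..T, (F (φ t z)).re * (fderiv ℝ F (φ t z) (u t (φ t z))).im := by
  have hb := contDiff_bb h.met.contDiff
  have hF1 : ContDiff ℝ 1 F := hF.contDiff.of_le (by norm_num)
  have hdF : ContDiff ℝ 1 (fderiv ℝ F) := hF.contDiff.fderiv_right (by norm_num)
  set β : ℂ → ℂ →L[ℝ] ℝ := fun x => (F x).re • (imCLM.comp (fderiv ℝ F x)) - bb σ x • imCLM
    with hβd
  have hre : ContDiff ℝ 1 fun x => (F x).re := reCLM.contDiff.comp hF1
  have hβ : ContDiff ℝ 1 β :=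
    (hre.smul (contDiff_const.clm_comp hdF)).sub (hb.smul contDiff_const)
  have hβd' : ∀ x a b, fderiv ℝ β x a b =
      (F x).re * (fderiv ℝ (fderiv ℝ F) x a b).im + (fderiv ℝ F x a).re * (fderiv ℝ F x b).im -
        fderiv ℝ (bb σ) x a * b.im := by
    intro x a b
    have h1 : HasFDerivAt (fun x => (F x).re) (reCLM.comp (fderiv ℝ F x)) x :=
      reCLM.hasFDerivAt.comp x (hF1.differentiable one_ne_zero x).hasFDerivAt
    have h2 : HasFDerivAt (fun x => imCLM.comp (fderiv ℝ F x))
        ((ContinuousLinearMap.compL ℝ ℂ ℂ ℝ imCLM).comp (fderiv ℝ (fderiv ℝ F) x)) x :=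
      ((ContinuousLinearMap.compL ℝ ℂ ℂ ℝ imCLM).hasFDerivAt).comp x
        (hdF.differentiable one_ne_zero x).hasFDerivAt
    have h3 : HasFDerivAt (fun x => bb σ x • imCLM) _ x :=
      (hb.differentiable one_ne_zero x).hasFDerivAt.smul_const imCLM
    have h4 := (h1.smul h2).sub h3
    have h5 : fderiv ℝ β x = _ := h4.fderiv
    rw [h5]
    simp
  have hcl : ∀ x ∈ D.carrier, ∀ a b, fderiv ℝ β x a b = fderiv ℝ β x b a := by
    intro x hx a b
    rw [hβd', hβd']
    have hsym : fderiv ℝ (fderiv ℝ F) x a b = fderiv ℝ (fderiv ℝ F) x b a := by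
      have := (hF.contDiff.contDiffAt (x := x)).isSymmSndFDerivAt (by simp)
      exact this a b
    have hσ := fderiv_bb_one h.met.contDiff x
    have hc := hF.conformal x hx
    have hs := hF.factor x hx
    rw [hsym, clin (fderiv ℝ F x) a, clin (fderiv ℝ F x) b, rlin (fderiv ℝ (bb σ) x) a,
      rlin (fderiv ℝ (bb σ) x) b, hσ, hc, hs, normSq_apply]
    simp only [add_re, add_im, mul_re, mul_im, ofReal_re, ofReal_im, I_re, I_im]
    ring
  have key := h.closed_form hn hR hT hβ hcl hz
  have c1 : Continuous fun t => (F (φ t z)).re * (fderiv ℝ F (φ t z) (u t (φ t z))).im := by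
    have g1 := h.c1φ.gc.slice_t z
    exact (hre.continuous.comp g1).mul (continuous_im.comp
      ((hdF.continuous.comp g1).clm_apply (h.continuous_u z)))
  have c2 : Continuous fun t => bb σ (φ t z) * (u t (φ t z)).im := h.gc_area.slice_t z
  have e1 : ∀ t, β (φ t z) (u t (φ t z)) =
      (F (φ t z)).re * (fderiv ℝ F (φ t z) (u t (φ t z))).im - bb σ (φ t z) * (u t (φ t z)).im := by
    intro t
    simp [hβd]
  simp only [e1] at key
  rw [intervalIntegral.integral_sub (c1.intervalIntegrable _ _) (c2.intervalIntegrable _ _),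
    sub_eq_zero] at key
  exact key.symm

/-- The isoperimetric inequality for the path of a particle. -/
lemma area_le (h : PMot D σ u p φ) (hn : 2 ≤ n) (hR : 0 < D.R) {T : ℝ} (hT0 : 0 < T)
    (hT : ∀ z ∈ D.carrier, φ T z = z) {F : ℂ → ℂ} (hF : IsFlatChart D σ F) {z : ℂ}
    (hz : z ∈ D.carrier) :
    |CG.area σ u φ T z| ≤
      T / (4 * Real.pi) * ∫ t in (0:ℝ)..T, σ (φ t z) * normSq (u t (φ t z)) := by
  have hF1 : ContDiff ℝ 1 F := hF.contDiff.of_le (by norm_num)
  have hdF : ContDiff ℝ 1 (fderiv ℝ F) := hF.contDiff.fderiv_right (by norm_num)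
  rw [h.area_chart hn hR hT hF hz]
  have hf : ∀ t, HasDerivAt (fun t => F (φ t z)) (fderiv ℝ F (φ t z) (u t (φ t z))) t := fun t =>
    HasFDerivAt.comp_hasDerivAt (l := F) (f := fun s => φ s z) t
      (hF1.differentiable one_ne_zero (φ t z)).hasFDerivAt (h.ode t z hz)
  have hf' : Continuous fun t => fderiv ℝ F (φ t z) (u t (φ t z)) :=
    (hdF.continuous.comp (h.c1φ.gc.slice_t z)).clm_apply (h.continuous_u z)
  have h1 := isoperimetric hT0 hf hf' (by simp only [hT z hz, h.start z hz])
  refine h1.trans (le_of_eq ?_)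
  congr 1
  refine intervalIntegral.integral_congr fun t _ => ?_
  have hm := h.mem t hz
  change ‖fderiv ℝ F (φ t z) (u t (φ t z))‖ ^ 2 = σ (φ t z) * normSq (u t (φ t z))
  rw [clin (fderiv ℝ F (φ t z)) (u t (φ t z)), hF.conformal _ hm, hF.factor _ hm,
    ← normSq_eq_norm_sq, normSq_apply, normSq_apply, normSq_apply]
  simp only [add_re, add_im, mul_re, mul_im, ofReal_re, ofReal_im, I_re, I_im]
  ring

/-- The areas enclosed by the particles have mean zero. -/
lemma int_area_zero (h : PMot D σ u p φ) (hn : 2 ≤ n) (hR : 0 < D.R) {T : ℝ}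
    (hT : ∀ z ∈ D.carrier, φ T z = z) : ∫ z in D.carrier, CG.area σ u φ T z * σ z = 0 := by
  have e3 : ∫ z in D.carrier, CG.area σ u φ T z * σ z =
      ∫ z in D.carrier, pst D σ u φ T z * σ z := by
    refine setIntegral_congr_fun D.measurableSet fun z hz => ?_
    rw [h.area_eq hn hR hT hz]
  have e1 : ∫ z in D.carrier, pst D σ u φ T z * σ z = ∫ z in D.carrier, mst D σ u T z * σ z := by
    have g1 : GC fun t z => str D (al σ u t) (φ t z) * σ z :=
      Continuous.mul (h.gc_comp (h.gc_str hR)) h.gcσ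
    have g2 : GC fun t z => str D (al σ u t) z * σ z := Continuous.mul (h.gc_str hR) h.gcσ
    have h1 : ∀ z, pst D σ u φ T z * σ z = ∫ t in (0:ℝ)..T, str D (al σ u t) (φ t z) * σ z :=
      fun z => (intervalIntegral.integral_mul_const _ _).symm
    have h2 : ∀ z, mst D σ u T z * σ z = ∫ t in (0:ℝ)..T, str D (al σ u t) z * σ z :=
      fun z => (intervalIntegral.integral_mul_const _ _).symm
    simp only [h1, h2]
    rw [g1.fubini D.isCompact, g2.fubini D.isCompact]
    refine intervalIntegral.integral_congr fun t _ => ?_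
    exact h.change t (str D (al σ u t))
  rw [e3, e1, h.int_mst_zero hn hR hT]

/-- **The period bound.** -/
theorem period (h : PMot D σ u p φ) (hn : 2 ≤ n) {T : ℝ} (hT0 : 0 < T)
    (hT : ∀ z ∈ D.carrier, φ T z = z) {F : ℂ → ℂ} (hF : IsFlatChart D σ F) {a b : ℝ}
    (hab : ∀ z ∈ D.carrier, a * σ z ≤ curlE (al σ u 0) z ∧ curlE (al σ u 0) z ≤ b * σ z)
    (hper : T * (b - a) < 8 * Real.pi) (t : ℝ) {z : ℂ} (hz : z ∈ D.carrier) : φ t z = z := by
  have hR : 0 < D.R := D.R_pos ⟨0, by omega⟩
  refine h.const_of_rest hR ?_ t hz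
  have hσ := h.met.contDiff.continuous
  have hA : Continuous (CG.area σ u φ T) := (h.contDiff_area T).continuous
  have hcu : Continuous (curlE (al σ u 0)) := h.gc_curl.slice 0
  set Q : ℝ := ∫ t in (0:ℝ)..T, ∫ z in D.carrier, normSq (al σ u t z) with hQ
  -- energy
  have h1 := h.energy_area hn hR hT
  have h2 := h.int_area_zero hn hR hT
  set c : ℝ := (a + b) / 2 with hc
  have h3 : -∫ z in D.carrier, CG.area σ u φ T z * (curlE (al σ u 0) z - c * σ z) = Q := by
    have e1 : ∫ z in D.carrier, CG.area σ u φ T z * (curlE (al σ u 0) z - c * σ z) =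
        (∫ z in D.carrier, CG.area σ u φ T z * curlE (al σ u 0) z) -
          c * ∫ z in D.carrier, CG.area σ u φ T z * σ z := by
      have k1 : Continuous fun z => CG.area σ u φ T z * curlE (al σ u 0) z := hA.mul hcu
      have k2 : Continuous fun z => c * (CG.area σ u φ T z * σ z) :=
        continuous_const.mul (hA.mul hσ)
      rw [← integral_const_mul, ← integral_sub (setInt k1) (setInt k2)]
      refine integral_congr_ae (Eventually.of_forall fun z => ?_)
      simp only
      ring
    rw [e1, h1, h2]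
    simp [hQ]
  -- estimates
  have gk : GC fun t z => σ (φ t z) * normSq (u t (φ t z)) :=
    Continuous.mul (hσ.comp h.c1φ.gc) (continuous_normSq.comp (h.gc_comp h.G1u.gc))
  have gkσ : GC fun t z => σ (φ t z) * normSq (u t (φ t z)) * σ z := Continuous.mul gk h.gcσ
  have h4 : ∫ z in D.carrier, (∫ t in (0:ℝ)..T, σ (φ t z) * normSq (u t (φ t z))) * σ z = Q := by
    have e1 : ∀ z, (∫ t in (0:ℝ)..T, σ (φ t z) * normSq (u t (φ t z))) * σ z =
        ∫ t in (0:ℝ)..T, σ (φ t z) * normSq (u t (φ t z)) * σ z := fun z =>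
      (intervalIntegral.integral_mul_const _ _).symm
    simp only [e1]
    rw [gkσ.fubini D.isCompact]
    refine intervalIntegral.integral_congr fun t _ => ?_
    refine (h.change t fun w => σ w * normSq (u t w)).trans ?_
    refine integral_congr_ae (Eventually.of_forall fun z => ?_)
    simp only [al, map_mul, normSq_ofReal]
    ring
  have hba : 0 ≤ b - a := by
    have h5 := hab z hz
    have h6 := h.met.pos z hz
    have h7 : a * σ z ≤ b * σ z := h5.1.trans h5.2
    have := le_of_mul_le_mul_right h7 h6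
    linarith
  have hpi := Real.pi_pos
  have h5 : Q ≤ (b - a) / 2 * (T / (4 * Real.pi)) * Q := by
    have e1 : ∀ z ∈ D.carrier, -(CG.area σ u φ T z * (curlE (al σ u 0) z - c * σ z)) ≤
        (b - a) / 2 * (T / (4 * Real.pi)) *
          ((∫ t in (0:ℝ)..T, σ (φ t z) * normSq (u t (φ t z))) * σ z) := by
      intro z hz
      have k1 := h.area_le hn hR hT0 hT hF hz
      have k2 := hab z hz
      have k3 := h.met.pos z hz
      have k4 : |curlE (al σ u 0) z - c * σ z| ≤ (b - a) / 2 * σ z := by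
        rw [abs_le, hc]
        constructor <;> nlinarith [k2.1, k2.2]
      calc -(CG.area σ u φ T z * (curlE (al σ u 0) z - c * σ z))
          ≤ |CG.area σ u φ T z * (curlE (al σ u 0) z - c * σ z)| := neg_le_abs _
        _ = |CG.area σ u φ T z| * |curlE (al σ u 0) z - c * σ z| := abs_mul _ _
        _ ≤ (T / (4 * Real.pi) * ∫ t in (0:ℝ)..T, σ (φ t z) * normSq (u t (φ t z))) *
            ((b - a) / 2 * σ z) := by
            refine mul_le_mul k1 k4 (abs_nonneg _) ((abs_nonneg _).trans k1)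
        _ = _ := by ring
    have c1 : Continuous fun z => -(CG.area σ u φ T z * (curlE (al σ u 0) z - c * σ z)) :=
      (hA.mul (hcu.sub (continuous_const.mul hσ))).neg
    have c2 : Continuous fun z => (b - a) / 2 * (T / (4 * Real.pi)) *
        ((∫ t in (0:ℝ)..T, σ (φ t z) * normSq (u t (φ t z))) * σ z) :=
      continuous_const.mul ((gk.continuous_integral 0 T).mul hσ)
    have e2 := setIntegral_mono_on (setInt c1) (setInt c2) D.measurableSet e1
    rw [integral_neg, h3, integral_const_mul, h4] at e2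
    exact e2
  have hQ0 : Q = T * ∫ z in D.carrier, normSq (al σ u 0 z) := by
    have e1 : ∀ t, ∫ z in D.carrier, normSq (al σ u t z) =
        ∫ z in D.carrier, normSq (al σ u 0 z) := by
      intro t
      have e2 := h.energy hR t
      have e3 : ∀ s, ∫ z in D.carrier, kin σ u s z * σ z =
          (1 / 2) * ∫ z in D.carrier, normSq (al σ u s z) := by
        intro s
        rw [← integral_const_mul]
        refine integral_congr_ae (Eventually.of_forall fun z => ?_)
        simp only [kin, al, map_mul, normSq_ofReal]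
        ring
      rw [e3, e3] at e2
      linarith
    rw [hQ]
    simp only [e1]
    simp
  have hE : 0 ≤ ∫ z in D.carrier, normSq (al σ u 0 z) :=
    setIntegral_nonneg D.measurableSet fun z _ => normSq_nonneg _
  have hq : (b - a) / 2 * (T / (4 * Real.pi)) < 1 := by
    rw [div_mul_div_comm, div_lt_one (by positivity)]
    linarith
  have h6 : ∫ z in D.carrier, normSq (al σ u 0 z) ≤ 0 := by
    by_contra hcon
    push Not at hcon
    have h7 : 0 < Q := by rw [hQ0]; exact mul_pos hT0 hcon
    nlinarith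
  intro z hz
  have h7 := zero_of_setIntegral hR (continuous_normSq.comp (h.G1al.gc.slice 0))
    (fun z _ => normSq_nonneg _) h6 z hz
  have h8 : al σ u 0 z = 0 := normSq_eq_zero.mp h7
  rw [al] at h8
  rcases mul_eq_zero.mp h8 with h9 | h9
  · exact absurd (ofReal_eq_zero.mp h9) (h.σne hz)
  · exact h9

end PMot

end Pool.Agent.CG
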