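import Pool.Agent.Lib.MP_35454f.QStream

/-!
# Properties of the stream function
-/

set_option autoImplicit false

open MeasureTheory Filter Topology Complex Set Metric
open scoped ContDiff Interval

namespace Pool.Agent.CG

variable {n : ℕ} {D : CircularDomain n}

/-- The stream function, zero on the outer circle and outside. -/
noncomputable def str (D : CircularDomain n) (α : ℂ → ℂ) (z : ℂ) : ℝ :=
  pot (ext0 D α) z - pot (ext0 D α) (D.R : ℂ)

namespace TanField

variable {α β : ℂ → ℂ}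

lemma str_sub (hR : 0 < D.R) (h : TanField D α) (z w : ℂ) : str D α z - str D α w =
    ∫ s in (0:ℝ)..1, crs (z - w) (ext0 D α (w + (s : ℂ) * (z - w))) := by
  rw [← h.pot_sub hR, str, str]; ring

lemma str_base (D : CircularDomain n) (α : ℂ → ℂ) : str D α (D.R : ℂ) = 0 := sub_self _

lemma str_lip (hR : 0 < D.R) (h : TanField D α) {C : ℝ}
    (hC : ∀ z, ‖ext0 D α z‖ ≤ C) (z w : ℂ) : |str D α z - str D α w| ≤ C * ‖z - w‖ := by
  rw [h.str_sub hR, ← Real.norm_eq_abs]
  refine (intervalIntegral.norm_integral_le_of_norm_le_const (C := C * ‖z - w‖)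
    fun s _ => ?_).trans ?_
  · rw [Real.norm_eq_abs, mul_comm C]
    exact (abs_crs_le _ _).trans (mul_le_mul_of_nonneg_left (hC _) (norm_nonneg _))
  · simp

lemma str_eq_of_zero (hR : 0 < D.R) (h : TanField D α) {z w : ℂ}
    (h0 : ∀ s ∈ Ioo (0:ℝ) 1, w + (s : ℂ) * (z - w) ∉ D.carrier) : str D α z = str D α w := by
  rw [← sub_eq_zero, h.str_sub hR]
  rw [intervalIntegral.integral_of_le zero_le_one, integral_Ioc_eq_integral_Ioo]
  have h1 : ∫ s in Ioo (0:ℝ) 1, crs (z - w) (ext0 D α (w + (s : ℂ) * (z - w))) =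
      ∫ s in Ioo (0:ℝ) 1, 0 := by
    refine setIntegral_congr_fun measurableSet_Ioo fun s hs => ?_
    rw [ext0_of_notMem (h0 s hs), crs_zero_right]
  rw [h1]
  exact integral_zero _ _

lemma hasFDerivAt_str (hR : 0 < D.R) (h : TanField D α) {z : ℂ} (hz : z ∈ D.inn ∨ z ∉ D.carrier) :
    HasFDerivAt (str D α) (crL (ext0 D α z)) z := by
  have hα := h.c1.continuous
  rw [hasFDerivAt_iff_isLittleO, Asymptotics.isLittleO_iff]
  intro c hc
  have h1 := (continuousAt_ext0 hα hz)
  rw [Metric.continuousAt_iff] at h1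
  obtain ⟨δ, hδ, h2⟩ := h1 c hc
  filter_upwards [ball_mem_nhds z hδ] with w hw
  have hint : IntervalIntegrable (fun s : ℝ => crs (w - z) (ext0 D α (z + (s : ℂ) * (w - z))))
      volume 0 1 := by
    obtain ⟨C, hC0, hC⟩ := exists_bound_ext0 (D := D) hα
    have hm : Measurable fun s : ℝ => crs (w - z) (ext0 D α (z + (s : ℂ) * (w - z))) := by
      refine (cont_crs continuous_const continuous_id).measurable.comp
        ((measurable_ext0 hα).comp (Continuous.measurable (by fun_prop)))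
    refine (intervalIntegrable_const (c := ‖w - z‖ * C)).mono_fun' hm.aestronglyMeasurable ?_
    refine Eventually.of_forall fun s => ?_
    simp only [Real.norm_eq_abs]
    exact (abs_crs_le _ _).trans (mul_le_mul_of_nonneg_left (hC _) (norm_nonneg _))
  have h3 : str D α w - str D α z - crL (ext0 D α z) (w - z) =
      ∫ s in (0:ℝ)..1, crs (w - z) (ext0 D α (z + (s : ℂ) * (w - z)) - ext0 D α z) := by
    rw [h.str_sub hR, crL_apply]
    simp only [crs_sub_right]
    rw [intervalIntegral.integral_sub hint intervalIntegrable_const]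
    simp
  rw [h3]
  refine (intervalIntegral.norm_integral_le_of_norm_le_const (C := c * ‖w - z‖)
    fun s hs => ?_).trans ?_
  · rw [uIoc_of_le zero_le_one] at hs
    have h4 : dist (z + (s : ℂ) * (w - z)) z < δ := by
      rw [dist_eq_norm, add_sub_cancel_left, norm_mul, norm_real, Real.norm_eq_abs,
        abs_of_pos hs.1]
      have h5 : ‖w - z‖ < δ := by rwa [← dist_eq_norm]
      have h6 := norm_nonneg (w - z)
      nlinarith [hs.2]
    have h5 := h2 h4
    rw [dist_eq_norm] at h5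
    rw [Real.norm_eq_abs, mul_comm c]
    exact (abs_crs_le _ _).trans (mul_le_mul_of_nonneg_left h5.le (norm_nonneg _))
  · simp

lemma continuous_str (hR : 0 < D.R) (h : TanField D α) : Continuous (str D α) := by
  obtain ⟨C, hC0, hC⟩ := exists_bound_ext0 (D := D) h.c1.continuous
  have : LipschitzWith ⟨C, hC0⟩ (str D α) := by
    refine LipschitzWith.of_dist_le_mul fun z w => ?_
    rw [Real.dist_eq, dist_eq_norm]
    exact h.str_lip hR hC z w
  exact this.continuous

/-- The stream function is constant on the holes. -/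
lemma str_hole (hR : 0 < D.R) (h : TanField D α) {i : Fin n} {z : ℂ}
    (hz : ‖z - D.a i‖ ≤ D.r i) : str D α z = str D α (D.a i) := by
  refine h.str_eq_of_zero hR fun s hs hmem => ?_
  have h1 := hmem.2 i
  rw [add_sub_cancel_left, norm_mul, norm_real, Real.norm_eq_abs, abs_of_pos hs.1] at h1
  have h2 := D.r_pos i
  have h3 := norm_nonneg (z - D.a i)
  nlinarith [hs.2, hs.1]

/-- on large circles -/
lemma str_circle_aux (hR : 0 < D.R) (h : TanField D α) {ρ : ℝ} (hρ : D.R < ρ) (s : ℝ) :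
    str D α (cir 0 ρ s) = str D α (cir 0 ρ 0) := by
  have hn : ∀ s, ‖cir 0 ρ s‖ = ρ := fun s => by
    have := norm_cir (hR.trans hρ) 0 s
    simpa using this
  have hnot : ∀ s, cir 0 ρ s ∉ D.carrier := fun s hs => by
    have := hs.1
    rw [hn s] at this
    linarith
  have h1 : ∀ s, HasDerivAt (fun s => str D α (cir 0 ρ s)) 0 s := by
    intro s
    have h2 := (h.hasFDerivAt_str hR (Or.inr (hnot s))).comp_hasDerivAt s (hasDerivAt_cir 0 ρ s)
    refine h2.congr_deriv ?_
    rw [crL_apply, ext0_of_notMem (hnot s), crs_zero_right]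
  exact is_const_of_deriv_eq_zero (fun s => (h1 s).differentiableAt) (fun s => (h1 s).deriv) s 0

/-- The stream function is zero on the outer circle. -/
lemma str_outer (hR : 0 < D.R) (h : TanField D α) {z : ℂ} (hz : ‖z‖ = D.R) : str D α z = 0 := by
  obtain ⟨s, hs⟩ := exists_cir (c := 0) (z := z) (ρ := D.R) (by simpa using hz)
  obtain ⟨C, hC0, hC⟩ := exists_bound_ext0 (D := D) h.c1.continuous
  have hd : ∀ ρ s, ‖cir 0 D.R s - cir 0 ρ s‖ = |D.R - ρ| := by
    intro ρ s
    have e : cir 0 D.R s - cir 0 ρ s = ((D.R - ρ : ℝ) : ℂ) * exp (s * I) := by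
      rw [cir, cir]; push_cast; ring
    rw [e, norm_mul, norm_exp_ofReal_mul_I, norm_real, Real.norm_eq_abs, mul_one]
  have hb : cir 0 D.R 0 = (D.R : ℂ) := by simp [cir]
  have key : ∀ ε : ℝ, 0 < ε → |str D α z| ≤ 2 * C * ε := by
    intro ε hε
    have h1 := h.str_circle_aux hR (ρ := D.R + ε) (by linarith) s
    have h2 := h.str_lip hR hC (cir 0 D.R s) (cir 0 (D.R + ε) s)
    have h3 := h.str_lip hR hC (cir 0 D.R 0) (cir 0 (D.R + ε) 0)
    have h4 : |D.R - (D.R + ε)| = ε := by
      rw [sub_add_cancel_left, abs_neg, abs_of_pos hε]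
    rw [hd, h4] at h2 h3
    rw [hb, str_base] at h3
    rw [← hs] at h2
    rw [h1] at h2
    rw [abs_le] at h2 h3 ⊢
    constructor <;> linarith [h2.1, h2.2, h3.1, h3.2]
  have h5 : |str D α z| ≤ 0 := by
    by_contra hcon
    push Not at hcon
    have hC1 : 0 < 2 * C + 1 := by linarith
    have h6 := key (|str D α z| / (2 * (2 * C + 1))) (by positivity)
    have h7 : 2 * C * (|str D α z| / (2 * (2 * C + 1))) ≤ |str D α z| / 2 := by
      rw [← sub_nonneg]
      have : |str D α z| / 2 - 2 * C * (|str D α z| / (2 * (2 * C + 1))) =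
          |str D α z| / (2 * (2 * C + 1)) := by
        field_simp
        ring
      rw [this]
      positivity
    linarith
  exact abs_nonpos_iff.mp h5

/-- The stream function is zero outside. -/
lemma str_outside (hR : 0 < D.R) (h : TanField D α) {z : ℂ} (hz : D.R ≤ ‖z‖) :
    str D α z = 0 := by
  have hz0 : 0 < ‖z‖ := hR.trans_le hz
  set w : ℂ := ((D.R / ‖z‖ : ℝ) : ℂ) * z with hw
  have hwn : ‖w‖ = D.R := by
    rw [hw, norm_mul, norm_real, Real.norm_eq_abs, abs_of_pos (div_pos hR hz0)]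
    field_simp
  rw [← h.str_outer hR hwn]
  rcases hz.eq_or_lt with hz1 | hz1
  · have : w = z := by
      rw [hw, ← hz1, div_self hR.ne']; simp
    rw [this]
  refine h.str_eq_of_zero hR fun s hs hmem => ?_
  have h1 := hmem.1
  have e : w + (s : ℂ) * (z - w) = ((D.R / ‖z‖ + s * (1 - D.R / ‖z‖) : ℝ) : ℂ) * z := by
    rw [hw]; push_cast; ring
  have h2 : D.R / ‖z‖ < 1 := by rwa [div_lt_one hz0]
  have h3 : 0 < D.R / ‖z‖ := div_pos hR hz0
  have h4 : 0 < s * (1 - D.R / ‖z‖) := mul_pos hs.1 (by linarith)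
  rw [e, norm_mul, norm_real, Real.norm_eq_abs, abs_of_pos (by linarith), add_mul,
    div_mul_cancel₀ _ hz0.ne'] at h1
  have h5 := mul_pos h4 hz0
  linarith

/-- dependence on the field -/
lemma str_field (hR : 0 < D.R) (hα : TanField D α) (hβ : TanField D β) {c : ℝ}
    (hc0 : 0 ≤ c) (hc : ∀ z ∈ D.carrier, ‖α z - β z‖ ≤ c) (z : ℂ) :
    |str D α z - str D β z| ≤ ‖z - D.R‖ * c := by
  have e1 := hα.str_sub hR z D.R
  have e2 := hβ.str_sub hR z D.R
  rw [str_base, sub_zero] at e1 e2
  have hint : ∀ {γ : ℂ → ℂ}, TanField D γ → IntervalIntegrable (fun s : ℝ =>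
      crs (z - D.R) (ext0 D γ (D.R + (s : ℂ) * (z - D.R)))) volume 0 1 := by
    intro γ hγ
    obtain ⟨C, hC0, hC⟩ := exists_bound_ext0 (D := D) hγ.c1.continuous
    have hm : Measurable fun s : ℝ => crs (z - D.R) (ext0 D γ (D.R + (s : ℂ) * (z - D.R))) := by
      refine (cont_crs continuous_const continuous_id).measurable.comp
        ((measurable_ext0 hγ.c1.continuous).comp (Continuous.measurable (by fun_prop)))
    refine (intervalIntegrable_const (c := ‖z - D.R‖ * C)).mono_fun' hm.aestronglyMeasurable ?_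
    refine Eventually.of_forall fun s => ?_
    simp only [Real.norm_eq_abs]
    exact (abs_crs_le _ _).trans (mul_le_mul_of_nonneg_left (hC _) (norm_nonneg _))
  rw [e1, e2, ← intervalIntegral.integral_sub (hint hα) (hint hβ), ← Real.norm_eq_abs]
  refine (intervalIntegral.norm_integral_le_of_norm_le_const (C := ‖z - D.R‖ * c)
    fun s _ => ?_).trans ?_
  · rw [← crs_sub_right, Real.norm_eq_abs]
    refine (abs_crs_le _ _).trans (mul_le_mul_of_nonneg_left ?_ (norm_nonneg _))
    by_cases hm : (D.R : ℂ) + (s : ℂ) * (z - D.R) ∈ D.carrier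
    · rw [ext0_of_mem hm, ext0_of_mem hm]
      exact hc _ hm
    · rw [ext0_of_notMem hm, ext0_of_notMem hm, sub_zero, norm_zero]
      exact hc0
  · simp

end TanField

/-- Joint continuity. -/
lemma gc_str (hR : 0 < D.R) {α : ℝ → ℂ → ℂ} (hα : GC α) (h : ∀ t, TanField D (α t)) :
    GC fun t z => str D (α t) z := by
  change Continuous fun q : ℝ × ℂ => str D (α q.1) q.2
  rw [continuous_iff_continuousAt]
  rintro ⟨t₀, z₀⟩
  rw [Metric.continuousAt_iff']
  intro ε hε
  set c := ε / (2 * (‖z₀ - D.R‖ + 2)) with hc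
  have hc0 : 0 < c := by positivity
  have h1 : ∀ᶠ t in 𝓝 t₀, ∀ z ∈ D.carrier, ‖α t z - α t₀ z‖ < c := by
    refine D.isCompact.eventually_forall_of_forall_eventually fun z _ => ?_
    have h2 : Continuous fun q : ℝ × ℂ => ‖α q.1 q.2 - α t₀ q.2‖ :=
      (Continuous.sub hα ((hα.slice t₀).comp continuous_snd)).norm
    have h3 : ‖α t₀ z - α t₀ z‖ < c := by simpa using hc0
    exact (h2.continuousAt (x := (t₀, z))).eventually (gt_mem_nhds h3)
  have h4 : ∀ᶠ z in 𝓝 z₀, |str D (α t₀) z - str D (α t₀) z₀| < ε / 2 := by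
    have := ((h t₀).continuous_str hR).continuousAt (x := z₀)
    rw [Metric.continuousAt_iff'] at this
    exact this (ε / 2) (by linarith)
  have h5 : ∀ᶠ z in 𝓝 z₀, ‖z - z₀‖ < 1 := by
    filter_upwards [ball_mem_nhds z₀ one_pos] with z hz
    rwa [← dist_eq_norm]
  filter_upwards [(Filter.Eventually.prodMk_nhds h1 (h4.and h5))] with q hq
  obtain ⟨hq1, hq2, hq3⟩ := hq
  rw [Real.dist_eq]
  have h6 := (h q.1).str_field hR (h t₀) hc0.le (fun z hz => (hq1 z hz).le) q.2
  have h7 : ‖q.2 - D.R‖ ≤ ‖z₀ - D.R‖ + 1 := by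
    have e : q.2 - (D.R : ℂ) = (z₀ - D.R) + (q.2 - z₀) := by ring
    rw [e]
    exact (norm_add_le _ _).trans (by linarith)
  have h8 : ‖q.2 - D.R‖ * c < ε / 2 := by
    have h9 : ‖q.2 - D.R‖ * c ≤ (‖z₀ - D.R‖ + 1) * c := mul_le_mul_of_nonneg_right h7 hc0.le
    have h10 : (‖z₀ - D.R‖ + 2) * c = ε / 2 := by
      rw [hc]; field_simp
    nlinarith
  calc |str D (α q.1) q.2 - str D (α t₀) z₀|
      ≤ |str D (α q.1) q.2 - str D (α t₀) q.2| + |str D (α t₀) q.2 - str D (α t₀) z₀| :=
        abs_sub_le _ _ _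
    _ < ε := by linarith

/-- derivative of a parametric integral on an open set -/
lemma hasFDerivAt_par_open {g : ℝ → ℂ → ℝ} {g' : ℝ → ℂ → ℂ →L[ℝ] ℝ} {O : Set ℂ} (hO : IsOpen O)
    (hg : GC g) (hg' : GC g') (hd : ∀ t, ∀ z ∈ O, HasFDerivAt (g t) (g' t z) z) (a b : ℝ)
    {z₀ : ℂ} (hz₀ : z₀ ∈ O) :
    HasFDerivAt (fun z => ∫ s in a..b, g s z) (∫ s in a..b, g' s z₀) z₀ := by
  obtain ⟨V, hV, C, hC⟩ := hg'.exists_bound a b z₀
  refine intervalIntegral.hasFDerivAt_integral_of_dominated_of_fderiv_le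
    (F := fun z s => g s z) (F' := fun z s => g' s z) (bound := fun _ => C)
    (Filter.inter_mem hV (hO.mem_nhds hz₀)) ?_ ?_ ?_ ?_ ?_ ?_
  · exact Eventually.of_forall fun z => (hg.slice_t z).aestronglyMeasurable
  · exact (hg.slice_t z₀).intervalIntegrable _ _
  · exact (hg'.slice_t z₀).aestronglyMeasurable
  · exact Eventually.of_forall fun t ht z hz => hC t (uIoc_subset_uIcc ht) z hz.1
  · exact intervalIntegrable_const
  · exact Eventually.of_forall fun t _ z hz => hd t z hz.2

end Pool.Agent.CG
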