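import Pool.Agent.Lib.MP_35454f.PBd

/-!
# Stream functions of divergence free fields tangent to the boundary
-/

set_option autoImplicit false

open MeasureTheory Filter Topology Complex Set Metric
open scoped ContDiff Interval Convolution

namespace Pool.Agent.CG

variable {n : ℕ}

/-- cross product -/
def crs (z w : ℂ) : ℝ := z.re * w.im - z.im * w.re

/-- the functional `v ↦ v × b` -/
noncomputable def crL (b : ℂ) : ℂ →L[ℝ] ℝ := b.im • reCLM - b.re • imCLM

lemma crL_apply (b v : ℂ) : crL b v = crs v b := by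
  simp [crL, crs]; ring

lemma crs_add_left (a b c : ℂ) : crs (a + b) c = crs a c + crs b c := by simp [crs]; ring
lemma crs_sub_left (a b c : ℂ) : crs (a - b) c = crs a c - crs b c := by simp [crs]; ring
lemma crs_sub_right (a b c : ℂ) : crs a (b - c) = crs a b - crs a c := by simp [crs]; ring
lemma crs_zero_right (a : ℂ) : crs a 0 = 0 := by simp [crs]
lemma crs_zero_left (a : ℂ) : crs 0 a = 0 := by simp [crs]
lemma crs_smul_right (s : ℝ) (a b : ℂ) : crs a ((s : ℂ) * b) = s * crs a b := by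
  simp [crs]; ring
lemma crs_smul_left (s : ℝ) (a b : ℂ) : crs ((s : ℂ) * a) b = s * crs a b := by
  simp [crs]; ring

lemma abs_crs_le (z w : ℂ) : |crs z w| ≤ ‖z‖ * ‖w‖ := by
  have h1 : crs z w = (starRingEnd ℂ z * w).im := by simp [crs]; ring
  rw [h1]
  refine (abs_im_le_norm _).trans ?_
  rw [norm_mul, RCLike.norm_conj]

lemma continuous_crs : Continuous fun q : ℂ × ℂ => crs q.1 q.2 := by
  unfold crs; fun_prop

lemma cont_crs {X : Type*} [TopologicalSpace X] {f g : X → ℂ} (hf : Continuous f)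
    (hg : Continuous g) : Continuous fun x => crs (f x) (g x) :=
  continuous_crs.comp (hf.prodMk hg)

/-- `crL` as a continuous linear map -/
noncomputable def crLL : ℂ →L[ℝ] (ℂ →L[ℝ] ℝ) :=
  imCLM.smulRight reCLM - reCLM.smulRight imCLM

lemma crLL_apply (b : ℂ) : crLL b = crL b := by
  ext v
  simp [crLL, crL]

lemma continuous_crL : Continuous crL := by
  have h : crL = fun b => crLL b := by ext1 b; rw [crLL_apply]
  rw [h]
  exact crLL.continuous

/-! ### Fields -/

/-- divergence free fields tangent to the boundary -/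
structure TanField (D : CircularDomain n) (α : ℂ → ℂ) : Prop where
  c1 : ContDiff ℝ 1 α
  div : ∀ z ∈ D.carrier, divE α z = 0
  tan : ∀ c ρ, IsCircle D c ρ → ∀ z, ‖z - c‖ = ρ → dot (α z) (z - c) = 0

variable {D : CircularDomain n}

lemma PMot.tanField {σ : ℂ → ℝ} {u : ℝ → ℂ → ℂ} {p : ℝ → ℂ → ℝ} {φ : ℝ → ℂ → ℂ}
    (h : PMot D σ u p φ) (t : ℝ) : TanField D (al σ u t) where
  c1 := h.G1al.slice t
  div := fun _ hz => h.div_al t hz
  tan := fun _ _ hc _ hz => h.al_tangent hc t hz

lemma TanField.weak (hR : 0 < D.R) {α : ℂ → ℂ} (h : TanField D α) {f : ℂ → ℝ}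
    (hf : ContDiff ℝ 1 f) : ∫ z in D.carrier, fderiv ℝ f z (α z) = 0 := by
  have h1 := div_zero' hR (V := fun z => (f z : ℂ) * α z)
    ((ofRealCLM.contDiff.comp hf).mul h.c1) fun c ρ hc z hz => by
      rw [dot_smul_left, h.tan c ρ hc z hz, mul_zero]
  rw [← h1]
  refine setIntegral_congr_fun D.measurableSet fun z hz => ?_
  rw [divE_mul (hf.differentiable one_ne_zero z) (h.c1.differentiable one_ne_zero z),
    h.div z hz, mul_zero, add_zero]

/-- the field, extended by zero -/
noncomputable def ext0 (D : CircularDomain n) (α : ℂ → ℂ) : ℂ → ℂ := D.carrier.indicator α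

lemma ext0_of_mem {α : ℂ → ℂ} {z : ℂ} (hz : z ∈ D.carrier) : ext0 D α z = α z :=
  indicator_of_mem hz _

lemma ext0_of_notMem {α : ℂ → ℂ} {z : ℂ} (hz : z ∉ D.carrier) : ext0 D α z = 0 :=
  indicator_of_notMem hz _

lemma measurable_ext0 {α : ℂ → ℂ} (hα : Continuous α) : Measurable (ext0 D α) :=
  hα.measurable.indicator D.measurableSet

lemma integrable_ext0 {α : ℂ → ℂ} (hα : Continuous α) : Integrable (ext0 D α) :=
  (integrable_indicator_iff D.measurableSet).mpr
    (hα.continuousOn.integrableOn_compact D.isCompact)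

lemma exists_bound_ext0 {α : ℂ → ℂ} (hα : Continuous α) :
    ∃ C, 0 ≤ C ∧ ∀ z, ‖ext0 D α z‖ ≤ C := by
  obtain ⟨C, hC⟩ := D.isCompact.exists_bound_of_continuousOn hα.continuousOn
  refine ⟨max C 0, le_max_right _ _, fun z => ?_⟩
  by_cases hz : z ∈ D.carrier
  · rw [ext0_of_mem hz]
    exact (hC z hz).trans (le_max_left _ _)
  · rw [ext0_of_notMem hz, norm_zero]
    exact le_max_right _ _

lemma continuousAt_ext0 {α : ℂ → ℂ} (hα : Continuous α) {z : ℂ}
    (hz : z ∈ D.inn ∨ z ∉ D.carrier) : ContinuousAt (ext0 D α) z := by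
  rcases hz with hz | hz
  · refine (hα.continuousAt (x := z)).congr ?_
    filter_upwards [D.isOpen_inn.mem_nhds hz] with w hw
    rw [ext0_of_mem (D.inn_subset hw)]
  · refine (continuousAt_const (y := (0:ℂ))).congr ?_
    filter_upwards [D.isClosed.isOpen_compl.mem_nhds hz] with w hw
    rw [ext0_of_notMem hw]

/-! ### Mollification -/

lemma hasFDerivAt_moll {g : ℂ → ℂ} (hg : LocallyIntegrable g) {ρ : ℂ → ℝ} (hρ : ContDiff ℝ 1 ρ)
    (hρc : HasCompactSupport ρ) (x : ℂ) : ∃ L : ℂ →L[ℝ] ℂ,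
    HasFDerivAt (ρ ⋆[ContinuousLinearMap.lsmul ℝ ℝ, volume] g) L x ∧
      ∀ v, L v = ∫ t, (fderiv ℝ ρ (x - t) v) • g t := by
  have h1 := hρc.hasFDerivAt_convolution_right (ContinuousLinearMap.lsmul ℝ ℝ (E := ℂ)).flip
    (μ := (volume : Measure ℂ)) hg hρ x
  rw [convolution_flip] at h1
  refine ⟨_, h1, fun v => ?_⟩
  rw [convolution_precompR_apply _ hg (hρc.fderiv ℝ) (hρ.continuous_fderiv one_ne_zero)]
  rfl

lemma contDiff_moll {g : ℂ → ℂ} (hg : LocallyIntegrable g) {ρ : ℂ → ℝ} (hρ : ContDiff ℝ 1 ρ)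
    (hρc : HasCompactSupport ρ) :
    ContDiff ℝ 1 (ρ ⋆[ContinuousLinearMap.lsmul ℝ ℝ, volume] g) :=
  hρc.contDiff_convolution_left (n := 1) (ContinuousLinearMap.lsmul ℝ ℝ) hρ hg

lemma TanField.div_moll (hR : 0 < D.R) {α : ℂ → ℂ} (h : TanField D α) {ρ : ℂ → ℝ}
    (hρ : ContDiff ℝ 1 ρ) (hρc : HasCompactSupport ρ) (x : ℂ) :
    divE (ρ ⋆[ContinuousLinearMap.lsmul ℝ ℝ, volume] (ext0 D α)) x = 0 := by
  have hα := h.c1.continuous
  obtain ⟨L, hL, hLv⟩ := hasFDerivAt_moll (integrable_ext0 (D := D) hα).locallyIntegrable hρ hρc x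
  have hd : Continuous fun t => fderiv ℝ ρ (x - t) :=
    (hρ.continuous_fderiv one_ne_zero).comp (continuous_const.sub continuous_id)
  have e1 : ∀ v, ∫ t, (fderiv ℝ ρ (x - t) v) • ext0 D α t =
      ∫ t in D.carrier, (fderiv ℝ ρ (x - t) v) • α t := by
    intro v
    rw [← integral_indicator D.measurableSet]
    refine integral_congr_ae (Eventually.of_forall fun t => ?_)
    by_cases ht : t ∈ D.carrier
    · simp only [indicator_of_mem ht, ext0_of_mem ht]
    · simp only [indicator_of_notMem ht, ext0_of_notMem ht, smul_zero]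
  have hi : ∀ v, Integrable (fun t => (fderiv ℝ ρ (x - t) v) • α t) (volume.restrict D.carrier) :=
    fun v => (((hd.clm_apply continuous_const).smul hα).continuousOn).integrableOn_compact
      D.isCompact
  have e2 : (∫ t in D.carrier, (fderiv ℝ ρ (x - t) 1) • α t).re =
      ∫ t in D.carrier, (fderiv ℝ ρ (x - t) 1) * (α t).re := by
    have h1 := reCLM.integral_comp_comm (hi 1)
    simp only [reCLM_apply, smul_re, smul_eq_mul] at h1
    exact h1.symm
  have e3 : (∫ t in D.carrier, (fderiv ℝ ρ (x - t) I) • α t).im =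
      ∫ t in D.carrier, (fderiv ℝ ρ (x - t) I) * (α t).im := by
    have h1 := imCLM.integral_comp_comm (hi I)
    simp only [imCLM_apply, smul_im, smul_eq_mul] at h1
    exact h1.symm
  have hf : ContDiff ℝ 1 fun t => ρ (x - t) := hρ.comp (contDiff_const.sub contDiff_id)
  have e4 : ∀ t v, fderiv ℝ (fun t => ρ (x - t)) t v = - fderiv ℝ ρ (x - t) v := by
    intro t v
    have h1 : HasFDerivAt (fun t : ℂ => x - t) (-ContinuousLinearMap.id ℝ ℂ) t := by
      have := (hasFDerivAt_id (𝕜 := ℝ) t).const_sub x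
      exact this
    have h2 := ((hρ.differentiable one_ne_zero (x - t)).hasFDerivAt).comp t h1
    have h3 : (fun t => ρ (x - t)) = ρ ∘ fun t => x - t := rfl
    rw [h3, h2.fderiv]
    simp
  have h5 := h.weak hR hf
  rw [divE, hL.fderiv, hLv, hLv, e1, e1, e2, e3, ← integral_add]
  · rw [← neg_eq_zero, ← integral_neg, ← h5]
    refine integral_congr_ae (Eventually.of_forall fun t => ?_)
    simp only
    rw [e4, rlin (fderiv ℝ ρ (x - t)) (α t)]
    ring
  · exact (((hd.clm_apply continuous_const).mul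
      (continuous_re.comp hα)).continuousOn).integrableOn_compact D.isCompact
  · exact (((hd.clm_apply continuous_const).mul
      (continuous_im.comp hα)).continuousOn).integrableOn_compact D.isCompact

/-! ### The Poincare lemma -/

/-- The potential, from the origin. -/
noncomputable def pot (β : ℂ → ℂ) (z : ℂ) : ℝ := ∫ s in (0:ℝ)..1, crs z (β ((s : ℂ) * z))

lemma crs_trace {L : ℂ →L[ℝ] ℂ} (hL : (L 1).re + (L I).im = 0) (v z : ℂ) :
    crs z (L v) = crs v (L z) := by
  have hv : ∀ w : ℂ, L w = ((w.re : ℝ) : ℂ) * L 1 + ((w.im : ℝ) : ℂ) * L I := by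
    intro w
    have h : w = w.re • (1:ℂ) + w.im • I := by apply Complex.ext <;> simp
    conv_lhs => rw [h]
    rw [map_add, map_smul, map_smul, real_smul, real_smul]
  rw [hv v, hv z]
  have h2 : (L I).im = - (L 1).re := by linarith
  simp only [crs, add_re, add_im, re_ofReal_mul, im_ofReal_mul, h2]
  ring

lemma hasFDerivAt_pot {β : ℂ → ℂ} (hβ : ContDiff ℝ 1 β) (hd : ∀ z, divE β z = 0) (z : ℂ) :
    HasFDerivAt (pot β) (crL (β z)) z := by
  have hfd : Continuous (fderiv ℝ β) := hβ.continuous_fderiv one_ne_zero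
  have hβc := hβ.continuous
  -- the integrand and its derivative
  set g : ℝ → ℂ → ℝ := fun s z => crs z (β ((s : ℂ) * z)) with hg
  set g' : ℝ → ℂ → ℂ →L[ℝ] ℝ := fun s z =>
    crL (β ((s : ℂ) * z)) + s • crL (fderiv ℝ β ((s : ℂ) * z) z) with hg'
  have hgc : GC g := by
    refine cont_crs continuous_snd (hβc.comp ?_)
    exact (continuous_ofReal.comp continuous_fst).mul continuous_snd
  have hgc' : GC g' := by
    refine Continuous.add (continuous_crL.comp (hβc.comp ?_))
      (continuous_fst.smul (continuous_crL.comp ((hfd.comp ?_).clm_apply continuous_snd)))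
    · exact (continuous_ofReal.comp continuous_fst).mul continuous_snd
    · exact (continuous_ofReal.comp continuous_fst).mul continuous_snd
  have hgd : ∀ s z, HasFDerivAt (g s) (g' s z) z := by
    intro s z
    have h1 : HasFDerivAt (fun z : ℂ => (s : ℂ) * z) (s • ContinuousLinearMap.id ℝ ℂ) z := by
      have h0 := (hasFDerivAt_id (𝕜 := ℝ) z).const_smul s
      refine (h0.congr_of_eventuallyEq ?_)
      exact Eventually.of_forall fun w => by simp [real_smul]
    have h2 := ((hβ.differentiable one_ne_zero ((s : ℂ) * z)).hasFDerivAt).comp z h1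
    have hre : HasFDerivAt (fun z : ℂ => z.re) reCLM z := reCLM.hasFDerivAt
    have him : HasFDerivAt (fun z : ℂ => z.im) imCLM z := imCLM.hasFDerivAt
    have h3 := reCLM.hasFDerivAt.comp z h2
    have h4 := imCLM.hasFDerivAt.comp z h2
    have h5 := (hre.fun_mul h4).fun_sub (him.fun_mul h3)
    refine h5.congr_fderiv ?_
    ext1 v
    have htr := crs_trace (L := fderiv ℝ β ((s : ℂ) * z)) (hd _) v z
    rw [hg']
    simp only [add_apply, smul_apply, crL_apply]
    rw [← htr]
    simp [crs]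
    ring
  have h1 := hasFDerivAt_parG hgc hgc' hgd 0 1 z
  refine h1.congr_fderiv ?_
  have h2 : ∀ s : ℝ, HasDerivAt (fun s : ℝ => s • crL (β ((s : ℂ) * z))) (g' s z) s := by
    intro s
    have h3 : HasDerivAt (fun s : ℝ => (s : ℂ) * z) (1 * z) s := ofRealCLM.hasDerivAt.mul_const z
    have h4 := ((hβ.differentiable one_ne_zero ((s : ℂ) * z)).hasFDerivAt).comp_hasDerivAt s h3
    have h5 := crLL.hasFDerivAt.comp_hasDerivAt s h4
    have h6 := (hasDerivAt_id s).smul h5
    have e : (fun s : ℝ => s • crL (β ((s : ℂ) * z))) =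
        (fun x : ℝ => id x) • (⇑crLL ∘ β ∘ fun s : ℝ => (s : ℂ) * z) := by
      ext1 s
      simp only [Pi.smul_apply', Function.comp_apply, crLL_apply, id_eq]
    rw [e]
    refine h6.congr_deriv ?_
    simp only [hg', Function.comp_apply, crLL_apply, one_mul, id_eq, one_smul]
    rw [add_comm]
  rw [intervalIntegral.integral_eq_sub_of_hasDerivAt (fun s _ => h2 s)
    ((hgc'.slice_t z).intervalIntegrable _ _)]
  simp

lemma pot_sub {β : ℂ → ℂ} (hβ : ContDiff ℝ 1 β) (hd : ∀ z, divE β z = 0) (z w : ℂ) :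
    pot β z - pot β w = ∫ s in (0:ℝ)..1, crs (z - w) (β (w + (s : ℂ) * (z - w))) := by
  have h1 : ∀ s : ℝ, HasDerivAt (fun s : ℝ => pot β (w + (s : ℂ) * (z - w)))
      (crs (z - w) (β (w + (s : ℂ) * (z - w)))) s := by
    intro s
    have h3 : HasDerivAt (fun s : ℝ => w + (s : ℂ) * (z - w)) (1 * (z - w)) s :=
      (ofRealCLM.hasDerivAt.mul_const (z - w)).const_add w
    have h4 := (hasFDerivAt_pot hβ hd (w + (s : ℂ) * (z - w))).comp_hasDerivAt s h3
    refine h4.congr_deriv ?_
    rw [crL_apply, one_mul]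
  rw [intervalIntegral.integral_eq_sub_of_hasDerivAt (fun s _ => h1 s)]
  · simp
  · refine Continuous.intervalIntegrable (cont_crs continuous_const (hβ.continuous.comp ?_)) _ _
    fun_prop

/-! ### The limit -/

lemma quad_finite {a : ℝ} (ha : a ≠ 0) (b c : ℝ) : {s : ℝ | a * s ^ 2 + b * s + c = 0}.Finite := by
  rcases Set.eq_empty_or_nonempty {s : ℝ | a * s ^ 2 + b * s + c = 0} with h | ⟨s₁, h1⟩
  · rw [h]; exact finite_empty
  · refine (Set.toFinite {s₁, -b / a - s₁}).subset ?_
    intro s hs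
    have h1' : a * s₁ ^ 2 + b * s₁ + c = 0 := h1
    have hs' : a * s ^ 2 + b * s + c = 0 := hs
    by_cases h : s = s₁
    · left; exact h
    · right
      have h2 : (s - s₁) * (a * (s + s₁) + b) = 0 := by linear_combination hs' - h1'
      have h3 : a * (s + s₁) + b = 0 := by
        rcases mul_eq_zero.mp h2 with h4 | h4
        · exact absurd (sub_eq_zero.mp h4) h
        · exact h4
      have h4 : s = -b / a - s₁ := by
        field_simp
        linarith
      exact h4

lemma line_circle {z w : ℂ} (h : z ≠ w) (c : ℂ) (ρ : ℝ) :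
    {s : ℝ | ‖w + (s : ℂ) * (z - w) - c‖ = ρ}.Finite := by
  have ha : normSq (z - w) ≠ 0 := by
    rw [Ne, normSq_eq_zero]; exact sub_ne_zero.mpr h
  refine (quad_finite ha (2 * dot (w - c) (z - w)) (normSq (w - c) - ρ ^ 2)).subset ?_
  intro s hs
  have hs' : ‖w + (s : ℂ) * (z - w) - c‖ = ρ := hs
  have h1 : normSq (w + (s : ℂ) * (z - w) - c) = ρ ^ 2 := by
    rw [normSq_eq_norm_sq, hs']
  have h2 : normSq (w + (s : ℂ) * (z - w) - c) =
      normSq (z - w) * s ^ 2 + 2 * dot (w - c) (z - w) * s + normSq (w - c) := by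
    simp only [normSq_apply, dot, sub_re, sub_im, add_re, add_im, re_ofReal_mul, im_ofReal_mul]
    ring
  change normSq (z - w) * s ^ 2 + 2 * dot (w - c) (z - w) * s + (normSq (w - c) - ρ ^ 2) = 0
  linarith

lemma mem_bd {z : ℂ} (hz : ¬ (z ∈ D.inn ∨ z ∉ D.carrier)) :
    ‖z‖ = D.R ∨ ∃ i, ‖z - D.a i‖ = D.r i := by
  push Not at hz
  obtain ⟨h1, h2⟩ := hz
  by_contra hcon
  push Not at hcon
  exact h1 ⟨lt_of_le_of_ne h2.1 hcon.1, fun i => lt_of_le_of_ne (h2.2 i) (Ne.symm (hcon.2 i))⟩

/-- almost all points of a segment lie off the boundary -/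
lemma segment_off {z w : ℂ} (h : z ≠ w) (D : CircularDomain n) :
    {s : ℝ | ¬ (w + (s : ℂ) * (z - w) ∈ D.inn ∨ w + (s : ℂ) * (z - w) ∉ D.carrier)}.Finite := by
  have h1 : ({s : ℝ | ‖w + (s : ℂ) * (z - w) - 0‖ = D.R} ∪
      ⋃ i, {s : ℝ | ‖w + (s : ℂ) * (z - w) - D.a i‖ = D.r i}).Finite :=
    (line_circle h 0 D.R).union (finite_iUnion fun i => line_circle h (D.a i) (D.r i))
  refine h1.subset ?_
  intro s hs
  rcases mem_bd hs with h2 | ⟨i, h2⟩
  · left
    change ‖w + (s : ℂ) * (z - w) - 0‖ = D.R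
    rw [sub_zero]; exact h2
  · right
    exact mem_iUnion.mpr ⟨i, h2⟩

/-- a sequence of mollifiers -/
noncomputable def mlf (k : ℕ) : ContDiffBump (0 : ℂ) where
  rIn := 1 / (2 * ((k : ℝ) + 1))
  rOut := 1 / ((k : ℝ) + 1)
  rIn_pos := by positivity
  rIn_lt_rOut := by
    apply one_div_lt_one_div_of_lt (by positivity)
    have : (0:ℝ) ≤ k := k.cast_nonneg
    linarith

lemma tendsto_mlf : Tendsto (fun k => (mlf k).rOut) atTop (𝓝 0) :=
  tendsto_one_div_add_atTop_nhds_zero_nat

/-- the mollified field -/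
noncomputable def mol (D : CircularDomain n) (α : ℂ → ℂ) (k : ℕ) : ℂ → ℂ :=
  (mlf k).normed volume ⋆[ContinuousLinearMap.lsmul ℝ ℝ, volume] (ext0 D α)

lemma norm_mol_le {α : ℂ → ℂ} (hα : Continuous α) {C : ℝ} (hC0 : 0 ≤ C)
    (hC : ∀ z, ‖ext0 D α z‖ ≤ C) (k : ℕ) (z : ℂ) : ‖mol D α k z‖ ≤ C := by
  rw [← dist_zero_right]
  refine dist_convolution_le (R := (mlf k).rOut) hC0 ((mlf k).support_normed_eq).subset
    (fun x => (mlf k).nonneg_normed x)
    ((mlf k).integral_normed) (measurable_ext0 hα).aestronglyMeasurable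
    (fun x _ => by rw [dist_zero_right]; exact hC x)

lemma tendsto_mol {α : ℂ → ℂ} (hα : Continuous α) {z : ℂ} (hz : z ∈ D.inn ∨ z ∉ D.carrier) :
    Tendsto (fun k => mol D α k z) atTop (𝓝 (ext0 D α z)) :=
  ContDiffBump.convolution_tendsto_right (g := fun _ => ext0 D α) (k := fun _ => z) tendsto_mlf
    (Eventually.of_forall fun _ => (measurable_ext0 hα).aestronglyMeasurable)
    (by
      have h := (continuousAt_ext0 hα hz).tendsto
      exact h.comp tendsto_snd) tendsto_const_nhds

lemma tendsto_segment {α : ℂ → ℂ} (hα : Continuous α) (z w : ℂ) :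
    Tendsto (fun k => ∫ s in (0:ℝ)..1, crs (z - w) (mol D α k (w + (s : ℂ) * (z - w)))) atTop
      (𝓝 (∫ s in (0:ℝ)..1, crs (z - w) (ext0 D α (w + (s : ℂ) * (z - w))))) := by
  by_cases hzw : z = w
  · subst hzw
    simp only [sub_self, crs_zero_left, intervalIntegral.integral_zero]
    exact tendsto_const_nhds
  obtain ⟨C, hC0, hC⟩ := exists_bound_ext0 (D := D) hα
  have hcm : ∀ k, Continuous (mol D α k) := fun k =>
    (contDiff_moll (integrable_ext0 (D := D) hα).locallyIntegrable
      ((mlf k).contDiff_normed (n := 1)) ((mlf k).hasCompactSupport_normed)).continuous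
  refine intervalIntegral.tendsto_integral_filter_of_dominated_convergence
    (fun _ => ‖z - w‖ * C) ?_ ?_ intervalIntegrable_const ?_
  · refine Eventually.of_forall fun k => Continuous.aestronglyMeasurable ?_
    exact cont_crs continuous_const ((hcm k).comp (by fun_prop))
  · refine Eventually.of_forall fun k => Eventually.of_forall fun s _ => ?_
    rw [Real.norm_eq_abs]
    exact (abs_crs_le _ _).trans (mul_le_mul_of_nonneg_left (norm_mol_le hα hC0 hC k _)
      (norm_nonneg _))
  · have h1 : ∀ᵐ s : ℝ, s ∉ {s : ℝ | ¬ (w + (s : ℂ) * (z - w) ∈ D.inn ∨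
        w + (s : ℂ) * (z - w) ∉ D.carrier)} :=
      (segment_off hzw D).countable.ae_notMem _
    filter_upwards [h1] with s hs _
    have hs' : w + (s : ℂ) * (z - w) ∈ D.inn ∨ w + (s : ℂ) * (z - w) ∉ D.carrier := by
      by_contra hcon
      exact hs hcon
    exact ((continuous_crs.comp (continuous_const.prodMk continuous_id)).continuousAt
      (x := ext0 D α (w + (s : ℂ) * (z - w)))).tendsto.comp (tendsto_mol hα hs')

/-- **Stream functions**: the defining property. -/
theorem TanField.pot_sub (hR : 0 < D.R) {α : ℂ → ℂ} (h : TanField D α) (z w : ℂ) :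
    pot (ext0 D α) z - pot (ext0 D α) w =
      ∫ s in (0:ℝ)..1, crs (z - w) (ext0 D α (w + (s : ℂ) * (z - w))) := by
  have hα := h.c1.continuous
  have h0 : ∀ z, Tendsto (fun k => pot (mol D α k) z) atTop (𝓝 (pot (ext0 D α) z)) := by
    intro z
    have := tendsto_segment (D := D) hα z 0
    simpa [pot] using this
  have h1 : ∀ k, pot (mol D α k) z - pot (mol D α k) w =
      ∫ s in (0:ℝ)..1, crs (z - w) (mol D α k (w + (s : ℂ) * (z - w))) := fun k =>
    CG.pot_sub (contDiff_moll (integrable_ext0 (D := D) hα).locallyIntegrable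
      ((mlf k).contDiff_normed (n := 1)) ((mlf k).hasCompactSupport_normed))
      (fun x => h.div_moll hR ((mlf k).contDiff_normed (n := 1))
        ((mlf k).hasCompactSupport_normed) x) z w
  refine tendsto_nhds_unique ((h0 z).sub (h0 w)) ?_
  simp only [h1]
  exact tendsto_segment hα z w

end Pool.Agent.CG
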