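import Pool.Agent.Lib.MP_35454f.QUni

/-!
# Transport of vorticity
-/

set_option autoImplicit false

open MeasureTheory Filter Topology Complex Set Metric
open scoped ContDiff Interval

namespace Pool.Agent.CG

variable {n : ℕ}
variable {D : CircularDomain n} {σ : ℂ → ℝ} {u : ℝ → ℂ → ℂ} {p : ℝ → ℂ → ℝ} {φ : ℝ → ℂ → ℂ}

lemma det_eq (L : ℂ →L[ℝ] ℂ) : L.det = crs (L 1) (L I) := by
  have h := LinearMap.det_toMatrix Complex.basisOneI (L : ℂ →ₗ[ℝ] ℂ)
  rw [ContinuousLinearMap.det, ← h, Matrix.det_fin_two]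
  simp [LinearMap.toMatrix_apply, crs]
  ring

lemma fderiv_re {f : ℂ → ℂ} {z : ℂ} (hf : DifferentiableAt ℝ f z) :
    fderiv ℝ (fun z => (f z).re) z = reCLM.comp (fderiv ℝ f z) :=
  (reCLM.hasFDerivAt.comp z hf.hasFDerivAt).fderiv

lemma fderiv_im {f : ℂ → ℂ} {z : ℂ} (hf : DifferentiableAt ℝ f z) :
    fderiv ℝ (fun z => (f z).im) z = imCLM.comp (fderiv ℝ f z) :=
  (imCLM.hasFDerivAt.comp z hf.hasFDerivAt).fderiv

/-- weak form of `d (ψ^* α) = ψ^* dα` for `C¹` maps -/
lemma weak_curl {U : Set ℂ} (hU : IsOpen U) {f : ℂ → ℝ} (hf : ContDiff ℝ 1 f)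
    (hfc : HasCompactSupport f) (hfU : tsupport f ⊆ U) {α ψ : ℂ → ℂ} (hα : ContDiff ℝ 1 α)
    (hψ : ContDiff ℝ 1 ψ) :
    ∫ z, f z * (curlE α (ψ z) * (fderiv ℝ ψ z).det) =
      - ∫ z, wedge (fderiv ℝ f z) ((dotL (α (ψ z))).comp (fderiv ℝ ψ z)) := by
  have hαψ : ContDiff ℝ 1 fun z => α (ψ z) := hα.comp hψ
  have hP1 : ContDiff ℝ 1 fun z => (α (ψ z)).re := reCLM.contDiff.comp hαψ
  have hP2 : ContDiff ℝ 1 fun z => (α (ψ z)).im := imCLM.contDiff.comp hαψ
  have hQ1 : ContDiff ℝ 1 fun z => (ψ z).re := reCLM.contDiff.comp hψ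
  have hQ2 : ContDiff ℝ 1 fun z => (ψ z).im := imCLM.contDiff.comp hψ
  have e1 := integral_null hU hf hfc hfU hP1.contDiffOn hQ1.contDiffOn
  have e2 := integral_null hU hf hfc hfU hP2.contDiffOn hQ2.contDiffOn
  have hfd := hf.continuous_fderiv one_ne_zero
  have c1 : ∀ {P Q : ℂ → ℝ}, ContDiff ℝ 1 P → ContDiff ℝ 1 Q →
      Integrable fun z => f z * wedge (fderiv ℝ P z) (fderiv ℝ Q z) := by
    intro P Q hP hQ
    refine (hf.continuous.mul (Continuous.wedge (hP.continuous_fderiv one_ne_zero)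
      (hQ.continuous_fderiv one_ne_zero))).integrable_of_hasCompactSupport hfc.mul_right
  have c2 : ∀ {P Q : ℂ → ℝ}, Continuous P → ContDiff ℝ 1 Q →
      Integrable fun z => P z * wedge (fderiv ℝ f z) (fderiv ℝ Q z) := by
    intro P Q hP hQ
    refine (hP.mul (Continuous.wedge hfd
      (hQ.continuous_fderiv one_ne_zero))).integrable_of_hasCompactSupport ?_
    refine HasCompactSupport.intro (K := tsupport f) hfc fun z hz => ?_
    have h0 : f =ᶠ[𝓝 z] fun _ => 0 := notMem_tsupport_iff_eventuallyEq.mp hz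
    change P z * wedge (fderiv ℝ f z) (fderiv ℝ Q z) = 0
    rw [h0.fderiv_eq]
    simp [wedge]
  have hdψ : ∀ z, DifferentiableAt ℝ ψ z := hψ.differentiable one_ne_zero
  have hdα : ∀ z, DifferentiableAt ℝ (fun z => α (ψ z)) z := hαψ.differentiable one_ne_zero
  have hchain : ∀ z, fderiv ℝ (fun z => α (ψ z)) z =
      (fderiv ℝ α (ψ z)).comp (fderiv ℝ ψ z) := fun z =>
    ((hα.differentiable one_ne_zero (ψ z)).hasFDerivAt.comp z (hdψ z).hasFDerivAt).fderiv
  have l1 : ∀ z, f z * (curlE α (ψ z) * (fderiv ℝ ψ z).det) =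
      f z * wedge (fderiv ℝ (fun z => (α (ψ z)).re) z) (fderiv ℝ (fun z => (ψ z).re) z) +
      f z * wedge (fderiv ℝ (fun z => (α (ψ z)).im) z) (fderiv ℝ (fun z => (ψ z).im) z) := by
    intro z
    rw [fderiv_re (hdα z), fderiv_im (hdα z), fderiv_re (hdψ z), fderiv_im (hdψ z), hchain,
      det_eq, curlE]
    simp only [wedge, ContinuousLinearMap.comp_apply, reCLM_apply, imCLM_apply]
    rw [clin (fderiv ℝ α (ψ z)) (fderiv ℝ ψ z 1), clin (fderiv ℝ α (ψ z)) (fderiv ℝ ψ z I)]
    simp only [crs, add_re, add_im, re_ofReal_mul, im_ofReal_mul]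
    ring
  have l2 : ∀ z, wedge (fderiv ℝ f z) ((dotL (α (ψ z))).comp (fderiv ℝ ψ z)) =
      (α (ψ z)).re * wedge (fderiv ℝ f z) (fderiv ℝ (fun z => (ψ z).re) z) +
      (α (ψ z)).im * wedge (fderiv ℝ f z) (fderiv ℝ (fun z => (ψ z).im) z) := by
    intro z
    rw [fderiv_re (hdψ z), fderiv_im (hdψ z)]
    simp only [wedge, ContinuousLinearMap.comp_apply, reCLM_apply, imCLM_apply, dotL_apply, dot]
    ring
  simp only [l1, l2]
  rw [integral_add (c1 hP1 hQ1) (c1 hP2 hQ2), e1, e2,
    integral_add (c2 hP1.continuous hQ1) (c2 hP2.continuous hQ2)]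
  ring

namespace PMot

/-- **Transport of vorticity.** -/
theorem transport (h : PMot D σ u p φ) (t : ℝ) {z : ℂ} (hz : z ∈ D.inn) :
    curlE (al σ u t) (φ t z) * (fderiv ℝ (φ t) z).det = curlE (al σ u 0) z := by
  have hφ : ContDiff ℝ 1 (φ t) := h.c1φ.slice t
  have hα : ∀ s, ContDiff ℝ 1 (al σ u s) := h.G1al.slice
  have hcc : ∀ s, Continuous (curlE (al σ u s)) := h.gc_curl.slice
  have hdet : Continuous fun z => (fderiv ℝ (φ t) z).det := by
    simp only [det_eq]
    exact cont_crs ((hφ.continuous_fderiv one_ne_zero).clm_apply continuous_const)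
      ((hφ.continuous_fderiv one_ne_zero).clm_apply continuous_const)
  set κ : ℂ → ℝ := fun z => curlE (al σ u t) (φ t z) * (fderiv ℝ (φ t) z).det -
    curlE (al σ u 0) z with hκ
  have hκc : Continuous κ := (((hcc t).comp hφ.continuous).mul hdet).sub (hcc 0)
  have h1 : ∀ᵐ z : ℂ, z ∈ D.inn → κ z = 0 := by
    refine D.isOpen_inn.ae_eq_zero_of_integral_contDiff_smul_eq_zero
      (hκc.locallyIntegrable.locallyIntegrableOn _) fun f hf hfc hfU => ?_
    have hf1 : ContDiff ℝ 1 f := hf.of_le (by simp)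
    have e1 := weak_curl D.isOpen_inn hf1 hfc hfU (hα t) hφ
    have e2 := weak_curl D.isOpen_inn hf1 hfc hfU (hα 0) (contDiff_id (𝕜 := ℝ) (E := ℂ))
    have e3 := integral_wedge_loc D.isOpen_inn hf1 hfc hfU (h.contDiff_act t).contDiffOn
    have hid : ∀ z, fderiv ℝ (id : ℂ → ℂ) z = ContinuousLinearMap.id ℝ ℂ := fun z => fderiv_id
    have hidd : (ContinuousLinearMap.id ℝ ℂ).det = 1 := by
      rw [det_eq]
      simp [crs]
    simp only [hid, hidd, id_eq, mul_one] at e2
    have hsupp : ∀ {g : ℂ → ℂ →L[ℝ] ℝ}, Continuous g → Integrable fun z =>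
        wedge (fderiv ℝ f z) (g z) := by
      intro g hg
      refine (Continuous.wedge (hf1.continuous_fderiv one_ne_zero)
        hg).integrable_of_hasCompactSupport ?_
      refine HasCompactSupport.intro (K := tsupport f) hfc fun z hz => ?_
      have h0 : f =ᶠ[𝓝 z] fun _ => 0 := notMem_tsupport_iff_eventuallyEq.mp hz
      rw [h0.fderiv_eq]
      simp [wedge]
    have hdotL : Continuous dotL := by
      have : dotL = fun a : ℂ => a.re • reCLM + a.im • imCLM := rfl
      rw [this]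
      fun_prop
    have g1 : Continuous fun z => (dotL (al σ u t (φ t z))).comp (fderiv ℝ (φ t) z) :=
      Continuous.clm_comp (hdotL.comp ((hα t).continuous.comp hφ.continuous))
        (hφ.continuous_fderiv one_ne_zero)
    have g2 : Continuous fun z => (dotL (al σ u 0 z)).comp (ContinuousLinearMap.id ℝ ℂ) :=
      Continuous.clm_comp (hdotL.comp (hα 0).continuous) continuous_const
    have e4 : (∫ z, wedge (fderiv ℝ f z) ((dotL (al σ u t (φ t z))).comp (fderiv ℝ (φ t) z))) -
        (∫ z, wedge (fderiv ℝ f z) ((dotL (al σ u 0 z)).comp (ContinuousLinearMap.id ℝ ℂ))) =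
        ∫ z, wedge (fderiv ℝ f z) (fderiv ℝ (act σ u p φ t) z) := by
      rw [← integral_sub (hsupp g1) (hsupp g2)]
      refine integral_congr_ae (Eventually.of_forall fun z => ?_)
      simp only
      by_cases hz : z ∈ tsupport f
      · have hw := fun w => h.weber t (hfU hz) w
        simp only [wedge, ContinuousLinearMap.comp_apply, dotL_apply, hw,
          ContinuousLinearMap.id_apply]
        ring
      · have h0 : f =ᶠ[𝓝 z] fun _ => 0 := notMem_tsupport_iff_eventuallyEq.mp hz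
        rw [h0.fderiv_eq]
        simp [wedge]
    have i1 : Integrable fun z => f z * (curlE (al σ u t) (φ t z) * (fderiv ℝ (φ t) z).det) :=
      (hf.continuous.mul (((hcc t).comp hφ.continuous).mul
        hdet)).integrable_of_hasCompactSupport hfc.mul_right
    have i2 : Integrable fun z => f z * curlE (al σ u 0) z :=
      (hf.continuous.mul (hcc 0)).integrable_of_hasCompactSupport hfc.mul_right
    simp only [smul_eq_mul, hκ, mul_sub]
    rw [integral_sub i1 i2, e1, e2]
    rw [e3] at e4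
    linarith
  have h2 : EqOn κ (fun _ => 0) D.inn := by
    have h4 : κ =ᵐ[volume.restrict D.inn] fun _ => 0 :=
      (ae_restrict_iff' D.isOpen_inn.measurableSet).mpr h1
    exact Measure.eqOn_open_of_ae_eq h4 D.isOpen_inn hκc.continuousOn continuousOn_const
  have h3 := h2 hz
  exact sub_eq_zero.mp h3

/-- The sign of the vorticity is preserved. -/
theorem curl_sign (h : PMot D σ u p φ) (hR : 0 < D.R) (ε : ℝ)
    (h0 : ∀ z ∈ D.carrier, 0 ≤ ε * curlE (al σ u 0) z) (t : ℝ) {z : ℂ} (hz : z ∈ D.carrier) :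
    0 ≤ ε * curlE (al σ u t) z := by
  have hcont : Continuous fun w => curlE (al σ u t) w := h.gc_curl.slice t
  -- at the points `φ t w`, `w` in the interior
  have h1 : ∀ w ∈ D.inn, 0 ≤ ε * curlE (al σ u t) (φ t w) := by
    intro w hw
    have hwM := D.inn_subset hw
    have h2 := h.transport t hw
    have h3 := h0 w hwM
    have h4 := h.area t w hwM
    have h5 := h.met.pos w hwM
    have h6 := h.met.pos _ (h.mem t hwM)
    have h7 : 0 < (fderiv ℝ (φ t) w).det := by
      by_contra hcon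
      push Not at hcon
      nlinarith
    rw [← h2, ← mul_assoc] at h3
    exact nonneg_of_mul_nonneg_left h3 h7
  obtain ⟨w, hw, rfl⟩ := (h.bijOn t).surjOn hz
  have hcl : closure D.inn ⊆ {w | 0 ≤ ε * curlE (al σ u t) (φ t w)} :=
    closure_minimal h1 (isClosed_le continuous_const
      (continuous_const.mul (hcont.comp (h.c1φ.slice t).continuous)))
  exact hcl (D.subset_closure hR hw)

end PMot

end Pool.Agent.CG
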