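import Pool.Agent.Lib.MP_35454f.QCal

/-!
# The mean stream function of a closed motion
-/

set_option autoImplicit false

open MeasureTheory Filter Topology Complex Set Metric
open scoped ContDiff Interval NNReal

namespace Pool.Agent.CG

variable {n : ℕ}
variable {D : CircularDomain n} {σ : ℂ → ℝ} {u : ℝ → ℂ → ℂ} {p : ℝ → ℂ → ℝ} {φ : ℝ → ℂ → ℂ}

/-- The Euclidean curl. -/
noncomputable def curlE (X : ℂ → ℂ) (z : ℂ) : ℝ := (fderiv ℝ X z 1).im - (fderiv ℝ X z I).re

/-- The mean stream function. -/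
noncomputable def mst (D : CircularDomain n) (σ : ℂ → ℝ) (u : ℝ → ℂ → ℂ) (T : ℝ) (z : ℂ) : ℝ :=
  ∫ t in (0:ℝ)..T, str D (al σ u t) z

/-- The mean momentum. -/
noncomputable def mal (σ : ℂ → ℝ) (u : ℝ → ℂ → ℂ) (T : ℝ) (z : ℂ) : ℂ :=
  ∫ t in (0:ℝ)..T, al σ u t z

namespace PMot

lemma mst_lip (h : PMot D σ u p φ) (hR : 0 < D.R) (T : ℝ) :
    ∃ C : ℝ≥0, LipschitzWith C (mst D σ u T) := by
  obtain ⟨C, hC⟩ := (isCompact_uIcc.prod D.isCompact).exists_bound_of_continuousOn
    (f := fun q : ℝ × ℂ => al σ u q.1 q.2) (s := uIcc 0 T ×ˢ D.carrier)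
    (Continuous.continuousOn h.G1al.gc)
  have hC' : ∀ t ∈ uIcc 0 T, ∀ z, ‖ext0 D (al σ u t) z‖ ≤ max C 0 := by
    intro t ht z
    by_cases hz : z ∈ D.carrier
    · rw [ext0_of_mem hz]
      exact (hC (t, z) ⟨ht, hz⟩).trans (le_max_left _ _)
    · rw [ext0_of_notMem hz, norm_zero]
      exact le_max_right _ _
  have h0 : 0 ≤ max C 0 * |T - 0| := mul_nonneg (le_max_right _ _) (abs_nonneg _)
  refine ⟨⟨_, h0⟩, LipschitzWith.of_dist_le_mul fun z w => ?_⟩
  rw [Real.dist_eq, dist_eq_norm]
  have i1 : ∀ z, IntervalIntegrable (fun t => str D (al σ u t) z) volume 0 T := fun z =>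
    ((h.gc_str hR).slice_t z).intervalIntegrable _ _
  rw [mst, mst, ← intervalIntegral.integral_sub (i1 z) (i1 w), ← Real.norm_eq_abs]
  refine (intervalIntegral.norm_integral_le_of_norm_le_const (C := max C 0 * ‖z - w‖)
    fun t ht => ?_).trans ?_
  · rw [Real.norm_eq_abs]
    exact (h.tanField t).str_lip hR (hC' t (uIoc_subset_uIcc ht)) z w
  · change max C 0 * ‖z - w‖ * |T - 0| ≤ max C 0 * |T - 0| * ‖z - w‖
    apply le_of_eq
    ring

lemma mst_zero (h : PMot D σ u p φ) (hn : 2 ≤ n) (hR : 0 < D.R) {T : ℝ}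
    (hT : ∀ z ∈ D.carrier, φ T z = z) {z : ℂ} (hz : z ∉ D.inn) : mst D σ u T z = 0 := by
  by_cases h1 : ‖z‖ < D.R
  · have h2 : ∃ i, ‖z - D.a i‖ ≤ D.r i := by
      by_contra hcon
      push Not at hcon
      exact hz ⟨h1, hcon⟩
    obtain ⟨i, hi⟩ := h2
    refine (intervalIntegral.integral_congr fun t _ => ?_).trans (h.flux_zero hn hR hT i)
    exact (h.tanField t).str_hole hR hi
  · push Not at h1
    have h2 : ∀ t, str D (al σ u t) z = 0 := fun t => (h.tanField t).str_outside hR h1
    rw [mst]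
    simp [h2]

lemma hasFDerivAt_mst (h : PMot D σ u p φ) (hR : 0 < D.R) (T : ℝ) {z : ℂ} (hz : z ∈ D.inn) :
    HasFDerivAt (mst D σ u T) (crL (mal σ u T z)) z := by
  have gcr : GC fun t z => crL (al σ u t z) := continuous_crL.comp h.G1al.gc
  have h1 := hasFDerivAt_par_open (g := fun t z => str D (al σ u t) z) D.isOpen_inn
    (h.gc_str hR) gcr (fun t w hw => by
      have h2 := (h.tanField t).hasFDerivAt_str hR (Or.inl hw)
      rwa [ext0_of_mem (D.inn_subset hw)] at h2) 0 T hz
  refine h1.congr_fderiv ?_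
  have h3 := crLL.intervalIntegral_comp_comm
    ((h.G1al.gc.slice_t z).intervalIntegrable (μ := volume) 0 T)
  simp only [crLL_apply] at h3
  exact h3

lemma hasFDerivAt_mst_out (h : PMot D σ u p φ) (hn : 2 ≤ n) (hR : 0 < D.R) {T : ℝ}
    (hT : ∀ z ∈ D.carrier, φ T z = z) {z : ℂ} (hz : z ∉ D.carrier) :
    HasFDerivAt (mst D σ u T) (0 : ℂ →L[ℝ] ℝ) z := by
  refine (hasFDerivAt_const (0:ℝ) z).congr_of_eventuallyEq ?_
  filter_upwards [D.isClosed.isOpen_compl.mem_nhds hz] with w hw
  exact h.mst_zero hn hR hT fun h1 => hw (D.inn_subset h1)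

/-- The mean momentum. -/
lemma contDiff_mal (h : PMot D σ u p φ) (T : ℝ) : ContDiff ℝ 1 (mal σ u T) :=
  contDiff_parG h.G1al.gc h.G1al.gc_fderiv (fun t z => h.G1al.hasFDerivAt t z) 0 T

lemma fderiv_mal (h : PMot D σ u p φ) (T : ℝ) (z v : ℂ) :
    fderiv ℝ (mal σ u T) z v = ∫ t in (0:ℝ)..T, fderiv ℝ (al σ u t) z v := by
  have h1 := hasFDerivAt_parG h.G1al.gc h.G1al.gc_fderiv
    (fun t z => h.G1al.hasFDerivAt t z) 0 T z
  have h2 : fderiv ℝ (mal σ u T) z = ∫ t in (0:ℝ)..T, fderiv ℝ (al σ u t) z := h1.fderiv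
  rw [h2]
  exact ContinuousLinearMap.intervalIntegral_apply
    ((h.G1al.gc_fderiv.slice_t z).intervalIntegrable _ _) v

/-- `∫ σ Ψ = - ∫ b U₂` -/
lemma int_mst (h : PMot D σ u p φ) (hn : 2 ≤ n) (hR : 0 < D.R) {T : ℝ}
    (hT : ∀ z ∈ D.carrier, φ T z = z) :
    ∫ z in D.carrier, mst D σ u T z * σ z =
      - ∫ z in D.carrier, bb σ z * (mal σ u T z).im := by
  have hb := contDiff_bb h.met.contDiff
  obtain ⟨η, hη, hηc, -, hη1, -⟩ := exists_cut D.isCompact isOpen_univ (subset_univ _)
  set f : ℂ → ℝ := fun z => η z * bb σ z with hf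
  have hf1 : ContDiff ℝ 1 f := (hη.of_le (by simp)).mul hb
  have hfc : HasCompactSupport f := hηc.mul_right
  obtain ⟨C, hfL⟩ := hf1.lipschitzWith_of_hasCompactSupport hfc one_ne_zero
  obtain ⟨C', hgL⟩ := h.mst_lip hR T
  have hgc : HasCompactSupport (mst D σ u T) := by
    refine HasCompactSupport.intro D.isCompact fun z hz => ?_
    exact h.mst_zero hn hR hT fun h1 => hz (D.inn_subset h1)
  have key := hfL.integral_lineDeriv_mul_eq (μ := (volume : Measure ℂ)) hgL hgc 1
  have e1 : ∫ z, lineDeriv ℝ f z 1 * mst D σ u T z = ∫ z in D.carrier, mst D σ u T z * σ z := by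
    rw [← integral_indicator D.measurableSet]
    refine integral_congr_ae (Eventually.of_forall fun z => ?_)
    simp only
    by_cases hz : z ∈ D.carrier
    · rw [indicator_of_mem hz]
      have h1 : f =ᶠ[𝓝 z] bb σ := by
        filter_upwards [(eventually_nhdsSet_iff_forall.mp hη1) z hz] with w hw
        rw [hf]
        simp only
        rw [hw, one_mul]
      have h2 : lineDeriv ℝ f z 1 = σ z := by
        have h3 := (hb.differentiable one_ne_zero z).hasFDerivAt.congr_of_eventuallyEq h1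
        rw [h3.differentiableAt.lineDeriv_eq_fderiv, h3.fderiv, fderiv_bb_one h.met.contDiff]
      rw [h2]
      ring
    · rw [indicator_of_notMem hz, h.mst_zero hn hR hT fun h1 => hz (D.inn_subset h1), mul_zero]
  have e2 : ∫ z, lineDeriv ℝ (mst D σ u T) z (-1) * f z =
      - ∫ z in D.carrier, bb σ z * (mal σ u T z).im := by
    rw [← integral_neg, ← setIntegral_congr_set D.ae_eq,
      ← integral_indicator D.isOpen_inn.measurableSet]
    have hae : ∀ᵐ z : ℂ, z ∈ D.inn ↔ z ∈ D.carrier := D.ae_eq.mem_iff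
    refine integral_congr_ae ?_
    filter_upwards [hae] with z hz
    by_cases hz' : z ∈ D.inn
    · rw [indicator_of_mem hz']
      have h1 : f z = bb σ z := by
        have h2 := ((eventually_nhdsSet_iff_forall.mp hη1) z (D.inn_subset hz')).self_of_nhds
        rw [hf]
        simp only
        rw [h2, one_mul]
      have h3 := h.hasFDerivAt_mst hR T hz'
      rw [h1, h3.differentiableAt.lineDeriv_eq_fderiv, h3.fderiv, crL_apply]
      simp [crs]
      ring
    · rw [indicator_of_notMem hz']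
      have h3 := h.hasFDerivAt_mst_out hn hR hT fun h1 => hz' (hz.mpr h1)
      rw [h3.differentiableAt.lineDeriv_eq_fderiv, h3.fderiv]
      simp
  rw [← e1, key, e2]

/-- **The mean stream function has mean zero.** -/
theorem int_mst_zero (h : PMot D σ u p φ) (hn : 2 ≤ n) (hR : 0 < D.R) {T : ℝ}
    (hT : ∀ z ∈ D.carrier, φ T z = z) : ∫ z in D.carrier, mst D σ u T z * σ z = 0 := by
  have hb := (contDiff_bb h.met.contDiff).continuous
  have hσ := h.met.contDiff.continuous
  -- both sides of the area formula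
  have e1 : ∫ z in D.carrier, pst D σ u φ T z * σ z = ∫ z in D.carrier, mst D σ u T z * σ z := by
    have g1 : GC fun t z => str D (al σ u t) (φ t z) * σ z :=
      Continuous.mul (h.gc_comp (h.gc_str hR)) h.gcσ
    have g2 : GC fun t z => str D (al σ u t) z * σ z := Continuous.mul (h.gc_str hR) h.gcσ
    have h1 : ∀ z, pst D σ u φ T z * σ z = ∫ t in (0:ℝ)..T, str D (al σ u t) (φ t z) * σ z :=
      fun z => (intervalIntegral.integral_mul_const _ _).symm
    have h2 : ∀ z, mst D σ u T z * σ z = ∫ t in (0:ℝ)..T, str D (al σ u t) z * σ z :=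
      fun z => (intervalIntegral.integral_mul_const _ _).symm
    simp only [h1, h2]
    rw [g1.fubini D.isCompact, g2.fubini D.isCompact]
    refine intervalIntegral.integral_congr fun t _ => ?_
    exact h.change t (str D (al σ u t))
  have e2 : ∫ z in D.carrier, CG.area σ u φ T z * σ z =
      ∫ z in D.carrier, bb σ z * (mal σ u T z).im := by
    have g1 : GC fun t z => bb σ (φ t z) * (u t (φ t z)).im * σ z :=
      Continuous.mul h.gc_area h.gcσ
    have g2 : GC fun t z => bb σ z * (al σ u t z).im :=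
      (hb.comp continuous_snd).mul (continuous_im.comp h.G1al.gc)
    have h1 : ∀ z, CG.area σ u φ T z * σ z =
        ∫ t in (0:ℝ)..T, bb σ (φ t z) * (u t (φ t z)).im * σ z :=
      fun z => (intervalIntegral.integral_mul_const _ _).symm
    have h2 : ∀ z, bb σ z * (mal σ u T z).im = ∫ t in (0:ℝ)..T, bb σ z * (al σ u t z).im := by
      intro z
      rw [intervalIntegral.integral_const_mul]
      congr 1
      have h3 := imCLM.intervalIntegral_comp_comm
        ((h.G1al.gc.slice_t z).intervalIntegrable (μ := volume) 0 T)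
      exact h3.symm
    simp only [h1, h2]
    rw [g1.fubini D.isCompact, g2.fubini D.isCompact]
    refine intervalIntegral.integral_congr fun t _ => ?_
    have h3 := h.change t (fun w => bb σ w * (u t w).im)
    refine h3.trans ?_
    refine integral_congr_ae (Eventually.of_forall fun z => ?_)
    simp only [al, im_ofReal_mul]
    ring
  have e3 : ∫ z in D.carrier, CG.area σ u φ T z * σ z =
      ∫ z in D.carrier, pst D σ u φ T z * σ z := by
    refine setIntegral_congr_fun D.measurableSet fun z hz => ?_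
    rw [h.area_eq hn hR hT hz]
  have e4 := h.int_mst hn hR hT
  linarith

lemma curl_mal (h : PMot D σ u p φ) (T : ℝ) (z : ℂ) :
    curlE (mal σ u T) z = ∫ t in (0:ℝ)..T, curlE (al σ u t) z := by
  rw [curlE, h.fderiv_mal, h.fderiv_mal]
  have g : ∀ v, Continuous fun t => fderiv ℝ (al σ u t) z v := fun v =>
    (h.G1al.gc_fderiv.slice_t z).clm_apply continuous_const
  have h1 := imCLM.intervalIntegral_comp_comm ((g 1).intervalIntegrable (μ := volume) 0 T)
  have h2 := reCLM.intervalIntegral_comp_comm ((g I).intervalIntegrable (μ := volume) 0 T)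
  have h1' : (∫ t in (0:ℝ)..T, fderiv ℝ (al σ u t) z 1).im =
      ∫ t in (0:ℝ)..T, (fderiv ℝ (al σ u t) z 1).im := h1.symm
  have h2' : (∫ t in (0:ℝ)..T, fderiv ℝ (al σ u t) z I).re =
      ∫ t in (0:ℝ)..T, (fderiv ℝ (al σ u t) z I).re := h2.symm
  have i1 : IntervalIntegrable (fun t => (fderiv ℝ (al σ u t) z 1).im) volume 0 T :=
    (continuous_im.comp (g 1)).intervalIntegrable _ _
  have i2 : IntervalIntegrable (fun t => (fderiv ℝ (al σ u t) z I).re) volume 0 T :=
    (continuous_re.comp (g I)).intervalIntegrable _ _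
  rw [h1', h2', ← intervalIntegral.integral_sub i1 i2]
  rfl

lemma gc_curl (h : PMot D σ u p φ) : GC fun t z => curlE (al σ u t) z :=
  Continuous.sub (continuous_im.comp (h.G1al.gc_fderiv.clm_apply continuous_const))
    (continuous_re.comp (h.G1al.gc_fderiv.clm_apply continuous_const))

end PMot

/-- second derivative at a local maximum -/
lemma second_nonpos {f f' : ℝ → ℝ} {f'' : ℝ} (hf : ∀ᶠ s in 𝓝 (0:ℝ), HasDerivAt f (f' s) s)
    (hf' : HasDerivAt f' f'' 0) (hmax : IsLocalMax f 0) : f'' ≤ 0 := by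
  by_contra hcon
  push Not at hcon
  have h0 : HasDerivAt f (f' 0) 0 := hf.self_of_nhds
  have e : deriv f =ᶠ[𝓝 0] f' := hf.mono fun s hs => hs.deriv
  have h1 : deriv f 0 = 0 := hmax.deriv_eq_zero
  have h2 : deriv (deriv f) 0 = f'' := by
    rw [e.deriv_eq]; exact hf'.deriv
  have h3 := isLocalMin_of_deriv_deriv_pos (by rw [h2]; exact hcon) h1 h0.continuousAt
  have h4 : f =ᶠ[𝓝 0] fun _ => f 0 := by
    filter_upwards [h3, hmax] with s hs hs' using le_antisymm hs' hs
  have h5 : deriv (deriv f) 0 = 0 := by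
    have h6 : deriv f =ᶠ[𝓝 0] fun _ => 0 := by
      have := h4.deriv
      refine this.trans ?_
      exact Eventually.of_forall fun s => by simp
    rw [h6.deriv_eq]
    simp
  rw [h2] at h5
  exact hcon.ne' h5

/-- **The maximum principle.** -/
lemma max_principle {Ψ : ℂ → ℝ} {U : ℂ → ℂ} (hR : 0 < D.R) (hc : Continuous Ψ)
    (h0 : ∀ z, z ∉ D.inn → Ψ z = 0) (hd : ∀ z ∈ D.inn, HasFDerivAt Ψ (crL (U z)) z)
    (hU : ContDiff ℝ 1 U) (hcurl : ∀ z ∈ D.inn, 0 ≤ curlE U z) (z : ℂ) : Ψ z ≤ 0 := by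
  by_contra hcon
  push Not at hcon
  have hz : z ∈ D.inn := by
    by_contra h1
    rw [h0 z h1] at hcon
    exact lt_irrefl _ hcon
  set ε : ℝ := Ψ z / (2 * D.R ^ 2) with hε
  have hε0 : 0 < ε := by positivity
  have hεR : ε * D.R ^ 2 = Ψ z / 2 := by rw [hε]; field_simp
  set G : ℂ → ℝ := fun w => Ψ w + ε * normSq w with hG
  have hGc : Continuous G := hc.add (continuous_const.mul continuous_normSq)
  obtain ⟨w, hw, hmax⟩ := D.isCompact.exists_isMaxOn ⟨z, D.inn_subset hz⟩ hGc.continuousOn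
  have hGz : Ψ z ≤ G z := by
    have := mul_nonneg hε0.le (normSq_nonneg z)
    rw [hG]; simp only; linarith
  have hwz : G z ≤ G w := hmax (D.inn_subset hz)
  have hwi : w ∈ D.inn := by
    by_contra h1
    have h2 : G w ≤ Ψ z / 2 := by
      rw [hG]
      simp only
      rw [h0 w h1, zero_add, ← hεR]
      refine mul_le_mul_of_nonneg_left ?_ hε0.le
      rw [normSq_eq_norm_sq]
      exact pow_le_pow_left₀ (norm_nonneg _) hw.1 2
    linarith
  have hlm : IsLocalMax G w := by
    filter_upwards [D.isOpen_inn.mem_nhds hwi] with y hy using hmax (D.inn_subset hy)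
  -- the second derivatives
  have key : ∀ v : ℂ, crs v (fderiv ℝ U w v) + 2 * ε * normSq v ≤ 0 := by
    intro v
    have hline : ∀ s : ℝ, HasDerivAt (fun s : ℝ => w + (s : ℂ) * v) (1 * v) s := fun s =>
      (ofRealCLM.hasDerivAt.mul_const v).const_add w
    have hcl : Continuous fun s : ℝ => w + (s : ℂ) * v := by fun_prop
    have hat0 : w + ((0:ℝ) : ℂ) * v = w := by simp
    refine second_nonpos (f := fun s : ℝ => G (w + (s : ℂ) * v))
      (f' := fun s : ℝ => crs v (U (w + (s : ℂ) * v)) + ε * dot (2 * (w + (s : ℂ) * v)) v)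
      ?_ ?_ ?_
    · have h1 : ∀ᶠ s : ℝ in 𝓝 0, w + (s : ℂ) * v ∈ D.inn := by
        have h2 : Tendsto (fun s : ℝ => w + (s : ℂ) * v) (𝓝 0) (𝓝 w) := by
          have := hcl.tendsto 0
          rwa [hat0] at this
        exact h2.eventually (D.isOpen_inn.mem_nhds hwi)
      filter_upwards [h1] with s hs
      have h2 : HasFDerivAt G (crL (U (w + (s : ℂ) * v)) + ε • dotL (2 * (w + (s : ℂ) * v)))
          (w + (s : ℂ) * v) := (hd _ hs).add ((hasFDerivAt_normSq _).const_mul ε)
      have h3 := h2.comp_hasDerivAt s (hline s)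
      refine h3.congr_deriv ?_
      rw [one_mul, add_apply, smul_apply, crL_apply, dotL_apply, smul_eq_mul]
    · have hU0 : HasFDerivAt U (fderiv ℝ U (w + ((0:ℝ) : ℂ) * v)) (w + ((0:ℝ) : ℂ) * v) :=
        (hU.differentiable one_ne_zero _).hasFDerivAt
      have h2 := hU0.comp_hasDerivAt 0 (hline 0)
      have hre := reCLM.hasFDerivAt.comp_hasDerivAt 0 h2
      have him := imCLM.hasFDerivAt.comp_hasDerivAt 0 h2
      have h3 := (him.const_mul v.re).sub (hre.const_mul v.im)
      have h4 := (HasDerivAt.dot' ((hline 0).const_mul (2:ℂ)) (hasDerivAt_const (0:ℝ) v)).const_mul ε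
      refine (h3.add h4).congr_deriv ?_
      rw [hat0, one_mul]
      simp only [crs, dot, normSq_apply, reCLM_apply, imCLM_apply, mul_re, mul_im, re_ofNat,
        im_ofNat, zero_re, zero_im]
      ring
    · have h1 : Tendsto (fun s : ℝ => w + (s : ℂ) * v) (𝓝 0) (𝓝 w) := by
        have := hcl.tendsto 0
        rwa [hat0] at this
      have h2 := h1.eventually hlm
      filter_upwards [h2] with s hs
      rw [hat0]
      exact hs
  have k1 := key 1
  have k2 := key I
  have k3 := hcurl w hwi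
  simp only [curlE] at k3
  simp only [crs, one_re, one_im, I_re, I_im, normSq_one, normSq_I] at k1 k2
  linarith

end Pool.Agent.CG
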