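import Pool.Agent.Lib.MP_35454f.Area

/-!
# Rotation of material line elements
-/

set_option autoImplicit false

open MeasureTheory Filter Topology Complex Set
open UpperHalfPlane hiding I
open scoped ContDiff Manifold MatrixGroups Interval

namespace Pool.Agent.CG

variable {Γ : Subgroup SL(2, ℝ)} {F G : ℝ → ℂ → ℂ} {p : ℝ → ℂ → ℝ}

/-- twice the complex linear part of the differential -/
noncomputable def cl (F : ℝ → ℂ → ℂ) (t : ℝ) (z : ℂ) : ℂ :=
  fderiv ℝ (F t) z 1 - I * fderiv ℝ (F t) z I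

/-- The rotation rate of material line elements in the standard frame. -/
noncomputable def rr (F G : ℝ → ℂ → ℂ) (t : ℝ) (z : ℂ) : ℝ := (cl G t z / cl F t z).im

lemma C1.co_cl (h : C1 F) : CO (cl F) := by
  have h1 : ContinuousOn (fun q : ℝ × ℂ => fderiv ℝ (F q.1) q.2 1) UT :=
    h.co_fderiv.clm_apply continuousOn_const
  have h2 : ContinuousOn (fun q : ℝ × ℂ => fderiv ℝ (F q.1) q.2 I) UT :=
    h.co_fderiv.clm_apply continuousOn_const
  exact h1.sub (continuousOn_const.mul h2)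

lemma rot_alg {Xx Xy Yx Yy Px Py Qx Qy J : ℝ} (hJ : Xx * Yy - Xy * Yx = J) (hJ0 : 0 < J)
    {C C' : ℂ} (hC : C = ⟨Xx + Yy, Yx - Xy⟩) (hC' : C' = ⟨Px + Qy, Qx - Py⟩) :
    C ≠ 0 ∧ ((C' / C).im - 1 / 2 * ((Px * Xy - Py * Xx) + (Qx * Yy - Qy * Yx)) / J) ^ 2 ≤
      1 / 4 * (1 / J) ^ 2 * (((Qx * Yy - Qy * Yx) - (Px * Xy - Py * Xx)) ^ 2 +
        ((Px * Yy - Py * Yx) + (Qx * Xy - Qy * Xx)) ^ 2) := by
  set D : ℂ := ⟨Xx - Yy, Yx + Xy⟩ with hD
  set D' : ℂ := ⟨Px - Qy, Qx + Py⟩ with hD'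
  set N : ℂ := D' * C - C' * D with hN
  have hCD : normSq C - normSq D = 4 * J := by
    rw [hC, hD, normSq_apply, normSq_apply, ← hJ]; ring
  have hCpos : 0 < normSq C := by
    have := normSq_nonneg D
    linarith
  have hC0 : C ≠ 0 := normSq_pos.mp hCpos
  refine ⟨hC0, ?_⟩
  have e1 : (C' / C).im = (C' * starRingEnd ℂ C).im / normSq C := by
    rw [div_eq_mul_inv, inv_def, ← mul_assoc, im_mul_ofReal]
    rfl
  have e2 : 4 * J * (C' * starRingEnd ℂ C).im -
      2 * ((Px * Xy - Py * Xx) + (Qx * Yy - Qy * Yx)) * normSq C =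
      (starRingEnd ℂ D * starRingEnd ℂ C * N).im := by
    rw [hN, ← hJ]
    simp only [mul_im, mul_re, sub_re, sub_im, conj_re, conj_im, normSq_apply]
    rw [hC, hC', hD, hD']
    simp only
    ring
  have e3 : (C' / C).im - 1 / 2 * ((Px * Xy - Py * Xx) + (Qx * Yy - Qy * Yx)) / J =
      (starRingEnd ℂ D * starRingEnd ℂ C * N).im / (4 * J * normSq C) := by
    rw [e1, ← e2]
    have : J ≠ 0 := hJ0.ne'
    have : normSq C ≠ 0 := hCpos.ne'
    field_simp
    ring
  have e4 : normSq N = 4 * (((Qx * Yy - Qy * Yx) - (Px * Xy - Py * Xx)) ^ 2 +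
        ((Px * Yy - Py * Yx) + (Qx * Xy - Qy * Xx)) ^ 2) := by
    rw [hN, normSq_apply]
    simp only [mul_im, mul_re, sub_re, sub_im]
    rw [hC, hC', hD, hD']
    simp only
    ring
  have e5 : (starRingEnd ℂ D * starRingEnd ℂ C * N).im ^ 2 ≤ normSq D * normSq C * normSq N := by
    have h1 : (starRingEnd ℂ D * starRingEnd ℂ C * N).im ^ 2 ≤
        normSq (starRingEnd ℂ D * starRingEnd ℂ C * N) := by
      rw [normSq_apply]
      nlinarith [mul_self_nonneg (starRingEnd ℂ D * starRingEnd ℂ C * N).re]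
    rw [map_mul, map_mul, normSq_conj, normSq_conj] at h1
    exact h1
  rw [e3, div_pow]
  have hDC : normSq D ≤ normSq C := by linarith
  have e6 : normSq D * normSq C * normSq N ≤ normSq C ^ 2 * normSq N := by
    have := normSq_nonneg N
    have h7 : normSq D * normSq C ≤ normSq C ^ 2 := by nlinarith
    exact mul_le_mul_of_nonneg_right h7 this
  rw [div_le_iff₀ (by positivity)]
  have e8 : 1 / 4 * (1 / J) ^ 2 * (((Qx * Yy - Qy * Yx) - (Px * Xy - Py * Xx)) ^ 2 +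
        ((Px * Yy - Py * Yx) + (Qx * Xy - Qy * Xx)) ^ 2) * (4 * J * normSq C) ^ 2 =
        normSq C ^ 2 * normSq N := by
    rw [e4]
    have : J ≠ 0 := hJ0.ne'
    field_simp
  rw [e8]
  exact e5.trans e6

lemma Mot.rot_point (h : Mot F G) (t : ℝ) {z : ℂ} (hz : z ∈ UU) :
    cl F t z ≠ 0 ∧ (rr F G t z - 1 / 2 * rt F G t z * (z.im ^ 2 / (F t z).im ^ 2)) ^ 2 ≤
      ss F G t z := by
  have hy : 0 < z.im := hz
  have hY := h.y_pos t hz
  have hJ := h.wXY t hz
  simp only [wedge, dRe_apply, dIm_apply] at hJ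
  have hJ0 : 0 < (F t z).im ^ 2 / z.im ^ 2 := by positivity
  have hc : cl F t z = ⟨(fderiv ℝ (F t) z 1).re + (fderiv ℝ (F t) z I).im,
      (fderiv ℝ (F t) z 1).im - (fderiv ℝ (F t) z I).re⟩ := by
    apply Complex.ext <;> simp [cl]
  have hc' : cl G t z = ⟨(fderiv ℝ (G t) z 1).re + (fderiv ℝ (G t) z I).im,
      (fderiv ℝ (G t) z 1).im - (fderiv ℝ (G t) z I).re⟩ := by
    apply Complex.ext <;> simp [cl]
  have h1 := rot_alg (Px := (fderiv ℝ (G t) z 1).re) (Py := (fderiv ℝ (G t) z I).re)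
    (Qx := (fderiv ℝ (G t) z 1).im) (Qy := (fderiv ℝ (G t) z I).im) hJ hJ0 hc hc'
  refine ⟨h1.1, ?_⟩
  have h2 := h1.2
  rw [rr, rt, ss]
  simp only [wedge, dRe_apply, dIm_apply]
  have e1 : z.im ^ 2 / (F t z).im ^ 2 = 1 / ((F t z).im ^ 2 / z.im ^ 2) := by
    rw [one_div_div]
  rw [e1]
  refine le_trans (le_of_eq ?_) (h2.trans (le_of_eq ?_))
  · congr 1
    ring
  · ring

lemma Mot.co_rr (h : Mot F G) : CO (rr F G) := by
  have h1 : ContinuousOn (fun q : ℝ × ℂ => cl G q.1 q.2 / cl F q.1 q.2) UT :=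
    ContinuousOn.div h.c1G.co_cl h.c1F.co_cl fun q hq => (h.rot_point q.1 hq).1
  exact continuous_im.comp_continuousOn h1

lemma Mot.hasDerivAt_cl (h : Mot F G) (t : ℝ) {z : ℂ} (hz : z ∈ UU) :
    HasDerivAt (fun s => cl F s z) (cl G t z) t := by
  have h1 : ∀ w : ℂ, HasDerivAt (fun s => fderiv ℝ (F s) z w) (fderiv ℝ (G t) z w) t := by
    intro w
    have := ((h.hasDerivAt_fderiv t hz).clm_apply (hasDerivAt_const t w))
    simpa using this
  exact (h1 1).sub ((h1 I).const_mul I)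

/-- The total rotation of a closed motion is a multiple of `2π`. -/
lemma Mot.rot_int (h : Mot F G) {T : ℝ} (hT : ∀ z ∈ UU, F T z = F 0 z) {z : ℂ} (hz : z ∈ UU) :
    ∃ n : ℤ, ∫ t in (0:ℝ)..T, rr F G t z = n * (2 * Real.pi) := by
  set q : ℝ → ℂ := fun t => cl G t z / cl F t z with hq
  have hqc : Continuous q :=
    (h.c1G.co_cl.slice_t hz).div (h.c1F.co_cl.slice_t hz) fun t => (h.rot_point t hz).1
  have hI : ∀ t, HasDerivAt (fun t => ∫ s in (0:ℝ)..t, q s) (q t) t := fun t =>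
    intervalIntegral.integral_hasDerivAt_right (hqc.intervalIntegrable _ _)
      (hqc.stronglyMeasurableAtFilter _ _) hqc.continuousAt
  have hE : ∀ t, HasDerivAt (fun t => cl F t z * Complex.exp (-∫ s in (0:ℝ)..t, q s)) 0 t := by
    intro t
    refine ((h.hasDerivAt_cl t hz).mul (hI t).fun_neg.cexp).congr_deriv ?_
    simp only [hq]
    have := (h.rot_point t hz).1
    field_simp
    ring
  have h0 := is_const_of_deriv_eq_zero (fun t => (hE t).differentiableAt)
    (fun t => (hE t).deriv) T 0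
  simp only [intervalIntegral.integral_same, neg_zero, Complex.exp_zero, mul_one] at h0
  have h4 : F T =ᶠ[𝓝 z] F 0 := by
    filter_upwards [isOpen_UU.mem_nhds hz] with w hw using hT w hw
  have h5 : cl F T z = cl F 0 z := by
    simp only [cl, h4.fderiv_eq]
  rw [h5] at h0
  have h6 : Complex.exp (-∫ s in (0:ℝ)..T, q s) = 1 :=
    mul_left_cancel₀ (h.rot_point 0 hz).1 (by rw [h0, mul_one])
  obtain ⟨n, hn⟩ := Complex.exp_eq_one_iff.mp h6
  refine ⟨-n, ?_⟩
  have h7 := imCLM.intervalIntegral_comp_comm (hqc.intervalIntegrable (μ := volume) 0 T)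
  simp only [imCLM_apply] at h7
  rw [show (∫ t in (0:ℝ)..T, rr F G t z) = ∫ t in (0:ℝ)..T, (q t).im from rfl, h7]
  have h8 : ∫ s in (0:ℝ)..T, q s = -(n * (2 * Real.pi * I)) := by rw [← hn]; ring
  rw [h8]
  simp

/-- The total rotation does not depend on the particle. -/
lemma Mot.rot_const (h : Mot F G) {T : ℝ} (hT : ∀ z ∈ UU, F T z = F 0 z) :
    ∃ k : ℝ, ∀ z ∈ UU, ∫ t in (0:ℝ)..T, rr F G t z = k := by
  have hcont := h.co_rr.continuousOn_integral 0 T
  have hconn : IsPreconnected UU := (convex_halfSpace_im_gt 0).isPreconnected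
  have hI : (I : ℂ) ∈ UU := by simp [UU]
  refine ⟨∫ t in (0:ℝ)..T, rr F G t I, fun z hz => ?_⟩
  by_contra hne
  -- intermediate value
  have key : ∀ a ∈ UU, ∀ b ∈ UU, ¬ (∫ t in (0:ℝ)..T, rr F G t a) < ∫ t in (0:ℝ)..T, rr F G t b := by
    intro a ha b hb hlt
    obtain ⟨m, hm⟩ := h.rot_int hT ha
    obtain ⟨n, hn⟩ := h.rot_int hT hb
    have hpi := Real.pi_pos
    have hmn : m < n := by
      rw [hm, hn] at hlt
      have := lt_of_mul_lt_mul_right hlt (by positivity)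
      exact_mod_cast this
    have hmn' : (m : ℝ) + 1 ≤ n := by exact_mod_cast hmn
    have hmem : ((m : ℝ) + 1 / 2) * (2 * Real.pi) ∈
        Icc (∫ t in (0:ℝ)..T, rr F G t a) (∫ t in (0:ℝ)..T, rr F G t b) := by
      rw [hm, hn]
      constructor <;> nlinarith
    obtain ⟨c, hc, hc'⟩ := hconn.intermediate_value ha hb hcont hmem
    obtain ⟨l, hl⟩ := h.rot_int hT hc
    simp only at hc'
    rw [hl] at hc'
    have h9 : (l : ℝ) = m + 1 / 2 := by
      exact mul_right_cancel₀ (by positivity : (2 * Real.pi) ≠ 0) hc'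
    have h10 : (2 * l : ℝ) = 2 * m + 1 := by linarith
    have h11 : 2 * l = 2 * m + 1 := by exact_mod_cast h10
    omega
  rcases lt_or_gt_of_ne hne with h1 | h1
  · exact key z hz I hI h1
  · exact key I hI z hz h1

end Pool.Agent.CG
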