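import Pool.Agent.Lib.MP_35454f.Mob

/-!
# Unfolding: a cutoff function adapted to a cocompact group
-/

set_option autoImplicit false

open MeasureTheory Filter Topology Complex Set
open UpperHalfPlane hiding I
open scoped ContDiff Manifold MatrixGroups

namespace Pool.Agent.CG

/-- integrals over the upper half-plane -/
lemma integral_uhp (G : ℂ → ℝ) :
    ∫ z : ℍ, G (z : ℂ) = ∫ z in UU, G z / z.im ^ 2 := by
  have hmp : MeasurePreserving UpperHalfPlane.coe ((volume : Measure ℂ).comap UpperHalfPlane.coe)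
      ((volume : Measure ℂ).restrict (.range UpperHalfPlane.coe)) :=
    ⟨measurable_coe, by rw [measurableEmbedding_coe.map_comap]⟩
  rw [volume_def, integral_withDensity_eq_integral_smul]
  · have h := hmp.integral_comp measurableEmbedding_coe (fun z : ℂ => G z / z.im ^ 2)
    rw [UpperHalfPlane.range_coe] at h
    rw [show UU = UpperHalfPlane.upperHalfPlaneSet from rfl, ← h]
    congr 1
    ext z
    rw [NNReal.smul_def]
    simp
    ring
  · apply Measurable.pow_const
    apply Measurable.const_div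
    exact (UpperHalfPlane.continuous_im.measurable).subtype_mk

lemma integral_smul_uhp (g : SL(2, ℝ)) (f : ℍ → ℝ) : ∫ z : ℍ, f (g • z) = ∫ z : ℍ, f z := by
  have : ∀ z : ℍ, g • z = (Matrix.SpecialLinearGroup.mapGL ℝ g) • z := fun z => rfl
  simp only [this]
  exact integral_smul_eq_self f

lemma continuous_mobH (g : SL(2, ℝ)) : Continuous fun z : ℍ => mob g (z : ℂ) := by
  simp only [← coe_smul_eq]
  exact continuous_coe.comp (continuous_const_smul g)

lemma preimage_compact {K : Set ℂ} (hK : IsCompact K) (hKU : K ⊆ UU) :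
    IsCompact (UpperHalfPlane.coe ⁻¹' K) := by
  have h := isOpenEmbedding_coe.isInducing.isCompact_preimage_iff (K := K) ?_
  · exact h.mpr hK
  · rw [UpperHalfPlane.range_coe]
    exact hKU

/-- The set of group elements moving `L` to meet `K`. -/
lemma finite_set (Γ : Subgroup SL(2, ℝ)) [ProperlyDiscontinuousSMul Γ ℍ] {L K : Set ℍ}
    (hL : IsCompact L) (hK : IsCompact K) :
    Set.Finite {g : Γ | ∃ z ∈ L, g • z ∈ K} := by
  refine (ProperlyDiscontinuousSMul.finite_disjoint_inter_image (Γ := Γ) hL hK).subset ?_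
  rintro g ⟨z, hz, hz'⟩
  exact ⟨g • z, ⟨z, hz, rfl⟩, hz'⟩

lemma exists_nhd {Γ : Subgroup SL(2, ℝ)} [ProperlyDiscontinuousSMul Γ ℍ] {b : ℂ → ℝ}
    (hbc : HasCompactSupport b) (hbU : tsupport b ⊆ UU) {z₀ : ℂ} (hz₀ : z₀ ∈ UU) :
    ∃ S : Finset Γ, ∀ᶠ z in 𝓝 z₀, ∀ g : Γ, g ∉ S → b (mob g z) = 0 := by
  obtain ⟨L, hL, hLn⟩ := exists_compact_mem_nhds (⟨z₀, hz₀⟩ : ℍ)
  have hfin := finite_set Γ hL (preimage_compact hbc hbU)
  refine ⟨hfin.toFinset, ?_⟩
  have h1 : UpperHalfPlane.coe '' L ∈ 𝓝 z₀ :=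
    isOpenEmbedding_coe.image_mem_nhds.mpr hLn
  filter_upwards [h1] with z hz g hg
  obtain ⟨w, hw, rfl⟩ := hz
  by_contra hne
  apply hg
  rw [Set.Finite.mem_toFinset]
  refine ⟨w, hw, ?_⟩
  change ((g • w : ℍ) : ℂ) ∈ tsupport b
  rw [show (g • w : ℍ) = (g : SL(2, ℝ)) • w from rfl, coe_smul_eq]
  exact subset_tsupport _ hne

/-- The averaged function. -/
noncomputable def avg (Γ : Subgroup SL(2, ℝ)) (b : ℂ → ℝ) (z : ℂ) : ℝ := ∑ᶠ g : Γ, b (mob g z)

lemma avg_eq_sum {Γ : Subgroup SL(2, ℝ)} {b : ℂ → ℝ} {z : ℂ} {S : Finset Γ}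
    (h : ∀ g : Γ, g ∉ S → b (mob g z) = 0) : avg Γ b z = ∑ g ∈ S, b (mob g z) := by
  rw [avg]
  refine finsum_eq_sum_of_support_subset _ ?_
  intro g hg
  by_contra hgS
  exact hg (h g hgS)

lemma contDiffAt_avg {Γ : Subgroup SL(2, ℝ)} [ProperlyDiscontinuousSMul Γ ℍ] {b : ℂ → ℝ}
    (hb : ContDiff ℝ ∞ b) (hbc : HasCompactSupport b) (hbU : tsupport b ⊆ UU) {z₀ : ℂ}
    (hz₀ : z₀ ∈ UU) : ContDiffAt ℝ ∞ (avg Γ b) z₀ := by
  obtain ⟨S, hS⟩ := exists_nhd (Γ := Γ) hbc hbU hz₀
  have h1 : avg Γ b =ᶠ[𝓝 z₀] fun z => ∑ g ∈ S, b (mob g z) := by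
    filter_upwards [hS] with z hz using avg_eq_sum hz
  refine ContDiffAt.congr_of_eventuallyEq ?_ h1
  refine ContDiffAt.sum fun g _ => ?_
  exact hb.contDiffAt.comp z₀ (contDiffAt_mob _ hz₀)

lemma avg_mob {Γ : Subgroup SL(2, ℝ)} {b : ℂ → ℝ} {h : SL(2, ℝ)} (hh : h ∈ Γ) {z : ℂ}
    (hz : z ∈ UU) : avg Γ b (mob h z) = avg Γ b z := by
  rw [avg, avg, ← finsum_comp_equiv (Equiv.mulRight (⟨h, hh⟩ : Γ)) (f := fun g : Γ => b (mob g z))]
  refine finsum_congr fun g => ?_
  rw [Equiv.coe_mulRight, Subgroup.coe_mul, mob_mul _ _ hz]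

lemma avg_pos {Γ : Subgroup SL(2, ℝ)} [ProperlyDiscontinuousSMul Γ ℍ] {b : ℂ → ℝ}
    (hbc : HasCompactSupport b) (hbU : tsupport b ⊆ UU) (hb0 : ∀ z, 0 ≤ b z) {z : ℂ}
    (hz : z ∈ UU) (hg : ∃ g ∈ Γ, 0 < b (mob g z)) : 0 < avg Γ b z := by
  obtain ⟨S, hS⟩ := exists_nhd (Γ := Γ) hbc hbU hz
  have hS' := hS.self_of_nhds
  rw [avg_eq_sum hS']
  obtain ⟨g, hg, hg'⟩ := hg
  refine Finset.sum_pos' (fun g _ => hb0 _) ⟨⟨g, hg⟩, ?_, hg'⟩
  by_contra hgS
  have := hS' ⟨g, hg⟩ hgS
  simp at this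
  linarith

/-- **Cutoff function adapted to a cocompact group**: integrals of `dχ ∧ β` vanish for every
continuous invariant one-form `β`. -/
theorem exists_chi (Γ : Subgroup SL(2, ℝ)) [ProperlyDiscontinuousSMul Γ ℍ]
    (hK : ∃ K : Set ℍ, IsCompact K ∧ ∀ z : ℍ, ∃ g ∈ Γ, g • z ∈ K) :
    ∃ χ : ℂ → ℝ, ContDiff ℝ 1 χ ∧ HasCompactSupport χ ∧ tsupport χ ⊆ UU ∧ (∀ z, 0 ≤ χ z) ∧
      (∀ z ∈ UU, ∃ g ∈ Γ, 0 < χ (mob g z)) ∧
      ∀ β : ℂ → ℂ →L[ℝ] ℝ, ContinuousOn β UU → InvForm Γ β →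
        ∫ z, wedge (fderiv ℝ χ z) (β z) = 0 := by
  obtain ⟨K, hK, hcov⟩ := hK
  obtain ⟨b, hb, hbc, hbU, hb1, hb01⟩ := exists_cut (hK.image continuous_coe) isOpen_UU
    (by rintro _ ⟨z, -, rfl⟩; exact coe_mem_UU z)
  have hb0 : ∀ z, 0 ≤ b z := fun z => (hb01 z).1
  have hbg : ∀ z ∈ UU, ∃ g ∈ Γ, 0 < b (mob g z) := by
    intro z hz
    obtain ⟨g, hg, hgz⟩ := hcov ⟨z, hz⟩
    refine ⟨g, hg, ?_⟩
    have : b (mob g z) = 1 := by
      have h2 := (eventually_nhdsSet_iff_forall.mp hb1) (mob g z) ?_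
      · exact h2.self_of_nhds
      · exact ⟨g • ⟨z, hz⟩, hgz, coe_smul_eq g _⟩
    rw [this]; exact one_pos
  have hA : ∀ z ∈ UU, 0 < avg Γ b z := fun z hz => avg_pos hbc hbU hb0 hz (hbg z hz)
  set χ : ℂ → ℝ := fun z => b z * (avg Γ b z)⁻¹ with hχ
  have hinvC : ContDiffOn ℝ 1 (fun z => (avg Γ b z)⁻¹) UU := by
    intro z hz
    have := ((contDiffAt_avg hb hbc hbU hz).of_le (by simp : (1 : ℕ∞ω) ≤ ∞)).inv (hA z hz).ne'
    exact this.contDiffWithinAt
  have hχC : ContDiff ℝ 1 χ := contDiff_mul_loc isOpen_UU (hb.of_le (by simp)) hbU hinvC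
  have hχc : HasCompactSupport χ := hbc.mul_right
  have hχs : tsupport χ ⊆ tsupport b :=
    closure_mono (fun x hx => by intro h; exact hx (by simp [hχ, h]))
  have hχU : tsupport χ ⊆ UU := hχs.trans hbU
  have hχm : ∀ g ∈ Γ, ∀ z ∈ UU, χ (mob g z) = b (mob g z) * (avg Γ b z)⁻¹ := by
    intro g hg z hz
    simp only [hχ]
    rw [avg_mob hg hz]
  refine ⟨χ, hχC, hχc, hχU, ?_, ?_, ?_⟩
  · intro z
    by_cases hz : z ∈ tsupport b
    · exact mul_nonneg (hb0 z) (inv_nonneg.mpr (hA z (hbU hz)).le)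
    · simp [hχ, image_eq_zero_of_notMem_tsupport hz]
  · intro z hz
    obtain ⟨g, hg, hg'⟩ := hbg z hz
    refine ⟨g, hg, ?_⟩
    rw [hχm g hg z hz]
    exact mul_pos hg' (inv_pos.mpr (hA z hz))
  · intro β hβ hβi
    -- the finite set of relevant group elements
    have hKb : IsCompact (UpperHalfPlane.coe ⁻¹' tsupport b) := preimage_compact hbc hbU
    obtain ⟨L, hL, hKL⟩ := exists_compact_superset hKb
    set S₁ : Set Γ := {g : Γ | ∃ z ∈ L, g • z ∈ UpperHalfPlane.coe ⁻¹' tsupport b} with hS₁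
    have hS₁f : S₁.Finite := finite_set Γ hL hKb
    set S : Finset Γ := (hS₁f.union (hS₁f.preimage (f := fun g : Γ => g⁻¹)
      (inv_injective.injOn))).toFinset with hS
    have hSinv : ∀ g : Γ, g ∈ S → g⁻¹ ∈ S := by
      intro g hg
      simp only [hS, Set.Finite.mem_toFinset, Set.mem_union, Set.mem_preimage, inv_inv] at hg ⊢
      exact hg.symm
    have hSb : ∀ z : ℍ, z ∈ L → ∀ g : Γ, g ∉ S → b (mob g z) = 0 := by
      intro z hz g hg
      by_contra hne
      apply hg
      simp only [hS, Set.Finite.mem_toFinset, Set.mem_union]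
      left
      refine ⟨z, hz, ?_⟩
      change ((g • z : ℍ) : ℂ) ∈ tsupport b
      rw [show (g • z : ℍ) = (g : SL(2, ℝ)) • z from rfl, coe_smul_eq]
      exact subset_tsupport _ hne
    -- the sum of the translates
    have hsum : ∀ z : ℍ, z ∈ L → ∑ g ∈ S, χ (mob g z) = 1 := by
      intro z hz
      have h1 : ∑ g ∈ S, χ (mob g z) = (∑ g ∈ S, b (mob g z)) * (avg Γ b z)⁻¹ := by
        rw [Finset.sum_mul]
        exact Finset.sum_congr rfl fun g _ => hχm g g.2 z (coe_mem_UU z)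
      rw [h1, ← avg_eq_sum (hSb z hz), mul_inv_cancel₀ (hA z (coe_mem_UU z)).ne']
    -- the density
    set D : ℂ → ℝ := fun z => wedge (fderiv ℝ χ z) (β z) with hD
    have hDc : ContinuousOn D UU :=
      ContinuousOn.wedge (hχC.continuous_fderiv one_ne_zero).continuousOn hβ
    have hD0 : ∀ z, z ∉ tsupport χ → D z = 0 := by
      intro z hz
      have h0 : χ =ᶠ[𝓝 z] fun _ => 0 := notMem_tsupport_iff_eventuallyEq.mp hz
      simp only [hD]
      rw [h0.fderiv_eq]
      simp [wedge]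
    set d : ℂ → ℝ := fun z => D z * z.im ^ 2 with hd
    have hint : ∫ z, D z = ∫ z : ℍ, d (z : ℂ) := by
      rw [integral_uhp, ← setIntegral_eq_integral_of_forall_compl_eq_zero (s := UU)]
      · refine setIntegral_congr_fun isOpen_UU.measurableSet fun z hz => ?_
        have : z.im ≠ 0 := (mem_UU.mp hz).ne'
        simp only [hd]
        field_simp
      · intro z hz
        exact hD0 z fun h => hz (hχU h)
    change ∫ z, D z = 0
    rw [hint]
    -- transformation of `d`
    have hdm : ∀ g ∈ Γ, ∀ z ∈ UU, d (mob g z) =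
        z.im ^ 2 * wedge (fderiv ℝ (fun w => χ (mob g w)) z) (β z) := by
      intro g hg z hz
      have hdn := den_ne (g := g) hz
      have hfd : HasFDerivAt (fun w => χ (mob g w)) ((fderiv ℝ χ (mob g z)).comp
          ((1 / (den g z) ^ 2) • (1 : ℂ →L[ℝ] ℂ))) z :=
        ((hχC.differentiable one_ne_zero (mob g z)).hasFDerivAt).comp z (hasFDerivAt_mob g hz)
      rw [hfd.fderiv]
      have hw := wedge_mob (d := den g z) (α := (fderiv ℝ χ (mob g z)).comp
          ((1 / (den g z) ^ 2) • (1 : ℂ →L[ℝ] ℂ))) (β := β z) (α' := fderiv ℝ χ (mob g z))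
          (β' := β (mob g z)) ?_ (hβi g hg z hz)
      · rw [hw]
        simp only [hd, hD]
        rw [im_mob g hz]
        have : normSq (den g z) ≠ 0 := by simpa using hdn
        field_simp
      · intro w
        simp only [ContinuousLinearMap.comp_apply, smul_apply,
          one_apply_eq_self, smul_eq_mul]
        congr 1
        ring
    -- `d` is continuous with compact support
    have hdH : Continuous fun z : ℍ => d (z : ℂ) := by
      have h1 : ContinuousOn d UU := hDc.mul (Complex.continuous_im.pow 2).continuousOn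
      exact h1.comp_continuous continuous_coe coe_mem_UU
    have hdsupp : ∀ z : ℍ, z ∉ UpperHalfPlane.coe ⁻¹' tsupport b → d (z : ℂ) = 0 := by
      intro z hz
      simp only [hd]
      rw [hD0 _ fun h => hz (hχs h), zero_mul]
    have hdcomp : HasCompactSupport fun z : ℍ => d (z : ℂ) :=
      HasCompactSupport.intro hKb hdsupp
    -- unfold
    have e1 : ∀ z : ℍ, d (z : ℂ) = ∑ g ∈ S, χ (mob g z) * d z := by
      intro z
      by_cases hz : z ∈ UpperHalfPlane.coe ⁻¹' tsupport b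
      · rw [← Finset.sum_mul, hsum z (interior_subset (hKL hz)), one_mul]
      · simp [hdsupp z hz]
    calc ∫ z : ℍ, d (z : ℂ) = ∫ z : ℍ, ∑ g ∈ S, χ (mob g z) * d z := by
          congr 1; ext z; exact e1 z
      _ = ∑ g ∈ S, ∫ z : ℍ, χ (mob g z) * d z := by
          refine integral_finsetSum _ fun g _ => ?_
          refine Continuous.integrable_of_hasCompactSupport ?_ hdcomp.mul_left
          exact (hχC.continuous.comp (continuous_mobH g)).mul hdH
      _ = ∑ g ∈ S, ∫ z : ℍ, χ z * d (mob (g : SL(2, ℝ))⁻¹ z) := by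
          refine Finset.sum_congr rfl fun g _ => ?_
          rw [← integral_smul_uhp (g : SL(2, ℝ)) fun z : ℍ => χ z * d (mob (g : SL(2, ℝ))⁻¹ z)]
          congr 1
          ext z
          rw [coe_smul_eq, mob_inv_mob _ (coe_mem_UU z)]
      _ = ∫ z : ℍ, ∑ g ∈ S, χ z * d (mob (g : SL(2, ℝ))⁻¹ z) := by
          symm
          refine integral_finsetSum _ fun g _ => ?_
          refine Continuous.integrable_of_hasCompactSupport ?_ ?_
          · refine (hχC.continuous.comp continuous_coe).mul ?_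
            have h2 := hdH.comp (continuous_const_smul (g : SL(2, ℝ))⁻¹)
            refine h2.congr fun z => ?_
            simp only [Function.comp_apply]
            rw [coe_smul_eq]
          · refine HasCompactSupport.intro hKb fun z hz => ?_
            have : χ (z : ℂ) = 0 := image_eq_zero_of_notMem_tsupport fun h => hz (hχs h)
            simp [this]
      _ = ∫ z : ℍ, (0 : ℝ) := by
          congr 1
          ext z
          by_cases hz : z ∈ UpperHalfPlane.coe ⁻¹' tsupport b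
          · rw [← Finset.mul_sum]
            have h3 : ∑ g ∈ S, d (mob (g : SL(2, ℝ))⁻¹ z) =
                (z : ℂ).im ^ 2 * wedge (fderiv ℝ (fun w => ∑ g ∈ S, χ (mob (g : SL(2, ℝ))⁻¹ w)) z)
                  (β z) := by
              have h4 : fderiv ℝ (fun w => ∑ g ∈ S, χ (mob (g : SL(2, ℝ))⁻¹ w)) z =
                  ∑ g ∈ S, fderiv ℝ (fun w => χ (mob (g : SL(2, ℝ))⁻¹ w)) z := by
                refine fderiv_fun_sum fun g _ => ?_
                exact (((hχC.differentiable one_ne_zero (mob (g : SL(2, ℝ))⁻¹ z)).hasFDerivAt).comp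
                  (z : ℂ) (hasFDerivAt_mob (g : SL(2, ℝ))⁻¹ (coe_mem_UU z))).differentiableAt
              rw [h4]
              have h5 : wedge (∑ g ∈ S, fderiv ℝ (fun w => χ (mob (g : SL(2, ℝ))⁻¹ w)) z) (β z) =
                  ∑ g ∈ S, wedge (fderiv ℝ (fun w => χ (mob (g : SL(2, ℝ))⁻¹ w)) z) (β z) := by
                simp only [wedge, sum_apply, Finset.sum_mul,
                  ← Finset.sum_sub_distrib]
              rw [h5, Finset.mul_sum]
              exact Finset.sum_congr rfl fun g _ => hdm _ (Γ.inv_mem g.2) z (coe_mem_UU z)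
            rw [h3]
            have h6 : (fun w : ℂ => ∑ g ∈ S, χ (mob (g : SL(2, ℝ))⁻¹ w)) =ᶠ[𝓝 (z : ℂ)]
                fun _ => 1 := by
              have h7 : UpperHalfPlane.coe '' L ∈ 𝓝 (z : ℂ) :=
                isOpenEmbedding_coe.image_mem_nhds.mpr
                  (mem_of_superset (isOpen_interior.mem_nhds (hKL hz)) interior_subset)
              filter_upwards [h7] with w hw
              obtain ⟨w', hw', rfl⟩ := hw
              rw [← hsum w' hw']
              refine Finset.sum_bij' (fun g _ => g⁻¹) (fun g _ => g⁻¹) (fun g hg => hSinv g hg)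
                (fun g hg => hSinv g hg) (fun g _ => inv_inv g) (fun g _ => inv_inv g) ?_
              intro g _
              rfl
            rw [h6.fderiv_eq]
            simp [wedge]
          · have : χ (z : ℂ) = 0 := image_eq_zero_of_notMem_tsupport fun h => hz (hχs h)
            simp [this]
      _ = 0 := by simp

end Pool.Agent.CG
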