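import Pool.Agent.Lib.MP_35454f.VEuler

/-!
# The certificate field and the corresponding area function
-/

set_option autoImplicit false

open MeasureTheory Filter Topology Complex Set
open UpperHalfPlane hiding I
open scoped ContDiff Manifold MatrixGroups Interval

namespace Pool.Agent.CG

variable {Γ : Subgroup SL(2, ℝ)} {m : Met Γ} {F G : ℝ → ℂ → ℂ} {p : ℝ → ℂ → ℝ} {κ : ℝ}

/-- `⟨∇_v X, v⟩ / ρ` -/
noncomputable def Met.nab (m : Met Γ) (X1 X2 : ℂ → ℝ) (z v : ℂ) : ℝ :=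
  fderiv ℝ X1 z v * v.re + fderiv ℝ X2 z v * v.im + (m.l1 z * X1 z + m.l2 z * X2 z) * normSq v

/-- A `Γ`-invariant vector field `X` with `div X = K - κ` and `⟨∇_v X, v⟩ > ½ κ |v|²`. -/
structure Cert (m : Met Γ) (κ : ℝ) where
  X1 : ℂ → ℝ
  X2 : ℂ → ℝ
  c1 : ContDiffOn ℝ 1 X1 UU
  c2 : ContDiffOn ℝ 1 X2 UU
  inv : ∀ g ∈ Γ, ∀ z ∈ UU, ((X1 (mob g z) : ℂ) + I * (X2 (mob g z) : ℂ)) =
    ((X1 z : ℂ) + I * (X2 z : ℂ)) / (den g z) ^ 2
  div : ∀ z ∈ UU, fderiv ℝ (fun z => m.ρ z * X1 z) z 1 + fderiv ℝ (fun z => m.ρ z * X2 z) z I =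
    m.kc z - κ * m.ρ z
  pos : ∀ z ∈ UU, ∀ v : ℂ, v ≠ 0 → 1 / 2 * κ * normSq v < m.nab X1 X2 z v

/-- first component of `∇ l + ρ X` -/
noncomputable def Cert.M1 (c : Cert m κ) (z : ℂ) : ℝ := m.l1 z + m.ρ z * c.X1 z
/-- second component of `∇ l + ρ X` -/
noncomputable def Cert.M2 (c : Cert m κ) (z : ℂ) : ℝ := m.l2 z + m.ρ z * c.X2 z

lemma Cert.hM1 (c : Cert m κ) : ContDiffOn ℝ 1 c.M1 UU := m.hl1.add (m.hρ.mul c.c1)
lemma Cert.hM2 (c : Cert m κ) : ContDiffOn ℝ 1 c.M2 UU := m.hl2.add (m.hρ.mul c.c2)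

lemma Cert.divM (c : Cert m κ) {z : ℂ} (hz : z ∈ UU) :
    fderiv ℝ c.M1 z 1 + fderiv ℝ c.M2 z I = -(κ * m.ρ z) := by
  have hn := isOpen_UU.mem_nhds hz
  have hdρ := ((m.hρ.contDiffAt hn).differentiableAt one_ne_zero)
  have hd1 := ((m.hl1.contDiffAt hn).differentiableAt one_ne_zero)
  have hd2 := ((m.hl2.contDiffAt hn).differentiableAt one_ne_zero)
  have hx1 := ((c.c1.contDiffAt hn).differentiableAt one_ne_zero)
  have hx2 := ((c.c2.contDiffAt hn).differentiableAt one_ne_zero)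
  have e1 : fderiv ℝ c.M1 z = fderiv ℝ m.l1 z + fderiv ℝ (fun z => m.ρ z * c.X1 z) z :=
    fderiv_fun_add hd1 (hdρ.fun_mul hx1)
  have e2 : fderiv ℝ c.M2 z = fderiv ℝ m.l2 z + fderiv ℝ (fun z => m.ρ z * c.X2 z) z :=
    fderiv_fun_add hd2 (hdρ.fun_mul hx2)
  rw [e1, e2, add_apply, add_apply]
  have h3 := c.div z hz
  rw [Met.kc] at h3
  linarith

lemma Cert.M_mob (c : Cert m κ) {g : SL(2, ℝ)} (hg : g ∈ Γ) {z : ℂ} (hz : z ∈ UU) :
    ((c.M1 (mob g z) : ℂ) - I * (c.M2 (mob g z) : ℂ)) =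
      ((c.M1 z : ℂ) - I * (c.M2 z : ℂ)) * (den g z) ^ 2 + 2 * ((g 1 0 : ℝ) : ℂ) * den g z := by
  have hd := den_ne (g := g) hz
  have h1 := m.linv g hg z hz
  have h2 := congrArg (starRingEnd ℂ) (c.inv g hg z hz)
  simp only [map_add, map_mul, conj_I, conj_ofReal, map_div₀, map_pow] at h2
  have h2' : ((c.X1 (mob g z) : ℂ) - I * (c.X2 (mob g z) : ℂ)) =
      ((c.X1 z : ℂ) - I * (c.X2 z : ℂ)) / (starRingEnd ℂ (den g z)) ^ 2 := by
    linear_combination h2
  have hcd : starRingEnd ℂ (den g z) ≠ 0 := by simpa using hd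
  have h3 : (m.ρ (mob g z) : ℂ) = m.ρ z * ((starRingEnd ℂ (den g z)) * den g z) ^ 2 := by
    rw [m.inv g hg z hz, ofReal_mul, ofReal_pow, normSq_eq_conj_mul_self]
  have e1 : ∀ w, ((c.M1 w : ℂ) - I * (c.M2 w : ℂ)) = ((m.l1 w : ℂ) - I * (m.l2 w : ℂ)) +
      m.ρ w * ((c.X1 w : ℂ) - I * (c.X2 w : ℂ)) := by
    intro w
    rw [Cert.M1, Cert.M2]
    push_cast
    ring
  rw [e1, e1, h1, h2', h3]
  field_simp
  ring

/-- The integrand of the area function. -/
noncomputable def vau (c : Cert m κ) (F G : ℝ → ℂ → ℂ) (t : ℝ) (z : ℂ) : ℝ :=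
  c.M1 (F t z) * (G t z).im - c.M2 (F t z) * (G t z).re

/-- The area function. -/
noncomputable def var (c : Cert m κ) (F G : ℝ → ℂ → ℂ) (T : ℝ) (z : ℂ) : ℝ :=
  ∫ t in (0:ℝ)..T, vau c F G t z

lemma VMot.co_au (h : VMot m F G) (c : Cert m κ) : CO (vau c F G) :=
  ((C1.comp_F c.hM1 h.c1F h.mem).co.mul h.c1G.im.co).sub
    ((C1.comp_F c.hM2 h.c1F h.mem).co.mul h.c1G.re.co)

/-- `d vau` -/
noncomputable def vdau (c : Cert m κ) (F G : ℝ → ℂ → ℂ) (t : ℝ) (z : ℂ) : ℂ →L[ℝ] ℝ :=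
  (c.M1 (F t z) • dIm G t z + (G t z).im •
    ((fderiv ℝ c.M1 (F t z) 1) • dRe F t z + (fderiv ℝ c.M1 (F t z) I) • dIm F t z)) -
  (c.M2 (F t z) • dRe G t z + (G t z).re •
    ((fderiv ℝ c.M2 (F t z) 1) • dRe F t z + (fderiv ℝ c.M2 (F t z) I) • dIm F t z))

lemma co_fderiv_comp {f : ℂ → ℝ} (hf : ContDiffOn ℝ 1 f UU) (h : VMot m F G) (v : ℂ) :
    CO (fun t z => fderiv ℝ f (F t z) v) := by
  have h1 : ContinuousOn (fun z => fderiv ℝ f z v) UU :=
    (hf.continuousOn_fderiv_of_isOpen isOpen_UU (by simp)).clm_apply continuousOn_const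
  exact CO.comp_F h1 h.c1F.co h.mem

lemma VMot.co_dau (h : VMot m F G) (c : Cert m κ) : CO (vdau c F G) := by
  refine CO.subf (CO.addf ?_ ?_) (CO.addf ?_ ?_)
  · exact CO.smul (C1.comp_F c.hM1 h.c1F h.mem).co h.c1G.co_dIm
  · exact CO.smul h.c1G.im.co (CO.addf (CO.smul (co_fderiv_comp c.hM1 h _) h.c1F.co_dRe)
      (CO.smul (co_fderiv_comp c.hM1 h _) h.c1F.co_dIm))
  · exact CO.smul (C1.comp_F c.hM2 h.c1F h.mem).co h.c1G.co_dRe
  · exact CO.smul h.c1G.re.co (CO.addf (CO.smul (co_fderiv_comp c.hM2 h _) h.c1F.co_dRe)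
      (CO.smul (co_fderiv_comp c.hM2 h _) h.c1F.co_dIm))

lemma VMot.hasFDerivAt_au (h : VMot m F G) (c : Cert m κ) (t : ℝ) {z : ℂ} (hz : z ∈ UU) :
    HasFDerivAt (vau c F G t) (vdau c F G t z) z :=
  ((h.hasFDerivAt_comp c.hM1 t hz).fun_mul (h.c1G.hasFDerivAt_im t hz)).fun_sub
    ((h.hasFDerivAt_comp c.hM2 t hz).fun_mul (h.c1G.hasFDerivAt_re t hz))

lemma VMot.c1_ar (h : VMot m F G) (c : Cert m κ) (T : ℝ) : ContDiffOn ℝ 1 (var c F G T) UU :=
  contDiffOn_param (h.co_au c) (h.co_dau c) (fun t _ hz => h.hasFDerivAt_au c t hz) 0 T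

/-- The variation of the area is given by the flux. -/
lemma VMot.fderiv_ar (h : VMot m F G) (c : Cert m κ) {T : ℝ} (hT : ∀ z ∈ UU, F T z = F 0 z)
    {z : ℂ} (hz : z ∈ UU)
    (w : ℂ) : fderiv ℝ (var c F G T) z w = κ * ∫ t in (0:ℝ)..T, vZ m F G t z w := by
  have h1 : HasFDerivAt (var c F G T) (∫ s in (0:ℝ)..T, vdau c F G s z) z :=
    hasFDerivAt_param (h.co_au c) (h.co_dau c) (fun t _ hz => h.hasFDerivAt_au c t hz) 0 T hz
  rw [h1.fderiv]
  rw [ContinuousLinearMap.intervalIntegral_apply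
    (((h.co_dau c).slice_t hz).intervalIntegrable _ _)]
  have h2 : ∀ t, HasDerivAt (fun s => c.M1 (F s z) * dIm F s z w - c.M2 (F s z) * dRe F s z w)
      (vdau c F G t z w - κ * vZ m F G t z w) t := by
    intro t
    refine (((h.hasDerivAt_comp c.hM1 t hz).fun_mul (h.hasDerivAt_dIm t hz w)).fun_sub
      ((h.hasDerivAt_comp c.hM2 t hz).fun_mul (h.hasDerivAt_dRe t hz w))).congr_deriv ?_
    have h3 := c.divM (h.mem t z hz)
    rw [clm_eq (fderiv ℝ c.M1 (F t z)) (G t z), clm_eq (fderiv ℝ c.M2 (F t z)) (G t z)]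
    simp only [vdau, vZ, sub_apply, add_apply, smul_apply, smul_eq_mul]
    linear_combination ((G t z).re * dIm F t z w - (G t z).im * dRe F t z w) * h3
  have hc1 : Continuous fun t => vdau c F G t z w :=
    ((h.co_dau c).slice_t hz).clm_apply continuous_const
  have hc2 : Continuous fun t => κ * vZ m F G t z w :=
    continuous_const.mul ((h.co_Z.slice_t hz).clm_apply continuous_const)
  have h3 := intervalIntegral.integral_eq_sub_of_hasDerivAt (a := 0) (b := T) (fun t _ => h2 t)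
    ((hc1.sub hc2).intervalIntegrable _ _)
  rw [intervalIntegral.integral_sub (hc1.intervalIntegrable _ _) (hc2.intervalIntegrable _ _),
    intervalIntegral.integral_const_mul] at h3
  have h4 : F T =ᶠ[𝓝 z] F 0 := by
    filter_upwards [isOpen_UU.mem_nhds hz] with w hw using hT w hw
  rw [dRe_apply, dRe_apply, dIm_apply, dIm_apply, h4.fderiv_eq, hT z hz, sub_self] at h3
  linarith

lemma VMot.wedge_ar (h : VMot m F G) (c : Cert m κ) {T : ℝ} (hT : ∀ z ∈ UU, F T z = F 0 z)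
    {z : ℂ} (hz : z ∈ UU) (β : ℂ →L[ℝ] ℝ) :
    wedge (fderiv ℝ (var c F G T) z) β = κ * ∫ t in (0:ℝ)..T, wedge (vZ m F G t z) β := by
  have hc : ∀ w, Continuous fun t => vZ m F G t z w :=
    fun w => (h.co_Z.slice_t hz).clm_apply continuous_const
  simp only [wedge]
  rw [h.fderiv_ar c hT hz, h.fderiv_ar c hT hz, intervalIntegral.integral_sub,
    intervalIntegral.integral_mul_const, intervalIntegral.integral_mul_const]
  · ring
  · exact ((hc 1).mul continuous_const).intervalIntegrable _ _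
  · exact ((hc I).mul continuous_const).intervalIntegrable _ _

/-- The area is invariant. -/
lemma VEul.inv_ar (h : VEul m F G p) (c : Cert m κ) {T : ℝ} (hT : ∀ z ∈ UU, F T z = F 0 z) :
    InvFun Γ (var c F G T) := by
  intro g hg z hz
  rw [var, var]
  set b : ℝ := g 1 0 with hb
  have e1 : ∀ t, vau c F G t (mob g z) =
      vau c F G t z + 2 * (((b : ℂ) * G t z) / den g (F t z)).im := by
    intro t
    have hd := den_ne (g := g) (h.mem t z hz)
    have e2 : ∀ t z, vau c F G t z =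
        ((((c.M1 (F t z) : ℂ) - I * (c.M2 (F t z) : ℂ))) * G t z).im := by
      intro t z
      simp [vau, mul_im, sub_re, sub_im]
      ring
    rw [e2, e2, h.equiv t g hg z hz, c.M_mob hg (h.mem t z hz), h.G_mob t hg hz]
    have e3 : (((c.M1 (F t z) : ℂ) - I * (c.M2 (F t z) : ℂ)) * (den g (F t z)) ^ 2 +
        2 * ((g 1 0 : ℝ) : ℂ) * den g (F t z)) * (G t z / (den g (F t z)) ^ 2) =
        ((c.M1 (F t z) : ℂ) - I * (c.M2 (F t z) : ℂ)) * G t z +
        ((2 : ℝ) : ℂ) * (((b : ℂ) * G t z) / den g (F t z)) := by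
      rw [← hb]
      push_cast
      field_simp
    rw [e3, add_im, im_ofReal_mul]
  simp only [e1]
  have hcD : Continuous fun t => den g (F t z) := by
    have := h.c1F.co.slice_t hz
    unfold den
    fun_prop
  have hcq : Continuous fun t => (b : ℂ) * G t z / den g (F t z) :=
    Continuous.div (continuous_const.mul (h.c1G.co.slice_t hz)) hcD
      fun t => den_ne (h.mem t z hz)
  rw [intervalIntegral.integral_add (((h.co_au c).slice_t hz).intervalIntegrable _ _)]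
  · rw [add_eq_left, intervalIntegral.integral_const_mul]
    by_cases hc0 : b = 0
    · simp [hc0]
    · have h1 : ∀ t, HasDerivAt (fun s => Complex.log (den g (F s z)))
          ((b : ℂ) * G t z / den g (F t z)) t := by
        intro t
        have hsl : den g (F t z) ∈ slitPlane := by
          right
          rw [im_den]
          exact mul_ne_zero hc0 (mem_UU.mp (h.mem t z hz)).ne'
        have h2 : HasDerivAt (fun s => den g (F s z)) ((b : ℂ) * G t z) t :=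
          (hasDerivAt_den g (F t z)).comp_of_eq t (h.dF t z hz) rfl
        exact h2.clog_real hsl
      have h3 := intervalIntegral.integral_eq_sub_of_hasDerivAt (a := 0) (b := T)
        (fun t _ => h1 t) (hcq.intervalIntegrable _ _)
      rw [hT z hz, sub_self] at h3
      have h4 : ∫ t in (0:ℝ)..T, (((b : ℂ) * G t z) / den g (F t z)).im = 0 := by
        have h5 := imCLM.intervalIntegral_comp_comm (hcq.intervalIntegrable (μ := volume) 0 T)
        rw [h3] at h5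
        simpa using h5
      rw [h4, mul_zero]
  · exact (continuous_const.mul (continuous_im.comp hcq)).intervalIntegrable _ _

end Pool.Agent.CG
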