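import Pool.Agent.Lib.MP_35454f.Defs

/-!
# Geodesics of the group of area-preserving diffeomorphisms of a closed surface

By uniformization a closed oriented surface of genus at least two with a Riemannian metric is
isometric to `Γ \ ℍ` with a metric `σ (dx² + dy²) / y²`, where `Γ` is a discrete cocompact group
acting freely and `σ` is a positive `Γ`-invariant function. A curve of diffeomorphisms of the
surface starting at the identity is lifted to a curve `φ : ℝ → ℍ → ℍ` of diffeomorphisms of `ℍ`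
commuting with `Γ` and starting at the identity.
-/

set_option autoImplicit false

open Filter Topology Complex Set
open UpperHalfPlane hiding I
open scoped ContDiff Manifold MatrixGroups

namespace Pool.Agent.CG

/-- `σ` is the conformal factor of a `C²` Riemannian metric `σ (dx² + dy²) / y²` on `Γ \ ℍ`. -/
structure IsConformalFactor (Γ : Subgroup SL(2, ℝ)) (σ : ℍ → ℝ) : Prop where
  pos : ∀ z, 0 < σ z
  invariant : ∀ γ ∈ Γ, ∀ z, σ (γ • z) = σ z
  contDiff : ContDiffOn ℝ 2 (fun w : ℂ => σ (ofComplex w)) {w | 0 < w.im}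

/-- The density `ρ = σ / y²` of the metric `ρ (dx² + dy²)`. -/
noncomputable def rho (σ : ℍ → ℝ) (w : ℂ) : ℝ := σ (ofComplex w) / w.im ^ 2

/-- `∂λ/∂x`, where `ρ = e^{2λ}`. -/
noncomputable def lamX (σ : ℍ → ℝ) (w : ℂ) : ℝ := fderiv ℝ (rho σ) w 1 / (2 * rho σ w)

/-- `∂λ/∂y`, where `ρ = e^{2λ}`. -/
noncomputable def lamY (σ : ℍ → ℝ) (w : ℂ) : ℝ := fderiv ℝ (rho σ) w I / (2 * rho σ w)

/-- The Gaussian curvature `K = - (∂²λ/∂x² + ∂²λ/∂y²) / ρ` of the metric `ρ (dx² + dy²)`. -/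
noncomputable def curvature (σ : ℍ → ℝ) (w : ℂ) : ℝ :=
  -(fderiv ℝ (lamX σ) w 1 + fderiv ℝ (lamY σ) w I) / rho σ w

/-- The covariant acceleration at time `t` of the particle starting at `w`, for the metric
`ρ (dx² + dy²)`, `ρ = e^{2λ}`: a curve `z` in the upper half-plane has covariant acceleration
`z'' + (∂λ/∂x - i ∂λ/∂y) z'²`. -/
noncomputable def covAccM (σ : ℍ → ℝ) (φ : ℝ → ℍ → ℍ) (t : ℝ) (w : ℂ) : ℂ :=
  deriv (fun s => vel φ s w) t +
    ((lamX σ (pos φ t w) : ℂ) - I * (lamY σ (pos φ t w) : ℂ)) * (vel φ t w) ^ 2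

/-- The gradient at `z` of a real function `q` for the metric `ρ (dx² + dy²)`:
`(∂q/∂x + i ∂q/∂y) / ρ`. -/
noncomputable def gradM (σ : ℍ → ℝ) (q : ℍ → ℝ) (z : ℍ) : ℂ :=
  (((fderiv ℝ (fun w : ℂ => q (ofComplex w)) (z : ℂ) 1 : ℝ) : ℂ) +
      I * ((fderiv ℝ (fun w : ℂ => q (ofComplex w)) (z : ℂ) I : ℝ) : ℂ)) / (rho σ z : ℂ)

/-- `φ` is (the lift to `ℍ` of) a geodesic, starting at the identity, of the group of
area-preserving `C¹` diffeomorphisms of the surface `Γ \ ℍ` with the metric `σ (dx² + dy²) / y²`,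
for the right-invariant `L²` metric: each `φ t` is a bijection commuting with `Γ` and preserving
the area form `ρ dx dy`, positions and velocities are jointly `C¹` in time and space, and the
covariant acceleration of each particle is minus the gradient of a pressure `p`, a function on
`ℝ × (Γ \ ℍ)` which is jointly continuous and `C¹` in space (the Euler equations in Lagrangian
form). -/
structure IsGeodesicM (Γ : Subgroup SL(2, ℝ)) (σ : ℍ → ℝ) (φ : ℝ → ℍ → ℍ) : Prop where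
  start : ∀ z, φ 0 z = z
  bijective : ∀ t, Function.Bijective (φ t)
  equivariant : ∀ t, ∀ γ ∈ Γ, ∀ z, φ t (γ • z) = γ • φ t z
  pos_contDiff : ContDiffOn ℝ 1 (fun q : ℝ × ℂ => pos φ q.1 q.2) {q | 0 < q.2.im}
  vel_contDiff : ContDiffOn ℝ 1 (fun q : ℝ × ℂ => vel φ q.1 q.2) {q | 0 < q.2.im}
  area : ∀ t, ∀ z : ℍ, (fderiv ℝ (pos φ t) (z : ℂ)).det * rho σ (φ t z) = rho σ z
  euler : ∃ p : ℝ → ℍ → ℝ, Continuous (fun q : ℝ × ℍ => p q.1 q.2) ∧
    (∀ t, ∀ γ ∈ Γ, ∀ z, p t (γ • z) = p t z) ∧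
    (∀ t, ContDiffOn ℝ 1 (fun w : ℂ => p t (ofComplex w)) {w | 0 < w.im}) ∧
    ∀ t, ∀ z : ℍ, covAccM σ φ t (z : ℂ) = - gradM σ (p t) (φ t z)

/-- There is no closed geodesic, nor a geodesic loop: every geodesic which returns to its initial
configuration after some time `T > 0` (as a curve of diffeomorphisms of `Γ \ ℍ`) is constant. -/
def NoClosedGeodesic (Γ : Subgroup SL(2, ℝ)) (σ : ℍ → ℝ) : Prop :=
  ∀ φ : ℝ → ℍ → ℍ, IsGeodesicM Γ σ φ → ∀ T : ℝ, 0 < T → (∀ z, ∃ γ ∈ Γ, φ T z = γ • z) →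
    ∀ t z, φ t z = z

/-- The real part and the imaginary part of a vector field, as functions of a complex variable. -/
noncomputable def fieldX (X : ℍ → ℂ) (w : ℂ) : ℝ := (X (ofComplex w)).re
/-- The imaginary part of a vector field, as a function of a complex variable. -/
noncomputable def fieldY (X : ℍ → ℂ) (w : ℂ) : ℝ := (X (ofComplex w)).im

/-- The divergence of the vector field `X` for the metric `ρ (dx² + dy²)`. -/
noncomputable def divM (σ : ℍ → ℝ) (X : ℍ → ℂ) (w : ℂ) : ℝ :=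
  (fderiv ℝ (fun w => rho σ w * fieldX X w) w 1 + fderiv ℝ (fun w => rho σ w * fieldY X w) w I) /
    rho σ w

/-- The covariant derivative `∇_v X` for the metric `ρ (dx² + dy²)`, `ρ = e^{2λ}`:
`D_v X + (∂λ/∂x - i ∂λ/∂y) v X`. -/
noncomputable def covDerM (σ : ℍ → ℝ) (X : ℍ → ℂ) (z : ℍ) (v : ℂ) : ℂ :=
  fderiv ℝ (fun w : ℂ => X (ofComplex w)) (z : ℂ) v +
    ((lamX σ z : ℂ) - I * (lamY σ z : ℂ)) * v * X z

/-- `X` is a `C¹` vector field on `Γ \ ℍ` with `div X = K - κ` and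
`⟨∇_v X, v⟩ > (κ / 2) |v|²` for all nonzero tangent vectors `v`. (By the Gauss–Bonnet theorem and
the divergence theorem, `κ` is then the mean value of the curvature.) -/
structure IsCertificate (Γ : Subgroup SL(2, ℝ)) (σ : ℍ → ℝ) (κ : ℝ) (X : ℍ → ℂ) : Prop where
  contDiff : ContDiffOn ℝ 1 (fun w : ℂ => X (ofComplex w)) {w | 0 < w.im}
  invariant : ∀ γ ∈ Γ, ∀ z : ℍ,
    X (γ • z) = X z / (((γ 1 0 : ℝ) : ℂ) * z + ((γ 1 1 : ℝ) : ℂ)) ^ 2
  div_eq : ∀ z : ℍ, divM σ X z = curvature σ z - κ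
  nabla_gt : ∀ z : ℍ, ∀ v : ℂ, v ≠ 0 →
    κ / 2 * normSq v < ((starRingEnd ℂ v) * covDerM σ X z v).re

/-- The hyperbolic Laplacian `y² (∂²f/∂x² + ∂²f/∂y²)`. -/
noncomputable def hypLap (f : ℍ → ℝ) (z : ℍ) : ℝ :=
  z.im ^ 2 * (fderiv ℝ (fun w => fderiv ℝ (fun w : ℂ => f (ofComplex w)) w 1) (z : ℂ) 1 +
    fderiv ℝ (fun w => fderiv ℝ (fun w : ℂ => f (ofComplex w)) w I) (z : ℂ) I)

end Pool.Agent.CG
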