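import Pool.Agent.Lib.MP_35454f.VMain

/-!
# Conservation of energy; periodic motions are constant (general conformal metric)
-/

set_option autoImplicit false

open MeasureTheory Filter Topology Complex Set
open UpperHalfPlane hiding I
open scoped ContDiff Manifold MatrixGroups Interval

namespace Pool.Agent.CG

variable {Γ : Subgroup SL(2, ℝ)} {m : Met Γ} {F G : ℝ → ℂ → ℂ} {p : ℝ → ℂ → ℝ} {κ : ℝ}

lemma VEul.hasDerivAt_e (h : VEul m F G p) (t : ℝ) {z : ℂ} (hz : z ∈ UU) :
    HasDerivAt (fun s => ve m F G s z)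
      (-(2 * ((gp F p t z).re * (G t z).re + (gp F p t z).im * (G t z).im))) t := by
  have h0 := h.R_ne t z hz
  have h1 : HasDerivAt (fun s => m.ρ (F s z) * ((G s z).re ^ 2 + (G s z).im ^ 2)) _ t :=
    (h.hasDerivAt_R t hz).fun_mul
      (((h.hasDerivAt_G_re t hz).fun_pow 2).fun_add ((h.hasDerivAt_G_im t hz).fun_pow 2))
  refine h1.congr_deriv ?_
  field_simp
  push_cast
  ring

lemma VMot.wedge_dp (h : VMot m F G) (p : ℝ → ℂ → ℝ) (t : ℝ) {z : ℂ} (hz : z ∈ UU) :
    wedge (dp F p t z) (vZ m F G t z) =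
      ((gp F p t z).re * (G t z).re + (gp F p t z).im * (G t z).im) * m.ρ z := by
  have hXY := h.wXY t hz
  simp only [vZ, dp, wedge_add_left, wedge_sub_right, wedge_smul_left, wedge_smul_right,
    wedge_self]
  rw [wedge_swap (dIm F t z) (dRe F t z), hXY]
  have h1 := h.R_ne t z hz
  field_simp
  ring

lemma VEul.c1_pF (h : VEul m F G p) (t : ℝ) : ContDiffOn ℝ 1 (fun z => p t (F t z)) UU :=
  (h.pc1 t).comp (h.c1F.slice t) fun z hz => h.mem t z hz

/-- **Conservation of energy**. -/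
lemma VEul.energy_const (h : VEul m F G p) {χ : ℂ → ℝ} (hχ : IsCut Γ χ) (t : ℝ) :
    ∫ z, χ z * (ve m F G t z * m.ρ z) = ∫ z, χ z * (ve m F G 0 z * m.ρ z) := by
  have hco : CO (fun t z => -(2 * ((gp F p t z).re * (G t z).re +
      (gp F p t z).im * (G t z).im)) * m.ρ z) := by
    have hre : CO (fun t z => (gp F p t z).re) := continuous_re.comp_continuousOn h.co_gp
    have him : CO (fun t z => (gp F p t z).im) := continuous_im.comp_continuousOn h.co_gp
    exact (CO.neg ((CO.const 2).mul ((hre.mul h.c1G.re.co).add (him.mul h.c1G.im.co)))).mul m.co_ρ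
  have e1 : ∀ z ∈ UU, ve m F G t z * m.ρ z = ve m F G 0 z * m.ρ z + ∫ s in (0:ℝ)..t,
      -(2 * ((gp F p s z).re * (G s z).re + (gp F p s z).im * (G s z).im)) * m.ρ z := by
    intro z hz
    rw [intervalIntegral.integral_eq_sub_of_hasDerivAt
      (fun s _ => (h.hasDerivAt_e s hz).mul_const (m.ρ z))
      ((hco.slice_t hz).intervalIntegrable _ _)]
    ring
  have hee : ∀ t, ContinuousOn (fun z => ve m F G t z * m.ρ z) UU := fun t =>
    (co_rho_mul m h.co_e).slice t
  calc ∫ z, χ z * (ve m F G t z * m.ρ z)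
      = ∫ z, (χ z * (ve m F G 0 z * m.ρ z) + χ z * ∫ s in (0:ℝ)..t,
          -(2 * ((gp F p s z).re * (G s z).re + (gp F p s z).im * (G s z).im)) * m.ρ z) := by
        congr 1
        ext z
        by_cases hz : z ∈ UU
        · rw [e1 z hz]; ring
        · simp [image_eq_zero_of_notMem_tsupport fun hh => hz (hχ.supp hh)]
    _ = (∫ z, χ z * (ve m F G 0 z * m.ρ z)) + ∫ z, χ z * ∫ s in (0:ℝ)..t,
          -(2 * ((gp F p s z).re * (G s z).re + (gp F p s z).im * (G s z).im)) * m.ρ z :=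
        integral_add (hχ.int (hee 0)) (hχ.int (hco.continuousOn_integral 0 t))
    _ = ∫ z, χ z * (ve m F G 0 z * m.ρ z) := by
        rw [fubini hχ.c1.continuous hχ.cpt hχ.supp hco]
        have e2 : ∀ s, ∫ z, χ z * (-(2 * ((gp F p s z).re * (G s z).re +
            (gp F p s z).im * (G s z).im)) * m.ρ z) = 0 := by
          intro s
          have h1 := h.flux_zero hχ s (h.c1_pF s) (h.inv_pF s)
          have e3 : ∀ z, χ z * (-(2 * ((gp F p s z).re * (G s z).re +
            (gp F p s z).im * (G s z).im)) * m.ρ z) =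
            (-2) * (χ z * wedge (fderiv ℝ (fun z => p s (F s z)) z) (vZ m F G s z)) := by
            intro z
            by_cases hz : z ∈ UU
            · rw [(h.hasFDerivAt_p s hz).fderiv, h.wedge_dp p s hz]
              ring
            · simp [image_eq_zero_of_notMem_tsupport fun hh => hz (hχ.supp hh)]
          simp only [e3]
          rw [integral_const_mul, h1, mul_zero]
        simp only [e2]
        simp

/-- vanishing of the velocity from the vanishing of a weighted integral -/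
lemma VEul.zero_of_integral (h : VEul m F G p) {χ : ℂ → ℝ} (hχ : IsCut Γ χ) {q : ℝ → ℂ → ℝ}
    (hq : CO q) (hq0 : ∀ t, ∀ z ∈ UU, 0 ≤ q t z) (hqG : ∀ t, ∀ z ∈ UU, q t z = 0 → G t z = 0)
    {t : ℝ} (h4 : ∫ z, χ z * q t z = 0) {z : ℂ} (hz : z ∈ UU) : G t z = 0 := by
  have hcont : Continuous fun z => χ z * q t z :=
    (hq.continuous_mul hχ.c1.continuous hχ.supp).comp
      (continuous_const.prodMk continuous_id : Continuous fun z : ℂ => (t, z))
  have h2 : ∀ z, 0 ≤ χ z * q t z := by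
    intro z
    by_cases hz : z ∈ UU
    · exact mul_nonneg (hχ.nonneg z) (hq0 t z hz)
    · simp [image_eq_zero_of_notMem_tsupport fun hh => hz (hχ.supp hh)]
  have h5 : (fun z => χ z * q t z) = 0 := by
    have hi : Integrable fun z => χ z * q t z :=
      hcont.integrable_of_hasCompactSupport hχ.cpt.mul_right
    have := (integral_eq_zero_iff_of_nonneg h2 hi).mp h4
    exact (hcont.ae_eq_iff_eq volume continuous_const).mp this
  obtain ⟨g, hg, hgz⟩ := hχ.cover z hz
  have h6 := congrFun h5 (mob g z)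
  simp only [Pi.zero_apply] at h6
  have h7 : G t (mob g z) = 0 := by
    rcases mul_eq_zero.mp h6 with h9 | h9
    · exact absurd h9 hgz.ne'
    · exact hqG t _ (mob_mem hz) h9
  rw [h.G_mob t hg hz] at h7
  have hd := den_ne (g := g) (h.mem t z hz)
  rcases div_eq_zero_iff.mp h7 with h10 | h10
  · exact h10
  · exact absurd h10 (pow_ne_zero 2 hd)

/-- A closed motion has zero velocity. -/
theorem VEul.velocity_zero (h : VEul m F G p) (c : Cert m κ) {χ : ℂ → ℝ} (hχ : IsCut Γ χ)
    {T : ℝ} (hT0 : 0 < T) (hT : ∀ z ∈ UU, F T z = F 0 z) (t : ℝ) {z : ℂ} (hz : z ∈ UU) :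
    G t z = 0 := by
  have h1 := h.energy_le c hχ hT0 hT
  set q : ℝ → ℂ → ℝ := fun t z => (vN c F G t z - 1 / 2 * κ * ve m F G t z) * m.ρ z with hq
  have coq : CO q := co_rho_mul m ((h.co_N c).sub ((CO.const _).mul h.co_e))
  have q_eq : ∀ t z, q t z = m.ρ (F t z) * (m.nab c.X1 c.X2 (F t z) (G t z) -
      1 / 2 * κ * normSq (G t z)) * m.ρ z := by
    intro t z
    simp only [hq]
    rw [vN, ve_eq]
    ring
  have qpos : ∀ t, ∀ z ∈ UU, G t z ≠ 0 → 0 < q t z := by
    intro t z hz hG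
    rw [q_eq]
    have := c.pos (F t z) (h.mem t z hz) (G t z) hG
    exact mul_pos (mul_pos (h.R_pos t hz) (by linarith)) (m.pos z hz)
  have qzero : ∀ t, ∀ z ∈ UU, G t z = 0 → q t z = 0 := by
    intro t z hz hG
    rw [q_eq, hG]
    simp [Met.nab]
  have q0 : ∀ t, ∀ z ∈ UU, 0 ≤ q t z := by
    intro t z hz
    by_cases hG : G t z = 0
    · exact (qzero t z hz hG).ge
    · exact (qpos t z hz hG).le
  have qG : ∀ t, ∀ z ∈ UU, q t z = 0 → G t z = 0 := by
    intro t z hz hqz
    by_contra hG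
    exact (qpos t z hz hG).ne' hqz
  have hI0 : ∀ t, 0 ≤ ∫ z, χ z * q t z := by
    intro t
    refine integral_nonneg fun z => ?_
    by_cases hz : z ∈ UU
    · exact mul_nonneg (hχ.nonneg z) (q0 t z hz)
    · simp [image_eq_zero_of_notMem_tsupport fun hh => hz (hχ.supp hh)]
  have h2 : ∫ z, χ z * q 0 z = 0 := by
    by_contra hne
    have h3 : 0 < ∫ z, χ z * q 0 z := lt_of_le_of_ne (hI0 0) (Ne.symm hne)
    have h4 := intervalIntegral.integral_pos hT0
      (coq.continuous_integral_mul hχ.c1.continuous hχ.cpt hχ.supp).continuousOn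
      (fun t _ => hI0 t) ⟨0, ⟨le_refl _, hT0.le⟩, h3⟩
    exact absurd h1 (not_le.mpr h4)
  have hG0 : ∀ z ∈ UU, G 0 z = 0 := fun z hz => h.zero_of_integral hχ coq q0 qG h2 hz
  -- energy
  have h5 : ∫ z, χ z * (ve m F G 0 z * m.ρ z) = 0 := by
    have : ∀ z, χ z * (ve m F G 0 z * m.ρ z) = 0 := by
      intro z
      by_cases hz : z ∈ UU
      · rw [ve_eq, hG0 z hz]; simp
      · simp [image_eq_zero_of_notMem_tsupport fun hh => hz (hχ.supp hh)]
    simp [this]
  rw [← h.energy_const hχ t] at h5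
  refine h.zero_of_integral hχ (co_rho_mul m h.co_e) (fun t z hz => ?_) (fun t z hz hv => ?_) h5 hz
  · rw [ve_eq]
    exact mul_nonneg (mul_nonneg (h.R_pos t hz).le (normSq_nonneg _)) (m.pos z hz).le
  · rw [ve_eq] at hv
    rcases mul_eq_zero.mp hv with h6 | h6
    · rcases mul_eq_zero.mp h6 with h7 | h7
      · exact absurd h7 (h.R_pos t hz).ne'
      · exact normSq_eq_zero.mp h7
    · exact absurd h6 (m.ne hz)

/-- **A closed motion is constant.** -/
theorem VEul.motion_const (h : VEul m F G p) (c : Cert m κ) {χ : ℂ → ℝ} (hχ : IsCut Γ χ) {T : ℝ}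
    (hT0 : 0 < T) (hT : ∀ z ∈ UU, F T z = F 0 z) (t : ℝ) {z : ℂ} (hz : z ∈ UU) : F t z = z := by
  rw [h.eq_integral t hz, h.start z hz]
  simp [fun s => h.velocity_zero c hχ hT0 hT s hz]

end Pool.Agent.CG
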