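import Pool.Agent.Lib.MP_35454f.VForms

/-!
# Geodesics of the group of area-preserving diffeomorphisms, general conformal metric
-/

set_option autoImplicit false

open MeasureTheory Filter Topology Complex Set
open UpperHalfPlane hiding I
open scoped ContDiff Manifold MatrixGroups Interval

namespace Pool.Agent.CG

/-- An incompressible motion satisfying the Euler equations with pressure `p`. -/
structure VEul {Γ : Subgroup SL(2, ℝ)} (m : Met Γ) (F G : ℝ → ℂ → ℂ) (p : ℝ → ℂ → ℝ) : Prop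
    extends VMot m F G where
  start : ∀ z ∈ UU, F 0 z = z
  equiv : ∀ t, ∀ g ∈ Γ, ∀ z ∈ UU, F t (mob g z) = mob g (F t z)
  pinv : ∀ t, InvFun Γ (p t)
  pc1 : ∀ t, ContDiffOn ℝ 1 (p t) UU
  pco : CO p
  acc : ∀ t, ∀ z ∈ UU, HasDerivAt (fun s => G s z)
    (-(((m.l1 (F t z) : ℂ) - I * (m.l2 (F t z) : ℂ)) * (G t z) ^ 2) -
      ((m.ρ (F t z) : ℂ))⁻¹ * gp F p t z) t

variable {Γ : Subgroup SL(2, ℝ)} {m : Met Γ} {F G : ℝ → ℂ → ℂ} {p : ℝ → ℂ → ℝ}

lemma VEul.co_gp (h : VEul m F G p) : CO (gp F p) := by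
  have hR : ContinuousOn (fun q : ℝ × ℂ => (m.ρ (F q.1 q.2) : ℂ)) UT :=
    continuous_ofReal.comp_continuousOn h.c1R.co
  have hL1 : ContinuousOn (fun q : ℝ × ℂ => (m.l1 (F q.1 q.2) : ℂ)) UT :=
    continuous_ofReal.comp_continuousOn h.c1L1.co
  have hL2 : ContinuousOn (fun q : ℝ × ℂ => (m.l2 (F q.1 q.2) : ℂ)) UT :=
    continuous_ofReal.comp_continuousOn h.c1L2.co
  have h1 : CO (fun t z => -(m.ρ (F t z) : ℂ) * (deriv (fun s => G s z) t +
      ((m.l1 (F t z) : ℂ) - I * (m.l2 (F t z) : ℂ)) * (G t z) ^ 2)) := by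
    refine ContinuousOn.mul hR.neg (ContinuousOn.add h.c1G.co_deriv
      (ContinuousOn.mul (ContinuousOn.sub hL1 (continuousOn_const.mul hL2))
        (ContinuousOn.pow h.c1G.co 2)))
  refine ContinuousOn.congr h1 fun q hq => ?_
  have hR0 : (m.ρ (F q.1 q.2) : ℂ) ≠ 0 := ofReal_ne_zero.mpr (h.R_ne q.1 q.2 hq)
  simp only
  rw [(h.acc q.1 q.2 hq).deriv]
  field_simp
  ring

lemma VEul.hasFDerivAt_p (h : VEul m F G p) (t : ℝ) {z : ℂ} (hz : z ∈ UU) :
    HasFDerivAt (fun z => p t (F t z)) (dp F p t z) z := by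
  refine (h.hasFDerivAt_comp (h.pc1 t) t hz).congr_fderiv ?_
  rw [dp, gp_re, gp_im]

lemma VEul.co_dp (h : VEul m F G p) : CO (dp F p) :=
  CO.addf (CO.smul (continuous_re.comp_continuousOn h.co_gp) h.c1F.co_dRe)
    (CO.smul (continuous_im.comp_continuousOn h.co_gp) h.c1F.co_dIm)

lemma VMot.co_dR (h : VMot m F G) : CO (dR m F) :=
  CO.addf (CO.smul (((CO.const 2).mul h.c1R.co).mul h.c1L1.co) h.c1F.co_dRe)
    (CO.smul (((CO.const 2).mul h.c1R.co).mul h.c1L2.co) h.c1F.co_dIm)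

lemma VMot.co_de (h : VMot m F G) : CO (vde m F G) := by
  refine CO.addf (CO.addf (CO.smul ?_ h.c1G.co_dRe) (CO.smul ?_ h.c1G.co_dIm))
    (CO.smul ?_ h.co_dR)
  · exact (CO.const 2).mul (h.c1R.co.mul h.c1G.re.co)
  · exact (CO.const 2).mul (h.c1R.co.mul h.c1G.im.co)
  · exact (h.c1G.re.co.pow 2).add (h.c1G.im.co.pow 2)

/-- The Lagrangian density `l = ½ |u|² - p`. -/
noncomputable def vlag (m : Met Γ) (F G : ℝ → ℂ → ℂ) (p : ℝ → ℂ → ℝ) (t : ℝ) (z : ℂ) : ℝ :=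
  1 / 2 * ve m F G t z - p t (F t z)

lemma VEul.co_pF (h : VEul m F G p) : CO (fun t z => p t (F t z)) := by
  have h1 : ContinuousOn (fun q : ℝ × ℂ => (q.1, F q.1 q.2)) UT :=
    continuousOn_fst.prodMk h.c1F.co
  exact ContinuousOn.comp (g := fun q : ℝ × ℂ => p q.1 q.2) h.pco h1
    fun q hq => h.mem q.1 q.2 hq

lemma VEul.co_lag (h : VEul m F G p) : CO (vlag m F G p) :=
  ((CO.const (1/2)).mul h.co_e).sub h.co_pF

lemma CO.smulc (c : ℝ) {β : ℝ → ℂ → ℂ →L[ℝ] ℝ} (h : CO β) : CO (fun t z => c • β t z) :=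
  ContinuousOn.const_smul h c

lemma VEul.hasFDerivAt_lag (h : VEul m F G p) (t : ℝ) {z : ℂ} (hz : z ∈ UU) :
    HasFDerivAt (vlag m F G p t) ((1 / 2 : ℝ) • vde m F G t z - dp F p t z) z :=
  ((h.hasFDerivAt_e t hz).const_mul (1 / 2)).sub (h.hasFDerivAt_p t hz)

lemma VEul.co_dlag (h : VEul m F G p) :
    CO (fun t z => (1 / 2 : ℝ) • vde m F G t z - dp F p t z) :=
  (CO.smulc _ h.co_de).subf h.co_dp

lemma VEul.hasDerivAt_G_re (h : VEul m F G p) (t : ℝ) {z : ℂ} (hz : z ∈ UU) :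
    HasDerivAt (fun s => (G s z).re) (-(m.l1 (F t z) * ((G t z).re ^ 2 - (G t z).im ^ 2) +
      2 * m.l2 (F t z) * (G t z).re * (G t z).im) - (gp F p t z).re / m.ρ (F t z)) t := by
  have h1 := reCLM.hasFDerivAt.comp_hasDerivAt t (h.acc t z hz)
  refine h1.congr_deriv ?_
  simp only [reCLM_apply]
  rw [← ofReal_inv, sub_re, re_ofReal_mul]
  simp [pow_two]
  ring

lemma VEul.hasDerivAt_G_im (h : VEul m F G p) (t : ℝ) {z : ℂ} (hz : z ∈ UU) :
    HasDerivAt (fun s => (G s z).im) (-(2 * m.l1 (F t z) * (G t z).re * (G t z).im -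
      m.l2 (F t z) * ((G t z).re ^ 2 - (G t z).im ^ 2)) - (gp F p t z).im / m.ρ (F t z)) t := by
  have h1 := imCLM.hasFDerivAt.comp_hasDerivAt t (h.acc t z hz)
  refine h1.congr_deriv ?_
  simp only [imCLM_apply]
  rw [← ofReal_inv, sub_im, im_ofReal_mul]
  simp [pow_two]
  ring

/-- Weber's formula, infinitesimal version. -/
lemma VEul.hasDerivAt_A (h : VEul m F G p) (t : ℝ) {z : ℂ} (hz : z ∈ UU) (w : ℂ) :
    HasDerivAt (fun s => vA m F G s z w)
      (((1 / 2 : ℝ) • vde m F G t z - dp F p t z) w) t := by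
  have h0 := h.R_ne t z hz
  have h1 : HasDerivAt (fun s => (m.ρ (F s z) * (G s z).re) * dRe F s z w +
      (m.ρ (F s z) * (G s z).im) * dIm F s z w) _ t :=
    (((h.hasDerivAt_R t hz).fun_mul (h.hasDerivAt_G_re t hz)).fun_mul
      (h.hasDerivAt_dRe t hz w)).fun_add
    (((h.hasDerivAt_R t hz).fun_mul (h.hasDerivAt_G_im t hz)).fun_mul (h.hasDerivAt_dIm t hz w))
  refine h1.congr_deriv ?_
  simp only [vde, dR, dp, add_apply, smul_apply, sub_apply, smul_eq_mul]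
  field_simp
  ring

/-- The potential in Weber's formula. -/
noncomputable def vpot (m : Met Γ) (F G : ℝ → ℂ → ℂ) (p : ℝ → ℂ → ℝ) (t : ℝ) (z : ℂ) : ℝ :=
  ∫ s in (0:ℝ)..t, vlag m F G p s z

lemma VEul.c1_pot (h : VEul m F G p) (t : ℝ) : ContDiffOn ℝ 1 (vpot m F G p t) UU :=
  contDiffOn_param h.co_lag h.co_dlag (fun t _ hz => h.hasFDerivAt_lag t hz) 0 t

/-- **Weber's formula**. -/
lemma VEul.weber (h : VEul m F G p) (t : ℝ) {z : ℂ} (hz : z ∈ UU) :
    fderiv ℝ (vpot m F G p t) z = vA m F G t z - vA m F G 0 z := by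
  have h1 : HasFDerivAt (vpot m F G p t)
      (∫ s in (0:ℝ)..t, ((1 / 2 : ℝ) • vde m F G s z - dp F p s z)) z :=
    hasFDerivAt_param h.co_lag h.co_dlag (fun t _ hz => h.hasFDerivAt_lag t hz) 0 t hz
  rw [h1.fderiv]
  ext w
  rw [ContinuousLinearMap.intervalIntegral_apply ((h.co_dlag.slice_t hz).intervalIntegrable _ _)]
  rw [sub_apply]
  refine intervalIntegral.integral_eq_sub_of_hasDerivAt (fun s _ => h.hasDerivAt_A s hz w) ?_
  exact ((h.co_dlag.slice_t hz).clm_apply continuous_const).intervalIntegrable _ _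

/-- **Conservation of vorticity**. -/
lemma VEul.om_const (h : VEul m F G p) (t : ℝ) {z : ℂ} (hz : z ∈ UU) :
    vOm m F G t z = vOm m F G 0 z := by
  have h1 := (h.wd_A t).sub (h.wd_A 0)
  have h2 : WD (fun z => vA m F G t z - vA m F G 0 z) (fun _ => 0) :=
    (WD.exact (h.c1_pot t)).congr (fun z hz => (h.weber t hz).symm) (fun _ _ => rfl)
  have := h1.unique h2 z hz
  linarith

/-! ### invariance -/

lemma VEul.G_mob (h : VEul m F G p) (t : ℝ) {g : SL(2, ℝ)} (hg : g ∈ Γ) {z : ℂ} (hz : z ∈ UU) :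
    G t (mob g z) = G t z / (den g (F t z)) ^ 2 := by
  have h1 := h.dF t (mob g z) (mob_mem hz)
  have h2 : HasDerivAt (fun s => F s (mob g z)) (1 / (den g (F t z)) ^ 2 * G t z) t := by
    have h3 : (fun s => F s (mob g z)) = fun s => mob g (F s z) := by
      ext s; exact h.equiv s g hg z hz
    rw [h3]
    exact (hasDerivAt_mob g (h.mem t z hz)).comp_of_eq t (h.dF t z hz) rfl
  rw [h1.unique h2]
  ring

lemma VEul.dF_mob (h : VEul m F G p) (t : ℝ) {g : SL(2, ℝ)} (hg : g ∈ Γ) {z : ℂ} (hz : z ∈ UU)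
    (w : ℂ) : fderiv ℝ (F t) (mob g z) (w / (den g z) ^ 2) =
      fderiv ℝ (F t) z w / (den g (F t z)) ^ 2 := by
  have h1 : HasFDerivAt (fun z => F t (mob g z)) ((fderiv ℝ (F t) (mob g z)).comp
      ((1 / (den g z) ^ 2) • (1 : ℂ →L[ℝ] ℂ))) z :=
    (h.c1F.hasFDerivAt t (mob_mem hz)).comp z (hasFDerivAt_mob g hz)
  have h2 : HasFDerivAt (fun z => F t (mob g z)) (((1 / (den g (F t z)) ^ 2) •
      (1 : ℂ →L[ℝ] ℂ)).comp (fderiv ℝ (F t) z)) z := by
    have h3 : (fun z => F t (mob g z)) =ᶠ[𝓝 z] fun z => mob g (F t z) := by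
      filter_upwards [isOpen_UU.mem_nhds hz] with w hw using h.equiv t g hg w hw
    exact ((hasFDerivAt_mob g (h.mem t z hz)).comp z (h.c1F.hasFDerivAt t hz)).congr_of_eventuallyEq
      h3
  have h4 := DFunLike.congr_fun (h1.unique h2) w
  simp only [ContinuousLinearMap.comp_apply, smul_apply, one_apply_eq_self, smul_eq_mul] at h4
  rw [show w / (den g z) ^ 2 = 1 / (den g z) ^ 2 * w by ring, h4]
  ring

lemma VEul.dG_mob (h : VEul m F G p) (t : ℝ) {g : SL(2, ℝ)} (hg : g ∈ Γ) {z : ℂ} (hz : z ∈ UU)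
    (w : ℂ) : fderiv ℝ (G t) (mob g z) (w / (den g z) ^ 2) =
      fderiv ℝ (G t) z w / (den g (F t z)) ^ 2 -
        2 * ((g 1 0 : ℝ) : ℂ) * fderiv ℝ (F t) z w * G t z / (den g (F t z)) ^ 3 := by
  have hd := den_ne (g := g) (h.mem t z hz)
  have h1 : HasFDerivAt (fun z => G t (mob g z)) ((fderiv ℝ (G t) (mob g z)).comp
      ((1 / (den g z) ^ 2) • (1 : ℂ →L[ℝ] ℂ))) z :=
    (h.c1G.hasFDerivAt t (mob_mem hz)).comp z (hasFDerivAt_mob g hz)
  have hinv : HasDerivAt (fun z : ℂ => ((den g z) ^ 2)⁻¹)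
      (-(2 * den g (F t z) * ((g 1 0 : ℝ) : ℂ)) / ((den g (F t z)) ^ 2) ^ 2) (F t z) := by
    have := ((hasDerivAt_den g (F t z)).fun_pow 2).fun_inv (pow_ne_zero 2 hd)
    simpa using this
  have h2 : HasFDerivAt (fun z => G t (mob g z))
      (G t z • ((((-(2 * den g (F t z) * ((g 1 0 : ℝ) : ℂ)) / ((den g (F t z)) ^ 2) ^ 2)) •
        (1 : ℂ →L[ℝ] ℂ)).comp (fderiv ℝ (F t) z)) + ((den g (F t z)) ^ 2)⁻¹ • fderiv ℝ (G t) z) z := by
    have h3 : (fun z => G t (mob g z)) =ᶠ[𝓝 z] fun z => G t z * ((den g (F t z)) ^ 2)⁻¹ := by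
      filter_upwards [isOpen_UU.mem_nhds hz] with w hw
      rw [h.G_mob t hg hw, div_eq_mul_inv]
    have h4 : HasFDerivAt (fun z => ((den g (F t z)) ^ 2)⁻¹)
        ((((-(2 * den g (F t z) * ((g 1 0 : ℝ) : ℂ)) / ((den g (F t z)) ^ 2) ^ 2)) •
        (1 : ℂ →L[ℝ] ℂ)).comp (fderiv ℝ (F t) z)) z := by
      have h5 : HasFDerivAt (𝕜 := ℝ) (fun z : ℂ => ((den g z) ^ 2)⁻¹)
        (((-(2 * den g (F t z) * ((g 1 0 : ℝ) : ℂ)) / ((den g (F t z)) ^ 2) ^ 2)) •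
        (1 : ℂ →L[ℝ] ℂ)) (F t z) := by
        refine (hinv.hasFDerivAt.restrictScalars ℝ).congr_fderiv ?_
        ext w
        simp [mul_comm]
      exact h5.comp z (h.c1F.hasFDerivAt t hz)
    exact ((h.c1G.hasFDerivAt t hz).fun_mul h4).congr_of_eventuallyEq h3
  have h4 := DFunLike.congr_fun (h1.unique h2) w
  simp only [ContinuousLinearMap.comp_apply, smul_apply, one_apply_eq_self, smul_eq_mul,
    add_apply] at h4
  rw [show w / (den g z) ^ 2 = 1 / (den g z) ^ 2 * w by ring, h4]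
  field_simp
  ring

lemma vA_eq (t : ℝ) (z w : ℂ) :
    vA m F G t z w = m.ρ (F t z) * ((starRingEnd ℂ (G t z)) * fderiv ℝ (F t) z w).re := by
  simp only [vA, add_apply, smul_apply, smul_eq_mul, dRe_apply, dIm_apply, mul_re, conj_re, conj_im]
  ring

lemma vZ_eq (t : ℝ) (z w : ℂ) :
    vZ m F G t z w = m.ρ (F t z) * ((starRingEnd ℂ (G t z)) * fderiv ℝ (F t) z w).im := by
  simp only [vZ, sub_apply, smul_apply, smul_eq_mul, dRe_apply, dIm_apply, mul_im, conj_re, conj_im]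
  ring

lemma ve_eq (t : ℝ) (z : ℂ) : ve m F G t z = m.ρ (F t z) * normSq (G t z) := by
  rw [ve, normSq_apply]; ring

lemma vth_eq (t : ℝ) (z : ℂ) : vth m F G t z =
    (((m.l1 (F t z) : ℂ) - I * (m.l2 (F t z) : ℂ)) * G t z).im := by
  simp [vth, mul_im, sub_re, sub_im]
  ring

lemma vB_eq (t : ℝ) (z w : ℂ) : vB m F G t z w =
    1 / 2 * m.ρ (F t z) * ((starRingEnd ℂ (G t z)) * fderiv ℝ (G t) z w).im +
      1 / 2 * (m.ρ (F t z) * normSq (G t z)) *
        (((m.l1 (F t z) : ℂ) - I * (m.l2 (F t z) : ℂ)) * fderiv ℝ (F t) z w).im := by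
  simp only [vB, ve, sub_apply, add_apply, smul_apply, smul_eq_mul, dRe_apply, dIm_apply,
    mul_im, conj_re, conj_im, normSq_apply]
  simp
  ring

lemma VEul.R_mob (h : VEul m F G p) (t : ℝ) {g : SL(2, ℝ)} (hg : g ∈ Γ) {z : ℂ} (hz : z ∈ UU) :
    m.ρ (F t (mob g z)) = m.ρ (F t z) * normSq (den g (F t z)) ^ 2 := by
  rw [h.equiv t g hg z hz, m.inv g hg _ (h.mem t z hz)]

lemma VEul.L_mob (h : VEul m F G p) (t : ℝ) {g : SL(2, ℝ)} (hg : g ∈ Γ) {z : ℂ} (hz : z ∈ UU) :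
    ((m.l1 (F t (mob g z)) : ℂ) - I * (m.l2 (F t (mob g z)) : ℂ)) =
      ((m.l1 (F t z) : ℂ) - I * (m.l2 (F t z) : ℂ)) * (den g (F t z)) ^ 2 +
        2 * ((g 1 0 : ℝ) : ℂ) * den g (F t z) := by
  rw [h.equiv t g hg z hz, m.linv g hg _ (h.mem t z hz)]

lemma VEul.inv_A (h : VEul m F G p) (t : ℝ) : InvForm Γ (vA m F G t) := by
  intro g hg z hz w
  have hd := den_ne (g := g) (h.mem t z hz)
  have hn : normSq (den g (F t z)) ≠ 0 := by simpa using hd
  rw [vA_eq, vA_eq, h.G_mob t hg hz, h.dF_mob t hg hz, conj_div_mul, h.R_mob t hg hz,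
    ← ofReal_inv, re_ofReal_mul]
  field_simp

lemma VEul.inv_Z (h : VEul m F G p) (t : ℝ) : InvForm Γ (vZ m F G t) := by
  intro g hg z hz w
  have hd := den_ne (g := g) (h.mem t z hz)
  have hn : normSq (den g (F t z)) ≠ 0 := by simpa using hd
  rw [vZ_eq, vZ_eq, h.G_mob t hg hz, h.dF_mob t hg hz, conj_div_mul, h.R_mob t hg hz,
    ← ofReal_inv, im_ofReal_mul]
  field_simp

lemma VEul.inv_e (h : VEul m F G p) (t : ℝ) : InvFun Γ (ve m F G t) := by
  intro g hg z hz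
  have hd := den_ne (g := g) (h.mem t z hz)
  have hn : normSq (den g (F t z)) ≠ 0 := by simpa using hd
  rw [ve_eq, ve_eq, h.G_mob t hg hz, h.R_mob t hg hz, map_div₀, map_pow]
  field_simp

lemma VEul.inv_B (h : VEul m F G p) (t : ℝ) : InvForm Γ (vB m F G t) := by
  intro g hg z hz w
  have hd := den_ne (g := g) (h.mem t z hz)
  have hn : normSq (den g (F t z)) ≠ 0 := by simpa using hd
  rw [vB_eq, vB_eq, h.L_mob t hg hz, h.G_mob t hg hz, h.dF_mob t hg hz, h.dG_mob t hg hz,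
    h.R_mob t hg hz]
  set D := den g (F t z) with hDdef
  set v := fderiv ℝ (F t) z w
  set c : ℝ := g 1 0
  set a := G t z
  set b := fderiv ℝ (G t) z w
  set L : ℂ := (m.l1 (F t z) : ℂ) - I * (m.l2 (F t z) : ℂ)
  have e1 : ((starRingEnd ℂ) (a / D ^ 2) * (b / D ^ 2 - 2 * (c : ℂ) * v * a / D ^ 3)).im =
      (((starRingEnd ℂ) a * b).im - 2 * c * normSq a * (v / D).im) / normSq D ^ 2 := by
    have e2 : (starRingEnd ℂ) (a / D ^ 2) * (b / D ^ 2 - 2 * (c : ℂ) * v * a / D ^ 3) =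
        ((normSq D ^ 2 : ℝ) : ℂ)⁻¹ * (starRingEnd ℂ a * b - ((2 * c * normSq a : ℝ) : ℂ) * (v / D)) := by
      have e3 : b / D ^ 2 - 2 * (c : ℂ) * v * a / D ^ 3 = (b - 2 * (c : ℂ) * v * a / D) / D ^ 2 := by
        field_simp
      rw [e3, conj_div_mul]
      congr 1
      push_cast
      rw [normSq_eq_conj_mul_self]
      ring
    rw [e2, ← ofReal_inv, im_ofReal_mul, sub_im, im_ofReal_mul]
    ring
  have e4 : ((L * D ^ 2 + 2 * (c : ℂ) * D) * (v / D ^ 2)).im = (L * v).im + 2 * c * (v / D).im := by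
    have e5 : (L * D ^ 2 + 2 * (c : ℂ) * D) * (v / D ^ 2) = L * v + ((2 * c : ℝ) : ℂ) * (v / D) := by
      push_cast
      field_simp
    rw [e5, add_im, im_ofReal_mul]
  rw [e1, e4, map_div₀, map_pow]
  field_simp
  ring

lemma VEul.inv_pF (h : VEul m F G p) (t : ℝ) : InvFun Γ (fun z => p t (F t z)) := by
  intro g hg z hz
  simp only
  rw [h.equiv t g hg z hz, h.pinv t g hg _ (h.mem t z hz)]

lemma VEul.inv_lag (h : VEul m F G p) (t : ℝ) : InvFun Γ (vlag m F G p t) := by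
  intro g hg z hz
  rw [vlag, vlag, h.inv_e t g hg z hz]
  have := h.inv_pF t g hg z hz
  simp only at this
  rw [this]

lemma VEul.inv_pot (h : VEul m F G p) (t : ℝ) : InvFun Γ (vpot m F G p t) := by
  intro g hg z hz
  rw [vpot, vpot]
  congr 1
  ext s
  exact h.inv_lag s g hg z hz

end Pool.Agent.CG
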