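import Pool.Agent.Lib.MP_35454f.VFinal

/-!
# Deformations of hyperbolic metrics
-/

set_option autoImplicit false

open Filter Topology Complex Set
open UpperHalfPlane hiding I
open scoped ContDiff Manifold MatrixGroups

namespace Pool.Agent.CG

variable {Γ : Subgroup SL(2, ℝ)} {σ : ℍ → ℝ} {κ : ℝ} {φ : ℝ → ℍ → ℍ}

/-- transformation law for the covariant derivative -/
lemma covDerM_mob (hσ : IsConformalFactor Γ σ) {X : ℍ → ℂ}
    (hX : ContDiffOn ℝ 1 (fun w : ℂ => X (ofComplex w)) {w | 0 < w.im})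
    (hi : ∀ γ ∈ Γ, ∀ z : ℍ,
      X (γ • z) = X z / (((γ 1 0 : ℝ) : ℂ) * z + ((γ 1 1 : ℝ) : ℂ)) ^ 2)
    {g : SL(2, ℝ)} (hg : g ∈ Γ) (z : ℍ) (v : ℂ) :
    covDerM σ X (g • z) (v / (den g z) ^ 2) = covDerM σ X z v / (den g z) ^ 2 := by
  set Xc : ℂ → ℂ := fun w : ℂ => X (ofComplex w) with hXc
  have hz : (z : ℂ) ∈ UU := coe_mem_UU z
  have hd := den_ne (g := g) hz
  have hX1 : ∀ w ∈ UU, HasFDerivAt Xc (fderiv ℝ Xc w) w := fun w hw =>
    ((hX.contDiffAt (isOpen_UU.mem_nhds hw)).differentiableAt one_ne_zero).hasFDerivAt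
  have h1 : HasFDerivAt (fun z => Xc (mob g z)) ((fderiv ℝ Xc (mob g z)).comp
      ((1 / (den g z) ^ 2) • (1 : ℂ →L[ℝ] ℂ))) (z : ℂ) :=
    (hX1 _ (mob_mem hz)).comp (z : ℂ) (hasFDerivAt_mob g hz)
  have hinv : HasDerivAt (fun z : ℂ => ((den g z) ^ 2)⁻¹)
      (-(2 * den g z * ((g 1 0 : ℝ) : ℂ)) / ((den g z) ^ 2) ^ 2) (z : ℂ) := by
    have := ((hasDerivAt_den g (z : ℂ)).fun_pow 2).fun_inv (pow_ne_zero 2 hd)
    simpa using this
  have h2 : HasFDerivAt (fun z => Xc (mob g z))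
      (Xc z • ((((-(2 * den g z * ((g 1 0 : ℝ) : ℂ)) / ((den g z) ^ 2) ^ 2)) •
        (1 : ℂ →L[ℝ] ℂ))) + ((den g z) ^ 2)⁻¹ • fderiv ℝ Xc z) (z : ℂ) := by
    have h3 : (fun z => Xc (mob g z)) =ᶠ[𝓝 (z : ℂ)] fun z => Xc z * ((den g z) ^ 2)⁻¹ := by
      filter_upwards [isOpen_UU.mem_nhds hz] with w hw
      simp only [hXc]
      rw [ofComplex_mob g hw, hi g hg, ofComplex_mem hw, div_eq_mul_inv]
      rfl
    have h5 : HasFDerivAt (𝕜 := ℝ) (fun z : ℂ => ((den g z) ^ 2)⁻¹)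
        (((-(2 * den g z * ((g 1 0 : ℝ) : ℂ)) / ((den g z) ^ 2) ^ 2)) •
        (1 : ℂ →L[ℝ] ℂ)) (z : ℂ) := by
      refine (hinv.hasFDerivAt.restrictScalars ℝ).congr_fderiv ?_
      ext w
      simp [mul_comm]
    exact ((hX1 _ hz).fun_mul h5).congr_of_eventuallyEq h3
  have h4 := DFunLike.congr_fun (h1.unique h2) v
  simp only [ContinuousLinearMap.comp_apply, smul_apply, one_apply_eq_self, smul_eq_mul,
    add_apply] at h4
  have e0 : ((g • z : ℍ) : ℂ) = mob g z := coe_smul_eq g z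
  rw [covDerM, covDerM, e0, hσ.lam_mob hg hz, hi g hg]
  rw [show v / (den g z) ^ 2 = 1 / (den g z) ^ 2 * v by ring]
  change fderiv ℝ Xc (mob g z) (1 / (den g z) ^ 2 * v) + _ * (X z / (den g z) ^ 2) = _
  rw [h4]
  have e1 : Xc z = X z := by simp only [hXc]; rw [ofComplex_apply]
  rw [e1]
  field_simp
  ring

/-- gradient of an invariant function -/
lemma grad_mob {f : ℂ → ℝ} (hf : ∀ w ∈ UU, DifferentiableAt ℝ f w) {g : SL(2, ℝ)}
    (hinv : ∀ w ∈ UU, f (mob g w) = f w) {z : ℂ} (hz : z ∈ UU) :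
    ((fderiv ℝ f (mob g z) 1 : ℝ) : ℂ) - I * ((fderiv ℝ f (mob g z) I : ℝ) : ℂ) =
      (((fderiv ℝ f z 1 : ℝ) : ℂ) - I * ((fderiv ℝ f z I : ℝ) : ℂ)) * (den g z) ^ 2 := by
  have hd := den_ne (g := g) hz
  have h1 : HasFDerivAt (fun z => f (mob g z)) ((fderiv ℝ f (mob g z)).comp
      ((1 / (den g z) ^ 2) • (1 : ℂ →L[ℝ] ℂ))) z :=
    (hf _ (mob_mem hz)).hasFDerivAt.comp z (hasFDerivAt_mob g hz)
  have h2 : HasFDerivAt (fun z => f (mob g z)) (fderiv ℝ f z) z := by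
    refine (hf z hz).hasFDerivAt.congr_of_eventuallyEq ?_
    filter_upwards [isOpen_UU.mem_nhds hz] with w hw using hinv w hw
  have h3 : (((fderiv ℝ f (mob g z) 1 : ℝ) : ℂ) - I * ((fderiv ℝ f (mob g z) I : ℝ) : ℂ)) /
      (den g z) ^ 2 = ((fderiv ℝ f z 1 : ℝ) : ℂ) - I * ((fderiv ℝ f z I : ℝ) : ℂ) := by
    apply re_mul_all
    intro w
    have h5 := DFunLike.congr_fun (h1.unique h2) w
    simp only [ContinuousLinearMap.comp_apply, smul_apply, one_apply_eq_self, smul_eq_mul] at h5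
    rw [clm_eq (fderiv ℝ f (mob g z)), clm_eq (fderiv ℝ f z) w] at h5
    rw [show (((fderiv ℝ f (mob g z) 1 : ℝ) : ℂ) - I * ((fderiv ℝ f (mob g z) I : ℝ) : ℂ)) /
      (den g z) ^ 2 * w = (((fderiv ℝ f (mob g z) 1 : ℝ) : ℂ) -
        I * ((fderiv ℝ f (mob g z) I : ℝ) : ℂ)) * (1 / (den g z) ^ 2 * w) by ring]
    simp only [mul_re, mul_im, sub_re, sub_im, Complex.I_re, Complex.I_im, ofReal_re,
      ofReal_im] at h5 ⊢
    linarith
  field_simp at h3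
  linear_combination h3

/-- Laplacian of an invariant function -/
lemma lap_mob {f : ℂ → ℝ} (hf : ContDiffOn ℝ 2 f UU) {g : SL(2, ℝ)}
    (hinv : ∀ w ∈ UU, f (mob g w) = f w) {z : ℂ} (hz : z ∈ UU) :
    fderiv ℝ (fun w => fderiv ℝ f w 1) (mob g z) 1 + fderiv ℝ (fun w => fderiv ℝ f w I) (mob g z) I =
      (fderiv ℝ (fun w => fderiv ℝ f w 1) z 1 + fderiv ℝ (fun w => fderiv ℝ f w I) z I) *
        normSq (den g z) ^ 2 := by
  have hd := den_ne (g := g) hz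
  have hn : normSq (den g z) ≠ 0 := by simpa using hd
  have hf1 : ∀ w ∈ UU, DifferentiableAt ℝ f w := fun w hw =>
    (hf.contDiffAt (isOpen_UU.mem_nhds hw)).differentiableAt two_ne_zero
  have hfv : ∀ v : ℂ, ∀ w ∈ UU, DifferentiableAt ℝ (fun w => fderiv ℝ f w v) w := by
    intro v w hw
    have h1 : ContDiffOn ℝ 1 (fun w => fderiv ℝ f w v) UU :=
      (hf.fderiv_of_isOpen isOpen_UU (by norm_num)).clm_apply contDiffOn_const
    exact (h1.contDiffAt (isOpen_UU.mem_nhds hw)).differentiableAt one_ne_zero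
  set a : ℂ → ℝ := fun w => fderiv ℝ f w 1 with ha
  set b : ℂ → ℝ := fun w => fderiv ℝ f w I with hb
  set h : ℂ → ℂ := fun w => (a w : ℂ) - I * (b w : ℂ) with hh
  have hh1 : ∀ w ∈ UU, HasFDerivAt h (ofRealCLM.comp (fderiv ℝ a w) -
      I • (ofRealCLM.comp (fderiv ℝ b w))) w := by
    intro w hw
    exact (ofRealCLM.hasFDerivAt.comp w (hfv 1 w hw).hasFDerivAt).sub
      ((ofRealCLM.hasFDerivAt.comp w (hfv I w hw).hasFDerivAt).const_mul I)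
  have h1 : HasFDerivAt (fun z => h (mob g z)) ((ofRealCLM.comp (fderiv ℝ a (mob g z)) -
      I • (ofRealCLM.comp (fderiv ℝ b (mob g z)))).comp
      ((1 / (den g z) ^ 2) • (1 : ℂ →L[ℝ] ℂ))) z :=
    (hh1 _ (mob_mem hz)).comp z (hasFDerivAt_mob g hz)
  have hden : HasFDerivAt (𝕜 := ℝ) (fun z : ℂ => (den g z) ^ 2)
      ((2 * den g z * ((g 1 0 : ℝ) : ℂ)) • (1 : ℂ →L[ℝ] ℂ)) z := by
    have h5 : HasDerivAt (fun z : ℂ => (den g z) ^ 2) (2 * den g z * ((g 1 0 : ℝ) : ℂ)) z := by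
      simpa using (hasDerivAt_den g z).fun_pow 2
    refine (h5.hasFDerivAt.restrictScalars ℝ).congr_fderiv ?_
    ext w
    simp [mul_comm]
  have h2 : HasFDerivAt (fun z => h (mob g z)) (h z • ((2 * den g z * ((g 1 0 : ℝ) : ℂ)) •
      (1 : ℂ →L[ℝ] ℂ)) + ((den g z) ^ 2) • (ofRealCLM.comp (fderiv ℝ a z) -
      I • (ofRealCLM.comp (fderiv ℝ b z)))) z := by
    refine ((hh1 z hz).fun_mul hden).congr_of_eventuallyEq ?_
    filter_upwards [isOpen_UU.mem_nhds hz] with w hw using grad_mob hf1 hinv hw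
  have e1 := DFunLike.congr_fun (h1.unique h2) 1
  have e2 := DFunLike.congr_fun (h1.unique h2) I
  simp only [ContinuousLinearMap.comp_apply, smul_apply, one_apply_eq_self, smul_eq_mul,
    add_apply, sub_apply, ofRealCLM_apply, mul_one] at e1 e2
  rw [clm_eq (fderiv ℝ a (mob g z)), clm_eq (fderiv ℝ b (mob g z))] at e1 e2
  set q : ℂ := 1 / (den g z) ^ 2 with hq
  have hI : I * I = -1 := I_mul_I
  -- complex Laplacian
  have e3 : (((fderiv ℝ a (mob g z) 1 : ℝ) : ℂ) - I * ((fderiv ℝ b (mob g z) 1 : ℝ) : ℂ) +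
      I * (((fderiv ℝ a (mob g z) I : ℝ) : ℂ) - I * ((fderiv ℝ b (mob g z) I : ℝ) : ℂ))) *
      starRingEnd ℂ q =
      (((fderiv ℝ a z 1 : ℝ) : ℂ) - I * ((fderiv ℝ b z 1 : ℝ) : ℂ) +
      I * (((fderiv ℝ a z I : ℝ) : ℂ) - I * ((fderiv ℝ b z I : ℝ) : ℂ))) * (den g z) ^ 2 := by
    have hqc : starRingEnd ℂ q = (q.re : ℂ) - I * (q.im : ℂ) := by
      apply Complex.ext <;> simp
    have hqI : (q * I).re = -q.im ∧ (q * I).im = q.re := by simp
    rw [hqI.1, hqI.2] at e2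
    rw [hqc]
    push_cast at e1 e2 ⊢
    linear_combination e1 + I * e2 + (-(((fderiv ℝ a (mob g z) I : ℝ) : ℂ)) * (q.im : ℂ) +
      h z * (2 * den g z * ((g 1 0 : ℝ) : ℂ)) + I * (q.im : ℂ) *
      ((fderiv ℝ b (mob g z) I : ℝ) : ℂ)) * hI
  have e4 : starRingEnd ℂ q = (den g z) ^ 2 * ((normSq (den g z) ^ 2 : ℝ) : ℂ)⁻¹ := by
    have hcd : starRingEnd ℂ (den g z) ≠ 0 := by simpa using hd
    rw [hq, map_div₀, map_one, map_pow]
    push_cast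
    rw [normSq_eq_conj_mul_self]
    field_simp
  rw [e4] at e3
  have hN : ((normSq (den g z) ^ 2 : ℝ) : ℂ) ≠ 0 := ofReal_ne_zero.mpr (pow_ne_zero 2 hn)
  have e5 : (((fderiv ℝ a (mob g z) 1 : ℝ) : ℂ) - I * ((fderiv ℝ b (mob g z) 1 : ℝ) : ℂ) +
      I * (((fderiv ℝ a (mob g z) I : ℝ) : ℂ) - I * ((fderiv ℝ b (mob g z) I : ℝ) : ℂ))) =
      (((fderiv ℝ a z 1 : ℝ) : ℂ) - I * ((fderiv ℝ b z 1 : ℝ) : ℂ) +
      I * (((fderiv ℝ a z I : ℝ) : ℂ) - I * ((fderiv ℝ b z I : ℝ) : ℂ))) *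
        ((normSq (den g z) ^ 2 : ℝ) : ℂ) := by
    field_simp at e3
    linear_combination e3
  have e6 := congrArg Complex.re e5
  rw [re_mul_ofReal] at e6
  simp only [add_re, sub_re, mul_re, Complex.I_re, Complex.I_im, ofReal_re, ofReal_im, sub_im,
    mul_im] at e6
  linarith

end Pool.Agent.CG
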