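import Pool.Agent.Lib.MP_35454f.VFam

/-!
# Deformations of hyperbolic metrics: the certificate
-/

set_option autoImplicit false

open Filter Topology Complex Set
open UpperHalfPlane hiding I
open scoped ContDiff Manifold MatrixGroups

namespace Pool.Agent.CG

variable {Γ : Subgroup SL(2, ℝ)}

/-- The function as a function of a complex variable. -/
noncomputable def fc (f : ℍ → ℝ) (w : ℂ) : ℝ := f (ofComplex w)
/-- `∂f/∂x` -/
noncomputable def fx (f : ℍ → ℝ) (w : ℂ) : ℝ := fderiv ℝ (fc f) w 1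
/-- `∂f/∂y` -/
noncomputable def fy (f : ℍ → ℝ) (w : ℂ) : ℝ := fderiv ℝ (fc f) w I
/-- `y² Δ f` -/
noncomputable def sc (f : ℍ → ℝ) (w : ℂ) : ℝ :=
  w.im ^ 2 * (fderiv ℝ (fx f) w 1 + fderiv ℝ (fy f) w I)
/-- the deformed conformal factor -/
noncomputable def sig (f : ℍ → ℝ) (ε : ℝ) (z : ℍ) : ℝ := 1 + ε * hypLap f z

lemma sig_eq (f : ℍ → ℝ) (ε : ℝ) {w : ℂ} (hw : w ∈ UU) :
    sig f ε (ofComplex w) = 1 + ε * sc f w := by
  rw [sig, hypLap, sc]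
  have h1 : (ofComplex w).im = w.im := by rw [← UpperHalfPlane.coe_im, ofComplex_mem hw]
  rw [h1, ofComplex_mem hw]
  rfl

/-- The hypotheses on `f`. -/
structure Good (Γ : Subgroup SL(2, ℝ)) (f : ℍ → ℝ) : Prop where
  c4 : ContDiffOn ℝ 4 (fc f) UU
  inv : ∀ γ ∈ Γ, ∀ z, f (γ • z) = f z

variable {f : ℍ → ℝ}

lemma Good.c3x (h : Good Γ f) : ContDiffOn ℝ 3 (fx f) UU :=
  (h.c4.fderiv_of_isOpen isOpen_UU (by norm_num)).clm_apply contDiffOn_const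

lemma Good.c3y (h : Good Γ f) : ContDiffOn ℝ 3 (fy f) UU :=
  (h.c4.fderiv_of_isOpen isOpen_UU (by norm_num)).clm_apply contDiffOn_const

lemma Good.c2s (h : Good Γ f) : ContDiffOn ℝ 2 (sc f) UU := by
  have h1 : ContDiffOn ℝ 2 (fun w : ℂ => w.im ^ 2) UU := (imCLM.contDiff.pow 2).contDiffOn
  exact h1.mul (((h.c3x.fderiv_of_isOpen isOpen_UU (by norm_num)).clm_apply contDiffOn_const).add
    ((h.c3y.fderiv_of_isOpen isOpen_UU (by norm_num)).clm_apply contDiffOn_const))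

lemma Good.c1sx (h : Good Γ f) (v : ℂ) : ContDiffOn ℝ 1 (fun w => fderiv ℝ (sc f) w v) UU :=
  (h.c2s.fderiv_of_isOpen isOpen_UU (by norm_num)).clm_apply contDiffOn_const

lemma Good.fc_mob (h : Good Γ f) {g : SL(2, ℝ)} (hg : g ∈ Γ) {w : ℂ} (hw : w ∈ UU) :
    fc f (mob g w) = fc f w := by
  rw [fc, fc, ofComplex_mob g hw, h.inv g hg]

lemma Good.sc_mob (h : Good Γ f) {g : SL(2, ℝ)} (hg : g ∈ Γ) {w : ℂ} (hw : w ∈ UU) :
    sc f (mob g w) = sc f w := by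
  have hd := den_ne (g := g) hw
  have hn : normSq (den g w) ≠ 0 := by simpa using hd
  have h1 := lap_mob (f := fc f) (h.c4.of_le (by norm_num)) (g := g)
    (fun w hw => h.fc_mob hg hw) hw
  rw [sc, sc, im_mob g hw]
  change (w.im / normSq (den g w)) ^ 2 *
    (fderiv ℝ (fun w => fderiv ℝ (fc f) w 1) (mob g w) 1 +
      fderiv ℝ (fun w => fderiv ℝ (fc f) w I) (mob g w) I) = _
  rw [h1]
  change _ = w.im ^ 2 * (fderiv ℝ (fun w => fderiv ℝ (fc f) w 1) w 1 +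
      fderiv ℝ (fun w => fderiv ℝ (fc f) w I) w I)
  field_simp

lemma Good.conf (h : Good Γ f) {ε : ℝ} (hε : ∀ w ∈ UU, 0 < 1 + ε * sc f w) :
    IsConformalFactor Γ (sig f ε) := by
  refine ⟨fun z => ?_, fun γ hγ z => ?_, ?_⟩
  · have := hε z (coe_mem_UU z)
    rw [← sig_eq f ε (coe_mem_UU z), ofComplex_apply] at this
    exact this
  · have h1 := sig_eq f ε (coe_mem_UU z)
    have h2 := sig_eq f ε (coe_mem_UU (γ • z))
    rw [ofComplex_apply] at h1 h2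
    rw [h1, h2, coe_smul_eq, h.sc_mob hγ (coe_mem_UU z)]
  · refine ContDiffOn.congr (contDiffOn_const.add (contDiffOn_const.mul h.c2s))
      fun w hw => sig_eq f ε hw

lemma rho_sig (f : ℍ → ℝ) (ε : ℝ) {w : ℂ} (hw : w ∈ UU) :
    rho (sig f ε) w = (1 + ε * sc f w) / w.im ^ 2 := by
  rw [rho, sig_eq f ε hw]

lemma Good.fderiv_rho (h : Good Γ f) (ε : ℝ) {w : ℂ} (hw : w ∈ UU) (v : ℂ) :
    fderiv ℝ (rho (sig f ε)) w v = ε * fderiv ℝ (sc f) w v / w.im ^ 2 -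
      2 * (1 + ε * sc f w) * v.im / w.im ^ 3 := by
  have hy : w.im ≠ 0 := (mem_UU.mp hw).ne'
  have hs : HasFDerivAt (fun w => 1 + ε * sc f w) (ε • fderiv ℝ (sc f) w) w :=
    (((h.c2s.contDiffAt (isOpen_UU.mem_nhds hw)).differentiableAt
      two_ne_zero).hasFDerivAt.const_mul ε).const_add 1
  have hi : HasFDerivAt (fun w : ℂ => w.im) imCLM w := imCLM.hasFDerivAt
  have h1 := hasFDerivAt_div_pow hs hi hy 2
  have h3 : rho (sig f ε) =ᶠ[𝓝 w] fun w => (1 + ε * sc f w) / w.im ^ 2 := by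
    filter_upwards [isOpen_UU.mem_nhds hw] with z hz using rho_sig f ε hz
  have h2 := h1.congr_of_eventuallyEq h3
  rw [h2.fderiv]
  simp only [sub_apply, smul_apply, smul_eq_mul, imCLM_apply]
  push_cast
  ring

lemma Good.lamX_sig (h : Good Γ f) (ε : ℝ) {w : ℂ} (hw : w ∈ UU) (h0 : 1 + ε * sc f w ≠ 0) :
    lamX (sig f ε) w = 1 / 2 * ε * fderiv ℝ (sc f) w 1 / (1 + ε * sc f w) := by
  have hy : w.im ≠ 0 := (mem_UU.mp hw).ne'
  rw [lamX, h.fderiv_rho ε hw, rho_sig f ε hw]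
  simp only [one_im]
  field_simp
  try ring

lemma Good.lamY_sig (h : Good Γ f) (ε : ℝ) {w : ℂ} (hw : w ∈ UU) (h0 : 1 + ε * sc f w ≠ 0) :
    lamY (sig f ε) w = 1 / 2 * ε * fderiv ℝ (sc f) w I / (1 + ε * sc f w) - 1 / w.im := by
  have hy : w.im ≠ 0 := (mem_UU.mp hw).ne'
  rw [lamY, h.fderiv_rho ε hw, rho_sig f ε hw]
  simp only [Complex.I_im]
  field_simp
  try ring

/-- The field, up to the factor `ε`, as a function of `(ε, w)`. -/
noncomputable def YY (f : ℍ → ℝ) (q : ℝ × ℂ) : ℂ :=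
  ((q.2.im ^ 2 / (1 + q.1 * sc f q.2) : ℝ) : ℂ) *
    (((fx f q.2 - 1 / 2 * fderiv ℝ (sc f) q.2 1 / (1 + q.1 * sc f q.2) : ℝ) : ℂ) +
      I * ((fy f q.2 - 1 / 2 * fderiv ℝ (sc f) q.2 I / (1 + q.1 * sc f q.2) : ℝ) : ℂ))

/-- The domain. -/
def OO (f : ℍ → ℝ) : Set (ℝ × ℂ) := {q | q.2 ∈ UU ∧ 0 < 1 + q.1 * sc f q.2}

lemma snd_maps : Set.MapsTo (Prod.snd : ℝ × ℂ → ℂ) (OO f) UU := fun _ hq => hq.1

lemma Good.isOpen_OO (h : Good Γ f) : IsOpen (OO f) := by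
  have h1 : IsOpen {q : ℝ × ℂ | q.2 ∈ UU} := isOpen_UU.preimage continuous_snd
  have h2 : ContinuousOn (fun q : ℝ × ℂ => 1 + q.1 * sc f q.2) {q : ℝ × ℂ | q.2 ∈ UU} :=
    continuousOn_const.add (continuousOn_fst.mul (h.c2s.continuousOn.comp continuousOn_snd
      fun q hq => hq))
  exact h2.isOpen_inter_preimage h1 isOpen_Ioi

lemma Good.contDiffOn_YY (h : Good Γ f) : ContDiffOn ℝ 1 (YY f) (OO f) := by
  have hs : ContDiffOn ℝ 1 (fun q : ℝ × ℂ => 1 + q.1 * sc f q.2) (OO f) :=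
    contDiffOn_const.add (contDiff_fst.contDiffOn.mul
      ((h.c2s.of_le (by norm_num)).comp contDiff_snd.contDiffOn snd_maps))
  have h0 : ∀ q ∈ OO f, 1 + q.1 * sc f q.2 ≠ 0 := fun q hq => hq.2.ne'
  have hx : ContDiffOn ℝ 1 (fun q : ℝ × ℂ => fx f q.2) (OO f) :=
    (h.c3x.of_le (by norm_num)).comp contDiff_snd.contDiffOn snd_maps
  have hy : ContDiffOn ℝ 1 (fun q : ℝ × ℂ => fy f q.2) (OO f) :=
    (h.c3y.of_le (by norm_num)).comp contDiff_snd.contDiffOn snd_maps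
  have hsv : ∀ v, ContDiffOn ℝ 1 (fun q : ℝ × ℂ => fderiv ℝ (sc f) q.2 v) (OO f) := fun v =>
    (h.c1sx v).comp contDiff_snd.contDiffOn snd_maps
  have him : ContDiffOn ℝ 1 (fun q : ℝ × ℂ => q.2.im ^ 2) (OO f) :=
    ((imCLM.contDiff.comp contDiff_snd).pow 2).contDiffOn
  refine ContDiffOn.mul (ofRealCLM.contDiff.comp_contDiffOn (him.div hs h0)) (ContDiffOn.add
    (ofRealCLM.contDiff.comp_contDiffOn (hx.sub ((contDiffOn_const.mul (hsv 1)).div hs h0)))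
    (contDiffOn_const.mul (ofRealCLM.contDiff.comp_contDiffOn
      (hy.sub ((contDiffOn_const.mul (hsv I)).div hs h0)))))

/-- The certificate field. -/
noncomputable def XX (f : ℍ → ℝ) (ε : ℝ) (z : ℍ) : ℂ := (ε : ℂ) * YY f (ε, (z : ℂ))

lemma XX_eq (f : ℍ → ℝ) (ε : ℝ) {w : ℂ} (hw : w ∈ UU) :
    XX f ε (ofComplex w) = (ε : ℂ) * YY f (ε, w) := by
  rw [XX, ofComplex_mem hw]

lemma Good.XX_form (h : Good Γ f) (ε : ℝ) {w : ℂ} (hw : w ∈ UU) (h0 : 0 < 1 + ε * sc f w) :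
    (ε : ℂ) * YY f (ε, w) = (((ε * fx f w - lamX (sig f ε) w : ℝ) : ℂ) +
      I * ((ε * fy f w - lamY (sig f ε) w - 1 / w.im : ℝ) : ℂ)) / (rho (sig f ε) w : ℂ) := by
  have hy : w.im ≠ 0 := (mem_UU.mp hw).ne'
  have hyc : (w.im : ℂ) ≠ 0 := ofReal_ne_zero.mpr hy
  have h0c : (1 + (ε : ℂ) * (sc f w : ℂ)) ≠ 0 := by exact_mod_cast h0.ne'
  rw [h.lamX_sig ε hw h0.ne', h.lamY_sig ε hw h0.ne', rho_sig f ε hw, YY]
  simp only
  push_cast
  field_simp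
  ring

lemma Good.contDiffOn_XX (h : Good Γ f) {ε : ℝ} (hε : ∀ w ∈ UU, 0 < 1 + ε * sc f w) :
    ContDiffOn ℝ 1 (fun w : ℂ => XX f ε (ofComplex w)) {w | 0 < w.im} := by
  refine ContDiffOn.congr (f := fun w : ℂ => (ε : ℂ) * YY f (ε, w)) ?_ fun w hw => XX_eq f ε hw
  refine contDiffOn_const.mul (h.contDiffOn_YY.comp
    (contDiff_const.prodMk contDiff_id : ContDiff ℝ 1 fun w : ℂ => (ε, w)).contDiffOn
    fun w hw => ⟨hw, hε w hw⟩)

lemma Good.XX_inv (h : Good Γ f) {ε : ℝ} (hε : ∀ w ∈ UU, 0 < 1 + ε * sc f w)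
    {g : SL(2, ℝ)} (hg : g ∈ Γ) (z : ℍ) :
    XX f ε (g • z) = XX f ε z / (((g 1 0 : ℝ) : ℂ) * z + ((g 1 1 : ℝ) : ℂ)) ^ 2 := by
  have hz := coe_mem_UU z
  have hd := den_ne (g := g) hz
  have hn : normSq (den g z) ≠ 0 := by simpa using hd
  have hcd : starRingEnd ℂ (den g (z : ℂ)) ≠ 0 := by simpa using hd
  have hσ := h.conf hε
  have hz' : (mob g z) ∈ UU := mob_mem hz
  have hy : (z : ℂ).im ≠ 0 := (mem_UU.mp hz).ne'
  rw [XX, XX, coe_smul_eq, h.XX_form ε hz' (hε _ hz'), h.XX_form ε hz (hε _ hz)]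
  change _ = _ / (den g z) ^ 2
  have h1 := grad_mob (f := fc f) (g := g)
    (fun w hw => (h.c4.contDiffAt (isOpen_UU.mem_nhds hw)).differentiableAt four_ne_zero)
    (fun w hw => h.fc_mob hg hw) hz
  have h2 := hσ.lam_mob hg hz
  have h3 : (1 / (mob g z).im : ℂ) * I = I * (den g z) ^ 2 / ((z : ℂ).im : ℂ) +
      2 * ((g 1 0 : ℝ) : ℂ) * den g z := by
    rw [im_mob g hz]
    push_cast
    rw [normSq_eq_conj_mul_self]
    have e6 : starRingEnd ℂ (den g z) = den g z - 2 * I * ((g 1 0 * (z : ℂ).im : ℝ) : ℂ) := by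
      rw [← im_den]
      apply Complex.ext <;> simp
      ring
    have hyc : ((z : ℂ).im : ℂ) ≠ 0 := ofReal_ne_zero.mpr hy
    rw [one_div_div, e6]
    push_cast
    field_simp
    linear_combination (-2 * ((g 1 0 : ℝ) : ℂ) * ((z : ℂ).im : ℂ)) * I_mul_I
  have h4 : ((ε * fx f (mob g z) - lamX (sig f ε) (mob g z) : ℝ) : ℂ) -
      I * ((ε * fy f (mob g z) - lamY (sig f ε) (mob g z) - 1 / (mob g z).im : ℝ) : ℂ) =
      (((ε * fx f z - lamX (sig f ε) z : ℝ) : ℂ) -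
      I * ((ε * fy f z - lamY (sig f ε) z - 1 / (z : ℂ).im : ℝ) : ℂ)) * (den g z) ^ 2 := by
    have h1' : ((fx f (mob g z) : ℝ) : ℂ) - I * ((fy f (mob g z) : ℝ) : ℂ) =
      (((fx f z : ℝ) : ℂ) - I * ((fy f z : ℝ) : ℂ)) * (den g z) ^ 2 := h1
    push_cast
    have hyc : ((z : ℂ).im : ℂ) ≠ 0 := ofReal_ne_zero.mpr hy
    have h3' : I / ((mob g z).im : ℂ) = I * (den g z) ^ 2 / ((z : ℂ).im : ℂ) +
      2 * ((g 1 0 : ℝ) : ℂ) * den g z := by rw [← h3]; ring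
    linear_combination (ε : ℂ) * h1' - h2 + h3'
  have h5 := congrArg (starRingEnd ℂ) h4
  simp only [map_sub, map_mul, conj_I, conj_ofReal, map_pow, neg_mul, sub_neg_eq_add] at h5
  rw [h5, hσ.rho_mob hg hz]
  push_cast
  rw [normSq_eq_conj_mul_self]
  have hr : (rho (sig f ε) z : ℂ) ≠ 0 := ofReal_ne_zero.mpr (hσ.rho_pos hz).ne'
  field_simp

end Pool.Agent.CG
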