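import Pool.Agent.Lib.MP_35454f.VFam2

/-!
# Deformations of hyperbolic metrics: no closed geodesics
-/

set_option autoImplicit false

open Filter Topology Complex Set
open UpperHalfPlane hiding I
open scoped ContDiff Manifold MatrixGroups

namespace Pool.Agent.CG

variable {Γ : Subgroup SL(2, ℝ)} {f : ℍ → ℝ}

lemma fieldX_XX (h : Good Γ f) {ε : ℝ} (hε : ∀ w ∈ UU, 0 < 1 + ε * sc f w) {w : ℂ} (hw : w ∈ UU) :
    rho (sig f ε) w * fieldX (XX f ε) w = ε * fx f w - lamX (sig f ε) w := by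
  have hr := ((h.conf hε).rho_pos hw).ne'
  rw [fieldX, XX_eq f ε hw, h.XX_form ε hw (hε w hw)]
  rw [div_eq_mul_inv, ← ofReal_inv, re_mul_ofReal]
  simp only [add_re, mul_re, Complex.I_re, Complex.I_im, ofReal_re, ofReal_im]
  field_simp
  ring

lemma fieldY_XX (h : Good Γ f) {ε : ℝ} (hε : ∀ w ∈ UU, 0 < 1 + ε * sc f w) {w : ℂ} (hw : w ∈ UU) :
    rho (sig f ε) w * fieldY (XX f ε) w = ε * fy f w - lamY (sig f ε) w - 1 / w.im := by
  have hr := ((h.conf hε).rho_pos hw).ne'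
  rw [fieldY, XX_eq f ε hw, h.XX_form ε hw (hε w hw)]
  rw [div_eq_mul_inv, ← ofReal_inv, im_mul_ofReal]
  simp only [add_im, mul_im, Complex.I_re, Complex.I_im, ofReal_re, ofReal_im]
  field_simp
  ring

lemma Good.div_XX (h : Good Γ f) {ε : ℝ} (hε : ∀ w ∈ UU, 0 < 1 + ε * sc f w) (z : ℍ) :
    divM (sig f ε) (XX f ε) z = curvature (sig f ε) z - (-1) := by
  have hz := coe_mem_UU z
  have hn := isOpen_UU.mem_nhds hz
  have hσ := h.conf hε
  have hr := (hσ.rho_pos hz).ne'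
  have hy : (z : ℂ).im ≠ 0 := (mem_UU.mp hz).ne'
  have hdx := ((h.c3x.contDiffAt hn).differentiableAt three_ne_zero).hasFDerivAt
  have hdy := ((h.c3y.contDiffAt hn).differentiableAt three_ne_zero).hasFDerivAt
  have hlx := (((hσ.met.hl1).contDiffAt hn).differentiableAt one_ne_zero).hasFDerivAt
  have hly := (((hσ.met.hl2).contDiffAt hn).differentiableAt one_ne_zero).hasFDerivAt
  have e1 : (fun w => rho (sig f ε) w * fieldX (XX f ε) w) =ᶠ[𝓝 (z : ℂ)]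
      fun w => ε * fx f w - lamX (sig f ε) w := by
    filter_upwards [hn] with w hw using fieldX_XX h hε hw
  have e2 : (fun w => rho (sig f ε) w * fieldY (XX f ε) w) =ᶠ[𝓝 (z : ℂ)]
      fun w => ε * fy f w - lamY (sig f ε) w - 1 / w.im := by
    filter_upwards [hn] with w hw using fieldY_XX h hε hw
  have h1 : HasFDerivAt (fun w => ε * fx f w - lamX (sig f ε) w)
      (ε • fderiv ℝ (fx f) z - fderiv ℝ (lamX (sig f ε)) z) (z : ℂ) :=
    (hdx.const_mul ε).sub hlx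
  have hi : HasFDerivAt (fun w : ℂ => w.im) imCLM (z : ℂ) := imCLM.hasFDerivAt
  have hi2 : HasFDerivAt (fun w : ℂ => 1 / w.im)
      ((-(1 / (z : ℂ).im ^ 2)) • imCLM) (z : ℂ) := by
    have := hasFDerivAt_div_pow (hasFDerivAt_const (1 : ℝ) (z : ℂ)) hi hy 1
    simp only [pow_one] at this
    refine this.congr_fderiv ?_
    ext w
    simp
  have h2 : HasFDerivAt (fun w => ε * fy f w - lamY (sig f ε) w - 1 / w.im)
      (ε • fderiv ℝ (fy f) z - fderiv ℝ (lamY (sig f ε)) z -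
        (-(1 / (z : ℂ).im ^ 2)) • imCLM) (z : ℂ) :=
    ((hdy.const_mul ε).sub hly).sub hi2
  rw [divM, curvature, e1.fderiv_eq, e2.fderiv_eq, h1.fderiv, h2.fderiv]
  simp only [sub_apply, smul_apply, smul_eq_mul, imCLM_apply, Complex.I_im]
  rw [eq_comm, eq_div_iff hr]
  rw [sub_mul, div_mul_cancel₀ _ hr, rho_sig f ε hz, sc]
  field_simp
  ring

/-- `∂λ/∂x` as a function of `(ε, w)` -/
noncomputable def LX (f : ℍ → ℝ) (q : ℝ × ℂ) : ℝ :=
  1 / 2 * q.1 * fderiv ℝ (sc f) q.2 1 / (1 + q.1 * sc f q.2)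
/-- `∂λ/∂y` as a function of `(ε, w)` -/
noncomputable def LY (f : ℍ → ℝ) (q : ℝ × ℂ) : ℝ :=
  1 / 2 * q.1 * fderiv ℝ (sc f) q.2 I / (1 + q.1 * sc f q.2) - 1 / q.2.im

/-- `⟨∇_v X, v⟩` as a function of `(ε, w, v)` -/
noncomputable def PH (f : ℍ → ℝ) (p : ℝ × (ℂ × ℂ)) : ℝ :=
  ((starRingEnd ℂ p.2.2) * ((p.1 : ℂ) * (fderiv ℝ (YY f) (p.1, p.2.1) (0, p.2.2) +
    ((LX f (p.1, p.2.1) : ℂ) - I * (LY f (p.1, p.2.1) : ℂ)) * p.2.2 * YY f (p.1, p.2.1)))).re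

/-- the domain of `PH` -/
def DD (f : ℍ → ℝ) : Set (ℝ × (ℂ × ℂ)) := {p | (p.1, p.2.1) ∈ OO f}

lemma Good.isOpen_DD (h : Good Γ f) : IsOpen (DD f) :=
  h.isOpen_OO.preimage (continuous_fst.prodMk (continuous_fst.comp continuous_snd))

lemma Good.continuousOn_PH (h : Good Γ f) : ContinuousOn (PH f) (DD f) := by
  have hpr : Continuous fun p : ℝ × (ℂ × ℂ) => (p.1, p.2.1) :=
    continuous_fst.prodMk (continuous_fst.comp continuous_snd)
  have hm : Set.MapsTo (fun p : ℝ × (ℂ × ℂ) => (p.1, p.2.1)) (DD f) (OO f) := fun p hp => hp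
  have hs : ContinuousOn (fun q : ℝ × ℂ => 1 + q.1 * sc f q.2) (OO f) :=
    continuousOn_const.add (continuousOn_fst.mul
      (h.c2s.continuousOn.comp continuousOn_snd snd_maps))
  have h0 : ∀ q ∈ OO f, 1 + q.1 * sc f q.2 ≠ 0 := fun q hq => hq.2.ne'
  have hsv : ∀ v, ContinuousOn (fun q : ℝ × ℂ => fderiv ℝ (sc f) q.2 v) (OO f) := fun v =>
    (h.c1sx v).continuousOn.comp continuousOn_snd snd_maps
  have hLX : ContinuousOn (LX f) (OO f) :=
    ((continuousOn_const.mul continuousOn_fst).mul (hsv 1)).div hs h0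
  have hLY : ContinuousOn (LY f) (OO f) := by
    refine (((continuousOn_const.mul continuousOn_fst).mul (hsv I)).div hs h0).sub
      (continuousOn_const.div (Complex.continuous_im.comp_continuousOn continuousOn_snd) ?_)
    intro q hq
    exact (mem_UU.mp hq.1).ne'
  have hY : ContinuousOn (YY f) (OO f) := h.contDiffOn_YY.continuousOn
  have hdY : ContinuousOn (fun q => fderiv ℝ (YY f) q) (OO f) :=
    h.contDiffOn_YY.continuousOn_fderiv_of_isOpen h.isOpen_OO (by simp)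
  have hv : ContinuousOn (fun p : ℝ × (ℂ × ℂ) => p.2.2) (DD f) :=
    (continuous_snd.comp continuous_snd).continuousOn
  have h0v : ContinuousOn (fun p : ℝ × (ℂ × ℂ) => ((0 : ℝ), p.2.2)) (DD f) :=
    continuousOn_const.prodMk hv
  have hε : ContinuousOn (fun p : ℝ × (ℂ × ℂ) => (p.1 : ℂ)) (DD f) :=
    (continuous_ofReal.comp continuous_fst).continuousOn
  have c1 : ContinuousOn (fun p : ℝ × (ℂ × ℂ) => fderiv ℝ (YY f) (p.1, p.2.1) (0, p.2.2))
      (DD f) := (hdY.comp hpr.continuousOn hm).clm_apply h0v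
  have c2 : ContinuousOn (fun p : ℝ × (ℂ × ℂ) => (LX f (p.1, p.2.1) : ℂ)) (DD f) :=
    continuous_ofReal.comp_continuousOn (hLX.comp hpr.continuousOn hm)
  have c3 : ContinuousOn (fun p : ℝ × (ℂ × ℂ) => (LY f (p.1, p.2.1) : ℂ)) (DD f) :=
    continuous_ofReal.comp_continuousOn (hLY.comp hpr.continuousOn hm)
  have c4 : ContinuousOn (fun p : ℝ × (ℂ × ℂ) => YY f (p.1, p.2.1)) (DD f) :=
    hY.comp hpr.continuousOn hm
  refine continuous_re.comp_continuousOn ((continuous_conj.comp_continuousOn hv).mul (hε.mul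
    (c1.add (((c2.sub (continuousOn_const.mul c3)).mul hv).mul c4))))

/-- Uniform positivity on a compact set. -/
lemma Good.exists_eps (h : Good Γ f) {K : Set ℂ} (hK : IsCompact K) (hKU : K ⊆ UU) :
    ∃ ε₀ : ℝ, 0 < ε₀ ∧ ∀ ε : ℝ, |ε| < ε₀ → ∀ w ∈ K, ∀ v : ℂ, ‖v‖ = 1 →
      (ε, w) ∈ OO f ∧ -(1 / 2) < PH f (ε, (w, v)) := by
  have hopen : IsOpen (DD f ∩ PH f ⁻¹' Ioi (-(1/2))) :=
    h.continuousOn_PH.isOpen_inter_preimage h.isOpen_DD isOpen_Ioi
  have hsph : IsCompact (Metric.sphere (0 : ℂ) 1) := isCompact_sphere 0 1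
  have hsub : ({0} : Set ℝ) ×ˢ (K ×ˢ Metric.sphere (0 : ℂ) 1) ⊆
      DD f ∩ PH f ⁻¹' Ioi (-(1/2)) := by
    rintro ⟨ε, w, v⟩ ⟨hε, hw, -⟩
    simp only [mem_singleton_iff] at hε
    subst hε
    refine ⟨⟨hKU hw, by simp⟩, ?_⟩
    simp only [mem_preimage, PH, mem_Ioi]
    simp
  obtain ⟨u, v, hu, hv, hsu, hsv, huv⟩ :=
    generalized_tube_lemma isCompact_singleton (hK.prod hsph) hopen hsub
  obtain ⟨ε₀, hε₀, hball⟩ := Metric.isOpen_iff.mp hu 0 (hsu rfl)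
  refine ⟨ε₀, hε₀, fun ε hε w hw v' hv' => ?_⟩
  have h1 : (ε, (w, v')) ∈ u ×ˢ v := by
    refine ⟨hball ?_, hsv ⟨hw, ?_⟩⟩
    · simpa [Metric.mem_ball, dist_eq_norm] using hε
    · simpa using hv'
  exact huv h1

lemma covDerM_smul (σ : ℍ → ℝ) (X : ℍ → ℂ) (z : ℍ) (r : ℝ) (v : ℂ) :
    covDerM σ X z ((r : ℂ) * v) = (r : ℂ) * covDerM σ X z v := by
  rw [covDerM, covDerM, ← real_smul (x := r) (z := v), map_smul]
  simp only [real_smul]
  ring

lemma Good.PH_eq (h : Good Γ f) {ε : ℝ} (hε : ∀ w ∈ UU, 0 < 1 + ε * sc f w) (z : ℍ) (v : ℂ) :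
    ((starRingEnd ℂ v) * covDerM (sig f ε) (XX f ε) z v).re = PH f (ε, ((z : ℂ), v)) := by
  have hz := coe_mem_UU z
  have hn := isOpen_UU.mem_nhds hz
  have hO : (ε, (z : ℂ)) ∈ OO f := ⟨hz, hε _ hz⟩
  have e1 : (fun w : ℂ => XX f ε (ofComplex w)) =ᶠ[𝓝 (z : ℂ)] fun w => (ε : ℂ) * YY f (ε, w) := by
    filter_upwards [hn] with w hw using XX_eq f ε hw
  have h1 : HasFDerivAt (YY f) (fderiv ℝ (YY f) (ε, (z : ℂ))) (ε, (z : ℂ)) :=
    ((h.contDiffOn_YY.contDiffAt (h.isOpen_OO.mem_nhds hO)).differentiableAt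
      one_ne_zero).hasFDerivAt
  have h2 : HasFDerivAt (fun w : ℂ => (ε, w)) ((0 : ℂ →L[ℝ] ℝ).prod (1 : ℂ →L[ℝ] ℂ)) (z : ℂ) :=
    (hasFDerivAt_const ε (z : ℂ)).prodMk (hasFDerivAt_id (z : ℂ))
  have h3 := (h1.comp (z : ℂ) h2).const_mul (ε : ℂ)
  have h4 : HasFDerivAt (fun w : ℂ => XX f ε (ofComplex w)) _ (z : ℂ) :=
    h3.congr_of_eventuallyEq e1
  rw [covDerM, h4.fderiv, h.lamX_sig ε hz (hε _ hz).ne', h.lamY_sig ε hz (hε _ hz).ne', XX, PH]
  congr 2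
  simp only [smul_apply, ContinuousLinearMap.comp_apply, ContinuousLinearMap.prod_apply,
    zero_apply, one_apply_eq_self, smul_eq_mul, LX, LY]
  ring

/-- **Every small deformation has no closed geodesic.** -/
theorem exists_deformation (hΓ : IsClosedSurfaceGroup Γ)
    (hf : ContDiffOn ℝ 4 (fun w : ℂ => f (ofComplex w)) {w | 0 < w.im})
    (hi : ∀ γ ∈ Γ, ∀ z, f (γ • z) = f z) :
    ∃ ε₀ : ℝ, 0 < ε₀ ∧ ∀ ε : ℝ, |ε| < ε₀ →
      IsConformalFactor Γ (fun z => 1 + ε * hypLap f z) ∧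
      NoClosedGeodesic Γ (fun z => 1 + ε * hypLap f z) := by
  have h : Good Γ f := ⟨hf, hi⟩
  obtain ⟨K, hK, hcov⟩ := hΓ.cocompact
  have hKc : IsCompact (UpperHalfPlane.coe '' K) := hK.image continuous_coe
  have hKU : UpperHalfPlane.coe '' K ⊆ UU := by
    rintro _ ⟨z, -, rfl⟩; exact coe_mem_UU z
  obtain ⟨ε₀, hε₀, hall⟩ := h.exists_eps hKc hKU
  refine ⟨ε₀, hε₀, fun ε hε => ?_⟩
  have hpos : ∀ w ∈ UU, 0 < 1 + ε * sc f w := by
    intro w hw
    obtain ⟨γ, hγ, hγK⟩ := hcov (ofComplex w)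
    have h1 := (hall ε hε _ ⟨_, hγK, rfl⟩ 1 (by simp)).1.2
    simp only at h1
    rw [coe_smul_eq, ofComplex_mem hw, h.sc_mob hγ hw] at h1
    exact h1
  have hσ := h.conf hpos
  refine ⟨hσ, ?_⟩
  have hcert : IsCertificate Γ (sig f ε) (-1) (XX f ε) := by
    refine ⟨h.contDiffOn_XX hpos, fun γ hγ z => h.XX_inv hpos hγ z, fun z => h.div_XX hpos z, ?_⟩
    -- on the compact set
    have key : ∀ z ∈ K, ∀ v : ℂ, v ≠ 0 → -1 / 2 * normSq v <
        ((starRingEnd ℂ v) * covDerM (sig f ε) (XX f ε) z v).re := by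
      intro z hz v hv
      have hn : 0 < ‖v‖ := norm_pos_iff.mpr hv
      have hv1 : ‖v / (‖v‖ : ℂ)‖ = 1 := by
        rw [norm_div, norm_real, norm_norm, div_self hn.ne']
      have h1 := (hall ε hε _ ⟨_, hz, rfl⟩ _ hv1).2
      rw [← h.PH_eq hpos] at h1
      have hnc : (‖v‖ : ℂ) ≠ 0 := ofReal_ne_zero.mpr hn.ne'
      have e1 : v = (‖v‖ : ℂ) * (v / (‖v‖ : ℂ)) := by field_simp
      set u := v / (‖v‖ : ℂ) with hu
      have e2 : ((starRingEnd ℂ v) * covDerM (sig f ε) (XX f ε) z v).re =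
          ‖v‖ ^ 2 * ((starRingEnd ℂ u) * covDerM (sig f ε) (XX f ε) z u).re := by
        conv_lhs => rw [e1]
        rw [covDerM_smul, map_mul, conj_ofReal]
        rw [show (‖v‖ : ℂ) * (starRingEnd ℂ) u * ((‖v‖ : ℂ) * covDerM (sig f ε) (XX f ε) z u) =
          ((‖v‖ ^ 2 : ℝ) : ℂ) * ((starRingEnd ℂ) u * covDerM (sig f ε) (XX f ε) z u) by
            push_cast; ring]
        rw [re_ofReal_mul]
      rw [e2, normSq_eq_norm_sq]
      nlinarith [pow_pos hn 2]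
    intro z v hv
    obtain ⟨γ, hγ, hγK⟩ := hcov z
    have hz := coe_mem_UU z
    have hd := den_ne (g := γ) hz
    have hN : 0 < normSq (den γ z) := normSq_pos.mpr hd
    have hv' : v / (den γ z) ^ 2 ≠ 0 := div_ne_zero hv (pow_ne_zero 2 hd)
    have h1 := key _ hγK _ hv'
    rw [covDerM_mob hσ (h.contDiffOn_XX hpos) (fun γ hγ z => h.XX_inv hpos hγ z) hγ z v,
      conj_div_mul, ← ofReal_inv, re_ofReal_mul, map_div₀, map_pow] at h1
    have h2 : 0 < normSq (den γ z) ^ 2 := by positivity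
    have h3 : normSq (den γ z) ^ 2 * (-1 / 2 * (normSq v / normSq (den γ z) ^ 2)) <
        normSq (den γ z) ^ 2 * ((normSq (den γ z) ^ 2)⁻¹ *
          ((starRingEnd ℂ) v * covDerM (sig f ε) (XX f ε) z v).re) :=
      mul_lt_mul_of_pos_left h1 h2
    rw [mul_inv_cancel_left₀ h2.ne'] at h3
    refine lt_of_eq_of_lt ?_ h3
    field_simp
  exact noClosedGeodesic_of_certificate hΓ hσ hcert

end Pool.Agent.CG
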