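import Pool.Agent.Lib.MP_35454f.VEnergy
import Pool.Agent.Lib.MP_35454f.VDefs
import Pool.Agent.Lib.MP_35454f.Final

/-!
# No closed geodesics in the presence of a certificate field
-/

set_option autoImplicit false

open Filter Topology Complex Set
open UpperHalfPlane hiding I
open scoped ContDiff Manifold MatrixGroups

namespace Pool.Agent.CG

variable {Γ : Subgroup SL(2, ℝ)} {σ : ℍ → ℝ} {κ : ℝ} {φ : ℝ → ℍ → ℍ}

lemma IsConformalFactor.contDiffOn_rho (h : IsConformalFactor Γ σ) : ContDiffOn ℝ 2 (rho σ) UU := by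
  have h1 : ContDiffOn ℝ 2 (fun w : ℂ => w.im ^ 2) UU :=
    (imCLM.contDiff.pow 2).contDiffOn
  exact h.contDiff.div h1 fun w hw => pow_ne_zero 2 (mem_UU.mp hw).ne'

lemma IsConformalFactor.rho_pos (h : IsConformalFactor Γ σ) {z : ℂ} (hz : z ∈ UU) :
    0 < rho σ z := by
  have : 0 < z.im := hz
  exact div_pos (h.pos _) (by positivity)

lemma IsConformalFactor.rho_mob (h : IsConformalFactor Γ σ) {g : SL(2, ℝ)} (hg : g ∈ Γ) {z : ℂ}
    (hz : z ∈ UU) : rho σ (mob g z) = rho σ z * normSq (den g z) ^ 2 := by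
  have hd := den_ne (g := g) hz
  have hn : normSq (den g z) ≠ 0 := by simpa using hd
  have hy : z.im ≠ 0 := (mem_UU.mp hz).ne'
  rw [rho, rho, ofComplex_mob g hz, h.invariant g hg, im_mob g hz]
  field_simp

lemma IsConformalFactor.hasFDerivAt_rho (h : IsConformalFactor Γ σ) {z : ℂ} (hz : z ∈ UU) :
    HasFDerivAt (rho σ) ((2 * rho σ z * lamX σ z) • reCLM + (2 * rho σ z * lamY σ z) • imCLM) z := by
  have h1 := ((h.contDiffOn_rho.contDiffAt (isOpen_UU.mem_nhds hz)).differentiableAt
    two_ne_zero).hasFDerivAt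
  refine h1.congr_fderiv ?_
  have h0 := (h.rho_pos hz).ne'
  ext w
  rw [clm_eq (fderiv ℝ (rho σ) z) w]
  simp only [lamX, lamY, add_apply, smul_apply, smul_eq_mul, reCLM_apply, imCLM_apply]
  field_simp

lemma re_mul_all {a b : ℂ} (h : ∀ w : ℂ, (a * w).re = (b * w).re) : a = b := by
  have h1 := h 1
  have h2 := h I
  simp at h1 h2
  exact Complex.ext h1 h2

lemma IsConformalFactor.lam_mob (h : IsConformalFactor Γ σ) {g : SL(2, ℝ)} (hg : g ∈ Γ) {z : ℂ}
    (hz : z ∈ UU) : ((lamX σ (mob g z) : ℂ) - I * (lamY σ (mob g z) : ℂ)) =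
      ((lamX σ z : ℂ) - I * (lamY σ z : ℂ)) * (den g z) ^ 2 + 2 * ((g 1 0 : ℝ) : ℂ) * den g z := by
  have hd := den_ne (g := g) hz
  have hn : normSq (den g z) ≠ 0 := by simpa using hd
  have h0 := (h.rho_pos hz).ne'
  -- left-hand side
  have h1 : HasFDerivAt (fun z => rho σ (mob g z))
      (((2 * rho σ (mob g z) * lamX σ (mob g z)) • reCLM +
        (2 * rho σ (mob g z) * lamY σ (mob g z)) • imCLM).comp
        ((1 / (den g z) ^ 2) • (1 : ℂ →L[ℝ] ℂ))) z :=
    (h.hasFDerivAt_rho (mob_mem hz)).comp z (hasFDerivAt_mob g hz)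
  -- derivative of the denominator
  have h2 : HasFDerivAt (fun z : ℂ => normSq (den g z))
      ((2 * (den g z).re * (g 1 0)) • reCLM + (2 * (den g z).im * (g 1 0)) • imCLM) z := by
    have e1 : (fun z : ℂ => normSq (den g z)) =
        fun z : ℂ => (g 1 0 * z.re + g 1 1) ^ 2 + (g 1 0 * z.im) ^ 2 := by
      ext w
      rw [normSq_apply]
      simp [den]
      ring
    rw [e1]
    have h3 : HasFDerivAt (fun z : ℂ => g 1 0 * z.re + g 1 1) ((g 1 0) • reCLM) z :=
      (reCLM.hasFDerivAt.const_mul (g 1 0)).add_const _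
    have h4 : HasFDerivAt (fun z : ℂ => g 1 0 * z.im) ((g 1 0) • imCLM) z :=
      imCLM.hasFDerivAt.const_mul (g 1 0)
    refine ((hasFDerivAt_pow' h3 2).fun_add (hasFDerivAt_pow' h4 2)).congr_fderiv ?_
    ext w
    simp [den]
    ring
  have h3 : HasFDerivAt (fun z => rho σ (mob g z))
      (rho σ z • ((((2 : ℕ) : ℝ) * normSq (den g z) ^ (2 - 1)) •
        ((2 * (den g z).re * (g 1 0)) • reCLM + (2 * (den g z).im * (g 1 0)) • imCLM)) +
        (normSq (den g z) ^ 2) • ((2 * rho σ z * lamX σ z) • reCLM +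
          (2 * rho σ z * lamY σ z) • imCLM)) z := by
    have e1 : (fun z => rho σ (mob g z)) =ᶠ[𝓝 z] fun z => rho σ z * normSq (den g z) ^ 2 := by
      filter_upwards [isOpen_UU.mem_nhds hz] with w hw using h.rho_mob hg hw
    exact ((h.hasFDerivAt_rho hz).fun_mul (hasFDerivAt_pow' h2 2)).congr_of_eventuallyEq e1
  have h4 : ((lamX σ (mob g z) : ℂ) - I * (lamY σ (mob g z) : ℂ)) / (den g z) ^ 2 =
      ((lamX σ z : ℂ) - I * (lamY σ z : ℂ)) + 2 * ((g 1 0 : ℝ) : ℂ) / den g z := by
    apply re_mul_all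
    intro w
    have h5 := DFunLike.congr_fun (h1.unique h3) w
    simp only [ContinuousLinearMap.comp_apply, smul_apply, one_apply_eq_self, smul_eq_mul,
      add_apply, reCLM_apply, imCLM_apply] at h5
    rw [h.rho_mob hg hz] at h5
    have e2 : (((lamX σ (mob g z) : ℂ) - I * (lamY σ (mob g z) : ℂ)) / (den g z) ^ 2 * w).re =
        lamX σ (mob g z) * (1 / (den g z) ^ 2 * w).re +
          lamY σ (mob g z) * (1 / (den g z) ^ 2 * w).im := by
      rw [show ((lamX σ (mob g z) : ℂ) - I * (lamY σ (mob g z) : ℂ)) / (den g z) ^ 2 * w =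
        ((lamX σ (mob g z) : ℂ) - I * (lamY σ (mob g z) : ℂ)) * (1 / (den g z) ^ 2 * w) by ring]
      simp only [mul_re, mul_im, sub_re, sub_im, Complex.I_re, Complex.I_im, ofReal_re, ofReal_im]
      ring
    have e3 : ((((lamX σ z : ℂ) - I * (lamY σ z : ℂ)) + 2 * ((g 1 0 : ℝ) : ℂ) / den g z) * w).re =
        lamX σ z * w.re + lamY σ z * w.im +
          2 * g 1 0 * ((den g z).re * w.re + (den g z).im * w.im) / normSq (den g z) := by
      have e4 : (((lamX σ z : ℂ) - I * (lamY σ z : ℂ)) + 2 * ((g 1 0 : ℝ) : ℂ) / den g z) * w =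
          ((lamX σ z : ℂ) - I * (lamY σ z : ℂ)) * w +
          ((2 * g 1 0 / normSq (den g z) : ℝ) : ℂ) * (starRingEnd ℂ (den g z) * w) := by
        have hcd : starRingEnd ℂ (den g z) ≠ 0 := by simpa using hd
        push_cast
        rw [normSq_eq_conj_mul_self]
        field_simp
      rw [e4, add_re, re_ofReal_mul]
      simp only [mul_re, mul_im, sub_re, sub_im, Complex.I_re, Complex.I_im, ofReal_re, ofReal_im,
        conj_re, conj_im]
      ring
    rw [e2, e3]
    have h6 : (2 * (rho σ z * normSq (den g z) ^ 2)) *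
        (lamX σ (mob g z) * (1 / (den g z) ^ 2 * w).re +
          lamY σ (mob g z) * (1 / (den g z) ^ 2 * w).im) =
        (2 * (rho σ z * normSq (den g z) ^ 2)) * (lamX σ z * w.re + lamY σ z * w.im +
          2 * g 1 0 * ((den g z).re * w.re + (den g z).im * w.im) / normSq (den g z)) := by
      have e5 : (2 * (rho σ z * normSq (den g z) ^ 2)) *
          (2 * g 1 0 * ((den g z).re * w.re + (den g z).im * w.im) / normSq (den g z)) =
          4 * rho σ z * normSq (den g z) * g 1 0 *
            ((den g z).re * w.re + (den g z).im * w.im) := by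
        field_simp
        ring
      simp only [Nat.add_one_sub_one, pow_one, Nat.cast_ofNat] at h5
      linear_combination h5 - e5
    exact mul_left_cancel₀ (by positivity) h6
  field_simp at h4
  linear_combination h4

/-- The metric attached to a conformal factor. -/
noncomputable def IsConformalFactor.met (h : IsConformalFactor Γ σ) : Met Γ where
  ρ := rho σ
  l1 := lamX σ
  l2 := lamY σ
  pos := fun _ hz => h.rho_pos hz
  hρ := h.contDiffOn_rho.of_le (by norm_num)
  hl1 := by
    have h1 : ContDiffOn ℝ 1 (fun w => fderiv ℝ (rho σ) w 1) UU :=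
      (h.contDiffOn_rho.fderiv_of_isOpen isOpen_UU (by norm_num)).clm_apply contDiffOn_const
    exact h1.div (contDiffOn_const.mul (h.contDiffOn_rho.of_le (by norm_num)))
      fun w hw => mul_ne_zero two_ne_zero (h.rho_pos hw).ne'
  hl2 := by
    have h1 : ContDiffOn ℝ 1 (fun w => fderiv ℝ (rho σ) w I) UU :=
      (h.contDiffOn_rho.fderiv_of_isOpen isOpen_UU (by norm_num)).clm_apply contDiffOn_const
    exact h1.div (contDiffOn_const.mul (h.contDiffOn_rho.of_le (by norm_num)))
      fun w hw => mul_ne_zero two_ne_zero (h.rho_pos hw).ne'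
  dρ := fun _ hz => h.hasFDerivAt_rho hz
  inv := fun _ hg _ hz => h.rho_mob hg hz
  linv := fun _ hg _ hz => h.lam_mob hg hz

theorem IsGeodesicM.eul (hσ : IsConformalFactor Γ σ) (h : IsGeodesicM Γ σ φ) :
    ∃ p : ℝ → ℂ → ℝ, VEul hσ.met (pos φ) (vel φ) p := by
  obtain ⟨p, hpc, hpi, hp1, hacc⟩ := h.euler
  have hC1F : C1 (pos φ) := h.pos_contDiff
  have hC1G : C1 (vel φ) := h.vel_contDiff
  refine ⟨fun t w => p t (ofComplex w), ⟨⟨?_, hC1F, hC1G, ?_, ?_⟩, ?_, ?_, ?_, ?_, ?_, ?_⟩⟩
  · intro t z _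
    exact coe_mem_UU _
  · intro t z hz
    exact hC1F.hasDerivAt t hz
  · intro t z hz
    have h1 := h.area t (ofComplex z)
    rw [ofComplex_mem hz, det_clm] at h1
    change (fderiv ℝ (pos φ t) z 1).re * (fderiv ℝ (pos φ t) z I).im -
      (fderiv ℝ (pos φ t) z I).re * (fderiv ℝ (pos φ t) z 1).im = rho σ z / rho σ (pos φ t z)
    have h2 : rho σ (pos φ t z) ≠ 0 := (hσ.rho_pos (coe_mem_UU _)).ne'
    rw [eq_div_iff h2]
    exact h1
  · intro z hz
    rw [pos, h.start, ofComplex_mem hz]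
  · intro t g hg z hz
    rw [pos, ofComplex_mob g hz, h.equivariant t g hg, coe_smul_eq]
    rfl
  · intro t g hg z hz
    simp only
    rw [ofComplex_mob g hz, hpi t g hg]
  · exact fun t => hp1 t
  · have h1 : ContinuousOn (fun q : ℝ × ℂ => (q.1, ofComplex q.2)) UT :=
      continuousOn_fst.prodMk (continuousOn_ofComplex.comp continuousOn_snd fun q hq => hq)
    exact hpc.comp_continuousOn h1
  · intro t z hz
    have h1 := hacc t (ofComplex z)
    rw [ofComplex_mem hz, covAccM, gradM] at h1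
    have h2 := hC1G.hasDerivAt t hz
    refine h2.congr_deriv ?_
    have h3 : ((φ t (ofComplex z) : ℍ) : ℂ) = pos φ t z := rfl
    rw [h3] at h1
    change _ = -(((lamX σ (pos φ t z) : ℂ) - I * (lamY σ (pos φ t z) : ℂ)) * (vel φ t z) ^ 2) -
      ((rho σ (pos φ t z) : ℂ))⁻¹ * gp (pos φ) (fun t w => p t (ofComplex w)) t z
    rw [gp]
    linear_combination h1

/-- The certificate in the sense of the proof. -/
noncomputable def IsCertificate.cert (hσ : IsConformalFactor Γ σ) {X : ℍ → ℂ}
    (h : IsCertificate Γ σ κ X) : Cert hσ.met κ where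
  X1 := fieldX X
  X2 := fieldY X
  c1 := reCLM.contDiff.comp_contDiffOn h.contDiff
  c2 := imCLM.contDiff.comp_contDiffOn h.contDiff
  inv := by
    intro g hg z hz
    have e : ∀ w, ((fieldX X w : ℂ) + I * (fieldY X w : ℂ)) = X (ofComplex w) := by
      intro w
      rw [mul_comm]
      exact re_add_im _
    rw [e, e, ofComplex_mob g hz, h.invariant g hg, ofComplex_mem hz]
    rfl
  div := by
    intro z hz
    have h1 := h.div_eq (ofComplex z)
    rw [ofComplex_mem hz, divM, curvature] at h1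
    have h0 := (hσ.rho_pos hz).ne'
    change fderiv ℝ (fun w => rho σ w * fieldX X w) z 1 +
      fderiv ℝ (fun w => rho σ w * fieldY X w) z I =
      -(fderiv ℝ (lamX σ) z 1 + fderiv ℝ (lamY σ) z I) - κ * rho σ z
    field_simp at h1
    linarith
  pos := by
    intro z hz v hv
    have h1 := h.nabla_gt (ofComplex z) v hv
    rw [covDerM, ofComplex_mem hz] at h1
    have hd := ((h.contDiff.contDiffAt (isOpen_UU.mem_nhds hz)).differentiableAt
      one_ne_zero).hasFDerivAt
    have hr : fderiv ℝ (fieldX X) z v = (fderiv ℝ (fun w : ℂ => X (ofComplex w)) z v).re := by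
      have : HasFDerivAt (fieldX X) _ z := reCLM.hasFDerivAt.comp z hd
      rw [this.fderiv]
      rfl
    have hi : fderiv ℝ (fieldY X) z v = (fderiv ℝ (fun w : ℂ => X (ofComplex w)) z v).im := by
      have : HasFDerivAt (fieldY X) _ z := imCLM.hasFDerivAt.comp z hd
      rw [this.fderiv]
      rfl
    change 1 / 2 * κ * normSq v < fderiv ℝ (fieldX X) z v * v.re + fderiv ℝ (fieldY X) z v * v.im +
      (lamX σ z * fieldX X z + lamY σ z * fieldY X z) * normSq v
    rw [hr, hi]
    refine lt_of_eq_of_lt (by ring) (h1.trans_eq ?_)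
    simp only [mul_re, mul_im, add_re, add_im, sub_re, sub_im, conj_re, conj_im, Complex.I_re,
      Complex.I_im, ofReal_re, ofReal_im, normSq_apply, fieldX, fieldY]
    ring

/-- **No closed geodesics in the presence of a certificate.** -/
theorem noClosedGeodesic_of_certificate (hΓ : IsClosedSurfaceGroup Γ) (hσ : IsConformalFactor Γ σ)
    {X : ℍ → ℂ} (hX : IsCertificate Γ σ κ X) : NoClosedGeodesic Γ σ := by
  intro φ hφ T hT hret t z
  have := hΓ.discrete
  obtain ⟨χ, h1, h2, h3, h4, h5, h6⟩ := exists_chi Γ hΓ.cocompact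
  have hχ : IsCut Γ χ := ⟨h1, h2, h3, h4, h5, h6⟩
  obtain ⟨p, hE⟩ := hφ.eul hσ
  have hcont : Continuous (φ T) := by
    have e1 : ContinuousOn (pos φ T) UU := (hE.c1F.co).slice T
    rw [isOpenEmbedding_coe.isInducing.continuous_iff]
    have e2 : (UpperHalfPlane.coe ∘ φ T) = (pos φ T) ∘ UpperHalfPlane.coe := by
      ext w
      simp [pos, ofComplex_apply]
    rw [e2]
    exact e1.comp_continuous continuous_coe fun w => coe_mem_UU w
  have hid : ∀ z : ℍ, φ T z = z := fun z =>
    eq_id_of_orbits Γ hΓ.free hΓ.cocompact hcont (hφ.equivariant T) hret z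
  have hT' : ∀ z ∈ UU, pos φ T z = pos φ 0 z := by
    intro z _
    rw [pos, pos, hid, hφ.start]
  have h7 := hE.motion_const (hX.cert hσ) hχ hT hT' t (coe_mem_UU z)
  rw [pos, ofComplex_apply] at h7
  exact UpperHalfPlane.ext h7

end Pool.Agent.CG
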