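import Pool.Agent.Lib.MP_35454f.VMot

/-!
# The one-forms attached to a motion, general conformal metric
-/

set_option autoImplicit false

open MeasureTheory Filter Topology Complex Set
open UpperHalfPlane hiding I
open scoped ContDiff Manifold MatrixGroups Interval

namespace Pool.Agent.CG

variable {Γ : Subgroup SL(2, ℝ)} {m : Met Γ} {F G : ℝ → ℂ → ℂ}

lemma C1.sub {g g' : ℝ → ℂ → ℝ} (h : C1 g) (h' : C1 g') : C1 (fun t z => g t z - g' t z) :=
  ContDiffOn.sub h h'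

/-- The pulled-back velocity one-form. -/
noncomputable def vA (m : Met Γ) (F G : ℝ → ℂ → ℂ) (t : ℝ) (z : ℂ) : ℂ →L[ℝ] ℝ :=
  (m.ρ (F t z) * (G t z).re) • dRe F t z + (m.ρ (F t z) * (G t z).im) • dIm F t z

/-- The pulled-back flux one-form. -/
noncomputable def vZ (m : Met Γ) (F G : ℝ → ℂ → ℂ) (t : ℝ) (z : ℂ) : ℂ →L[ℝ] ℝ :=
  (m.ρ (F t z) * (G t z).re) • dIm F t z - (m.ρ (F t z) * (G t z).im) • dRe F t z

/-- The energy density `e = |u|²`. -/
noncomputable def ve (m : Met Γ) (F G : ℝ → ℂ → ℂ) (t : ℝ) (z : ℂ) : ℝ :=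
  m.ρ (F t z) * ((G t z).re ^ 2 + (G t z).im ^ 2)

/-- The rotation rate of the frame, `θ(u)`. -/
noncomputable def vth (m : Met Γ) (F G : ℝ → ℂ → ℂ) (t : ℝ) (z : ℂ) : ℝ :=
  m.l1 (F t z) * (G t z).im - m.l2 (F t z) * (G t z).re

/-- The one-form `½ ⟨J u, ∇ u⟩`, pulled back. -/
noncomputable def vB (m : Met Γ) (F G : ℝ → ℂ → ℂ) (t : ℝ) (z : ℂ) : ℂ →L[ℝ] ℝ :=
  ((1 / 2 * (m.ρ (F t z) * (G t z).re)) • dIm G t z -
    (1 / 2 * (m.ρ (F t z) * (G t z).im)) • dRe G t z) +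
    ((1 / 2 * (ve m F G t z * m.l1 (F t z))) • dIm F t z -
    (1 / 2 * (ve m F G t z * m.l2 (F t z))) • dRe F t z)

/-- The vorticity density (with respect to `dx dy`). -/
noncomputable def vOm (m : Met Γ) (F G : ℝ → ℂ → ℂ) (t : ℝ) (z : ℂ) : ℝ :=
  m.ρ (F t z) * rt F G t z + 2 * m.ρ z * vth m F G t z

/-- The squared strain rate `s²`. -/
noncomputable def vss (m : Met Γ) (F G : ℝ → ℂ → ℂ) (t : ℝ) (z : ℂ) : ℝ :=
  1 / 4 * (m.ρ (F t z) / m.ρ z) ^ 2 *
    ((wedge (dIm G t z) (dIm F t z) - wedge (dRe G t z) (dRe F t z)) ^ 2 +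
      (wedge (dRe G t z) (dIm F t z) + wedge (dIm G t z) (dRe F t z)) ^ 2)

lemma VMot.co_rt (h : VMot m F G) : CO (rt F G) :=
  (h.c1G.co_dRe.wedge h.c1F.co_dRe).add (h.c1G.co_dIm.wedge h.c1F.co_dIm)

lemma VMot.co_th (h : VMot m F G) : CO (vth m F G) :=
  (h.c1L1.co.mul h.c1G.im.co).sub (h.c1L2.co.mul h.c1G.re.co)

lemma VMot.co_Om (h : VMot m F G) : CO (vOm m F G) :=
  (h.c1R.co.mul h.co_rt).add (((CO.const 2).mul m.co_ρ).mul h.co_th)

lemma VMot.c1_e (h : VMot m F G) : C1 (ve m F G) :=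
  h.c1R.mul ((h.c1G.re.pow 2).add (h.c1G.im.pow 2))

lemma VMot.co_e (h : VMot m F G) : CO (ve m F G) := h.c1_e.co

lemma VMot.co_ss (h : VMot m F G) : CO (vss m F G) := by
  refine CO.mul (CO.mul (CO.const _) (CO.pow (CO.div h.c1R.co m.co_ρ
    fun t z hz => m.ne hz) 2)) (CO.add (CO.pow (CO.sub ?_ ?_) 2)
    (CO.pow (CO.add ?_ ?_) 2))
  · exact h.c1G.co_dIm.wedge h.c1F.co_dIm
  · exact h.c1G.co_dRe.wedge h.c1F.co_dRe
  · exact h.c1G.co_dRe.wedge h.c1F.co_dIm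
  · exact h.c1G.co_dIm.wedge h.c1F.co_dRe

lemma VMot.co_A (h : VMot m F G) : CO (vA m F G) :=
  ((h.c1R.co.mul h.c1G.re.co).smul h.c1F.co_dRe).addf
  ((h.c1R.co.mul h.c1G.im.co).smul h.c1F.co_dIm)

lemma VMot.co_Z (h : VMot m F G) : CO (vZ m F G) :=
  ((h.c1R.co.mul h.c1G.re.co).smul h.c1F.co_dIm).subf
  ((h.c1R.co.mul h.c1G.im.co).smul h.c1F.co_dRe)

lemma VMot.hasFDerivAt_RG_re (h : VMot m F G) (t : ℝ) {z : ℂ} (hz : z ∈ UU) :
    HasFDerivAt (fun z => m.ρ (F t z) * (G t z).re)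
      (m.ρ (F t z) • dRe G t z + (G t z).re • dR m F t z) z :=
  (h.hasFDerivAt_R t hz).fun_mul (h.c1G.hasFDerivAt_re t hz)

lemma VMot.hasFDerivAt_RG_im (h : VMot m F G) (t : ℝ) {z : ℂ} (hz : z ∈ UU) :
    HasFDerivAt (fun z => m.ρ (F t z) * (G t z).im)
      (m.ρ (F t z) • dIm G t z + (G t z).im • dR m F t z) z :=
  (h.hasFDerivAt_R t hz).fun_mul (h.c1G.hasFDerivAt_im t hz)

/-- `d e` -/
noncomputable def vde (m : Met Γ) (F G : ℝ → ℂ → ℂ) (t : ℝ) (z : ℂ) : ℂ →L[ℝ] ℝ :=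
  (2 * (m.ρ (F t z) * (G t z).re)) • dRe G t z + (2 * (m.ρ (F t z) * (G t z).im)) • dIm G t z +
    ((G t z).re ^ 2 + (G t z).im ^ 2) • dR m F t z

lemma VMot.hasFDerivAt_e (h : VMot m F G) (t : ℝ) {z : ℂ} (hz : z ∈ UU) :
    HasFDerivAt (ve m F G t) (vde m F G t z) z := by
  have hsq : HasFDerivAt (fun z => (G t z).re ^ 2 + (G t z).im ^ 2)
      ((2 * (G t z).re) • dRe G t z + (2 * (G t z).im) • dIm G t z) z := by
    have := (hasFDerivAt_pow' (h.c1G.hasFDerivAt_re t hz) 2).fun_add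
      (hasFDerivAt_pow' (h.c1G.hasFDerivAt_im t hz) 2)
    refine this.congr_fderiv ?_
    ext w
    simp
  refine ((h.hasFDerivAt_R t hz).fun_mul hsq).congr_fderiv ?_
  ext w
  simp only [vde, add_apply, smul_apply, smul_eq_mul]
  ring

/-- `α` has weak exterior derivative the vorticity. -/
lemma VMot.wd_A (h : VMot m F G) (t : ℝ) : WD (vA m F G t) (vOm m F G t) := by
  refine ((WD.mul ((h.c1R.mul h.c1G.re).slice t) (h.c1F.re.slice t)).add
    (WD.mul ((h.c1R.mul h.c1G.im).slice t) (h.c1F.im.slice t))).congr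
    (fun z hz => ?_) (fun z hz => ?_)
  · rw [(h.c1F.hasFDerivAt_re t hz).fderiv, (h.c1F.hasFDerivAt_im t hz).fderiv]
    rfl
  · rw [(h.c1F.hasFDerivAt_re t hz).fderiv, (h.c1F.hasFDerivAt_im t hz).fderiv,
      (h.hasFDerivAt_RG_re t hz).fderiv, (h.hasFDerivAt_RG_im t hz).fderiv]
    simp only [dR, wedge_add_left, wedge_smul_left, wedge_self]
    rw [wedge_swap (dIm F t z) (dRe F t z), h.wXY t hz, vOm, rt, vth]
    have h1 := h.R_ne t z hz
    field_simp
    ring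

/-- `ζ` is weakly closed. -/
lemma VMot.wd_Z (h : VMot m F G) (t : ℝ) : WD (vZ m F G t) (fun _ => 0) := by
  refine ((WD.mul ((h.c1R.mul h.c1G.re).slice t) (h.c1F.im.slice t)).sub
    (WD.mul ((h.c1R.mul h.c1G.im).slice t) (h.c1F.re.slice t))).congr
    (fun z hz => ?_) (fun z hz => ?_)
  · rw [(h.c1F.hasFDerivAt_re t hz).fderiv, (h.c1F.hasFDerivAt_im t hz).fderiv]
    rfl
  · rw [(h.c1F.hasFDerivAt_re t hz).fderiv, (h.c1F.hasFDerivAt_im t hz).fderiv,
      (h.hasFDerivAt_RG_re t hz).fderiv, (h.hasFDerivAt_RG_im t hz).fderiv]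
    simp only [dR, wedge_add_left, wedge_smul_left, wedge_self]
    have h3 := h.incompr t hz
    have h4 : wedge (dRe G t z) (dIm F t z) = wedge (dIm G t z) (dRe F t z) +
      -(2 * m.ρ z * (m.l1 (F t z) * (G t z).re + m.l2 (F t z) * (G t z).im)) / m.ρ (F t z) := by
      linarith
    rw [wedge_swap (dIm F t z) (dRe F t z), h.wXY t hz, h4]
    have h1 := h.R_ne t z hz
    field_simp
    ring

/-- The Bochner identity. -/
lemma VMot.wd_B (h : VMot m F G) (t : ℝ) :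
    WD (vB m F G t) (fun z => vOm m F G t z ^ 2 / (4 * m.ρ z) - vss m F G t z * m.ρ z -
      1 / 2 * (m.kc (F t z) * ((G t z).re ^ 2 + (G t z).im ^ 2) * m.ρ z)) := by
  refine ((((WD.mul ((h.c1R.mul h.c1G.re).slice t) (h.c1G.im.slice t)).smul_const (1/2)).sub
    ((WD.mul ((h.c1R.mul h.c1G.im).slice t) (h.c1G.re.slice t)).smul_const (1/2))).add
    (((WD.mul ((h.c1_e.mul h.c1L1).slice t) (h.c1F.im.slice t)).smul_const (1/2)).sub
    ((WD.mul ((h.c1_e.mul h.c1L2).slice t) (h.c1F.re.slice t)).smul_const (1/2)))).congr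
    (fun z hz => ?_) (fun z hz => ?_)
  · rw [(h.c1F.hasFDerivAt_re t hz).fderiv, (h.c1F.hasFDerivAt_im t hz).fderiv,
      (h.c1G.hasFDerivAt_re t hz).fderiv, (h.c1G.hasFDerivAt_im t hz).fderiv]
    ext w
    simp only [vB, add_apply, smul_apply, sub_apply, smul_eq_mul]
    ring
  · have he1 := (h.hasFDerivAt_e t hz).fun_mul (h.hasFDerivAt_comp m.hl1 t hz)
    have he2 := (h.hasFDerivAt_e t hz).fun_mul (h.hasFDerivAt_comp m.hl2 t hz)
    rw [(h.c1F.hasFDerivAt_re t hz).fderiv, (h.c1F.hasFDerivAt_im t hz).fderiv,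
      (h.c1G.hasFDerivAt_re t hz).fderiv, (h.c1G.hasFDerivAt_im t hz).fderiv,
      (h.hasFDerivAt_RG_re t hz).fderiv, (h.hasFDerivAt_RG_im t hz).fderiv,
      he1.fderiv, he2.fderiv]
    simp only [dR, vde, wedge_sub_left, wedge_smul_left, wedge_self, wedge_sub_right,
      wedge_smul_right, wedge_add_left]
    have hinc := h.incompr t hz
    have hpl := plucker (dRe G t z) (dIm G t z) (dRe F t z) (dIm F t z)
    have hXY := h.wXY t hz
    rw [hXY] at hpl
    rw [wedge_swap (dIm F t z) (dRe F t z), wedge_swap (dIm F t z) (dRe G t z),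
      wedge_swap (dIm F t z) (dIm G t z), wedge_swap (dRe F t z) (dRe G t z),
      wedge_swap (dRe F t z) (dIm G t z),
      wedge_swap (dIm G t z) (dRe G t z), hXY, vOm, rt, vss, ve, vth, Met.kc]
    have h1 := h.R_ne t z hz
    have h2 : m.ρ z ≠ 0 := m.ne hz
    generalize wedge (dRe G t z) (dRe F t z) = al at *
    generalize wedge (dIm G t z) (dIm F t z) = de at *
    generalize wedge (dRe G t z) (dIm G t z) = ka at *
    generalize wedge (dIm G t z) (dRe F t z) = ga at *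
    generalize wedge (dRe G t z) (dIm F t z) = be at *
    generalize (G t z).re = P at *
    generalize (G t z).im = Q at *
    generalize m.ρ (F t z) = R at *
    generalize m.ρ z = r at *
    generalize m.l1 (F t z) = L at *
    generalize m.l2 (F t z) = M at *
    generalize fderiv ℝ m.l1 (F t z) 1 = L1 at *
    generalize fderiv ℝ m.l1 (F t z) I = L2 at *
    generalize fderiv ℝ m.l2 (F t z) 1 = M1 at *
    generalize fderiv ℝ m.l2 (F t z) I = M2 at *
    have hbe : be = ga + -(2 * r * (L * P + M * Q)) / R := by linarith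
    have hka : ka = (al * de - be * ga) * (R / r) := by
      field_simp at hpl ⊢
      linarith
    rw [hka, hbe]
    field_simp
    ring

end Pool.Agent.CG
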