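import Pool.Agent.Lib.MP_35454f.VRot

/-!
# No closed Euler motion in the presence of a certificate field
-/

set_option autoImplicit false

open MeasureTheory Filter Topology Complex Set
open UpperHalfPlane hiding I
open scoped ContDiff Manifold MatrixGroups Interval

namespace Pool.Agent.CG

variable {Γ : Subgroup SL(2, ℝ)} {m : Met Γ} {F G : ℝ → ℂ → ℂ} {p : ℝ → ℂ → ℝ} {κ : ℝ}

lemma vxi_eq (c : Cert m κ) (t : ℝ) (z w : ℂ) :
    vxi c F t z w = m.ρ (F t z) *
      ((starRingEnd ℂ ((c.X1 (F t z) : ℂ) + I * (c.X2 (F t z) : ℂ))) * fderiv ℝ (F t) z w).im := by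
  simp only [vxi, sub_apply, smul_apply, smul_eq_mul, dRe_apply, dIm_apply, mul_im, conj_re, conj_im]
  simp
  ring

lemma vuX_eq (c : Cert m κ) (t : ℝ) (z : ℂ) :
    vuX c F G t z = m.ρ (F t z) *
      ((starRingEnd ℂ ((c.X1 (F t z) : ℂ) + I * (c.X2 (F t z) : ℂ))) * G t z).re := by
  simp only [vuX, mul_re, conj_re, conj_im]
  simp
  ring

lemma VEul.inv_xi (h : VEul m F G p) (c : Cert m κ) (t : ℝ) : InvForm Γ (vxi c F t) := by
  intro g hg z hz w
  have hd := den_ne (g := g) (h.mem t z hz)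
  have hn : normSq (den g (F t z)) ≠ 0 := by simpa using hd
  rw [vxi_eq, vxi_eq, h.equiv t g hg z hz, c.inv g hg _ (h.mem t z hz), h.dF_mob t hg hz,
    conj_div_mul, m.inv g hg _ (h.mem t z hz),
    ← ofReal_inv, im_ofReal_mul]
  field_simp

lemma VEul.inv_uX (h : VEul m F G p) (c : Cert m κ) (t : ℝ) : InvFun Γ (vuX c F G t) := by
  intro g hg z hz
  have hd := den_ne (g := g) (h.mem t z hz)
  have hn : normSq (den g (F t z)) ≠ 0 := by simpa using hd
  rw [vuX_eq, vuX_eq, h.equiv t g hg z hz, c.inv g hg _ (h.mem t z hz), h.G_mob t hg hz,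
    conj_div_mul, m.inv g hg _ (h.mem t z hz),
    ← ofReal_inv, re_ofReal_mul]
  field_simp

lemma VEul.inv_T (h : VEul m F G p) (c : Cert m κ) (t : ℝ) : InvForm Γ (vT c F G t) := by
  intro g hg z hz w
  simp only [vT, sub_apply, smul_apply, smul_eq_mul]
  rw [h.inv_e t g hg z hz, h.inv_xi c t g hg z hz, h.inv_uX c t g hg z hz, h.inv_Z t g hg z hz]

lemma VMot.co_bu (h : VMot m F G) (c : Cert m κ) : CO (vbu c F G) :=
  ((C1.comp_F' c.hRX1 h).co.mul h.c1G.im.co).sub ((C1.comp_F' c.hRX2 h).co.mul h.c1G.re.co)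

lemma VMot.co_kc (h : VMot m F G) : CO (fun t z => m.kc (F t z)) :=
  CO.neg (CO.add (co_fderiv_comp m.hl1 h 1) (co_fderiv_comp m.hl2 h I))

lemma VMot.co_N (h : VMot m F G) (c : Cert m κ) : CO (vN c F G) := by
  have e : vN c F G = fun t z => m.ρ (F t z) *
      ((fderiv ℝ c.X1 (F t z) 1 * (G t z).re + fderiv ℝ c.X1 (F t z) I * (G t z).im) * (G t z).re +
      (fderiv ℝ c.X2 (F t z) 1 * (G t z).re + fderiv ℝ c.X2 (F t z) I * (G t z).im) * (G t z).im +
      (m.l1 (F t z) * c.X1 (F t z) + m.l2 (F t z) * c.X2 (F t z)) *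
        ((G t z).re * (G t z).re + (G t z).im * (G t z).im)) := by
    funext t z
    rw [vN, Met.nab, clm_eq (fderiv ℝ c.X1 (F t z)) (G t z),
      clm_eq (fderiv ℝ c.X2 (F t z)) (G t z), normSq_apply]
  rw [e]
  have hX1 := (C1.comp_F' c.c1 h).co
  have hX2 := (C1.comp_F' c.c2 h).co
  have hre := h.c1G.re.co
  have him := h.c1G.im.co
  exact h.c1R.co.mul (((((((co_fderiv_comp c.c1 h 1).mul hre).add
    ((co_fderiv_comp c.c1 h I).mul him)).mul hre)).add
    ((((co_fderiv_comp c.c2 h 1).mul hre).add ((co_fderiv_comp c.c2 h I).mul him)).mul him)).add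
    (((h.c1L1.co.mul hX1).add (h.c1L2.co.mul hX2)).mul ((hre.mul hre).add (him.mul him))))

/-- `∫ χ dθ ∧ ζ = 0` for invariant `θ`. -/
lemma VEul.flux_zero (h : VEul m F G p) {χ : ℂ → ℝ} (hχ : IsCut Γ χ) (t : ℝ) {θ : ℂ → ℝ}
    (hθ : ContDiffOn ℝ 1 θ UU) (hi : InvFun Γ θ) :
    ∫ z, χ z * wedge (fderiv ℝ θ z) (vZ m F G t z) = 0 := by
  have := hχ.wd (WD.leibniz hθ (h.wd_Z t)) (InvForm.smul hi (h.inv_Z t))
  simpa using this

lemma VMot.wedge_ZA (h : VMot m F G) (t : ℝ) {z : ℂ} (hz : z ∈ UU) :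
    wedge (vZ m F G t z) (vA m F G t z) = - (ve m F G t z * m.ρ z) := by
  have hXY := h.wXY t hz
  simp only [vZ, vA, wedge_sub_left, wedge_add_right, wedge_smul_left, wedge_smul_right,
    wedge_self]
  rw [wedge_swap (dIm F t z) (dRe F t z), hXY, ve]
  have h1 := h.R_ne t z hz
  field_simp
  ring

lemma co_rho_mul {f : ℝ → ℂ → ℝ} (m : Met Γ) (hf : CO f) : CO (fun t z => f t z * m.ρ z) :=
  hf.mul m.co_ρ

/-- The flux of the initial velocity form: `∫ χ ζ_t ∧ α_0 = - ∫ χ e_t`. -/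
lemma VEul.int_ZA (h : VEul m F G p) {χ : ℂ → ℝ} (hχ : IsCut Γ χ) (t : ℝ) :
    ∫ z, χ z * wedge (vZ m F G t z) (vA m F G 0 z) = - ∫ z, χ z * (ve m F G t z * m.ρ z) := by
  have h1 := h.flux_zero hχ t (h.c1_pot t) (h.inv_pot t)
  have hZ := h.co_Z.slice t
  have hA := h.co_A.slice t
  have hA0 := h.co_A.slice 0
  have e1 : ∀ z, χ z * wedge (vZ m F G t z) (vA m F G 0 z) =
      - (χ z * (ve m F G t z * m.ρ z)) +
        χ z * wedge (fderiv ℝ (vpot m F G p t) z) (vZ m F G t z) := by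
    intro z
    by_cases hz : z ∈ UU
    · rw [h.weber t hz, wedge_sub_left, wedge_swap (vA m F G t z), h.wedge_ZA t hz,
        wedge_swap (vA m F G 0 z)]
      ring
    · simp [image_eq_zero_of_notMem_tsupport fun hh => hz (hχ.supp hh)]
  have hee : ContinuousOn (fun z => ve m F G t z * m.ρ z) UU := (co_rho_mul m h.co_e).slice t
  have hth : ContinuousOn (fun z => fderiv ℝ (vpot m F G p t) z) UU :=
    (h.c1_pot t).continuousOn_fderiv_of_isOpen isOpen_UU (by simp)
  calc ∫ z, χ z * wedge (vZ m F G t z) (vA m F G 0 z)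
      = ∫ z, (- (χ z * (ve m F G t z * m.ρ z)) +
          χ z * wedge (fderiv ℝ (vpot m F G p t) z) (vZ m F G t z)) := by
        congr 1; ext z; exact e1 z
    _ = _ := by
        have i1 : Integrable fun z => -(χ z * (ve m F G t z * m.ρ z)) := (hχ.int hee).neg
        rw [integral_add i1 (hχ.int (ContinuousOn.wedge hth hZ)), h1, add_zero,
          integral_neg]

/-- **Main inequality.** -/
theorem VEul.energy_le (h : VEul m F G p) (c : Cert m κ) {χ : ℂ → ℝ} (hχ : IsCut Γ χ)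
    {T : ℝ} (hT0 : 0 < T) (hT : ∀ z ∈ UU, F T z = F 0 z) :
    ∫ t in (0:ℝ)..T, ∫ z, χ z * ((vN c F G t z - 1 / 2 * κ * ve m F G t z) * m.ρ z) ≤ 0 := by
  obtain ⟨k, hk⟩ := h.rot_const hT
  have hy : ∀ z ∈ UU, m.ρ z ≠ 0 := fun z hz => m.ne hz
  have hχc := hχ.c1.continuous
  -- abbreviations
  set Ω : ℂ → ℝ := fun z => vOm m F G 0 z with hΩ
  set a : ℂ → ℝ := fun z => ∫ t in (0:ℝ)..T, vth m F G t z with ha
  set α : ℂ → ℝ := fun z => var c F G T z with hα
  have hΩc : ContinuousOn Ω UU := h.co_Om.slice 0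
  have hac : ContinuousOn a UU := h.co_th.continuousOn_integral 0 T
  have hαc : ContinuousOn α UU := (h.c1_ar c T).continuousOn
  have hyc : ContinuousOn m.ρ UU := m.hρ.continuousOn
  have co_e : CO (fun t z => ve m F G t z * m.ρ z) := co_rho_mul m h.co_e
  have co_s : CO (fun t z => vss m F G t z * m.ρ z) := co_rho_mul m h.co_ss
  have co_K : CO (fun t z => m.kc (F t z) * ((G t z).re ^ 2 + (G t z).im ^ 2) * m.ρ z) :=
    co_rho_mul m (h.co_kc.mul ((h.c1G.re.co.pow 2).add (h.c1G.im.co.pow 2)))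
  have co_N : CO (fun t z => vN c F G t z * m.ρ z) := co_rho_mul m (h.co_N c)
  have co_b : CO (fun t z => vbu c F G t z * Ω z) := (h.co_bu c).mul (co_const_t hΩc)
  -- (E1)
  have E1 : ∫ z, χ z * Ω z = 0 := hχ.wd (h.wd_A 0) (h.inv_A 0)
  -- (E2)
  have E2 : ∫ z, χ z * (α z * Ω z) =
      - (κ * ∫ z, χ z * ∫ t in (0:ℝ)..T, wedge (vZ m F G t z) (vA m F G 0 z)) := by
    have h1 := hχ.wd (WD.leibniz (h.c1_ar c T) (h.wd_A 0))
      (InvForm.smul (h.inv_ar c hT) (h.inv_A 0))
    have hda : ContinuousOn (fun z => fderiv ℝ (var c F G T) z) UU :=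
      (h.c1_ar c T).continuousOn_fderiv_of_isOpen isOpen_UU (by simp)
    simp only [mul_add] at h1
    have i1 : Integrable fun z => χ z * (var c F G T z * vOm m F G 0 z) := hχ.int (hαc.mul hΩc)
    rw [integral_add (hχ.int (ContinuousOn.wedge hda (h.co_A.slice 0))) i1] at h1
    have h2 : ∫ z, χ z * wedge (fderiv ℝ (var c F G T) z) (vA m F G 0 z) =
        κ * ∫ z, χ z * ∫ t in (0:ℝ)..T, wedge (vZ m F G t z) (vA m F G 0 z) := by
      rw [← integral_const_mul]
      congr 1
      ext z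
      by_cases hz : z ∈ UU
      · rw [h.wedge_ar c hT hz]; ring
      · simp [image_eq_zero_of_notMem_tsupport fun hh => hz (hχ.supp hh)]
    rw [h2] at h1
    simp only [hα, hΩ]
    linarith
  -- (E3)
  have E3 : ∫ z, χ z * (α z * Ω z) =
      κ * ∫ t in (0:ℝ)..T, ∫ z, χ z * (ve m F G t z * m.ρ z) := by
    have hcoZA : CO (fun t z => wedge (vZ m F G t z) (vA m F G 0 z)) := by
      have hA0 : CO (fun _ z => vA m F G 0 z) :=
        ContinuousOn.comp (g := fun z => vA m F G 0 z) (f := fun q : ℝ × ℂ => q.2)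
          (h.co_A.slice 0) continuousOn_snd fun q hq => hq
      exact h.co_Z.wedge hA0
    rw [E2, fubini hχc hχ.cpt hχ.supp hcoZA, ← mul_neg, ← intervalIntegral.integral_neg]
    congr 1
    refine intervalIntegral.integral_congr fun t _ => ?_
    rw [h.int_ZA hχ t, neg_neg]
  -- (E3') stress identity
  have E3' : ∀ t, ∫ z, χ z * (vbu c F G t z * Ω z) =
      (∫ z, χ z * (vN c F G t z * m.ρ z)) -
      1 / 2 * (∫ z, χ z * (m.kc (F t z) * ((G t z).re ^ 2 + (G t z).im ^ 2) * m.ρ z)) +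
      1 / 2 * κ * ∫ z, χ z * (ve m F G t z * m.ρ z) := by
    intro t
    have h1 := hχ.wd (h.wd_T c t) (h.inv_T c t)
    have e1 : ∀ z, χ z * (vOm m F G t z * vbu c F G t z +
      1 / 2 * ((G t z).re ^ 2 + (G t z).im ^ 2) * (m.kc (F t z) - κ * m.ρ (F t z)) * m.ρ z -
      vN c F G t z * m.ρ z) = χ z * (vbu c F G t z * Ω z) - χ z * (vN c F G t z * m.ρ z) +
      1 / 2 * (χ z * (m.kc (F t z) * ((G t z).re ^ 2 + (G t z).im ^ 2) * m.ρ z)) -
      1 / 2 * κ * (χ z * (ve m F G t z * m.ρ z)) := by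
      intro z
      by_cases hz : z ∈ UU
      · rw [h.om_const t hz, ve]; ring
      · simp [image_eq_zero_of_notMem_tsupport fun hh => hz (hχ.supp hh)]
    simp only [e1] at h1
    have i1 : Integrable fun z => χ z * (vbu c F G t z * Ω z) := hχ.int (co_b.slice t)
    have i2 : Integrable fun z => χ z * (vN c F G t z * m.ρ z) := hχ.int (co_N.slice t)
    have i3 : Integrable fun z => χ z * (m.kc (F t z) * ((G t z).re ^ 2 + (G t z).im ^ 2) * m.ρ z) :=
      hχ.int (co_K.slice t)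
    have i4 : Integrable fun z => χ z * (ve m F G t z * m.ρ z) := hχ.int (co_e.slice t)
    have i12 : Integrable fun z => χ z * (vbu c F G t z * Ω z) -
        χ z * (vN c F G t z * m.ρ z) := i1.sub i2
    have i123 : Integrable fun z => χ z * (vbu c F G t z * Ω z) -
        χ z * (vN c F G t z * m.ρ z) +
      1 / 2 * (χ z * (m.kc (F t z) * ((G t z).re ^ 2 + (G t z).im ^ 2) * m.ρ z)) :=
      i12.add (i3.const_mul _)
    rw [integral_sub i123 (i4.const_mul _), integral_add i12 (i3.const_mul _),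
      integral_sub i1 i2, integral_const_mul, integral_const_mul] at h1
    linarith
  -- (E4) Bochner
  have E4 : ∀ t, ∫ z, χ z * (vss m F G t z * m.ρ z) =
      (∫ z, χ z * (Ω z ^ 2 / (4 * m.ρ z))) -
      1 / 2 * ∫ z, χ z * (m.kc (F t z) * ((G t z).re ^ 2 + (G t z).im ^ 2) * m.ρ z) := by
    intro t
    have h1 := hχ.wd (h.wd_B t) (h.inv_B t)
    have e1 : ∀ z, χ z * (vOm m F G t z ^ 2 / (4 * m.ρ z) - vss m F G t z * m.ρ z -
        1 / 2 * (m.kc (F t z) * ((G t z).re ^ 2 + (G t z).im ^ 2) * m.ρ z)) =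
        χ z * (Ω z ^ 2 / (4 * m.ρ z)) -
        χ z * (vss m F G t z * m.ρ z) -
        1 / 2 * (χ z * (m.kc (F t z) * ((G t z).re ^ 2 + (G t z).im ^ 2) * m.ρ z)) := by
      intro z
      by_cases hz : z ∈ UU
      · rw [h.om_const t hz]; ring
      · simp [image_eq_zero_of_notMem_tsupport fun hh => hz (hχ.supp hh)]
    simp only [e1] at h1
    have i1 : Integrable fun z => χ z * (Ω z ^ 2 / (4 * m.ρ z)) :=
      hχ.int ((hΩc.pow 2).div (continuousOn_const.mul hyc)
        fun z hz => mul_ne_zero four_ne_zero (hy z hz))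
    have i2 : Integrable fun z => χ z * (vss m F G t z * m.ρ z) := hχ.int (co_s.slice t)
    have i3 : Integrable fun z => χ z * (m.kc (F t z) * ((G t z).re ^ 2 + (G t z).im ^ 2) * m.ρ z) :=
      hχ.int (co_K.slice t)
    have i12 : Integrable fun z => χ z * (Ω z ^ 2 / (4 * m.ρ z)) -
        χ z * (vss m F G t z * m.ρ z) := i1.sub i2
    rw [integral_sub i12 (i3.const_mul _), integral_sub i1 i2, integral_const_mul] at h1
    linarith
  -- (E5) rotation inequality
  have E5 : ∀ z ∈ UU, (1 / 2 * T * (Ω z / m.ρ z) - (a z + k)) ^ 2 ≤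
      T * ∫ t in (0:ℝ)..T, vss m F G t z := by
    intro z hz
    have hc1 : Continuous fun t => 1 / 2 * rt F G t z * (m.ρ (F t z) / m.ρ z) :=
      (continuous_const.mul (h.co_rt.slice_t hz)).mul ((h.c1R.co.slice_t hz).div_const _)
    have hc2 : Continuous fun t => rr F G t z := h.co_rr.slice_t hz
    have hc3 : Continuous fun t => vss m F G t z := h.co_ss.slice_t hz
    have e1 : ∀ t, 1 / 2 * rt F G t z * (m.ρ (F t z) / m.ρ z) =
        1 / 2 * (Ω z / m.ρ z) - vth m F G t z := by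
      intro t
      simp only [hΩ]
      rw [← h.om_const t hz, vOm]
      have h2 := hy z hz
      field_simp
      ring
    have e2 : ∫ t in (0:ℝ)..T, (1 / 2 * rt F G t z * (m.ρ (F t z) / m.ρ z) - rr F G t z) =
        1 / 2 * T * (Ω z / m.ρ z) - (a z + k) := by
      rw [intervalIntegral.integral_sub (hc1.intervalIntegrable _ _) (hc2.intervalIntegrable _ _),
        hk z hz]
      simp only [e1]
      rw [intervalIntegral.integral_sub (continuous_const.intervalIntegrable _ _)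
        ((h.co_th.slice_t hz).intervalIntegrable _ _), intervalIntegral.integral_const]
      simp only [ha, smul_eq_mul, sub_zero]
      ring
    rw [← e2]
    have hc4 : Continuous fun t =>
        1 / 2 * rt F G t z * (m.ρ (F t z) / m.ρ z) - rr F G t z := hc1.sub hc2
    refine (cs_time hc4 hT0).trans ?_
    refine mul_le_mul_of_nonneg_left ?_ hT0.le
    refine intervalIntegral.integral_mono_on hT0.le ((hc4.pow 2).intervalIntegrable _ _)
      (hc3.intervalIntegrable _ _) fun t _ => ?_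
    have := (h.rot_point t hz).2
    have e3 : (1 / 2 * rt F G t z * (m.ρ (F t z) / m.ρ z) - rr F G t z) ^ 2 =
      (rr F G t z - 1 / 2 * rt F G t z * (m.ρ (F t z) / m.ρ z)) ^ 2 := by ring
    rw [e3]
    exact this
  -- integrate
  have iR : Integrable fun z => χ z * (T * ∫ t in (0:ℝ)..T, vss m F G t z * m.ρ z) :=
    hχ.int (continuousOn_const.mul (co_s.continuousOn_integral 0 T))
  have cL : ContinuousOn (fun z => (1 / 2 * T * (Ω z / m.ρ z) - (a z + k)) ^ 2 * m.ρ z) UU :=
    ((((continuousOn_const.mul (hΩc.div hyc hy)).sub (hac.add continuousOn_const)).pow 2)).mul hyc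
  have E6 : ∫ z, χ z * ((1 / 2 * T * (Ω z / m.ρ z) - (a z + k)) ^ 2 * m.ρ z) ≤
      ∫ z, χ z * (T * ∫ t in (0:ℝ)..T, vss m F G t z * m.ρ z) := by
    refine integral_mono (hχ.int cL) iR fun z => ?_
    by_cases hz : z ∈ UU
    · refine mul_le_mul_of_nonneg_left ?_ (hχ.nonneg z)
      rw [intervalIntegral.integral_mul_const, ← mul_assoc]
      exact mul_le_mul_of_nonneg_right (E5 z hz) (m.pos z hz).le
    · simp [image_eq_zero_of_notMem_tsupport fun hh => hz (hχ.supp hh)]
  -- the right-hand side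
  have iE : IntervalIntegrable (fun t => ∫ z, χ z * (ve m F G t z * m.ρ z)) volume 0 T :=
    (co_e.continuous_integral_mul hχc hχ.cpt hχ.supp).intervalIntegrable _ _
  have iK : IntervalIntegrable (fun t => ∫ z, χ z * (m.kc (F t z) *
      ((G t z).re ^ 2 + (G t z).im ^ 2) * m.ρ z)) volume 0 T :=
    (co_K.continuous_integral_mul hχc hχ.cpt hχ.supp).intervalIntegrable _ _
  have iN : IntervalIntegrable (fun t => ∫ z, χ z * (vN c F G t z * m.ρ z)) volume 0 T :=
    (co_N.continuous_integral_mul hχc hχ.cpt hχ.supp).intervalIntegrable _ _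
  have E7 : ∫ z, χ z * (T * ∫ t in (0:ℝ)..T, vss m F G t z * m.ρ z) =
      T * (T * (∫ z, χ z * (Ω z ^ 2 / (4 * m.ρ z))) -
        1 / 2 * ∫ t in (0:ℝ)..T, ∫ z, χ z * (m.kc (F t z) *
          ((G t z).re ^ 2 + (G t z).im ^ 2) * m.ρ z)) := by
    have e1 : ∀ z, χ z * (T * ∫ t in (0:ℝ)..T, vss m F G t z * m.ρ z) =
        T * (χ z * ∫ t in (0:ℝ)..T, vss m F G t z * m.ρ z) := fun z => by ring
    simp only [e1]
    rw [integral_const_mul, fubini hχc hχ.cpt hχ.supp co_s]
    simp only [E4]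
    rw [intervalIntegral.integral_sub (continuous_const.intervalIntegrable _ _)
      (iK.const_mul _), intervalIntegral.integral_const, intervalIntegral.integral_const_mul]
    simp
  -- the left-hand side
  have E8 : ∫ z, χ z * ((1 / 2 * T * (Ω z / m.ρ z) - (a z + k)) ^ 2 * m.ρ z) =
      T ^ 2 * (∫ z, χ z * (Ω z ^ 2 / (4 * m.ρ z))) - T * (∫ z, χ z * (a z * Ω z)) -
        T * k * (∫ z, χ z * Ω z) + ∫ z, χ z * ((a z + k) ^ 2 * m.ρ z) := by
    have e1 : ∀ z, χ z * ((1 / 2 * T * (Ω z / m.ρ z) - (a z + k)) ^ 2 * m.ρ z) =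
        T ^ 2 * (χ z * (Ω z ^ 2 / (4 * m.ρ z))) - T * (χ z * (a z * Ω z)) -
        T * k * (χ z * Ω z) + χ z * ((a z + k) ^ 2 * m.ρ z) := by
      intro z
      by_cases hz : z ∈ UU
      · have := hy z hz
        field_simp
        ring
      · simp [image_eq_zero_of_notMem_tsupport fun hh => hz (hχ.supp hh)]
    have i1 : Integrable fun z => χ z * (Ω z ^ 2 / (4 * m.ρ z)) :=
      hχ.int ((hΩc.pow 2).div (continuousOn_const.mul hyc)
        fun z hz => mul_ne_zero four_ne_zero (hy z hz))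
    have i2 : Integrable fun z => χ z * (a z * Ω z) := hχ.int (hac.mul hΩc)
    have i3 : Integrable fun z => χ z * Ω z := hχ.int hΩc
    have i4 : Integrable fun z => χ z * ((a z + k) ^ 2 * m.ρ z) :=
      hχ.int (((hac.add continuousOn_const).pow 2).mul hyc)
    simp only [e1]
    have j12 : Integrable fun z => T ^ 2 * (χ z * (Ω z ^ 2 / (4 * m.ρ z))) -
        T * (χ z * (a z * Ω z)) := (i1.const_mul _).sub (i2.const_mul _)
    have j123 : Integrable fun z => T ^ 2 * (χ z * (Ω z ^ 2 / (4 * m.ρ z))) -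
        T * (χ z * (a z * Ω z)) - T * k * (χ z * Ω z) := j12.sub (i3.const_mul _)
    rw [integral_add j123 i4, integral_sub j12 (i3.const_mul _),
      integral_sub (i1.const_mul _) (i2.const_mul _), integral_const_mul, integral_const_mul,
      integral_const_mul]
  have E9 : 0 ≤ ∫ z, χ z * ((a z + k) ^ 2 * m.ρ z) := by
    refine integral_nonneg fun z => ?_
    by_cases hz : z ∈ UU
    · exact mul_nonneg (hχ.nonneg z) (mul_nonneg (sq_nonneg _) (m.pos z hz).le)
    · simp [image_eq_zero_of_notMem_tsupport fun hh => hz (hχ.supp hh)]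
  -- `a = α - ∫ b`
  have E10 : ∫ z, χ z * (a z * Ω z) = (∫ z, χ z * (α z * Ω z)) -
      ∫ t in (0:ℝ)..T, ∫ z, χ z * (vbu c F G t z * Ω z) := by
    rw [← fubini hχc hχ.cpt hχ.supp co_b]
    have i1 : Integrable fun z => χ z * (α z * Ω z) := hχ.int (hαc.mul hΩc)
    have i2 : Integrable fun z => χ z * ∫ t in (0:ℝ)..T, vbu c F G t z * Ω z :=
      hχ.int (co_b.continuousOn_integral 0 T)
    rw [← integral_sub i1 i2]
    congr 1
    ext z
    by_cases hz : z ∈ UU
    · rw [intervalIntegral.integral_mul_const]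
      have e2 : a z = α z - ∫ t in (0:ℝ)..T, vbu c F G t z := by
        simp only [ha, hα, var]
        rw [← intervalIntegral.integral_sub (((h.co_au c).slice_t hz).intervalIntegrable _ _)
          (((h.co_bu c).slice_t hz).intervalIntegrable _ _)]
        congr 1
        ext t
        rw [vth, vau, vbu, Cert.M1, Cert.M2]
        ring
      rw [e2]
      ring
    · simp [image_eq_zero_of_notMem_tsupport fun hh => hz (hχ.supp hh)]
  have E11 : ∫ t in (0:ℝ)..T, ∫ z, χ z * (vbu c F G t z * Ω z) =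
      (∫ t in (0:ℝ)..T, ∫ z, χ z * (vN c F G t z * m.ρ z)) -
      1 / 2 * (∫ t in (0:ℝ)..T, ∫ z, χ z *
        (m.kc (F t z) * ((G t z).re ^ 2 + (G t z).im ^ 2) * m.ρ z)) +
      1 / 2 * κ * ∫ t in (0:ℝ)..T, ∫ z, χ z * (ve m F G t z * m.ρ z) := by
    simp only [E3']
    rw [intervalIntegral.integral_add (iN.sub (iK.const_mul _)) (iE.const_mul _),
      intervalIntegral.integral_sub iN (iK.const_mul _), intervalIntegral.integral_const_mul,
      intervalIntegral.integral_const_mul]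
  have E12 : ∫ t in (0:ℝ)..T, ∫ z, χ z * ((vN c F G t z - 1 / 2 * κ * ve m F G t z) * m.ρ z) =
      (∫ t in (0:ℝ)..T, ∫ z, χ z * (vN c F G t z * m.ρ z)) -
      1 / 2 * κ * ∫ t in (0:ℝ)..T, ∫ z, χ z * (ve m F G t z * m.ρ z) := by
    rw [← intervalIntegral.integral_const_mul, ← intervalIntegral.integral_sub iN
      (iE.const_mul _)]
    refine intervalIntegral.integral_congr fun t _ => ?_
    have i2 : Integrable fun z => χ z * (vN c F G t z * m.ρ z) := hχ.int (co_N.slice t)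
    have i4 : Integrable fun z => χ z * (ve m F G t z * m.ρ z) := hχ.int (co_e.slice t)
    rw [← integral_const_mul, ← integral_sub i2 (i4.const_mul _)]
    congr 1
    ext z
    ring
  rw [E7, E8, E1, E10, E11, E3] at E6
  rw [E12]
  nlinarith

end Pool.Agent.CG
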