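import Pool.Agent.Lib.MP_35454f.Energy

/-!
# Motions preserving the area form of a conformal metric `ρ |dz|²`
-/

set_option autoImplicit false

open MeasureTheory Filter Topology Complex Set
open UpperHalfPlane hiding I
open scoped ContDiff Manifold MatrixGroups Interval

namespace Pool.Agent.CG

/-- A `Γ`-invariant conformal metric `ρ |dz|²`, `ρ = e^{2l}`, on the upper half-plane, with
`∇ l = (l1, l2)`. -/
structure Met (Γ : Subgroup SL(2, ℝ)) where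
  ρ : ℂ → ℝ
  l1 : ℂ → ℝ
  l2 : ℂ → ℝ
  pos : ∀ z ∈ UU, 0 < ρ z
  hρ : ContDiffOn ℝ 1 ρ UU
  hl1 : ContDiffOn ℝ 1 l1 UU
  hl2 : ContDiffOn ℝ 1 l2 UU
  dρ : ∀ z ∈ UU, HasFDerivAt ρ ((2 * ρ z * l1 z) • reCLM + (2 * ρ z * l2 z) • imCLM) z
  inv : ∀ g ∈ Γ, ∀ z ∈ UU, ρ (mob g z) = ρ z * normSq (den g z) ^ 2
  linv : ∀ g ∈ Γ, ∀ z ∈ UU, ((l1 (mob g z) : ℂ) - I * (l2 (mob g z) : ℂ)) =
    ((l1 z : ℂ) - I * (l2 z : ℂ)) * (den g z) ^ 2 + 2 * ((g 1 0 : ℝ) : ℂ) * den g z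

variable {Γ : Subgroup SL(2, ℝ)}

/-- The curvature density `K ρ = - Δ l`. -/
noncomputable def Met.kc (m : Met Γ) (z : ℂ) : ℝ := -(fderiv ℝ m.l1 z 1 + fderiv ℝ m.l2 z I)

/-- A motion `F` with velocity `G = ∂ₜ F` preserving the area form of `m`. -/
structure VMot (m : Met Γ) (F G : ℝ → ℂ → ℂ) : Prop where
  mem : ∀ t, ∀ z ∈ UU, F t z ∈ UU
  c1F : C1 F
  c1G : C1 G
  dF : ∀ t, ∀ z ∈ UU, HasDerivAt (fun s => F s z) (G t z) t
  area : ∀ t, ∀ z ∈ UU, wedge (dRe F t z) (dIm F t z) = m.ρ z / m.ρ (F t z)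

variable {m : Met Γ} {F G : ℝ → ℂ → ℂ}

/-- composition with the motion -/
lemma C1.comp_F {f : ℂ → ℝ} (hf : ContDiffOn ℝ 1 f UU) (hF : C1 F)
    (hmem : ∀ t, ∀ z ∈ UU, F t z ∈ UU) : C1 (fun t z => f (F t z)) :=
  ContDiffOn.comp (g := f) (f := fun q : ℝ × ℂ => F q.1 q.2) hf hF fun q hq => hmem q.1 q.2 hq

lemma CO.comp_F {E : Type*} [TopologicalSpace E] {f : ℂ → E} (hf : ContinuousOn f UU) (hF : CO F)
    (hmem : ∀ t, ∀ z ∈ UU, F t z ∈ UU) : CO (fun t z => f (F t z)) :=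
  ContinuousOn.comp (g := f) (f := fun q : ℝ × ℂ => F q.1 q.2) hf hF fun q hq => hmem q.1 q.2 hq

lemma VMot.c1R (h : VMot m F G) : C1 (fun t z => m.ρ (F t z)) := C1.comp_F m.hρ h.c1F h.mem
lemma VMot.c1L1 (h : VMot m F G) : C1 (fun t z => m.l1 (F t z)) := C1.comp_F m.hl1 h.c1F h.mem
lemma VMot.c1L2 (h : VMot m F G) : C1 (fun t z => m.l2 (F t z)) := C1.comp_F m.hl2 h.c1F h.mem

lemma VMot.R_pos (h : VMot m F G) (t : ℝ) {z : ℂ} (hz : z ∈ UU) : 0 < m.ρ (F t z) :=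
  m.pos _ (h.mem t z hz)

lemma VMot.R_ne (h : VMot m F G) : ∀ t, ∀ z ∈ UU, m.ρ (F t z) ≠ 0 :=
  fun t _ hz => (h.R_pos t hz).ne'

lemma Met.ne (m : Met Γ) {z : ℂ} (hz : z ∈ UU) : m.ρ z ≠ 0 := (m.pos z hz).ne'

lemma co_const_t {f : ℂ → ℝ} (hf : ContinuousOn f UU) : CO (fun _ z => f z) :=
  ContinuousOn.comp (g := f) (f := fun q : ℝ × ℂ => q.2) hf continuousOn_snd fun q hq => hq

lemma Met.co_ρ (m : Met Γ) : CO (fun _ z => m.ρ z) := co_const_t m.hρ.continuousOn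

lemma VMot.wXY (h : VMot m F G) (t : ℝ) {z : ℂ} (hz : z ∈ UU) :
    wedge (dRe F t z) (dIm F t z) = m.ρ z / m.ρ (F t z) := h.area t z hz

/-- the position in terms of the velocity -/
lemma VMot.eq_integral (h : VMot m F G) (t : ℝ) {z : ℂ} (hz : z ∈ UU) :
    F t z = F 0 z + ∫ s in (0:ℝ)..t, G s z := by
  rw [intervalIntegral.integral_eq_sub_of_hasDerivAt (fun s _ => h.dF s z hz)
    ((h.c1G.co.slice_t hz).intervalIntegrable _ _)]
  ring

lemma VMot.fderiv_eq_integral (h : VMot m F G) (t : ℝ) {z : ℂ} (hz : z ∈ UU) :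
    fderiv ℝ (F t) z = fderiv ℝ (F 0) z + ∫ s in (0:ℝ)..t, fderiv ℝ (G s) z := by
  have h1 : F t =ᶠ[𝓝 z] fun w => F 0 w + ∫ s in (0:ℝ)..t, G s w := by
    filter_upwards [isOpen_UU.mem_nhds hz] with w hw using h.eq_integral t hw
  have h2 : HasFDerivAt (fun w => F 0 w + ∫ s in (0:ℝ)..t, G s w)
      (fderiv ℝ (F 0) z + ∫ s in (0:ℝ)..t, fderiv ℝ (G s) z) z :=
    (h.c1F.hasFDerivAt 0 hz).add (hasFDerivAt_param h.c1G.co h.c1G.co_fderiv
      (fun t z hz => h.c1G.hasFDerivAt t hz) 0 t hz)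
  rw [h1.fderiv_eq, h2.fderiv]

/-- the mixed second derivative -/
lemma VMot.hasDerivAt_fderiv (h : VMot m F G) (t : ℝ) {z : ℂ} (hz : z ∈ UU) :
    HasDerivAt (fun s => fderiv ℝ (F s) z) (fderiv ℝ (G t) z) t := by
  have h1 : (fun s => fderiv ℝ (F s) z) =
      fun t => fderiv ℝ (F 0) z + ∫ s in (0:ℝ)..t, fderiv ℝ (G s) z := by
    ext1 s
    exact h.fderiv_eq_integral s hz
  rw [h1]
  exact (intervalIntegral.integral_hasDerivAt_right
    ((h.c1G.co_fderiv.slice_t hz).intervalIntegrable _ _)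
    ((h.c1G.co_fderiv.slice_t hz).stronglyMeasurableAtFilter _ _)
    (h.c1G.co_fderiv.slice_t hz).continuousAt).const_add _

lemma VMot.hasDerivAt_dRe (h : VMot m F G) (t : ℝ) {z : ℂ} (hz : z ∈ UU) (w : ℂ) :
    HasDerivAt (fun s => dRe F s z w) (dRe G t z w) t := by
  have h1 := ((h.hasDerivAt_fderiv t hz).clm_apply (hasDerivAt_const t w))
  simp only [map_zero, add_zero] at h1
  exact reCLM.hasFDerivAt.comp_hasDerivAt t h1

lemma VMot.hasDerivAt_dIm (h : VMot m F G) (t : ℝ) {z : ℂ} (hz : z ∈ UU) (w : ℂ) :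
    HasDerivAt (fun s => dIm F s z w) (dIm G t z w) t := by
  have h1 := ((h.hasDerivAt_fderiv t hz).clm_apply (hasDerivAt_const t w))
  simp only [map_zero, add_zero] at h1
  exact imCLM.hasFDerivAt.comp_hasDerivAt t h1

lemma VMot.hasDerivAt_re (h : VMot m F G) (t : ℝ) {z : ℂ} (hz : z ∈ UU) :
    HasDerivAt (fun s => (F s z).re) (G t z).re t :=
  reCLM.hasFDerivAt.comp_hasDerivAt t (h.dF t z hz)

lemma VMot.hasDerivAt_im (h : VMot m F G) (t : ℝ) {z : ℂ} (hz : z ∈ UU) :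
    HasDerivAt (fun s => (F s z).im) (G t z).im t :=
  imCLM.hasFDerivAt.comp_hasDerivAt t (h.dF t z hz)

/-- time derivative of a function along the motion -/
lemma VMot.hasDerivAt_comp (h : VMot m F G) {f : ℂ → ℝ} (hf : ContDiffOn ℝ 1 f UU) (t : ℝ) {z : ℂ}
    (hz : z ∈ UU) : HasDerivAt (fun s => f (F s z)) (fderiv ℝ f (F t z) (G t z)) t :=
  (((hf.contDiffAt (isOpen_UU.mem_nhds (h.mem t z hz))).differentiableAt
    one_ne_zero).hasFDerivAt).comp_hasDerivAt t (h.dF t z hz)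

/-- space derivative of a function along the motion -/
lemma VMot.hasFDerivAt_comp (h : VMot m F G) {f : ℂ → ℝ} (hf : ContDiffOn ℝ 1 f UU) (t : ℝ) {z : ℂ}
    (hz : z ∈ UU) : HasFDerivAt (fun z => f (F t z))
      ((fderiv ℝ f (F t z) 1) • dRe F t z + (fderiv ℝ f (F t z) I) • dIm F t z) z := by
  have h1 : HasFDerivAt f (fderiv ℝ f (F t z)) (F t z) :=
    ((hf.contDiffAt (isOpen_UU.mem_nhds (h.mem t z hz))).differentiableAt
      one_ne_zero).hasFDerivAt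
  refine (h1.comp z (h.c1F.hasFDerivAt t hz)).congr_fderiv ?_
  ext w
  rw [fderiv_comp_eq]
  rfl

lemma clm_eq (L : ℂ →L[ℝ] ℝ) (v : ℂ) : L v = L 1 * v.re + L I * v.im := by
  have hv : v = v.re • (1:ℂ) + v.im • I := by apply Complex.ext <;> simp
  conv_lhs => rw [hv]
  rw [map_add, map_smul, map_smul, smul_eq_mul, smul_eq_mul]
  ring

lemma VMot.hasDerivAt_R (h : VMot m F G) (t : ℝ) {z : ℂ} (hz : z ∈ UU) :
    HasDerivAt (fun s => m.ρ (F s z)) (2 * m.ρ (F t z) * (m.l1 (F t z) * (G t z).re +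
      m.l2 (F t z) * (G t z).im)) t := by
  refine ((m.dρ _ (h.mem t z hz)).comp_hasDerivAt t (h.dF t z hz)).congr_deriv ?_
  simp only [add_apply, smul_apply, smul_eq_mul, reCLM_apply, imCLM_apply]
  ring

/-- `d (ρ ∘ F)` -/
noncomputable def dR (m : Met Γ) (F : ℝ → ℂ → ℂ) (t : ℝ) (z : ℂ) : ℂ →L[ℝ] ℝ :=
  (2 * m.ρ (F t z) * m.l1 (F t z)) • dRe F t z + (2 * m.ρ (F t z) * m.l2 (F t z)) • dIm F t z

lemma VMot.hasFDerivAt_R (h : VMot m F G) (t : ℝ) {z : ℂ} (hz : z ∈ UU) :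
    HasFDerivAt (fun z => m.ρ (F t z)) (dR m F t z) z := by
  refine ((m.dρ _ (h.mem t z hz)).comp z (h.c1F.hasFDerivAt t hz)).congr_fderiv ?_
  ext w
  simp only [dR, ContinuousLinearMap.comp_apply, add_apply, smul_apply, smul_eq_mul,
    reCLM_apply, imCLM_apply, dRe_apply, dIm_apply]

/-- Incompressibility in Lagrangian variables. -/
lemma VMot.incompr (h : VMot m F G) (t : ℝ) {z : ℂ} (hz : z ∈ UU) :
    wedge (dRe G t z) (dIm F t z) - wedge (dIm G t z) (dRe F t z) =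
      -(2 * m.ρ z * (m.l1 (F t z) * (G t z).re + m.l2 (F t z) * (G t z).im)) / m.ρ (F t z) := by
  have h0 := h.R_ne t z hz
  have h1 : HasDerivAt (fun s => wedge (dRe F s z) (dIm F s z))
      (-(2 * m.ρ z * (m.l1 (F t z) * (G t z).re + m.l2 (F t z) * (G t z).im)) / m.ρ (F t z)) t := by
    have h2 : (fun s => wedge (dRe F s z) (dIm F s z)) = fun s => m.ρ z / m.ρ (F s z) := by
      ext s; exact h.wXY s hz
    rw [h2]
    refine ((hasDerivAt_const t (m.ρ z)).fun_div (h.hasDerivAt_R t hz) h0).congr_deriv ?_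
    field_simp
    ring
  have h3 : HasDerivAt (fun s => wedge (dRe F s z) (dIm F s z))
      ((dRe G t z 1 * dIm F t z I + dRe F t z 1 * dIm G t z I) -
        (dRe G t z I * dIm F t z 1 + dRe F t z I * dIm G t z 1)) t :=
    ((h.hasDerivAt_dRe t hz 1).mul (h.hasDerivAt_dIm t hz I)).sub
      ((h.hasDerivAt_dRe t hz I).mul (h.hasDerivAt_dIm t hz 1))
  rw [← h3.unique h1]
  simp only [wedge]
  ring

end Pool.Agent.CG
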