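import Pool.Agent.Lib.MP_35454f.VFam3

/-!
# Metrics close to a hyperbolic metric: explicit bounds
-/

set_option autoImplicit false

open Filter Topology Complex Set
open UpperHalfPlane hiding I
open scoped ContDiff Manifold MatrixGroups

namespace Pool.Agent.CG

lemma fderiv_app {V : Type*} [NormedAddCommGroup V] [NormedSpace ℝ V] {Φ : ℂ → ℂ →L[ℝ] V} {w : ℂ}
    (h : DifferentiableAt ℝ Φ w) (a b : ℂ) : fderiv ℝ (fun w => Φ w b) w a = fderiv ℝ Φ w a b := by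
  rw [fderiv_clm_apply h (differentiableAt_const b)]
  simp

variable {g : ℂ → ℝ}

/-- derivative of an evaluation of an iterated derivative -/
lemma hasFDerivAt_iter {n : ℕ} {w : ℂ} (h : ContDiffAt ℝ (n + 1) g w) (m : Fin n → ℂ) :
    DifferentiableAt ℝ (fun w => iteratedFDeriv ℝ n g w m) w ∧
    ∀ v, fderiv ℝ (fun w => iteratedFDeriv ℝ n g w m) w v =
      iteratedFDeriv ℝ (n + 1) g w (Fin.cons v m) := by
  have h1 : DifferentiableAt ℝ (iteratedFDeriv ℝ n g) w :=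
    (h.iteratedFDeriv_right (m := 1) (by rw [add_comm])).differentiableAt (by norm_num)
  have h2 := (ContinuousMultilinearMap.apply ℝ (fun _ : Fin n => ℂ) ℝ m).hasFDerivAt.comp w
    h1.hasFDerivAt
  have h3 : HasFDerivAt (fun w => iteratedFDeriv ℝ n g w m)
    ((ContinuousMultilinearMap.apply ℝ (fun _ : Fin n => ℂ) ℝ m).comp
      (fderiv ℝ (iteratedFDeriv ℝ n g) w)) w := h2
  refine ⟨h3.differentiableAt, fun v => ?_⟩
  rw [h3.fderiv, iteratedFDeriv_succ_apply_left]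
  simp

/-- Euclidean Laplacian -/
noncomputable def LL (g : ℂ → ℝ) (w : ℂ) : ℝ :=
  iteratedFDeriv ℝ 2 g w ![1, 1] + iteratedFDeriv ℝ 2 g w ![I, I]
/-- its derivative -/
noncomputable def dLL (g : ℂ → ℝ) (w v : ℂ) : ℝ :=
  iteratedFDeriv ℝ 3 g w ![v, 1, 1] + iteratedFDeriv ℝ 3 g w ![v, I, I]
/-- its second derivative -/
noncomputable def ddLL (g : ℂ → ℝ) (w v : ℂ) : ℝ :=
  iteratedFDeriv ℝ 4 g w ![v, v, 1, 1] + iteratedFDeriv ℝ 4 g w ![v, v, I, I]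

/-- four derivatives -/
structure Four (g : ℂ → ℝ) : Prop where
  c4 : ContDiffOn ℝ 4 g UU

lemma Four.at (h : Four g) {w : ℂ} (hw : w ∈ UU) : ContDiffAt ℝ 4 g w :=
  h.c4.contDiffAt (isOpen_UU.mem_nhds hw)

lemma Four.d1 (h : Four g) {w : ℂ} (hw : w ∈ UU) : DifferentiableAt ℝ (fderiv ℝ g) w :=
  ((h.at hw).fderiv_right (m := 1) (by norm_num)).differentiableAt (by norm_num)

lemma Four.hasFDerivAt_LL (h : Four g) {w : ℂ} (hw : w ∈ UU) :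
    DifferentiableAt ℝ (LL g) w ∧ ∀ v, fderiv ℝ (LL g) w v = dLL g w v := by
  have h0 : ContDiffAt ℝ (((2 : ℕ) : ℕ∞ω) + 1) g w := (h.at hw).of_le (by norm_num)
  have h1 := hasFDerivAt_iter h0 ![1, 1]
  have h2 := hasFDerivAt_iter h0 ![I, I]
  refine ⟨h1.1.add h2.1, fun v => ?_⟩
  have h3 : fderiv ℝ (LL g) w = fderiv ℝ (fun w => iteratedFDeriv ℝ 2 g w ![1, 1]) w +
      fderiv ℝ (fun w => iteratedFDeriv ℝ 2 g w ![I, I]) w := fderiv_fun_add h1.1 h2.1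
  rw [h3, add_apply, h1.2, h2.2, dLL]
  rfl

lemma Four.hasFDerivAt_dLL (h : Four g) {w : ℂ} (hw : w ∈ UU) (v : ℂ) :
    DifferentiableAt ℝ (fun w => dLL g w v) w ∧
      fderiv ℝ (fun w => dLL g w v) w v = ddLL g w v := by
  have h0 : ContDiffAt ℝ (((3 : ℕ) : ℕ∞ω) + 1) g w := (h.at hw).of_le (by norm_num)
  have h1 := hasFDerivAt_iter h0 ![v, 1, 1]
  have h2 := hasFDerivAt_iter h0 ![v, I, I]
  refine ⟨h1.1.add h2.1, ?_⟩
  have h3 : fderiv ℝ (fun w => dLL g w v) w =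
      fderiv ℝ (fun w => iteratedFDeriv ℝ 3 g w ![v, 1, 1]) w +
      fderiv ℝ (fun w => iteratedFDeriv ℝ 3 g w ![v, I, I]) w := fderiv_fun_add h1.1 h2.1
  rw [h3, add_apply, h1.2, h2.2, ddLL]
  rfl

variable {Γ : Subgroup SL(2, ℝ)} {f : ℍ → ℝ}

lemma Good.four (h : Good Γ f) : Four (fc f) := ⟨h.c4⟩

lemma Good.sc_eq (h : Good Γ f) {w : ℂ} (hw : w ∈ UU) : sc f w = w.im ^ 2 * LL (fc f) w := by
  rw [sc, LL]
  rw [iteratedFDeriv_two_apply, iteratedFDeriv_two_apply]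
  congr 2
  · exact fderiv_app (h.four.d1 hw) 1 1
  · exact fderiv_app (h.four.d1 hw) I I

lemma Good.fderiv_sc (h : Good Γ f) {w : ℂ} (hw : w ∈ UU) (v : ℂ) :
    fderiv ℝ (sc f) w v = 2 * w.im * v.im * LL (fc f) w + w.im ^ 2 * dLL (fc f) w v := by
  have e1 : sc f =ᶠ[𝓝 w] fun w => w.im ^ 2 * LL (fc f) w := by
    filter_upwards [isOpen_UU.mem_nhds hw] with z hz using h.sc_eq hz
  have hi : HasFDerivAt (fun w : ℂ => w.im) imCLM w := imCLM.hasFDerivAt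
  have h1 := (hasFDerivAt_pow' hi 2).fun_mul (h.four.hasFDerivAt_LL hw).1.hasFDerivAt
  rw [e1.fderiv_eq, h1.fderiv]
  simp only [add_apply, smul_apply, smul_eq_mul, imCLM_apply, (h.four.hasFDerivAt_LL hw).2 v]
  norm_num
  ring

lemma Good.fderiv2_sc (h : Good Γ f) {w : ℂ} (hw : w ∈ UU) (v : ℂ) :
    fderiv ℝ (fun w => fderiv ℝ (sc f) w v) w v = 2 * v.im ^ 2 * LL (fc f) w +
      4 * w.im * v.im * dLL (fc f) w v + w.im ^ 2 * ddLL (fc f) w v := by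
  have e1 : (fun w => fderiv ℝ (sc f) w v) =ᶠ[𝓝 w]
      fun w => 2 * v.im * w.im * LL (fc f) w + w.im ^ 2 * dLL (fc f) w v := by
    filter_upwards [isOpen_UU.mem_nhds hw] with z hz
    rw [h.fderiv_sc hz v]
    ring
  have hi : HasFDerivAt (fun w : ℂ => w.im) imCLM w := imCLM.hasFDerivAt
  have h1 := (((hi.const_mul (2 * v.im)).fun_mul (h.four.hasFDerivAt_LL hw).1.hasFDerivAt).fun_add
    ((hasFDerivAt_pow' hi 2).fun_mul (h.four.hasFDerivAt_dLL hw v).1.hasFDerivAt))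
  rw [e1.fderiv_eq, h1.fderiv]
  simp only [add_apply, smul_apply, smul_eq_mul, imCLM_apply, (h.four.hasFDerivAt_LL hw).2 v,
    (h.four.hasFDerivAt_dLL hw v).2]
  norm_num
  ring

/-- The covariant derivative of `W / ρ`. -/
lemma nab_formula {σ : ℍ → ℝ} (hσ : IsConformalFactor Γ σ) {X : ℍ → ℂ} {W1 W2 : ℂ → ℝ} {z : ℍ}
    (hX : ∀ w ∈ UU, X (ofComplex w) = ((W1 w : ℂ) + I * (W2 w : ℂ)) / (rho σ w : ℂ))
    (h1 : DifferentiableAt ℝ W1 z) (h2 : DifferentiableAt ℝ W2 z) (v : ℂ) :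
    rho σ z * ((starRingEnd ℂ v) * covDerM σ X z v).re =
      fderiv ℝ W1 z v * v.re + fderiv ℝ W2 z v * v.im -
      2 * (lamX σ z * v.re + lamY σ z * v.im) * (W1 z * v.re + W2 z * v.im) +
      (lamX σ z * W1 z + lamY σ z * W2 z) * normSq v := by
  have hz := coe_mem_UU z
  have hr := (hσ.rho_pos hz).ne'
  have hrc : (rho σ z : ℂ) ≠ 0 := ofReal_ne_zero.mpr hr
  have e1 : (fun w : ℂ => X (ofComplex w)) =ᶠ[𝓝 (z : ℂ)]
      fun w => ((W1 w : ℂ) + I * (W2 w : ℂ)) * ((rho σ w)⁻¹ : ℝ) := by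
    filter_upwards [isOpen_UU.mem_nhds hz] with w hw
    rw [hX w hw, div_eq_mul_inv, ofReal_inv]
  have hrho := hσ.hasFDerivAt_rho hz
  have hinv : HasFDerivAt (fun w => (rho σ w)⁻¹) ((-(rho σ z ^ 2)⁻¹) •
      ((2 * rho σ z * lamX σ z) • reCLM + (2 * rho σ z * lamY σ z) • imCLM)) (z : ℂ) :=
    (hasDerivAt_inv hr).comp_hasFDerivAt (z : ℂ) hrho
  have hW : HasFDerivAt (fun w => (W1 w : ℂ) + I * (W2 w : ℂ))
      (ofRealCLM.comp (fderiv ℝ W1 z) + I • (ofRealCLM.comp (fderiv ℝ W2 z))) (z : ℂ) :=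
    (ofRealCLM.hasFDerivAt.comp (z : ℂ) h1.hasFDerivAt).add
      ((ofRealCLM.hasFDerivAt.comp (z : ℂ) h2.hasFDerivAt).const_mul I)
  have h3 := hW.fun_mul (ofRealCLM.hasFDerivAt.comp (z : ℂ) hinv)
  have e2 : X z = ((W1 z : ℂ) + I * (W2 z : ℂ)) / (rho σ z : ℂ) := by
    have := hX z hz
    rwa [ofComplex_apply] at this
  rw [covDerM, e1.fderiv_eq]
  have h4 : fderiv ℝ (fun w => ((W1 w : ℂ) + I * (W2 w : ℂ)) * ((rho σ w)⁻¹ : ℝ)) (z : ℂ) = _ :=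
    h3.fderiv
  rw [h4, e2]
  simp only [add_apply, smul_apply, ContinuousLinearMap.comp_apply, ofRealCLM_apply,
    Function.comp_apply, smul_eq_mul, reCLM_apply, imCLM_apply]
  rw [← re_ofReal_mul]
  have e3 : (rho σ z : ℂ) * ((starRingEnd ℂ v) * (((W1 z : ℂ) + I * (W2 z : ℂ)) *
      ((-(rho σ z ^ 2)⁻¹ * (2 * rho σ z * lamX σ z * v.re + 2 * rho σ z * lamY σ z * v.im) : ℝ) : ℂ) +
      (((rho σ z)⁻¹ : ℝ) : ℂ) * (((fderiv ℝ W1 z v : ℝ) : ℂ) + I * ((fderiv ℝ W2 z v : ℝ) : ℂ)) +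
      ((lamX σ z : ℂ) - I * (lamY σ z : ℂ)) * v * (((W1 z : ℂ) + I * (W2 z : ℂ)) / (rho σ z : ℂ)))) =
      (starRingEnd ℂ v) * ((((fderiv ℝ W1 z v : ℝ) : ℂ) + I * ((fderiv ℝ W2 z v : ℝ) : ℂ)) -
      ((2 * (lamX σ z * v.re + lamY σ z * v.im) : ℝ) : ℂ) * ((W1 z : ℂ) + I * (W2 z : ℂ)) +
      ((lamX σ z : ℂ) - I * (lamY σ z : ℂ)) * v * ((W1 z : ℂ) + I * (W2 z : ℂ))) := by
    push_cast
    field_simp
    ring
  rw [e3]
  simp only [mul_re, add_re, sub_re, mul_im, add_im, sub_im, conj_re, conj_im, ofReal_re, ofReal_im,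
    Complex.I_re, Complex.I_im, normSq_apply]
  ring

end Pool.Agent.CG
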