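import Pool.Agent.Lib.MP_35454f.VNear

/-!
# Metrics close to a hyperbolic metric: no closed geodesics
-/

set_option autoImplicit false

open Filter Topology Complex Set
open UpperHalfPlane hiding I
open scoped ContDiff Manifold MatrixGroups

namespace Pool.Agent.CG

variable {Γ : Subgroup SL(2, ℝ)} {f : ℍ → ℝ}

/-- The bounds on the derivatives at a point. -/
structure Bd (f : ℍ → ℝ) (z : ℍ) : Prop where
  b1 : z.im ^ 1 * ‖iteratedFDeriv ℝ 1 (fc f) z‖ ≤ 1 / 50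
  b2 : z.im ^ 2 * ‖iteratedFDeriv ℝ 2 (fc f) z‖ ≤ 1 / 50
  b3 : z.im ^ 3 * ‖iteratedFDeriv ℝ 3 (fc f) z‖ ≤ 1 / 50
  b4 : z.im ^ 4 * ‖iteratedFDeriv ℝ 4 (fc f) z‖ ≤ 1 / 50

lemma Bd.A1 {z : ℍ} (b : Bd f z) (v : ℂ) : z.im * |fderiv ℝ (fc f) z v| ≤ ‖v‖ / 50 := by
  have h1 := b.b1
  rw [norm_iteratedFDeriv_one, pow_one] at h1
  have h2 := (fderiv ℝ (fc f) z).le_opNorm v
  rw [Real.norm_eq_abs] at h2
  have hy := z.im_pos
  calc z.im * |fderiv ℝ (fc f) z v| ≤ z.im * (‖fderiv ℝ (fc f) z‖ * ‖v‖) :=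
        mul_le_mul_of_nonneg_left h2 hy.le
    _ = (z.im * ‖fderiv ℝ (fc f) z‖) * ‖v‖ := by ring
    _ ≤ 1 / 50 * ‖v‖ := mul_le_mul_of_nonneg_right h1 (norm_nonneg v)
    _ = ‖v‖ / 50 := by ring

lemma Bd.A2 {z : ℍ} (b : Bd f z) (v w : ℂ) :
    z.im ^ 2 * |iteratedFDeriv ℝ 2 (fc f) z ![v, w]| ≤ ‖v‖ * ‖w‖ / 50 := by
  have h1 := b.b2
  have h2 := (iteratedFDeriv ℝ 2 (fc f) z).le_opNorm ![v, w]
  rw [Real.norm_eq_abs] at h2
  simp only [Fin.prod_univ_two, Matrix.cons_val_zero, Matrix.cons_val_one] at h2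
  have hy := pow_pos z.im_pos 2
  calc z.im ^ 2 * |iteratedFDeriv ℝ 2 (fc f) z ![v, w]|
      ≤ z.im ^ 2 * (‖iteratedFDeriv ℝ 2 (fc f) z‖ * (‖v‖ * ‖w‖)) :=
        mul_le_mul_of_nonneg_left h2 hy.le
    _ = (z.im ^ 2 * ‖iteratedFDeriv ℝ 2 (fc f) z‖) * (‖v‖ * ‖w‖) := by ring
    _ ≤ 1 / 50 * (‖v‖ * ‖w‖) := mul_le_mul_of_nonneg_right h1 (by positivity)
    _ = ‖v‖ * ‖w‖ / 50 := by ring

lemma Bd.A3 {z : ℍ} (b : Bd f z) (v w u : ℂ) :
    z.im ^ 3 * |iteratedFDeriv ℝ 3 (fc f) z ![v, w, u]| ≤ ‖v‖ * ‖w‖ * ‖u‖ / 50 := by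
  have h1 := b.b3
  have h2 := (iteratedFDeriv ℝ 3 (fc f) z).le_opNorm ![v, w, u]
  rw [Real.norm_eq_abs] at h2
  simp only [Fin.prod_univ_three, Matrix.cons_val_zero, Matrix.cons_val_one,
    Matrix.cons_val_two, Matrix.tail_cons, Matrix.head_cons] at h2
  have hy := pow_pos z.im_pos 3
  calc z.im ^ 3 * |iteratedFDeriv ℝ 3 (fc f) z ![v, w, u]|
      ≤ z.im ^ 3 * (‖iteratedFDeriv ℝ 3 (fc f) z‖ * (‖v‖ * ‖w‖ * ‖u‖)) :=
        mul_le_mul_of_nonneg_left h2 hy.le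
    _ = (z.im ^ 3 * ‖iteratedFDeriv ℝ 3 (fc f) z‖) * (‖v‖ * ‖w‖ * ‖u‖) := by ring
    _ ≤ 1 / 50 * (‖v‖ * ‖w‖ * ‖u‖) := mul_le_mul_of_nonneg_right h1 (by positivity)
    _ = ‖v‖ * ‖w‖ * ‖u‖ / 50 := by ring

lemma Bd.A4 {z : ℍ} (b : Bd f z) (v w u x : ℂ) :
    z.im ^ 4 * |iteratedFDeriv ℝ 4 (fc f) z ![v, w, u, x]| ≤ ‖v‖ * ‖w‖ * ‖u‖ * ‖x‖ / 50 := by
  have h1 := b.b4
  have h2 := (iteratedFDeriv ℝ 4 (fc f) z).le_opNorm ![v, w, u, x]
  rw [Real.norm_eq_abs, Fin.prod_univ_four] at h2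
  have h2' : |iteratedFDeriv ℝ 4 (fc f) z ![v, w, u, x]| ≤
      ‖iteratedFDeriv ℝ 4 (fc f) z‖ * (‖v‖ * ‖w‖ * ‖u‖ * ‖x‖) := h2
  have hy := pow_pos z.im_pos 4
  calc z.im ^ 4 * |iteratedFDeriv ℝ 4 (fc f) z ![v, w, u, x]|
      ≤ z.im ^ 4 * (‖iteratedFDeriv ℝ 4 (fc f) z‖ * (‖v‖ * ‖w‖ * ‖u‖ * ‖x‖)) :=
        mul_le_mul_of_nonneg_left h2' hy.le
    _ = (z.im ^ 4 * ‖iteratedFDeriv ℝ 4 (fc f) z‖) * (‖v‖ * ‖w‖ * ‖u‖ * ‖x‖) := by ring
    _ ≤ 1 / 50 * (‖v‖ * ‖w‖ * ‖u‖ * ‖x‖) := mul_le_mul_of_nonneg_right h1 (by positivity)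
    _ = ‖v‖ * ‖w‖ * ‖u‖ * ‖x‖ / 50 := by ring

lemma Bd.L0 {z : ℍ} (b : Bd f z) : z.im ^ 2 * |LL (fc f) z| ≤ 1 / 25 := by
  have h1 := b.A2 1 1
  have h2 := b.A2 I I
  simp only [norm_one, Complex.norm_I, mul_one] at h1 h2
  have hy := pow_pos z.im_pos 2
  rw [LL]
  nlinarith [abs_add_le (iteratedFDeriv ℝ 2 (fc f) z ![1, 1]) (iteratedFDeriv ℝ 2 (fc f) z ![I, I])]

lemma Bd.L1 {z : ℍ} (b : Bd f z) (v : ℂ) : z.im ^ 3 * |dLL (fc f) z v| ≤ ‖v‖ / 25 := by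
  have h1 := b.A3 v 1 1
  have h2 := b.A3 v I I
  simp only [norm_one, Complex.norm_I, mul_one] at h1 h2
  have hy := pow_pos z.im_pos 3
  rw [dLL]
  nlinarith [abs_add_le (iteratedFDeriv ℝ 3 (fc f) z ![v, 1, 1])
    (iteratedFDeriv ℝ 3 (fc f) z ![v, I, I])]

lemma Bd.L2 {z : ℍ} (b : Bd f z) (v : ℂ) : z.im ^ 4 * |ddLL (fc f) z v| ≤ ‖v‖ ^ 2 / 25 := by
  have h1 := b.A4 v v 1 1
  have h2 := b.A4 v v I I
  simp only [norm_one, Complex.norm_I, mul_one] at h1 h2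
  have hy := pow_pos z.im_pos 4
  rw [ddLL]
  nlinarith [abs_add_le (iteratedFDeriv ℝ 4 (fc f) z ![v, v, 1, 1])
    (iteratedFDeriv ℝ 4 (fc f) z ![v, v, I, I])]

lemma Good.S0 (h : Good Γ f) {z : ℍ} (b : Bd f z) : |sc f z| ≤ 1 / 25 := by
  rw [h.sc_eq (coe_mem_UU z), abs_mul, abs_of_nonneg (sq_nonneg _)]
  exact b.L0

lemma Good.S1 (h : Good Γ f) {z : ℍ} (b : Bd f z) (v : ℂ) :
    z.im * |fderiv ℝ (sc f) z v| ≤ 3 / 25 * ‖v‖ := by
  rw [h.fderiv_sc (coe_mem_UU z)]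
  have hy : 0 < z.im := z.im_pos
  have e : (z : ℂ).im = z.im := rfl
  rw [e]
  have h0 := b.L0
  have h1 := b.L1 v
  have hv := abs_im_le_norm v
  have h2 : z.im * |2 * z.im * v.im * LL (fc f) z + z.im ^ 2 * dLL (fc f) z v| ≤
      2 * |v.im| * (z.im ^ 2 * |LL (fc f) z|) + z.im ^ 3 * |dLL (fc f) z v| := by
    have h3 := abs_add_le (2 * z.im * v.im * LL (fc f) z) (z.im ^ 2 * dLL (fc f) z v)
    rw [abs_mul, abs_mul, abs_mul, abs_mul, abs_of_pos hy, abs_of_pos (pow_pos hy 2),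
      abs_of_pos (two_pos : (0:ℝ) < 2)] at h3
    calc _ ≤ z.im * (2 * z.im * |v.im| * |LL (fc f) z| + z.im ^ 2 * |dLL (fc f) z v|) :=
          mul_le_mul_of_nonneg_left h3 hy.le
      _ = _ := by ring
  have h4 : 2 * |v.im| * (z.im ^ 2 * |LL (fc f) z|) ≤ 2 * ‖v‖ * (1 / 25) := by
    apply mul_le_mul _ h0 (by positivity) (by positivity)
    linarith
  linarith

lemma Good.S2 (h : Good Γ f) {z : ℍ} (b : Bd f z) (v : ℂ) :
    z.im ^ 2 * |fderiv ℝ (fun w => fderiv ℝ (sc f) w v) z v| ≤ 7 / 25 * ‖v‖ ^ 2 := by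
  rw [h.fderiv2_sc (coe_mem_UU z)]
  have hy : 0 < z.im := z.im_pos
  have e : (z : ℂ).im = z.im := rfl
  rw [e]
  have h0 := b.L0
  have h1 := b.L1 v
  have h2 := b.L2 v
  have hv := abs_im_le_norm v
  have hv0 := abs_nonneg v.im
  have hn := norm_nonneg v
  have h3 : z.im ^ 2 * |2 * v.im ^ 2 * LL (fc f) z + 4 * z.im * v.im * dLL (fc f) z v +
      z.im ^ 2 * ddLL (fc f) z v| ≤
      2 * |v.im| ^ 2 * (z.im ^ 2 * |LL (fc f) z|) + 4 * |v.im| * (z.im ^ 3 * |dLL (fc f) z v|) +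
        z.im ^ 4 * |ddLL (fc f) z v| := by
    have h3 := abs_add_three (2 * v.im ^ 2 * LL (fc f) z) (4 * z.im * v.im * dLL (fc f) z v)
      (z.im ^ 2 * ddLL (fc f) z v)
    rw [abs_mul, abs_mul, abs_mul (4 * z.im * v.im), abs_mul (4 * z.im), abs_mul 4, abs_mul (z.im ^ 2),
      abs_of_pos hy, abs_of_pos (pow_pos hy 2),
      abs_of_pos (two_pos : (0:ℝ) < 2), abs_of_pos (four_pos : (0:ℝ) < 4), abs_pow] at h3
    calc _ ≤ z.im ^ 2 * (2 * |v.im| ^ 2 * |LL (fc f) z| + 4 * z.im * |v.im| * |dLL (fc f) z v| +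
          z.im ^ 2 * |ddLL (fc f) z v|) :=
          mul_le_mul_of_nonneg_left h3 (by positivity)
      _ = _ := by ring
  have h4 : 2 * |v.im| ^ 2 * (z.im ^ 2 * |LL (fc f) z|) ≤ 2 * ‖v‖ ^ 2 * (1 / 25) := by
    apply mul_le_mul _ h0 (by positivity) (by positivity)
    have := pow_le_pow_left₀ hv0 hv 2
    linarith
  have h5 : 4 * |v.im| * (z.im ^ 3 * |dLL (fc f) z v|) ≤ 4 * ‖v‖ * (‖v‖ / 25) := by
    apply mul_le_mul _ h1 (by positivity) (by positivity)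
    linarith
  have h6 : 4 * ‖v‖ * (‖v‖ / 25) = 4 / 25 * ‖v‖ ^ 2 := by ring
  linarith

/-- first component of `∇(f - ½ log σ)` -/
noncomputable def W1 (f : ℍ → ℝ) (w : ℂ) : ℝ := fx f w - 1 / 2 * fderiv ℝ (sc f) w 1 / (1 + sc f w)
/-- second component of `∇(f - ½ log σ)` -/
noncomputable def W2 (f : ℍ → ℝ) (w : ℂ) : ℝ := fy f w - 1 / 2 * fderiv ℝ (sc f) w I / (1 + sc f w)

lemma Good.dW (h : Good Γ f) (a : ℂ) {w : ℂ} (hw : w ∈ UU) (h0 : 1 + sc f w ≠ 0) (v : ℂ) :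
    DifferentiableAt ℝ (fun w => fderiv ℝ (fc f) w a -
      1 / 2 * fderiv ℝ (sc f) w a / (1 + sc f w)) w ∧
    fderiv ℝ (fun w => fderiv ℝ (fc f) w a - 1 / 2 * fderiv ℝ (sc f) w a / (1 + sc f w)) w v =
      fderiv ℝ (fderiv ℝ (fc f)) w v a - (1 / 2 * fderiv ℝ (fderiv ℝ (sc f)) w v a / (1 + sc f w) -
        1 / 2 * fderiv ℝ (sc f) w a * fderiv ℝ (sc f) w v / (1 + sc f w) ^ 2) := by
  have hn := isOpen_UU.mem_nhds hw
  have d1 := h.four.d1 hw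
  have d2 : DifferentiableAt ℝ (fderiv ℝ (sc f)) w :=
    ((h.c2s.contDiffAt hn).fderiv_right (m := 1) (by norm_num)).differentiableAt (by norm_num)
  have d3 : DifferentiableAt ℝ (sc f) w := (h.c2s.contDiffAt hn).differentiableAt (by norm_num)
  have e1 : HasFDerivAt (fun w => fderiv ℝ (fc f) w a) (fderiv ℝ (fun w => fderiv ℝ (fc f) w a) w) w :=
    (d1.clm_apply (differentiableAt_const a)).hasFDerivAt
  have e2 : HasFDerivAt (fun w => fderiv ℝ (sc f) w a) (fderiv ℝ (fun w => fderiv ℝ (sc f) w a) w) w :=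
    (d2.clm_apply (differentiableAt_const a)).hasFDerivAt
  have e3 : HasFDerivAt (fun w => 1 + sc f w) (fderiv ℝ (sc f) w) w := d3.hasFDerivAt.const_add 1
  have e4 := hasFDerivAt_div_pow (e2.const_mul (1/2)) e3 h0 1
  simp only [pow_one] at e4
  have e5 := e1.fun_sub e4
  refine ⟨e5.differentiableAt, ?_⟩
  rw [e5.fderiv]
  simp only [sub_apply, smul_apply, smul_eq_mul]
  rw [fderiv_app d1, fderiv_app d2]
  norm_num
  ring

/-- Near-hyperbolic metrics satisfy the certificate inequality. -/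
lemma Good.near_pos (h : Good Γ f) (hb : ∀ z : ℍ, Bd f z) (z : ℍ) {v : ℂ} (hv : v ≠ 0) :
    -1 / 2 * normSq v < ((starRingEnd ℂ v) * covDerM (sig f 1) (XX f 1) z v).re := by
  have hz := coe_mem_UU z
  have hε : ∀ w ∈ UU, 0 < 1 + (1:ℝ) * sc f w := by
    intro w hw
    have h1 := h.S0 (hb ⟨w, hw⟩)
    have h2 : |sc f w| ≤ 1 / 25 := h1
    have := (abs_le.mp h2).1
    linarith
  have hσ := h.conf hε
  have b := hb z
  have hy : 0 < z.im := z.im_pos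
  have e0 : (z : ℂ).im = z.im := rfl
  have hQ := (abs_le.mp (h.S0 b)).1
  set Q := 1 + sc f z with hQdef
  have hQ1 : 24 / 25 ≤ Q := by rw [hQdef]; linarith
  have hQ0 : 0 < Q := by linarith
  -- the field
  have hXW : ∀ w ∈ UU, XX f 1 (ofComplex w) =
      ((W1 f w : ℂ) + I * (W2 f w : ℂ)) / (rho (sig f 1) w : ℂ) := by
    intro w hw
    rw [XX_eq f 1 hw, h.XX_form 1 hw (hε w hw), h.lamX_sig 1 hw (hε w hw).ne',
      h.lamY_sig 1 hw (hε w hw).ne', W1, W2]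
    congr 2
    · push_cast; ring
    · push_cast; ring
  have hd1 := h.dW 1 hz hQ0.ne' v
  have hdI := h.dW I hz hQ0.ne' v
  have hnab := nab_formula hσ hXW hd1.1 hdI.1 v
  have hrho : rho (sig f 1) z = Q / z.im ^ 2 := by
    rw [rho_sig f 1 hz, one_mul, e0]
  have hlX : lamX (sig f 1) z = 1 / 2 * fderiv ℝ (sc f) z 1 / Q := by
    rw [h.lamX_sig 1 hz (hε _ hz).ne', one_mul, hQdef]; ring
  have hlY : lamY (sig f 1) z = 1 / 2 * fderiv ℝ (sc f) z I / Q - 1 / z.im := by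
    rw [h.lamY_sig 1 hz (hε _ hz).ne', one_mul, hQdef, e0]; ring
  -- the pairings
  have pW : ∀ u : ℂ, W1 f z * u.re + W2 f z * u.im =
      fderiv ℝ (fc f) z u - 1 / 2 * fderiv ℝ (sc f) z u / Q := by
    intro u
    rw [clm_eq (fderiv ℝ (fc f) z) u, clm_eq (fderiv ℝ (sc f) z) u, W1, W2, fx, fy]
    ring
  have pL : ∀ u : ℂ, lamX (sig f 1) z * u.re + lamY (sig f 1) z * u.im =
      1 / 2 * fderiv ℝ (sc f) z u / Q - u.im / z.im := by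
    intro u
    rw [clm_eq (fderiv ℝ (sc f) z) u, hlX, hlY]
    ring
  have pD : fderiv ℝ (W1 f) z v * v.re + fderiv ℝ (W2 f) z v * v.im =
      iteratedFDeriv ℝ 2 (fc f) z ![v, v] -
        (1 / 2 * fderiv ℝ (fun w => fderiv ℝ (sc f) w v) z v / Q -
        1 / 2 * fderiv ℝ (sc f) z v ^ 2 / Q ^ 2) := by
    have d2 : DifferentiableAt ℝ (fderiv ℝ (sc f)) z :=
      ((h.c2s.contDiffAt (isOpen_UU.mem_nhds hz)).fderiv_right (m := 1)
        (by norm_num)).differentiableAt (by norm_num)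
    have f1 : fderiv ℝ (W1 f) z v = _ := hd1.2
    have f2 : fderiv ℝ (W2 f) z v = _ := hdI.2
    rw [f1, f2, fderiv_app d2, iteratedFDeriv_two_apply]
    change _ = fderiv ℝ (fderiv ℝ (fc f)) z v v - _
    rw [clm_eq (fderiv ℝ (fderiv ℝ (fc f)) z v) v, clm_eq (fderiv ℝ (fderiv ℝ (sc f)) z v) v,
      clm_eq (fderiv ℝ (sc f) z) v]
    ring
  -- the bounds
  have bdiv : ∀ x c : ℝ, 0 ≤ c → |x| ≤ c → |x / Q| ≤ 25 / 24 * c := by
    intro x c hc hx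
    rw [abs_div, abs_of_pos hQ0, div_le_iff₀ hQ0]
    nlinarith
  have bW : ∀ u : ℂ, |z.im * (W1 f z * u.re + W2 f z * u.im)| ≤ 33 / 400 * ‖u‖ := by
    intro u
    rw [pW]
    have h1 := b.A1 u
    have h2 := h.S1 b u
    have hn := norm_nonneg u
    have h3 : |z.im * fderiv ℝ (fc f) z u| ≤ ‖u‖ / 50 := by
      rw [abs_mul, abs_of_pos hy]; exact h1
    have h4 : |z.im * fderiv ℝ (sc f) z u / Q| ≤ 25 / 24 * (3 / 25 * ‖u‖) := by
      apply bdiv _ _ (by positivity)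
      rw [abs_mul, abs_of_pos hy]; exact h2
    have e : z.im * (fderiv ℝ (fc f) z u - 1 / 2 * fderiv ℝ (sc f) z u / Q) =
        z.im * fderiv ℝ (fc f) z u - 1 / 2 * (z.im * fderiv ℝ (sc f) z u / Q) := by ring
    rw [e]
    rw [abs_le] at *
    constructor <;> linarith [h3.1, h3.2, h4.1, h4.2]
  have bL : ∀ u : ℂ, |z.im * (lamX (sig f 1) z * u.re + lamY (sig f 1) z * u.im)| ≤
      17 / 16 * ‖u‖ := by
    intro u
    rw [pL]
    have h2 := h.S1 b u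
    have hn := norm_nonneg u
    have h4 : |z.im * fderiv ℝ (sc f) z u / Q| ≤ 25 / 24 * (3 / 25 * ‖u‖) := by
      apply bdiv _ _ (by positivity)
      rw [abs_mul, abs_of_pos hy]; exact h2
    have h5 := abs_im_le_norm u
    have e : z.im * (1 / 2 * fderiv ℝ (sc f) z u / Q - u.im / z.im) =
        1 / 2 * (z.im * fderiv ℝ (sc f) z u / Q) - u.im := by
      field_simp
    rw [e]
    rw [abs_le] at *
    constructor <;> linarith [h4.1, h4.2, h5.1, h5.2]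
  have bWn : z.im * ‖(⟨W1 f z, W2 f z⟩ : ℂ)‖ ≤ 33 / 400 := by
    set u : ℂ := ⟨W1 f z, W2 f z⟩ with hu
    have h1 := bW u
    have h2 : W1 f z * u.re + W2 f z * u.im = ‖u‖ ^ 2 := by
      rw [← normSq_eq_norm_sq, normSq_apply]
    rw [h2, abs_of_nonneg (by positivity)] at h1
    by_cases h0 : ‖u‖ = 0
    · rw [h0]; norm_num
    · have hpos : 0 < ‖u‖ := lt_of_le_of_ne (norm_nonneg u) (Ne.symm h0)
      have h3 : (z.im * ‖u‖) * ‖u‖ ≤ 33 / 400 * ‖u‖ := by nlinarith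
      exact le_of_mul_le_mul_right h3 hpos
  have bLW : |z.im ^ 2 * (lamX (sig f 1) z * W1 f z + lamY (sig f 1) z * W2 f z)| ≤
      17 / 16 * (33 / 400) := by
    have h1 := bL ⟨W1 f z, W2 f z⟩
    simp only at h1
    rw [show z.im ^ 2 * (lamX (sig f 1) z * W1 f z + lamY (sig f 1) z * W2 f z) =
      z.im * (z.im * (lamX (sig f 1) z * W1 f z + lamY (sig f 1) z * W2 f z)) by ring,
      abs_mul, abs_of_pos hy]
    calc _ ≤ z.im * (17 / 16 * ‖(⟨W1 f z, W2 f z⟩ : ℂ)‖) := mul_le_mul_of_nonneg_left h1 hy.le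
      _ = 17 / 16 * (z.im * ‖(⟨W1 f z, W2 f z⟩ : ℂ)‖) := by ring
      _ ≤ _ := mul_le_mul_of_nonneg_left bWn (by norm_num)
  have bD : |z.im ^ 2 * (fderiv ℝ (W1 f) z v * v.re + fderiv ℝ (W2 f) z v * v.im)| ≤
      174 / 1000 * ‖v‖ ^ 2 := by
    rw [pD]
    have h1 := b.A2 v v
    have h2 := h.S2 b v
    have h3 := h.S1 b v
    have hn := norm_nonneg v
    have i1 : |z.im ^ 2 * iteratedFDeriv ℝ 2 (fc f) z ![v, v]| ≤ ‖v‖ * ‖v‖ / 50 := by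
      rw [abs_mul, abs_of_pos (pow_pos hy 2)]; exact h1
    have i2 : |z.im ^ 2 * fderiv ℝ (fun w => fderiv ℝ (sc f) w v) z v / Q| ≤
        25 / 24 * (7 / 25 * ‖v‖ ^ 2) := by
      apply bdiv _ _ (by positivity)
      rw [abs_mul, abs_of_pos (pow_pos hy 2)]; exact h2
    have i3 : |z.im * fderiv ℝ (sc f) z v / Q| ≤ 25 / 24 * (3 / 25 * ‖v‖) := by
      apply bdiv _ _ (by positivity)
      rw [abs_mul, abs_of_pos hy]; exact h3
    have i4 : (z.im * fderiv ℝ (sc f) z v / Q) ^ 2 ≤ (1 / 8 * ‖v‖) ^ 2 := by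
      rw [← sq_abs]
      refine pow_le_pow_left₀ (abs_nonneg _) (i3.trans (le_of_eq (by ring))) 2
    have i5 := sq_nonneg (z.im * fderiv ℝ (sc f) z v / Q)
    have e : z.im ^ 2 * (iteratedFDeriv ℝ 2 (fc f) z ![v, v] -
        (1 / 2 * fderiv ℝ (fun w => fderiv ℝ (sc f) w v) z v / Q -
        1 / 2 * fderiv ℝ (sc f) z v ^ 2 / Q ^ 2)) =
        z.im ^ 2 * iteratedFDeriv ℝ 2 (fc f) z ![v, v] -
        1 / 2 * (z.im ^ 2 * fderiv ℝ (fun w => fderiv ℝ (sc f) w v) z v / Q) +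
        1 / 2 * (z.im * fderiv ℝ (sc f) z v / Q) ^ 2 := by
      rw [div_pow]; ring
    rw [e]
    rw [abs_le] at i1 i2 ⊢
    have hn2 : 0 ≤ ‖v‖ ^ 2 := by positivity
    have j1 : ‖v‖ * ‖v‖ / 50 = 1 / 50 * ‖v‖ ^ 2 := by ring
    have j2 : (1 / 8 * ‖v‖) ^ 2 = 1 / 64 * ‖v‖ ^ 2 := by ring
    rw [j1] at i1
    rw [j2] at i4
    constructor <;> linarith [i1.1, i1.2, i2.1, i2.2]
  -- conclusion
  have hnpos : 0 < ‖v‖ := norm_pos_iff.mpr hv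
  have c1 := bW v
  have c2 := bL v
  have c3 : |(z.im * (lamX (sig f 1) z * v.re + lamY (sig f 1) z * v.im)) *
      (z.im * (W1 f z * v.re + W2 f z * v.im))| ≤ 17 / 16 * ‖v‖ * (33 / 400 * ‖v‖) := by
    rw [abs_mul]
    exact mul_le_mul c2 c1 (abs_nonneg _) (by positivity)
  have c4 : |z.im ^ 2 * (lamX (sig f 1) z * W1 f z + lamY (sig f 1) z * W2 f z) * normSq v| ≤
      17 / 16 * (33 / 400) * ‖v‖ ^ 2 := by
    rw [abs_mul, normSq_eq_norm_sq, abs_of_nonneg (sq_nonneg ‖v‖)]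
    exact mul_le_mul_of_nonneg_right bLW (sq_nonneg _)
  set R := ((starRingEnd ℂ v) * covDerM (sig f 1) (XX f 1) z v).re with hR
  have hfin : Q * R = z.im ^ 2 * (fderiv ℝ (W1 f) z v * v.re + fderiv ℝ (W2 f) z v * v.im) -
      2 * ((z.im * (lamX (sig f 1) z * v.re + lamY (sig f 1) z * v.im)) *
      (z.im * (W1 f z * v.re + W2 f z * v.im))) +
      z.im ^ 2 * (lamX (sig f 1) z * W1 f z + lamY (sig f 1) z * W2 f z) * normSq v := by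
    rw [hrho] at hnab
    have h6 : fderiv ℝ (W1 f) z v = fderiv ℝ (fun w => fderiv ℝ (fc f) w 1 -
      1 / 2 * fderiv ℝ (sc f) w 1 / (1 + sc f w)) z v := rfl
    have h7 : z.im ^ 2 * (Q / z.im ^ 2 * R) = Q * R := by field_simp
    rw [← h7, hnab]
    ring
  have hn2 : 0 < ‖v‖ ^ 2 := by positivity
  have c5 : -(437 / 1000) * ‖v‖ ^ 2 ≤ Q * R := by
    rw [hfin]
    have d1 := (abs_le.mp bD).1
    have d2 := (abs_le.mp c3).2
    have d3 := (abs_le.mp c4).1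
    have j1 : 17 / 16 * ‖v‖ * (33 / 400 * ‖v‖) = 561 / 6400 * ‖v‖ ^ 2 := by ring
    rw [j1] at d2
    linarith
  rw [normSq_eq_norm_sq]
  by_contra hcon
  push Not at hcon
  have j1 := mul_le_mul_of_nonneg_left hcon hQ0.le
  have j2 := mul_le_mul_of_nonneg_right hQ1 hn2.le
  linarith

/-- **Near-hyperbolic metrics have no closed geodesics.** -/
theorem noClosedGeodesic_near (hΓ : IsClosedSurfaceGroup Γ)
    (hf : ContDiffOn ℝ 4 (fun w : ℂ => f (ofComplex w)) {w | 0 < w.im})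
    (hi : ∀ γ ∈ Γ, ∀ z, f (γ • z) = f z)
    (hb : ∀ j : ℕ, 1 ≤ j → j ≤ 4 → ∀ z : ℍ,
      z.im ^ j * ‖iteratedFDeriv ℝ j (fun w : ℂ => f (ofComplex w)) z‖ ≤ 1 / 50) :
    IsConformalFactor Γ (fun z => 1 + hypLap f z) ∧
      NoClosedGeodesic Γ (fun z => 1 + hypLap f z) := by
  have h : Good Γ f := ⟨hf, hi⟩
  have hB : ∀ z : ℍ, Bd f z := fun z => ⟨hb 1 le_rfl (by norm_num) z, hb 2 (by norm_num) (by norm_num) z,
    hb 3 (by norm_num) (by norm_num) z, hb 4 (by norm_num) le_rfl z⟩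
  have hε : ∀ w ∈ UU, 0 < 1 + (1:ℝ) * sc f w := by
    intro w hw
    have h1 := h.S0 (hB ⟨w, hw⟩)
    have h2 : |sc f w| ≤ 1 / 25 := h1
    have := (abs_le.mp h2).1
    linarith
  have hσ := h.conf hε
  have e : sig f 1 = fun z => 1 + hypLap f z := by
    funext z
    simp [sig]
  have hcert : IsCertificate Γ (sig f 1) (-1) (XX f 1) :=
    ⟨h.contDiffOn_XX hε, fun γ hγ z => h.XX_inv hε hγ z, fun z => h.div_XX hε z,
      fun z v hv => h.near_pos hB z hv⟩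
  rw [← e]
  exact ⟨hσ, noClosedGeodesic_of_certificate hΓ hσ hcert⟩

end Pool.Agent.CG
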