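import Pool.Agent.Lib.MP_35454f.Unfold

/-!
# Weak exterior derivatives of continuous one-forms on the upper half-plane
-/

set_option autoImplicit false

open MeasureTheory Filter Topology Complex Set
open UpperHalfPlane hiding I
open scoped ContDiff Manifold MatrixGroups

namespace Pool.Agent.CG

/-- `WD β κ`: the continuous one-form `β` has weak exterior derivative `κ dx dy` on the upper
half-plane, with `κ` continuous. -/
def WD (β : ℂ → ℂ →L[ℝ] ℝ) (κ : ℂ → ℝ) : Prop :=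
  ContinuousOn β UU ∧ ContinuousOn κ UU ∧
    ∀ f : ℂ → ℝ, ContDiff ℝ 1 f → HasCompactSupport f → tsupport f ⊆ UU →
      ∫ z, f z * κ z = - ∫ z, wedge (fderiv ℝ f z) (β z)

lemma integrable_mul {f g : ℂ → ℝ} (hf : ContinuousOn f UU) (hfc : HasCompactSupport f)
    (hfU : tsupport f ⊆ UU) (hg : ContinuousOn g UU) : Integrable fun z => f z * g z := by
  refine integrable_loc isOpen_UU hfc hfU (hf.mul hg) ?_
  intro z hz
  simp [image_eq_zero_of_notMem_tsupport hz]

lemma integrable_wedge {f : ℂ → ℝ} {β : ℂ → ℂ →L[ℝ] ℝ} (hf : ContDiff ℝ 1 f)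
    (hfc : HasCompactSupport f) (hfU : tsupport f ⊆ UU) (hβ : ContinuousOn β UU) :
    Integrable fun z => wedge (fderiv ℝ f z) (β z) := by
  refine integrable_loc isOpen_UU hfc hfU
    (ContinuousOn.wedge (hf.continuous_fderiv one_ne_zero).continuousOn hβ) ?_
  intro z hz
  have h0 : f =ᶠ[𝓝 z] fun _ => 0 := notMem_tsupport_iff_eventuallyEq.mp hz
  rw [h0.fderiv_eq]
  simp [wedge]

lemma WD.mul {P Q : ℂ → ℝ} (hP : ContDiffOn ℝ 1 P UU) (hQ : ContDiffOn ℝ 1 Q UU) :
    WD (fun z => P z • fderiv ℝ Q z) (fun z => wedge (fderiv ℝ P z) (fderiv ℝ Q z)) := by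
  have hP' := hP.continuousOn_fderiv_of_isOpen isOpen_UU (by simp)
  have hQ' := hQ.continuousOn_fderiv_of_isOpen isOpen_UU (by simp)
  refine ⟨hP.continuousOn.smul hQ', ContinuousOn.wedge hP' hQ', fun f hf hfc hfU => ?_⟩
  rw [integral_null isOpen_UU hf hfc hfU hP hQ]
  simp only [wedge_smul_right]

lemma WD.add {β β' : ℂ → ℂ →L[ℝ] ℝ} {κ κ' : ℂ → ℝ} (h : WD β κ) (h' : WD β' κ') :
    WD (fun z => β z + β' z) (fun z => κ z + κ' z) := by
  refine ⟨h.1.add h'.1, h.2.1.add h'.2.1, fun f hf hfc hfU => ?_⟩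
  simp only [mul_add, wedge_add_right]
  rw [integral_add (integrable_mul hf.continuous.continuousOn hfc hfU h.2.1)
    (integrable_mul hf.continuous.continuousOn hfc hfU h'.2.1),
    integral_add (integrable_wedge hf hfc hfU h.1) (integrable_wedge hf hfc hfU h'.1),
    h.2.2 f hf hfc hfU, h'.2.2 f hf hfc hfU]
  ring

lemma WD.smul_const (c : ℝ) {β : ℂ → ℂ →L[ℝ] ℝ} {κ : ℂ → ℝ} (h : WD β κ) :
    WD (fun z => c • β z) (fun z => c * κ z) := by
  refine ⟨h.1.const_smul c, continuousOn_const.mul h.2.1, fun f hf hfc hfU => ?_⟩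
  simp only [wedge_smul_right, integral_const_mul]
  rw [← mul_neg, ← h.2.2 f hf hfc hfU, ← integral_const_mul]
  congr 1
  ext z
  ring

lemma WD.congr {β β' : ℂ → ℂ →L[ℝ] ℝ} {κ κ' : ℂ → ℝ} (h : WD β κ)
    (hβ : ∀ z ∈ UU, β' z = β z) (hκ : ∀ z ∈ UU, κ' z = κ z) : WD β' κ' := by
  refine ⟨h.1.congr hβ, h.2.1.congr hκ, fun f hf hfc hfU => ?_⟩
  have h1 : ∫ z, f z * κ' z = ∫ z, f z * κ z := by
    congr 1
    ext z
    by_cases hz : z ∈ UU
    · rw [hκ z hz]
    · simp [image_eq_zero_of_notMem_tsupport fun h => hz (hfU h)]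
  have h2 : ∫ z, wedge (fderiv ℝ f z) (β' z) = ∫ z, wedge (fderiv ℝ f z) (β z) := by
    congr 1
    ext z
    by_cases hz : z ∈ UU
    · rw [hβ z hz]
    · have h0 : f =ᶠ[𝓝 z] fun _ => 0 :=
        notMem_tsupport_iff_eventuallyEq.mp fun h => hz (hfU h)
      rw [h0.fderiv_eq]
      simp [wedge]
  rw [h1, h2, h.2.2 f hf hfc hfU]

lemma WD.neg {β : ℂ → ℂ →L[ℝ] ℝ} {κ : ℂ → ℝ} (h : WD β κ) :
    WD (fun z => - β z) (fun z => - κ z) := by
  refine (h.smul_const (-1)).congr (fun z _ => ?_) (fun z _ => ?_)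
  · ext w
    simp
  · ring

lemma WD.sub {β β' : ℂ → ℂ →L[ℝ] ℝ} {κ κ' : ℂ → ℝ} (h : WD β κ) (h' : WD β' κ') :
    WD (fun z => β z - β' z) (fun z => κ z - κ' z) := by
  simpa [sub_eq_add_neg] using h.add h'.neg

lemma WD.exact {Q : ℂ → ℝ} (hQ : ContDiffOn ℝ 1 Q UU) : WD (fun z => fderiv ℝ Q z) (fun _ => 0) := by
  have h := WD.mul (P := fun _ => 1) contDiffOn_const hQ
  refine h.congr (fun z _ => by simp) (fun z _ => ?_)
  simp [wedge]

lemma WD.leibniz {θ : ℂ → ℝ} {β : ℂ → ℂ →L[ℝ] ℝ} {κ : ℂ → ℝ} (hθ : ContDiffOn ℝ 1 θ UU)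
    (h : WD β κ) : WD (fun z => θ z • β z) (fun z => wedge (fderiv ℝ θ z) (β z) + θ z * κ z) := by
  have hθ' := hθ.continuousOn_fderiv_of_isOpen isOpen_UU (by simp)
  refine ⟨hθ.continuousOn.smul h.1, (ContinuousOn.wedge hθ' h.1).add (hθ.continuousOn.mul h.2.1),
    fun f hf hfc hfU => ?_⟩
  have hs : tsupport (fun z => f z * θ z) ⊆ tsupport f :=
    closure_mono (fun x hx => by intro h; exact hx (by simp [h]))
  have h1 := h.2.2 _ (contDiff_mul_loc isOpen_UU hf hfU hθ) hfc.mul_right (hs.trans hfU)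
  simp only [fderiv_mul_loc isOpen_UU hf hfU hθ, wedge_add_left, wedge_smul_left] at h1
  rw [integral_add] at h1
  · simp only [mul_add, wedge_smul_right]
    rw [integral_add]
    · have e : ∫ z, f z * (θ z * κ z) = ∫ z, f z * θ z * κ z := by
        congr 1; ext z; ring
      rw [e, h1]
      ring
    · exact integrable_mul hf.continuous.continuousOn hfc hfU (ContinuousOn.wedge hθ' h.1)
    · exact integrable_mul hf.continuous.continuousOn hfc hfU (hθ.continuousOn.mul h.2.1)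
  · exact integrable_mul hf.continuous.continuousOn hfc hfU (ContinuousOn.wedge hθ' h.1)
  · have := integrable_wedge hf hfc hfU (hθ.continuousOn.smul h.1)
    simpa only [Pi.smul_apply', wedge_smul_right] using this

lemma WD.unique {β : ℂ → ℂ →L[ℝ] ℝ} {κ κ' : ℂ → ℝ} (h : WD β κ) (h' : WD β κ') :
    ∀ z ∈ UU, κ z = κ' z := by
  have h0 : ∀ᵐ z, z ∈ UU → κ z - κ' z = 0 := by
    refine isOpen_UU.ae_eq_zero_of_integral_contDiff_smul_eq_zero (μ := (volume : Measure ℂ)) ?_ ?_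
    · exact (h.2.1.sub h'.2.1).locallyIntegrableOn isOpen_UU.measurableSet
    · intro g hg hgc hgU
      simp only [smul_eq_mul, mul_sub]
      have hg1 : ContDiff ℝ 1 g := hg.of_le (by simp)
      rw [integral_sub (integrable_mul hg.continuous.continuousOn hgc hgU h.2.1)
        (integrable_mul hg.continuous.continuousOn hgc hgU h'.2.1),
        h.2.2 g hg1 hgc hgU, h'.2.2 g hg1 hgc hgU, sub_self]
  intro z hz
  by_contra hne
  have hcont : ContinuousOn (fun z => κ z - κ' z) UU := h.2.1.sub h'.2.1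
  have hopen : IsOpen (UU ∩ {z | κ z - κ' z ≠ 0}) := by
    have := hcont.isOpen_inter_preimage isOpen_UU (isOpen_compl_singleton (x := (0:ℝ)))
    exact this
  have hmem : z ∈ UU ∩ {z | κ z - κ' z ≠ 0} := ⟨hz, sub_ne_zero.mpr hne⟩
  have hpos : 0 < volume (UU ∩ {z | κ z - κ' z ≠ 0}) := hopen.measure_pos _ ⟨z, hmem⟩
  have hzero : volume (UU ∩ {z | κ z - κ' z ≠ 0}) = 0 := by
    refine measure_mono_null ?_ (ae_iff.mp h0)
    rintro w ⟨hw, hw'⟩
    simp only [Set.mem_ofPred_eq]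
    push Not
    exact ⟨hw, hw'⟩
  exact absurd hzero hpos.ne'

end Pool.Agent.CG
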